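import Mathlib

/-!
# Abstract pair-sum lower bound in an inner product space
-/

set_option autoImplicit false

open scoped InnerProductSpace ComplexInnerProductSpace
open Finset

namespace Pool.Agent.H.MP_d1ae63_mp

section

variable {V : Type*} [NormedAddCommGroup V] [InnerProductSpace ℂ V]
variable {ι : Type*} [DecidableEq ι]

/-- a family of symmetric operators (one for each particle) -/
structure SymFam (s : Finset ι) (A : ι → V →L[ℂ] V) : Prop where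
  sym : ∀ i ∈ s, ∀ x y, ⟪A i x, y⟫_ℂ = ⟪x, A i y⟫_ℂ

/-- families acting on different particles commute -/
def CommFam (s : Finset ι) (A B : ι → V →L[ℂ] V) : Prop :=
  ∀ i ∈ s, ∀ k ∈ s, i ≠ k → ∀ x, A i (B k x) = B k (A i x)

omit [DecidableEq ι] in
theorem sum_offDiag_swap {M : Type*} [AddCommMonoid M] (s : Finset ι) (f : ι → ι → M) :
    ∑ p ∈ s.offDiag, f p.1 p.2 = ∑ p ∈ s.offDiag, f p.2 p.1 := by
  refine Finset.sum_nbij' Prod.swap Prod.swap ?_ ?_ ?_ ?_ ?_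
  · intro p hp
    simp only [mem_offDiag, Prod.fst_swap, Prod.snd_swap] at hp ⊢
    exact ⟨hp.2.1, hp.1, fun h => hp.2.2 h.symm⟩
  · intro p hp
    simp only [mem_offDiag, Prod.fst_swap, Prod.snd_swap] at hp ⊢
    exact ⟨hp.2.1, hp.1, fun h => hp.2.2 h.symm⟩
  · intro p _; simp
  · intro p _; simp
  · intro p _; simp

theorem sum_offDiag_eq {M : Type*} [AddCommMonoid M] (s : Finset ι) (f : ι → ι → M) :
    ∑ p ∈ s.offDiag, f p.1 p.2 = ∑ k ∈ s, ∑ i ∈ s.erase k, f i k := by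
  rw [Finset.sum_sigma']
  refine Finset.sum_nbij' (fun p => ⟨p.2, p.1⟩) (fun q => (q.2, q.1)) ?_ ?_ ?_ ?_ ?_
  · intro p hp
    simp only [mem_offDiag] at hp
    simp [hp.1, hp.2.1, hp.2.2]
  · intro q hq
    simp only [mem_sigma, mem_erase] at hq
    simp [hq.1, hq.2.2, hq.2.1]
  · intro p _; rfl
  · intro q _; rfl
  · intro p _; rfl

/-- sum over the off-diagonal of a quantity depending only on the second index -/
theorem sum_offDiag_snd_le (s : Finset ι) (f : ι → ℝ) (hf : ∀ i ∈ s, 0 ≤ f i) :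
    ∑ p ∈ s.offDiag, f p.2 ≤ s.card * ∑ k ∈ s, f k := by
  rw [sum_offDiag_eq s (fun _ k => f k), Finset.mul_sum]
  apply Finset.sum_le_sum
  intro k hk
  rw [Finset.sum_const, nsmul_eq_mul]
  apply mul_le_mul_of_nonneg_right _ (hf k hk)
  exact_mod_cast Finset.card_le_card (Finset.erase_subset k s)

/-- `‖∑ xⱼ‖² ≤ ∑ ‖xⱼ‖² + ∑_{j≠k} Re⟪xⱼ,xₖ⟫` (equality in fact) -/
theorem norm_sq_sum_eq (s : Finset ι) (x : ι → V) :
    ‖∑ j ∈ s, x j‖ ^ 2 = ∑ j ∈ s, ‖x j‖ ^ 2 + ∑ p ∈ s.offDiag, (⟪x p.1, x p.2⟫_ℂ).re := by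
  have h1 : ‖∑ j ∈ s, x j‖ ^ 2 = (⟪∑ j ∈ s, x j, ∑ j ∈ s, x j⟫_ℂ).re := by
    rw [← Complex.ofReal_re (‖∑ j ∈ s, x j‖ ^ 2)]
    congr 1
    rw [inner_self_eq_norm_sq_to_K]
    norm_cast
  have h2 : ∀ j, ‖x j‖ ^ 2 = (⟪x j, x j⟫_ℂ).re := by
    intro j
    rw [← Complex.ofReal_re (‖x j‖ ^ 2)]
    congr 1
    rw [inner_self_eq_norm_sq_to_K]
    norm_cast
  rw [h1, sum_inner]
  simp_rw [inner_sum, h2]
  rw [Complex.re_sum]
  simp_rw [Complex.re_sum]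
  rw [← Finset.sum_product', ← Finset.diag_union_offDiag,
    Finset.sum_union (Finset.disjoint_diag_offDiag s)]
  congr 1
  rw [Finset.sum_diag]

theorem re_inner_le_half (x y : V) : |(⟪x, y⟫_ℂ).re| ≤ (‖x‖ ^ 2 + ‖y‖ ^ 2) / 2 := by
  have h := norm_inner_le_norm (𝕜 := ℂ) x y
  have h2 : |(⟪x, y⟫_ℂ).re| ≤ ‖⟪x, y⟫_ℂ‖ := Complex.abs_re_le_norm _
  nlinarith [sq_nonneg (‖x‖ - ‖y‖), norm_nonneg x, norm_nonneg y]

/-- hypotheses of the abstract pair lemma -/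
structure PairData (s : Finset ι) (a G R : ι → V →L[ℂ] V) (κ CR : ℝ) : Prop where
  κ0 : 0 ≤ κ
  CR0 : 0 ≤ CR
  asym : ∀ i ∈ s, ∀ x y, ⟪a i x, y⟫_ℂ = ⟪x, a i y⟫_ℂ
  aidem : ∀ i ∈ s, ∀ x, a i (a i x) = a i x
  Gsym : ∀ i ∈ s, ∀ x y, ⟪G i x, y⟫_ℂ = ⟪x, G i y⟫_ℂ
  Rdef : ∀ i ∈ s, ∀ x, R i x = x - G i x
  aa : CommFam s a a
  aG : CommFam s a G
  GG : CommFam s G G
  bound : ∀ i ∈ s, ∀ x, ‖a i (G i x)‖ ^ 2 ≤ κ * ‖x‖ ^ 2
  Rbound : ∀ i ∈ s, ∀ x, ‖R i x‖ ≤ CR * ‖x‖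

namespace PairData

variable {s : Finset ι} {a G R : ι → V →L[ℂ] V} {κ CR : ℝ}

omit [DecidableEq ι] in
theorem Rsym (h : PairData s a G R κ CR) : ∀ i ∈ s, ∀ x y, ⟪R i x, y⟫_ℂ = ⟪x, R i y⟫_ℂ := by
  intro i hi x y
  rw [h.Rdef i hi, h.Rdef i hi, inner_sub_left, inner_sub_right, h.Gsym i hi]

omit [DecidableEq ι] in
theorem aR (h : PairData s a G R κ CR) : CommFam s a R := by
  intro i hi k hk hik x
  rw [h.Rdef k hk, h.Rdef k hk, map_sub, h.aG i hi k hk hik]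

omit [DecidableEq ι] in
theorem Ga (h : PairData s a G R κ CR) : CommFam s G a := by
  intro i hi k hk hik x
  exact (h.aG k hk i hi hik.symm x).symm

omit [DecidableEq ι] in
theorem Ra (h : PairData s a G R κ CR) : CommFam s R a := by
  intro i hi k hk hik x
  exact (h.aR k hk i hi hik.symm x).symm

omit [DecidableEq ι] in
theorem GR (h : PairData s a G R κ CR) : CommFam s G R := by
  intro i hi k hk hik x
  rw [h.Rdef k hk, h.Rdef k hk, map_sub, h.GG i hi k hk hik]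

omit [DecidableEq ι] in
theorem RG (h : PairData s a G R κ CR) : CommFam s R G := by
  intro i hi k hk hik x
  exact (h.GR k hk i hi hik.symm x).symm

omit [DecidableEq ι] in
theorem RR (h : PairData s a G R κ CR) : CommFam s R R := by
  intro i hi k hk hik x
  rw [h.Rdef k hk, h.Rdef k hk, map_sub, h.RG i hi k hk hik]

omit [DecidableEq ι] in
/-- `‖G a x‖² ≤ κ ‖a x‖²` -/
theorem Ga_bound (h : PairData s a G R κ CR) {i : ι} (hi : i ∈ s) (x : V) :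
    ‖G i (a i x)‖ ^ 2 ≤ κ * ‖a i x‖ ^ 2 := by
  have e1 : ⟪G i (a i x), G i (a i x)⟫_ℂ = ⟪a i x, a i (G i (G i (a i x)))⟫_ℂ := by
    rw [h.Gsym i hi, ← h.asym i hi, h.aidem i hi]
  have e2 : ‖G i (a i x)‖ ^ 2 ≤ ‖a i x‖ * ‖a i (G i (G i (a i x)))‖ := by
    have : (‖G i (a i x)‖ ^ 2 : ℝ) = ‖⟪G i (a i x), G i (a i x)⟫_ℂ‖ := by
      rw [inner_self_eq_norm_sq_to_K]; simp
    rw [this, e1]
    exact norm_inner_le_norm _ _
  have e3 := h.bound i hi (G i (a i x))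
  have hκ := h.κ0
  rcases eq_or_lt_of_le (norm_nonneg (G i (a i x))) with h0 | h0
  · rw [← h0]
    have := mul_nonneg hκ (sq_nonneg ‖a i x‖)
    simpa using this
  · -- square e2
    have e4 : (‖G i (a i x)‖ ^ 2) ^ 2 ≤ ‖a i x‖ ^ 2 * (κ * ‖G i (a i x)‖ ^ 2) := by
      calc (‖G i (a i x)‖ ^ 2) ^ 2 ≤ (‖a i x‖ * ‖a i (G i (G i (a i x)))‖) ^ 2 :=
            pow_le_pow_left₀ (by positivity) e2 2
        _ = ‖a i x‖ ^ 2 * ‖a i (G i (G i (a i x)))‖ ^ 2 := by ring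
        _ ≤ _ := mul_le_mul_of_nonneg_left e3 (by positivity)
    have e5 : 0 < ‖G i (a i x)‖ ^ 2 := by positivity
    nlinarith

omit [DecidableEq ι] in
/-- `‖a_i a_k G_i w‖² ≤ κ ‖a_k w‖²` for `i ≠ k` -/
theorem aaG_bound (h : PairData s a G R κ CR) {i k : ι} (hi : i ∈ s) (hk : k ∈ s) (hik : i ≠ k)
    (w : V) : ‖a i (a k (G i w))‖ ^ 2 ≤ κ * ‖a k w‖ ^ 2 := by
  rw [← h.Ga i hi k hk hik]
  exact h.bound i hi _

omit [DecidableEq ι] in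
theorem aG_le (h : PairData s a G R κ CR) {i : ι} (hi : i ∈ s) (x : V) :
    ‖a i x‖ ≤ ‖x‖ := by
  have e1 : ‖a i x‖ ^ 2 ≤ ‖x‖ * ‖a i x‖ := by
    have : (‖a i x‖ ^ 2 : ℝ) = ‖⟪a i x, a i x⟫_ℂ‖ := by
      rw [inner_self_eq_norm_sq_to_K]; simp
    rw [this, h.asym i hi, h.aidem i hi]
    exact norm_inner_le_norm _ _
  rcases eq_or_lt_of_le (norm_nonneg (a i x)) with h0 | h0
  · rw [← h0]; exact norm_nonneg _
  · nlinarith

end PairData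

omit [DecidableEq ι] in
/-- exchange of the outer operators in an off-diagonal inner product -/
theorem inner_exchange {s : Finset ι} {a P S : ι → V →L[ℂ] V}
    (asym : ∀ i ∈ s, ∀ x y, ⟪a i x, y⟫_ℂ = ⟪x, a i y⟫_ℂ)
    (aidem : ∀ i ∈ s, ∀ x, a i (a i x) = a i x)
    (Psym : ∀ i ∈ s, ∀ x y, ⟪P i x, y⟫_ℂ = ⟪x, P i y⟫_ℂ)
    (aa : CommFam s a a) (Pa : CommFam s P a) (PS : CommFam s P S) (PP : CommFam s P P)
    {j k : ι} (hj : j ∈ s) (hk : k ∈ s) (hjk : j ≠ k) (w : V) :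
    ⟪P j (a j (S j w)), P k (a k (S k w))⟫_ℂ
      = ⟪a k (a j (S j (P k w))), a j (a k (S k (P j w)))⟫_ℂ := by
  have hkj : k ≠ j := hjk.symm
  rw [Psym j hj, PP j hj k hk hjk, Pa j hj k hk hjk, PS j hj k hk hjk, ← Psym k hk,
    Pa k hk j hj hkj, PS k hk j hj hkj]
  -- now `⟪a_j X, a_k Y⟫` with `X = S_j P_k w`, `Y = S_k P_j w`
  set X := S j (P k w)
  set Y := S k (P j w)
  rw [asym k hk (a j X), ← aa j hj k hk hjk, aidem k hk, ← asym j hj, aidem j hj]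

/-- bound for `‖∑ e_j P_j a_j S_j w‖²` -/
theorem norm_sq_sum_PaS_le {s : Finset ι} {a P S : ι → V →L[ℂ] V} (e : ι → ℝ)
    (he : ∀ i ∈ s, |e i| ≤ 1)
    (asym : ∀ i ∈ s, ∀ x y, ⟪a i x, y⟫_ℂ = ⟪x, a i y⟫_ℂ)
    (aidem : ∀ i ∈ s, ∀ x, a i (a i x) = a i x)
    (Psym : ∀ i ∈ s, ∀ x y, ⟪P i x, y⟫_ℂ = ⟪x, P i y⟫_ℂ)
    (aa : CommFam s a a) (Pa : CommFam s P a) (PS : CommFam s P S) (PP : CommFam s P P)
    (w : V) :
    ‖∑ j ∈ s, (e j : ℂ) • P j (a j (S j w))‖ ^ 2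
      ≤ ∑ j ∈ s, ‖P j (a j (S j w))‖ ^ 2
        + ∑ p ∈ s.offDiag, ‖a p.1 (a p.2 (S p.2 (P p.1 w)))‖ ^ 2 := by
  rw [norm_sq_sum_eq]
  apply add_le_add
  · apply Finset.sum_le_sum
    intro j hj
    rw [norm_smul, mul_pow]
    have : ‖(e j : ℂ)‖ ^ 2 ≤ 1 := by
      rw [Complex.norm_real, Real.norm_eq_abs]
      nlinarith [he j hj, abs_nonneg (e j)]
    nlinarith [sq_nonneg ‖P j (a j (S j w))‖]
  · -- the off diagonal part
    have key : ∀ p ∈ s.offDiag,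
        (⟪(e p.1 : ℂ) • P p.1 (a p.1 (S p.1 w)), (e p.2 : ℂ) • P p.2 (a p.2 (S p.2 w))⟫_ℂ).re
        ≤ (‖a p.1 (a p.2 (S p.2 (P p.1 w)))‖ ^ 2 + ‖a p.2 (a p.1 (S p.1 (P p.2 w)))‖ ^ 2) / 2 := by
      intro p hp
      obtain ⟨h1, h2, h12⟩ := mem_offDiag.mp hp
      rw [inner_smul_left, inner_smul_right,
        inner_exchange asym aidem Psym aa Pa PS PP h1 h2 h12 w]
      have hb := re_inner_le_half (a p.2 (a p.1 (S p.1 (P p.2 w))))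
        (a p.1 (a p.2 (S p.2 (P p.1 w))))
      have e1 := he p.1 h1
      have e2 := he p.2 h2
      have hcalc : ((starRingEnd ℂ) (e p.1 : ℂ) * ((e p.2 : ℂ) *
          ⟪a p.2 (a p.1 (S p.1 (P p.2 w))), a p.1 (a p.2 (S p.2 (P p.1 w)))⟫_ℂ)).re
          = e p.1 * e p.2 * (⟪a p.2 (a p.1 (S p.1 (P p.2 w))),
            a p.1 (a p.2 (S p.2 (P p.1 w)))⟫_ℂ).re := by
        rw [Complex.conj_ofReal, ← mul_assoc, ← Complex.ofReal_mul, Complex.re_ofReal_mul]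
      rw [hcalc]
      have hee : |e p.1 * e p.2| ≤ 1 := by
        rw [abs_mul]; nlinarith [abs_nonneg (e p.1), abs_nonneg (e p.2)]
      calc e p.1 * e p.2 * (⟪a p.2 (a p.1 (S p.1 (P p.2 w))),
            a p.1 (a p.2 (S p.2 (P p.1 w)))⟫_ℂ).re
          ≤ |e p.1 * e p.2 * (⟪a p.2 (a p.1 (S p.1 (P p.2 w))),
            a p.1 (a p.2 (S p.2 (P p.1 w)))⟫_ℂ).re| := le_abs_self _
        _ = |e p.1 * e p.2| * |(⟪a p.2 (a p.1 (S p.1 (P p.2 w))),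
            a p.1 (a p.2 (S p.2 (P p.1 w)))⟫_ℂ).re| := abs_mul _ _
        _ ≤ 1 * |(⟪a p.2 (a p.1 (S p.1 (P p.2 w))),
            a p.1 (a p.2 (S p.2 (P p.1 w)))⟫_ℂ).re| :=
            mul_le_mul_of_nonneg_right hee (abs_nonneg _)
        _ ≤ _ := by rw [one_mul]; linarith
    refine (Finset.sum_le_sum key).trans ?_
    rw [← Finset.sum_div, Finset.sum_add_distrib,
      sum_offDiag_swap s (fun i k => ‖a k (a i (S i (P k w)))‖ ^ 2)]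
    apply le_of_eq
    ring

variable {s : Finset ι} {a G R : ι → V →L[ℂ] V} {κ CR : ℝ}

/-- `ρ(v) = ∑ ‖a_k R_k v‖²` -/
noncomputable def rhoQ (s : Finset ι) (a R : ι → V →L[ℂ] V) (v : V) : ℝ :=
  ∑ k ∈ s, ‖a k (R k v)‖ ^ 2

/-- `τ(v) = ∑_{i≠k} ‖a_i a_k R_i R_k v‖²` -/
noncomputable def tauQ (s : Finset ι) (a R : ι → V →L[ℂ] V) (v : V) : ℝ :=
  ∑ p ∈ s.offDiag, ‖a p.1 (a p.2 (R p.1 (R p.2 v)))‖ ^ 2

omit [DecidableEq ι] in
theorem rhoQ_nonneg (v : V) : 0 ≤ rhoQ s a R v := Finset.sum_nonneg fun _ _ => by positivity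

omit [DecidableEq ι] in
theorem PairData.term1 (h : PairData s a G R κ CR) {i k : ι} (hi : i ∈ s) (hk : k ∈ s)
    (hik : i ≠ k) (v : V) :
    ‖a i (a k (G i (G k v)))‖ ^ 2 = (⟪G i (a i (G i v)), G k (a k (G k v))⟫_ℂ).re := by
  have h2 : ‖a i (a k (G i (G k v)))‖ ^ 2
      = (⟪a i (a k (G i (G k v))), a i (a k (G i (G k v)))⟫_ℂ).re := by
    rw [← Complex.ofReal_re (‖a i (a k (G i (G k v)))‖ ^ 2)]
    congr 1
    rw [inner_self_eq_norm_sq_to_K]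
    norm_cast
  rw [h2, inner_exchange h.asym h.aidem h.Gsym h.aa h.Ga h.GG h.GG hi hk hik v]
  rw [h.aa k hk i hi hik.symm (G i (G k v)), h.GG k hk i hi hik.symm v]

omit [DecidableEq ι] in
theorem PairData.term2 (h : PairData s a G R κ CR) {i k : ι} (hi : i ∈ s) (hk : k ∈ s)
    (hik : i ≠ k) (v : V) :
    ⟪a i (a k (G i (G k v))), a i (a k (G i (R k v)))⟫_ℂ
      = ⟪G i (a i (G i v)), G k (a k (R k v))⟫_ℂ := by
  have hki := hik.symm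
  -- left: move to `⟪a_k G_k (G_i a_i G_i v), a_k R_k v⟫`
  calc ⟪a i (a k (G i (G k v))), a i (a k (G i (R k v)))⟫_ℂ
      = ⟪a i (G i (a k (G k v))), a i (G i (a k (R k v)))⟫_ℂ := by
        rw [h.Ga i hi k hk hik, h.Ga i hi k hk hik]
    _ = ⟪G i (a i (G i (a k (G k v)))), a k (R k v)⟫_ℂ := by
        rw [← h.asym i hi, h.aidem i hi, ← h.Gsym i hi]
    _ = ⟪a k (G k (G i (a i (G i v)))), a k (R k v)⟫_ℂ := by
        rw [h.Ga i hi k hk hik, h.aa i hi k hk hik, h.Ga i hi k hk hik,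
          h.GG i hi k hk hik, h.aG i hi k hk hik, h.GG i hi k hk hik]
    _ = ⟪G k (G i (a i (G i v))), a k (R k v)⟫_ℂ := by
        rw [h.asym k hk, h.aidem k hk]
    _ = _ := by rw [h.Gsym k hk]

omit [DecidableEq ι] in
theorem PairData.term3 (h : PairData s a G R κ CR) {i k : ι} (hi : i ∈ s) (hk : k ∈ s)
    (hik : i ≠ k) (v : V) :
    ⟪a i (a k (G i (G k v))), a i (a k (R i (R k v)))⟫_ℂ
      = ⟪R i (a i (G i (a k (G k v)))), a k (R k v)⟫_ℂ := by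
  calc ⟪a i (a k (G i (G k v))), a i (a k (R i (R k v)))⟫_ℂ
      = ⟪a i (G i (a k (G k v))), a i (R i (a k (R k v)))⟫_ℂ := by
        rw [h.Ga i hi k hk hik, h.Ra i hi k hk hik]
    _ = _ := by
        rw [← h.asym i hi, h.aidem i hi, ← h.Rsym i hi]

theorem re_inner_sum_sum (s : Finset ι) (x z : ι → V) :
    (⟪∑ i ∈ s, x i, ∑ k ∈ s, z k⟫_ℂ).re
      = ∑ i ∈ s, (⟪x i, z i⟫_ℂ).re + ∑ p ∈ s.offDiag, (⟪x p.1, z p.2⟫_ℂ).re := by
  rw [sum_inner]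
  simp_rw [inner_sum]
  rw [Complex.re_sum]
  simp_rw [Complex.re_sum]
  rw [← Finset.sum_product', ← Finset.diag_union_offDiag,
    Finset.sum_union (Finset.disjoint_diag_offDiag s)]
  congr 1
  rw [Finset.sum_diag]

theorem re_inner_real_smul (c d : ℝ) (x y : V) :
    (⟪(c : ℂ) • x, (d : ℂ) • y⟫_ℂ).re = c * d * (⟪x, y⟫_ℂ).re := by
  rw [inner_smul_left, inner_smul_right, Complex.conj_ofReal, ← mul_assoc, ← Complex.ofReal_mul,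
    Complex.re_ofReal_mul]

/-- pointwise expansion -/
theorem expand_lower (c : ℝ) (hc : |c| ≤ 1) (w x y z : V) :
    c * ‖w‖ ^ 2 + 2 * (c * (⟪w, x⟫_ℂ).re) + 2 * (c * (⟪w, y⟫_ℂ).re) + 2 * (c * (⟪w, z⟫_ℂ).re)
      - 3 * (‖x‖ ^ 2 + ‖y‖ ^ 2 + ‖z‖ ^ 2) ≤ c * ‖w + x + y + z‖ ^ 2 := by
  have h1 : ‖w + x + y + z‖ ^ 2 = ‖w‖ ^ 2 + 2 * (⟪w, x + y + z⟫_ℂ).re + ‖x + y + z‖ ^ 2 := by
    have := norm_add_sq (𝕜 := ℂ) w (x + y + z)
    rw [show w + x + y + z = w + (x + y + z) by abel]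
    exact this
  have h2 : (⟪w, x + y + z⟫_ℂ).re = (⟪w, x⟫_ℂ).re + (⟪w, y⟫_ℂ).re + (⟪w, z⟫_ℂ).re := by
    rw [inner_add_right, inner_add_right, Complex.add_re, Complex.add_re]
  have h3 : ‖x + y + z‖ ^ 2 ≤ 3 * (‖x‖ ^ 2 + ‖y‖ ^ 2 + ‖z‖ ^ 2) := by
    have h4 : ‖x + y + z‖ ≤ ‖x‖ + ‖y‖ + ‖z‖ := norm_add₃_le
    have h5 : ‖x + y + z‖ ^ 2 ≤ (‖x‖ + ‖y‖ + ‖z‖) ^ 2 :=
      pow_le_pow_left₀ (norm_nonneg _) h4 2
    nlinarith [sq_nonneg (‖x‖ - ‖y‖), sq_nonneg (‖x‖ - ‖z‖), sq_nonneg (‖y‖ - ‖z‖)]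
  have h6 : -‖x + y + z‖ ^ 2 ≤ c * ‖x + y + z‖ ^ 2 := by
    have := neg_abs_le c
    nlinarith [sq_nonneg ‖x + y + z‖]
  rw [h1, h2]
  nlinarith

/-- bound for the vectors of the pair term -/
theorem PairData.W_bound (h : PairData s a G R κ CR) (e : ι → ℝ)
    (he : ∀ i ∈ s, |e i| ≤ 1) (v : V) (k : ι) (hk : k ∈ s) :
    ‖∑ i ∈ s.erase k, (e i : ℂ) • R i (a i (G i (a k (G k v))))‖ ^ 2
      ≤ s.card * κ ^ 2 * (CR ^ 2 * ‖v‖ ^ 2 + rhoQ s a R v) := by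
  have hκ := h.κ0
  have hCR := h.CR0
  have hρ0 : 0 ≤ rhoQ s a R v := rhoQ_nonneg v
  have hn0 : (0 : ℝ) ≤ s.card := Nat.cast_nonneg _
  have hsub : ∀ i ∈ s.erase k, i ∈ s := fun i hi => Finset.mem_of_mem_erase hi
  have h1 := norm_sq_sum_PaS_le (s := s.erase k) (a := a) (P := R) (S := G) e
    (fun i hi => he i (hsub i hi))
    (fun i hi => h.asym i (hsub i hi)) (fun i hi => h.aidem i (hsub i hi))
    (fun i hi => h.Rsym i (hsub i hi))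
    (fun i hi j hj => h.aa i (hsub i hi) j (hsub j hj))
    (fun i hi j hj => h.Ra i (hsub i hi) j (hsub j hj))
    (fun i hi j hj => h.RG i (hsub i hi) j (hsub j hj))
    (fun i hi j hj => h.RR i (hsub i hi) j (hsub j hj)) (a k (G k v))
  refine h1.trans ?_
  have hcard : ((s.erase k).card : ℝ) ≤ s.card := by
    exact_mod_cast Finset.card_le_card (Finset.erase_subset k s)
  have hφ : ‖a k (G k v)‖ ^ 2 ≤ κ * ‖v‖ ^ 2 := h.bound k hk v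
  have hd : ∑ j ∈ s.erase k, ‖R j (a j (G j (a k (G k v))))‖ ^ 2
      ≤ s.card * (CR ^ 2 * (κ * (κ * ‖v‖ ^ 2))) := by
    calc ∑ j ∈ s.erase k, ‖R j (a j (G j (a k (G k v))))‖ ^ 2
        ≤ ∑ j ∈ s.erase k, CR ^ 2 * (κ * (κ * ‖v‖ ^ 2)) := by
          apply Finset.sum_le_sum
          intro j hj
          have h2 := h.Rbound j (hsub j hj) (a j (G j (a k (G k v))))
          have h3 := h.bound j (hsub j hj) (a k (G k v))
          calc ‖R j (a j (G j (a k (G k v))))‖ ^ 2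
              ≤ (CR * ‖a j (G j (a k (G k v)))‖) ^ 2 := pow_le_pow_left₀ (norm_nonneg _) h2 2
            _ = CR ^ 2 * ‖a j (G j (a k (G k v)))‖ ^ 2 := by ring
            _ ≤ CR ^ 2 * (κ * ‖a k (G k v)‖ ^ 2) :=
                mul_le_mul_of_nonneg_left h3 (by positivity)
            _ ≤ CR ^ 2 * (κ * (κ * ‖v‖ ^ 2)) := by gcongr
      _ = ((s.erase k).card : ℝ) * (CR ^ 2 * (κ * (κ * ‖v‖ ^ 2))) := by
          rw [Finset.sum_const, nsmul_eq_mul]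
      _ ≤ _ := mul_le_mul_of_nonneg_right hcard (by positivity)
  have hoff : ∑ p ∈ (s.erase k).offDiag, ‖a p.1 (a p.2 (G p.2 (R p.1 (a k (G k v)))))‖ ^ 2
      ≤ s.card * (κ * (κ * rhoQ s a R v)) := by
    calc ∑ p ∈ (s.erase k).offDiag, ‖a p.1 (a p.2 (G p.2 (R p.1 (a k (G k v)))))‖ ^ 2
        ≤ ∑ p ∈ (s.erase k).offDiag, κ * (κ * ‖a p.1 (R p.1 v)‖ ^ 2) := by
          apply Finset.sum_le_sum
          intro p hp
          obtain ⟨h1', h2', h12⟩ := mem_offDiag.mp hp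
          have h1 := hsub _ h1'
          have h2 := hsub _ h2'
          have h1k : p.1 ≠ k := (mem_erase.mp h1').1
          rw [h.aa p.1 h1 p.2 h2 h12]
          refine (h.aaG_bound h2 h1 h12.symm _).trans ?_
          apply mul_le_mul_of_nonneg_left _ hκ
          rw [h.Ra p.1 h1 k hk h1k, h.aa p.1 h1 k hk h1k, h.RG p.1 h1 k hk h1k,
            h.aG p.1 h1 k hk h1k]
          exact h.bound k hk _
      _ = ∑ p ∈ (s.erase k).offDiag, κ * (κ * ‖a p.2 (R p.2 v)‖ ^ 2) :=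
          sum_offDiag_swap (s.erase k) (fun i _ => κ * (κ * ‖a i (R i v)‖ ^ 2))
      _ ≤ (s.erase k).card * ∑ i ∈ s.erase k, κ * (κ * ‖a i (R i v)‖ ^ 2) :=
          sum_offDiag_snd_le _ (fun i => κ * (κ * ‖a i (R i v)‖ ^ 2)) (fun _ _ => by positivity)
      _ ≤ s.card * ∑ i ∈ s, κ * (κ * ‖a i (R i v)‖ ^ 2) := by
          apply mul_le_mul hcard _ (Finset.sum_nonneg fun _ _ => by positivity) hn0
          exact Finset.sum_le_sum_of_subset_of_nonneg (Finset.erase_subset k s)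
            (fun _ _ _ => by positivity)
      _ = s.card * (κ * (κ * rhoQ s a R v)) := by
          rw [← Finset.mul_sum, ← Finset.mul_sum]; rfl
  calc _ ≤ s.card * (CR ^ 2 * (κ * (κ * ‖v‖ ^ 2))) + s.card * (κ * (κ * rhoQ s a R v)) :=
        add_le_add hd hoff
    _ = _ := by ring

/-- the pair (term C) estimate -/
theorem PairData.C_bound (h : PairData s a G R κ CR) (e : ι → ℝ)
    (he : ∀ i ∈ s, |e i| ≤ 1) (v : V) :
    -(s.card * κ * CR * √(rhoQ s a R v) * ‖v‖ + s.card * (κ * rhoQ s a R v))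
      ≤ ∑ k ∈ s, e k * (⟪∑ i ∈ s.erase k, (e i : ℂ) • R i (a i (G i (a k (G k v)))),
          a k (R k v)⟫_ℂ).re := by
  have hκ := h.κ0
  have hCR := h.CR0
  set ρ := rhoQ s a R v with hρ
  have hρ0 : 0 ≤ ρ := rhoQ_nonneg v
  set n : ℝ := (s.card : ℝ) with hn
  have hn0 : 0 ≤ n := Nat.cast_nonneg _
  set W : ι → V := fun k => ∑ i ∈ s.erase k, (e i : ℂ) • R i (a i (G i (a k (G k v)))) with hW
  have hC2 : ∀ k ∈ s, ‖W k‖ ^ 2 ≤ n * κ ^ 2 * (CR ^ 2 * ‖v‖ ^ 2 + ρ) :=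
    fun k hk => h.W_bound e he v k hk
  have hC3 : ∑ k ∈ s, ‖a k (R k v)‖ ≤ √n * √ρ := by
    have h1 : (∑ k ∈ s, ‖a k (R k v)‖) ^ 2 ≤ n * ρ :=
      sq_sum_le_card_mul_sum_sq (s := s) (f := fun k => ‖a k (R k v)‖)
    rw [← Real.sqrt_mul hn0]
    exact Real.le_sqrt_of_sq_le h1
  have hs : √(CR ^ 2 * ‖v‖ ^ 2 + ρ) ≤ CR * ‖v‖ + √ρ := by
    rw [Real.sqrt_le_left (by positivity)]
    have := Real.sq_sqrt hρ0
    have h3 : 0 ≤ CR * ‖v‖ * √ρ := by positivity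
    nlinarith
  have h1 : ∀ k ∈ s, ‖W k‖ ≤ √n * κ * (CR * ‖v‖ + √ρ) := by
    intro k hk
    have h2 : ‖W k‖ ≤ √(n * κ ^ 2 * (CR ^ 2 * ‖v‖ ^ 2 + ρ)) := Real.le_sqrt_of_sq_le (hC2 k hk)
    have h3 : √(n * κ ^ 2 * (CR ^ 2 * ‖v‖ ^ 2 + ρ)) = √n * κ * √(CR ^ 2 * ‖v‖ ^ 2 + ρ) := by
      rw [Real.sqrt_mul (by positivity), Real.sqrt_mul hn0, Real.sqrt_sq hκ]
    rw [h3] at h2
    exact h2.trans (mul_le_mul_of_nonneg_left hs (by positivity))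
  have h2 : ∀ k ∈ s, -(√n * κ * (CR * ‖v‖ + √ρ) * ‖a k (R k v)‖)
      ≤ e k * (⟪W k, a k (R k v)⟫_ℂ).re := by
    intro k hk
    have h3 := norm_inner_le_norm (𝕜 := ℂ) (W k) (a k (R k v))
    have h4 : |(⟪W k, a k (R k v)⟫_ℂ).re| ≤ ‖⟪W k, a k (R k v)⟫_ℂ‖ := Complex.abs_re_le_norm _
    have h5 : |e k * (⟪W k, a k (R k v)⟫_ℂ).re| ≤ √n * κ * (CR * ‖v‖ + √ρ) * ‖a k (R k v)‖ := by
      rw [abs_mul]
      calc |e k| * |(⟪W k, a k (R k v)⟫_ℂ).re| ≤ 1 * (‖W k‖ * ‖a k (R k v)‖) :=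
            mul_le_mul (he k hk) (h4.trans h3) (abs_nonneg _) zero_le_one
        _ = ‖W k‖ * ‖a k (R k v)‖ := one_mul _
        _ ≤ _ := mul_le_mul_of_nonneg_right (h1 k hk) (norm_nonneg _)
    exact (abs_le.mp h5).1
  calc -(n * κ * CR * √ρ * ‖v‖ + n * (κ * ρ))
      = -(√n * κ * (CR * ‖v‖ + √ρ) * (√n * √ρ)) := by
        have e1 := Real.mul_self_sqrt hn0
        have e2 := Real.mul_self_sqrt hρ0
        have : √n * κ * (CR * ‖v‖ + √ρ) * (√n * √ρ)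
            = (√n * √n) * κ * (CR * ‖v‖ * √ρ + √ρ * √ρ) := by ring
        rw [this, e1, e2]; ring
    _ ≤ -(√n * κ * (CR * ‖v‖ + √ρ) * ∑ k ∈ s, ‖a k (R k v)‖) := by
        apply neg_le_neg
        exact mul_le_mul_of_nonneg_left hC3 (by positivity)
    _ = ∑ k ∈ s, -(√n * κ * (CR * ‖v‖ + √ρ) * ‖a k (R k v)‖) := by
        rw [Finset.sum_neg_distrib, Finset.mul_sum]
    _ ≤ _ := Finset.sum_le_sum h2

theorem PairData.pair_sum_lower (h : PairData s a G R κ CR) (e : ι → ℝ)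
    (he : ∀ i ∈ s, |e i| ≤ 1) (v : V) :
    -(3 * s.card * κ ^ 2 * ‖v‖ ^ 2 + 18 * s.card * κ * rhoQ s a R v + 3 * tauQ s a R v
        + 2 * s.card * κ * CR * √(rhoQ s a R v) * ‖v‖)
      ≤ ∑ p ∈ s.offDiag, e p.1 * e p.2 * ‖a p.1 (a p.2 v)‖ ^ 2 := by
  have hκ := h.κ0
  have hCR := h.CR0
  set ρ := rhoQ s a R v with hρ
  have hρ0 : 0 ≤ ρ := rhoQ_nonneg v
  set n : ℝ := (s.card : ℝ) with hn
  have hn0 : 0 ≤ n := Nat.cast_nonneg _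
  -- abbreviations
  set x : ι → V := fun i => G i (a i (G i v)) with hx
  set z : ι → V := fun k => G k (a k (R k v)) with hz
  set GGv : ι × ι → V := fun p => a p.1 (a p.2 (G p.1 (G p.2 v))) with hGG
  set GRv : ι × ι → V := fun p => a p.1 (a p.2 (G p.1 (R p.2 v))) with hGR
  set RGv : ι × ι → V := fun p => a p.1 (a p.2 (R p.1 (G p.2 v))) with hRG
  set RRv : ι × ι → V := fun p => a p.1 (a p.2 (R p.1 (R p.2 v))) with hRR
  -- decomposition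
  have hdec : ∀ p ∈ s.offDiag, a p.1 (a p.2 v) = GGv p + GRv p + RGv p + RRv p := by
    intro p hp
    obtain ⟨h1, h2, h12⟩ := mem_offDiag.mp hp
    simp only [hGG, hGR, hRG, hRR]
    rw [← map_add, ← map_add, ← map_add, ← map_add, ← map_add, ← map_add]
    congr 2
    have e1 : ∀ w, R p.1 w = w - G p.1 w := h.Rdef p.1 h1
    have e2 : ∀ w, R p.2 w = w - G p.2 w := h.Rdef p.2 h2
    rw [e1, e1, e2, map_sub]
    abel
  -- symmetric relation RG = GR swapped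
  have hRGsw : ∀ p ∈ s.offDiag, RGv p = GRv (p.2, p.1) := by
    intro p hp
    obtain ⟨h1, h2, h12⟩ := mem_offDiag.mp hp
    simp only [hGR, hRG]
    rw [h.aa p.1 h1 p.2 h2 h12, h.RG p.1 h1 p.2 h2 h12]
  have hGGsw : ∀ p ∈ s.offDiag, GGv p = GGv (p.2, p.1) := by
    intro p hp
    obtain ⟨h1, h2, h12⟩ := mem_offDiag.mp hp
    simp only [hGG]
    rw [h.aa p.1 h1 p.2 h2 h12, h.GG p.1 h1 p.2 h2 h12]
  -- sums of squares
  have hsumGR : ∑ p ∈ s.offDiag, ‖GRv p‖ ^ 2 ≤ n * (κ * ρ) := by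
    calc ∑ p ∈ s.offDiag, ‖GRv p‖ ^ 2 ≤ ∑ p ∈ s.offDiag, κ * ‖a p.2 (R p.2 v)‖ ^ 2 := by
          apply Finset.sum_le_sum
          intro p hp
          obtain ⟨h1, h2, h12⟩ := mem_offDiag.mp hp
          exact h.aaG_bound h1 h2 h12 _
      _ ≤ n * ∑ k ∈ s, κ * ‖a k (R k v)‖ ^ 2 :=
          sum_offDiag_snd_le s (fun k => κ * ‖a k (R k v)‖ ^ 2) (fun _ _ => by positivity)
      _ = n * (κ * ρ) := by rw [← Finset.mul_sum]; rfl
  have hsumRG : ∑ p ∈ s.offDiag, ‖RGv p‖ ^ 2 ≤ n * (κ * ρ) := by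
    have : ∑ p ∈ s.offDiag, ‖RGv p‖ ^ 2 = ∑ p ∈ s.offDiag, ‖GRv p‖ ^ 2 := by
      rw [sum_offDiag_swap s (fun i k => ‖GRv (i, k)‖ ^ 2)]
      exact Finset.sum_congr rfl fun p hp => by rw [hRGsw p hp]
    rw [this]; exact hsumGR
  have hsumRR : ∑ p ∈ s.offDiag, ‖RRv p‖ ^ 2 = tauQ s a R v := rfl
  -- expansion
  have hexp : ∑ p ∈ s.offDiag, (e p.1 * e p.2 * ‖GGv p‖ ^ 2
        + 2 * (e p.1 * e p.2 * (⟪GGv p, GRv p⟫_ℂ).re)
        + 2 * (e p.1 * e p.2 * (⟪GGv p, RGv p⟫_ℂ).re)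
        + 2 * (e p.1 * e p.2 * (⟪GGv p, RRv p⟫_ℂ).re)
        - 3 * (‖GRv p‖ ^ 2 + ‖RGv p‖ ^ 2 + ‖RRv p‖ ^ 2))
      ≤ ∑ p ∈ s.offDiag, e p.1 * e p.2 * ‖a p.1 (a p.2 v)‖ ^ 2 := by
    apply Finset.sum_le_sum
    intro p hp
    obtain ⟨h1, h2, h12⟩ := mem_offDiag.mp hp
    rw [hdec p hp]
    apply expand_lower
    rw [abs_mul]
    have := he p.1 h1
    have := he p.2 h2
    nlinarith [abs_nonneg (e p.1), abs_nonneg (e p.2)]
  refine le_trans ?_ hexp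
  simp only [Finset.sum_add_distrib, Finset.sum_sub_distrib, ← Finset.mul_sum]
  -- term A
  have hA : ∑ p ∈ s.offDiag, e p.1 * e p.2 * ‖GGv p‖ ^ 2
      ≥ ‖∑ i ∈ s, (e i : ℂ) • x i‖ ^ 2 - n * (κ ^ 2 * ‖v‖ ^ 2) := by
    have h1 : ∑ p ∈ s.offDiag, e p.1 * e p.2 * ‖GGv p‖ ^ 2
        = ∑ p ∈ s.offDiag, (⟪(e p.1 : ℂ) • x p.1, (e p.2 : ℂ) • x p.2⟫_ℂ).re := by
      apply Finset.sum_congr rfl
      intro p hp
      obtain ⟨h1, h2, h12⟩ := mem_offDiag.mp hp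
      rw [re_inner_real_smul]
      congr 1
      exact h.term1 h1 h2 h12 v
    have h2 := norm_sq_sum_eq s (fun i => (e i : ℂ) • x i)
    have h3 : ∑ i ∈ s, ‖(e i : ℂ) • x i‖ ^ 2 ≤ n * (κ ^ 2 * ‖v‖ ^ 2) := by
      calc ∑ i ∈ s, ‖(e i : ℂ) • x i‖ ^ 2 ≤ ∑ i ∈ s, κ ^ 2 * ‖v‖ ^ 2 := by
            apply Finset.sum_le_sum
            intro i hi
            rw [norm_smul, mul_pow]
            have h4 : ‖(e i : ℂ)‖ ^ 2 ≤ 1 := by
              rw [Complex.norm_real, Real.norm_eq_abs]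
              nlinarith [he i hi, abs_nonneg (e i)]
            have h5 : ‖x i‖ ^ 2 ≤ κ * (κ * ‖v‖ ^ 2) :=
              (h.Ga_bound hi _).trans (mul_le_mul_of_nonneg_left (h.bound i hi v) hκ)
            nlinarith [sq_nonneg ‖x i‖]
        _ = n * (κ ^ 2 * ‖v‖ ^ 2) := by rw [Finset.sum_const, nsmul_eq_mul]
    rw [h1]
    linarith
  -- term B
  have hB1 : ∑ p ∈ s.offDiag, e p.1 * e p.2 * (⟪GGv p, GRv p⟫_ℂ).re
      = (⟪∑ i ∈ s, (e i : ℂ) • x i, ∑ k ∈ s, (e k : ℂ) • z k⟫_ℂ).re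
        - ∑ i ∈ s, (⟪(e i : ℂ) • x i, (e i : ℂ) • z i⟫_ℂ).re := by
    have h1 : ∑ p ∈ s.offDiag, e p.1 * e p.2 * (⟪GGv p, GRv p⟫_ℂ).re
        = ∑ p ∈ s.offDiag, (⟪(e p.1 : ℂ) • x p.1, (e p.2 : ℂ) • z p.2⟫_ℂ).re := by
      apply Finset.sum_congr rfl
      intro p hp
      obtain ⟨h1, h2, h12⟩ := mem_offDiag.mp hp
      rw [re_inner_real_smul]
      congr 2
      exact h.term2 h1 h2 h12 v
    rw [h1, re_inner_sum_sum]
    ring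
  have hB2 : ∑ p ∈ s.offDiag, e p.1 * e p.2 * (⟪GGv p, RGv p⟫_ℂ).re
      = ∑ p ∈ s.offDiag, e p.1 * e p.2 * (⟪GGv p, GRv p⟫_ℂ).re := by
    rw [sum_offDiag_swap s (fun i k => e i * e k * (⟪GGv (i, k), GRv (i, k)⟫_ℂ).re)]
    apply Finset.sum_congr rfl
    intro p hp
    rw [hRGsw p hp, hGGsw p hp]
    ring
  have hB3 : -((‖∑ i ∈ s, (e i : ℂ) • x i‖ ^ 2) + 4 * ‖∑ k ∈ s, (e k : ℂ) • z k‖ ^ 2)
      ≤ 4 * (⟪∑ i ∈ s, (e i : ℂ) • x i, ∑ k ∈ s, (e k : ℂ) • z k⟫_ℂ).re := by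
    have h1 := norm_inner_le_norm (𝕜 := ℂ) (∑ i ∈ s, (e i : ℂ) • x i) (∑ k ∈ s, (e k : ℂ) • z k)
    have h2 : |(⟪∑ i ∈ s, (e i : ℂ) • x i, ∑ k ∈ s, (e k : ℂ) • z k⟫_ℂ).re|
      ≤ ‖⟪∑ i ∈ s, (e i : ℂ) • x i, ∑ k ∈ s, (e k : ℂ) • z k⟫_ℂ‖ := Complex.abs_re_le_norm _
    have h3 := neg_abs_le (⟪∑ i ∈ s, (e i : ℂ) • x i, ∑ k ∈ s, (e k : ℂ) • z k⟫_ℂ).re
    nlinarith [sq_nonneg (‖∑ i ∈ s, (e i : ℂ) • x i‖ - 2 * ‖∑ k ∈ s, (e k : ℂ) • z k‖)]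
  have hB4 : ‖∑ k ∈ s, (e k : ℂ) • z k‖ ^ 2 ≤ κ * ρ + n * (κ * ρ) := by
    refine (norm_sq_sum_PaS_le e he h.asym h.aidem h.Gsym h.aa h.Ga h.GR h.GG v).trans ?_
    apply add_le_add
    · calc ∑ j ∈ s, ‖G j (a j (R j v))‖ ^ 2 ≤ ∑ j ∈ s, κ * ‖a j (R j v)‖ ^ 2 :=
            Finset.sum_le_sum fun j hj => h.Ga_bound hj _
        _ = κ * ρ := by rw [← Finset.mul_sum]; rfl
    · refine le_trans (le_of_eq ?_) hsumGR
      apply Finset.sum_congr rfl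
      intro p hp
      obtain ⟨h1, h2, h12⟩ := mem_offDiag.mp hp
      simp only [hGR]
      rw [h.RG p.2 h2 p.1 h1 h12.symm]
  have hB5 : ∑ i ∈ s, (⟪(e i : ℂ) • x i, (e i : ℂ) • z i⟫_ℂ).re
      ≤ (n * (κ ^ 2 * ‖v‖ ^ 2) + κ * ρ) / 2 := by
    calc ∑ i ∈ s, (⟪(e i : ℂ) • x i, (e i : ℂ) • z i⟫_ℂ).re
        ≤ ∑ i ∈ s, (κ ^ 2 * ‖v‖ ^ 2 + κ * ‖a i (R i v)‖ ^ 2) / 2 := by
          apply Finset.sum_le_sum
          intro i hi
          rw [re_inner_real_smul]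
          have h1 := norm_inner_le_norm (𝕜 := ℂ) (x i) (z i)
          have h2 : |(⟪x i, z i⟫_ℂ).re| ≤ ‖⟪x i, z i⟫_ℂ‖ := Complex.abs_re_le_norm _
          have h5 : ‖x i‖ ^ 2 ≤ κ * (κ * ‖v‖ ^ 2) :=
            (h.Ga_bound hi _).trans (mul_le_mul_of_nonneg_left (h.bound i hi v) hκ)
          have h6 : ‖z i‖ ^ 2 ≤ κ * ‖a i (R i v)‖ ^ 2 := h.Ga_bound hi _
          have h7 : e i * e i ≤ 1 := by
            have := he i hi
            rw [← abs_mul_abs_self (e i)]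
            nlinarith [abs_nonneg (e i)]
          have h8 : 0 ≤ e i * e i := mul_self_nonneg _
          have h9 : e i * e i * (⟪x i, z i⟫_ℂ).re ≤ ‖x i‖ * ‖z i‖ := by
            calc e i * e i * (⟪x i, z i⟫_ℂ).re ≤ e i * e i * (‖x i‖ * ‖z i‖) :=
                  mul_le_mul_of_nonneg_left ((le_abs_self _).trans (h2.trans h1)) h8
              _ ≤ 1 * (‖x i‖ * ‖z i‖) := mul_le_mul_of_nonneg_right h7 (by positivity)
              _ = _ := one_mul _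
          nlinarith [sq_nonneg (‖x i‖ - ‖z i‖)]
      _ = (n * (κ ^ 2 * ‖v‖ ^ 2) + κ * ρ) / 2 := by
          rw [← Finset.sum_div, Finset.sum_add_distrib, Finset.sum_const, nsmul_eq_mul,
            ← Finset.mul_sum]
          rfl
  -- term C
  have hC1 : ∑ p ∈ s.offDiag, e p.1 * e p.2 * (⟪GGv p, RRv p⟫_ℂ).re
      = ∑ k ∈ s, e k * (⟪∑ i ∈ s.erase k, (e i : ℂ) • R i (a i (G i (a k (G k v)))),
          a k (R k v)⟫_ℂ).re := by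
    rw [sum_offDiag_eq s (fun i k => e i * e k * (⟪GGv (i, k), RRv (i, k)⟫_ℂ).re)]
    apply Finset.sum_congr rfl
    intro k hk
    rw [sum_inner, Complex.re_sum, Finset.mul_sum]
    apply Finset.sum_congr rfl
    intro i hi
    obtain ⟨hik, his⟩ := mem_erase.mp hi
    rw [inner_smul_left, Complex.conj_ofReal, Complex.re_ofReal_mul,
      ← h.term3 his hk hik v]
    ring
  have hC4 := h.C_bound e he v
  rw [hB2, hB1, hC1]
  -- if `s` is empty everything vanishes; otherwise `1 ≤ n`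
  have hκρ : κ * ρ ≤ n * (κ * ρ) := by
    rcases Finset.eq_empty_or_nonempty s with hs | hs
    · have : ρ = 0 := by rw [hρ, rhoQ, hs]; simp
      rw [this]; simp
    · have : (1 : ℝ) ≤ n := by
        rw [hn]; exact_mod_cast hs.card_pos
      nlinarith [mul_nonneg hκ hρ0]
  rw [hsumRR]
  linarith [hA, hB3, hB4, hB5, hC4, hsumGR, hsumRG, hκρ]

end

end Pool.Agent.H.MP_d1ae63_mp
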