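import Pool.Agent.H.MP_d1ae63_mp.CoulombRep2

set_option autoImplicit false

open MeasureTheory Filter Topology
open scoped ENNReal Real InnerProductSpace

namespace Pool.Agent.H.MP_d1ae63_mp

noncomputable section

/-- `∑_{i<k} e_i e_k hh(t(u_i-u_k))` -/
def PP {N : ℕ} (e : Fin N → ℝ) (t : ℝ) (u : Fin N → X3) : ℝ :=
  ∑ i : Fin N, ∑ k ∈ Finset.Ioi i, e i * e k * hh (fun l => t * (u i l - u k l))

theorem measurable_cellIdx (j : ℤ) : Measurable (cellIdx j) := by
  refine measurable_pi_lambda _ fun l => ?_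
  exact Int.measurable_floor.comp (by fun_prop)

theorem measurable_same {N : ℕ} (j : ℤ) (i k : Fin N) (c : ℝ) :
    Measurable (fun y : Fin N → X3 => if cellIdx j (y i) = cellIdx j (y k) then c else 0) := by
  refine Measurable.ite ?_ measurable_const measurable_const
  exact measurableSet_eq_fun ((measurable_cellIdx j).comp (measurable_pi_apply i))
    ((measurable_cellIdx j).comp (measurable_pi_apply k))

theorem measurable_dyadicW {N : ℕ} (J : ℕ) (e : Fin N → ℝ) : Measurable (dyadicW J e) := by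
  unfold dyadicW
  refine Finset.measurable_sum _ fun j _ => Measurable.const_mul ?_ _
  exact Finset.measurable_sum _ fun i _ => Finset.measurable_sum _ fun k _ => measurable_same _ _ _ _

/-- the unit cube -/
abbrev Qd : Set X3 := Set.pi Set.univ (fun _ : Fin 3 => Set.Ico (0:ℝ) 1)

theorem measurableSet_Qd : MeasurableSet Qd := MeasurableSet.univ_pi fun _ => measurableSet_Ico

theorem volume_Qd : volume Qd = 1 := by
  rw [Real.volume_pi_Ico]; simp

theorem abs_ee_le {N : ℕ} {e : Fin N → ℝ} (he : ∀ i, |e i| ≤ 1) (i k : Fin N) :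
    |e i * e k| ≤ 1 := by
  rw [abs_mul]
  exact mul_le_one₀ (he i) (abs_nonneg _) (he k)

theorem double_sum_le {N : ℕ} (f : Fin N → Fin N → ℝ) (hf : ∀ i k, |f i k| ≤ 1) :
    |∑ i : Fin N, ∑ k ∈ Finset.Ioi i, f i k| ≤ N * N := by
  refine (Finset.abs_sum_le_sum_abs _ _).trans ?_
  calc ∑ i : Fin N, |∑ k ∈ Finset.Ioi i, f i k| ≤ ∑ _i : Fin N, (N:ℝ) := by
        refine Finset.sum_le_sum fun i _ => ?_
        refine (Finset.abs_sum_le_sum_abs _ _).trans ?_
        calc ∑ k ∈ Finset.Ioi i, |f i k| ≤ ∑ _k ∈ Finset.Ioi i, (1:ℝ) :=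
              Finset.sum_le_sum fun k _ => hf i k
          _ = (Finset.Ioi i).card := by simp
          _ ≤ N := by
              have := Finset.card_le_univ (Finset.Ioi i)
              rw [Fintype.card_fin] at this
              exact_mod_cast this
    _ = N * N := by simp

theorem PP_abs_le {N : ℕ} {e : Fin N → ℝ} (he : ∀ i, |e i| ≤ 1) (t : ℝ) (u : Fin N → X3) :
    |PP e t u| ≤ N * N := by
  refine double_sum_le _ fun i k => ?_
  rw [abs_mul, abs_of_nonneg (hh_nonneg _)]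
  exact mul_le_one₀ (abs_ee_le he i k) (hh_nonneg _) (hh_le_one _)

theorem dyadicW_abs_le {N : ℕ} {e : Fin N → ℝ} (he : ∀ i, |e i| ≤ 1) (J : ℕ)
    (y : Fin N → X3) : |dyadicW J e y| ≤ (∑ j ∈ Finset.range (J + 1), (2:ℝ)^j) * (N * N) := by
  unfold dyadicW
  refine (Finset.abs_sum_le_sum_abs _ _).trans ?_
  rw [Finset.sum_mul]
  refine Finset.sum_le_sum fun j _ => ?_
  rw [abs_mul, abs_of_pos (by positivity)]
  refine mul_le_mul_of_nonneg_left (double_sum_le _ fun i k => ?_) (by positivity)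
  split_ifs
  · exact abs_ee_le he i k
  · simp

theorem measurable_PP {N : ℕ} (e : Fin N → ℝ) (t : ℝ) : Measurable (PP e t) := by
  unfold PP
  refine Finset.measurable_sum _ fun i _ => Finset.measurable_sum _ fun k _ =>
    Measurable.const_mul (continuous_hh.measurable.comp ?_) _
  fun_prop

/-- translate all points by `z` -/
def shiftU {N : ℕ} (u : Fin N → X3) (z : X3) : Fin N → X3 := fun i l => u i l + z l

theorem measurable_shiftU {N : ℕ} (u : Fin N → X3) : Measurable (shiftU u) := by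
  unfold shiftU; fun_prop

theorem integrableOn_same {N : ℕ} (u : Fin N → X3) (j : ℤ) (i k : Fin N) (c : ℝ) :
    IntegrableOn (fun z => if cellIdx j (shiftU u z i) = cellIdx j (shiftU u z k)
      then c else 0) Qd volume := by
  refine Measure.integrableOn_of_bounded (M := |c|) (by rw [volume_Qd]; simp)
    ((measurable_same j i k c).comp (measurable_shiftU u)).aestronglyMeasurable ?_
  refine Eventually.of_forall fun z => ?_
  split_ifs
  · simp
  · simp

theorem PP_eq {N : ℕ} (e : Fin N → ℝ) (j : ℕ) (u : Fin N → X3) :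
    PP e (2^j) u = ∫ z in Qd, ∑ i : Fin N, ∑ k ∈ Finset.Ioi i,
      (if cellIdx j (shiftU u z i) = cellIdx j (shiftU u z k) then e i * e k else 0) := by
  rw [integral_finsetSum _ fun i _ => integrable_finsetSum _ fun k _ =>
    integrableOn_same u j i k _]
  unfold PP
  refine Finset.sum_congr rfl fun i _ => ?_
  rw [integral_finsetSum _ fun k _ => integrableOn_same u j i k _]
  refine Finset.sum_congr rfl fun k _ => ?_
  rw [← same_cell, ← integral_const_mul]
  refine integral_congr_ae (Eventually.of_forall fun z => ?_)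
  beta_reduce
  rw [mul_ite, mul_one, mul_zero]
  rfl

theorem PP_one_lower {N : ℕ} {e : Fin N → ℝ} (he : ∀ i, |e i| ≤ 1) (u : Fin N → X3) :
    -((N:ℝ)/2) ≤ PP e 1 u := by
  have h := PP_eq e 0 u
  rw [pow_zero] at h
  rw [h]
  have hint : IntegrableOn (fun z => ∑ i : Fin N, ∑ k ∈ Finset.Ioi i,
      (if cellIdx (0:ℕ) (shiftU u z i) = cellIdx (0:ℕ) (shiftU u z k) then e i * e k else 0)) Qd volume :=
    integrable_finsetSum _ fun i _ => integrable_finsetSum _ fun k _ =>
      integrableOn_same u _ i k _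
  calc -((N:ℝ)/2) = ∫ _z in Qd, -((N:ℝ)/2) := by
        rw [setIntegral_const, Measure.real, volume_Qd]; simp
    _ ≤ _ := by
        refine setIntegral_mono_on (integrableOn_const (by rw [volume_Qd]; simp)) hint
          measurableSet_Qd fun z _ => ?_
        exact label_form e he (fun i => cellIdx (0:ℕ) (shiftU u z i))

theorem dyadicW_integral {N : ℕ} (e : Fin N → ℝ) (J : ℕ) (u : Fin N → X3) :
    ∑ j ∈ Finset.range (J + 1), (2:ℝ)^j * PP e (2^j) u =
      ∫ z in Qd, dyadicW J e (shiftU u z) := by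
  unfold dyadicW
  rw [integral_finsetSum]
  · refine Finset.sum_congr rfl fun j _ => ?_
    rw [integral_const_mul, PP_eq]
  · intro j _
    refine Integrable.const_mul ?_ _
    exact integrable_finsetSum _ fun i _ => integrable_finsetSum _ fun k _ =>
      integrableOn_same u _ i k _

/-- the points `A x_i / s` -/
def UU {N : ℕ} (x : Fin N → E3) (ω : (Fin 3 → E3) × ℝ) : Fin N → X3 :=
  fun i l => ⟪ω.1 l, x i⟫_ℝ / ω.2

theorem measurable_UU {N : ℕ} (x : Fin N → E3) : Measurable (UU x) := by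
  unfold UU
  refine measurable_pi_lambda _ fun i => measurable_pi_lambda _ fun l => ?_
  refine Measurable.div ?_ (by fun_prop)
  have : Continuous fun p : (Fin 3 → E3) × ℝ => ⟪p.1 l, x i⟫_ℝ := by fun_prop
  exact this.measurable

theorem sum_ff {N : ℕ} (e : Fin N → ℝ) (x : Fin N → E3) (ω : (Fin 3 → E3) × ℝ) :
    ∑ i : Fin N, ∑ k ∈ Finset.Ioi i, e i * e k * ff (x i - x k) ω =
      (ω.2^2)⁻¹ * PP e 1 (UU x ω) := by
  unfold PP
  rw [Finset.mul_sum]
  refine Finset.sum_congr rfl fun i _ => ?_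
  rw [Finset.mul_sum]
  refine Finset.sum_congr rfl fun k _ => ?_
  unfold ff UU
  simp only [inner_sub_right, sub_div, one_mul]
  ring

theorem UU_scale {N : ℕ} (x : Fin N → E3) (a : Fin 3 → E3) (s c : ℝ) (hc : 0 < c) (e : Fin N → ℝ) :
    PP e 1 (UU x (a, c⁻¹ * s)) = PP e c (UU x (a, s)) := by
  unfold PP UU
  refine Finset.sum_congr rfl fun i _ => Finset.sum_congr rfl fun k _ => ?_
  congr 2
  funext l
  simp only [one_mul]
  by_cases hs : s = 0
  · simp [hs]
  · field_simp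

/-- integral of the pair sum over `AA × S` -/
def II {N : ℕ} (e : Fin N → ℝ) (x : Fin N → E3) (S : Set ℝ) : ℝ :=
  ∫ ω in AA ×ˢ S, (ω.2^2)⁻¹ * PP e 1 (UU x ω)

theorem integrableOn_PP {N : ℕ} {e : Fin N → ℝ} (he : ∀ i, |e i| ≤ 1) (x : Fin N → E3) {ρ : ℝ}
    (hρ : 0 < ρ) : IntegrableOn (fun ω => (ω.2^2)⁻¹ * PP e 1 (UU x ω)) (AA ×ˢ Set.Ioi ρ) volume := by
  refine Integrable.mono' ((integrableOn_inv_sq_prod hρ).mul_const ((N:ℝ) * N)) ?_ ?_
  · refine Measurable.aestronglyMeasurable ?_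
    exact Measurable.mul (by fun_prop) ((measurable_PP e 1).comp (measurable_UU x))
  · refine Eventually.of_forall fun ω => ?_
    rw [Real.norm_eq_abs, abs_mul, abs_of_nonneg (by positivity : 0 ≤ (ω.2^2)⁻¹)]
    exact mul_le_mul_of_nonneg_left (PP_abs_le he _ _) (by positivity)

theorem II_split {N : ℕ} {e : Fin N → ℝ} (he : ∀ i, |e i| ≤ 1) (x : Fin N → E3) {r : ℝ}
    (hr : 0 < r) (J : ℕ) : II e x (Set.Ioi (r / 2^J)) = II e x (Set.Ioi (2 * r)) +
      ∑ j ∈ Finset.range (J + 1), II e x (Set.Ioc (r/2^j) (2*r/2^j)) := by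
  have key : ∀ a b : ℝ, 0 < a → a ≤ b → II e x (Set.Ioi a) = II e x (Set.Ioi b) + II e x (Set.Ioc a b) := by
    intro a b ha hab
    unfold II
    have hs : AA ×ˢ Set.Ioi a = AA ×ˢ Set.Ioi b ∪ AA ×ˢ Set.Ioc a b := by
      rw [← Set.prod_union, Set.union_comm, Set.Ioc_union_Ioi_eq_Ioi hab]
    have hint := integrableOn_PP he x ha
    rw [hs, setIntegral_union]
    · rw [Set.disjoint_left]
      rintro ω ⟨_, h1⟩ ⟨_, h2⟩
      exact absurd h1 (not_lt.2 h2.2)
    · exact measurableSet_AA.prod measurableSet_Ioc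
    · exact hint.mono_set (Set.prod_mono_right (Set.Ioi_subset_Ioi hab))
    · exact hint.mono_set (Set.prod_mono_right Set.Ioc_subset_Ioi_self)
  induction J with
  | zero =>
    simp only [pow_zero, div_one, zero_add, Finset.range_one, Finset.sum_singleton]
    exact key r (2*r) hr (by linarith)
  | succ J ih =>
    rw [Finset.sum_range_succ, ← add_assoc, ← ih]
    have e1 : r / 2^J = 2 * r / 2^(J+1) := by rw [pow_succ]; field_simp
    rw [e1]
    exact key _ _ (by positivity) (by gcongr; linarith)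

theorem II_scale {N : ℕ} {e : Fin N → ℝ} (he : ∀ i, |e i| ≤ 1) (x : Fin N → E3) {r : ℝ}
    (hr : 0 < r) (j : ℕ) : 
    IntegrableOn (fun ω => (ω.2^2)⁻¹ * (2^j * PP e (2^j) (UU x ω))) (AA ×ˢ Set.Ioc r (2*r)) volume ∧
    II e x (Set.Ioc (r/2^j) (2*r/2^j)) =
      ∫ ω in AA ×ˢ Set.Ioc r (2*r), (ω.2^2)⁻¹ * (2^j * PP e (2^j) (UU x ω)) := by
  have hvol : (volume : Measure ((Fin 3 → E3) × ℝ)) (AA ×ˢ Set.Ioc r (2*r)) ≠ ∞ := by
    rw [Measure.volume_eq_prod, Measure.prod_prod]
    exact ENNReal.mul_ne_top volume_AA_lt_top.ne measure_Ioc_lt_top.ne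
  have hint2 : IntegrableOn (fun ω => (ω.2^2)⁻¹ * (2^j * PP e (2^j) (UU x ω)))
      (AA ×ˢ Set.Ioc r (2*r)) volume := by
    refine Measure.integrableOn_of_bounded (M := (r^2)⁻¹ * (2^j * (N*N))) hvol ?_ ?_
    · refine Measurable.aestronglyMeasurable ?_
      exact Measurable.mul (by fun_prop)
        (((measurable_PP e _).comp (measurable_UU x)).const_mul _)
    · refine (ae_restrict_iff' (measurableSet_AA.prod measurableSet_Ioc)).2
        (Eventually.of_forall fun ω hω => ?_)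
      have h1 : r < ω.2 := hω.2.1
      rw [Real.norm_eq_abs, abs_mul, abs_mul, abs_of_nonneg (by positivity : 0 ≤ (ω.2^2)⁻¹),
        abs_of_pos (by positivity : (0:ℝ) < 2^j)]
      have h2 := PP_abs_le he (2^j) (UU x ω)
      gcongr
  refine ⟨hint2, ?_⟩
  have hint1 : IntegrableOn (fun ω => (ω.2^2)⁻¹ * PP e 1 (UU x ω))
      (AA ×ˢ Set.Ioc (r/2^j) (2*r/2^j)) volume :=
    (integrableOn_PP he x (by positivity : 0 < r/2^j)).mono_set
      (Set.prod_mono_right Set.Ioc_subset_Ioi_self)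
  unfold II
  rw [Measure.volume_eq_prod] at hint1 hint2 ⊢
  rw [setIntegral_prod _ hint1, setIntegral_prod _ hint2]
  refine setIntegral_congr_fun measurableSet_AA fun a _ => ?_
  have hc : (0:ℝ) < 2^j := by positivity
  rw [← intervalIntegral.integral_of_le (by linarith : r ≤ 2*r),
    ← intervalIntegral.integral_of_le (by gcongr; linarith : r/2^j ≤ 2*r/2^j)]
  have h := intervalIntegral.integral_comp_mul_left (a := r) (b := 2*r)
    (fun s => (s^2)⁻¹ * PP e 1 (UU x (a, s))) (inv_ne_zero hc.ne')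
  rw [inv_inv, smul_eq_mul] at h
  have e1 : ((2:ℝ)^j)⁻¹ * r = r / 2^j := by ring
  have e2 : ((2:ℝ)^j)⁻¹ * (2*r) = 2*r / 2^j := by ring
  rw [e1, e2] at h
  have h' : ∫ s in r/2^j..2*r/2^j, (s^2)⁻¹ * PP e 1 (UU x (a, s)) =
      (2^j)⁻¹ * ∫ s in r..2*r, (((2^j)⁻¹ * s)^2)⁻¹ * PP e 1 (UU x (a, (2^j)⁻¹ * s)) := by
    rw [h]; field_simp
  rw [h', ← intervalIntegral.integral_const_mul]
  refine intervalIntegral.integral_congr fun s _ => ?_
  show (2 ^ j)⁻¹ * ((((2 ^ j)⁻¹ * s) ^ 2)⁻¹ * PP e 1 (UU x (a, (2 ^ j)⁻¹ * s))) =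
    (s ^ 2)⁻¹ * (2 ^ j * PP e (2 ^ j) (UU x (a, s)))
  rw [UU_scale x a s _ hc, mul_pow, mul_inv]
  field_simp

theorem II_far {N : ℕ} {e : Fin N → ℝ} (he : ∀ i, |e i| ≤ 1) (x : Fin N → E3) {r : ℝ}
    (hr : 0 < r) : -((volume AA).toReal * N / r) ≤ II e x (Set.Ioi (2 * r)) := by
  have h2r : (0:ℝ) < 2 * r := by positivity
  have hval : ∫ ω in (AA ×ˢ Set.Ioi (2*r) : Set ((Fin 3 → E3) × ℝ)), (ω.2^2)⁻¹ = (volume AA).toReal * (2*r)⁻¹ := by
    have h := setIntegral_prod_mul (μ := (volume : Measure (Fin 3 → E3)))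
      (ν := (volume : Measure ℝ)) (fun _ => (1:ℝ)) (fun s => (s^2)⁻¹) AA (Set.Ioi (2*r))
    simp only [one_mul] at h
    rw [Measure.volume_eq_prod, h, setIntegral_const, smul_eq_mul, mul_one]
    congr 1
    have h3 := integral_Ioi_rpow_of_lt (a := -2) (by norm_num) h2r
    have h4 : ∫ s in Set.Ioi (2*r), (s^2)⁻¹ = ∫ s in Set.Ioi (2*r), s^(-2:ℝ) := by
      refine setIntegral_congr_fun measurableSet_Ioi fun s hs => ?_
      have hs' : (0:ℝ) < s := h2r.trans hs
      show (s^2)⁻¹ = s^(-2:ℝ)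
      rw [Real.rpow_neg hs'.le]
      norm_num
    rw [h4, h3]
    have : (-2:ℝ) + 1 = -1 := by norm_num
    rw [this, Real.rpow_neg_one]
    ring
  have h1 : ∫ ω in (AA ×ˢ Set.Ioi (2*r) : Set ((Fin 3 → E3) × ℝ)), (ω.2^2)⁻¹ * (-((N:ℝ)/2)) ≤ II e x (Set.Ioi (2 * r)) := by
    unfold II
    refine setIntegral_mono_on ((integrableOn_inv_sq_prod h2r).mul_const _)
      (integrableOn_PP he x h2r) (measurableSet_AA.prod measurableSet_Ioi) fun ω _ => ?_
    exact mul_le_mul_of_nonneg_left (PP_one_lower he _) (by positivity)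
  rw [integral_mul_const, hval] at h1
  refine le_trans ?_ h1
  have h5 : 0 ≤ (volume AA).toReal * N / r := by positivity
  have h6 : (volume AA).toReal * (2*r)⁻¹ * (-((N:ℝ)/2)) = -((volume AA).toReal * N / r) / 4 := by
    field_simp; ring
  rw [h6]; linarith

theorem param_integral {N : ℕ} {e : Fin N → ℝ} (he : ∀ i, |e i| ≤ 1) (x : Fin N → E3) {r : ℝ}
    (hr : 0 < r) (J : ℕ) :
    ∫ ω in ParamSet r, (ω.2.1 ^ 2)⁻¹ *
      dyadicW J e (fun i l => ⟪ω.1 l, x i⟫_ℝ / ω.2.1 + ω.2.2 l) =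
    ∑ j ∈ Finset.range (J + 1), II e x (Set.Ioc (r/2^j) (2*r/2^j)) := by
  set B : ℝ := (∑ j ∈ Finset.range (J + 1), (2:ℝ)^j) * (N * N) with hB
  have hB0 : 0 ≤ B := by positivity
  -- measurability of the integrand
  have hgm : Measurable (fun ω : (Fin 3 → E3) × ℝ × X3 => (ω.2.1 ^ 2)⁻¹ *
      dyadicW J e (fun i l => ⟪ω.1 l, x i⟫_ℝ / ω.2.1 + ω.2.2 l)) := by
    refine Measurable.mul (by fun_prop) ((measurable_dyadicW J e).comp ?_)
    refine measurable_pi_lambda _ fun i => measurable_pi_lambda _ fun l => ?_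
    refine Measurable.add (Measurable.div ?_ (by fun_prop)) (by fun_prop)
    have : Continuous fun p : (Fin 3 → E3) × ℝ × X3 => ⟪p.1 l, x i⟫_ℝ := by fun_prop
    exact this.measurable
  have hvol2 : (volume : Measure (ℝ × X3)) (Set.Ioc r (2*r) ×ˢ Qd) ≠ ∞ := by
    rw [Measure.volume_eq_prod, Measure.prod_prod, volume_Qd, mul_one]
    exact measure_Ioc_lt_top.ne
  have hvol3 : (volume : Measure ((Fin 3 → E3) × ℝ × X3)) (ParamSet r) ≠ ∞ := by
    unfold ParamSet
    rw [Measure.volume_eq_prod, Measure.prod_prod]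
    exact ENNReal.mul_ne_top volume_AA_lt_top.ne hvol2
  have hbound : ∀ (a : Fin 3 → E3) (s : ℝ) (z : X3), r < s →
      ‖(s ^ 2)⁻¹ * dyadicW J e (fun i l => ⟪a l, x i⟫_ℝ / s + z l)‖ ≤ (r^2)⁻¹ * B := by
    intro a s z hs
    rw [Real.norm_eq_abs, abs_mul, abs_of_nonneg (by positivity : 0 ≤ (s^2)⁻¹)]
    have h2 := dyadicW_abs_le he J (fun i l => ⟪a l, x i⟫_ℝ / s + z l)
    rw [← hB] at h2
    gcongr
  have hpm : MeasurableSet (ParamSet r) :=
    measurableSet_AA.prod (measurableSet_Ioc.prod measurableSet_Qd)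
  have hgint : IntegrableOn (fun ω : (Fin 3 → E3) × ℝ × X3 => (ω.2.1 ^ 2)⁻¹ *
      dyadicW J e (fun i l => ⟪ω.1 l, x i⟫_ℝ / ω.2.1 + ω.2.2 l)) (ParamSet r) volume := by
    refine Measure.integrableOn_of_bounded (M := (r^2)⁻¹ * B) hvol3 hgm.aestronglyMeasurable ?_
    refine (ae_restrict_iff' hpm).2 (Eventually.of_forall fun ω hω => ?_)
    exact hbound ω.1 ω.2.1 ω.2.2 hω.2.1.1
  have hgint2 : ∀ a : Fin 3 → E3, IntegrableOn (fun ω : ℝ × X3 => (ω.1 ^ 2)⁻¹ *
      dyadicW J e (fun i l => ⟪a l, x i⟫_ℝ / ω.1 + ω.2 l)) (Set.Ioc r (2*r) ×ˢ Qd) volume := by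
    intro a
    refine Measure.integrableOn_of_bounded (M := (r^2)⁻¹ * B) hvol2
      (hgm.comp (measurable_const.prodMk measurable_id)).aestronglyMeasurable ?_
    refine (ae_restrict_iff' (measurableSet_Ioc.prod measurableSet_Qd)).2
      (Eventually.of_forall fun ω hω => ?_)
    exact hbound a ω.1 ω.2 hω.1.1
  -- right-hand side
  have hR : ∑ j ∈ Finset.range (J + 1), II e x (Set.Ioc (r/2^j) (2*r/2^j)) =
      ∫ ω in AA ×ˢ Set.Ioc r (2*r), (ω.2^2)⁻¹ * ∫ z in Qd, dyadicW J e (shiftU (UU x ω) z) := by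
    rw [Finset.sum_congr rfl fun j _ => (II_scale he x hr j).2,
      ← integral_finsetSum _ fun j _ => (II_scale he x hr j).1]
    refine integral_congr_ae (Eventually.of_forall fun ω => ?_)
    simp only
    rw [← dyadicW_integral, Finset.mul_sum]
  have hRint : IntegrableOn (fun ω => (ω.2^2)⁻¹ * ∫ z in Qd, dyadicW J e (shiftU (UU x ω) z))
      (AA ×ˢ Set.Ioc r (2*r)) volume := by
    have h := integrable_finsetSum (Finset.range (J+1)) fun j _ => (II_scale he x hr j).1
    refine h.congr (Eventually.of_forall fun ω => ?_)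
    simp only
    rw [← dyadicW_integral, Finset.mul_sum]
  rw [hR]
  unfold ParamSet at hgint ⊢
  rw [Measure.volume_eq_prod] at hgint hRint ⊢
  rw [setIntegral_prod _ hgint]
  conv_rhs => rw [Measure.volume_eq_prod, setIntegral_prod _ hRint]
  refine setIntegral_congr_fun measurableSet_AA fun a _ => ?_
  simp only
  have h3 := hgint2 a
  rw [Measure.volume_eq_prod] at h3 ⊢
  rw [setIntegral_prod _ h3]
  refine setIntegral_congr_fun measurableSet_Ioc fun s _ => ?_
  simp only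
  rw [integral_const_mul]
  rfl

/-- Representation of the Coulomb energy from below by dyadic energies. -/
theorem coulomb_lower :
    ∃ c C : ℝ, 0 < c ∧ 0 < C ∧ ∀ r : ℝ, 0 < r → ∃ V : ℕ → E3 → ℝ,
      (∀ J, Measurable (V J)) ∧ (∀ J x, 0 ≤ V J x) ∧ (∀ J, ∃ b : ℝ, ∀ x, V J x ≤ b) ∧
      (∀ J x, x ≠ 0 → V J x ≤ ‖x‖⁻¹) ∧
      (∀ x, x ≠ 0 → Tendsto (fun J => V J x) atTop (𝓝 ‖x‖⁻¹)) ∧
      (∀ x, Monotone (fun J => V J x)) ∧
      ∀ (N J : ℕ) (e : Fin N → ℝ), (∀ i, |e i| ≤ 1) → ∀ x : Fin N → E3,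
        c * (∫ ω in ParamSet r, (ω.2.1 ^ 2)⁻¹ *
            dyadicW J e (fun i l => ⟪ω.1 l, x i⟫_ℝ / ω.2.1 + ω.2.2 l)) - C * N / r
          ≤ ∑ i : Fin N, ∑ k ∈ Finset.Ioi i, e i * e k * V J (x i - x k) := by
  set K : ℝ := Gf (EuclideanSpace.single 0 1) with hK
  have hK0 : 0 < K := by
    refine Gf_pos ?_
    intro h
    have := congrArg norm h
    simp at this
  have hvA : 0 < (volume AA).toReal := ENNReal.toReal_pos volume_AA_pos.ne' volume_AA_lt_top.ne
  refine ⟨K⁻¹, K⁻¹ * (volume AA).toReal, by positivity, by positivity, fun r hr => ?_⟩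
  refine ⟨fun J x => K⁻¹ * ∫ ω in AA ×ˢ Set.Ioi (r/2^J), ff x ω, ?_, ?_, ?_, ?_, ?_, ?_, ?_⟩
  · intro J
    refine Measurable.const_mul ?_ _
    exact (StronglyMeasurable.integral_prod_right'
      (ν := volume.restrict (AA ×ˢ Set.Ioi (r/2^J))) measurable_ff'.stronglyMeasurable).measurable
  · intro J x
    exact mul_nonneg (by positivity) (integral_nonneg fun ω => ff_nonneg x ω)
  · intro J
    refine ⟨K⁻¹ * ∫ ω in (AA ×ˢ Set.Ioi (r/2^J) : Set ((Fin 3 → E3) × ℝ)), (ω.2^2)⁻¹,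
      fun x => ?_⟩
    refine mul_le_mul_of_nonneg_left ?_ (by positivity)
    have hρ : 0 < r/2^J := by positivity
    exact integral_mono (integrableOn_ff hρ x) (integrableOn_inv_sq_prod hρ) fun ω => ff_le x ω
  · intro J x hx
    have hρ : 0 < r/2^J := by positivity
    have h1 : ∫ ω in AA ×ˢ Set.Ioi (r/2^J), ff x ω ≤ Gf x := by
      unfold Gf
      refine setIntegral_mono_set (integrableOn_ff_zero hx)
        (Eventually.of_forall fun ω => ff_nonneg x ω) ?_
      exact (Set.prod_mono_right (Set.Ioi_subset_Ioi hρ.le)).eventuallyLE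
    rw [Gf_eq x hx, ← hK] at h1
    calc K⁻¹ * ∫ ω in AA ×ˢ Set.Ioi (r/2^J), ff x ω ≤ K⁻¹ * (‖x‖⁻¹ * K) := by gcongr
      _ = ‖x‖⁻¹ := by field_simp
  · intro x hx
    have hU : ⋃ J : ℕ, AA ×ˢ Set.Ioi (r/2^J) = AA ×ˢ Set.Ioi (0:ℝ) := by
      ext ω
      simp only [Set.mem_iUnion, Set.mem_prod, Set.mem_Ioi, exists_and_left]
      refine and_congr_right fun _ => ?_
      constructor
      · rintro ⟨J, hJ⟩
        exact lt_trans (by positivity) hJ
      · intro h
        have ht : Tendsto (fun J : ℕ => r / 2^J) atTop (𝓝 0) := by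
          have := (tendsto_pow_atTop_nhds_zero_of_lt_one (r := (1/2:ℝ)) (by norm_num)
            (by norm_num)).const_mul r
          rw [mul_zero] at this
          refine this.congr fun J => ?_
          rw [one_div, inv_pow, div_eq_mul_inv]
        exact (ht.eventually (gt_mem_nhds h)).exists
    have h := tendsto_setIntegral_of_monotone (f := ff x) (μ := volume)
      (s := fun J : ℕ => AA ×ˢ Set.Ioi (r/2^J))
      (fun J => measurableSet_AA.prod measurableSet_Ioi)
      (fun J J' hJ => Set.prod_mono_right (Set.Ioi_subset_Ioi (by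
        gcongr
        norm_num)))
      (by rw [hU]; exact integrableOn_ff_zero hx)
    rw [hU] at h
    have h2 := h.const_mul K⁻¹
    have h3 : K⁻¹ * ∫ ω in AA ×ˢ Set.Ioi (0:ℝ), ff x ω = ‖x‖⁻¹ := by
      have := Gf_eq x hx
      unfold Gf at this hK
      rw [this, ← hK]
      field_simp
    rw [h3] at h2
    exact h2
  · intro x J J' hJ
    simp only
    refine mul_le_mul_of_nonneg_left ?_ (by positivity)
    refine setIntegral_mono_set (integrableOn_ff (by positivity) x)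
      (Eventually.of_forall fun ω => ff_nonneg x ω) ?_
    refine (Set.prod_mono_right (Set.Ioi_subset_Ioi ?_)).eventuallyLE
    gcongr
    norm_num
  · intro N J e he x
    have hρ : 0 < r/2^J := by positivity
    have hsum : ∑ i : Fin N, ∑ k ∈ Finset.Ioi i, e i * e k *
        (K⁻¹ * ∫ ω in AA ×ˢ Set.Ioi (r/2^J), ff (x i - x k) ω) =
        K⁻¹ * II e x (Set.Ioi (r/2^J)) := by
      unfold II
      simp_rw [← sum_ff]
      rw [integral_finsetSum _ fun i _ => integrable_finsetSum _ fun k _ =>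
        (integrableOn_ff hρ (x i - x k)).const_mul _, Finset.mul_sum]
      refine Finset.sum_congr rfl fun i _ => ?_
      rw [integral_finsetSum _ fun k _ => (integrableOn_ff hρ (x i - x k)).const_mul _,
        Finset.mul_sum]
      refine Finset.sum_congr rfl fun k _ => ?_
      rw [integral_const_mul]; ring
    rw [hsum, II_split he x hr J, param_integral he x hr J, mul_add]
    have hfar := II_far he x hr
    have h1 : K⁻¹ * -((volume AA).toReal * N / r) ≤ K⁻¹ * II e x (Set.Ioi (2 * r)) :=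
      mul_le_mul_of_nonneg_left hfar (by positivity)
    have h2 : K⁻¹ * (volume AA).toReal * N / r = - (K⁻¹ * -((volume AA).toReal * N / r)) := by ring
    rw [h2]
    linarith

end

end Pool.Agent.H.MP_d1ae63_mp
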