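import Pool.Agent.H.MP_d1ae63_mp.Defs

set_option autoImplicit false

open MeasureTheory Filter Topology
open scoped ENNReal Real InnerProductSpace

namespace Pool.Agent.H.MP_d1ae63_mp

noncomputable section

/-- the tent function -/
def tent (u : ℝ) : ℝ := max 0 (1 - |u|)

theorem tent_nonneg (u : ℝ) : 0 ≤ tent u := le_max_left _ _

theorem tent_le_one (u : ℝ) : tent u ≤ 1 := by
  unfold tent
  refine max_le zero_le_one ?_
  have := abs_nonneg u
  linarith

theorem continuous_tent : Continuous tent := by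
  unfold tent; fun_prop

theorem tent_eq_zero {u : ℝ} (h : 1 ≤ |u|) : tent u = 0 := by
  unfold tent
  exact max_eq_left (by linarith)

/-- product of tents -/
def hh (u : X3) : ℝ := ∏ l, tent (u l)

theorem hh_nonneg (u : X3) : 0 ≤ hh u := Finset.prod_nonneg fun _ _ => tent_nonneg _

theorem hh_le_one (u : X3) : hh u ≤ 1 :=
  Finset.prod_le_one (fun _ _ => tent_nonneg _) (fun _ _ => tent_le_one _)

theorem continuous_hh : Continuous hh := by
  unfold hh
  exact continuous_finsetProd _ fun l _ => continuous_tent.comp (continuous_apply l)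

theorem hh_eq_zero {u : X3} {l : Fin 3} (h : 1 ≤ |u l|) : hh u = 0 :=
  Finset.prod_eq_zero (Finset.mem_univ l) (tent_eq_zero h)

/-- one-dimensional same-cell indicator -/
def sc (p q w : ℝ) : ℝ := if ⌊p + w⌋ = ⌊q + w⌋ then 1 else 0

theorem measurable_sc (p q : ℝ) : Measurable (sc p q) := by
  unfold sc
  refine Measurable.ite ?_ measurable_const measurable_const
  exact measurableSet_eq_fun (by fun_prop) (by fun_prop)

theorem sc_periodic (p q : ℝ) : Function.Periodic (sc p q) 1 := by
  intro w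
  unfold sc
  rw [← add_assoc, ← add_assoc, Int.floor_add_one, Int.floor_add_one]
  simp

theorem sc_abs_le (p q w : ℝ) : ‖sc p q w‖ ≤ 1 := by
  unfold sc; split_ifs <;> simp

theorem sc_intervalIntegrable (p q a b : ℝ) : IntervalIntegrable (sc p q) volume a b := by
  rw [intervalIntegrable_iff]
  refine Measure.integrableOn_of_bounded (M := 1) ?_ (measurable_sc p q).aestronglyMeasurable ?_
  · simp [Set.uIoc]
  · exact Eventually.of_forall fun w => sc_abs_le p q w

theorem sc_integral_aux (δ : ℝ) (hδ : 0 ≤ δ) : ∫ w in (0:ℝ)..1, sc δ 0 w = tent δ := by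
  rw [intervalIntegral.integral_of_le zero_le_one, ← integral_Ico_eq_integral_Ioc]
  have h1 : ∫ w in Set.Ico (0:ℝ) 1, sc δ 0 w =
      ∫ w in Set.Ico (0:ℝ) 1, (Set.Ico (0:ℝ) (1 - δ)).indicator (fun _ => (1:ℝ)) w := by
    refine setIntegral_congr_fun measurableSet_Ico fun w hw => ?_
    have hw0 : ⌊w⌋ = 0 := Int.floor_eq_zero_iff.2 hw
    simp only [sc, zero_add, hw0]
    by_cases h : w < 1 - δ
    · rw [Set.indicator_of_mem (show w ∈ Set.Ico 0 (1 - δ) from ⟨hw.1, h⟩), if_pos]
      rw [Int.floor_eq_zero_iff]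
      exact ⟨by linarith [hw.1], by linarith⟩
    · rw [Set.indicator_of_notMem (fun h' => h h'.2), if_neg]
      rw [Int.floor_eq_zero_iff]
      intro h'
      have := h'.2
      linarith
  rw [h1, setIntegral_indicator measurableSet_Ico, Set.Ico_inter_Ico]
  have h2 : min 1 (1 - δ) = 1 - δ := min_eq_right (by linarith)
  simp only [max_self, h2, integral_const, MeasurableSet.univ, measureReal_restrict_apply,
    Set.univ_inter, Real.volume_real_Ico, sub_zero, smul_eq_mul, mul_one]
  unfold tent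
  rw [abs_of_nonneg hδ, max_comm]

theorem sc_integral (p q : ℝ) : ∫ w in (0:ℝ)..1, sc p q w = tent (p - q) := by
  wlog h : q ≤ p with H
  · have e : sc p q = sc q p := by
      funext w; unfold sc; simp only [eq_comm]
    have e2 : tent (p - q) = tent (q - p) := by
      unfold tent; rw [abs_sub_comm]
    rw [e, e2]
    exact H q p (by linarith)
  have e : ∀ w, sc p q w = sc (p - q) 0 (q + w) := by
    intro w
    unfold sc
    have : p - q + (q + w) = p + w := by ring
    rw [this, zero_add]
  simp_rw [e]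
  rw [intervalIntegral.integral_comp_add_left (fun w => sc (p - q) 0 w) q, add_zero,
    (sc_periodic (p - q) 0).intervalIntegral_add_eq q 0, zero_add]
  exact sc_integral_aux _ (by linarith)

theorem sc_integral_scaled (n : ℕ) (hn : 0 < n) (u v : ℝ) :
    ∫ z in Set.Ico (0:ℝ) 1, (if ⌊(n:ℝ) * (u + z)⌋ = ⌊(n:ℝ) * (v + z)⌋ then (1:ℝ) else 0) =
      tent (n * (u - v)) := by
  have hn' : (n:ℝ) ≠ 0 := by positivity
  rw [integral_Ico_eq_integral_Ioc, ← intervalIntegral.integral_of_le zero_le_one]
  have e : ∀ z : ℝ, (if ⌊(n:ℝ) * (u + z)⌋ = ⌊(n:ℝ) * (v + z)⌋ then (1:ℝ) else 0) =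
      sc (n * u) (n * v) (n * z) := by
    intro z; unfold sc; rw [mul_add, mul_add]
  simp_rw [e]
  rw [intervalIntegral.integral_comp_mul_left (fun w => sc (n*u) (n*v) w) hn']
  have h := (sc_periodic (n*u) (n*v)).intervalIntegral_add_zsmul_eq n 0
    (sc_intervalIntegrable _ _)
  simp only [zero_add, zsmul_eq_mul, Int.cast_natCast, mul_one] at h
  rw [mul_zero, mul_one, h, sc_integral, smul_eq_mul, ← mul_assoc, inv_mul_cancel₀ hn', one_mul,
    mul_sub]

theorem same_cell (j : ℕ) (u v : X3) :
    ∫ z in Set.pi Set.univ (fun _ : Fin 3 => Set.Ico (0:ℝ) 1),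
      (if cellIdx j (fun l => u l + z l) = cellIdx j (fun l => v l + z l) then (1:ℝ) else 0) =
      hh (fun l => 2^j * (u l - v l)) := by
  have e : ∀ z : X3, (if cellIdx j (fun l => u l + z l) = cellIdx j (fun l => v l + z l)
      then (1:ℝ) else 0) =
      ∏ l, (if ⌊((2^j : ℕ):ℝ) * (u l + z l)⌋ = ⌊((2^j : ℕ):ℝ) * (v l + z l)⌋ then (1:ℝ) else 0) := by
    intro z
    have hc : ∀ w : X3, cellIdx j w = fun l => ⌊((2^j : ℕ):ℝ) * w l⌋ := by
      intro w; funext l
      simp only [cellIdx, zpow_natCast, Nat.cast_pow, Nat.cast_ofNat]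
    rw [hc, hc]
    by_cases h : (fun l => ⌊((2^j : ℕ):ℝ) * (u l + z l)⌋) = fun l => ⌊((2^j : ℕ):ℝ) * (v l + z l)⌋
    · rw [if_pos h, Finset.prod_eq_one]
      intro l _
      rw [if_pos (congrFun h l)]
    · rw [if_neg h]
      obtain ⟨l, hl⟩ := Function.ne_iff.1 h
      rw [Finset.prod_eq_zero (Finset.mem_univ l) (if_neg hl)]
  simp_rw [e]
  rw [volume_pi, Measure.restrict_pi_pi]
  rw [integral_fintype_prod_eq_prod (𝕜 := ℝ) (fun l (w : ℝ) =>
    if ⌊((2^j : ℕ):ℝ) * (u l + w)⌋ = ⌊((2^j : ℕ):ℝ) * (v l + w)⌋ then (1:ℝ) else 0)]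
  unfold hh
  refine Finset.prod_congr rfl fun l _ => ?_
  rw [sc_integral_scaled _ (by positivity)]
  push_cast
  rfl

/-- positivity of the same-label form -/
theorem label_form {N : ℕ} {κ : Type*} [DecidableEq κ] (e : Fin N → ℝ) (he : ∀ i, |e i| ≤ 1)
    (c : Fin N → κ) :
    -((N:ℝ)/2) ≤ ∑ i : Fin N, ∑ k ∈ Finset.Ioi i, (if c i = c k then e i * e k else 0) := by
  set f : Fin N → Fin N → ℝ := fun i k => if c i = c k then e i * e k else 0 with hf
  have hsymm : ∀ i k, f i k = f k i := by
    intro i k; simp only [hf, eq_comm (a := c i), mul_comm (e i)]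
  have h1 : ∑ i : Fin N, ∑ k : Fin N, f i k =
      2 * (∑ i : Fin N, ∑ k ∈ Finset.Ioi i, f i k) + ∑ i, f i i := by
    have hsplit : ∀ i : Fin N, ∑ k : Fin N, f i k =
        ∑ k ∈ Finset.Ioi i, f i k + ∑ k ∈ Finset.Iio i, f i k + f i i := by
      intro i
      have : (Finset.univ : Finset (Fin N)) = (Finset.Ioi i ∪ Finset.Iio i) ∪ {i} := by
        ext k
        simp only [Finset.mem_univ, Finset.mem_union, Finset.mem_Ioi, Finset.mem_Iio,
          Finset.mem_singleton, true_iff]
        rcases lt_trichotomy i k with h | h | h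
        · exact Or.inl (Or.inl h)
        · exact Or.inr h.symm
        · exact Or.inl (Or.inr h)
      rw [this, Finset.sum_union, Finset.sum_union, Finset.sum_singleton]
      · rw [Finset.disjoint_left]
        intro k hk hk'
        rw [Finset.mem_Ioi] at hk
        rw [Finset.mem_Iio] at hk'
        exact absurd hk (not_lt.2 hk'.le)
      · rw [Finset.disjoint_singleton_right]
        simp
    simp_rw [hsplit]
    rw [Finset.sum_add_distrib, Finset.sum_add_distrib]
    have hswap : ∑ i : Fin N, ∑ k ∈ Finset.Iio i, f i k = ∑ i : Fin N, ∑ k ∈ Finset.Ioi i, f i k := by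
      rw [Finset.sum_comm' (t' := Finset.univ) (s' := fun k => Finset.Ioi k)]
      · refine Finset.sum_congr rfl fun i _ => Finset.sum_congr rfl fun k _ => hsymm _ _
      · intro x y; simp
    rw [hswap]; ring
  have h2 : 0 ≤ ∑ i : Fin N, ∑ k : Fin N, f i k := by
    have : ∑ i : Fin N, ∑ k : Fin N, f i k =
        ∑ b ∈ Finset.univ.image c, (∑ i ∈ Finset.univ.filter (fun i => c i = b), e i)^2 := by
      have hfib : ∑ i : Fin N, ∑ k : Fin N, f i k = ∑ b ∈ Finset.univ.image c,
          ∑ i ∈ Finset.univ.filter (fun i => c i = b), ∑ k : Fin N, f i k :=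
        (Finset.sum_fiberwise_of_maps_to (fun i _ => Finset.mem_image_of_mem c (Finset.mem_univ i)) _).symm
      rw [hfib]
      refine Finset.sum_congr rfl fun b _ => ?_
      rw [sq, Finset.sum_mul_sum]
      refine Finset.sum_congr rfl fun i hi => ?_
      rw [Finset.sum_filter]
      refine Finset.sum_congr rfl fun k _ => ?_
      simp only [Finset.mem_filter, Finset.mem_univ, true_and] at hi
      simp only [hf, hi, eq_comm (a := b)]
    rw [this]
    exact Finset.sum_nonneg fun _ _ => sq_nonneg _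
  have h3 : ∑ i, f i i ≤ N := by
    calc ∑ i, f i i ≤ ∑ _i : Fin N, (1:ℝ) := by
          refine Finset.sum_le_sum fun i _ => ?_
          simp only [hf, if_true]
          have := he i
          nlinarith [abs_nonneg (e i), abs_mul_abs_self (e i)]
      _ = N := by simp
  linarith

end

end Pool.Agent.H.MP_d1ae63_mp
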