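import Pool.Agent.H.MP_d1ae63_mp.CoulombRep1

set_option autoImplicit false

open MeasureTheory Filter Topology
open scoped ENNReal Real InnerProductSpace

namespace Pool.Agent.H.MP_d1ae63_mp

noncomputable section

/-- triples `a` of vectors such that `x ↦ (⟪a_l,x⟫)_l` satisfies `‖x‖/2 ≤ |Ax| ≤ 2‖x‖` -/
def AA : Set (Fin 3 → E3) :=
  {a | ∀ x : E3, ‖x‖ ^ 2 / 4 ≤ ∑ l, ⟪a l, x⟫_ℝ ^ 2 ∧ ∑ l, ⟪a l, x⟫_ℝ ^ 2 ≤ 4 * ‖x‖ ^ 2}

/-- parameter space: linear maps in `AA`, scales in `(r,2r]`, shifts in `[0,1)^3` -/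
def ParamSet (r : ℝ) : Set ((Fin 3 → E3) × ℝ × X3) :=
  AA ×ˢ (Set.Ioc r (2 * r) ×ˢ Set.pi Set.univ (fun _ => Set.Ico (0 : ℝ) 1))

theorem isClosed_AA : IsClosed AA := by
  have : AA = ⋂ x : E3, ({a | ‖x‖^2/4 ≤ ∑ l, ⟪a l, x⟫_ℝ^2} ∩
      {a | ∑ l, ⟪a l, x⟫_ℝ^2 ≤ 4*‖x‖^2}) := by
    ext a; simp [AA]
  rw [this]
  refine isClosed_iInter fun x => ?_
  have hc : Continuous fun a : Fin 3 → E3 => ∑ l, ⟪a l, x⟫_ℝ^2 := by fun_prop
  exact (isClosed_le continuous_const hc).inter (isClosed_le hc continuous_const)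

theorem measurableSet_AA : MeasurableSet AA := isClosed_AA.measurableSet

theorem volume_AA_lt_top : volume AA < ∞ := by
  refine lt_of_le_of_lt (measure_mono (t := Metric.closedBall 0 2) ?_) measure_closedBall_lt_top
  intro a ha
  rw [mem_closedBall_zero_iff, pi_norm_le_iff_of_nonneg (by norm_num)]
  intro l
  have h1 := (ha (a l)).2
  have h2 : ⟪a l, a l⟫_ℝ ^ 2 ≤ ∑ l', ⟪a l', a l⟫_ℝ ^ 2 :=
    Finset.single_le_sum (f := fun l' => ⟪a l', a l⟫_ℝ ^ 2) (fun _ _ => sq_nonneg _)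
      (Finset.mem_univ l)
  rw [real_inner_self_eq_norm_sq] at h2
  have h3 : (‖a l‖^2)^2 ≤ 4 * ‖a l‖^2 := h2.trans h1
  have h4 : 0 ≤ ‖a l‖ := norm_nonneg _
  by_contra h
  push Not at h
  have h5 : 4 < ‖a l‖^2 := by nlinarith
  nlinarith

theorem volume_AA_pos : 0 < volume AA := by
  have hsub : Metric.ball (fun l : Fin 3 => (EuclideanSpace.single l (1:ℝ) : E3)) (1/10) ⊆ AA := by
    intro a ha x
    have hl : ∀ l, |⟪a l, x⟫_ℝ ^ 2 - x l ^ 2| ≤ 21/100 * ‖x‖^2 := by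
      intro l
      have h1 : dist (a l) (EuclideanSpace.single l (1:ℝ)) < 1/10 :=
        (dist_pi_lt_iff (by norm_num)).1 (Metric.mem_ball.1 ha) l
      rw [dist_eq_norm] at h1
      have h2 : ⟪a l, x⟫_ℝ - x l = ⟪a l - EuclideanSpace.single l (1:ℝ), x⟫_ℝ := by
        rw [inner_sub_left, EuclideanSpace.inner_single_left]; simp
      have h3 : |⟪a l, x⟫_ℝ - x l| ≤ 1/10 * ‖x‖ := by
        rw [h2]
        refine (abs_real_inner_le_norm _ _).trans ?_
        exact mul_le_mul_of_nonneg_right h1.le (norm_nonneg _)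
      have h4 : |x l| ≤ ‖x‖ := by
        have := PiLp.norm_apply_le x l
        simpa using this
      have h5 : |⟪a l, x⟫_ℝ + x l| ≤ 21/10 * ‖x‖ := by
        have : ⟪a l, x⟫_ℝ + x l = (⟪a l, x⟫_ℝ - x l) + 2 * x l := by ring
        rw [this]
        calc _ ≤ |⟪a l, x⟫_ℝ - x l| + |2 * x l| := abs_add_le _ _
          _ ≤ 1/10 * ‖x‖ + 2 * ‖x‖ := by
            rw [abs_mul, abs_two]; gcongr
          _ = _ := by ring
      have h6 : ⟪a l, x⟫_ℝ ^ 2 - x l ^ 2 = (⟪a l, x⟫_ℝ - x l) * (⟪a l, x⟫_ℝ + x l) := by ring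
      rw [h6, abs_mul]
      calc _ ≤ (1/10 * ‖x‖) * (21/10 * ‖x‖) := by gcongr
        _ = _ := by ring
    have hsum : ∑ l, x l ^ 2 = ‖x‖^2 := by
      rw [EuclideanSpace.norm_sq_eq]; simp
    have hd : |∑ l, ⟪a l, x⟫_ℝ ^ 2 - ‖x‖^2| ≤ 63/100 * ‖x‖^2 := by
      rw [← hsum, ← Finset.sum_sub_distrib]
      refine (Finset.abs_sum_le_sum_abs _ _).trans ?_
      refine (Finset.sum_le_sum fun l _ => hl l).trans (le_of_eq ?_)
      rw [hsum]
      simp; ring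
    rw [abs_le] at hd
    have h0 : 0 ≤ ‖x‖^2 := by positivity
    constructor <;> linarith [hd.1, hd.2]
  exact lt_of_lt_of_le (Metric.measure_ball_pos _ _ (by norm_num)) (measure_mono hsub)

/-- the integrand in the representation of the Coulomb kernel -/
def ff (x : E3) (ω : (Fin 3 → E3) × ℝ) : ℝ :=
  (ω.2^2)⁻¹ * hh (fun l => ⟪ω.1 l, x⟫_ℝ / ω.2)

theorem ff_nonneg (x : E3) (ω : (Fin 3 → E3) × ℝ) : 0 ≤ ff x ω :=
  mul_nonneg (by positivity) (hh_nonneg _)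

theorem ff_le (x : E3) (ω : (Fin 3 → E3) × ℝ) : ff x ω ≤ (ω.2^2)⁻¹ :=
  mul_le_of_le_one_right (by positivity) (hh_le_one _)

theorem measurable_ff' : Measurable (fun p : E3 × ((Fin 3 → E3) × ℝ) => ff p.1 p.2) := by
  unfold ff
  refine Measurable.mul (by fun_prop) (continuous_hh.measurable.comp ?_)
  refine measurable_pi_lambda _ fun l => ?_
  refine Measurable.div ?_ (by fun_prop)
  have : Continuous fun p : E3 × ((Fin 3 → E3) × ℝ) => ⟪p.2.1 l, p.1⟫_ℝ := by fun_prop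
  exact this.measurable

theorem measurable_ff (x : E3) : Measurable (ff x) :=
  measurable_ff'.comp (measurable_const.prodMk measurable_id)

theorem integrableOn_inv_sq {ρ : ℝ} (hρ : 0 < ρ) :
    IntegrableOn (fun s : ℝ => (s^2)⁻¹) (Set.Ioi ρ) volume := by
  refine (integrableOn_Ioi_rpow_of_lt (a := -2) (by norm_num) hρ).congr_fun ?_ measurableSet_Ioi
  intro s hs
  have hs' : (0:ℝ) < s := hρ.trans hs
  simp only
  rw [Real.rpow_neg hs'.le]
  norm_num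

theorem integrableOn_inv_sq_prod {ρ : ℝ} (hρ : 0 < ρ) :
    IntegrableOn (fun ω : (Fin 3 → E3) × ℝ => (ω.2^2)⁻¹) (AA ×ˢ Set.Ioi ρ) volume := by
  have h1 : IntegrableOn (fun _ : Fin 3 → E3 => (1:ℝ)) AA volume :=
    integrableOn_const volume_AA_lt_top.ne
  have h2 := Integrable.mul_prod h1 (integrableOn_inv_sq hρ)
  rw [Measure.prod_restrict, ← Measure.volume_eq_prod] at h2
  simp only [one_mul] at h2
  exact h2

theorem integrableOn_ff {ρ : ℝ} (hρ : 0 < ρ) (x : E3) :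
    IntegrableOn (ff x) (AA ×ˢ Set.Ioi ρ) volume := by
  refine Integrable.mono' (integrableOn_inv_sq_prod hρ) (measurable_ff x).aestronglyMeasurable ?_
  refine Eventually.of_forall fun ω => ?_
  rw [Real.norm_of_nonneg (ff_nonneg _ _)]
  exact ff_le _ _

theorem ff_eq_zero {x : E3} {ω : (Fin 3 → E3) × ℝ} (h1 : ω.1 ∈ AA) (h2 : 0 < ω.2)
    (h3 : ω.2 ≤ ‖x‖/4) : ff x ω = 0 := by
  have : ∃ l, 1 ≤ |⟪ω.1 l, x⟫_ℝ / ω.2| := by
    by_contra h
    push Not at h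
    have h4 : ∀ l, ⟪ω.1 l, x⟫_ℝ ^ 2 ≤ ω.2 ^ 2 := by
      intro l
      have := h l
      rw [abs_div, abs_of_pos h2, div_lt_one h2] at this
      rw [← sq_abs]
      gcongr
    have h5 := (h1 x).1
    have h6 : ∑ l, ⟪ω.1 l, x⟫_ℝ ^ 2 ≤ ∑ _l : Fin 3, ω.2^2 := Finset.sum_le_sum fun l _ => h4 l
    simp only [Finset.sum_const, Finset.card_univ, Fintype.card_fin, nsmul_eq_mul,
      Nat.cast_ofNat] at h6
    have h7 : ω.2 ^ 2 ≤ (‖x‖/4)^2 := by gcongr
    have h8 : 0 < ω.2^2 := by positivity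
    nlinarith
  obtain ⟨l, hl⟩ := this
  unfold ff
  rw [hh_eq_zero (l := l) hl, mul_zero]

theorem integrableOn_ff_zero {x : E3} (hx : x ≠ 0) :
    IntegrableOn (ff x) (AA ×ˢ Set.Ioi 0) volume := by
  have hx' : 0 < ‖x‖/4 := by positivity
  have hs : (AA ×ˢ Set.Ioi (0:ℝ)) = AA ×ˢ Set.Ioc 0 (‖x‖/4) ∪ AA ×ˢ Set.Ioi (‖x‖/4) := by
    rw [← Set.prod_union, Set.Ioc_union_Ioi_eq_Ioi hx'.le]
  rw [hs]
  refine IntegrableOn.union ?_ (integrableOn_ff hx' x)
  refine (integrableOn_zero (s := AA ×ˢ Set.Ioc (0:ℝ) (‖x‖/4)) (μ := volume) (ε' := ℝ)).congr_fun ?_ (measurableSet_AA.prod measurableSet_Ioc)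
  intro ω hω
  exact (ff_eq_zero hω.1 hω.2.1 hω.2.2).symm

/-- the total integral -/
def Gf (x : E3) : ℝ := ∫ ω in AA ×ˢ Set.Ioi (0:ℝ), ff x ω

theorem Gf_smul {t : ℝ} (ht : 0 < t) {x : E3} (hx : x ≠ 0) : Gf (t • x) = t⁻¹ * Gf x := by
  have htx : t • x ≠ 0 := smul_ne_zero ht.ne' hx
  unfold Gf
  have h1 := integrableOn_ff_zero htx
  have h2 := integrableOn_ff_zero hx
  rw [Measure.volume_eq_prod] at h1 h2 ⊢
  rw [setIntegral_prod _ h1, setIntegral_prod _ h2, ← integral_const_mul]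
  refine setIntegral_congr_fun measurableSet_AA fun a _ => ?_
  have e : ∀ s ∈ Set.Ioi (0:ℝ), ff (t • x) (a, s) = (t^2)⁻¹ * ff x (a, t⁻¹ * s) := by
    intro s hs
    have hs' : (0:ℝ) < s := hs
    unfold ff
    simp only [inner_smul_right]
    rw [mul_pow, mul_inv, ← mul_assoc]
    congr 1
    · field_simp
    · congr 1; funext l; field_simp
  rw [setIntegral_congr_fun measurableSet_Ioi e, integral_const_mul,
    integral_comp_mul_left_Ioi (fun s => ff x (a, s)) 0 (inv_pos.2 ht), mul_zero, inv_inv,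
    smul_eq_mul, ← mul_assoc]
  congr 1
  field_simp

theorem Gf_isometry (U : E3 ≃ₗᵢ[ℝ] E3) (x : E3) : Gf (U x) = Gf x := by
  unfold Gf
  set Φ : ((Fin 3 → E3) × ℝ) ≃ᵐ ((Fin 3 → E3) × ℝ) :=
    (MeasurableEquiv.piCongrRight fun _ : Fin 3 => U.symm.toMeasurableEquiv).prodCongr
      (MeasurableEquiv.refl ℝ) with hΦ
  have hΦa : ∀ ω, Φ ω = (fun l => U.symm (ω.1 l), ω.2) := fun ω => rfl
  have hmp : MeasurePreserving Φ volume volume := by
    have h1 : MeasurePreserving (fun (a : Fin 3 → E3) l => U.symm (a l)) volume volume :=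
      volume_preserving_pi (f := fun _ => (U.symm : E3 → E3)) fun _ => U.symm.measurePreserving
    exact h1.prod (MeasurePreserving.id (volume : Measure ℝ))
  have hff : ∀ ω, ff (U x) ω = ff x (Φ ω) := by
    intro ω
    rw [hΦa]
    unfold ff
    simp only
    congr 2
    funext l
    congr 1
    rw [← LinearIsometryEquiv.inner_map_map U (U.symm (ω.1 l)) x,
      LinearIsometryEquiv.apply_symm_apply]
  have hpre : Φ ⁻¹' (AA ×ˢ Set.Ioi 0) = AA ×ˢ Set.Ioi 0 := by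
    ext ω
    rw [Set.mem_preimage, hΦa, Set.mem_prod, Set.mem_prod]
    refine and_congr_left fun _ => ?_
    have key : ∀ y : E3, ∑ l, ⟪U.symm (ω.1 l), y⟫_ℝ ^ 2 = ∑ l, ⟪ω.1 l, U y⟫_ℝ ^ 2 := by
      intro y
      refine Finset.sum_congr rfl fun l _ => ?_
      rw [← LinearIsometryEquiv.inner_map_map U (U.symm (ω.1 l)) y,
        LinearIsometryEquiv.apply_symm_apply]
    constructor
    · intro h y
      have := h (U.symm y)
      rw [key, LinearIsometryEquiv.apply_symm_apply, LinearIsometryEquiv.norm_map] at this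
      exact this
    · intro h y
      show ‖y‖ ^ 2 / 4 ≤ ∑ l, ⟪U.symm (ω.1 l), y⟫_ℝ ^ 2 ∧
        ∑ l, ⟪U.symm (ω.1 l), y⟫_ℝ ^ 2 ≤ 4 * ‖y‖ ^ 2
      rw [key]
      have := h (U y)
      rw [LinearIsometryEquiv.norm_map] at this
      exact this
  simp_rw [hff]
  have h := hmp.setIntegral_preimage_emb Φ.measurableEmbedding (ff x) (AA ×ˢ Set.Ioi 0)
  rw [hpre] at h
  exact h

theorem Gf_pos {x : E3} (hx : x ≠ 0) : 0 < Gf x := by
  unfold Gf
  rw [setIntegral_pos_iff_support_of_nonneg_ae (Eventually.of_forall fun ω => ff_nonneg x ω)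
    (integrableOn_ff_zero hx)]
  have hx' : 0 < ‖x‖ := norm_pos_iff.2 hx
  have hsub : AA ×ˢ Set.Ioi (2 * ‖x‖) ⊆ Function.support (ff x) ∩ (AA ×ˢ Set.Ioi 0) := by
    rintro ⟨a, s⟩ ⟨ha, hs⟩
    simp only at ha hs
    have hs' : 2 * ‖x‖ < s := hs
    have hs0 : 0 < s := by linarith
    refine ⟨?_, ha, hs0⟩
    have hne : 0 < ff x (a, s) := by
      unfold ff
      refine mul_pos (by positivity) (Finset.prod_pos fun l _ => ?_)
      have h1 := (ha x).2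
      have h2 : ⟪a l, x⟫_ℝ ^ 2 ≤ ∑ l', ⟪a l', x⟫_ℝ ^ 2 :=
        Finset.single_le_sum (f := fun l' => ⟪a l', x⟫_ℝ ^ 2) (fun _ _ => sq_nonneg _)
          (Finset.mem_univ l)
      have h3 : |⟪a l, x⟫_ℝ| ≤ 2 * ‖x‖ := by
        refine abs_le_of_sq_le_sq ?_ (by positivity)
        nlinarith
      unfold tent
      refine lt_max_of_lt_right ?_
      simp only
      rw [abs_div, abs_of_pos hs0, sub_pos, div_lt_one hs0]
      exact lt_of_le_of_lt h3 hs'
    exact hne.ne'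
  refine lt_of_lt_of_le ?_ (measure_mono hsub)
  rw [Measure.volume_eq_prod, Measure.prod_prod]
  exact ENNReal.mul_pos volume_AA_pos.ne' (by simp)

theorem Gf_eq (x : E3) (hx : x ≠ 0) : Gf x = ‖x‖⁻¹ * Gf (EuclideanSpace.single 0 1) := by
  have hx' : 0 < ‖x‖ := norm_pos_iff.2 hx
  set u : E3 := ‖x‖⁻¹ • x with hu
  have hu1 : ‖u‖ = 1 := by
    rw [hu, norm_smul, norm_inv, norm_norm, inv_mul_cancel₀ hx'.ne']
  have hxu : x = ‖x‖ • u := by
    rw [hu, smul_smul, mul_inv_cancel₀ hx'.ne', one_smul]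
  have hu0 : u ≠ 0 := by
    intro h; rw [h, norm_zero] at hu1; norm_num at hu1
  have he : ‖(EuclideanSpace.single 0 1 : E3)‖ = ‖u‖ := by
    rw [hu1]; simp
  have hU := Submodule.reflection_sub he
  conv_lhs => rw [hxu, Gf_smul hx' hu0, ← hU]
  congr 1
  exact Gf_isometry _ _

end

end Pool.Agent.H.MP_d1ae63_mp
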