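import Pool.Agent.H.MP_d1ae63_mp.Defs

/-!
# Dyadic cubes and elementary integral inequalities
-/

set_option autoImplicit false

open MeasureTheory Set
open scoped ENNReal Real

namespace Pool.Agent.H.MP_d1ae63_mp

noncomputable section

/-- the dyadic cube of level `j` and index `z` -/
def cube (j : ℤ) (z : Fin 3 → ℤ) : Set X3 := {x | cellIdx j x = z}

/-- the side length `2^{-j}` -/
def side (j : ℤ) : ℝ := (2 : ℝ) ^ (-j)

theorem side_pos (j : ℤ) : 0 < side j := by unfold side; positivity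

theorem side_mul (j : ℤ) : (2 : ℝ) ^ j * side j = 1 := by
  unfold side; rw [zpow_neg, mul_inv_cancel₀ (by positivity)]

theorem side_succ (j : ℤ) : side j = 2 * side (j + 1) := by
  unfold side
  rw [neg_add, zpow_add₀ (by norm_num : (2 : ℝ) ≠ 0)]
  norm_num
  ring

theorem mem_cube_iff {j : ℤ} {z : Fin 3 → ℤ} {x : X3} :
    x ∈ cube j z ↔ ∀ l, x l ∈ Ico ((z l : ℝ) * side j) (((z l : ℝ) + 1) * side j) := by
  unfold cube cellIdx
  simp only [mem_ofPred_eq, funext_iff, Int.floor_eq_iff, mem_Ico]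
  have h2 : (0 : ℝ) < 2 ^ j := by positivity
  have hs := side_pos j
  have hm := side_mul j
  have key1 : ∀ (a b : ℝ), a ≤ 2 ^ j * b ↔ a * side j ≤ b := by
    intro a b
    constructor
    · intro h
      have := mul_le_mul_of_nonneg_right h hs.le
      calc a * side j ≤ 2 ^ j * b * side j := this
        _ = (2 ^ j * side j) * b := by ring
        _ = b := by rw [hm, one_mul]
    · intro h
      have := mul_le_mul_of_nonneg_left h h2.le
      calc a = (2 ^ j * side j) * a := by rw [hm, one_mul]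
        _ = 2 ^ j * (a * side j) := by ring
        _ ≤ 2 ^ j * b := this
  constructor
  · intro h l
    obtain ⟨h1, h3⟩ := h l
    refine ⟨(key1 _ _).mp h1, ?_⟩
    by_contra hcon
    rw [not_lt] at hcon
    exact absurd ((key1 _ _).mpr hcon) (not_le.mpr h3)
  · intro h l
    obtain ⟨h1, h3⟩ := h l
    refine ⟨(key1 _ _).mpr h1, ?_⟩
    by_contra hcon
    rw [not_lt] at hcon
    exact absurd ((key1 _ _).mp hcon) (not_le.mpr h3)

theorem cube_eq_pi (j : ℤ) (z : Fin 3 → ℤ) :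
    cube j z = Set.pi univ fun l => Ico ((z l : ℝ) * side j) (((z l : ℝ) + 1) * side j) := by
  ext x
  rw [mem_cube_iff]
  simp [Set.mem_pi]

theorem measurableSet_cube (j : ℤ) (z : Fin 3 → ℤ) : MeasurableSet (cube j z) := by
  rw [cube_eq_pi]
  exact MeasurableSet.univ_pi fun _ => measurableSet_Ico

theorem measurable_cellIdx (j : ℤ) : Measurable (cellIdx j) := by
  unfold cellIdx
  refine measurable_pi_lambda _ fun l => ?_
  exact Int.measurable_floor.comp ((measurable_pi_apply l).const_mul _)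

theorem volume_cube (j : ℤ) (z : Fin 3 → ℤ) : volume (cube j z) = ENNReal.ofReal (side j ^ 3) := by
  rw [cube_eq_pi, Real.volume_pi_Ico]
  have : ∀ l : Fin 3, ((z l : ℝ) + 1) * side j - (z l : ℝ) * side j = side j := by intro l; ring
  simp_rw [this]
  rw [Fin.prod_const, ENNReal.ofReal_pow (side_pos j).le]

theorem volume_cube_pos (j : ℤ) (z : Fin 3 → ℤ) : 0 < volume (cube j z) := by
  rw [volume_cube]
  have := side_pos j
  positivity

theorem volume_cube_lt_top (j : ℤ) (z : Fin 3 → ℤ) : volume (cube j z) < ∞ := by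
  rw [volume_cube]; exact ENNReal.ofReal_lt_top

theorem mem_cube_self (j : ℤ) (x : X3) : x ∈ cube j (cellIdx j x) := rfl

theorem cube_disjoint {j : ℤ} {z z' : Fin 3 → ℤ} (h : z ≠ z') :
    Disjoint (cube j z) (cube j z') := by
  rw [Set.disjoint_left]
  intro x hx hx'
  exact h (hx.symm.trans hx')

/-- the index of the parent cube -/
theorem cellIdx_parent (j : ℤ) (x : X3) :
    cellIdx j x = fun l => (cellIdx (j + 1) x l) / 2 := by
  unfold cellIdx
  funext l
  have h := Int.floor_div_natCast ((2 : ℝ) ^ (j + 1) * x l) 2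
  have e : (2 : ℝ) ^ (j + 1) * x l / (2 : ℕ) = 2 ^ j * x l := by
    rw [zpow_add₀ (by norm_num : (2 : ℝ) ≠ 0)]; push_cast; ring
  rw [e] at h
  exact_mod_cast h

theorem cellIdx_eq_of_le {j j' : ℤ} (hj : j ≤ j') {x x' : X3}
    (h : cellIdx j' x = cellIdx j' x') : cellIdx j x = cellIdx j x' := by
  obtain ⟨n, rfl⟩ := Int.le.dest hj
  clear hj
  induction n with
  | zero => simpa using h
  | succ n ih =>
    apply ih
    have e : j + ((n + 1 : ℕ) : ℤ) = (j + n) + 1 := by push_cast; ring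
    rw [e] at h
    rw [cellIdx_parent (j + n) x, cellIdx_parent (j + n) x', h]

/-- points in a cube have ancestors equal -/
theorem mem_cube_of_le {j j' : ℤ} (hj : j ≤ j') {x x' : X3} (h : x' ∈ cube j' (cellIdx j' x)) :
    x' ∈ cube j (cellIdx j x) :=
  cellIdx_eq_of_le hj h

theorem cube_subset_cube {j j' : ℤ} (hj : j ≤ j') (x : X3) :
    cube j' (cellIdx j' x) ⊆ cube j (cellIdx j x) := fun _ h => mem_cube_of_le hj h

theorem norm_sub_le_side {j : ℤ} {z : Fin 3 → ℤ} {x v : X3} (hx : x ∈ cube j z)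
    (hv : v ∈ cube j z) : ‖v - x‖ ≤ side j := by
  rw [mem_cube_iff] at hx hv
  rw [pi_norm_le_iff_of_nonneg (side_pos j).le]
  intro l
  rw [Pi.sub_apply, Real.norm_eq_abs, abs_le]
  obtain ⟨h1, h2⟩ := hx l
  obtain ⟨h3, h4⟩ := hv l
  constructor <;> nlinarith

theorem cube_convex_comb {j : ℤ} {z : Fin 3 → ℤ} {x v : X3} (hx : x ∈ cube j z)
    (hv : v ∈ cube j z) {t : ℝ} (ht0 : 0 ≤ t) (ht1 : t ≤ 1) : x + t • (v - x) ∈ cube j z := by
  rw [mem_cube_iff] at *
  intro l
  obtain ⟨h1, h2⟩ := hx l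
  obtain ⟨h3, h4⟩ := hv l
  simp only [Pi.add_apply, Pi.smul_apply, Pi.sub_apply, smul_eq_mul, mem_Ico]
  constructor
  · nlinarith
  · rcases eq_or_lt_of_le ht0 with h | h
    · rw [← h]; linarith
    · nlinarith

/-- Cauchy-Schwarz for the lower integral over a set of finite measure. -/
theorem sq_lintegral_le {Ω : Type*} [MeasurableSpace Ω] (μ : Measure Ω) (g : Ω → ℝ≥0∞)
    (hg : AEMeasurable g μ) : (∫⁻ v, g v ∂μ) ^ 2 ≤ μ univ * ∫⁻ v, g v ^ 2 ∂μ := by
  have h := ENNReal.lintegral_mul_le_Lp_mul_Lq μ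
    (p := 2) (q := 2) ⟨by norm_num, by norm_num, by norm_num⟩ hg (aemeasurable_const (b := (1 : ℝ≥0∞)))
  simp only [Pi.mul_apply, mul_one, ENNReal.one_rpow, lintegral_const, one_mul] at h
  have h2 : (∫⁻ v, g v ∂μ) ^ 2
      ≤ ((∫⁻ v, g v ^ (2 : ℝ) ∂μ) ^ (1 / 2 : ℝ) * μ univ ^ (1 / 2 : ℝ)) ^ 2 :=
    pow_le_pow_left₀ zero_le h 2
  refine h2.trans (le_of_eq ?_)
  rw [mul_pow, ← ENNReal.rpow_natCast, ← ENNReal.rpow_natCast, ← ENNReal.rpow_mul,
    ← ENNReal.rpow_mul]
  norm_num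
  rw [mul_comm]

/-- Jensen / Cauchy-Schwarz for a Bochner integral on a set. -/
theorem enorm_integral_sq_le {Ω : Type*} [MeasurableSpace Ω] (μ : Measure Ω) (g : Ω → ℂ)
    (hg : AEStronglyMeasurable g μ) :
    ‖∫ v, g v ∂μ‖ₑ ^ 2 ≤ μ univ * ∫⁻ v, ‖g v‖ₑ ^ 2 ∂μ :=
  (pow_le_pow_left₀ zero_le (enorm_integral_le_lintegral_enorm g) 2).trans
    (sq_lintegral_le μ _ hg.enorm)

/-- Jensen for averages on a cube -/
theorem enorm_average_sq_le (j : ℤ) (z : Fin 3 → ℤ) (g : X3 → ℂ)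
    (hg : AEStronglyMeasurable g (volume.restrict (cube j z))) :
    ‖⨍ v in cube j z, g v‖ₑ ^ 2
      ≤ (volume (cube j z))⁻¹ * ∫⁻ v in cube j z, ‖g v‖ₑ ^ 2 := by
  have h0 := (volume_cube_pos j z).ne'
  have h1 := (volume_cube_lt_top j z).ne
  rw [setAverage_eq, enorm_smul, mul_pow]
  have h2 := enorm_integral_sq_le (volume.restrict (cube j z)) g hg
  rw [Measure.restrict_apply_univ] at h2
  have h3 : ‖((volume.real (cube j z))⁻¹ : ℝ)‖ₑ = (volume (cube j z))⁻¹ := by
    rw [Real.enorm_eq_ofReal (by positivity), ENNReal.ofReal_inv_of_pos, Measure.real,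
      ENNReal.ofReal_toReal h1]
    rw [Measure.real]; exact ENNReal.toReal_pos h0 h1
  rw [h3]
  calc (volume (cube j z))⁻¹ ^ 2 * ‖∫ v in cube j z, g v‖ₑ ^ 2
      ≤ (volume (cube j z))⁻¹ ^ 2 * (volume (cube j z) * ∫⁻ v in cube j z, ‖g v‖ₑ ^ 2) := by
        gcongr
    _ = ((volume (cube j z))⁻¹ * volume (cube j z)) *
          ((volume (cube j z))⁻¹ * ∫⁻ v in cube j z, ‖g v‖ₑ ^ 2) := by ring
    _ = _ := by rw [ENNReal.inv_mul_cancel h0 h1, one_mul]

/-- affine change of variables for the lower integral -/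
theorem lintegral_affine (F : X3 → ℝ≥0∞) (b : X3) {t : ℝ} (ht : 0 < t) :
    ∫⁻ v, F (b + t • v) = ENNReal.ofReal ((t ^ 3)⁻¹) * ∫⁻ u, F u := by
  have h1 : ∫⁻ v, F (b + t • v) = ∫⁻ u, F (b + u) ∂(Measure.map (t • ·) (volume : Measure X3)) :=
    (MeasurableEmbedding.lintegral_map (measurableEmbedding_const_smul₀ (α := X3) ht.ne')
      (fun u => F (b + u))).symm
  rw [h1, Measure.map_addHaar_smul _ ht.ne', lintegral_smul_measure,
    lintegral_add_left_eq_self, smul_eq_mul]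
  congr 2
  rw [abs_of_nonneg (by positivity)]
  simp

/-- affine change of variables, restricted version: if `b + t v ∈ S` for `v ∈ T` then the integral
over `T` is controlled by the integral over `S`. -/
theorem setLIntegral_affine_le (F : X3 → ℝ≥0∞) (b : X3) {t : ℝ} (ht : 0 < t) {S T : Set X3}
    (hS : MeasurableSet S) (hT : MeasurableSet T) (hTS : ∀ v ∈ T, b + t • v ∈ S) :
    ∫⁻ v in T, F (b + t • v) ≤ ENNReal.ofReal ((t ^ 3)⁻¹) * ∫⁻ u in S, F u := by
  rw [← lintegral_indicator hS, ← lintegral_affine _ b ht, ← lintegral_indicator hT]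
  apply lintegral_mono
  intro v
  by_cases hv : v ∈ T
  · rw [indicator_of_mem hv]
    exact (indicator_of_mem (hTS v hv) F).symm.le
  · rw [indicator_of_notMem hv]; exact zero_le

end

end Pool.Agent.H.MP_d1ae63_mp
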