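import Mathlib

/-!
# Charged bosons with kinetic energy `|p|^α` : basic definitions

`Conf N` is `ℝ^{3N}` with its Euclidean structure, wave functions are elements of `L²(ℝ^{3N};ℂ)`.
The kinetic energy is defined through the `L²` Fourier transform of Mathlib
(convention `𝓕 f k = ∫ exp(-2πi⟨x,k⟩) f x`, so that the momentum is `p = 2πk`).
-/

set_option autoImplicit false

open MeasureTheory
open scoped FourierTransform ENNReal Real InnerProductSpace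

namespace Pool.Agent.H.MP_d1ae63_mp

noncomputable section

/-- One-particle space `ℝ³`. -/
abbrev E3 : Type := EuclideanSpace ℝ (Fin 3)

/-- The configuration space `ℝ^{3N}` of `N` particles, with its Euclidean structure. -/
abbrev Conf (N : ℕ) : Type := PiLp 2 (fun _ : Fin N => E3)

/-- Wave functions of `N` particles: `L²(ℝ^{3N}; ℂ)`. -/
abbrev WaveFn (N : ℕ) : Type := Lp ℂ 2 (volume : Measure (Conf N))

/-- Kinetic energy of particle `i`: `∫ |2πkᵢ|^α |ψ̂(k)|² dk ∈ [0,∞]`. -/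
def kineticAt {N : ℕ} (α : ℝ) (i : Fin N) (ψ : WaveFn N) : ℝ≥0∞ :=
  ∫⁻ k : Conf N, ENNReal.ofReal ((2 * π * ‖k i‖) ^ α) * ‖(𝓕 ψ : WaveFn N) k‖ₑ ^ 2

/-- Kinetic energy `K(ψ) = ⟨ψ, ∑ᵢ |pᵢ|^α ψ⟩ ∈ [0,∞]`. -/
def kinetic {N : ℕ} (α : ℝ) (ψ : WaveFn N) : ℝ≥0∞ :=
  ∑ i : Fin N, kineticAt α i ψ

/-- The Coulomb energy `∑_{i<j} eᵢ eⱼ / |xᵢ - xⱼ|`. -/
def coulomb {N : ℕ} (e : Fin N → ℝ) (x : Conf N) : ℝ :=
  ∑ i : Fin N, ∑ j ∈ Finset.Ioi i, e i * e j / ‖x i - x j‖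

/-- Potential energy `P(ψ) = ⟨ψ, ∑_{i<j} eᵢ eⱼ |xᵢ - xⱼ|⁻¹ ψ⟩`. -/
def potential {N : ℕ} (e : Fin N → ℝ) (ψ : WaveFn N) : ℝ :=
  ∫ x : Conf N, coulomb e x * ‖ψ x‖ ^ 2

/-- `E₀^{(α)}(N)`: the infimum of `K(ψ) + P(ψ)` over all normalised `ψ` of finite kinetic energy
and all charges `eᵢ ∈ {+1,-1}` (an extended real number, so that no boundedness is presupposed). -/
def E0 (α : ℝ) (N : ℕ) : EReal :=
  ⨅ (e : Fin N → ℝ) (_ : ∀ i, e i = 1 ∨ e i = -1) (ψ : WaveFn N) (_ : ‖ψ‖ = 1)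
    (_ : kinetic α ψ ≠ ∞), (((kinetic α ψ).toReal + potential e ψ : ℝ) : EReal)

/-- The exponent `γ(α) = (α²+3α-3)/(α²+2α-3)`. -/
def gam (α : ℝ) : ℝ := (α ^ 2 + 3 * α - 3) / (α ^ 2 + 2 * α - 3)

/-- `m`-th difference of `ψ` in the `i`-th particle with increment `h`. -/
def ddiff {N : ℕ} (m : ℕ) (i : Fin N) (h : E3) (ψ : Conf N → ℂ) (x : Conf N) : ℂ :=
  ∑ k ∈ Finset.range (m + 1), ((-1 : ℂ) ^ k * (m.choose k : ℂ)) *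
    ψ (x + (k : ℝ) • (WithLp.toLp 2 (Pi.single i h) : Conf N))

/-- Difference form `∫ |h|^{-3-α} ∫ |Δ_h^m ψ|² dx dh` in the `i`-th particle. -/
def diffFormAt {N : ℕ} (α : ℝ) (m : ℕ) (i : Fin N) (ψ : Conf N → ℂ) : ℝ≥0∞ :=
  ∫⁻ h : E3, ENNReal.ofReal (‖h‖ ^ (-(3 + α))) * ∫⁻ x : Conf N, ‖ddiff m i h ψ x‖ₑ ^ 2

/-! ### the dyadic model -/

/-- `ℝ³` with the sup norm, used for the dyadic model. -/
abbrev X3 : Type := Fin 3 → ℝ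

/-- index of the dyadic cube of side `2^{-j}` containing `x` -/
def cellIdx (j : ℤ) (x : X3) : Fin 3 → ℤ := fun l => ⌊(2 : ℝ) ^ j * x l⌋

/-- the truncated dyadic Coulomb energy `∑_{j ≤ J} 2^j ∑_{i<k} eᵢ eₖ 1[yᵢ,yₖ in the same cube of level j]` -/
def dyadicW {N : ℕ} (J : ℕ) (e : Fin N → ℝ) (y : Fin N → X3) : ℝ :=
  ∑ j ∈ Finset.range (J + 1), (2 : ℝ) ^ j * ∑ i : Fin N, ∑ k ∈ Finset.Ioi i,
    (if cellIdx j (y i) = cellIdx j (y k) then e i * e k else 0)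

/-- `∑_k (-1)^k C(m,k) f(x + (k/m)(v-x))` -/
def dif (m : ℕ) (f : X3 → ℂ) (x v : X3) : ℂ :=
  ∑ k ∈ Finset.range (m + 1), ((-1 : ℂ) ^ k * (m.choose k : ℂ)) *
    f (x + ((k : ℝ) / (m : ℝ)) • (v - x))

/-- the difference form of the dyadic model in particle `i` -/
def difFormAt {N : ℕ} (α : ℝ) (m : ℕ) (i : Fin N) (ψ : (Fin N → X3) → ℂ) : ℝ≥0∞ :=
  ∫⁻ y : Fin N → X3, ∫⁻ v : X3, ENNReal.ofReal (‖v - y i‖ ^ (-(3 + α))) *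
    ‖dif m (fun u => ψ (Function.update y i u)) (y i) v‖ₑ ^ 2

/-- The hierarchical theorem (statement). -/
def HierarchicalStatement (α : ℝ) (m : ℕ) : Prop :=
  ∃ g₀ c C : ℝ, 0 < g₀ ∧ 0 < c ∧ 0 < C ∧ ∀ (g : ℝ) (N : ℕ), 0 < g → g ≤ g₀ →
    (N : ℝ) ≤ c * g ^ (-((α + 3) / α)) → ∀ (J : ℕ) (e : Fin N → ℝ), (∀ i, |e i| ≤ 1) →
    ∀ ψ : (Fin N → X3) → ℂ, Measurable ψ → ∫⁻ y, ‖ψ y‖ₑ ^ 2 ≠ ∞ →
    (∀ i, difFormAt α m i ψ ≠ ∞) →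
    -(∑ i, (difFormAt α m i ψ).toReal) - C * g * N * ∫ y, ‖ψ y‖ ^ 2
      ≤ g * ∫ y, dyadicW J e y * ‖ψ y‖ ^ 2

end

end Pool.Agent.H.MP_d1ae63_mp
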