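import Pool.Agent.H.MP_d1ae63_mp.HierLeaf

/-!
# Stopping-time decomposition: the one-particle trick for the bad levels
-/

set_option autoImplicit false

open MeasureTheory Set
open scoped ENNReal Real

namespace Pool.Agent.H.MP_d1ae63_mp.Hi

noncomputable section

variable {N : ℕ} {α : ℝ} {m : ℕ} {ψ : (Fin N → X3) → ℂ}

open Classical in
/-- the other particles in the cell of `u` -/
def oth (x : Fin N → X3) (i : Fin N) (j : ℕ) (u : X3) : Finset (Fin N) :=
  (Finset.univ.erase i).filter fun k => cellIdx (j : ℤ) (x k) = cellIdx (j : ℤ) u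

theorem card_cl_update (x : Fin N → X3) (i : Fin N) (j : ℕ) (u : X3) :
    (cl (cc (Function.update x i u)) j i).card = (oth x i j u).card + 1 := by
  classical
  have h1 : cl (cc (Function.update x i u)) j i = insert i (oth x i j u) := by
    ext k
    rw [mem_cl, Finset.mem_insert]
    unfold cc oth
    rw [Finset.mem_filter, Finset.mem_erase, Function.update_self]
    by_cases hk : k = i
    · subst hk
      simp
    · rw [Function.update_of_ne hk]
      simp [hk]
  rw [h1, Finset.card_insert_of_notMem]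
  unfold oth
  simp

open Classical in
/-- volume of the set of bad positions -/
theorem vol_bad (ν : ℕ → ℝ) (x : Fin N → X3) (i : Fin N) (j : ℕ) (hν : 2 ≤ ν j) :
    volume {u : X3 | bad ν (cc (Function.update x i u)) j i} ≤
      ENNReal.ofReal (2 / ν j * N * side (j : ℤ) ^ 3) := by
  set S := {u : X3 | bad ν (cc (Function.update x i u)) j i} with hS
  have hSm : MeasurableSet S := by
    have h1 : Measurable fun u : X3 => Function.update x i u := measurable_update x
    exact h1 (meas_bad ν j i)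
  have hν0 : 0 < ν j := by linarith
  have hside : 0 < side (j : ℤ) := side_pos _
  have h1 : ENNReal.ofReal (ν j / 2) * volume S ≤ ENNReal.ofReal (N * side (j : ℤ) ^ 3) := by
    calc ENNReal.ofReal (ν j / 2) * volume S = ∫⁻ u, S.indicator (fun _ => ENNReal.ofReal (ν j / 2)) u := by
          rw [lintegral_indicator_const hSm]
      _ ≤ ∫⁻ u, ∑ k ∈ Finset.univ.erase i,
            (cube (j : ℤ) (cellIdx (j : ℤ) (x k))).indicator (1 : X3 → ℝ≥0∞) u := by
          refine lintegral_mono fun u => ?_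
          by_cases hu : u ∈ S
          · rw [Set.indicator_of_mem hu]
            have h2 : ν j < ((cl (cc (Function.update x i u)) j i).card : ℝ) := hu
            rw [card_cl_update] at h2
            push_cast at h2
            have h3 : ν j / 2 ≤ ((oth x i j u).card : ℝ) := by linarith
            have h4 : ∑ k ∈ Finset.univ.erase i,
                (cube (j : ℤ) (cellIdx (j : ℤ) (x k))).indicator (1 : X3 → ℝ≥0∞) u =
                ((oth x i j u).card : ℝ≥0∞) := by
              rw [Finset.card_eq_sum_ones, Nat.cast_sum]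
              unfold oth
              rw [Finset.sum_filter]
              refine Finset.sum_congr rfl fun k _ => ?_
              by_cases hk : cellIdx (j : ℤ) (x k) = cellIdx (j : ℤ) u
              · rw [if_pos hk, Set.indicator_of_mem]
                · simp
                · exact hk.symm
              · rw [if_neg hk, Set.indicator_of_notMem]
                intro h
                exact hk (Eq.symm h)
            rw [h4]
            calc ENNReal.ofReal (ν j / 2) ≤ ENNReal.ofReal ((oth x i j u).card : ℝ) :=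
                  ENNReal.ofReal_le_ofReal h3
              _ = _ := by rw [ENNReal.ofReal_natCast]
          · rw [Set.indicator_of_notMem hu]
            exact zero_le
      _ = ∑ k ∈ Finset.univ.erase i, volume (cube (j : ℤ) (cellIdx (j : ℤ) (x k))) := by
          rw [lintegral_finsetSum _ (fun k _ => measurable_one.indicator (measurableSet_cube _ _))]
          refine Finset.sum_congr rfl fun k _ => ?_
          rw [lintegral_indicator_one (measurableSet_cube _ _)]
      _ = ∑ k ∈ Finset.univ.erase i, ENNReal.ofReal (side (j : ℤ) ^ 3) := by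
          refine Finset.sum_congr rfl fun k _ => ?_
          rw [volume_cube]
      _ ≤ ∑ k : Fin N, ENNReal.ofReal (side (j : ℤ) ^ 3) :=
          Finset.sum_le_sum_of_subset (Finset.erase_subset _ _)
      _ = ENNReal.ofReal (N * side (j : ℤ) ^ 3) := by
          rw [Finset.sum_const, Finset.card_univ, Fintype.card_fin, nsmul_eq_mul,
            ENNReal.ofReal_mul (by positivity), ENNReal.ofReal_natCast]
  have h5 : ENNReal.ofReal (2 / ν j * N * side (j : ℤ) ^ 3) =
      ENNReal.ofReal (ν j / 2)⁻¹ * ENNReal.ofReal (N * side (j : ℤ) ^ 3) := by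
    rw [← ENNReal.ofReal_mul (by positivity)]
    congr 1
    field_simp
  rw [h5]
  have h6 : volume S = ENNReal.ofReal (ν j / 2)⁻¹ * (ENNReal.ofReal (ν j / 2) * volume S) := by
    rw [← mul_assoc, ← ENNReal.ofReal_mul (by positivity), inv_mul_cancel₀ (by positivity),
      ENNReal.ofReal_one, one_mul]
  rw [h6]
  gcongr

/-- slicing the difference energy -/
theorem slice_tau (i : Fin N) (ψ : (Fin N → X3) → ℂ) (x : Fin N → X3) :
    ∫⁻ u, tau α m i ψ (Function.update x i u) =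
      tQ α m univ (fun u => ψ (Function.update x i u)) := by
  unfold tau tQ
  simp only [Measure.restrict_univ, Function.update_self, Function.update_idem]

/-- mass of the bad set of level `j` -/
theorem bad_mass (hα : 0 < α) (hm : 1 ≤ m) (hψ : Measurable ψ) {β : ℝ} (hβα : β ≤ α)
    (hβ2 : β ≤ 2) (ν : ℕ → ℝ) (i : Fin N) (j : ℕ) (hν : 2 ≤ ν j) (j₀ : ℤ) (n : ℕ)
    (hn : 2 / ν j * N * side (j : ℤ) ^ 3 ≤ side (j₀ + n) ^ 3) :
    ∫⁻ y, {y : Fin N → X3 | bad ν (cc y) j i}.indicator (fun y => ‖ψ y‖ₑ ^ 2) y ≤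
      ENNReal.ofReal (3 * (1 + 12 * K3 α m) * (side j₀ ^ (α - β) * side (j₀ + n) ^ β)) *
          difFormAt α m i ψ
        + ENNReal.ofReal (3 * (4 ^ m * (m : ℝ) ^ 3) * (side (j₀ + n) / side j₀) ^ 3) *
          ∫⁻ y, ‖ψ y‖ₑ ^ 2 := by
  set a := ENNReal.ofReal (3 * (1 + 12 * K3 α m) * (side j₀ ^ (α - β) * side (j₀ + n) ^ β)) with ha
  set b := ENNReal.ofReal (3 * (4 ^ m * (m : ℝ) ^ 3) * (side (j₀ + n) / side j₀) ^ 3) with hb
  have hτ := measurable_tau α m i hψ
  have hψ2 : Measurable fun y : Fin N → X3 => ‖ψ y‖ₑ ^ 2 := hψ.enorm.pow_const 2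
  have hF : Measurable (fun y => {y : Fin N → X3 | bad ν (cc y) j i}.indicator
      (fun y => ‖ψ y‖ₑ ^ 2) y) := hψ2.indicator (meas_bad ν j i)
  have hG : Measurable (fun y : Fin N → X3 => a * tau α m i ψ y + b * ‖ψ y‖ₑ ^ 2) :=
    (hτ.const_mul _).add (hψ2.const_mul _)
  have e1 : a * difFormAt α m i ψ + b * ∫⁻ y, ‖ψ y‖ₑ ^ 2 =
      ∫⁻ y : Fin N → X3, (a * tau α m i ψ y + b * ‖ψ y‖ₑ ^ 2) := by
    rw [lintegral_add_left (hτ.const_mul _), lintegral_const_mul _ hτ,
      lintegral_const_mul _ hψ2, difFormAt_eq]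
  rw [e1, MeasureTheory.volume_pi]
  refine lintegral_le_of_lmarginal_le {i} hF hG ?_
  intro x
  rw [lmarginal_singleton, lmarginal_singleton]
  have hupd : Measurable fun u : X3 => Function.update x i u := measurable_update x
  have hf : Measurable (fun u => ψ (Function.update x i u)) := hψ.comp hupd
  have hob := setLIntegral_sq_small α hα m hm hf hβα hβ2 j₀ n
    {u : X3 | bad ν (cc (Function.update x i u)) j i}
    ((vol_bad ν x i j hν).trans (ENNReal.ofReal_le_ofReal hn))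
  have hSm : MeasurableSet {u : X3 | bad ν (cc (Function.update x i u)) j i} :=
    hupd (meas_bad ν j i)
  have e2 : ∫⁻ u : X3, {y : Fin N → X3 | bad ν (cc y) j i}.indicator (fun y => ‖ψ y‖ₑ ^ 2)
      (Function.update x i u) =
      ∫⁻ u in {u : X3 | bad ν (cc (Function.update x i u)) j i},
        ‖ψ (Function.update x i u)‖ₑ ^ 2 := by
    rw [← lintegral_indicator hSm]
    rfl
  have e3 : ∫⁻ u : X3, (a * tau α m i ψ (Function.update x i u) +
      b * ‖ψ (Function.update x i u)‖ₑ ^ 2) =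
      a * tQ α m univ (fun u => ψ (Function.update x i u)) +
        b * ∫⁻ u : X3, ‖ψ (Function.update x i u)‖ₑ ^ 2 := by
    have hτ' : Measurable (fun u => tau α m i ψ (Function.update x i u)) := hτ.comp hupd
    have hψ' : Measurable (fun u => ‖ψ (Function.update x i u)‖ₑ ^ 2) := hψ2.comp hupd
    rw [lintegral_add_left (hτ'.const_mul _), lintegral_const_mul _ hτ',
      lintegral_const_mul _ hψ', slice_tau i ψ x]
  beta_reduce
  rw [e2, e3]
  exact hob

theorem ind_int (hψ : Measurable ψ) (h2 : ∫⁻ y, ‖ψ y‖ₑ ^ 2 ≠ ∞) (ν : ℕ → ℝ) (j : ℕ) (i : Fin N) :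
    Integrable ({y : Fin N → X3 | bad ν (cc y) j i}.indicator (fun y => ‖ψ y‖ ^ 2)) :=
  (psi_int hψ h2).indicator (meas_bad ν j i)

theorem ofReal_norm_sq (z : ℂ) : ENNReal.ofReal (‖z‖ ^ 2) = ‖z‖ₑ ^ 2 := by
  rw [ENNReal.ofReal_pow (norm_nonneg _), ofReal_norm]

/-- real form -/
theorem bad_real (hα : 0 < α) (hm : 1 ≤ m) (hψ : Measurable ψ) (h2 : ∫⁻ y, ‖ψ y‖ₑ ^ 2 ≠ ∞)
    {β : ℝ} (hβα : β ≤ α)
    (hβ2 : β ≤ 2) (ν : ℕ → ℝ) (i : Fin N) (hd : difFormAt α m i ψ ≠ ∞) (j : ℕ) (hν : 2 ≤ ν j)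
    (j₀ : ℤ) (n : ℕ) (hn : 2 / ν j * N * side (j : ℤ) ^ 3 ≤ side (j₀ + n) ^ 3) :
    ∫ y, {y : Fin N → X3 | bad ν (cc y) j i}.indicator (fun y => ‖ψ y‖ ^ 2) y ≤
      3 * (1 + 12 * K3 α m) * (side j₀ ^ (α - β) * side (j₀ + n) ^ β) *
          (difFormAt α m i ψ).toReal
        + 3 * (4 ^ m * (m : ℝ) ^ 3) * (side (j₀ + n) / side j₀) ^ 3 *
          ∫ y, ‖ψ y‖ ^ 2 := by
  have h := bad_mass hα hm hψ hβα hβ2 ν i j hν j₀ n hn
  have hK := K3_nonneg α m
  have hs0 := side_pos j₀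
  have hs := side_pos (j₀ + n)
  have e1 : ∫⁻ y, ‖ψ y‖ₑ ^ 2 = ENNReal.ofReal (∫ y, ‖ψ y‖ ^ 2) := by
    rw [ofReal_integral_eq_lintegral_ofReal (psi_int hψ h2)
      (Filter.Eventually.of_forall fun y => by positivity)]
    exact lintegral_congr fun y => (ofReal_norm_sq _).symm
  have e2 : ∫⁻ y, {y : Fin N → X3 | bad ν (cc y) j i}.indicator (fun y => ‖ψ y‖ₑ ^ 2) y =
      ENNReal.ofReal
        (∫ y, {y : Fin N → X3 | bad ν (cc y) j i}.indicator (fun y => ‖ψ y‖ ^ 2) y) := by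
    rw [ofReal_integral_eq_lintegral_ofReal (ind_int hψ h2 ν j i)
      (Filter.Eventually.of_forall fun y => Set.indicator_nonneg (fun y _ => by positivity) y)]
    refine lintegral_congr fun y => ?_
    by_cases hy : y ∈ {y : Fin N → X3 | bad ν (cc y) j i}
    · rw [Set.indicator_of_mem hy, Set.indicator_of_mem hy, ofReal_norm_sq]
    · rw [Set.indicator_of_notMem hy, Set.indicator_of_notMem hy, ENNReal.ofReal_zero]
  have e3 : difFormAt α m i ψ = ENNReal.ofReal (difFormAt α m i ψ).toReal :=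
    (ENNReal.ofReal_toReal hd).symm
  rw [e2, e1, e3, ← ENNReal.ofReal_mul (by positivity), ← ENNReal.ofReal_mul (by positivity),
    ← ENNReal.ofReal_add (by positivity) (by
      have : 0 ≤ ∫ y, ‖ψ y‖ ^ 2 := integral_nonneg fun y => by positivity
      positivity)] at h
  have hnn : 0 ≤ 3 * (1 + 12 * K3 α m) * (side j₀ ^ (α - β) * side (j₀ + n) ^ β) *
          (difFormAt α m i ψ).toReal
        + 3 * (4 ^ m * (m : ℝ) ^ 3) * (side (j₀ + n) / side j₀) ^ 3 *
          ∫ y, ‖ψ y‖ ^ 2 := by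
    have : 0 ≤ ∫ y, ‖ψ y‖ ^ 2 := integral_nonneg fun y => by positivity
    positivity
  exact (ENNReal.ofReal_le_ofReal_iff hnn).mp h

theorem bw_integral (hψ : Measurable ψ) (h2 : ∫⁻ y, ‖ψ y‖ₑ ^ 2 ≠ ∞) (ν : ℕ → ℝ) (J : ℕ)
    (i : Fin N) :
    ∫ y, bw ν J i y * ‖ψ y‖ ^ 2 = ∑ j ∈ Finset.range (J + 1), 2 ^ j *
      ∫ y, {y : Fin N → X3 | bad ν (cc y) j i}.indicator (fun y => ‖ψ y‖ ^ 2) y := by
  classical
  have h1 : ∀ y : Fin N → X3, bw ν J i y * ‖ψ y‖ ^ 2 = ∑ j ∈ Finset.range (J + 1), 2 ^ j *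
      {y : Fin N → X3 | bad ν (cc y) j i}.indicator (fun y => ‖ψ y‖ ^ 2) y := by
    intro y
    unfold bw
    rw [Finset.sum_mul]
    refine Finset.sum_congr rfl fun j _ => ?_
    by_cases hy : bad ν (cc y) j i
    · have hy' : y ∈ {y : Fin N → X3 | bad ν (cc y) j i} := hy
      rw [if_pos hy, Set.indicator_of_mem hy']
    · have hy' : y ∉ {y : Fin N → X3 | bad ν (cc y) j i} := hy
      rw [if_neg hy, Set.indicator_of_notMem hy']
      ring
  simp_rw [h1]
  rw [integral_finsetSum _ (fun j _ => (ind_int hψ h2 ν j i).const_mul _)]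
  refine Finset.sum_congr rfl fun j _ => ?_
  rw [integral_const_mul]

/-- choice of the dyadic scale -/
theorem exists_scale {s L : ℝ} (hs : 0 < s) (hL : 0 < L) (hsL : s ≤ L ^ 3) :
    ∃ n : ℕ, s ≤ (L * (1 / 2) ^ n) ^ 3 ∧ L * (1 / 2) ^ n ≤ 2 * s ^ (1 / 3 : ℝ) := by
  have h3 : (s ^ (1 / 3 : ℝ)) ^ 3 = s := by
    rw [← Real.rpow_natCast, ← Real.rpow_mul hs.le]
    norm_num
  have hs3 : 0 < s ^ (1 / 3 : ℝ) := Real.rpow_pos_of_pos hs _
  have hx0 : 0 < s ^ (1 / 3 : ℝ) / L := by positivity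
  have hx1 : s ^ (1 / 3 : ℝ) / L ≤ 1 := by
    rw [div_le_one hL]
    by_contra hcon
    push Not at hcon
    have : L ^ 3 < (s ^ (1 / 3 : ℝ)) ^ 3 := pow_lt_pow_left₀ hcon hL.le (by norm_num)
    rw [h3] at this
    linarith
  obtain ⟨n, hn1, hn2⟩ := exists_nat_pow_near_of_lt_one hx0 hx1
    (by norm_num : (0 : ℝ) < 1 / 2) (by norm_num : (1 / 2 : ℝ) < 1)
  refine ⟨n, ?_, ?_⟩
  · have h4 : s ^ (1 / 3 : ℝ) ≤ L * (1 / 2) ^ n := by
      rw [div_le_iff₀ hL] at hn2
      linarith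
    calc s = (s ^ (1 / 3 : ℝ)) ^ 3 := h3.symm
      _ ≤ (L * (1 / 2) ^ n) ^ 3 := pow_le_pow_left₀ hs3.le h4 3
  · rw [lt_div_iff₀ hL, pow_succ] at hn1
    linarith

theorem exists_p {G : ℝ} (hG : 1 ≤ G) : ∃ p : ℕ, G ≤ 2 ^ p ∧ (2 : ℝ) ^ p ≤ 2 * G := by
  obtain ⟨n, hn1, hn2⟩ := exists_nat_pow_near hG (by norm_num : (1 : ℝ) < 2)
  refine ⟨n + 1, hn2.le, ?_⟩
  rw [pow_succ]
  linarith

/-- exponents -/
theorem side_neg (p n : ℕ) : side (-(p : ℤ) + n) = 2 ^ p * (1 / 2) ^ n := by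
  unfold side
  rw [neg_add, neg_neg, zpow_add₀ (by norm_num), zpow_natCast, zpow_neg, zpow_natCast, one_div,
    inv_pow]

theorem geom_le {r : ℝ} (h0 : 0 ≤ r) (h1 : r < 1) (J : ℕ) :
    ∑ j ∈ Finset.range (J + 1), r ^ j ≤ 1 / (1 - r) := by
  have h := (summable_geometric_of_lt_one h0 h1).sum_le_tsum (Finset.range (J + 1))
    (fun j _ => pow_nonneg h0 j)
  rw [tsum_geometric_of_lt_one h0 h1] at h
  rw [one_div]
  exact h

end

end Pool.Agent.H.MP_d1ae63_mp.Hi
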