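import Pool.Agent.H.MP_d1ae63_mp.LeafDefs
import Pool.Agent.H.MP_d1ae63_mp.HierBad

/-!
# The hierarchical theorem from the leaf lemma
-/

set_option autoImplicit false

open MeasureTheory Set
open scoped ENNReal Real

namespace Pool.Agent.H.MP_d1ae63_mp.Hi

noncomputable section

variable {N : ℕ} {α : ℝ} {m : ℕ} {ψ : (Fin N → X3) → ℂ}

/-- the exponent `min α 2` -/
def bb (α : ℝ) : ℝ := min α 2

/-- the ratio of the geometric series -/
def rr (α : ℝ) : ℝ := (2 : ℝ) ^ (1 - (α + 2) * bb α / 3)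

theorem bb_pos (hα : 1 < α) : 0 < bb α := by
  unfold bb
  exact lt_min (by linarith) (by norm_num)

theorem bb_le (α : ℝ) : bb α ≤ α := min_le_left _ _

theorem bb_le2 (α : ℝ) : bb α ≤ 2 := min_le_right _ _

theorem rr_nonneg (α : ℝ) : 0 ≤ rr α := by unfold rr; positivity

theorem rr_lt_one (hα : 1 < α) : rr α < 1 := by
  unfold rr
  refine Real.rpow_lt_one_of_one_lt_of_neg (by norm_num) ?_
  have h1 : 3 < (α + 2) * bb α := by
    unfold bb
    rcases le_total α 2 with h | h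
    · rw [min_eq_left h]
      nlinarith
    · rw [min_eq_right h]
      nlinarith
  linarith

/-- the constant of the bad part -/
def Kx (α : ℝ) (m : ℕ) : ℝ :=
  4 * (3 * (1 + 12 * K3 α m)) * 2 ^ (α - bb α) * (1 / (1 - rr α)) +
    16 * (3 * (4 ^ m * (m : ℝ) ^ 3))

theorem Kx_nonneg (hα : 1 < α) : 0 ≤ Kx α m := by
  unfold Kx
  have h1 := K3_nonneg α m
  have h2 := rr_lt_one hα
  have h3 : 0 < 1 - rr α := by linarith
  positivity

/-- the numbers of one level -/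
theorem level_num (hα : 1 < α) {K5 K6 L s0 D A : ℝ} (hK5 : 0 ≤ K5) (hK6 : 0 ≤ K6) (hL : 0 < L)
    (hs0 : 0 < s0) (hD : 0 ≤ D) (hA : 0 ≤ A) (j n : ℕ) {s : ℝ}
    (hs : s = s0 * (2 : ℝ) ^ (-((j : ℝ) * (α + 2))))
    (hn : L * (1 / 2) ^ n ≤ 2 * s ^ (1 / 3 : ℝ)) :
    2 ^ j * (K5 * (L ^ (α - bb α) * (L * (1 / 2) ^ n) ^ bb α) * D +
      K6 * ((L * (1 / 2) ^ n) / L) ^ 3 * A) ≤
    4 * K5 * (L ^ (α - bb α) * s0 ^ (bb α / 3)) * D * rr α ^ j +
      8 * K6 * (s0 / L ^ 3) * A * (1 / 2) ^ j := by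
  have hspos : 0 < s := by rw [hs]; positivity
  have hb := bb_pos hα
  have hLn : 0 < L * (1 / 2 : ℝ) ^ n := by positivity
  -- first part
  have h1 : (L * (1 / 2) ^ n) ^ bb α ≤ 4 * s ^ (bb α / 3) := by
    calc (L * (1 / 2) ^ n) ^ bb α ≤ (2 * s ^ (1 / 3 : ℝ)) ^ bb α :=
          Real.rpow_le_rpow hLn.le hn hb.le
      _ = 2 ^ bb α * s ^ (bb α / 3) := by
          rw [Real.mul_rpow (by norm_num) (by positivity), ← Real.rpow_mul hspos.le]
          congr 2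
          ring
      _ ≤ 4 * s ^ (bb α / 3) := by
          have : (2 : ℝ) ^ bb α ≤ 4 := by
            calc (2 : ℝ) ^ bb α ≤ 2 ^ (2 : ℝ) :=
                  Real.rpow_le_rpow_of_exponent_le (by norm_num) (bb_le2 α)
              _ = 4 := by norm_num
          gcongr
  have h2 : 2 ^ j * s ^ (bb α / 3) = s0 ^ (bb α / 3) * rr α ^ j := by
    rw [hs, Real.mul_rpow hs0.le (by positivity), ← Real.rpow_mul (by norm_num)]
    unfold rr
    rw [← Real.rpow_natCast 2 j, ← Real.rpow_natCast (_ ^ _) j, ← Real.rpow_mul (by norm_num)]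
    rw [mul_left_comm, ← Real.rpow_add (by norm_num)]
    congr 2
    ring
  -- second part
  have h3 : ((L * (1 / 2) ^ n) / L) ^ 3 ≤ 8 * (s / L ^ 3) := by
    have hs3 : (s ^ (1 / 3 : ℝ)) ^ 3 = s := by
      rw [← Real.rpow_natCast, ← Real.rpow_mul hspos.le]
      norm_num
    calc ((L * (1 / 2) ^ n) / L) ^ 3 ≤ ((2 * s ^ (1 / 3 : ℝ)) / L) ^ 3 := by
          gcongr
      _ = 8 * ((s ^ (1 / 3 : ℝ)) ^ 3 / L ^ 3) := by
          ring
      _ = 8 * (s / L ^ 3) := by rw [hs3]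
  have h4 : 2 ^ j * s ≤ s0 * (1 / 2) ^ j := by
    have h5 : (2 : ℝ) ^ (-((j : ℝ) * (α + 2))) ≤ (1 / 4) ^ j := by
      have h6 : (1 / 4 : ℝ) ^ j = (2 : ℝ) ^ (-((j : ℝ) * 2)) := by
        rw [Real.rpow_neg (by norm_num), mul_comm, Real.rpow_mul (by norm_num), one_div, inv_pow,
          Real.rpow_natCast]
        norm_num
      rw [h6]
      refine Real.rpow_le_rpow_of_exponent_le (by norm_num) ?_
      have : (0 : ℝ) ≤ j := Nat.cast_nonneg j
      nlinarith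
    calc 2 ^ j * s = s0 * (2 ^ j * (2 : ℝ) ^ (-((j : ℝ) * (α + 2)))) := by rw [hs]; ring
      _ ≤ s0 * (2 ^ j * (1 / 4) ^ j) := by gcongr
      _ = s0 * (1 / 2) ^ j := by
          rw [← mul_pow]
          norm_num
  calc 2 ^ j * (K5 * (L ^ (α - bb α) * (L * (1 / 2) ^ n) ^ bb α) * D +
      K6 * ((L * (1 / 2) ^ n) / L) ^ 3 * A)
      ≤ 2 ^ j * (K5 * (L ^ (α - bb α) * (4 * s ^ (bb α / 3))) * D + K6 * (8 * (s / L ^ 3)) * A) := by
        gcongr
    _ = 4 * K5 * L ^ (α - bb α) * D * (2 ^ j * s ^ (bb α / 3)) +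
        8 * K6 / L ^ 3 * A * (2 ^ j * s) := by ring
    _ ≤ 4 * K5 * L ^ (α - bb α) * D * (s0 ^ (bb α / 3) * rr α ^ j) +
        8 * K6 / L ^ 3 * A * (s0 * (1 / 2) ^ j) := by
        rw [h2]
        gcongr
    _ = _ := by ring

/-- bound of the bad part -/
theorem bw_bound (hα : 1 < α) (hm : 1 ≤ m) (hψ : Measurable ψ) (h2 : ∫⁻ y, ‖ψ y‖ₑ ^ 2 ≠ ∞)
    {c0 g c : ℝ} (hc0 : 0 < c0) (hg : 0 < g) (hg1 : g ≤ 1) (hgc : g ≤ c0 / 2) (hc : 0 < c)
    (hw : 2 * c / c0 ≤ 1) (hN : (N : ℝ) ≤ c * g ^ (-((α + 3) / α))) {ν : ℕ → ℝ}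
    (hν : ∀ l : ℕ, ν l = c0 * g⁻¹ * (2 : ℝ) ^ ((l : ℝ) * (α - 1))) (J : ℕ) (i : Fin N)
    (hd : difFormAt α m i ψ ≠ ∞) :
    g * ∫ y, bw ν J i y * ‖ψ y‖ ^ 2 ≤
      Kx α m * (2 * c / c0) ^ (bb α / 3) * (difFormAt α m i ψ).toReal +
        Kx α m * (2 * c / c0) * (g * ∫ y, ‖ψ y‖ ^ 2) := by
  have hα0 : 0 < α := by linarith
  have hb := bb_pos hα
  set w := 2 * c / c0 with hwdef
  have hw0 : 0 < w := by positivity
  set G := g ^ (-(1 / α)) with hG
  have hGpos : 0 < G := by positivity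
  have hG1 : 1 ≤ G := by
    rw [hG]
    refine Real.one_le_rpow_of_pos_of_le_one_of_nonpos hg hg1 ?_
    have : 0 < 1 / α := by positivity
    linarith
  have hGα : g * G ^ α = 1 := by
    rw [hG, ← Real.rpow_mul hg.le]
    have : -(1 / α) * α = -1 := by field_simp
    rw [this, Real.rpow_neg hg.le, Real.rpow_one, mul_inv_cancel₀ hg.ne']
  obtain ⟨p, hp1, hp2⟩ := exists_p hG1
  set L : ℝ := 2 ^ p with hL
  have hLpos : 0 < L := by positivity
  have hNpos : 0 < (N : ℝ) := by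
    have : 0 < N := lt_of_le_of_lt (Nat.zero_le _) i.2
    exact_mod_cast this
  set s0 := 2 * N * g / c0 with hs0
  have hs0pos : 0 < s0 := by positivity
  have hs0w : s0 ≤ w * G ^ 3 := by
    have h3 : g * g ^ (-((α + 3) / α)) = G ^ 3 := by
      rw [hG, ← Real.rpow_natCast, ← Real.rpow_mul hg.le]
      nth_rewrite 1 [← Real.rpow_one g]
      rw [← Real.rpow_add hg]
      congr 1
      push_cast
      field_simp
      ring
    calc s0 = 2 / c0 * g * N := by rw [hs0]; ring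
      _ ≤ 2 / c0 * g * (c * g ^ (-((α + 3) / α))) := by gcongr
      _ = w * (g * g ^ (-((α + 3) / α))) := by rw [hwdef]; ring
      _ = w * G ^ 3 := by rw [h3]
  have hG3 : G ^ 3 ≤ L ^ 3 := pow_le_pow_left₀ hGpos.le hp1 3
  have hs0L : s0 ≤ L ^ 3 := by
    calc s0 ≤ w * G ^ 3 := hs0w
      _ ≤ 1 * G ^ 3 := by gcongr
      _ = G ^ 3 := one_mul _
      _ ≤ L ^ 3 := hG3
  set D := (difFormAt α m i ψ).toReal with hDdef
  set A := ∫ y, ‖ψ y‖ ^ 2 with hAdef
  have hD0 : 0 ≤ D := ENNReal.toReal_nonneg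
  have hA0 : 0 ≤ A := integral_nonneg fun y => by positivity
  have hK3 := K3_nonneg α m
  set K5 := 3 * (1 + 12 * K3 α m) with hK5
  set K6 := 3 * (4 ^ m * (m : ℝ) ^ 3) with hK6
  have hK5p : 0 ≤ K5 := by positivity
  have hK6p : 0 ≤ K6 := by positivity
  have hr0 := rr_nonneg α
  have hr1 := rr_lt_one hα
  have hr1' : 0 < 1 - rr α := by linarith
  -- every level
  have hlev : ∀ j : ℕ, 2 ^ j *
      ∫ y, {y : Fin N → X3 | bad ν (cc y) j i}.indicator (fun y => ‖ψ y‖ ^ 2) y ≤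
      4 * K5 * (L ^ (α - bb α) * s0 ^ (bb α / 3)) * D * rr α ^ j +
      8 * K6 * (s0 / L ^ 3) * A * (1 / 2) ^ j := by
    intro j
    have hpow1 : (1 : ℝ) ≤ (2 : ℝ) ^ ((j : ℝ) * (α - 1)) := by
      refine Real.one_le_rpow (by norm_num) ?_
      have : 0 ≤ α - 1 := by linarith
      positivity
    have hνj : 2 ≤ ν j := by
      rw [hν]
      have h3 : 2 ≤ c0 * g⁻¹ := by
        rw [← div_eq_mul_inv, le_div_iff₀ hg]
        linarith
      nlinarith
    have hs : 2 / ν j * N * side (j : ℤ) ^ 3 = s0 * (2 : ℝ) ^ (-((j : ℝ) * (α + 2))) := by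
      have h4 : side (j : ℤ) ^ 3 = (2 : ℝ) ^ (-((j : ℝ) * 3)) := by
        unfold side
        rw [zpow_neg, zpow_natCast, inv_pow, ← pow_mul, Real.rpow_neg (by norm_num)]
        congr 1
        rw [← Real.rpow_natCast]
        push_cast
        ring_nf
      have h5 : (2 : ℝ) ^ (-((j : ℝ) * (α + 2))) =
          ((2 : ℝ) ^ ((j : ℝ) * (α - 1)))⁻¹ * (2 : ℝ) ^ (-((j : ℝ) * 3)) := by
        rw [← Real.rpow_neg (by norm_num), ← Real.rpow_add (by norm_num)]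
        congr 1
        ring
      rw [h4, h5, hν, hs0]
      have h6 : (2 : ℝ) ^ ((j : ℝ) * (α - 1)) ≠ 0 := by positivity
      field_simp
    have hsle : 2 / ν j * N * side (j : ℤ) ^ 3 ≤ L ^ 3 := by
      rw [hs]
      refine le_trans ?_ hs0L
      refine mul_le_of_le_one_right hs0pos.le ?_
      refine Real.rpow_le_one_of_one_le_of_nonpos (by norm_num) ?_
      have : 0 ≤ (j : ℝ) * (α + 2) := by positivity
      linarith
    have hsp : 0 < 2 / ν j * N * side (j : ℤ) ^ 3 := by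
      rw [hs]; positivity
    obtain ⟨n, hn1, hn2⟩ := exists_scale hsp hLpos hsle
    have hsn : side (-(p : ℤ) + n) = L * (1 / 2) ^ n := side_neg p n
    have hs00 : side (-(p : ℤ)) = L := by
      unfold side
      rw [neg_neg, zpow_natCast]
    have hbr := bad_real hα0 hm hψ h2 (bb_le α) (bb_le2 α) ν i hd j hνj (-(p : ℤ)) n
      (by rw [hsn]; exact hn1)
    rw [hsn, hs00] at hbr
    refine le_trans (mul_le_mul_of_nonneg_left hbr (by positivity)) ?_
    exact level_num hα hK5p hK6p hLpos hs0pos hD0 hA0 j n hs hn2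
  -- summation
  rw [bw_integral hψ h2]
  have hsum : ∑ j ∈ Finset.range (J + 1), 2 ^ j *
      ∫ y, {y : Fin N → X3 | bad ν (cc y) j i}.indicator (fun y => ‖ψ y‖ ^ 2) y ≤
      4 * K5 * (L ^ (α - bb α) * s0 ^ (bb α / 3)) * D * (1 / (1 - rr α)) +
      8 * K6 * (s0 / L ^ 3) * A * 2 := by
    refine (Finset.sum_le_sum fun j _ => hlev j).trans ?_
    rw [Finset.sum_add_distrib, ← Finset.mul_sum, ← Finset.mul_sum]
    have g1 := geom_le hr0 hr1 J
    have g2 := geom_le (r := 1 / 2) (by norm_num) (by norm_num) J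
    have g3 : (1 : ℝ) / (1 - 1 / 2) = 2 := by norm_num
    rw [g3] at g2
    gcongr
  have hx1 : g * (L ^ (α - bb α) * s0 ^ (bb α / 3)) ≤ 2 ^ (α - bb α) * w ^ (bb α / 3) := by
    have hab : 0 ≤ α - bb α := by linarith [bb_le α]
    calc g * (L ^ (α - bb α) * s0 ^ (bb α / 3))
        ≤ g * ((2 * G) ^ (α - bb α) * (w * G ^ 3) ^ (bb α / 3)) := by
          gcongr
      _ = 2 ^ (α - bb α) * w ^ (bb α / 3) * (g * (G ^ (α - bb α) * (G ^ 3) ^ (bb α / 3))) := by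
          rw [Real.mul_rpow (by norm_num) hGpos.le, Real.mul_rpow hw0.le (by positivity)]
          ring
      _ = 2 ^ (α - bb α) * w ^ (bb α / 3) * (g * G ^ α) := by
          congr 2
          rw [← Real.rpow_natCast, ← Real.rpow_mul hGpos.le, ← Real.rpow_add hGpos]
          congr 1
          push_cast
          ring
      _ = 2 ^ (α - bb α) * w ^ (bb α / 3) := by rw [hGα, mul_one]
  have hx2 : s0 / L ^ 3 ≤ w := by
    rw [div_le_iff₀ (by positivity)]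
    calc s0 ≤ w * G ^ 3 := hs0w
      _ ≤ w * L ^ 3 := by gcongr
  have hwp : 0 ≤ w ^ (bb α / 3) := by positivity
  calc g * ∑ j ∈ Finset.range (J + 1), 2 ^ j *
      ∫ y, {y : Fin N → X3 | bad ν (cc y) j i}.indicator (fun y => ‖ψ y‖ ^ 2) y
      ≤ g * (4 * K5 * (L ^ (α - bb α) * s0 ^ (bb α / 3)) * D * (1 / (1 - rr α)) +
      8 * K6 * (s0 / L ^ 3) * A * 2) := by gcongr
    _ = 4 * K5 * (g * (L ^ (α - bb α) * s0 ^ (bb α / 3))) * (1 / (1 - rr α)) * D +
        16 * K6 * (s0 / L ^ 3) * (g * A) := by ring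
    _ ≤ 4 * K5 * (2 ^ (α - bb α) * w ^ (bb α / 3)) * (1 / (1 - rr α)) * D +
        16 * K6 * w * (g * A) := by
        gcongr
    _ = (4 * K5 * 2 ^ (α - bb α) * (1 / (1 - rr α))) * w ^ (bb α / 3) * D +
        (16 * K6) * w * (g * A) := by ring
    _ ≤ Kx α m * w ^ (bb α / 3) * D + Kx α m * w * (g * A) := by
        have hk1 : 4 * K5 * 2 ^ (α - bb α) * (1 / (1 - rr α)) ≤ Kx α m := by
          unfold Kx
          rw [← hK5, ← hK6]
          have : 0 ≤ 16 * K6 := by positivity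
          linarith
        have hk2 : 16 * K6 ≤ Kx α m := by
          unfold Kx
          rw [← hK5, ← hK6]
          have : 0 ≤ 4 * K5 * 2 ^ (α - bb α) * (1 / (1 - rr α)) := by positivity
          linarith
        gcongr

end

end Pool.Agent.H.MP_d1ae63_mp.Hi

namespace Pool.Agent.H.MP_d1ae63_mp

open Hi in
theorem hier_of_leaf (α : ℝ) (hα : 1 < α) (m : ℕ) (hm : 1 ≤ m) (h : LeafStatement α m) :
    HierarchicalStatement α m := by
  obtain ⟨C1, hC1, hleaf⟩ := h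
  have hKx : 0 ≤ Kx α m := Kx_nonneg hα
  have hb := bb_pos hα
  set c0 : ℝ := min 1 (1 / (4 * C1)) with hc0def
  have hc0 : 0 < c0 := lt_min one_pos (by positivity)
  have hc01 : c0 ≤ 1 := min_le_left _ _
  have hc02 : 2 * C1 * c0 ≤ 1 / 2 := by
    have : c0 ≤ 1 / (4 * C1) := min_le_right _ _
    calc 2 * C1 * c0 ≤ 2 * C1 * (1 / (4 * C1)) := by gcongr
      _ = 1 / 2 := by field_simp; norm_num
  set q : ℝ := 1 / (2 * (5 / 4 * C1 + 1 / 2) * (Kx α m + 1)) with hq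
  have hqpos : 0 < q := by positivity
  set w : ℝ := min 1 (q ^ (3 / bb α)) with hwdef
  have hw0 : 0 < w := lt_min one_pos (by positivity)
  have hw1 : w ≤ 1 := min_le_left _ _
  have hwq : w ^ (bb α / 3) ≤ q := by
    calc w ^ (bb α / 3) ≤ (q ^ (3 / bb α)) ^ (bb α / 3) := by
          refine Real.rpow_le_rpow hw0.le (min_le_right _ _) (by positivity)
      _ = q := by
          rw [← Real.rpow_mul hqpos.le]
          have : 3 / bb α * (bb α / 3) = 1 := by field_simp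
          rw [this, Real.rpow_one]
  set C : ℝ := 5 / 4 * C1 + (5 / 4 * C1 + 1 / 2) * Kx α m with hC
  refine ⟨min 1 (c0 / 2), c0 * w / 2, C, lt_min one_pos (by positivity), by positivity,
    by positivity, ?_⟩
  intro g N hg hgg hN J e he ψ hψ h2 hd
  have hg1 : g ≤ 1 := hgg.trans (min_le_left _ _)
  have hgc : g ≤ c0 / 2 := hgg.trans (min_le_right _ _)
  have hwc : 2 * (c0 * w / 2) / c0 = w := by field_simp
  set ν : ℕ → ℝ := fun l => c0 * g⁻¹ * (2 : ℝ) ^ ((l : ℝ) * (α - 1)) with hνdef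
  have hν : ∀ l : ℕ, ν l = c0 * g⁻¹ * (2 : ℝ) ^ ((l : ℝ) * (α - 1)) := fun l => rfl
  have hνm : Monotone ν := by
    intro a b hab
    rw [hν, hν]
    have h1 : (a : ℝ) ≤ b := by exact_mod_cast hab
    have h2 : (2 : ℝ) ^ ((a : ℝ) * (α - 1)) ≤ (2 : ℝ) ^ ((b : ℝ) * (α - 1)) := by
      refine Real.rpow_le_rpow_of_exponent_le (by norm_num) ?_
      have : 0 ≤ α - 1 := by linarith
      gcongr
    gcongr
  have hmain := leaf_sum hC1 hleaf hc0 hg J e he hψ h2 hd hν hνm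
  have hbw : ∀ i, g * ∫ y, bw ν J i y * ‖ψ y‖ ^ 2 ≤
      Kx α m * w ^ (bb α / 3) * (difFormAt α m i ψ).toReal +
        Kx α m * w * (g * ∫ y, ‖ψ y‖ ^ 2) := by
    intro i
    have := bw_bound hα hm hψ h2 hc0 hg hg1 hgc (c := c0 * w / 2) (by positivity)
      (by rw [hwc]; exact hw1) hN hν J i (hd i)
    rw [hwc] at this
    exact this
  have hbs : g * ∑ i, ∫ y, bw ν J i y * ‖ψ y‖ ^ 2 ≤
      Kx α m * w ^ (bb α / 3) * ∑ i, (difFormAt α m i ψ).toReal +
        Kx α m * w * (g * N * ∫ y, ‖ψ y‖ ^ 2) := by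
    rw [Finset.mul_sum]
    refine (Finset.sum_le_sum fun i _ => hbw i).trans (le_of_eq ?_)
    rw [Finset.sum_add_distrib, ← Finset.mul_sum, Finset.sum_const, Finset.card_univ,
      Fintype.card_fin, nsmul_eq_mul]
    ring
  set S := ∑ i, (difFormAt α m i ψ).toReal with hS
  set A := ∫ y, ‖ψ y‖ ^ 2 with hA
  have hS0 : 0 ≤ S := Finset.sum_nonneg fun i _ => ENNReal.toReal_nonneg
  have hA0 : 0 ≤ A := integral_nonneg fun y => by positivity
  have hNA : 0 ≤ g * N * A := by positivity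
  have hk : (5 / 4 * C1 + 1 / 2) * (Kx α m * w ^ (bb α / 3)) ≤ 1 / 2 := by
    have h1 : Kx α m * w ^ (bb α / 3) ≤ (Kx α m + 1) * q := by
      have : 0 ≤ w ^ (bb α / 3) := by positivity
      calc Kx α m * w ^ (bb α / 3) ≤ (Kx α m + 1) * w ^ (bb α / 3) := by gcongr; linarith
        _ ≤ (Kx α m + 1) * q := by gcongr
    calc (5 / 4 * C1 + 1 / 2) * (Kx α m * w ^ (bb α / 3))
        ≤ (5 / 4 * C1 + 1 / 2) * ((Kx α m + 1) * q) := by gcongr
      _ = 1 / 2 := by rw [hq]; field_simp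
  have h3 : (5 / 4 * C1 + 1 / 2) * (g * ∑ i, ∫ y, bw ν J i y * ‖ψ y‖ ^ 2) ≤
      1 / 2 * S + (5 / 4 * C1 + 1 / 2) * Kx α m * (g * N * A) := by
    calc (5 / 4 * C1 + 1 / 2) * (g * ∑ i, ∫ y, bw ν J i y * ‖ψ y‖ ^ 2)
        ≤ (5 / 4 * C1 + 1 / 2) * (Kx α m * w ^ (bb α / 3) * S + Kx α m * w * (g * N * A)) := by
          gcongr
      _ = (5 / 4 * C1 + 1 / 2) * (Kx α m * w ^ (bb α / 3)) * S +
          (5 / 4 * C1 + 1 / 2) * Kx α m * (w * (g * N * A)) := by ring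
      _ ≤ 1 / 2 * S + (5 / 4 * C1 + 1 / 2) * Kx α m * (1 * (g * N * A)) := by
          gcongr
      _ = _ := by ring
  have h4 : 2 * C1 * c0 * S ≤ 1 / 2 * S := by gcongr
  have h5 : C * g * N * A = 5 / 4 * C1 * g * N * A +
      (5 / 4 * C1 + 1 / 2) * Kx α m * (g * N * A) := by rw [hC]; ring
  rw [h5]
  linarith

end Pool.Agent.H.MP_d1ae63_mp
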