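import Mathlib

/-!
# Stopping-time decomposition: finite combinatorics
-/

set_option autoImplicit false

open Finset

namespace Pool.Agent.H.MP_d1ae63_mp.Hi

noncomputable section

open Classical in
/-- class of `i` at level `j` -/
def cl {N : ℕ} {ι : Type*} (c : ℕ → Fin N → ι) (j : ℕ) (i : Fin N) : Finset (Fin N) :=
  univ.filter fun k => c j k = c j i

/-- too many particles in the cell of `i` at level `j` -/
def bad {N : ℕ} {ι : Type*} (ν : ℕ → ℝ) (c : ℕ → Fin N → ι) (j : ℕ) (i : Fin N) : Prop :=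
  ν j < ((cl c j i).card : ℝ)

/-- `l` is the first good level of `i` -/
def fg {N : ℕ} {ι : Type*} (ν : ℕ → ℝ) (c : ℕ → Fin N → ι) (l : ℕ) (i : Fin N) : Prop :=
  ¬ bad ν c l i ∧ (l = 0 ∨ bad ν c (l - 1) i)

/-- `I` is a leaf of level `l` -/
def PP {N : ℕ} {ι : Type*} (ν : ℕ → ℝ) (c : ℕ → Fin N → ι) (l : ℕ) (I : Finset (Fin N)) : Prop :=
  I.Nonempty ∧ ∀ i ∈ I, I = cl c l i ∧ fg ν c l i

section

variable {N : ℕ} {ι : Type*} {ν : ℕ → ℝ} {c : ℕ → Fin N → ι}

theorem mem_cl {j : ℕ} {i k : Fin N} : k ∈ cl c j i ↔ c j k = c j i := by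
  simp [cl]

theorem cl_congr {j : ℕ} {i k : Fin N} (h : c j i = c j k) : cl c j i = cl c j k := by
  ext x
  rw [mem_cl, mem_cl, h]

theorem bad_congr {j : ℕ} {i k : Fin N} (h : c j i = c j k) : bad ν c j i ↔ bad ν c j k := by
  unfold bad
  rw [cl_congr h]

variable (hc : ∀ j i k, c (j + 1) i = c (j + 1) k → c j i = c j k) (hν : Monotone ν)

include hc in
theorem c_le {j j' : ℕ} (hj : j' ≤ j) {i k : Fin N} (h : c j i = c j k) : c j' i = c j' k := by
  induction j, hj using Nat.le_induction with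
  | base => exact h
  | succ n _ ih => exact ih (hc n i k h)

include hc hν in
theorem bad_anti {j j' : ℕ} (hj : j' ≤ j) {i : Fin N} (h : bad ν c j i) : bad ν c j' i := by
  unfold bad at *
  have h1 : cl c j i ⊆ cl c j' i := by
    intro k hk
    rw [mem_cl] at *
    exact c_le hc hj hk
  have h2 : ((cl c j i).card : ℝ) ≤ (cl c j' i).card := by exact_mod_cast card_le_card h1
  exact (hν hj).trans_lt (h.trans_le h2)

include hc in
theorem fg_congr {j : ℕ} {i k : Fin N} (h : c j i = c j k) : fg ν c j i ↔ fg ν c j k := by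
  unfold fg
  rw [bad_congr h, bad_congr (c_le hc (Nat.sub_le j 1) h)]

open Classical in
include hc hν in
theorem sum_fg (j : ℕ) (i : Fin N) :
    ∑ l ∈ range (j + 1), (if fg ν c l i then (1 : ℝ) else 0) =
      if bad ν c j i then 0 else 1 := by
  induction j with
  | zero =>
    simp only [zero_add, range_one, sum_singleton, fg, true_or, and_true]
    by_cases h : bad ν c 0 i <;> simp [h]
  | succ j ih =>
    rw [sum_range_succ, ih]
    by_cases h : bad ν c j i
    · by_cases h' : bad ν c (j + 1) i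
      · simp [h, h', fg]
      · simp [h, h', fg]
    · have h' : ¬ bad ν c (j + 1) i := fun hb => h (bad_anti hc hν (Nat.le_succ j) hb)
      simp [h, h', fg]

open Classical in
include hc hν in
theorem sum_fg_le_one (j : ℕ) (i : Fin N) :
    ∑ l ∈ range (j + 1), (if fg ν c l i then (1 : ℝ) else 0) ≤ 1 := by
  rw [sum_fg hc hν]
  split_ifs <;> norm_num

open Classical in
include hc hν in
theorem sum_pow_fg (J : ℕ) (i : Fin N) :
    ∑ l ∈ range (J + 1), (if fg ν c l i then (2 : ℝ) ^ l else 0) ≤
      1 + ∑ j ∈ range (J + 1), (if bad ν c j i then (2 : ℝ) ^ j else 0) := by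
  induction J with
  | zero =>
    simp only [zero_add, range_one, sum_singleton, pow_zero]
    split_ifs <;> norm_num
  | succ J ih =>
    rw [sum_range_succ, sum_range_succ (fun j => if bad ν c j i then (2 : ℝ) ^ j else 0)]
    by_cases h : bad ν c J i
    · have hall : ∀ j ∈ range (J + 1), bad ν c j i := fun j hj =>
        bad_anti hc hν (Nat.lt_succ_iff.mp (mem_range.mp hj)) h
      have h1 : ∑ l ∈ range (J + 1), (if fg ν c l i then (2 : ℝ) ^ l else 0) = 0 :=
        sum_eq_zero fun l hl => by rw [if_neg (fun hf => hf.1 (hall l hl))]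
      have h2 : ∑ j ∈ range (J + 1), (if bad ν c j i then (2 : ℝ) ^ j else 0) =
          2 ^ (J + 1) - 1 := by
        rw [sum_congr rfl (fun j hj => if_pos (hall j hj)), geom_sum_eq (by norm_num)]
        norm_num
      rw [h1, h2]
      have h3 : (0 : ℝ) ≤ 2 ^ (J + 1) := by positivity
      split_ifs <;> linarith
    · have h1 : ¬ fg ν c (J + 1) i := fun hf => by
        rcases hf.2 with h2 | h2
        · omega
        · exact h h2
      rw [if_neg h1]
      have h3 : (0 : ℝ) ≤ 2 ^ (J + 1) := by positivity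
      split_ifs <;> linarith

include hc in
theorem PP_cl {l : ℕ} {i : Fin N} (h : fg ν c l i) : PP ν c l (cl c l i) := by
  refine ⟨⟨i, mem_cl.mpr rfl⟩, fun k hk => ?_⟩
  rw [mem_cl] at hk
  exact ⟨cl_congr hk.symm, (fg_congr hc hk).mpr h⟩

open Classical in
include hc in
theorem sum_PP (l : ℕ) (i : Fin N) :
    ∑ I : Finset (Fin N), (if PP ν c l I ∧ i ∈ I then (1 : ℝ) else 0) =
      if fg ν c l i then 1 else 0 := by
  by_cases h : fg ν c l i
  · rw [sum_eq_single (cl c l i)]
    · rw [if_pos ⟨PP_cl hc h, mem_cl.mpr rfl⟩, if_pos h]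
    · intro I _ hI
      rw [if_neg]
      rintro ⟨h1, h2⟩
      exact hI (h1.2 i h2).1
    · simp
  · rw [if_neg h]
    refine sum_eq_zero fun I _ => ?_
    rw [if_neg]
    rintro ⟨h1, h2⟩
    exact h (h1.2 i h2).2

open Classical in
include hc in
/-- summing one-particle quantities over the leaves -/
theorem sum_leaf_one (l : ℕ) (t : Fin N → ℝ) :
    ∑ I : Finset (Fin N), (if PP ν c l I then ∑ i ∈ I, t i else 0) =
      ∑ i, (if fg ν c l i then t i else 0) := by
  have h1 : ∀ I : Finset (Fin N), (if PP ν c l I then ∑ i ∈ I, t i else 0) =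
      ∑ i, t i * (if PP ν c l I ∧ i ∈ I then (1 : ℝ) else 0) := by
    intro I
    by_cases h : PP ν c l I
    · simp only [h, if_true, true_and, mul_ite, mul_one, mul_zero]
      rw [sum_ite_mem, univ_inter]
    · simp [h]
  simp_rw [h1]
  rw [sum_comm]
  refine sum_congr rfl fun i _ => ?_
  rw [← mul_sum, sum_PP hc]
  split_ifs <;> simp

open Classical in
/-- leaf energy in terms of cell indices -/
def leafC (c : ℕ → Fin N → ι) (e : Fin N → ℝ) (l J : ℕ) (I : Finset (Fin N)) : ℝ :=
  ∑ j ∈ Icc l J, (2 : ℝ) ^ j * ((1 / 2) * ∑ p ∈ I.offDiag,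
    (if c j p.1 = c j p.2 then e p.1 * e p.2 else 0))

open Classical in
/-- good part of the energy -/
def goodC (ν : ℕ → ℝ) (c : ℕ → Fin N → ι) (e : Fin N → ℝ) (J : ℕ) : ℝ :=
  ∑ j ∈ range (J + 1), (2 : ℝ) ^ j * ((1 / 2) * ∑ p ∈ (univ : Finset (Fin N)).offDiag,
    (if c j p.1 = c j p.2 then (e p.1 * e p.2) * (if bad ν c j p.1 then 0 else 1) else 0))

open Classical in
include hc hν in
theorem sum_leafC (e : Fin N → ℝ) (J : ℕ) :
    ∑ l ∈ range (J + 1), ∑ I : Finset (Fin N), (if PP ν c l I then leafC c e l J I else 0) =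
      goodC ν c e J := by
  -- step 1: rewrite for fixed l
  have h1 : ∀ l, ∑ I : Finset (Fin N), (if PP ν c l I then leafC c e l J I else 0) =
      ∑ j ∈ Icc l J, (2 : ℝ) ^ j * ((1 / 2) * ∑ p ∈ (univ : Finset (Fin N)).offDiag,
        (if c j p.1 = c j p.2 then (e p.1 * e p.2) * (if fg ν c l p.1 then 1 else 0) else 0)) := by
    intro l
    have h2 : ∀ I : Finset (Fin N), (if PP ν c l I then leafC c e l J I else 0) =
        ∑ j ∈ Icc l J, (2 : ℝ) ^ j * ((1 / 2) * ∑ p ∈ (univ : Finset (Fin N)).offDiag,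
        (if c j p.1 = c j p.2 then (e p.1 * e p.2) *
          (if PP ν c l I ∧ p.1 ∈ I then (1 : ℝ) else 0) else 0)) := by
      intro I
      by_cases h : PP ν c l I
      · rw [if_pos h]
        unfold leafC
        refine sum_congr rfl fun j hj => ?_
        congr 2
        have hlj : l ≤ j := (mem_Icc.mp hj).1
        have h3 : I.offDiag = (univ : Finset (Fin N)).offDiag.filter
            (fun p => p.1 ∈ I ∧ p.2 ∈ I) := by
          ext p
          simp only [mem_offDiag, mem_filter, mem_univ, true_and]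
          tauto
        rw [h3, sum_filter]
        refine sum_congr rfl fun p hp => ?_
        by_cases hs : c j p.1 = c j p.2
        · rw [if_pos hs, if_pos hs]
          by_cases hp1 : p.1 ∈ I
          · have hp2 : p.2 ∈ I := by
              rw [(h.2 p.1 hp1).1, mem_cl]
              exact (c_le hc hlj hs).symm
            simp [hp1, hp2, h]
          · simp [hp1]
        · rw [if_neg hs, if_neg hs]
          simp
      · simp [h]
    simp_rw [h2]
    rw [sum_comm]
    refine sum_congr rfl fun j _ => ?_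
    rw [← mul_sum, ← mul_sum, sum_comm]
    congr 2
    refine sum_congr rfl fun p _ => ?_
    by_cases hs : c j p.1 = c j p.2
    · simp only [hs, if_true]
      rw [← mul_sum, sum_PP hc]
    · simp [hs]
  simp_rw [h1]
  rw [sum_comm' (s' := fun j => range (j + 1)) (t' := range (J + 1))]
  · unfold goodC
    refine sum_congr rfl fun j _ => ?_
    rw [← mul_sum, ← mul_sum, sum_comm]
    congr 2
    refine sum_congr rfl fun p _ => ?_
    by_cases hs : c j p.1 = c j p.2
    · simp only [hs, if_true]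
      rw [← mul_sum, sum_fg hc hν]
    · simp [hs]
  · intro x y
    simp only [mem_range, mem_Icc]
    omega

open Classical in
/-- positivity of the kernel `1[same cell]` -/
theorem same_psd {κ : Type*} (d : Fin N → κ) (a : Fin N → ℝ) :
    0 ≤ ∑ i, ∑ k, (if d i = d k then a i * a k else 0) := by
  have h1 : ∀ i k, (if d i = d k then a i * a k else 0) =
      ∑ z ∈ univ.image d, (if d i = z then a i else 0) * (if d k = z then a k else 0) := by
    intro i k
    rw [sum_eq_single (d i)]
    · by_cases h : d i = d k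
      · simp [h]
      · rw [if_neg h, if_neg (Ne.symm h)]
        simp
    · intro z _ hz
      rw [if_neg (Ne.symm hz)]
      simp
    · intro h
      exact absurd (mem_image_of_mem d (mem_univ i)) h
  have h2 : ∑ i, ∑ k, (if d i = d k then a i * a k else 0) =
      ∑ z ∈ univ.image d, (∑ i, (if d i = z then a i else 0)) ^ 2 := by
    calc ∑ i, ∑ k, (if d i = d k then a i * a k else 0)
        = ∑ i, ∑ k, ∑ z ∈ univ.image d,
            (if d i = z then a i else 0) * (if d k = z then a k else 0) :=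
          sum_congr rfl fun i _ => sum_congr rfl fun k _ => h1 i k
      _ = ∑ z ∈ univ.image d, ∑ i, ∑ k,
            (if d i = z then a i else 0) * (if d k = z then a k else 0) := by
          rw [sum_comm]
          rw [sum_comm (s := univ.image d)]
          rw [sum_comm]
          refine sum_congr rfl fun i _ => ?_
          rw [sum_comm]
      _ = _ := by
          refine sum_congr rfl fun z _ => ?_
          rw [sq, sum_mul_sum]
  rw [h2]
  exact sum_nonneg fun z _ => sq_nonneg _

open Classical in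
/-- whole energy -/
def totC (c : ℕ → Fin N → ι) (e : Fin N → ℝ) (J : ℕ) : ℝ :=
  ∑ j ∈ range (J + 1), (2 : ℝ) ^ j * ((1 / 2) * ∑ p ∈ (univ : Finset (Fin N)).offDiag,
    (if c j p.1 = c j p.2 then e p.1 * e p.2 else 0))

open Classical in
theorem bad_level_ge (j : ℕ) (e : Fin N → ℝ) (he : ∀ i, |e i| ≤ 1) :
    -(∑ i, (if bad ν c j i then (1 : ℝ) else 0)) ≤
      ∑ p ∈ (univ : Finset (Fin N)).offDiag,
        (if c j p.1 = c j p.2 then (e p.1 * e p.2) * (if bad ν c j p.1 then 1 else 0) else 0) := by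
  set a : Fin N → ℝ := fun i => e i * (if bad ν c j i then 1 else 0) with ha
  have h0 := same_psd (fun i => c j i) a
  have h1 : ∑ i, ∑ k, (if c j i = c j k then a i * a k else 0) =
      ∑ p ∈ (univ : Finset (Fin N)).offDiag,
        (if c j p.1 = c j p.2 then (e p.1 * e p.2) * (if bad ν c j p.1 then 1 else 0) else 0) +
      ∑ i, a i * a i := by
    have h2 : ∀ p : Fin N × Fin N, (if c j p.1 = c j p.2 then a p.1 * a p.2 else 0) =
        (if c j p.1 = c j p.2 then (e p.1 * e p.2) * (if bad ν c j p.1 then 1 else 0) else 0) := by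
      intro p
      by_cases hs : c j p.1 = c j p.2
      · rw [if_pos hs, if_pos hs]
        simp only [ha]
        by_cases hb : bad ν c j p.1
        · have hb2 : bad ν c j p.2 := (bad_congr hs).mp hb
          simp [hb, hb2]
        · simp [hb]
      · rw [if_neg hs, if_neg hs]
    have h3 : ∑ i, ∑ k, (if c j i = c j k then a i * a k else 0) =
        ∑ p ∈ (univ : Finset (Fin N)) ×ˢ univ, (if c j p.1 = c j p.2 then a p.1 * a p.2 else 0) := by
      rw [sum_product]
    rw [h3]
    have h4 : (univ : Finset (Fin N)) ×ˢ univ =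
        (univ : Finset (Fin N)).offDiag ∪ (univ : Finset (Fin N)).diag := by
      rw [union_comm, diag_union_offDiag]
    rw [h4, sum_union (by rw [disjoint_comm]; exact disjoint_diag_offDiag _), sum_diag]
    congr 1
    · exact sum_congr rfl fun p _ => h2 p
    · simp
  rw [h1] at h0
  have h5 : ∑ i, a i * a i ≤ ∑ i, (if bad ν c j i then (1 : ℝ) else 0) := by
    refine sum_le_sum fun i _ => ?_
    simp only [ha]
    split_ifs
    · have := he i
      rw [mul_one]
      have h6 := abs_le.mp this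
      nlinarith
    · simp
  linarith

open Classical in
theorem tot_ge (e : Fin N → ℝ) (he : ∀ i, |e i| ≤ 1) (J : ℕ) :
    goodC ν c e J - 1 / 2 * ∑ i, ∑ j ∈ range (J + 1), (if bad ν c j i then (2 : ℝ) ^ j else 0) ≤
      totC c e J := by
  have h1 : totC c e J = goodC ν c e J + ∑ j ∈ range (J + 1), (2 : ℝ) ^ j * ((1 / 2) *
      ∑ p ∈ (univ : Finset (Fin N)).offDiag,
        (if c j p.1 = c j p.2 then (e p.1 * e p.2) * (if bad ν c j p.1 then 1 else 0) else 0)) := by
    unfold totC goodC
    rw [← sum_add_distrib]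
    refine sum_congr rfl fun j _ => ?_
    rw [← mul_add, ← mul_add, ← sum_add_distrib]
    congr 2
    refine sum_congr rfl fun p _ => ?_
    split_ifs <;> simp
  have h2 : -(1 / 2 * ∑ i, ∑ j ∈ range (J + 1), (if bad ν c j i then (2 : ℝ) ^ j else 0)) ≤
      ∑ j ∈ range (J + 1), (2 : ℝ) ^ j * ((1 / 2) *
      ∑ p ∈ (univ : Finset (Fin N)).offDiag,
        (if c j p.1 = c j p.2 then (e p.1 * e p.2) * (if bad ν c j p.1 then 1 else 0) else 0)) := by
    rw [sum_comm, mul_sum, ← sum_neg_distrib]
    refine sum_le_sum fun j _ => ?_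
    have h3 := bad_level_ge (ν := ν) (c := c) j e he
    have h4 : ∑ i, (if bad ν c j i then (2 : ℝ) ^ j else 0) =
        2 ^ j * ∑ i, (if bad ν c j i then (1 : ℝ) else 0) := by
      rw [mul_sum]
      refine sum_congr rfl fun i _ => ?_
      split_ifs <;> simp
    rw [h4]
    have h5 : (0 : ℝ) < 2 ^ j := by positivity
    nlinarith
  linarith

theorem sum_offDiag_symm (F : Fin N → Fin N → ℝ) (hF : ∀ i k, F i k = F k i) :
    ∑ p ∈ (univ : Finset (Fin N)).offDiag, F p.1 p.2 = 2 * ∑ i, ∑ k ∈ Ioi i, F i k := by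
  have h1 : (univ : Finset (Fin N)).offDiag =
      (univ.sigma (fun i : Fin N => Ioi i)).map ⟨fun p => (p.1, p.2), by
        rintro ⟨a, b⟩ ⟨a', b'⟩ h
        simp only [Prod.mk.injEq] at h
        obtain ⟨rfl, rfl⟩ := h
        rfl⟩ ∪ (univ.sigma (fun i : Fin N => Ioi i)).map ⟨fun p => (p.2, p.1), by
        rintro ⟨a, b⟩ ⟨a', b'⟩ h
        simp only [Prod.mk.injEq] at h
        obtain ⟨rfl, rfl⟩ := h
        rfl⟩ := by
    ext ⟨a, b⟩
    rw [mem_offDiag, mem_union, mem_map, mem_map]
    constructor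
    · rintro ⟨-, -, h⟩
      rcases lt_or_gt_of_ne h with h | h
      · left
        exact ⟨⟨a, b⟩, by simpa using h, rfl⟩
      · right
        exact ⟨⟨b, a⟩, by simpa using h, rfl⟩
    · rintro (⟨⟨a', b'⟩, h, h2⟩ | ⟨⟨a', b'⟩, h, h2⟩)
      · simp only [mem_sigma, mem_univ, true_and, mem_Ioi] at h
        simp only [Function.Embedding.coeFn_mk, Prod.mk.injEq] at h2
        obtain ⟨rfl, rfl⟩ := h2
        exact ⟨mem_univ _, mem_univ _, ne_of_lt h⟩
      · simp only [mem_sigma, mem_univ, true_and, mem_Ioi] at h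
        simp only [Function.Embedding.coeFn_mk, Prod.mk.injEq] at h2
        obtain ⟨rfl, rfl⟩ := h2
        exact ⟨mem_univ _, mem_univ _, ne_of_gt h⟩
  rw [h1, sum_union, sum_map, sum_map, sum_sigma, sum_sigma, two_mul]
  · congr 1
    refine sum_congr rfl fun i _ => sum_congr rfl fun k _ => ?_
    exact hF k i
  · rw [disjoint_left]
    rintro ⟨a, b⟩ ha hb
    rw [mem_map] at ha hb
    obtain ⟨⟨a', b'⟩, h1, h1'⟩ := ha
    obtain ⟨⟨a'', b''⟩, h2, h2'⟩ := hb
    simp only [mem_sigma, mem_univ, true_and, mem_Ioi] at h1 h2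
    simp only [Function.Embedding.coeFn_mk, Prod.mk.injEq] at h1' h2'
    obtain ⟨rfl, rfl⟩ := h1'
    obtain ⟨h3, h4⟩ := h2'
    rw [h3, h4] at h2
    exact absurd h1 (not_lt.mpr h2.le)

end

end

end Pool.Agent.H.MP_d1ae63_mp.Hi
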