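import Pool.Agent.H.MP_d1ae63_mp.LeafDefs
import Pool.Agent.H.MP_d1ae63_mp.HierComb

/-!
# Stopping-time decomposition: summation of the leaf lemma
-/

set_option autoImplicit false

open MeasureTheory Set
open scoped ENNReal Real

namespace Pool.Agent.H.MP_d1ae63_mp.Hi

noncomputable section

/-- cell indices of all particles on all levels -/
def cc {N : ℕ} (y : Fin N → X3) : ℕ → Fin N → (Fin 3 → ℤ) := fun j k => cellIdx (j : ℤ) (y k)

theorem cc_refine {N : ℕ} (y : Fin N → X3) (j : ℕ) (i k : Fin N)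
    (h : cc y (j + 1) i = cc y (j + 1) k) : cc y j i = cc y j k := by
  unfold cc at *
  exact cellIdx_eq_of_le (by push_cast; linarith) h

theorem PP_congr {N : ℕ} {ι : Type*} {ν : ℕ → ℝ} {c c' : ℕ → Fin N → ι} {l : ℕ}
    (h : ∀ j ≤ l, c j = c' j) (I : Finset (Fin N)) : PP ν c l I ↔ PP ν c' l I := by
  have h1 : ∀ j ≤ l, ∀ i, cl c j i = cl c' j i := by
    intro j hj i
    unfold cl
    rw [h j hj]
  unfold PP fg bad
  simp only [h1 l le_rfl, h1 (l - 1) (Nat.sub_le l 1)]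

theorem cc_update {N : ℕ} (y : Fin N → X3) (i : Fin N) (u : X3) (l : ℕ)
    (h : cellIdx (l : ℤ) u = cellIdx (l : ℤ) (y i)) (j : ℕ) (hj : j ≤ l) :
    cc (Function.update y i u) j = cc y j := by
  funext k
  unfold cc
  by_cases hk : k = i
  · subst hk
    rw [Function.update_self]
    exact cellIdx_eq_of_le (by exact_mod_cast hj) h
  · rw [Function.update_of_ne hk]

section meas

variable {N : ℕ}

theorem meas_mem_cl (j : ℕ) (i k : Fin N) : MeasurableSet {y : Fin N → X3 | k ∈ cl (cc y) j i} := by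
  simp only [mem_cl]
  unfold cc
  exact measurableSet_eq_fun ((measurable_cellIdx j).comp (measurable_pi_apply k))
    ((measurable_cellIdx j).comp (measurable_pi_apply i))

theorem meas_cl_eq (j : ℕ) (i : Fin N) (S : Finset (Fin N)) :
    MeasurableSet {y : Fin N → X3 | cl (cc y) j i = S} := by
  have h1 : {y : Fin N → X3 | cl (cc y) j i = S} =
      ⋂ k : Fin N, {y : Fin N → X3 | k ∈ cl (cc y) j i ↔ k ∈ S} := by
    ext y
    simp only [Set.mem_iInter, Set.mem_ofPred_eq]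
    exact Finset.ext_iff
  rw [h1]
  refine MeasurableSet.iInter fun k => ?_
  by_cases hk : k ∈ S
  · simp only [hk, iff_true]
    exact meas_mem_cl j i k
  · simp only [hk, iff_false]
    exact (meas_mem_cl j i k).compl

theorem meas_bad (ν : ℕ → ℝ) (j : ℕ) (i : Fin N) :
    MeasurableSet {y : Fin N → X3 | bad ν (cc y) j i} := by
  have h1 : {y : Fin N → X3 | bad ν (cc y) j i} =
      ⋃ S : Finset (Fin N), ⋃ _ : ν j < (S.card : ℝ), {y : Fin N → X3 | cl (cc y) j i = S} := by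
    ext y
    simp only [Set.mem_iUnion, Set.mem_ofPred_eq]
    constructor
    · intro h
      exact ⟨_, h, rfl⟩
    · rintro ⟨S, h, rfl⟩
      exact h
  rw [h1]
  exact MeasurableSet.iUnion fun S => MeasurableSet.iUnion fun _ => meas_cl_eq j i S

theorem meas_fg (ν : ℕ → ℝ) (l : ℕ) (i : Fin N) :
    MeasurableSet {y : Fin N → X3 | fg ν (cc y) l i} := by
  unfold fg
  refine MeasurableSet.inter (meas_bad ν l i).compl ?_
  exact (MeasurableSet.const (l = 0)).union (meas_bad ν (l - 1) i)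

theorem meas_PP (ν : ℕ → ℝ) (l : ℕ) (I : Finset (Fin N)) :
    MeasurableSet {y : Fin N → X3 | PP ν (cc y) l I} := by
  have h1 : {y : Fin N → X3 | PP ν (cc y) l I} =
      {_y : Fin N → X3 | I.Nonempty} ∩ ⋂ i ∈ I, ({y : Fin N → X3 | cl (cc y) l i = I} ∩
        {y : Fin N → X3 | fg ν (cc y) l i}) := by
    ext y
    simp only [Set.mem_inter_iff, Set.mem_iInter, Set.mem_ofPred_eq]
    unfold PP
    constructor
    · rintro ⟨h2, h3⟩
      exact ⟨h2, fun i hi => ⟨(h3 i hi).1.symm, (h3 i hi).2⟩⟩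
    · rintro ⟨h2, h3⟩
      exact ⟨h2, fun i hi => ⟨(h3 i hi).1.symm, (h3 i hi).2⟩⟩
  rw [h1]
  refine (MeasurableSet.const _).inter ?_
  refine MeasurableSet.biInter (Set.to_countable _) fun i _ => ?_
  exact (meas_cl_eq l i I).inter (meas_fg ν l i)

/-- leaves located in the cube `z` -/
def Om (ν : ℕ → ℝ) (l : ℕ) (z : Fin 3 → ℤ) (I : Finset (Fin N)) : Set (Fin N → X3) :=
  {y | PP ν (cc y) l I ∧ ∀ i ∈ I, cellIdx (l : ℤ) (y i) = z}

theorem meas_Om (ν : ℕ → ℝ) (l : ℕ) (z : Fin 3 → ℤ) (I : Finset (Fin N)) :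
    MeasurableSet (Om ν l z I) := by
  have h1 : Om ν l z I = {y : Fin N → X3 | PP ν (cc y) l I} ∩
      ⋂ i ∈ I, {y : Fin N → X3 | cellIdx (l : ℤ) (y i) = z} := by
    ext y
    simp [Om]
  rw [h1]
  refine (meas_PP ν l I).inter (MeasurableSet.biInter (Set.to_countable _) fun i _ => ?_)
  exact ((measurable_cellIdx l).comp (measurable_pi_apply i)) (measurableSet_singleton z)

theorem Om_update (ν : ℕ → ℝ) (l : ℕ) (z : Fin 3 → ℤ) (I : Finset (Fin N)) (y : Fin N → X3)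
    (hy : y ∈ Om ν l z I) (i : Fin N) (hi : i ∈ I) (u : X3) (hu : u ∈ cube l z) :
    Function.update y i u ∈ Om ν l z I := by
  have hu' : cellIdx (l : ℤ) u = z := hu
  have h1 : cellIdx (l : ℤ) u = cellIdx (l : ℤ) (y i) := by rw [hu', hy.2 i hi]
  refine ⟨(PP_congr (fun j hj => cc_update y i u l h1 j hj) I).mpr hy.1, fun k hk => ?_⟩
  have h2 := congrFun (cc_update y i u l h1 l le_rfl) k
  unfold cc at h2
  rw [h2]
  exact hy.2 k hk

theorem iUnion_Om (ν : ℕ → ℝ) (l : ℕ) (I : Finset (Fin N)) :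
    ⋃ z, Om ν l z I = {y : Fin N → X3 | PP ν (cc y) l I} := by
  ext y
  simp only [Set.mem_iUnion, Om, Set.mem_ofPred_eq]
  constructor
  · rintro ⟨z, h, -⟩
    exact h
  · intro h
    obtain ⟨i, hi⟩ := h.1
    refine ⟨cellIdx (l : ℤ) (y i), h, fun k hk => ?_⟩
    rw [(h.2 i hi).1, mem_cl] at hk
    exact hk

theorem Om_disj (ν : ℕ → ℝ) (l : ℕ) (I : Finset (Fin N)) :
    Pairwise (Function.onFun Disjoint fun z => Om ν l z I) := by
  intro z z' hz
  rw [Function.onFun, Set.disjoint_left]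
  intro y hy hy'
  obtain ⟨i, hi⟩ := hy.1.1
  exact hz ((hy.2 i hi).symm.trans (hy'.2 i hi))

theorem card_le_of_Om {ν : ℕ → ℝ} {l : ℕ} {z : Fin 3 → ℤ} {I : Finset (Fin N)} {y : Fin N → X3}
    (hy : y ∈ Om ν l z I) : (I.card : ℝ) ≤ ν l := by
  obtain ⟨i, hi⟩ := hy.1.1
  have h1 := (hy.1.2 i hi).2.1
  have h2 := (hy.1.2 i hi).1
  unfold bad at h1
  rw [← h2, not_lt] at h1
  exact h1

theorem leafW_eq (l J : ℕ) (I : Finset (Fin N)) (e : Fin N → ℝ) (y : Fin N → X3) :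
    leafW l J I e y = leafC (cc y) e l J I := by
  unfold leafW leafC cc
  refine Finset.sum_congr rfl fun j _ => ?_
  congr 2
  refine Finset.sum_congr rfl fun p _ => ?_
  split_ifs <;> rfl

theorem dyadicW_eq (J : ℕ) (e : Fin N → ℝ) (y : Fin N → X3) :
    dyadicW J e y = totC (cc y) e J := by
  classical
  unfold dyadicW totC
  refine Finset.sum_congr rfl fun j _ => ?_
  have h := sum_offDiag_symm (fun i k : Fin N => if cc y j i = cc y j k then e i * e k else 0)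
    (fun i k => by
      by_cases hh : cc y j i = cc y j k
      · rw [if_pos hh, if_pos hh.symm, mul_comm]
      · rw [if_neg hh, if_neg (Ne.symm hh)])
  congr 1
  calc (∑ i, ∑ k ∈ Finset.Ioi i, (if cellIdx (j : ℤ) (y i) = cellIdx (j : ℤ) (y k)
        then e i * e k else 0))
      = ∑ i, ∑ k ∈ Finset.Ioi i, (if cc y j i = cc y j k then e i * e k else 0) := by
        refine Finset.sum_congr rfl fun i _ => Finset.sum_congr rfl fun k _ => ?_
        unfold cc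
        split_ifs <;> rfl
    _ = 1 / 2 * (2 * ∑ i, ∑ k ∈ Finset.Ioi i, (if cc y j i = cc y j k then e i * e k else 0)) := by
        ring
    _ = _ := by
        rw [← h]
        congr 1
        refine Finset.sum_congr rfl fun p _ => ?_
        split_ifs <;> rfl

end meas

section analysis

variable {N : ℕ} {α : ℝ} {m : ℕ} {ψ : (Fin N → X3) → ℂ}

theorem measurable_pi_prod (i : Fin N) :
    Measurable (fun q : (Fin N → X3) × X3 => ((q.1 i, q.2) : X3 × X3)) := by fun_prop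

theorem measurable_ww (α : ℝ) (i : Fin N) :
    Measurable (fun p : (Fin N → X3) × X3 => wt α (p.1 i) p.2) := by
  have := (measurable_wt α).comp (measurable_pi_prod i)
  simpa only [Function.comp_def] using this

theorem measurable_dd (m : ℕ) (i : Fin N) (hψ : Measurable ψ) :
    Measurable (fun p : (Fin N → X3) × X3 =>
      dif m (fun u => ψ (Function.update p.1 i u)) (p.1 i) p.2) := by
  unfold dif
  refine Finset.measurable_fun_sum _ fun k _ => ?_
  refine measurable_const.mul (hψ.comp ?_)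
  have h1 : Measurable fun p : (Fin N → X3) × X3 =>
      (p.1, p.1 i + ((k : ℝ) / (m : ℝ)) • (p.2 - p.1 i)) := by fun_prop
  exact measurable_update'.comp h1

theorem measurable_tau (α : ℝ) (m : ℕ) (i : Fin N) (hψ : Measurable ψ) :
    Measurable (tau α m i ψ) := by
  have h := (measurable_ww α i).mul ((measurable_dd m i hψ).enorm.pow_const 2)
  exact h.lintegral_prod_right'

/-- real-valued energy density -/
def tr (α : ℝ) (m : ℕ) (i : Fin N) (ψ : (Fin N → X3) → ℂ) (y : Fin N → X3) : ℝ :=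
  (tau α m i ψ y).toReal

theorem tr_int (hψ : Measurable ψ) {i : Fin N} (hd : difFormAt α m i ψ ≠ ∞) :
    Integrable (tr α m i ψ) :=
  integrable_toReal_of_lintegral_ne_top (measurable_tau α m i hψ).aemeasurable hd

theorem tr_setIntegral (hψ : Measurable ψ) {i : Fin N} (hd : difFormAt α m i ψ ≠ ∞)
    (Ω : Set (Fin N → X3)) :
    ∫ y in Ω, tr α m i ψ y = (∫⁻ y in Ω, tau α m i ψ y).toReal := by
  unfold tr
  rw [integral_toReal (measurable_tau α m i hψ).aemeasurable]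
  refine ae_lt_top (measurable_tau α m i hψ) ?_
  exact ne_top_of_le_ne_top hd (setLIntegral_le_lintegral _ _)

theorem tr_integral (hψ : Measurable ψ) {i : Fin N} (hd : difFormAt α m i ψ ≠ ∞) :
    ∫ y, tr α m i ψ y = (difFormAt α m i ψ).toReal := by
  have h := tr_setIntegral hψ hd Set.univ
  rw [setIntegral_univ, setLIntegral_univ] at h
  rw [h]
  rfl

theorem psi_int (hψ : Measurable ψ) (h2 : ∫⁻ y, ‖ψ y‖ₑ ^ 2 ≠ ∞) :
    Integrable (fun y => ‖ψ y‖ ^ 2) := by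
  refine ⟨(hψ.norm.pow_const 2).aestronglyMeasurable, ?_⟩
  unfold HasFiniteIntegral
  refine lt_of_le_of_lt (le_of_eq ?_) (lt_top_iff_ne_top.mpr h2)
  refine lintegral_congr fun y => ?_
  rw [enorm_pow, enorm_norm]

theorem bdd_mul_int {w : (Fin N → X3) → ℝ} (hw : Measurable w) (B : ℝ) (hB : ∀ y, |w y| ≤ B)
    (hψ : Measurable ψ) (h2 : ∫⁻ y, ‖ψ y‖ₑ ^ 2 ≠ ∞) :
    Integrable (fun y => w y * ‖ψ y‖ ^ 2) :=
  (psi_int hψ h2).bdd_mul (c := B) hw.aestronglyMeasurable (Filter.Eventually.of_forall hB)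

theorem leafW_meas (l J : ℕ) (I : Finset (Fin N)) (e : Fin N → ℝ) :
    Measurable (leafW l J I e) := by
  unfold leafW
  refine Finset.measurable_fun_sum _ fun j _ => ?_
  refine measurable_const.mul (measurable_const.mul ?_)
  refine Finset.measurable_fun_sum _ fun p _ => ?_
  refine Measurable.ite ?_ measurable_const measurable_const
  exact measurableSet_eq_fun ((measurable_cellIdx j).comp (measurable_pi_apply p.1))
    ((measurable_cellIdx j).comp (measurable_pi_apply p.2))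

theorem leafW_bdd (l J : ℕ) (I : Finset (Fin N)) (e : Fin N → ℝ) (he : ∀ i, |e i| ≤ 1)
    (y : Fin N → X3) :
    |leafW l J I e y| ≤ ∑ j ∈ Finset.Icc l J, (2 : ℝ) ^ j * ((1 / 2) * (I.offDiag.card : ℝ)) := by
  unfold leafW
  refine (Finset.abs_sum_le_sum_abs _ _).trans (Finset.sum_le_sum fun j _ => ?_)
  rw [abs_mul, abs_of_pos (by positivity : (0 : ℝ) < 2 ^ j), abs_mul,
    abs_of_pos (by norm_num : (0 : ℝ) < 1 / 2)]
  gcongr
  refine (Finset.abs_sum_le_sum_abs _ _).trans ?_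
  rw [Finset.card_eq_sum_ones, Nat.cast_sum]
  refine Finset.sum_le_sum fun p _ => ?_
  split_ifs
  · rw [abs_mul]
    push_cast
    exact mul_le_one₀ (he _) (abs_nonneg _) (he _)
  · simp

theorem dyadicW_meas (J : ℕ) (e : Fin N → ℝ) : Measurable (dyadicW J e : (Fin N → X3) → ℝ) := by
  unfold dyadicW
  refine Finset.measurable_fun_sum _ fun j _ => ?_
  refine measurable_const.mul ?_
  refine Finset.measurable_fun_sum _ fun i _ => Finset.measurable_fun_sum _ fun k _ => ?_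
  refine Measurable.ite ?_ measurable_const measurable_const
  exact measurableSet_eq_fun ((measurable_cellIdx j).comp (measurable_pi_apply i))
    ((measurable_cellIdx j).comp (measurable_pi_apply k))

theorem dyadicW_bdd (J : ℕ) (e : Fin N → ℝ) (he : ∀ i, |e i| ≤ 1) (y : Fin N → X3) :
    |dyadicW J e y| ≤ ∑ j ∈ Finset.range (J + 1), (2 : ℝ) ^ j *
      ∑ i : Fin N, ((Finset.Ioi i).card : ℝ) := by
  unfold dyadicW
  refine (Finset.abs_sum_le_sum_abs _ _).trans (Finset.sum_le_sum fun j _ => ?_)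
  rw [abs_mul, abs_of_pos (by positivity : (0 : ℝ) < 2 ^ j)]
  gcongr
  refine (Finset.abs_sum_le_sum_abs _ _).trans (Finset.sum_le_sum fun i _ => ?_)
  refine (Finset.abs_sum_le_sum_abs _ _).trans ?_
  rw [Finset.card_eq_sum_ones, Nat.cast_sum]
  refine Finset.sum_le_sum fun p _ => ?_
  split_ifs
  · rw [abs_mul]
    push_cast
    exact mul_le_one₀ (he _) (abs_nonneg _) (he _)
  · simp

/-- numerical form of the leaf estimate -/
theorem leaf_num {C1 c0 g n α A T : ℝ} {l : ℕ} (hC : 0 < C1) (hc0 : 0 < c0) (hg : 0 < g)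
    (hn0 : 0 ≤ n) (hn : n ≤ c0 * g⁻¹ * (2 : ℝ) ^ ((l : ℝ) * (α - 1))) (hA : 0 ≤ A) (hT : 0 ≤ T) :
    g * (C1 * n * ((2 : ℝ) ^ (l : ℝ) * A + (2 : ℝ) ^ ((l : ℝ) * (1 - α)) * T +
        (2 : ℝ) ^ ((l : ℝ) * (1 - α / 2)) * (√T * √A))) ≤
      5 / 4 * C1 * (g * n * 2 ^ l) * A + 2 * C1 * c0 * T := by
  set u := g * n * (2 : ℝ) ^ ((l : ℝ) * (1 - α)) with hu
  set v := g * n * (2 : ℝ) ^ (l : ℝ) with hv
  set w := g * n * (2 : ℝ) ^ ((l : ℝ) * (1 - α / 2)) with hw
  have hu0 : 0 ≤ u := by positivity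
  have hv0 : 0 ≤ v := by positivity
  have hw0 : 0 ≤ w := by positivity
  have huc : u ≤ c0 := by
    have h1 : (2 : ℝ) ^ ((l : ℝ) * (α - 1)) * (2 : ℝ) ^ ((l : ℝ) * (1 - α)) = 1 := by
      rw [← Real.rpow_add (by norm_num)]
      ring_nf
      simp
    calc u = g * (n * (2 : ℝ) ^ ((l : ℝ) * (1 - α))) := by rw [hu]; ring
      _ ≤ g * ((c0 * g⁻¹ * (2 : ℝ) ^ ((l : ℝ) * (α - 1))) * (2 : ℝ) ^ ((l : ℝ) * (1 - α))) := by
          gcongr
      _ = c0 * (g * g⁻¹) * ((2 : ℝ) ^ ((l : ℝ) * (α - 1)) * (2 : ℝ) ^ ((l : ℝ) * (1 - α))) := by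
          ring
      _ = c0 := by rw [h1, mul_inv_cancel₀ hg.ne']; ring
  have hwuv : w ^ 2 = u * v := by
    have h1 : ((2 : ℝ) ^ ((l : ℝ) * (1 - α / 2))) ^ 2 =
        (2 : ℝ) ^ ((l : ℝ) * (1 - α)) * (2 : ℝ) ^ (l : ℝ) := by
      rw [← Real.rpow_natCast, ← Real.rpow_mul (by norm_num), ← Real.rpow_add (by norm_num)]
      congr 1
      push_cast
      ring
    rw [hw, mul_pow, h1, hu, hv]
    ring
  have hv' : v = g * n * 2 ^ l := by rw [hv, Real.rpow_natCast]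
  have hsT := Real.sq_sqrt hT
  have hsA := Real.sq_sqrt hA
  have hsT0 := Real.sqrt_nonneg T
  have hsA0 := Real.sqrt_nonneg A
  have hw2 : w ^ 2 ≤ c0 * v := by
    rw [hwuv]
    exact mul_le_mul_of_nonneg_right huc hv0
  have key : w * (√T * √A) ≤ c0 * T + v * A / 4 := by
    have h1 : 0 ≤ (2 * c0 * √T - w * √A) ^ 2 := sq_nonneg _
    have h2 : 4 * c0 * (w * (√T * √A)) ≤ 4 * c0 ^ 2 * T + w ^ 2 * A := by
      nlinarith
    have h3 : w ^ 2 * A ≤ c0 * v * A := mul_le_mul_of_nonneg_right hw2 hA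
    have h4 : 4 * c0 * (w * (√T * √A)) ≤ 4 * c0 * (c0 * T + v * A / 4) := by
      nlinarith
    exact le_of_mul_le_mul_left h4 (by positivity)
  have h5 : g * (C1 * n * ((2 : ℝ) ^ (l : ℝ) * A + (2 : ℝ) ^ ((l : ℝ) * (1 - α)) * T +
        (2 : ℝ) ^ ((l : ℝ) * (1 - α / 2)) * (√T * √A))) =
      C1 * (v * A + u * T + w * (√T * √A)) := by
    rw [hu, hv, hw]
    ring
  rw [h5, ← hv']
  have h6 : u * T ≤ c0 * T := mul_le_mul_of_nonneg_right huc hT
  have h7 : v * A + u * T + w * (√T * √A) ≤ 5 / 4 * v * A + 2 * c0 * T := by linarith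
  calc C1 * (v * A + u * T + w * (√T * √A)) ≤ C1 * (5 / 4 * v * A + 2 * c0 * T) :=
        mul_le_mul_of_nonneg_left h7 hC.le
    _ = _ := by ring

/-- the leaf integrand -/
def HH (α : ℝ) (m : ℕ) (C1 c0 g : ℝ) (J : ℕ) (e : Fin N → ℝ) (ψ : (Fin N → X3) → ℂ) (l : ℕ)
    (I : Finset (Fin N)) (y : Fin N → X3) : ℝ :=
  g * (leafW l J I e y * ‖ψ y‖ ^ 2) + (5 / 4 * C1 * (g * I.card * 2 ^ l) * ‖ψ y‖ ^ 2 +
    2 * C1 * c0 * ∑ i ∈ I, tr α m i ψ y)

theorem HH_int (C1 c0 g : ℝ) (J : ℕ) (e : Fin N → ℝ) (he : ∀ i, |e i| ≤ 1) (hψ : Measurable ψ)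
    (h2 : ∫⁻ y, ‖ψ y‖ₑ ^ 2 ≠ ∞) (hd : ∀ i, difFormAt α m i ψ ≠ ∞) (l : ℕ)
    (I : Finset (Fin N)) : Integrable (HH α m C1 c0 g J e ψ l I) := by
  unfold HH
  refine Integrable.add ?_ (Integrable.add ?_ ?_)
  · exact (bdd_mul_int (leafW_meas l J I e) _ (leafW_bdd l J I e he) hψ h2).const_mul g
  · exact (psi_int hψ h2).const_mul _
  · exact (integrable_finsetSum _ fun i _ => tr_int hψ (hd i)).const_mul _

/-- leaf inequality on one cube -/
theorem leaf_cube {C1 : ℝ} (hC1 : 0 < C1)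
    (hleaf : ∀ (N ℓ J : ℕ) (z : Fin 3 → ℤ) (I : Finset (Fin N)) (e : Fin N → ℝ),
    (∀ i, |e i| ≤ 1) → ∀ Ω : Set (Fin N → X3), MeasurableSet Ω →
    (∀ y ∈ Ω, ∀ i ∈ I, y i ∈ cube ℓ z) →
    (∀ y ∈ Ω, ∀ i ∈ I, ∀ u ∈ cube ℓ z, Function.update y i u ∈ Ω) →
    ∀ ψ : (Fin N → X3) → ℂ, Measurable ψ → ∫⁻ y, ‖ψ y‖ₑ ^ 2 ≠ ∞ →
    (∀ i, difFormAt α m i ψ ≠ ∞) →
    ∀ A T : ℝ, A = ∫ y in Ω, ‖ψ y‖ ^ 2 →
      T = ∑ i ∈ I, (∫⁻ y in Ω, tau α m i ψ y).toReal →
    -(C1 * I.card * ((2 : ℝ) ^ (ℓ : ℝ) * A + (2 : ℝ) ^ ((ℓ : ℝ) * (1 - α)) * T +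
        (2 : ℝ) ^ ((ℓ : ℝ) * (1 - α / 2)) * (√T * √A)))
      ≤ ∫ y in Ω, leafW ℓ J I e y * ‖ψ y‖ ^ 2)
    {c0 g : ℝ} (hc0 : 0 < c0) (hg : 0 < g) (J : ℕ) (e : Fin N → ℝ) (he : ∀ i, |e i| ≤ 1)
    (hψ : Measurable ψ) (h2 : ∫⁻ y, ‖ψ y‖ₑ ^ 2 ≠ ∞) (hd : ∀ i, difFormAt α m i ψ ≠ ∞)
    {ν : ℕ → ℝ} (hν : ∀ l : ℕ, ν l = c0 * g⁻¹ * (2 : ℝ) ^ ((l : ℝ) * (α - 1)))
    (l : ℕ) (z : Fin 3 → ℤ) (I : Finset (Fin N)) :
    0 ≤ ∫ y in Om ν l z I, HH α m C1 c0 g J e ψ l I y := by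
  by_cases hne : (Om ν l z I).Nonempty
  · obtain ⟨y0, hy0⟩ := hne
    have hcard := card_le_of_Om hy0
    rw [hν l] at hcard
    set A := ∫ y in Om ν l z I, ‖ψ y‖ ^ 2 with hA
    set T := ∑ i ∈ I, (∫⁻ y in Om ν l z I, tau α m i ψ y).toReal with hT
    have hL := hleaf N l J z I e he (Om ν l z I) (meas_Om ν l z I)
      (fun y hy i hi => hy.2 i hi) (fun y hy i hi u hu => Om_update ν l z I y hy i hi u hu)
      ψ hψ h2 hd A T hA hT
    have hA0 : 0 ≤ A := integral_nonneg fun y => by positivity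
    have hT0 : 0 ≤ T := Finset.sum_nonneg fun i _ => ENNReal.toReal_nonneg
    have hnum := leaf_num (l := l) hC1 hc0 hg (Nat.cast_nonneg I.card) hcard hA0 hT0
    have e1 : ∫ y in Om ν l z I, HH α m C1 c0 g J e ψ l I y =
        g * (∫ y in Om ν l z I, leafW l J I e y * ‖ψ y‖ ^ 2) +
        (5 / 4 * C1 * (g * I.card * 2 ^ l) * A + 2 * C1 * c0 * T) := by
      unfold HH
      have i1 := (bdd_mul_int (leafW_meas l J I e) _ (leafW_bdd l J I e he) hψ h2).integrableOn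
        (s := Om ν l z I)
      have i2 := (psi_int hψ h2).integrableOn (s := Om ν l z I)
      have i3 : ∀ i ∈ I, Integrable (tr α m i ψ) (volume.restrict (Om ν l z I)) :=
        fun i _ => (tr_int hψ (hd i)).integrableOn
      have i4 : Integrable (fun y => ∑ i ∈ I, tr α m i ψ y) (volume.restrict (Om ν l z I)) :=
        integrable_finsetSum _ i3
      have i5 : Integrable (fun y => g * (leafW l J I e y * ‖ψ y‖ ^ 2))
          (volume.restrict (Om ν l z I)) := i1.integrable.const_mul g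
      have i6 : Integrable (fun y => 5 / 4 * C1 * (g * I.card * 2 ^ l) * ‖ψ y‖ ^ 2)
          (volume.restrict (Om ν l z I)) := i2.integrable.const_mul _
      have i7 : Integrable (fun y => 2 * C1 * c0 * ∑ i ∈ I, tr α m i ψ y)
          (volume.restrict (Om ν l z I)) := i4.const_mul _
      have i8 : Integrable (fun y => 5 / 4 * C1 * (g * I.card * 2 ^ l) * ‖ψ y‖ ^ 2 +
          2 * C1 * c0 * ∑ i ∈ I, tr α m i ψ y) (volume.restrict (Om ν l z I)) := i6.add i7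
      rw [integral_add i5 i8, integral_add i6 i7,
        integral_const_mul, integral_const_mul, integral_const_mul, integral_finsetSum _ i3]
      congr 3
      rw [hT]
      refine Finset.sum_congr rfl fun i _ => ?_
      exact tr_setIntegral hψ (hd i) _
    rw [e1]
    have hg' := mul_le_mul_of_nonneg_left hL hg.le
    rw [mul_neg] at hg'
    linarith
  · rw [Set.not_nonempty_iff_eq_empty] at hne
    rw [hne]
    simp

open Classical in
/-- weight of the bad levels of particle `i` -/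
def bw (ν : ℕ → ℝ) (J : ℕ) (i : Fin N) (y : Fin N → X3) : ℝ :=
  ∑ j ∈ Finset.range (J + 1), (if bad ν (cc y) j i then (2 : ℝ) ^ j else 0)

theorem bw_meas (ν : ℕ → ℝ) (J : ℕ) (i : Fin N) : Measurable (bw ν J i) := by
  classical
  unfold bw
  refine Finset.measurable_fun_sum _ fun j _ => ?_
  exact Measurable.ite (meas_bad ν j i) measurable_const measurable_const

theorem bw_nonneg (ν : ℕ → ℝ) (J : ℕ) (i : Fin N) (y : Fin N → X3) : 0 ≤ bw ν J i y := by
  classical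
  unfold bw
  refine Finset.sum_nonneg fun j _ => ?_
  split_ifs <;> positivity

theorem bw_bdd (ν : ℕ → ℝ) (J : ℕ) (i : Fin N) (y : Fin N → X3) :
    |bw ν J i y| ≤ ∑ j ∈ Finset.range (J + 1), (2 : ℝ) ^ j := by
  classical
  rw [abs_of_nonneg (bw_nonneg ν J i y)]
  unfold bw
  refine Finset.sum_le_sum fun j _ => ?_
  split_ifs
  · exact le_rfl
  · positivity

theorem leaf_sum {C1 : ℝ} (hC1 : 0 < C1)
    (hleaf : ∀ (N ℓ J : ℕ) (z : Fin 3 → ℤ) (I : Finset (Fin N)) (e : Fin N → ℝ),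
    (∀ i, |e i| ≤ 1) → ∀ Ω : Set (Fin N → X3), MeasurableSet Ω →
    (∀ y ∈ Ω, ∀ i ∈ I, y i ∈ cube ℓ z) →
    (∀ y ∈ Ω, ∀ i ∈ I, ∀ u ∈ cube ℓ z, Function.update y i u ∈ Ω) →
    ∀ ψ : (Fin N → X3) → ℂ, Measurable ψ → ∫⁻ y, ‖ψ y‖ₑ ^ 2 ≠ ∞ →
    (∀ i, difFormAt α m i ψ ≠ ∞) →
    ∀ A T : ℝ, A = ∫ y in Ω, ‖ψ y‖ ^ 2 →
      T = ∑ i ∈ I, (∫⁻ y in Ω, tau α m i ψ y).toReal →
    -(C1 * I.card * ((2 : ℝ) ^ (ℓ : ℝ) * A + (2 : ℝ) ^ ((ℓ : ℝ) * (1 - α)) * T +
        (2 : ℝ) ^ ((ℓ : ℝ) * (1 - α / 2)) * (√T * √A)))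
      ≤ ∫ y in Ω, leafW ℓ J I e y * ‖ψ y‖ ^ 2)
    {c0 g : ℝ} (hc0 : 0 < c0) (hg : 0 < g) (J : ℕ) (e : Fin N → ℝ) (he : ∀ i, |e i| ≤ 1)
    (hψ : Measurable ψ) (h2 : ∫⁻ y, ‖ψ y‖ₑ ^ 2 ≠ ∞) (hd : ∀ i, difFormAt α m i ψ ≠ ∞)
    {ν : ℕ → ℝ} (hν : ∀ l : ℕ, ν l = c0 * g⁻¹ * (2 : ℝ) ^ ((l : ℝ) * (α - 1)))
    (hνm : Monotone ν) :
    -(2 * C1 * c0 * ∑ i, (difFormAt α m i ψ).toReal) - 5 / 4 * C1 * g * N * (∫ y, ‖ψ y‖ ^ 2)
      - (5 / 4 * C1 + 1 / 2) * (g * ∑ i, ∫ y, bw ν J i y * ‖ψ y‖ ^ 2) ≤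
      g * ∫ y, dyadicW J e y * ‖ψ y‖ ^ 2 := by
  classical
  -- nonnegativity of the sum over leaves
  have hpos : 0 ≤ ∫ y, ∑ l ∈ Finset.range (J + 1), ∑ I : Finset (Fin N),
      ({y : Fin N → X3 | PP ν (cc y) l I}.indicator (HH α m C1 c0 g J e ψ l I) y) := by
    have hint : ∀ l (I : Finset (Fin N)), Integrable
        ({y : Fin N → X3 | PP ν (cc y) l I}.indicator (HH α m C1 c0 g J e ψ l I)) :=
      fun l I => (HH_int C1 c0 g J e he hψ h2 hd l I).indicator (meas_PP ν l I)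
    rw [integral_finsetSum _ fun l _ => integrable_finsetSum _ fun I _ => hint l I]
    refine Finset.sum_nonneg fun l _ => ?_
    rw [integral_finsetSum _ fun I _ => hint l I]
    refine Finset.sum_nonneg fun I _ => ?_
    rw [integral_indicator (meas_PP ν l I), ← iUnion_Om,
      integral_iUnion (fun z => meas_Om ν l z I) (Om_disj ν l I)
        (HH_int C1 c0 g J e he hψ h2 hd l I).integrableOn]
    exact tsum_nonneg fun z => leaf_cube hC1 hleaf hc0 hg J e he hψ h2 hd hν l z I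
  -- integrability of the pieces
  have i1 : Integrable (fun y => dyadicW J e y * ‖ψ y‖ ^ 2) :=
    bdd_mul_int (dyadicW_meas J e) _ (dyadicW_bdd J e he) hψ h2
  have i2 : ∀ i, Integrable (fun y => bw ν J i y * ‖ψ y‖ ^ 2) := fun i =>
    bdd_mul_int (bw_meas ν J i) _ (bw_bdd ν J i) hψ h2
  have i3 := psi_int hψ h2
  have i4 : ∀ i, Integrable (tr α m i ψ) := fun i => tr_int hψ (hd i)
  have j2 : Integrable (fun y => (5 / 4 * C1 + 1 / 2) * (g * ∑ i, bw ν J i y * ‖ψ y‖ ^ 2)) :=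
    ((integrable_finsetSum _ fun i _ => i2 i).const_mul g).const_mul _
  have j3 : Integrable (fun y => 5 / 4 * C1 * g * N * ‖ψ y‖ ^ 2) := i3.const_mul _
  have j4 : Integrable (fun y => 2 * C1 * c0 * ∑ i, tr α m i ψ y) :=
    (integrable_finsetSum _ fun i _ => i4 i).const_mul _
  have j1 : Integrable (fun y => g * (dyadicW J e y * ‖ψ y‖ ^ 2)) := i1.const_mul g
  have j34 : Integrable (fun y => 5 / 4 * C1 * g * N * ‖ψ y‖ ^ 2 +
    2 * C1 * c0 * ∑ i, tr α m i ψ y) := j3.add j4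
  have j234 : Integrable (fun y => (5 / 4 * C1 + 1 / 2) * (g * ∑ i, bw ν J i y * ‖ψ y‖ ^ 2) +
    (5 / 4 * C1 * g * N * ‖ψ y‖ ^ 2 + 2 * C1 * c0 * ∑ i, tr α m i ψ y)) := j2.add j34
  have j1234 : Integrable (fun y => g * (dyadicW J e y * ‖ψ y‖ ^ 2) +
    ((5 / 4 * C1 + 1 / 2) * (g * ∑ i, bw ν J i y * ‖ψ y‖ ^ 2) +
    (5 / 4 * C1 * g * N * ‖ψ y‖ ^ 2 + 2 * C1 * c0 * ∑ i, tr α m i ψ y))) := j1.add j234
  -- pointwise inequality
  have hpt : ∀ y : Fin N → X3, ∑ l ∈ Finset.range (J + 1), ∑ I : Finset (Fin N),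
      ({y : Fin N → X3 | PP ν (cc y) l I}.indicator (HH α m C1 c0 g J e ψ l I) y) ≤
      g * (dyadicW J e y * ‖ψ y‖ ^ 2) +
    ((5 / 4 * C1 + 1 / 2) * (g * ∑ i, bw ν J i y * ‖ψ y‖ ^ 2) +
    (5 / 4 * C1 * g * N * ‖ψ y‖ ^ 2 + 2 * C1 * c0 * ∑ i, tr α m i ψ y)) := by
    intro y
    set c := cc y with hc
    have hcr : ∀ j i k, c (j + 1) i = c (j + 1) k → c j i = c j k := cc_refine y
    set q := ‖ψ y‖ ^ 2 with hq
    have hq0 : 0 ≤ q := by positivity
    have e1 : ∀ l (I : Finset (Fin N)),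
        ({y : Fin N → X3 | PP ν (cc y) l I}.indicator (HH α m C1 c0 g J e ψ l I) y) =
        g * q * (if PP ν c l I then leafC c e l J I else 0) +
        (5 / 4 * C1 * g * q * (if PP ν c l I then ∑ _i ∈ I, (2 : ℝ) ^ l else 0) +
        2 * C1 * c0 * (if PP ν c l I then ∑ i ∈ I, tr α m i ψ y else 0)) := by
      intro l I
      by_cases h : PP ν c l I
      · have hmem : y ∈ {y : Fin N → X3 | PP ν (cc y) l I} := h
        rw [Set.indicator_of_mem hmem, if_pos h, if_pos h, if_pos h]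
        unfold HH
        rw [leafW_eq, Finset.sum_const, nsmul_eq_mul]
        ring
      · have hmem : y ∉ {y : Fin N → X3 | PP ν (cc y) l I} := h
        rw [Set.indicator_of_notMem hmem, if_neg h, if_neg h, if_neg h]
        ring
    simp_rw [e1, Finset.sum_add_distrib, ← Finset.mul_sum]
    rw [sum_leafC hcr hνm]
    simp_rw [sum_leaf_one hcr]
    -- the three sums
    have s1 : goodC ν c e J ≤ dyadicW J e y + 1 / 2 * ∑ i, bw ν J i y := by
      rw [dyadicW_eq]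
      have := tot_ge (ν := ν) (c := c) e he J
      unfold bw
      linarith
    have s2 : ∑ l ∈ Finset.range (J + 1), ∑ i, (if fg ν c l i then (2 : ℝ) ^ l else 0) ≤
        N + ∑ i, bw ν J i y := by
      rw [Finset.sum_comm]
      have h3 : (N : ℝ) + ∑ i, bw ν J i y = ∑ i : Fin N, (1 + bw ν J i y) := by
        rw [Finset.sum_add_distrib]
        simp
      rw [h3]
      exact Finset.sum_le_sum fun i _ => sum_pow_fg hcr hνm J i
    have s3 : ∑ l ∈ Finset.range (J + 1), ∑ i, (if fg ν c l i then tr α m i ψ y else 0) ≤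
        ∑ i, tr α m i ψ y := by
      rw [Finset.sum_comm]
      refine Finset.sum_le_sum fun i _ => ?_
      have h4 : ∑ l ∈ Finset.range (J + 1), (if fg ν c l i then tr α m i ψ y else 0) =
          tr α m i ψ y * ∑ l ∈ Finset.range (J + 1), (if fg ν c l i then (1 : ℝ) else 0) := by
        rw [Finset.mul_sum]
        refine Finset.sum_congr rfl fun l _ => ?_
        split_ifs <;> simp
      rw [h4]
      have h5 := sum_fg_le_one hcr hνm J i
      have h6 : 0 ≤ tr α m i ψ y := ENNReal.toReal_nonneg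
      exact mul_le_of_le_one_right h6 h5
    have h7 : ∑ i, bw ν J i y * q = (∑ i, bw ν J i y) * q := by rw [Finset.sum_mul]
    rw [h7]
    have hgq : 0 ≤ g * q := by positivity
    have t1 := mul_le_mul_of_nonneg_left s1 hgq
    have t2 := mul_le_mul_of_nonneg_left s2 (by positivity : 0 ≤ 5 / 4 * C1 * g * q)
    have t3 := mul_le_mul_of_nonneg_left s3 (by positivity : 0 ≤ 2 * C1 * c0)
    refine (add_le_add t1 (add_le_add t2 t3)).trans (le_of_eq ?_)
    ring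
  have hlpt : Integrable (fun y => ∑ l ∈ Finset.range (J + 1), ∑ I : Finset (Fin N),
      ({y : Fin N → X3 | PP ν (cc y) l I}.indicator (HH α m C1 c0 g J e ψ l I) y)) :=
    integrable_finsetSum _ fun l _ => integrable_finsetSum _ fun I _ =>
      (HH_int C1 c0 g J e he hψ h2 hd l I).indicator (meas_PP ν l I)
  have hfin := hpos.trans (integral_mono hlpt j1234 hpt)
  rw [integral_add j1 j234, integral_add j2 j34, integral_add j3 j4, integral_const_mul,
    integral_const_mul, integral_const_mul, integral_const_mul, integral_const_mul,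
    integral_finsetSum _ (fun i _ => i2 i), integral_finsetSum _ (fun i _ => i4 i)] at hfin
  simp_rw [fun i => tr_integral hψ (hd i)] at hfin
  linarith

end analysis

end

end Pool.Agent.H.MP_d1ae63_mp.Hi
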