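import Pool.Agent.H.MP_d1ae63_mp.Lower

/-!
# The potential energy is an absolutely convergent integral
-/

set_option autoImplicit false

open MeasureTheory Set Filter Topology
open scoped FourierTransform ENNReal Real InnerProductSpace

namespace Pool.Agent.H.MP_d1ae63_mp

/-- wave functions of finite kinetic energy have absolutely convergent potential energy -/
theorem integrable_coulomb_of_hier (α : ℝ) (hα : 1 < α) (m : ℕ) (hm : α < 2 * m)
    (h : HierarchicalStatement α m) {N : ℕ} (ψ : WaveFn N) (hψ : ‖ψ‖ = 1)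
    (hK : kinetic α ψ ≠ ∞) (e : Fin N → ℝ) :
    Integrable (fun x : Conf N => coulomb e x * ‖ψ x‖ ^ 2) volume := by
  obtain ⟨g₀, c, C3, hg₀, hc, hC3, H⟩ := all_param hα hm h
  obtain ⟨Ck, hCk, HK⟩ := diffFormAt_le_kineticAt α m (by linarith) hm
  have hα0 : 0 < α := by linarith
  set δ : ℝ := α / (α + 3) with hδ
  have hδ0 : 0 < δ := by positivity
  -- constants
  set g1 : ℝ := min g₀ (c ^ δ) with hg1
  have hg10 : 0 < g1 := lt_min hg₀ (by positivity)
  set A : ℝ := C3 * Ck with hA
  have hA0 : 0 < A := by positivity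
  set r1 : ℝ := (g1 / A) ^ (1 / (α - 1)) with hr1
  have hr10 : 0 < r1 := by positivity
  rcases Nat.eq_zero_or_pos N with hNz | hN
  · subst hNz
    unfold coulomb
    simp
  have hN0 : (0:ℝ) < N := by exact_mod_cast hN
  have hN1 : (1:ℝ) ≤ N := by exact_mod_cast hN
  set g : ℝ := g1 * (N:ℝ) ^ (-δ) with hg
  have hg0 : 0 < g := by positivity
  have hgg : g ≤ g₀ := by
    have h1 : (N:ℝ) ^ (-δ) ≤ 1 := Real.rpow_le_one_of_one_le_of_nonpos hN1 (by linarith)
    calc g ≤ g1 * 1 := by rw [hg]; gcongr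
      _ ≤ g₀ := by rw [mul_one]; exact min_le_left _ _
  have hNc : (N:ℝ) ≤ c * g ^ (-((α + 3) / α)) := by
    have e1 : (α + 3) / α = δ⁻¹ := by rw [hδ, inv_div]
    rw [e1, hg, Real.mul_rpow hg10.le (by positivity), ← Real.rpow_mul hN0.le]
    have e2 : -δ * -δ⁻¹ = 1 := by field_simp
    rw [e2, Real.rpow_one]
    have h2 : c⁻¹ ≤ g1 ^ (-δ⁻¹) := by
      have h3 : g1 ≤ c ^ δ := min_le_right _ _
      have h4 : (c ^ δ) ^ (-δ⁻¹) ≤ g1 ^ (-δ⁻¹) :=
        Real.rpow_le_rpow_of_nonpos hg10 h3 (by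
          have : 0 < δ⁻¹ := by positivity
          linarith)
      rw [← Real.rpow_mul hc.le] at h4
      have e3 : δ * -δ⁻¹ = -1 := by field_simp
      rwa [e3, Real.rpow_neg_one] at h4
    calc (N:ℝ) = c * c⁻¹ * N := by rw [mul_inv_cancel₀ hc.ne', one_mul]
      _ ≤ c * g1 ^ (-δ⁻¹) * N := by gcongr
      _ = _ := by ring
  set r : ℝ := r1 * (N:ℝ) ^ (-(δ / (α - 1))) with hr
  have hr0 : 0 < r := by positivity
  have hα1 : 0 < α - 1 := by linarith
  have hrα : r ^ (α - 1) = g / A := by
    rw [hr, Real.mul_rpow hr10.le (by positivity), ← Real.rpow_mul hN0.le, hr1,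
      ← Real.rpow_mul (by positivity)]
    have e1 : 1 / (α - 1) * (α - 1) = 1 := by field_simp
    have e2 : -(δ / (α - 1)) * (α - 1) = -δ := by field_simp
    rw [e1, e2, Real.rpow_one, hg]
    ring
  have hNr : C3 * N / r = C3 / r1 * (N:ℝ) ^ gam α := by
    have e1 : gam α = 1 + δ / (α - 1) := by
      unfold gam
      have h1 : α ^ 2 + 2 * α - 3 = (α - 1) * (α + 3) := by ring
      have h2 : α + 3 ≠ 0 := by positivity
      rw [h1, hδ]
      field_simp
      ring
    rw [e1, Real.rpow_add hN0, Real.rpow_one, hr, Real.rpow_neg hN0.le]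
    field_simp
  obtain ⟨V, hV1, hV2, hV3, hV4, hV5, hV6, hV7⟩ := H r hr0
  -- the wave function
  set f : Conf N → ℂ := fun x => ψ x with hf
  have hfm : Measurable f := (Lp.stronglyMeasurable ψ).measurable
  obtain ⟨hf2, hf1⟩ := L2_norm_one ψ hψ
  have hKi : ∀ i, kineticAt α i ψ ≠ ∞ := by
    intro i hi
    apply hK
    unfold kinetic
    exact ENNReal.sum_eq_top.2 ⟨i, Finset.mem_univ i, hi⟩
  have hDi : ∀ i, diffFormAt α m i f ≠ ∞ := fun i =>
    ne_top_of_le_ne_top (ENNReal.mul_ne_top ENNReal.ofReal_ne_top (hKi i)) (HK N i ψ)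
  have hDK : ∑ i, (diffFormAt α m i f).toReal ≤ Ck * (kinetic α ψ).toReal := by
    unfold kinetic
    rw [ENNReal.toReal_sum fun i _ => hKi i, Finset.mul_sum]
    refine Finset.sum_le_sum fun i _ => ?_
    have h1 := ENNReal.toReal_mono (ENNReal.mul_ne_top ENNReal.ofReal_ne_top (hKi i)) (HK N i ψ)
    rwa [ENNReal.toReal_mul, ENNReal.toReal_ofReal hCk.le] at h1
  set K : ℝ := (kinetic α ψ).toReal with hKdef
  have hK0 : 0 ≤ K := ENNReal.toReal_nonneg
  set W : ℝ := K + C3 * N / r with hW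
  have hVlow : ∀ (J : ℕ) (e : Fin N → ℝ), (∀ i, |e i| ≤ 1) → -W ≤
      ∫ x : Conf N, (∑ i : Fin N, ∑ k ∈ Finset.Ioi i, e i * e k * V J (x i - x k)) *
        ‖f x‖ ^ 2 := by
    intro J e he
    refine le_trans ?_ (hV7 g N hg0 hgg hNc J e he f hfm hf2 hf1 hDi)
    have h1 : C3 * r ^ (α - 1) / g = Ck⁻¹ := by
      rw [hrα, hA]; field_simp
    rw [h1, hW]
    have h2 : Ck⁻¹ * ∑ i, (diffFormAt α m i f).toReal ≤ K := by
      rw [inv_mul_le_iff₀ hCk]; exact hDK
    linarith
  -- integrability of the pair interactions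
  have hmeasV : ∀ (J : ℕ) (i k : Fin N), Measurable fun x : Conf N => V J (x i - x k) := by
    intro J i k
    refine (hV1 J).comp (Continuous.measurable ?_)
    exact (PiLp.continuous_apply 2 _ i).sub (PiLp.continuous_apply 2 _ k)
  have hVintg : ∀ (J : ℕ) (i k : Fin N),
      Integrable (fun x : Conf N => V J (x i - x k) * ‖f x‖ ^ 2) volume := by
    intro J i k
    obtain ⟨b, hb⟩ := hV3 J
    refine (hf2.const_mul b).mono'
      ((hmeasV J i k).mul (hfm.norm.pow_const 2)).aestronglyMeasurable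
      (Eventually.of_forall fun x => ?_)
    rw [Real.norm_eq_abs, abs_mul, abs_of_nonneg (hV2 _ _),
      abs_of_nonneg (by positivity : 0 ≤ ‖f x‖ ^ 2)]
    have := hb (x i - x k)
    gcongr
  have hne : ∀ (i k : Fin N), i ≠ k → ∀ᵐ x : Conf N, x i - x k ≠ 0 := by
    intro i k hik
    have h1 := volume_coincide hik
    rw [← compl_mem_ae_iff] at h1
    filter_upwards [h1] with x hx h2
    exact hx (sub_eq_zero.1 h2)
  have hpair : ∀ i k : Fin N, i < k →
      Integrable (fun x : Conf N => ‖x i - x k‖⁻¹ * ‖f x‖ ^ 2) volume := by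
    intro i k hik
    have hJ : ∀ J, ∫⁻ x : Conf N, ENNReal.ofReal (V J (x i - x k) * ‖f x‖ ^ 2) ≤
        ENNReal.ofReal W := by
      intro J
      rw [← ofReal_integral_eq_lintegral_ofReal (hVintg J i k)
        (Eventually.of_forall fun x => mul_nonneg (hV2 _ _) (by positivity))]
      refine ENNReal.ofReal_le_ofReal ?_
      have h1 := hVlow J (fun a => (if a = i then (1:ℝ) else 0) - (if a = k then 1 else 0)) (by
        intro a
        by_cases h1 : a = i
        · subst h1; rw [if_pos rfl, if_neg hik.ne]; norm_num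
        · rw [if_neg h1]; split_ifs <;> norm_num)
      have h2 : ∀ x : Conf N, (∑ a : Fin N, ∑ b ∈ Finset.Ioi a,
          ((if a = i then (1:ℝ) else 0) - (if a = k then 1 else 0)) *
          ((if b = i then (1:ℝ) else 0) - (if b = k then 1 else 0)) * V J (x a - x b)) *
          ‖f x‖ ^ 2 = -(V J (x i - x k) * ‖f x‖ ^ 2) := by
        intro x
        rw [pair_sum i k hik (fun a b => V J (x a - x b))]; ring
      simp_rw [h2] at h1
      rw [integral_neg] at h1
      linarith
    have hlim := lintegral_tendsto_of_tendsto_of_monotone (μ := (volume : Measure (Conf N)))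
      (f := fun J x => ENNReal.ofReal (V J (x i - x k) * ‖f x‖ ^ 2))
      (F := fun x => ENNReal.ofReal (‖x i - x k‖⁻¹ * ‖f x‖ ^ 2))
      (fun J => ((hmeasV J i k).mul (hfm.norm.pow_const 2)).ennreal_ofReal.aemeasurable)
      (Eventually.of_forall fun x J J' hJJ => ENNReal.ofReal_le_ofReal
        (mul_le_mul_of_nonneg_right (hV6 _ hJJ) (by positivity)))
      (by
        filter_upwards [hne i k hik.ne] with x hx
        exact (ENNReal.continuous_ofReal.tendsto _).comp ((hV5 _ hx).mul_const _))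
    have hle := le_of_tendsto' hlim hJ
    refine ⟨?_, ?_⟩
    · refine Measurable.aestronglyMeasurable ?_
      refine Measurable.mul ?_ (hfm.norm.pow_const 2)
      have h1 : Continuous fun x : Conf N => x i - x k :=
        (PiLp.continuous_apply 2 _ i).sub (PiLp.continuous_apply 2 _ k)
      exact h1.norm.measurable.inv
    · rw [hasFiniteIntegral_iff_ofReal (Eventually.of_forall fun x => by positivity)]
      exact lt_of_le_of_lt hle ENNReal.ofReal_lt_top
  have hsum : Integrable (fun x : Conf N =>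
      ∑ i : Fin N, ∑ k ∈ Finset.Ioi i, e i * e k * (‖x i - x k‖⁻¹ * ‖f x‖ ^ 2)) volume :=
    integrable_finsetSum _ fun i _ => integrable_finsetSum _ fun k hk =>
      (hpair i k (Finset.mem_Ioi.1 hk)).const_mul _
  refine hsum.congr (Eventually.of_forall fun x => ?_)
  unfold coulomb
  beta_reduce
  rw [Finset.sum_mul]
  refine Finset.sum_congr rfl fun i _ => ?_
  rw [Finset.sum_mul]
  refine Finset.sum_congr rfl fun k _ => ?_
  rw [div_eq_mul_inv, hf]
  ring

end Pool.Agent.H.MP_d1ae63_mp
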