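import Pool.Agent.H.MP_d1ae63_mp.Defs

set_option autoImplicit false

open MeasureTheory Filter Topology
open scoped ENNReal Real InnerProductSpace

namespace Pool.Agent.H.MP_d1ae63_mp

noncomputable section

/-- `L²(ℝ^{3N})` in the dyadic model -/
abbrev HN (N : ℕ) : Type := Lp ℂ 2 (volume : Measure (Fin N → X3))

/-- admissible one-particle kernels: measurable, bounded by `K`, supported in `B × B` -/
structure KernelOn (B : Set X3) (K : ℝ) (k : X3 → X3 → ℝ) : Prop where
  meas : Measurable (Function.uncurry k)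
  bound : ∀ x u, |k x u| ≤ K
  supp : ∀ x u, ¬ (x ∈ B ∧ u ∈ B) → k x u = 0

/-! ### replacing one coordinate -/

/-- replace the `i`-th coordinate and remember the old one -/
def swp {N : ℕ} (i : Fin N) (p : (Fin N → X3) × X3) : (Fin N → X3) × X3 :=
  (Function.update p.1 i p.2, p.1 i)

lemma measurable_upd {N : ℕ} (i : Fin N) :
    Measurable (fun p : (Fin N → X3) × X3 => Function.update p.1 i p.2) :=
  measurable_update'

lemma measurable_swp {N : ℕ} (i : Fin N) : Measurable (swp i) :=
  (measurable_upd i).prodMk ((measurable_pi_apply i).comp measurable_fst)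

lemma lintegral_swp {N : ℕ} (i : Fin N) {G : (Fin N → X3) × X3 → ℝ≥0∞} (hG : Measurable G) :
    ∫⁻ y, ∫⁻ u, G (Function.update y i u, y i) = ∫⁻ y, ∫⁻ u, G (y, u) := by
  have h1 : Measurable fun y : Fin N → X3 => ∫⁻ u : X3, G (Function.update y i u, y i) :=
    (hG.comp (measurable_swp i)).lintegral_prod_right'
  have h2 : Measurable fun y : Fin N → X3 => ∫⁻ u : X3, G (y, u) := hG.lintegral_prod_right'
  rw [volume_pi, lintegral_eq_lmarginal_univ (μ := fun _ : Fin N => (volume : Measure X3)) 0,
    lintegral_eq_lmarginal_univ (μ := fun _ : Fin N => (volume : Measure X3)) 0,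
    lmarginal_erase' _ h1 (Finset.mem_univ i), lmarginal_erase' _ h2 (Finset.mem_univ i)]
  congr 1
  funext y
  simp only [Function.update_idem, Function.update_self]
  refine lintegral_lintegral_swap ?_
  exact (hG.comp ((measurable_upd i).comp (measurable_const.prodMk measurable_snd)
    |>.prodMk measurable_fst)).aemeasurable

lemma measurePreserving_swp {N : ℕ} (i : Fin N) :
    MeasurePreserving (swp i) ((volume : Measure (Fin N → X3)).prod (volume : Measure X3))
      ((volume : Measure (Fin N → X3)).prod (volume : Measure X3)) := by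
  refine ⟨measurable_swp i, Measure.ext_of_lintegral _ fun G hG => ?_⟩
  have h := lintegral_prod (μ := (volume : Measure (Fin N → X3))) (ν := (volume : Measure X3))
    (fun p => G (swp i p)) (hG.comp (measurable_swp i)).aemeasurable
  rw [lintegral_map hG (measurable_swp i), lintegral_prod _ hG.aemeasurable, h]
  exact lintegral_swp i hG

lemma swp_swp {N : ℕ} (i : Fin N) (p : (Fin N → X3) × X3) : swp i (swp i p) = p := by
  simp [swp]

lemma quasi_upd {N : ℕ} (i : Fin N) :
    Measure.QuasiMeasurePreserving (fun p : (Fin N → X3) × X3 => Function.update p.1 i p.2)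
      ((volume : Measure (Fin N → X3)).prod (volume : Measure X3)) volume :=
  Measure.quasiMeasurePreserving_fst.comp (measurePreserving_swp i).quasiMeasurePreserving

lemma ae_upd {N : ℕ} (i : Fin N) {p : (Fin N → X3) → Prop} (h : ∀ᵐ y, p y) :
    ∀ᵐ y : Fin N → X3, ∀ᵐ u : X3, p (Function.update y i u) :=
  Measure.ae_ae_of_ae_prod ((quasi_upd i).ae h)

/-! ### the basic estimate -/

lemma lintegral_sq_le {α : Type*} [MeasurableSpace α] (μ : Measure α) {g : α → ℝ≥0∞}
    (hg : AEMeasurable g μ) : (∫⁻ u, g u ∂μ) ^ 2 ≤ μ Set.univ * ∫⁻ u, g u ^ 2 ∂μ := by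
  have h := ENNReal.lintegral_mul_le_Lp_mul_Lq μ Real.HolderConjugate.two_two
    (f := fun _ => 1) (g := g) aemeasurable_const hg
  simp only [Pi.mul_apply, one_mul, ENNReal.one_rpow, lintegral_const, one_mul] at h
  have h2 := pow_le_pow_left₀ zero_le h 2
  rw [mul_pow, ← ENNReal.rpow_natCast (_ ^ (1 / (2:ℝ))) 2, ← ENNReal.rpow_natCast (_ ^ (1 / (2:ℝ))) 2,
    ← ENNReal.rpow_mul, ← ENNReal.rpow_mul] at h2
  norm_num at h2
  exact h2


/-- the nonnegative operator with kernel `|k|` -/
def absop {N : ℕ} (i : Fin N) (k : X3 → X3 → ℝ) (h : (Fin N → X3) → ℝ≥0∞) (y : Fin N → X3) :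
    ℝ≥0∞ :=
  ∫⁻ u, ‖k (y i) u‖ₑ * h (Function.update y i u)

lemma measurable_ker {N : ℕ} (i : Fin N) {k : X3 → X3 → ℝ} (hk : Measurable (Function.uncurry k)) :
    Measurable fun p : (Fin N → X3) × X3 => k (p.1 i) p.2 := by
  have h : Measurable fun p : (Fin N → X3) × X3 => (p.1 i, p.2) :=
    ((measurable_pi_apply i).comp measurable_fst).prodMk measurable_snd
  exact hk.comp h

lemma measurable_absop {N : ℕ} (i : Fin N) {k : X3 → X3 → ℝ}
    (hk : Measurable (Function.uncurry k)) {h : (Fin N → X3) → ℝ≥0∞} (hh : Measurable h) :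
    Measurable (absop i k h) := by
  have : Measurable fun p : (Fin N → X3) × X3 =>
      ‖k (p.1 i) p.2‖ₑ * h (Function.update p.1 i p.2) :=
    (measurable_ker i hk).enorm.mul (hh.comp (measurable_upd i))
  exact this.lintegral_prod_right'

variable {N : ℕ} {B B' : Set X3} {K K' : ℝ} {k k' : X3 → X3 → ℝ}

lemma absop_sq_le (i : Fin N) (hB : MeasurableSet B) (hk : KernelOn B K k)
    {h : (Fin N → X3) → ℝ≥0∞} (hh : Measurable h) (y : Fin N → X3) :
    absop i k h y ^ 2 ≤ ENNReal.ofReal (K ^ 2) * volume B *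
      (B.indicator (fun _ => 1) (y i) * ∫⁻ u in B, h (Function.update y i u) ^ 2) := by
  by_cases hy : y i ∈ B
  · have hm : Measurable fun u : X3 => h (Function.update y i u) :=
      hh.comp ((measurable_upd i).comp (measurable_const.prodMk measurable_id))
    have h1 : absop i k h y ≤ ENNReal.ofReal K * ∫⁻ u in B, h (Function.update y i u) := by
      rw [← lintegral_const_mul _ hm, ← lintegral_indicator hB]
      refine lintegral_mono fun u => ?_
      by_cases hu : u ∈ B
      · rw [Set.indicator_of_mem hu]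
        refine mul_le_mul_left ?_ _
        rw [← ofReal_norm]
        exact ENNReal.ofReal_le_ofReal (hk.bound _ _)
      · rw [Set.indicator_of_notMem hu, hk.supp _ _ (fun h => hu h.2)]
        simp
    refine (pow_le_pow_left₀ zero_le h1 2).trans ?_
    rw [mul_pow, Set.indicator_of_mem hy, one_mul, mul_assoc,
      ENNReal.ofReal_pow ((abs_nonneg _).trans (hk.bound 0 0))]
    refine mul_le_mul_right ?_ _
    refine (lintegral_sq_le _ hm.aemeasurable).trans ?_
    rw [Measure.restrict_apply_univ]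
  · have : absop i k h y = 0 := by
      unfold absop
      rw [lintegral_eq_zero_iff' ?_]
      · filter_upwards with u
        rw [hk.supp _ _ (fun h => hy h.1)]
        simp
      · exact ((measurable_ker i hk.meas).comp
          (measurable_const.prodMk measurable_id)).enorm.aemeasurable.mul
          (hh.comp ((measurable_upd i).comp (measurable_const.prodMk measurable_id))).aemeasurable
    rw [this]
    simp

lemma absop_bound (i : Fin N) (hB : MeasurableSet B) (hk : KernelOn B K k)
    {h : (Fin N → X3) → ℝ≥0∞} (hh : Measurable h) {Q : Set X3} (hQ : MeasurableSet Q) :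
    ∫⁻ y in {y | y i ∈ Q}, absop i k h y ^ 2
      ≤ ENNReal.ofReal (K ^ 2) * volume B * volume (Q ∩ B) * ∫⁻ y, h y ^ 2 := by
  have hQm : MeasurableSet {y : Fin N → X3 | y i ∈ Q} := measurable_pi_apply i hQ
  rw [← lintegral_indicator hQm]
  set G : (Fin N → X3) × X3 → ℝ≥0∞ := fun p =>
    (Q ∩ B).indicator (fun _ => 1) p.2 * (B.indicator (fun _ => 1) (p.1 i) * h p.1 ^ 2) with hG
  have hGm : Measurable G := by
    have m1 : Measurable fun p : (Fin N → X3) × X3 =>
        ((Q ∩ B).indicator (fun _ => 1) p.2 : ℝ≥0∞) :=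
      (measurable_const.indicator (hQ.inter hB)).comp measurable_snd
    have m2 : Measurable fun p : (Fin N → X3) × X3 =>
        (B.indicator (fun _ => 1) (p.1 i) : ℝ≥0∞) :=
      (measurable_const.indicator hB).comp ((measurable_pi_apply i).comp measurable_fst)
    exact m1.mul (m2.mul ((hh.comp measurable_fst).pow_const 2))
  have key : ∀ y : Fin N → X3, Set.indicator {y : Fin N → X3 | y i ∈ Q}
      (fun y => absop i k h y ^ 2) y ≤ ENNReal.ofReal (K ^ 2) * volume B *
        ∫⁻ u, G (Function.update y i u, y i) := by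
    intro y
    by_cases hy : y i ∈ Q
    · rw [Set.indicator_of_mem (show y ∈ {y : Fin N → X3 | y i ∈ Q} from hy)]
      refine (absop_sq_le i hB hk hh y).trans (mul_le_mul_right (le_of_eq ?_) _)
      simp only [hG, Function.update_self]
      have m3 : Measurable fun u : X3 =>
          (B.indicator (fun _ => 1) u : ℝ≥0∞) * h (Function.update y i u) ^ 2 :=
        (measurable_const.indicator hB).mul
          ((hh.comp ((measurable_upd i).comp (measurable_const.prodMk measurable_id))).pow_const 2)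
      rw [lintegral_const_mul _ m3, ← lintegral_indicator hB]
      congr 1
      · by_cases hyB : y i ∈ B
        · rw [Set.indicator_of_mem hyB, Set.indicator_of_mem (show y i ∈ Q ∩ B from ⟨hy, hyB⟩)]
        · rw [Set.indicator_of_notMem hyB, Set.indicator_of_notMem fun h => hyB h.2]
      · refine lintegral_congr fun u => ?_
        by_cases hu : u ∈ B
        · simp [Set.indicator_of_mem hu]
        · simp [Set.indicator_of_notMem hu]
    · rw [Set.indicator_of_notMem (show y ∉ {y : Fin N → X3 | y i ∈ Q} from hy)]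
      exact zero_le
  refine (lintegral_mono key).trans ?_
  have m4 : Measurable fun y : Fin N → X3 => ∫⁻ u : X3, G (Function.update y i u, y i) :=
    (hGm.comp (measurable_swp i)).lintegral_prod_right'
  rw [lintegral_const_mul _ m4, lintegral_swp i hGm, mul_assoc (ENNReal.ofReal (K ^ 2) * volume B)]
  refine mul_le_mul_right ?_ _
  rw [← lintegral_const_mul _ (hh.pow_const 2)]
  refine lintegral_mono fun y => ?_
  simp only [hG]
  rw [lintegral_mul_const _ (measurable_const.indicator (hQ.inter hB))]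
  rw [lintegral_indicator (hQ.inter hB)]
  simp only [lintegral_const, one_mul, Measure.restrict_apply_univ]
  refine mul_le_mul_right ?_ _
  by_cases hyB : y i ∈ B
  · simp [Set.indicator_of_mem hyB]
  · simp [Set.indicator_of_notMem hyB]

/-! ### square integrable functions -/

lemma eLpNorm_two_sq {α : Type*} [MeasurableSpace α] {μ : Measure α} (f : α → ℂ) :
    eLpNorm f 2 μ ^ 2 = ∫⁻ y, ‖f y‖ₑ ^ 2 ∂μ := by
  have h := eLpNorm_nnreal_pow_eq_lintegral (μ := μ) (f := f) (p := 2) two_ne_zero
  simpa [ENNReal.rpow_two] using h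

lemma memLp_two_iff {α : Type*} [MeasurableSpace α] {μ : Measure α} {f : α → ℂ}
    (hf : AEStronglyMeasurable f μ) : MemLp f 2 μ ↔ ∫⁻ y, ‖f y‖ₑ ^ 2 ∂μ < ∞ := by
  rw [← eLpNorm_two_sq]
  constructor
  · intro h
    exact ENNReal.pow_lt_top h.2
  · intro h
    exact ⟨hf, (ENNReal.pow_lt_top_iff.1 h).resolve_right two_ne_zero⟩

lemma HN_sq_lt_top {N : ℕ} (f : HN N) : ∫⁻ y, ‖f y‖ₑ ^ 2 < ∞ :=
  (memLp_two_iff (Lp.aestronglyMeasurable f)).1 (Lp.memLp f)

lemma HN_norm_sq {N : ℕ} (f : HN N) : ‖f‖ ^ 2 = (∫⁻ y, ‖f y‖ₑ ^ 2).toReal := by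
  rw [Lp.norm_def, ← ENNReal.toReal_pow, eLpNorm_two_sq]

/-! ### the operator on functions -/

/-- the integral defining `kop` -/
def kfun {N : ℕ} (i : Fin N) (k : X3 → X3 → ℝ) (f : (Fin N → X3) → ℂ) (y : Fin N → X3) : ℂ :=
  ∫ u, (k (y i) u : ℂ) * f (Function.update y i u)

lemma stronglyMeasurable_integrand {N : ℕ} (i : Fin N) {k : X3 → X3 → ℝ}
    (hk : Measurable (Function.uncurry k)) {f : (Fin N → X3) → ℂ} (hf : Measurable f) :
    StronglyMeasurable fun p : (Fin N → X3) × X3 =>
      (k (p.1 i) p.2 : ℂ) * f (Function.update p.1 i p.2) :=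
  ((Complex.measurable_ofReal.comp (measurable_ker i hk)).mul
    (hf.comp (measurable_upd i))).stronglyMeasurable

lemma stronglyMeasurable_kfun {N : ℕ} (i : Fin N) {k : X3 → X3 → ℝ}
    (hk : Measurable (Function.uncurry k)) {f : (Fin N → X3) → ℂ} (hf : Measurable f) :
    StronglyMeasurable (kfun i k f) :=
  (stronglyMeasurable_integrand i hk hf).integral_prod_right

lemma enorm_integrand {N : ℕ} (i : Fin N) (k : X3 → X3 → ℝ) (f : (Fin N → X3) → ℂ)
    (y : Fin N → X3) (u : X3) : ‖(k (y i) u : ℂ) * f (Function.update y i u)‖ₑ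
      = ‖k (y i) u‖ₑ * ‖f (Function.update y i u)‖ₑ := by
  rw [enorm_mul]
  congr 1
  rw [← ofReal_norm, ← ofReal_norm, Complex.norm_real]

lemma enorm_kfun_le {N : ℕ} (i : Fin N) (k : X3 → X3 → ℝ) (f : (Fin N → X3) → ℂ)
    (y : Fin N → X3) : ‖kfun i k f y‖ₑ ≤ absop i k (fun y => ‖f y‖ₑ) y := by
  refine (enorm_integral_le_lintegral_enorm _).trans (le_of_eq ?_)
  simp only [enorm_integrand, absop]

lemma ae_absop_lt_top (i : Fin N) (hB : MeasurableSet B) (hBf : volume B < ∞)
    (hk : KernelOn B K k) {h : (Fin N → X3) → ℝ≥0∞} (hh : Measurable h)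
    (hf : ∫⁻ y, h y ^ 2 < ∞) : ∀ᵐ y, absop i k h y < ∞ := by
  have h1 := absop_bound i hB hk hh MeasurableSet.univ
  simp only [Set.mem_univ, Set.ofPred_true, Measure.restrict_univ, Set.univ_inter] at h1
  have h2 : ∫⁻ y, absop i k h y ^ 2 < ∞ := by
    refine h1.trans_lt ?_
    exact ENNReal.mul_lt_top (ENNReal.mul_lt_top (ENNReal.mul_lt_top ENNReal.ofReal_lt_top hBf)
      hBf) hf
  filter_upwards [ae_lt_top ((measurable_absop i hk.meas hh).pow_const 2) h2.ne] with y hy
  exact (ENNReal.pow_lt_top_iff.1 hy).resolve_right two_ne_zero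

lemma ae_integrable (i : Fin N) (hB : MeasurableSet B) (hBf : volume B < ∞)
    (hk : KernelOn B K k) {f : (Fin N → X3) → ℂ} (hf : Measurable f)
    (hf2 : ∫⁻ y, ‖f y‖ₑ ^ 2 < ∞) :
    ∀ᵐ y : Fin N → X3, Integrable fun u => (k (y i) u : ℂ) * f (Function.update y i u) := by
  filter_upwards [ae_absop_lt_top i hB hBf hk hf.enorm hf2] with y hy
  refine ⟨((stronglyMeasurable_integrand i hk.meas hf).comp_measurable
    (measurable_const.prodMk measurable_id : Measurable fun u : X3 => (y, u))).aestronglyMeasurable,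
    ?_⟩
  change ∫⁻ u, ‖(k (y i) u : ℂ) * f (Function.update y i u)‖ₑ < ∞
  simp only [enorm_integrand]
  exact hy

lemma kfun_bound (i : Fin N) (hB : MeasurableSet B) (hk : KernelOn B K k)
    {f : (Fin N → X3) → ℂ} (hf : Measurable f) {Q : Set X3} (hQ : MeasurableSet Q) :
    ∫⁻ y in {y | y i ∈ Q}, ‖kfun i k f y‖ₑ ^ 2
      ≤ ENNReal.ofReal (K ^ 2) * volume B * volume (Q ∩ B) * ∫⁻ y, ‖f y‖ₑ ^ 2 := by
  refine le_trans (lintegral_mono fun y => ?_) (absop_bound i hB hk hf.enorm hQ)
  exact pow_le_pow_left₀ zero_le (enorm_kfun_le i k f y) 2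

lemma kfun_bound_univ (i : Fin N) (hB : MeasurableSet B) (hk : KernelOn B K k)
    {f : (Fin N → X3) → ℂ} (hf : Measurable f) :
    ∫⁻ y, ‖kfun i k f y‖ₑ ^ 2
      ≤ ENNReal.ofReal (K ^ 2) * volume B * volume B * ∫⁻ y, ‖f y‖ₑ ^ 2 := by
  have h1 := kfun_bound i hB hk hf MeasurableSet.univ
  simpa only [Set.mem_univ, Set.ofPred_true, Measure.restrict_univ, Set.univ_inter] using h1

lemma memLp_kfun (i : Fin N) (hB : MeasurableSet B) (hBf : volume B < ∞) (hk : KernelOn B K k)
    {f : (Fin N → X3) → ℂ} (hf : Measurable f) (hf2 : ∫⁻ y, ‖f y‖ₑ ^ 2 < ∞) :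
    MemLp (kfun i k f) 2 volume := by
  rw [memLp_two_iff (stronglyMeasurable_kfun i hk.meas hf).aestronglyMeasurable]
  refine (kfun_bound_univ i hB hk hf).trans_lt ?_
  exact ENNReal.mul_lt_top (ENNReal.mul_lt_top (ENNReal.mul_lt_top ENNReal.ofReal_lt_top hBf)
      hBf) hf2

lemma kfun_congr (i : Fin N) (k : X3 → X3 → ℝ) {f g : (Fin N → X3) → ℂ}
    (h : f =ᵐ[volume] g) : kfun i k f =ᵐ[volume] kfun i k g := by
  filter_upwards [ae_upd i h] with y hy
  refine integral_congr_ae ?_
  filter_upwards [hy] with u hu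
  rw [hu]

lemma HN_measurable (f : HN N) : Measurable (f : (Fin N → X3) → ℂ) :=
  (Lp.stronglyMeasurable f).measurable

/-- the linear map on `L²` -/
def kopLin (i : Fin N) (k : X3 → X3 → ℝ) (B : Set X3) (K : ℝ) (hB : MeasurableSet B)
    (hBf : volume B < ∞) (hk : KernelOn B K k) : HN N →ₗ[ℂ] HN N where
  toFun f := (memLp_kfun i hB hBf hk (HN_measurable f) (HN_sq_lt_top f)).toLp
  map_add' f g := by
    rw [← MemLp.toLp_add, MemLp.toLp_eq_toLp_iff]
    refine (kfun_congr i k (Lp.coeFn_add f g)).trans ?_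
    filter_upwards [ae_integrable i hB hBf hk (HN_measurable f) (HN_sq_lt_top f),
      ae_integrable i hB hBf hk (HN_measurable g) (HN_sq_lt_top g)] with y h1 h2
    simp only [Pi.add_apply, kfun]
    rw [← integral_add h1 h2]
    simp only [mul_add]
  map_smul' c f := by
    simp only [RingHom.id_apply]
    rw [← MemLp.toLp_const_smul, MemLp.toLp_eq_toLp_iff]
    refine (kfun_congr i k (Lp.coeFn_smul c f)).trans ?_
    filter_upwards with y
    simp only [Pi.smul_apply, kfun, smul_eq_mul]
    rw [← integral_const_mul]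
    congr 1
    funext u
    ring

lemma kopLin_apply (i : Fin N) (hB : MeasurableSet B)
    (hBf : volume B < ∞) (hk : KernelOn B K k) (f : HN N) :
    (kopLin i k B K hB hBf hk f : (Fin N → X3) → ℂ) =ᵐ[volume] kfun i k f :=
  MemLp.coeFn_toLp (memLp_kfun i hB hBf hk (HN_measurable f) (HN_sq_lt_top f))

lemma kopLin_bound (i : Fin N) (hB : MeasurableSet B)
    (hBf : volume B < ∞) (hk : KernelOn B K k) (f : HN N) :
    ‖kopLin i k B K hB hBf hk f‖
      ≤ Real.sqrt (ENNReal.ofReal (K ^ 2) * volume B * volume B).toReal * ‖f‖ := by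
  refine abs_le_of_sq_le_sq' ?_ (by positivity) |>.2
  rw [mul_pow, Real.sq_sqrt ENNReal.toReal_nonneg, HN_norm_sq, HN_norm_sq, ← ENNReal.toReal_mul]
  refine ENNReal.toReal_mono ?_ ?_
  · exact (ENNReal.mul_lt_top (ENNReal.mul_lt_top (ENNReal.mul_lt_top ENNReal.ofReal_lt_top hBf)
      hBf) (HN_sq_lt_top f)).ne
  · refine le_trans (le_of_eq (lintegral_congr_ae ?_)) (kfun_bound_univ i hB hk (HN_measurable f))
    filter_upwards [kopLin_apply i hB hBf hk f] with y hy
    rw [hy]

open Classical in
/-- the operator with kernel `k` acting on the `i`-th particle -/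
def kop {N : ℕ} (i : Fin N) (k : X3 → X3 → ℝ) : HN N →L[ℂ] HN N :=
  if h : ∃ (B : Set X3) (K : ℝ), MeasurableSet B ∧ volume B < ∞ ∧ KernelOn B K k then
    (kopLin i k h.choose h.choose_spec.choose h.choose_spec.choose_spec.1
      h.choose_spec.choose_spec.2.1 h.choose_spec.choose_spec.2.2).mkContinuous _
      (kopLin_bound i h.choose_spec.choose_spec.1
      h.choose_spec.choose_spec.2.1 h.choose_spec.choose_spec.2.2)
  else 0

theorem kop_apply' (i : Fin N) (hB : MeasurableSet B) (hBf : volume B < ∞) (hk : KernelOn B K k)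
    (f : HN N) : (kop i k f : (Fin N → X3) → ℂ) =ᵐ[volume] kfun i k f := by
  have h : ∃ (B : Set X3) (K : ℝ), MeasurableSet B ∧ volume B < ∞ ∧ KernelOn B K k :=
    ⟨B, K, hB, hBf, hk⟩
  have e : kop i k = (kopLin i k h.choose h.choose_spec.choose h.choose_spec.choose_spec.1
      h.choose_spec.choose_spec.2.1 h.choose_spec.choose_spec.2.2).mkContinuous _
      (kopLin_bound i h.choose_spec.choose_spec.1
      h.choose_spec.choose_spec.2.1 h.choose_spec.choose_spec.2.2) := by
    unfold kop
    rw [dif_pos h]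
  rw [e, LinearMap.mkContinuous_apply]
  exact kopLin_apply _ _ _ _ _

theorem kop_apply (i : Fin N) (hB : MeasurableSet B) (hBf : volume B < ∞) (hk : KernelOn B K k)
    (f : HN N) :
    (kop i k f : (Fin N → X3) → ℂ) =ᵐ[volume]
      fun y => ∫ u, (k (y i) u : ℂ) * f (Function.update y i u) :=
  kop_apply' i hB hBf hk f

theorem kop_bound (i : Fin N) (hB : MeasurableSet B) (hBf : volume B < ∞) (hk : KernelOn B K k)
    (f : HN N) (Q : Set X3) (hQ : MeasurableSet Q) :
    ∫⁻ y in {y | y i ∈ Q}, ‖(kop i k f : (Fin N → X3) → ℂ) y‖ₑ ^ 2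
      ≤ ENNReal.ofReal (K ^ 2) * volume B * volume (Q ∩ B) * ∫⁻ y, ‖f y‖ₑ ^ 2 := by
  refine le_trans (le_of_eq (lintegral_congr_ae ?_)) (kfun_bound i hB hk (HN_measurable f) hQ)
  filter_upwards [ae_restrict_of_ae (kop_apply' i hB hBf hk f)] with y hy
  rw [hy]

/-! ### adjoint and commutation -/

lemma KernelOn.swap (hk : KernelOn B K k) : KernelOn B K (fun x u => k u x) where
  meas := hk.meas.comp measurable_swap
  bound x u := hk.bound u x
  supp x u h := hk.supp u x fun h' => h ⟨h'.2, h'.1⟩

lemma ennreal_mul_le (a b : ℝ≥0∞) : a * b ≤ a ^ 2 + b ^ 2 := by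
  rcases le_total a b with h | h
  · calc a * b ≤ b * b := mul_le_mul_left h b
      _ = b ^ 2 := (sq b).symm
      _ ≤ a ^ 2 + b ^ 2 := le_add_self
  · calc a * b ≤ a * a := mul_le_mul_right h a
      _ = a ^ 2 := (sq a).symm
      _ ≤ a ^ 2 + b ^ 2 := le_self_add

lemma integrable_pair (i : Fin N) (hB : MeasurableSet B) (hBf : volume B < ∞)
    (hk : KernelOn B K k) {f g : (Fin N → X3) → ℂ} (hf : Measurable f) (hg : Measurable g)
    (hf2 : ∫⁻ y, ‖f y‖ₑ ^ 2 < ∞) (hg2 : ∫⁻ y, ‖g y‖ₑ ^ 2 < ∞) :
    Integrable (fun p : (Fin N → X3) × X3 => ((k (p.1 i) p.2 : ℂ) * g (Function.update p.1 i p.2))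
      * (starRingEnd ℂ) (f p.1)) ((volume : Measure (Fin N → X3)).prod volume) := by
  have hm : Measurable fun p : (Fin N → X3) × X3 =>
      ((k (p.1 i) p.2 : ℂ) * g (Function.update p.1 i p.2)) * (starRingEnd ℂ) (f p.1) :=
    (stronglyMeasurable_integrand i hk.meas hg).measurable.mul
      (Complex.continuous_conj.measurable.comp (hf.comp measurable_fst))
  refine ⟨hm.aestronglyMeasurable, ?_⟩
  change ∫⁻ p, ‖_‖ₑ ∂_ < ∞
  rw [lintegral_prod _ hm.enorm.aemeasurable]
  have e : ∀ y : Fin N → X3, ∫⁻ u : X3, ‖((k (y i) u : ℂ) * g (Function.update y i u))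
      * (starRingEnd ℂ) (f y)‖ₑ = absop i k (fun y => ‖g y‖ₑ) y * ‖f y‖ₑ := by
    intro y
    simp only [enorm_mul (_ * _) ((starRingEnd ℂ) (f y)), enorm_integrand]
    rw [lintegral_mul_const]
    · congr 1
      rw [← ofReal_norm, ← ofReal_norm, RCLike.norm_conj]
    · exact ((measurable_ker i hk.meas).comp
          (measurable_const.prodMk measurable_id)).enorm.mul
          (hg.comp ((measurable_upd i).comp (measurable_const.prodMk measurable_id))).enorm
  simp only [e]
  refine lt_of_le_of_lt (lintegral_mono fun y => ennreal_mul_le _ _) ?_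
  rw [lintegral_add_right _ (hf.enorm.pow_const 2)]
  refine ENNReal.add_lt_top.2 ⟨?_, hf2⟩
  have h1 := absop_bound i hB hk hg.enorm MeasurableSet.univ
  simp only [Set.mem_univ, Set.ofPred_true, Measure.restrict_univ, Set.univ_inter] at h1
  refine h1.trans_lt ?_
  exact ENNReal.mul_lt_top (ENNReal.mul_lt_top (ENNReal.mul_lt_top ENNReal.ofReal_lt_top hBf)
      hBf) hg2

theorem kop_adjoint (i : Fin N) (hB : MeasurableSet B) (hBf : volume B < ∞)
    (hk : KernelOn B K k) :
    ContinuousLinearMap.adjoint (kop i k : HN N →L[ℂ] HN N) = kop i (fun x u => k u x) := by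
  refine ((ContinuousLinearMap.eq_adjoint_iff _ _).2 fun f g => ?_).symm
  rw [L2.inner_def, L2.inner_def]
  have hfm := HN_measurable f
  have hgm := HN_measurable g
  have e1 : ∫ y, ⟪(kop i (fun x u => k u x) f : HN N) y, g y⟫_ℂ
      = ∫ y, ⟪kfun i (fun x u => k u x) f y, g y⟫_ℂ := by
    refine integral_congr_ae ?_
    filter_upwards [kop_apply' i hB hBf hk.swap f] with y hy
    rw [hy]
  have e2 : ∫ y, ⟪f y, (kop i k g : HN N) y⟫_ℂ = ∫ y, ⟪f y, kfun i k g y⟫_ℂ := by
    refine integral_congr_ae ?_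
    filter_upwards [kop_apply' i hB hBf hk g] with y hy
    rw [hy]
  rw [e1, e2]
  set H : (Fin N → X3) × X3 → ℂ := fun p => ((k (p.1 i) p.2 : ℂ) *
    g (Function.update p.1 i p.2)) * (starRingEnd ℂ) (f p.1) with hH
  have hint : Integrable H ((volume : Measure (Fin N → X3)).prod volume) :=
    integrable_pair i hB hBf hk hfm hgm (HN_sq_lt_top f) (HN_sq_lt_top g)
  have e3 : ∫ y, ⟪f y, kfun i k g y⟫_ℂ
      = ∫ p, H p ∂((volume : Measure (Fin N → X3)).prod volume) := by
    rw [integral_prod _ hint]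
    congr 1
    funext y
    simp only [RCLike.inner_apply, kfun, hH]
    rw [← integral_mul_const]
  have hswp := measurePreserving_swp (N := N) i
  have hint2 : Integrable (fun p => H (swp i p)) ((volume : Measure (Fin N → X3)).prod volume) :=
    hswp.integrable_comp_of_integrable hint
  have e4 : ∫ p, H p ∂((volume : Measure (Fin N → X3)).prod volume)
      = ∫ p, H (swp i p) ∂((volume : Measure (Fin N → X3)).prod volume) := by
    conv_lhs => rw [← hswp.map_eq]
    rw [integral_map hswp.aemeasurable]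
    rw [hswp.map_eq]
    exact hint.aestronglyMeasurable
  rw [e3, e4, integral_prod _ hint2]
  congr 1
  funext y
  simp only [RCLike.inner_apply, kfun, hH, swp, Function.update_self, Function.update_idem,
    Function.update_eq_self]
  rw [← integral_conj, ← integral_const_mul]
  congr 1
  funext u
  simp
  ring

lemma kfun_comm {i j : Fin N} (hij : i ≠ j) (hB : MeasurableSet B) (hBf : volume B < ∞)
    (hk : KernelOn B K k) (hB' : MeasurableSet B') (hBf' : volume B' < ∞)
    (hk' : KernelOn B' K' k') {f : (Fin N → X3) → ℂ} (hf : Measurable f)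
    (hf2 : ∫⁻ y, ‖f y‖ₑ ^ 2 < ∞) :
    kfun i k (kfun j k' f) =ᵐ[volume] kfun j k' (kfun i k f) := by
  have hm := measurable_absop j hk'.meas hf.enorm
  have h2 : ∫⁻ y, absop j k' (fun y => ‖f y‖ₑ) y ^ 2 < ∞ := by
    have h1 := absop_bound j hB' hk' hf.enorm MeasurableSet.univ
    simp only [Set.mem_univ, Set.ofPred_true, Measure.restrict_univ, Set.univ_inter] at h1
    refine h1.trans_lt ?_
    exact ENNReal.mul_lt_top (ENNReal.mul_lt_top (ENNReal.mul_lt_top ENNReal.ofReal_lt_top hBf')
      hBf') hf2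
  filter_upwards [ae_absop_lt_top i hB hBf hk hm h2] with y hy
  have hupd : Measurable fun p : X3 × X3 => Function.update (Function.update y i p.1) j p.2 := by
    have m1 : Measurable fun p : X3 × X3 => Function.update y i p.1 :=
      (measurable_upd i).comp (measurable_const.prodMk measurable_fst)
    exact (measurable_upd j).comp (m1.prodMk measurable_snd)
  set F : X3 × X3 → ℂ := fun p => (k (y i) p.1 : ℂ) * ((k' (y j) p.2 : ℂ) *
    f (Function.update (Function.update y i p.1) j p.2)) with hF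
  have hFm : Measurable F := by
    have m1 : Measurable fun p : X3 × X3 => (k (y i) p.1 : ℂ) :=
      Complex.measurable_ofReal.comp (hk.meas.comp (measurable_const.prodMk measurable_fst))
    have m2 : Measurable fun p : X3 × X3 => (k' (y j) p.2 : ℂ) :=
      Complex.measurable_ofReal.comp (hk'.meas.comp (measurable_const.prodMk measurable_snd))
    exact m1.mul (m2.mul (hf.comp hupd))
  have eF : ∀ u v, ‖F (u, v)‖ₑ = ‖k (y i) u‖ₑ * (‖k' (y j) v‖ₑ *
      ‖f (Function.update (Function.update y i u) j v)‖ₑ) := by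
    intro u v
    have hc : ∀ r : ℝ, ‖(r : ℂ)‖ₑ = ‖r‖ₑ := fun r => by
      rw [← ofReal_norm, ← ofReal_norm, Complex.norm_real]
    simp only [hF, enorm_mul, hc]
  have hint : Integrable F (volume.prod volume) := by
    refine ⟨hFm.aestronglyMeasurable, ?_⟩
    change ∫⁻ p, ‖F p‖ₑ ∂_ < ∞
    rw [lintegral_prod _ hFm.enorm.aemeasurable]
    refine lt_of_le_of_lt (le_of_eq ?_) hy
    unfold absop
    refine lintegral_congr fun u => ?_
    simp only [eF]
    rw [lintegral_const_mul]
    · simp only [Function.update_of_ne hij.symm]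
    · exact (hk'.meas.comp (measurable_const.prodMk measurable_id)).enorm.mul
        (hf.comp (hupd.comp (measurable_const.prodMk measurable_id))).enorm
  have e1 : kfun i k (kfun j k' f) y = ∫ u, ∫ v, F (u, v) := by
    simp only [kfun, hF, Function.update_of_ne hij.symm]
    refine integral_congr_ae (Eventually.of_forall fun u => ?_)
    simp only [← integral_const_mul]
  have e2 : kfun j k' (kfun i k f) y = ∫ v, ∫ u, F (u, v) := by
    simp only [kfun, hF, Function.update_of_ne hij]
    refine integral_congr_ae (Eventually.of_forall fun v => ?_)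
    simp only [← integral_const_mul]
    refine integral_congr_ae (Eventually.of_forall fun u => ?_)
    simp only [Function.update_comm hij]
    ring
  rw [e1, e2]
  exact integral_integral_swap hint

theorem kop_comm {i j : Fin N} (hij : i ≠ j) (hB : MeasurableSet B) (hBf : volume B < ∞)
    (hk : KernelOn B K k) (hB' : MeasurableSet B') (hBf' : volume B' < ∞)
    (hk' : KernelOn B' K' k') :
    (kop i k : HN N →L[ℂ] HN N) ∘L kop j k' = kop j k' ∘L kop i k := by
  ext1 f
  rw [ContinuousLinearMap.comp_apply, ContinuousLinearMap.comp_apply]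
  apply Lp.ext
  refine (kop_apply' i hB hBf hk _).trans ?_
  refine (kfun_congr i k (kop_apply' j hB' hBf' hk' f)).trans ?_
  refine (kfun_comm hij hB hBf hk hB' hBf' hk' (HN_measurable f) (HN_sq_lt_top f)).trans ?_
  refine (kfun_congr j k' (kop_apply' i hB hBf hk f)).symm.trans ?_
  exact (kop_apply' j hB' hBf' hk' _).symm

/-! ### multiplication by indicators -/

lemma memLp_ind (S : Set (Fin N → X3)) (hS : MeasurableSet S) (f : HN N) :
    MemLp (S.indicator (f : (Fin N → X3) → ℂ)) 2 volume := (Lp.memLp f).indicator hS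

/-- the linear map `f ↦ 1_S f` -/
def mulIndLin (S : Set (Fin N → X3)) (hS : MeasurableSet S) : HN N →ₗ[ℂ] HN N where
  toFun f := (memLp_ind S hS f).toLp (S.indicator (f : (Fin N → X3) → ℂ))
  map_add' f g := by
    rw [← MemLp.toLp_add, MemLp.toLp_eq_toLp_iff]
    filter_upwards [Lp.coeFn_add f g] with y hy
    rw [Pi.add_apply]
    by_cases h : y ∈ S
    · simp only [Set.indicator_of_mem h, hy, Pi.add_apply]
    · simp only [Set.indicator_of_notMem h, add_zero]
  map_smul' c f := by
    simp only [RingHom.id_apply]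
    rw [← MemLp.toLp_const_smul, MemLp.toLp_eq_toLp_iff]
    filter_upwards [Lp.coeFn_smul c f] with y hy
    rw [Pi.smul_apply]
    by_cases h : y ∈ S
    · simp only [Set.indicator_of_mem h, hy, Pi.smul_apply]
    · simp only [Set.indicator_of_notMem h, smul_zero]

lemma mulIndLin_apply (S : Set (Fin N → X3)) (hS : MeasurableSet S) (f : HN N) :
    (mulIndLin S hS f : (Fin N → X3) → ℂ) =ᵐ[volume] S.indicator (f : (Fin N → X3) → ℂ) :=
  MemLp.coeFn_toLp (memLp_ind S hS f)

lemma mulIndLin_bound (S : Set (Fin N → X3)) (hS : MeasurableSet S) (f : HN N) :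
    ‖mulIndLin S hS f‖ ≤ 1 * ‖f‖ := by
  rw [one_mul]
  refine Lp.norm_le_norm_of_ae_le ?_
  filter_upwards [mulIndLin_apply S hS f] with y hy
  rw [hy]
  exact norm_indicator_le_norm_self _ _

open Classical in
/-- multiplication by the indicator function of `S` -/
def mulInd {N : ℕ} (S : Set (Fin N → X3)) : HN N →L[ℂ] HN N :=
  if hS : MeasurableSet S then (mulIndLin S hS).mkContinuous 1 (mulIndLin_bound S hS) else 0

theorem mulInd_apply (S : Set (Fin N → X3)) (hS : MeasurableSet S) (f : HN N) :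
    (mulInd S f : (Fin N → X3) → ℂ) =ᵐ[volume] S.indicator f := by
  have e : mulInd S = (mulIndLin S hS).mkContinuous 1 (mulIndLin_bound S hS) := by
    unfold mulInd
    rw [dif_pos hS]
  rw [e, LinearMap.mkContinuous_apply]
  exact mulIndLin_apply S hS f

theorem mulInd_adjoint (S : Set (Fin N → X3)) (hS : MeasurableSet S) :
    ContinuousLinearMap.adjoint (mulInd S) = mulInd S := by
  refine ((ContinuousLinearMap.eq_adjoint_iff _ _).2 fun f g => ?_).symm
  rw [L2.inner_def, L2.inner_def]
  refine integral_congr_ae ?_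
  filter_upwards [mulInd_apply S hS f, mulInd_apply S hS g] with y h1 h2
  rw [h1, h2]
  by_cases h : y ∈ S
  · simp only [Set.indicator_of_mem h]
  · simp only [Set.indicator_of_notMem h, inner_zero_left, inner_zero_right]

theorem mulInd_mul (S T : Set (Fin N → X3)) (hS : MeasurableSet S) (hT : MeasurableSet T) :
    mulInd S ∘L mulInd T = mulInd (S ∩ T) := by
  ext1 f
  rw [ContinuousLinearMap.comp_apply]
  apply Lp.ext
  filter_upwards [mulInd_apply S hS (mulInd T f), mulInd_apply T hT f,
    mulInd_apply (S ∩ T) (hS.inter hT) f] with y h1 h2 h3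
  rw [h1, h3]
  by_cases h : y ∈ S
  · rw [Set.indicator_of_mem h, h2]
    by_cases h' : y ∈ T
    · rw [Set.indicator_of_mem h', Set.indicator_of_mem (show y ∈ S ∩ T from ⟨h, h'⟩)]
    · rw [Set.indicator_of_notMem h', Set.indicator_of_notMem fun h'' => h' h''.2]
  · rw [Set.indicator_of_notMem h, Set.indicator_of_notMem fun h'' => h h''.1]

/-- `kop i k` commutes with multiplication by the indicator of a set which does not
depend on the `i`-th variable -/
theorem kop_mulInd_comm (i : Fin N) (hB : MeasurableSet B) (hBf : volume B < ∞)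
    (hk : KernelOn B K k) (S : Set (Fin N → X3)) (hS : MeasurableSet S)
    (hinv : ∀ y u, Function.update y i u ∈ S ↔ y ∈ S) :
    (kop i k : HN N →L[ℂ] HN N) ∘L mulInd S = mulInd S ∘L kop i k := by
  ext1 f
  rw [ContinuousLinearMap.comp_apply, ContinuousLinearMap.comp_apply]
  apply Lp.ext
  refine (kop_apply' i hB hBf hk _).trans ?_
  refine (kfun_congr i k (mulInd_apply S hS f)).trans ?_
  refine EventuallyEq.trans ?_ (mulInd_apply S hS _).symm
  filter_upwards [kop_apply' i hB hBf hk f] with y hy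
  by_cases h : y ∈ S
  · rw [Set.indicator_of_mem h, hy]
    simp only [kfun]
    refine integral_congr_ae (Eventually.of_forall fun u => ?_)
    simp only [Set.indicator_of_mem ((hinv y u).2 h)]
  · rw [Set.indicator_of_notMem h]
    simp only [kfun]
    rw [← integral_zero X3 ℂ]
    refine integral_congr_ae (Eventually.of_forall fun u => ?_)
    simp only [Set.indicator_of_notMem (fun h' => h ((hinv y u).1 h')), mul_zero]

end

end Pool.Agent.H.MP_d1ae63_mp
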