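import Pool.Agent.H.MP_d1ae63_mp.OneBody
import Pool.Agent.H.MP_d1ae63_mp.KernelOps

/-!
# The kernel of `G_B`
-/

set_option autoImplicit false

open MeasureTheory Set
open scoped ENNReal Real

namespace Pool.Agent.H.MP_d1ae63_mp

noncomputable section

/-- the inverse dilation factor `m/(k+1)` -/
def kt (m k : ℕ) : ℝ := (m : ℝ) / ((k + 1 : ℕ) : ℝ)

/-- the kernel of `G_B` -/
def kB (m : ℕ) (j : ℤ) (z : Fin 3 → ℤ) (x u : X3) : ℝ :=
  (cube j z).indicator (fun x => (cube j z).indicator (fun u =>
    -((side j ^ 3)⁻¹ * ∑ k ∈ Finset.range m, ((-1) ^ (k + 1) * (m.choose (k + 1) : ℝ)) *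
      (kt m k ^ 3 * (cube j z).indicator (fun _ => (1 : ℝ)) (x + kt m k • (u - x))))) u) x

theorem kt_pos {m k : ℕ} (hk : k + 1 ≤ m) : 0 < kt m k := by
  have : (0 : ℝ) < m := by exact_mod_cast (by omega : 0 < m)
  unfold kt; positivity

theorem kt_inv (m k : ℕ) : (((k + 1 : ℕ) : ℝ) / m)⁻¹ = kt m k := by
  unfold kt; rw [inv_div]

theorem kt_pow_le {m k : ℕ} (hk : k + 1 ≤ m) : kt m k ^ 3 ≤ (m : ℝ) ^ 3 := by
  rw [← kt_inv, inv_pow]; exact kdm_inv_le hk

/-- change of variables for one average -/
theorem avgf_eq_kernel (m k : ℕ) (hk : k + 1 ≤ m) (f : X3 → ℂ) {j : ℤ} {z : Fin 3 → ℤ}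
    {x : X3} (hx : x ∈ cube j z) :
    avgf m (k + 1) j z f x = ∫ u in cube j z,
      (((side j ^ 3)⁻¹ * (kt m k ^ 3 *
        (cube j z).indicator (fun _ => (1 : ℝ)) (x + kt m k • (u - x))) : ℝ) : ℂ) * f u := by
  have hs := side_pos j
  set t : ℝ := ((k + 1 : ℕ) : ℝ) / m with ht
  have ht0 : 0 < t := kdm_pos hk
  have ht1 : t ≤ 1 := kdm_le_one hk
  have hkt : kt m k = t⁻¹ := (kt_inv m k).symm
  rw [hkt]
  unfold avgf
  rw [setAverage_eq]
  have hvol : (volume.real (cube j z))⁻¹ = (side j ^ 3)⁻¹ := by
    rw [Measure.real, volume_cube, ENNReal.toReal_ofReal (by positivity)]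
  rw [hvol, ← integral_indicator (measurableSet_cube j z),
    ← integral_indicator (measurableSet_cube j z)]
  -- the function after the change of variables
  set g : X3 → ℂ := fun u => (cube j z).indicator (fun _ => f u) (x + t⁻¹ • (u - x)) with hg
  have e1 : ∀ v : X3, (cube j z).indicator (fun v => f (x + t • (v - x))) v
      = g ((x - t • x) + t • v) := by
    intro v
    have e0 : (x - t • x) + t • v = x + t • (v - x) := by module
    rw [e0, hg]
    simp only
    have e2 : x + t⁻¹ • (x + t • (v - x) - x) = v := by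
      rw [add_sub_cancel_left, smul_smul, inv_mul_cancel₀ ht0.ne', one_smul, add_sub_cancel]
    rw [e2]
    by_cases hv : v ∈ cube j z
    · rw [indicator_of_mem hv, indicator_of_mem hv]
    · rw [indicator_of_notMem hv, indicator_of_notMem hv]
  have e3 : ∫ v, (cube j z).indicator (fun v => f (x + t • (v - x))) v
      = ((t⁻¹) ^ 3 : ℝ) • ∫ u, g u := by
    simp_rw [e1]
    rw [Measure.integral_comp_smul volume (fun v => g ((x - t • x) + v)) t,
      integral_add_left_eq_self]
    congr 1
    rw [abs_of_nonneg (by positivity)]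
    simp
  change (side j ^ 3)⁻¹ • ∫ v, (cube j z).indicator (fun v => f (x + t • (v - x))) v = _
  rw [e3, smul_smul, ← integral_smul]
  apply integral_congr_ae
  filter_upwards with u
  rw [hg]
  simp only
  by_cases h1 : x + t⁻¹ • (u - x) ∈ cube j z
  · have hu : u ∈ cube j z := by
      have := cube_convex_comb hx h1 ht0.le ht1
      rwa [add_sub_cancel_left, smul_smul, mul_inv_cancel₀ ht0.ne', one_smul,
        add_sub_cancel] at this
    rw [indicator_of_mem h1, indicator_of_mem hu, indicator_of_mem h1, mul_one,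
      Complex.real_smul]
  · rw [indicator_of_notMem h1]
    by_cases hu : u ∈ cube j z
    · rw [indicator_of_mem hu, indicator_of_notMem h1]; simp
    · rw [indicator_of_notMem hu]; simp

/-- the kernel representation of `G_B` -/
theorem Gc_eq_kernel (m : ℕ) {f : X3 → ℂ} (hf : Measurable f) {j : ℤ} {z : Fin 3 → ℤ}
    {x : X3} (hx : x ∈ cube j z) (hfin : ∫⁻ u in cube j z, ‖f u‖ₑ ^ 2 ≠ ∞) :
    Gc m j z f x = ∫ u, (kB m j z x u : ℂ) * f u := by
  have : IsFiniteMeasure (volume.restrict (cube j z)) :=
    ⟨by rw [Measure.restrict_apply_univ]; exact volume_cube_lt_top j z⟩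
  have hfint : Integrable f (volume.restrict (cube j z)) := by
    have h2 : MemLp f 2 (volume.restrict (cube j z)) := by
      refine ⟨hf.aestronglyMeasurable, ?_⟩
      rw [eLpNorm_lt_top_iff_lintegral_rpow_enorm_lt_top (by norm_num) (by norm_num)]
      simpa using hfin.lt_top
    exact h2.integrable (by norm_num)
  rw [Gc_eq m hf hx hfin]
  have hR : ∫ u, (kB m j z x u : ℂ) * f u = ∫ u in cube j z,
      -∑ k ∈ Finset.range m, cf m (k + 1) * ((((side j ^ 3)⁻¹ * (kt m k ^ 3 *
        (cube j z).indicator (fun _ => (1 : ℝ)) (x + kt m k • (u - x))) : ℝ) : ℂ) * f u) := by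
    rw [← integral_indicator (measurableSet_cube j z)]
    apply integral_congr_ae
    filter_upwards with u
    unfold kB
    rw [indicator_of_mem hx]
    by_cases hu : u ∈ cube j z
    · rw [indicator_of_mem hu, indicator_of_mem hu]
      unfold cf
      push_cast
      rw [Finset.mul_sum, ← Finset.sum_neg_distrib, ← Finset.sum_neg_distrib, Finset.sum_mul]
      apply Finset.sum_congr rfl
      intro k _
      ring
    · rw [indicator_of_notMem hu, indicator_of_notMem hu]; simp
  rw [hR, integral_neg, integral_finsetSum]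
  · congr 1
    apply Finset.sum_congr rfl
    intro k hk
    have hk' : k + 1 ≤ m := by have := Finset.mem_range.mp hk; omega
    rw [avgf_eq_kernel m k hk' f hx, integral_const_mul]
  · intro k hk
    have hk' : k + 1 ≤ m := by have := Finset.mem_range.mp hk; omega
    refine Integrable.const_mul ?_ _
    refine Integrable.bdd_mul (c := (side j ^ 3)⁻¹ * kt m k ^ 3) hfint ?_ ?_
    · refine Measurable.aestronglyMeasurable ?_
      refine Complex.measurable_ofReal.comp ?_
      refine Measurable.const_mul (Measurable.const_mul ?_ _) _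
      exact (measurable_const.indicator (measurableSet_cube j z)).comp (by fun_prop)
    · filter_upwards with u
      have hs := side_pos j
      have h1 := kt_pos hk'
      rw [Complex.norm_real, Real.norm_eq_abs, abs_of_nonneg]
      · gcongr
        refine mul_le_of_le_one_right (by positivity) ?_
        exact indicator_le_self' (fun _ _ => zero_le_one) _
      · refine mul_nonneg (by positivity) (mul_nonneg (by positivity) ?_)
        exact indicator_nonneg (fun _ _ => zero_le_one) _

/-- the bound of the kernel -/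
theorem kB_bound (m : ℕ) (j : ℤ) (z : Fin 3 → ℤ) (x u : X3) :
    |kB m j z x u| ≤ (side j ^ 3)⁻¹ * (2 ^ m * (m : ℝ) ^ 3) := by
  have hs := side_pos j
  unfold kB
  by_cases hx : x ∈ cube j z
  · by_cases hu : u ∈ cube j z
    · rw [indicator_of_mem hx, indicator_of_mem hu, abs_neg, abs_mul, abs_of_pos (by positivity)]
      gcongr
      calc |∑ k ∈ Finset.range m, ((-1) ^ (k + 1) * (m.choose (k + 1) : ℝ)) *
            (kt m k ^ 3 * (cube j z).indicator (fun _ => (1 : ℝ)) (x + kt m k • (u - x)))|
          ≤ ∑ k ∈ Finset.range m, |((-1) ^ (k + 1) * (m.choose (k + 1) : ℝ)) *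
            (kt m k ^ 3 * (cube j z).indicator (fun _ => (1 : ℝ)) (x + kt m k • (u - x)))| :=
            Finset.abs_sum_le_sum_abs _ _
        _ ≤ ∑ k ∈ Finset.range m, (m.choose (k + 1) : ℝ) * (m : ℝ) ^ 3 := by
            apply Finset.sum_le_sum
            intro k hk
            have hk' : k + 1 ≤ m := by have := Finset.mem_range.mp hk; omega
            rw [abs_mul, abs_mul, abs_pow, abs_neg, abs_one, one_pow, one_mul, Nat.abs_cast,
              abs_mul, abs_of_pos (pow_pos (kt_pos hk') 3)]
            gcongr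
            have h1 : |(cube j z).indicator (fun _ => (1 : ℝ)) (x + kt m k • (u - x))| ≤ 1 := by
              by_cases h : x + kt m k • (u - x) ∈ cube j z
              · rw [indicator_of_mem h]; simp
              · rw [indicator_of_notMem h]; simp
            calc kt m k ^ 3 * |(cube j z).indicator (fun _ => (1 : ℝ)) (x + kt m k • (u - x))|
                ≤ (m : ℝ) ^ 3 * 1 :=
                  mul_le_mul (kt_pow_le hk') h1 (abs_nonneg _) (by positivity)
              _ = _ := mul_one _
        _ = (∑ k ∈ Finset.range m, (m.choose (k + 1) : ℝ)) * (m : ℝ) ^ 3 := by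
            rw [Finset.sum_mul]
        _ ≤ 2 ^ m * (m : ℝ) ^ 3 := by
            gcongr
            have h := Nat.sum_range_choose m
            rw [Finset.sum_range_succ'] at h
            have h2 : ∑ k ∈ Finset.range m, m.choose (k + 1) ≤ 2 ^ m := by omega
            exact_mod_cast h2
    · rw [indicator_of_mem hx, indicator_of_notMem hu, abs_zero]; positivity
  · rw [indicator_of_notMem hx, abs_zero]; positivity

theorem measurable_kB (m : ℕ) (j : ℤ) (z : Fin 3 → ℤ) :
    Measurable (Function.uncurry (kB m j z)) := by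
  have hc := measurableSet_cube j z
  have h1 : Measurable (fun p : X3 × X3 => -((side j ^ 3)⁻¹ * ∑ k ∈ Finset.range m,
      ((-1) ^ (k + 1) * (m.choose (k + 1) : ℝ)) *
      (kt m k ^ 3 * (cube j z).indicator (fun _ => (1 : ℝ)) (p.1 + kt m k • (p.2 - p.1))))) := by
    refine Measurable.neg (Measurable.const_mul ?_ _)
    refine Finset.measurable_fun_sum _ fun k _ => ?_
    refine Measurable.const_mul (Measurable.const_mul ?_ _) _
    exact (measurable_const.indicator hc).comp (by fun_prop)
  have h2 : Function.uncurry (kB m j z) = ((cube j z) ×ˢ (cube j z)).indicator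
      (fun p : X3 × X3 => -((side j ^ 3)⁻¹ * ∑ k ∈ Finset.range m,
      ((-1) ^ (k + 1) * (m.choose (k + 1) : ℝ)) *
      (kt m k ^ 3 * (cube j z).indicator (fun _ => (1 : ℝ)) (p.1 + kt m k • (p.2 - p.1))))) := by
    funext p
    obtain ⟨x, u⟩ := p
    simp only [Function.uncurry_apply_pair]
    unfold kB
    by_cases hx : x ∈ cube j z
    · by_cases hu : u ∈ cube j z
      · rw [indicator_of_mem hx, indicator_of_mem hu, indicator_of_mem (mk_mem_prod hx hu)]
      · rw [indicator_of_mem hx, indicator_of_notMem hu, indicator_of_notMem]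
        exact fun h => hu h.2
    · rw [indicator_of_notMem hx, indicator_of_notMem]
      exact fun h => hx h.1
  rw [h2]
  exact h1.indicator (hc.prod hc)

theorem kernelOn_kB (m : ℕ) (j : ℤ) (z : Fin 3 → ℤ) :
    KernelOn (cube j z) ((side j ^ 3)⁻¹ * (2 ^ m * (m : ℝ) ^ 3)) (kB m j z) where
  meas := measurable_kB m j z
  bound := kB_bound m j z
  supp := by
    intro x u h
    unfold kB
    by_cases hx : x ∈ cube j z
    · rw [indicator_of_mem hx, indicator_of_notMem (fun hu => h ⟨hx, hu⟩)]
    · rw [indicator_of_notMem hx]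

end

end Pool.Agent.H.MP_d1ae63_mp
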