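import Pool.Agent.H.MP_d1ae63_mp.KineticKernel

set_option autoImplicit false

open MeasureTheory Set
open scoped FourierTransform ENNReal Real InnerProductSpace

namespace Pool.Agent.H.MP_d1ae63_mp

noncomputable section

lemma phase_single {N : ℕ} (i : Fin N) (h : E3) (ξ : Conf N) :
    phase (WithLp.toLp 2 (Pi.single i h) : Conf N) ξ = phase h (ξ i) := by
  unfold phase
  congr 2
  rw [PiLp.inner_apply, Finset.sum_eq_single i]
  · simp
  · intro j _ hj
    simp [Pi.single_eq_of_ne hj]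
  · intro hi
    exact absurd (Finset.mem_univ i) hi

lemma diffFormAt_eq {N : ℕ} (α : ℝ) (m : ℕ) (i : Fin N) (ψ : WaveFn N) :
    diffFormAt α m i ψ =
      ∫⁻ ξ : Conf N, symb α m (ξ i) * ‖(𝓕 ψ : WaveFn N) ξ‖ₑ ^ 2 := by
  have hF : Measurable (fun ξ : Conf N => ‖(𝓕 ψ : WaveFn N) ξ‖ₑ ^ 2) :=
    ((Lp.stronglyMeasurable _).measurable.enorm).pow_const 2
  have hph : Continuous (fun z : E3 × Conf N => 1 - phase z.1 (z.2 i)) := by
    unfold phase
    fun_prop
  have hph' : Measurable (fun z : E3 × Conf N => ‖1 - phase z.1 (z.2 i)‖ₑ ^ (2 * m)) :=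
    hph.measurable.enorm.pow_const _
  have hw : Measurable (fun h : E3 => ENNReal.ofReal (‖h‖ ^ (-(3 + α)))) := by fun_prop
  unfold diffFormAt
  calc ∫⁻ h : E3, ENNReal.ofReal (‖h‖ ^ (-(3 + α))) * ∫⁻ x : Conf N, ‖ddiff m i h ψ x‖ₑ ^ 2
      = ∫⁻ h : E3, ∫⁻ ξ : Conf N, ENNReal.ofReal (‖h‖ ^ (-(3 + α))) *
          (‖1 - phase h (ξ i)‖ₑ ^ (2 * m) * ‖(𝓕 ψ : WaveFn N) ξ‖ₑ ^ 2) := by
        refine lintegral_congr fun h => ?_
        rw [lintegral_const_mul' _ _ ENNReal.ofReal_ne_top]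
        congr 1
        have := lintegral_diff m (WithLp.toLp 2 (Pi.single i h) : Conf N) ψ
        simp only [phase_single] at this
        rw [← this]
        rfl
    _ = ∫⁻ ξ : Conf N, ∫⁻ h : E3, ENNReal.ofReal (‖h‖ ^ (-(3 + α))) *
          (‖1 - phase h (ξ i)‖ₑ ^ (2 * m) * ‖(𝓕 ψ : WaveFn N) ξ‖ₑ ^ 2) := by
        apply lintegral_lintegral_swap
        apply Measurable.aemeasurable
        exact (hw.comp measurable_fst).mul (hph'.mul (hF.comp measurable_snd))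
    _ = ∫⁻ ξ : Conf N, symb α m (ξ i) * ‖(𝓕 ψ : WaveFn N) ξ‖ₑ ^ 2 := by
        refine lintegral_congr fun ξ => ?_
        unfold symb
        rw [← lintegral_mul_const' _ _ (ENNReal.pow_ne_top enorm_ne_top)]
        refine lintegral_congr fun h => ?_
        rw [mul_assoc]

/-- `∫|h|^{-3-α} ‖Δ_h^m ψ‖² dh ≤ C ⟨ψ,|p_i|^α ψ⟩`. -/
theorem diffFormAt_le_kineticAt (α : ℝ) (m : ℕ) (hα : 0 < α) (hm : α < 2 * m) :
    ∃ C : ℝ, 0 < C ∧ ∀ (N : ℕ) (i : Fin N) (ψ : WaveFn N),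
      diffFormAt α m i ψ ≤ ENNReal.ofReal C * kineticAt α i ψ := by
  obtain ⟨C, hC, h⟩ := symb_le α m hα hm
  refine ⟨C, hC, fun N i ψ => ?_⟩
  rw [diffFormAt_eq]
  unfold kineticAt
  rw [← lintegral_const_mul' _ _ ENNReal.ofReal_ne_top]
  refine lintegral_mono fun ξ => ?_
  calc symb α m (ξ i) * ‖(𝓕 ψ : WaveFn N) ξ‖ₑ ^ 2
      ≤ (ENNReal.ofReal C * ENNReal.ofReal ((2 * π * ‖ξ i‖) ^ α)) *
        ‖(𝓕 ψ : WaveFn N) ξ‖ₑ ^ 2 := by
        gcongr
        exact h _
    _ = _ := by rw [mul_assoc]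

/-- `⟨ψ,|p_i|^α ψ⟩ ≤ C ∫|h|^{-3-α} ‖Δ_h^m ψ‖² dh`. -/
theorem kineticAt_le_diffFormAt (α : ℝ) (m : ℕ) (hα : 0 < α) (hm : α < 2 * m) :
    ∃ C : ℝ, 0 < C ∧ ∀ (N : ℕ) (i : Fin N) (ψ : WaveFn N),
      kineticAt α i ψ ≤ ENNReal.ofReal C * diffFormAt α m i ψ := by
  obtain ⟨C, hC, h⟩ := le_symb α m hα
  refine ⟨C, hC, fun N i ψ => ?_⟩
  rw [diffFormAt_eq]
  unfold kineticAt
  rw [← lintegral_const_mul' _ _ ENNReal.ofReal_ne_top]
  refine lintegral_mono fun ξ => ?_
  calc ENNReal.ofReal ((2 * π * ‖ξ i‖) ^ α) * ‖(𝓕 ψ : WaveFn N) ξ‖ₑ ^ 2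
      ≤ (ENNReal.ofReal C * symb α m (ξ i)) * ‖(𝓕 ψ : WaveFn N) ξ‖ₑ ^ 2 := by
        gcongr
        exact h _
    _ = _ := by rw [mul_assoc]

/-- the difference form only depends on the a.e. class -/
theorem diffFormAt_congr_ae (α : ℝ) (m : ℕ) {N : ℕ} (i : Fin N) {ψ φ : Conf N → ℂ}
    (h : ψ =ᵐ[volume] φ) : diffFormAt α m i ψ = diffFormAt α m i φ := by
  unfold diffFormAt
  refine lintegral_congr fun u => ?_
  congr 1
  apply lintegral_congr_ae
  have h1 : ∀ᵐ x ∂(volume : Measure (Conf N)), ∀ k : ℕ,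
      ψ (x + (k : ℝ) • (WithLp.toLp 2 (Pi.single i u) : Conf N)) =
      φ (x + (k : ℝ) • (WithLp.toLp 2 (Pi.single i u) : Conf N)) := by
    rw [ae_all_iff]
    intro k
    exact (measurePreserving_add_right volume
      ((k : ℝ) • (WithLp.toLp 2 (Pi.single i u) : Conf N))).quasiMeasurePreserving.ae_eq_comp h
  filter_upwards [h1] with x hx
  have : ddiff m i u ψ x = ddiff m i u φ x := by
    unfold ddiff
    exact Finset.sum_congr rfl fun k _ => by rw [hx k]
  rw [this]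

lemma measurePreserving_uncurry (N : ℕ) :
    MeasurePreserving (fun (a : Fin N → Fin 3 → ℝ) (p : (_ : Fin N) × Fin 3) => a p.1 p.2)
      volume volume := by
  have hm : Measurable
      (fun (a : Fin N → Fin 3 → ℝ) (p : (_ : Fin N) × Fin 3) => a p.1 p.2) := by
    fun_prop
  refine ⟨hm, ?_⟩
  symm
  apply Measure.pi_eq
  intro s hs
  rw [Measure.map_apply hm (MeasurableSet.univ_pi hs)]
  have : (fun (a : Fin N → Fin 3 → ℝ) (p : (_ : Fin N) × Fin 3) => a p.1 p.2) ⁻¹' (univ.pi s) =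
      univ.pi (fun i : Fin N => univ.pi (fun j : Fin 3 => s ⟨i, j⟩)) := by
    ext a
    simp only [mem_preimage, mem_pi, mem_univ, true_implies]
    constructor
    · intro h i j
      exact h ⟨i, j⟩
    · rintro h ⟨i, j⟩
      exact h i j
  rw [this, volume_pi_pi]
  simp only [volume_pi_pi]
  rw [← Finset.univ_sigma_univ, Finset.prod_sigma]

lemma measurePreserving_curry (N : ℕ) :
    MeasurePreserving (fun (f : (_ : Fin N) × Fin 3 → ℝ) (i : Fin N) (j : Fin 3) => f ⟨i, j⟩)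
      volume volume := by
  let e : (Fin N → Fin 3 → ℝ) ≃ᵐ ((_ : Fin N) × Fin 3 → ℝ) :=
    { toFun := fun a p => a p.1 p.2
      invFun := fun f i j => f ⟨i, j⟩
      left_inv := fun a => rfl
      right_inv := fun f => rfl
      measurable_toFun := by
        change Measurable (fun (a : Fin N → Fin 3 → ℝ) (p : (_ : Fin N) × Fin 3) => a p.1 p.2)
        fun_prop
      measurable_invFun := by
        change Measurable (fun (f : (_ : Fin N) × Fin 3 → ℝ) (i : Fin N) (j : Fin 3) => f ⟨i, j⟩)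
        fun_prop }
  have he : MeasurePreserving e volume volume := measurePreserving_uncurry N
  exact he.symm

/-- forgetting the Euclidean structure is volume preserving -/
theorem volume_preserving_conf (N : ℕ) :
    MeasurePreserving (fun x : Conf N => (WithLp.ofLp x : Fin N → E3)) volume volume := by
  have h1 : MeasurePreserving ((LinearIsometryEquiv.piLpCurry ℝ 2
      (fun (_ : Fin N) (_ : Fin 3) => ℝ)).symm) volume volume :=
    LinearIsometryEquiv.measurePreserving _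
  have h2 := PiLp.volume_preserving_ofLp ((_ : Fin N) × Fin 3)
  have h3 := measurePreserving_curry N
  have h4 : MeasurePreserving (fun (a : Fin N → Fin 3 → ℝ) (i : Fin N) =>
      (WithLp.toLp 2 (a i) : E3)) volume volume :=
    volume_preserving_pi (fun _ : Fin N => PiLp.volume_preserving_toLp (Fin 3))
  exact (h4.comp h3).comp (h2.comp h1)

end

end Pool.Agent.H.MP_d1ae63_mp
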