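import Pool.Agent.H.MP_d1ae63_mp.Defs

set_option autoImplicit false

open MeasureTheory
open scoped FourierTransform ENNReal Real InnerProductSpace SchwartzMap

namespace Pool.Agent.H.MP_d1ae63_mp

noncomputable section

section Translation

variable {V : Type*} [NormedAddCommGroup V] [InnerProductSpace ℝ V] [FiniteDimensional ℝ V]
  [MeasurableSpace V] [BorelSpace V]

/-- translation on `L²` -/
def transl (v : V) (f : Lp ℂ 2 (volume : Measure V)) : Lp ℂ 2 (volume : Measure V) :=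
  Lp.compMeasurePreserving (fun x => x + v) (measurePreserving_add_right volume v) f

lemma transl_coe (v : V) (f : Lp ℂ 2 (volume : Measure V)) :
    (transl v f : V → ℂ) =ᵐ[volume] fun x => f (x + v) :=
  Lp.coeFn_compMeasurePreserving _ _

lemma norm_transl (v : V) (f : Lp ℂ 2 (volume : Measure V)) : ‖transl v f‖ = ‖f‖ :=
  Lp.norm_compMeasurePreserving _ _

lemma transl_sub (v : V) (f g : Lp ℂ 2 (volume : Measure V)) :
    transl v (f - g) = transl v f - transl v g :=
  map_sub (Lp.compMeasurePreserving (fun x => x + v) (measurePreserving_add_right volume v)) f g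

/-- the phase `exp(2πi⟨v,k⟩)` -/
def phase (v k : V) : ℂ := ((Real.fourierChar ⟪v, k⟫_ℝ : Circle) : ℂ)

omit [FiniteDimensional ℝ V] [MeasurableSpace V] [BorelSpace V] in
lemma norm_phase (v k : V) : ‖phase v k‖ = 1 := Circle.norm_coe _

omit [FiniteDimensional ℝ V] [MeasurableSpace V] [BorelSpace V] in
lemma continuous_phase (v : V) : Continuous (phase v) := by
  unfold phase
  fun_prop

lemma transl_schwartz (v : V) (g : 𝓢(V, ℂ)) :
    transl v (g.toLp 2) = (SchwartzMap.compSubConstCLM ℂ (-v) g).toLp 2 := by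
  apply Lp.ext
  refine (transl_coe v _).trans ?_
  have h1 : (fun x => (g.toLp 2 : Lp ℂ 2 (volume : Measure V)) (x + v)) =ᵐ[volume]
      fun x => g (x + v) :=
    (measurePreserving_add_right volume v).quasiMeasurePreserving.ae_eq_comp
      (g.coeFn_toLp 2 volume)
  refine h1.trans ?_
  refine Filter.EventuallyEq.symm ?_
  refine (SchwartzMap.coeFn_toLp (SchwartzMap.compSubConstCLM ℂ (-v) g) 2 volume).trans ?_
  refine Filter.Eventually.of_forall fun x => ?_
  simp

lemma fourier_transl_schwartz (v : V) (g : 𝓢(V, ℂ)) :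
    ((𝓕 (transl v (g.toLp 2)) : Lp ℂ 2 (volume : Measure V)) : V → ℂ) =ᵐ[volume]
      fun k => phase v k * (𝓕 (g.toLp 2) : Lp ℂ 2 (volume : Measure V)) k := by
  rw [transl_schwartz, SchwartzMap.toLp_fourier_eq, SchwartzMap.toLp_fourier_eq]
  have h1 := SchwartzMap.coeFn_toLp (𝓕 ((SchwartzMap.compSubConstCLM ℂ (-v)) g)) 2
    (volume : Measure V)
  have h2 := SchwartzMap.coeFn_toLp (𝓕 g) 2 (volume : Measure V)
  filter_upwards [h1, h2] with k h1 h2
  rw [h1, h2, SchwartzMap.fourier_coe, SchwartzMap.fourier_coe]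
  have h3 := VectorFourier.fourierIntegral_comp_add_right Real.fourierChar
    (volume : Measure V) (innerₗ V) (g : V → ℂ) v
  have h4 : ((SchwartzMap.compSubConstCLM ℂ (-v)) g : V → ℂ) = (g : V → ℂ) ∘ fun x => x + v := by
    ext x
    simp
  rw [h4]
  exact congrFun h3 k

lemma fourier_sub' (f g : Lp ℂ 2 (volume : Measure V)) :
    (𝓕 (f - g) : Lp ℂ 2 (volume : Measure V)) = 𝓕 f - 𝓕 g :=
  (Lp.fourierTransformₗᵢ V ℂ).map_sub f g

lemma fourier_transl (v : V) (f : Lp ℂ 2 (volume : Measure V)) :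
    ((𝓕 (transl v f) : Lp ℂ 2 (volume : Measure V)) : V → ℂ) =ᵐ[volume]
      fun k => phase v k * (𝓕 f : Lp ℂ 2 (volume : Measure V)) k := by
  set u : V → ℂ := ((𝓕 (transl v f) : Lp ℂ 2 (volume : Measure V)) : V → ℂ) with hu
  set w : V → ℂ := fun k => phase v k * (𝓕 f : Lp ℂ 2 (volume : Measure V)) k with hw
  have hum : AEStronglyMeasurable u volume := Lp.aestronglyMeasurable _
  have hwm : AEStronglyMeasurable w volume :=
    (continuous_phase v).aestronglyMeasurable.mul (Lp.aestronglyMeasurable _)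
  have key : eLpNorm (u - w) 2 volume = 0 := by
    by_contra hne
    have hpos : 0 < eLpNorm (u - w) 2 volume := pos_iff_ne_zero.mpr hne
    have hbound : ∀ ε : ℝ, 0 < ε → eLpNorm (u - w) 2 volume ≤ ENNReal.ofReal (2 * ε) := by
      intro ε hε
      obtain ⟨g, hg⟩ := Metric.denseRange_iff.mp (SchwartzMap.denseRange_toLpCLM
        (E := V) (F := ℂ) (p := 2) (μ := volume) ENNReal.ofNat_ne_top) f ε hε
      simp only [SchwartzMap.toLpCLM_apply] at hg
      have hg' : ‖f - (g.toLp 2 : Lp ℂ 2 (volume : Measure V))‖ < ε := by rwa [← dist_eq_norm]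
      set ug : V → ℂ := ((𝓕 (transl v (g.toLp 2)) : Lp ℂ 2 (volume : Measure V)) : V → ℂ)
      set wg : V → ℂ := fun k => phase v k * (𝓕 (g.toLp 2) : Lp ℂ 2 (volume : Measure V)) k
      have e1 : ug =ᵐ[volume] wg := fourier_transl_schwartz v g
      have e2 : eLpNorm (u - ug) 2 volume ≤ ENNReal.ofReal ε := by
        have : eLpNorm (u - ug) 2 volume
            = ENNReal.ofReal ‖(𝓕 (transl v f) : Lp ℂ 2 (volume : Measure V)) -
              𝓕 (transl v (g.toLp 2))‖ := by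
          rw [Lp.norm_def, ENNReal.ofReal_toReal (Lp.eLpNorm_ne_top _)]
          exact eLpNorm_congr_ae (Lp.coeFn_sub _ _).symm
        rw [this, ← fourier_sub', ← transl_sub, Lp.norm_fourier_eq, norm_transl]
        exact ENNReal.ofReal_le_ofReal hg'.le
      have e3 : eLpNorm (wg - w) 2 volume ≤ ENNReal.ofReal ε := by
        have h1 : eLpNorm (wg - w) 2 volume =
            eLpNorm (fun k => ((𝓕 (g.toLp 2) : Lp ℂ 2 (volume : Measure V)) -
              (𝓕 f : Lp ℂ 2 (volume : Measure V)) : Lp ℂ 2 (volume : Measure V)) k) 2 volume := by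
          apply eLpNorm_congr_norm_ae
          filter_upwards [Lp.coeFn_sub (𝓕 (g.toLp 2) : Lp ℂ 2 (volume : Measure V))
            (𝓕 f : Lp ℂ 2 (volume : Measure V))] with k hk
          rw [hk]
          simp only [Pi.sub_apply, wg, w]
          rw [← mul_sub, norm_mul, norm_phase, one_mul]
        have : eLpNorm (wg - w) 2 volume
            = ENNReal.ofReal ‖(𝓕 (g.toLp 2) : Lp ℂ 2 (volume : Measure V)) - 𝓕 f‖ := by
          rw [h1, Lp.norm_def, ENNReal.ofReal_toReal (Lp.eLpNorm_ne_top _)]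
        rw [this, ← fourier_sub', Lp.norm_fourier_eq, norm_sub_rev]
        exact ENNReal.ofReal_le_ofReal hg'.le
      calc eLpNorm (u - w) 2 volume = eLpNorm ((u - ug) + (wg - w)) 2 volume := by
            apply eLpNorm_congr_ae
            filter_upwards [e1] with k hk
            simp only [Pi.sub_apply, Pi.add_apply, hk]
            ring
        _ ≤ eLpNorm (u - ug) 2 volume + eLpNorm (wg - w) 2 volume := by
            apply eLpNorm_add_le
            · exact hum.sub (Lp.aestronglyMeasurable _)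
            · exact ((continuous_phase v).aestronglyMeasurable.mul
                (Lp.aestronglyMeasurable _)).sub hwm
            · norm_num
        _ ≤ ENNReal.ofReal ε + ENNReal.ofReal ε := add_le_add e2 e3
        _ = ENNReal.ofReal (2 * ε) := by
            rw [← ENNReal.ofReal_add hε.le hε.le]
            ring_nf
    have hfin : eLpNorm (u - w) 2 volume ≠ ⊤ :=
      ne_top_of_le_ne_top ENNReal.ofReal_ne_top (hbound 1 one_pos)
    have hr : 0 < (eLpNorm (u - w) 2 volume).toReal := ENNReal.toReal_pos hne hfin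
    have h5 := hbound ((eLpNorm (u - w) 2 volume).toReal / 4) (by positivity)
    rw [← ENNReal.ofReal_toReal hfin] at h5
    rw [ENNReal.ofReal_le_ofReal_iff (by positivity)] at h5
    rw [ENNReal.toReal_ofReal hr.le] at h5
    linarith
  have h6 := (eLpNorm_eq_zero_iff (hum.sub hwm) (by norm_num)).mp key
  filter_upwards [h6] with k hk
  have : u k - w k = 0 := hk
  exact sub_eq_zero.mp this

/-- Plancherel in `lintegral` form -/
lemma lintegral_fourier (f : Lp ℂ 2 (volume : Measure V)) :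
    ∫⁻ k, ‖(𝓕 f : Lp ℂ 2 (volume : Measure V)) k‖ₑ ^ 2 = ∫⁻ x, ‖f x‖ₑ ^ 2 := by
  have h : ∀ g : Lp ℂ 2 (volume : Measure V), ∫⁻ x, ‖g x‖ₑ ^ 2 = ENNReal.ofReal ‖g‖ ^ 2 := by
    intro g
    rw [Lp.norm_def, ENNReal.ofReal_toReal (Lp.eLpNorm_ne_top _),
      eLpNorm_eq_lintegral_rpow_enorm_toReal (by norm_num) (by norm_num)]
    rw [← ENNReal.rpow_natCast, ← ENNReal.rpow_mul]
    norm_num
  rw [h, h, Lp.norm_fourier_eq]

omit [FiniteDimensional ℝ V] [MeasurableSpace V] [BorelSpace V] in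
lemma phase_nsmul (k : ℕ) (v ξ : V) : phase ((k : ℝ) • v) ξ = phase v ξ ^ k := by
  unfold phase
  rw [← Circle.coe_pow, ← AddChar.map_nsmul_eq_pow]
  congr 2
  rw [inner_smul_left]
  simp

/-- the difference operator on `L²` -/
def ddL (m : ℕ) (v : V) (f : Lp ℂ 2 (volume : Measure V)) : Lp ℂ 2 (volume : Measure V) :=
  ∑ k ∈ Finset.range (m + 1), ((-1 : ℂ) ^ k * (m.choose k : ℂ)) • transl ((k : ℝ) • v) f

lemma coe_sum_smul (m : ℕ) (c : ℕ → ℂ) (g : ℕ → Lp ℂ 2 (volume : Measure V)) :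
    ((∑ k ∈ Finset.range (m + 1), c k • g k : Lp ℂ 2 (volume : Measure V)) : V → ℂ) =ᵐ[volume]
      fun x => ∑ k ∈ Finset.range (m + 1), c k * g k x := by
  induction (m + 1) with
  | zero =>
    simp only [Finset.range_zero, Finset.sum_empty]
    exact Lp.coeFn_zero _ _ _
  | succ n ih =>
    rw [Finset.sum_range_succ]
    refine (Lp.coeFn_add _ _).trans ?_
    filter_upwards [ih, Lp.coeFn_smul (c n) (g n)] with x h1 h2
    rw [Pi.add_apply, h1, h2, Finset.sum_range_succ]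
    simp

lemma ddL_coe (m : ℕ) (v : V) (f : Lp ℂ 2 (volume : Measure V)) :
    (ddL m v f : V → ℂ) =ᵐ[volume] fun x => ∑ k ∈ Finset.range (m + 1),
      ((-1 : ℂ) ^ k * (m.choose k : ℂ)) * f (x + (k : ℝ) • v) := by
  refine (coe_sum_smul m _ _).trans ?_
  have : ∀ᵐ x ∂(volume : Measure V), ∀ k : ℕ, (transl ((k : ℝ) • v) f) x = f (x + (k : ℝ) • v) := by
    rw [ae_all_iff]
    exact fun k => transl_coe _ _
  filter_upwards [this] with x hx
  exact Finset.sum_congr rfl fun k _ => by rw [hx]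

lemma fourier_ddL (m : ℕ) (v : V) (f : Lp ℂ 2 (volume : Measure V)) :
    ((𝓕 (ddL m v f) : Lp ℂ 2 (volume : Measure V)) : V → ℂ) =ᵐ[volume]
      fun ξ => (1 - phase v ξ) ^ m * (𝓕 f : Lp ℂ 2 (volume : Measure V)) ξ := by
  have h1 : (𝓕 (ddL m v f) : Lp ℂ 2 (volume : Measure V)) =
      ∑ k ∈ Finset.range (m + 1), ((-1 : ℂ) ^ k * (m.choose k : ℂ)) •
        (𝓕 (transl ((k : ℝ) • v) f) : Lp ℂ 2 (volume : Measure V)) := by
    unfold ddL
    have := map_sum (Lp.fourierTransformₗᵢ V ℂ) (fun k => ((-1 : ℂ) ^ k * (m.choose k : ℂ)) •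
      transl ((k : ℝ) • v) f) (Finset.range (m + 1))
    refine this.trans ?_
    refine Finset.sum_congr rfl fun k _ => ?_
    exact (Lp.fourierTransformₗᵢ V ℂ).map_smul _ _
  rw [h1]
  refine (coe_sum_smul m _ _).trans ?_
  have : ∀ᵐ ξ ∂(volume : Measure V), ∀ k : ℕ,
      (𝓕 (transl ((k : ℝ) • v) f) : Lp ℂ 2 (volume : Measure V)) ξ =
        phase ((k : ℝ) • v) ξ * (𝓕 f : Lp ℂ 2 (volume : Measure V)) ξ := by
    rw [ae_all_iff]
    exact fun k => fourier_transl _ _
  filter_upwards [this] with ξ hξ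
  have h2 : (1 - phase v ξ) ^ m = ∑ k ∈ Finset.range (m + 1),
      ((-1 : ℂ) ^ k * (m.choose k : ℂ)) * phase ((k : ℝ) • v) ξ := by
    rw [show (1 - phase v ξ) = (-phase v ξ) + 1 by ring, add_pow]
    refine Finset.sum_congr rfl fun k _ => ?_
    rw [phase_nsmul, neg_pow]
    ring
  rw [h2, Finset.sum_mul]
  refine Finset.sum_congr rfl fun k _ => ?_
  rw [hξ]
  ring

lemma lintegral_diff (m : ℕ) (v : V) (f : Lp ℂ 2 (volume : Measure V)) :
    ∫⁻ x, ‖∑ k ∈ Finset.range (m + 1), ((-1 : ℂ) ^ k * (m.choose k : ℂ)) *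
      f (x + (k : ℝ) • v)‖ₑ ^ 2 =
    ∫⁻ ξ, ‖1 - phase v ξ‖ₑ ^ (2 * m) * ‖(𝓕 f : Lp ℂ 2 (volume : Measure V)) ξ‖ₑ ^ 2 := by
  have h1 : ∫⁻ x, ‖∑ k ∈ Finset.range (m + 1), ((-1 : ℂ) ^ k * (m.choose k : ℂ)) *
      f (x + (k : ℝ) • v)‖ₑ ^ 2 = ∫⁻ x, ‖ddL m v f x‖ₑ ^ 2 := by
    apply lintegral_congr_ae
    filter_upwards [ddL_coe m v f] with x hx
    rw [hx]
  have h2 : ∫⁻ ξ, ‖(𝓕 (ddL m v f) : Lp ℂ 2 (volume : Measure V)) ξ‖ₑ ^ 2 =
      ∫⁻ ξ, ‖1 - phase v ξ‖ₑ ^ (2 * m) * ‖(𝓕 f : Lp ℂ 2 (volume : Measure V)) ξ‖ₑ ^ 2 := by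
    apply lintegral_congr_ae
    filter_upwards [fourier_ddL m v f] with x hx
    rw [hx, enorm_mul, enorm_pow]
    ring
  rw [h1, ← lintegral_fourier, h2]

end Translation

end

end Pool.Agent.H.MP_d1ae63_mp
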