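import Pool.Agent.H.MP_d1ae63_mp.KineticFourier

set_option autoImplicit false

open MeasureTheory Set
open scoped FourierTransform ENNReal Real InnerProductSpace

namespace Pool.Agent.H.MP_d1ae63_mp

noncomputable section

/-- the symbol `I(p)` of the difference form -/
def symb (α : ℝ) (m : ℕ) (p : E3) : ℝ≥0∞ :=
  ∫⁻ h : E3, ENNReal.ofReal (‖h‖ ^ (-(3 + α))) * ‖1 - phase h p‖ₑ ^ (2 * m)

/-- the radial majorant -/
def radf (α : ℝ) (m : ℕ) (y : ℝ) : ℝ := y ^ (-(3 + α)) * (min 2 (2 * π * y)) ^ (2 * m)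

lemma integrableOn_radf (α : ℝ) (m : ℕ) (hα : 0 < α) (hm : α < 2 * m) :
    IntegrableOn (fun y : ℝ => y ^ 2 * radf α m y) (Ioi 0) := by
  have hmeas : Measurable (fun y : ℝ => y ^ 2 * radf α m y) := by
    unfold radf
    fun_prop
  rw [← Ioc_union_Ioi_eq_Ioi (zero_le_one : (0 : ℝ) ≤ 1)]
  refine IntegrableOn.union ?_ ?_
  · have h1 : IntegrableOn (fun y : ℝ => (2 * π) ^ (2 * m) * y ^ ((2 * m : ℝ) - 1 - α))
        (Ioc 0 1) := by
      have := (intervalIntegral.intervalIntegrable_rpow' (a := 0) (b := 1)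
        (r := (2 * m : ℝ) - 1 - α) (by linarith)).1
      exact this.const_mul _
    refine Integrable.mono' h1 hmeas.aestronglyMeasurable.restrict ?_
    refine (ae_restrict_iff' measurableSet_Ioc).mpr (Filter.Eventually.of_forall fun y hy => ?_)
    have hy0 : 0 < y := hy.1
    have hmin0 : 0 ≤ min 2 (2 * π * y) := by positivity
    rw [Real.norm_of_nonneg (by unfold radf; positivity)]
    unfold radf
    calc y ^ 2 * (y ^ (-(3 + α)) * (min 2 (2 * π * y)) ^ (2 * m))
        ≤ y ^ 2 * (y ^ (-(3 + α)) * (2 * π * y) ^ (2 * m)) := by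
          gcongr
          exact min_le_right _ _
      _ = (2 * π) ^ (2 * m) * (y ^ 2 * y ^ (-(3 + α)) * y ^ (2 * m)) := by
          rw [mul_pow]; ring
      _ = (2 * π) ^ (2 * m) * y ^ ((2 * m : ℝ) - 1 - α) := by
          congr 1
          rw [← Real.rpow_natCast y 2, ← Real.rpow_natCast y (2 * m), ← Real.rpow_add hy0,
            ← Real.rpow_add hy0]
          congr 1
          push_cast
          ring
  · have h1 : IntegrableOn (fun y : ℝ => (2 : ℝ) ^ (2 * m) * y ^ (- 1 - α))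
        (Ioi 1) :=
      (integrableOn_Ioi_rpow_of_lt (by linarith) one_pos).const_mul _
    refine Integrable.mono' h1 hmeas.aestronglyMeasurable.restrict ?_
    refine (ae_restrict_iff' measurableSet_Ioi).mpr (Filter.Eventually.of_forall fun y hy => ?_)
    have hy0 : 0 < y := lt_trans one_pos hy
    have hmin0 : 0 ≤ min 2 (2 * π * y) := by positivity
    rw [Real.norm_of_nonneg (by unfold radf; positivity)]
    unfold radf
    calc y ^ 2 * (y ^ (-(3 + α)) * (min 2 (2 * π * y)) ^ (2 * m))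
        ≤ y ^ 2 * (y ^ (-(3 + α)) * 2 ^ (2 * m)) := by
          gcongr
          exact min_le_left _ _
      _ = 2 ^ (2 * m) * (y ^ 2 * y ^ (-(3 + α))) := by ring
      _ = 2 ^ (2 * m) * y ^ (- 1 - α) := by
          congr 1
          rw [← Real.rpow_natCast y 2, ← Real.rpow_add hy0]
          congr 1
          push_cast
          ring

lemma lintegral_radf_lt_top (α : ℝ) (m : ℕ) (hα : 0 < α) (hm : α < 2 * m) :
    ∫⁻ u : E3, ENNReal.ofReal (radf α m ‖u‖) < ∞ := by
  have h := (integrable_fun_norm_addHaar (volume : Measure E3) (f := radf α m)).mpr (by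
    simpa using integrableOn_radf α m hα hm)
  exact h.lintegral_lt_top

lemma lintegral_scale (ρ : ℝ) (hρ : 0 < ρ) (g : E3 → ℝ≥0∞) (hg : Measurable g) :
    ∫⁻ h, g (ρ • h) = ENNReal.ofReal ((ρ ^ 3)⁻¹) * ∫⁻ u, g u := by
  rw [← lintegral_map hg (measurable_const_smul ρ), Measure.map_addHaar_smul volume hρ.ne',
    lintegral_smul_measure]
  simp [abs_of_pos hρ]

lemma norm_one_sub_phase_le (h p : E3) : ‖1 - phase h p‖ ≤ min 2 (2 * π * (‖p‖ * ‖h‖)) := by
  refine le_min ?_ ?_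
  · calc ‖1 - phase h p‖ ≤ ‖(1 : ℂ)‖ + ‖phase h p‖ := norm_sub_le _ _
      _ = 2 := by rw [norm_phase]; norm_num
  · have h1 : phase h p = Complex.exp (Complex.I * ((2 * π * ⟪h, p⟫_ℝ : ℝ) : ℂ)) := by
      unfold phase
      rw [Real.fourierChar_apply]
      congr 1
      push_cast
      ring
    rw [norm_sub_rev, h1]
    refine (Real.norm_exp_I_mul_ofReal_sub_one_le (x := 2 * π * ⟪h, p⟫_ℝ)).trans ?_
    rw [Real.norm_eq_abs, abs_mul, abs_of_pos (by positivity : (0 : ℝ) < 2 * π)]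
    have := abs_real_inner_le_norm h p
    have hπ : (0 : ℝ) < 2 * π := by positivity
    nlinarith

lemma symb_le (α : ℝ) (m : ℕ) (hα : 0 < α) (hm : α < 2 * m) :
    ∃ C : ℝ, 0 < C ∧ ∀ p : E3, symb α m p ≤ ENNReal.ofReal C *
      ENNReal.ofReal ((2 * π * ‖p‖) ^ α) := by
  have hfin := lintegral_radf_lt_top α m hα hm
  set K := ∫⁻ u : E3, ENNReal.ofReal (radf α m ‖u‖) with hK
  have hm0 : m ≠ 0 := by
    rintro rfl
    simp at hm
    linarith
  refine ⟨K.toReal + 1, by positivity, fun p => ?_⟩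
  by_cases hp : p = 0
  · have : symb α m p = 0 := by
      unfold symb
      have h0 : ∀ h : E3, ENNReal.ofReal (‖h‖ ^ (-(3 + α))) * ‖1 - phase h p‖ₑ ^ (2 * m) = 0 := by
        intro h
        have : (1 : ℂ) - phase h p = 0 := by
          unfold phase
          rw [hp]
          simp
        rw [this]
        simp [hm0]
      exact (lintegral_congr h0).trans lintegral_zero
    rw [this]
    exact bot_le
  have hρ : 0 < ‖p‖ := norm_pos_iff.mpr hp
  have hradm : Measurable (fun u : E3 => ENNReal.ofReal (radf α m ‖u‖)) := by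
    unfold radf
    fun_prop
  have key : symb α m p ≤ ENNReal.ofReal (‖p‖ ^ (3 + α)) *
      ∫⁻ h : E3, ENNReal.ofReal (radf α m ‖(‖p‖ • h)‖) := by
    unfold symb
    have hm2 : Measurable (fun h : E3 => ENNReal.ofReal (radf α m ‖(‖p‖ • h)‖)) :=
      hradm.comp (measurable_const_smul ‖p‖)
    rw [← lintegral_const_mul _ hm2]
    apply lintegral_mono
    intro h
    by_cases hh : h = 0
    · have h0 : (‖h‖) ^ (-(3 + α)) = 0 := by
        rw [hh, norm_zero, Real.zero_rpow (by linarith)]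
      simp only [h0, ENNReal.ofReal_zero, zero_mul]
      exact zero_le
    have hh0 : 0 < ‖h‖ := norm_pos_iff.mpr hh
    simp only
    rw [← ofReal_norm, ← ENNReal.ofReal_pow (norm_nonneg _),
      ← ENNReal.ofReal_mul (by positivity), ← ENNReal.ofReal_mul (by positivity)]
    apply ENNReal.ofReal_le_ofReal
    have e1 : ‖(‖p‖ • h)‖ = ‖p‖ * ‖h‖ := by rw [norm_smul, norm_norm]
    rw [e1]
    unfold radf
    rw [Real.mul_rpow hρ.le hh0.le]
    have e2 : ‖p‖ ^ (3 + α) * ‖p‖ ^ (-(3 + α)) = 1 := by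
      rw [← Real.rpow_add hρ]
      simp
    have e3 := norm_one_sub_phase_le h p
    calc ‖h‖ ^ (-(3 + α)) * ‖1 - phase h p‖ ^ (2 * m)
        ≤ ‖h‖ ^ (-(3 + α)) * (min 2 (2 * π * (‖p‖ * ‖h‖))) ^ (2 * m) := by gcongr
      _ = ‖p‖ ^ (3 + α) * (‖p‖ ^ (-(3 + α)) * ‖h‖ ^ (-(3 + α)) *
          (min 2 (2 * π * (‖p‖ * ‖h‖))) ^ (2 * m)) := by
          calc _ = 1 * (‖h‖ ^ (-(3 + α)) * (min 2 (2 * π * (‖p‖ * ‖h‖))) ^ (2 * m)) := by ring
            _ = _ := by rw [← e2]; ring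
  rw [lintegral_scale ‖p‖ hρ (fun u : E3 => ENNReal.ofReal (radf α m ‖u‖)) hradm, ← hK] at key
  refine key.trans ?_
  rw [← mul_assoc, ← ENNReal.ofReal_mul (by positivity), mul_comm]
  have e4 : ‖p‖ ^ (3 + α) * (‖p‖ ^ 3)⁻¹ = ‖p‖ ^ α := by
    rw [Real.rpow_add hρ]
    have : ‖p‖ ^ (3 : ℝ) = ‖p‖ ^ 3 := by
      rw [← Real.rpow_natCast]; norm_num
    rw [this]
    field_simp
  rw [e4]
  gcongr
  · rw [← ENNReal.ofReal_toReal hfin.ne]
    apply ENNReal.ofReal_le_ofReal
    rw [ENNReal.toReal_ofReal (by positivity)]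
    linarith
  · have : (1 : ℝ) ≤ 2 * π := by nlinarith [Real.pi_gt_three]
    nlinarith

lemma one_le_norm_one_sub_phase (h p : E3) (h1 : 1 / 4 ≤ ⟪h, p⟫_ℝ) (h2 : ⟪h, p⟫_ℝ ≤ 3 / 4) :
    1 ≤ ‖1 - phase h p‖ := by
  have hre : (phase h p).re = Real.cos (2 * π * ⟪h, p⟫_ℝ) := by
    unfold phase
    rw [Real.fourierChar_apply]
    rw [Complex.exp_re]
    simp
  have hcos : Real.cos (2 * π * ⟪h, p⟫_ℝ) ≤ 0 := by
    apply Real.cos_nonpos_of_pi_div_two_le_of_le
    · nlinarith [Real.pi_pos]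
    · nlinarith [Real.pi_pos]
  have h3 := Complex.abs_re_le_norm (1 - phase h p)
  have h4 : (1 - phase h p).re = 1 - Real.cos (2 * π * ⟪h, p⟫_ℝ) := by
    rw [Complex.sub_re, hre]; simp
  rw [h4] at h3
  have := le_abs_self (1 - Real.cos (2 * π * ⟪h, p⟫_ℝ))
  linarith

lemma le_symb (α : ℝ) (m : ℕ) (hα : 0 < α) :
    ∃ C : ℝ, 0 < C ∧ ∀ p : E3, ENNReal.ofReal ((2 * π * ‖p‖) ^ α) ≤
      ENNReal.ofReal C * symb α m p := by
  set b : ℝ≥0∞ := volume (Metric.ball (0 : E3) 1) with hb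
  have hb0 : b ≠ 0 := (Metric.measure_ball_pos volume _ one_pos).ne'
  have hbt : b ≠ ∞ := measure_ball_lt_top.ne
  have hbr : 0 < b.toReal := ENNReal.toReal_pos hb0 hbt
  -- constant
  set c : ℝ := (3 / 4 : ℝ) ^ (-(3 + α)) * (1 / 4) ^ 3 * b.toReal with hc
  have hc0 : 0 < c := by positivity
  refine ⟨(2 * π) ^ α / c, by positivity, fun p => ?_⟩
  by_cases hp : p = 0
  · rw [hp]
    simp [Real.zero_rpow hα.ne']
  have hρ : 0 < ‖p‖ := norm_pos_iff.mpr hp
  have key : ENNReal.ofReal (c * ‖p‖ ^ α) ≤ symb α m p := by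
    set ctr : E3 := (1 / (2 * ‖p‖ ^ 2)) • p with hctr
    set r : ℝ := 1 / (4 * ‖p‖) with hr
    have hr0 : 0 < r := by positivity
    have hball : volume (Metric.ball ctr r) = ENNReal.ofReal (r ^ 3) * b := by
      rw [Measure.addHaar_ball volume ctr hr0.le, hb, finrank_euclideanSpace_fin]
    have hpt : ∀ h ∈ Metric.ball ctr r, 1 / 4 ≤ ⟪h, p⟫_ℝ ∧ ⟪h, p⟫_ℝ ≤ 3 / 4 ∧ 0 < ‖h‖ ∧
        ‖h‖ ≤ 3 / (4 * ‖p‖) := by
      intro h hh
      have hd : ‖h - ctr‖ < r := by rwa [Metric.mem_ball, dist_eq_norm] at hh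
      have i1 : ⟪ctr, p⟫_ℝ = 1 / 2 := by
        rw [hctr, real_inner_smul_left, real_inner_self_eq_norm_sq]
        field_simp
      have i2 : ⟪h, p⟫_ℝ = 1 / 2 + ⟪h - ctr, p⟫_ℝ := by
        rw [inner_sub_left, i1]; ring
      have i3 : |⟪h - ctr, p⟫_ℝ| ≤ 1 / 4 := by
        refine (abs_real_inner_le_norm _ _).trans ?_
        calc ‖h - ctr‖ * ‖p‖ ≤ r * ‖p‖ := by gcongr
          _ = 1 / 4 := by rw [hr]; field_simp
      have i4 := abs_le.mp i3
      have n1 : ‖ctr‖ = 1 / (2 * ‖p‖) := by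
        rw [hctr, norm_smul, Real.norm_of_nonneg (by positivity)]
        field_simp
      refine ⟨by linarith [i4.1], by linarith [i4.2], ?_, ?_⟩
      · by_contra hcon
        have h0 : h = 0 := norm_le_zero_iff.mp (not_lt.mp hcon)
        rw [h0, inner_zero_left] at i2
        rw [h0] at i4
        linarith [i4.1]
      · calc ‖h‖ = ‖ctr + (h - ctr)‖ := by congr 1; abel
          _ ≤ ‖ctr‖ + ‖h - ctr‖ := norm_add_le _ _
          _ ≤ 1 / (2 * ‖p‖) + r := by rw [n1]; gcongr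
          _ = 3 / (4 * ‖p‖) := by rw [hr]; field_simp; norm_num
    calc ENNReal.ofReal (c * ‖p‖ ^ α)
        = ENNReal.ofReal ((3 / (4 * ‖p‖)) ^ (-(3 + α))) * volume (Metric.ball ctr r) := by
          rw [hball, ← ENNReal.ofReal_toReal hbt, ← ENNReal.ofReal_mul (by positivity),
            ← ENNReal.ofReal_mul (by positivity)]
          congr 1
          rw [hc, hr]
          have e1 : (3 / (4 * ‖p‖)) ^ (-(3 + α)) = (3 / 4 : ℝ) ^ (-(3 + α)) * ‖p‖ ^ (3 + α) := by
            rw [show 3 / (4 * ‖p‖) = (3 / 4) * ‖p‖⁻¹ by field_simp,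
              Real.mul_rpow (by norm_num) (by positivity), Real.inv_rpow hρ.le,
              Real.rpow_neg hρ.le, inv_inv]
          rw [e1, Real.rpow_add hρ]
          have : ‖p‖ ^ (3 : ℝ) = ‖p‖ ^ 3 := by
            rw [← Real.rpow_natCast]; norm_num
          rw [this]
          field_simp
      _ = ∫⁻ h in Metric.ball ctr r, ENNReal.ofReal ((3 / (4 * ‖p‖)) ^ (-(3 + α))) := by
          rw [setLIntegral_const]
      _ ≤ ∫⁻ h in Metric.ball ctr r,
          ENNReal.ofReal (‖h‖ ^ (-(3 + α))) * ‖1 - phase h p‖ₑ ^ (2 * m) := by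
          apply setLIntegral_mono' measurableSet_ball
          intro h hh
          obtain ⟨g1, g2, g3, g4⟩ := hpt h hh
          have g5 := one_le_norm_one_sub_phase h p g1 g2
          calc ENNReal.ofReal ((3 / (4 * ‖p‖)) ^ (-(3 + α)))
              = ENNReal.ofReal ((3 / (4 * ‖p‖)) ^ (-(3 + α))) * 1 := by rw [mul_one]
            _ ≤ ENNReal.ofReal (‖h‖ ^ (-(3 + α))) * ‖1 - phase h p‖ₑ ^ (2 * m) := by
              refine mul_le_mul' ?_ ?_
              · exact ENNReal.ofReal_le_ofReal (Real.rpow_le_rpow_of_nonpos g3 g4 (by linarith))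
              · apply one_le_pow₀
                rw [← ofReal_norm]
                rw [← ENNReal.ofReal_one]
                exact ENNReal.ofReal_le_ofReal g5
      _ ≤ symb α m p := setLIntegral_le_lintegral _ _
  calc ENNReal.ofReal ((2 * π * ‖p‖) ^ α)
      = ENNReal.ofReal ((2 * π) ^ α / c) * ENNReal.ofReal (c * ‖p‖ ^ α) := by
        rw [← ENNReal.ofReal_mul (by positivity)]
        congr 1
        rw [Real.mul_rpow (by positivity) hρ.le]
        field_simp
    _ ≤ ENNReal.ofReal ((2 * π) ^ α / c) * symb α m p := by gcongr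

end

end Pool.Agent.H.MP_d1ae63_mp
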