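import Pool.Agent.H.MP_d1ae63_mp.LeafEst

/-!
# The leaf lemma
-/

set_option autoImplicit false

open MeasureTheory Set
open scoped ENNReal Real InnerProductSpace

namespace Pool.Agent.H.MP_d1ae63_mp

noncomputable section

variable {N : ℕ}

theorem geom_le {r : ℝ} (h0 : 0 ≤ r) (h1 : r < 1) (D : ℕ) :
    ∑ d ∈ Finset.range D, r ^ d ≤ (1 - r)⁻¹ := by
  rw [← tsum_geometric_of_lt_one h0 h1]
  exact (summable_geometric_of_lt_one h0 h1).sum_le_tsum _ (fun _ _ => by positivity)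

/-- norm of a localized function as an integral -/
theorem norm_mulInd_sq_eq {ψ : (Fin N → X3) → ℂ} (hψ : Measurable ψ)
    (_hfin : ∫⁻ y, ‖ψ y‖ₑ ^ 2 ≠ ∞) {Ω : Set (Fin N → X3)} (hΩ : MeasurableSet Ω) (φ : HN N)
    (hφ : (φ : (Fin N → X3) → ℂ) =ᵐ[volume] Ω.indicator ψ) {S : Set (Fin N → X3)}
    (hS : MeasurableSet S) :
    ‖mulInd S φ‖ ^ 2 = ∫ y in Ω, S.indicator (fun _ => (1 : ℝ)) y * ‖ψ y‖ ^ 2 := by
  have h1 : ENNReal.ofReal (‖mulInd S φ‖ ^ 2) = ∫⁻ y in Ω, S.indicator (fun y => ‖ψ y‖ₑ ^ 2) y := by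
    rw [ofReal_norm_mulInd_sq hS, setLIntegral_indicator hS]
    calc ∫⁻ y in S, ‖φ y‖ₑ ^ 2 = ∫⁻ y in S, Ω.indicator (fun y => ‖ψ y‖ₑ ^ 2) y := by
          apply lintegral_congr_ae
          filter_upwards [ae_restrict_of_ae hφ] with y hy
          rw [hy]
          by_cases h : y ∈ Ω
          · rw [indicator_of_mem h, indicator_of_mem h]
          · rw [indicator_of_notMem h, indicator_of_notMem h]; simp
      _ = ∫⁻ y in Ω ∩ S, ‖ψ y‖ₑ ^ 2 := setLIntegral_indicator hΩ _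
      _ = _ := by rw [inter_comm]
  have h2 : ∫ y in Ω, S.indicator (fun _ => (1 : ℝ)) y * ‖ψ y‖ ^ 2
      = (∫⁻ y in Ω, ENNReal.ofReal (S.indicator (fun _ => (1 : ℝ)) y * ‖ψ y‖ ^ 2)).toReal := by
    apply integral_eq_lintegral_of_nonneg_ae
    · filter_upwards with y
      exact mul_nonneg (indicator_nonneg (fun _ _ => zero_le_one) _) (by positivity)
    · exact ((measurable_const.indicator hS).mul (hψ.norm.pow_const 2)).aestronglyMeasurable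
  have h3 : ∀ y, ENNReal.ofReal (S.indicator (fun _ => (1 : ℝ)) y * ‖ψ y‖ ^ 2)
      = S.indicator (fun y => ‖ψ y‖ₑ ^ 2) y := by
    intro y
    by_cases h : y ∈ S
    · rw [indicator_of_mem h, indicator_of_mem h, one_mul, ENNReal.ofReal_pow (norm_nonneg _),
        ofReal_norm]
    · rw [indicator_of_notMem h, indicator_of_notMem h]; simp
  rw [h2]
  simp_rw [h3]
  rw [← h1, ENNReal.toReal_ofReal (by positivity)]

theorem integrable_norm_sq {ψ : (Fin N → X3) → ℂ} (hψ : Measurable ψ)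
    (hfin : ∫⁻ y, ‖ψ y‖ₑ ^ 2 ≠ ∞) : Integrable (fun y => ‖ψ y‖ ^ 2) := by
  refine ⟨(hψ.norm.pow_const 2).aestronglyMeasurable, ?_⟩
  unfold HasFiniteIntegral
  have : ∀ y, ‖(‖ψ y‖ ^ 2 : ℝ)‖ₑ = ‖ψ y‖ₑ ^ 2 := by
    intro y
    rw [Real.enorm_eq_ofReal (by positivity), ENNReal.ofReal_pow (norm_nonneg _), ofReal_norm]
  simp_rw [this]
  exact hfin.lt_top

/-- the sum over the subcubes of one level as an integral -/
theorem level_integral_eq {ψ : (Fin N → X3) → ℂ} (hψ : Measurable ψ)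
    (hfin : ∫⁻ y, ‖ψ y‖ₑ ^ 2 ≠ ∞) {Ω : Set (Fin N → X3)} (hΩ : MeasurableSet Ω) (φ : HN N)
    (hφ : (φ : (Fin N → X3) → ℂ) =ᵐ[volume] Ω.indicator ψ) (ℓ : ℤ) (z : Fin 3 → ℤ)
    (I : Finset (Fin N)) (hB : ∀ y ∈ Ω, ∀ i ∈ I, y i ∈ cube ℓ z) (d : ℕ) (e : Fin N → ℝ) :
    ∑ z' ∈ subcubes z d, ∑ p ∈ I.offDiag, e p.1 * e p.2 *
        ‖aop N (ℓ + d) z' p.1 (aop N (ℓ + d) z' p.2 φ)‖ ^ 2
      = ∫ y in Ω, (∑ p ∈ I.offDiag, (if cellIdx (ℓ + d) (y p.1) = cellIdx (ℓ + d) (y p.2)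
          then e p.1 * e p.2 else 0)) * ‖ψ y‖ ^ 2 := by
  have hint := (integrable_norm_sq hψ hfin).restrict (s := Ω)
  set S : (Fin 3 → ℤ) → Fin N → Set (Fin N → X3) := fun z' i =>
    {y : Fin N → X3 | y i ∈ cube (ℓ + d) z'} with hS
  have hSm : ∀ z' i, MeasurableSet (S z' i) := fun z' i =>
    measurableSet_coord i (measurableSet_cube (ℓ + d) z')
  have h1 : ∀ z' : Fin 3 → ℤ, ∀ p : Fin N × Fin N,
      e p.1 * e p.2 * ‖aop N (ℓ + d) z' p.1 (aop N (ℓ + d) z' p.2 φ)‖ ^ 2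
      = ∫ y in Ω, e p.1 * e p.2 * ((S z' p.1 ∩ S z' p.2).indicator (fun _ => (1 : ℝ)) y
        * ‖ψ y‖ ^ 2) := by
    intro z' p
    unfold aop
    rw [mulInd_mulInd (hSm z' p.1) (hSm z' p.2),
      norm_mulInd_sq_eq hψ hfin hΩ φ hφ ((hSm z' p.1).inter (hSm z' p.2)), integral_const_mul]
  have h2 : ∀ z' : Fin 3 → ℤ, ∀ p : Fin N × Fin N,
      Integrable (fun y => e p.1 * e p.2 * ((S z' p.1 ∩ S z' p.2).indicator (fun _ => (1 : ℝ)) y
        * ‖ψ y‖ ^ 2)) (volume.restrict Ω) := by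
    intro z' p
    refine Integrable.const_mul ?_ _
    refine Integrable.bdd_mul (c := 1) hint
      (measurable_const.indicator ((hSm z' p.1).inter (hSm z' p.2))).aestronglyMeasurable ?_
    filter_upwards with y
    rw [Real.norm_eq_abs, abs_of_nonneg (indicator_nonneg (fun _ _ => zero_le_one) _)]
    exact indicator_le_self' (fun _ _ => zero_le_one) _
  simp_rw [h1]
  have h3 : ∀ z' : Fin 3 → ℤ, ∑ p ∈ I.offDiag, ∫ y in Ω, e p.1 * e p.2 *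
      ((S z' p.1 ∩ S z' p.2).indicator (fun _ => (1 : ℝ)) y * ‖ψ y‖ ^ 2)
      = ∫ y in Ω, ∑ p ∈ I.offDiag, e p.1 * e p.2 *
      ((S z' p.1 ∩ S z' p.2).indicator (fun _ => (1 : ℝ)) y * ‖ψ y‖ ^ 2) := fun z' =>
    (integral_finsetSum _ (fun p _ => h2 z' p)).symm
  simp_rw [h3]
  rw [← integral_finsetSum _ (fun z' _ => integrable_finsetSum _ (fun p _ => h2 z' p))]
  apply setIntegral_congr_fun hΩ
  intro y hy
  simp only
  rw [Finset.sum_comm, Finset.sum_mul]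
  apply Finset.sum_congr rfl
  intro p hp
  obtain ⟨hp1, hp2, _⟩ := Finset.mem_offDiag.mp hp
  have hc1 := cellIdx_mem_subcubes (hB y hy p.1 hp1) d
  rw [← Finset.mul_sum, ← Finset.sum_mul]
  have h4 : ∑ z' ∈ subcubes z d, (S z' p.1 ∩ S z' p.2).indicator (fun _ => (1 : ℝ)) y
      = if cellIdx (ℓ + d) (y p.1) = cellIdx (ℓ + d) (y p.2) then 1 else 0 := by
    rw [Finset.sum_eq_single_of_mem _ hc1]
    · by_cases hc : cellIdx (ℓ + d) (y p.1) = cellIdx (ℓ + d) (y p.2)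
      · rw [if_pos hc, indicator_of_mem]
        exact ⟨mem_cube_self _ _, hc.symm⟩
      · rw [if_neg hc, indicator_of_notMem]
        rintro ⟨_, h5⟩
        exact hc (show cellIdx (ℓ + d) (y p.2) = _ from h5).symm
    · intro z' _ hne
      rw [indicator_of_notMem]
      rintro ⟨h5, _⟩
      exact hne (show cellIdx (ℓ + d) (y p.1) = z' from h5).symm
  rw [h4]
  split_ifs <;> ring

/-- the leaf lemma -/
theorem leaf_lemma (α : ℝ) (hα : 1 < α) (m : ℕ) (hm : 1 ≤ m) : LeafStatement α m := by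
  have hα0 : 0 < α := by linarith
  set β : ℝ := min α 2 with hβ
  have hβα : β ≤ α := min_le_left _ _
  have hβ2 : β ≤ 2 := min_le_right _ _
  have hβ1 : 1 < β := lt_min hα (by norm_num)
  have hK := K3_nonneg α m
  have hC := Ck_nonneg m
  have hkap := kap_nonneg m
  -- the geometric ratios
  set r1 : ℝ := (2 : ℝ) ^ (1 - β) with hr1
  have hr10 : 0 ≤ r1 := by positivity
  have hr11 : r1 < 1 := Real.rpow_lt_one_of_one_lt_of_neg (by norm_num) (by linarith)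
  set r2 : ℝ := 2 / √8 with hr2
  have hs8 : 0 < √(8 : ℝ) := Real.sqrt_pos.mpr (by norm_num)
  have hr20 : 0 ≤ r2 := by positivity
  have hr21 : r2 < 1 := by
    rw [hr2, div_lt_one hs8]
    rw [show (2 : ℝ) = √4 by rw [show (4 : ℝ) = 2 ^ 2 by norm_num]; simp]
    exact Real.sqrt_lt_sqrt (by norm_num) (by norm_num)
  set S1 : ℝ := (1 - r1)⁻¹ with hS1
  set S2 : ℝ := (1 - r2)⁻¹ with hS2
  have hS10 : 0 ≤ S1 := inv_nonneg.mpr (by linarith)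
  have hS20 : 0 ≤ S2 := inv_nonneg.mpr (by linarith)
  set c1 : ℝ := 3 * Ck m ^ 2 * 2 with hc1
  set c2 : ℝ := 18 * Ck m * (1 + kap m) ^ 2 * 2 + 24 * (1 + 12 * K3 α m) * S1
    + 3 * (4 * kap m ^ 2 + 2 * Ck m * (1 + kap m) ^ 2) * 2 with hc2
  set c3 : ℝ := 2 * Ck m * (1 + kap m) ^ 3 * S2 with hc3
  have hc10 : 0 ≤ c1 := by positivity
  have hc20 : 0 ≤ c2 := by positivity
  have hc30 : 0 ≤ c3 := by positivity
  refine ⟨c1 + c2 + c3 + 1, by positivity, ?_⟩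
  intro N ℓ J z I e he Ω hΩ hB hinv ψ hψ hfin hdif A T hA hT
  -- the localized function
  set φ0 : (Fin N → X3) → ℂ := Ω.indicator ψ with hφ0
  have hφ0m : Measurable φ0 := hψ.indicator hΩ
  have hφ0fin : ∫⁻ y, ‖φ0 y‖ₑ ^ 2 ≠ ∞ := by
    refine ne_top_of_le_ne_top hfin (lintegral_mono fun y => ?_)
    show ‖φ0 y‖ₑ ^ 2 ≤ ‖ψ y‖ₑ ^ 2
    by_cases h : y ∈ Ω
    · rw [hφ0, indicator_of_mem h]
    · rw [hφ0, indicator_of_notMem h]; simp
  have hmem : MemLp φ0 2 volume := by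
    refine ⟨hφ0m.aestronglyMeasurable, ?_⟩
    rw [eLpNorm_lt_top_iff_lintegral_rpow_enorm_lt_top (by norm_num) (by norm_num)]
    simpa using hφ0fin.lt_top
  set φ : HN N := hmem.toLp φ0 with hφ
  have hae : (φ : (Fin N → X3) → ℂ) =ᵐ[volume] φ0 := hmem.coeFn_toLp
  set Tk : Fin N → ℝ := fun k => (∫⁻ y in Ω, tau α m k ψ y).toReal with hTk
  have htaufin : ∀ k, ∫⁻ y in Ω, tau α m k ψ y ≠ ∞ := fun k =>
    ne_top_of_le_ne_top (hdif k) (setLIntegral_le_lintegral _ _)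
  have hLD : LeafData α m (ℓ : ℤ) z I φ0 φ Tk := by
    refine ⟨hφ0m, hφ0fin, hae, ?_, fun k _ => ENNReal.toReal_nonneg, ?_⟩
    · intro k hk y hy
      rw [hφ0, indicator_of_notMem]
      exact fun h => hy (hB y h k hk)
    · intro k hk
      rw [hTk, ENNReal.ofReal_toReal (htaufin k)]
      exact lintegral_Hloc_le α m ℓ z k ψ hΩ (fun y hy => hB y hy k hk)
        (fun y hy => hinv y hy k hk)
  have hnormφ : ‖φ‖ ^ 2 = A := by
    have h1 := norm_mulInd_sq_eq hψ hfin hΩ φ hae (MeasurableSet.univ)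
    have h2 : mulInd (univ : Set (Fin N → X3)) φ = φ := by
      apply Lp.ext
      filter_upwards [mulInd_apply univ MeasurableSet.univ φ] with y hy
      rw [hy, indicator_univ]
    rw [h2] at h1
    rw [h1, hA]
    simp
  have hA0 : 0 ≤ A := by rw [← hnormφ]; positivity
  have hnormφ' : ‖φ‖ = √A := by rw [← hnormφ, Real.sqrt_sq (norm_nonneg _)]
  have hTeq : ∑ k ∈ I, Tk k = T := hT.symm
  have hT0 : 0 ≤ T := by rw [← hTeq]; exact Finset.sum_nonneg fun _ _ => ENNReal.toReal_nonneg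
  set n : ℝ := (I.card : ℝ) with hn
  have hn0 : 0 ≤ n := Nat.cast_nonneg _
  have hint := integrable_norm_sq hψ hfin
  -- the integral of `leafW`
  have hW : ∫ y in Ω, leafW ℓ J I e y * ‖ψ y‖ ^ 2
      = ∑ d ∈ Finset.range (J + 1 - ℓ), (2 : ℝ) ^ (ℓ + d) * ((1 / 2) *
        ∑ z' ∈ subcubes z d, ∑ p ∈ I.offDiag, e p.1 * e p.2 *
        ‖aop N (ℓ + d) z' p.1 (aop N (ℓ + d) z' p.2 φ)‖ ^ 2) := by
    have e1 : ∀ y : Fin N → X3, leafW ℓ J I e y * ‖ψ y‖ ^ 2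
        = ∑ d ∈ Finset.range (J + 1 - ℓ), (2 : ℝ) ^ (ℓ + d) * ((1 / 2) *
          ((∑ p ∈ I.offDiag, (if cellIdx (ℓ + d) (y p.1) = cellIdx (ℓ + d) (y p.2)
          then e p.1 * e p.2 else 0)) * ‖ψ y‖ ^ 2)) := by
      intro y
      unfold leafW
      rw [← Finset.Ico_add_one_right_eq_Icc, Finset.sum_Ico_eq_sum_range, Finset.sum_mul]
      apply Finset.sum_congr rfl
      intro d _
      push_cast
      ring
    simp_rw [e1]
    rw [integral_finsetSum]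
    · apply Finset.sum_congr rfl
      intro d _
      rw [integral_const_mul, integral_const_mul,
        level_integral_eq hψ hfin hΩ φ hae ℓ z I hB d e]
    · intro d _
      refine Integrable.const_mul (Integrable.const_mul ?_ _) _
      refine Integrable.bdd_mul (c := ∑ p ∈ I.offDiag, |e p.1 * e p.2|) hint.restrict ?_ ?_
      · refine Measurable.aestronglyMeasurable ?_
        refine Finset.measurable_fun_sum _ fun p _ => ?_
        refine Measurable.ite ?_ measurable_const measurable_const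
        have m1 : Measurable fun y : Fin N → X3 => cellIdx (ℓ + d) (y p.1) :=
          (measurable_cellIdx _).comp (measurable_pi_apply p.1)
        have m2 : Measurable fun y : Fin N → X3 => cellIdx (ℓ + d) (y p.2) :=
          (measurable_cellIdx _).comp (measurable_pi_apply p.2)
        exact measurableSet_eq_fun m1 m2
      · filter_upwards with y
        refine (norm_sum_le _ _).trans ?_
        apply Finset.sum_le_sum
        intro p _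
        split_ifs
        · rw [Real.norm_eq_abs]
        · rw [norm_zero]; positivity
  rw [hW]
  -- the lower bound on each level
  have hs := side_pos (ℓ : ℤ)
  have hsα : side (ℓ : ℤ) ^ α = (2 : ℝ) ^ (-(ℓ : ℝ) * α) := by
    rw [side_rpow]; push_cast; rfl
  set E : ℕ → ℝ := fun d => n * (3 * Ck m ^ 2 * ((8 : ℝ) ^ d)⁻¹ * A
      + 18 * Ck m * ((8 : ℝ) ^ d)⁻¹ * ((1 + kap m) ^ 2 * side (ℓ : ℤ) ^ α * T)
      + 3 * ((4 * (2 * (1 + 12 * K3 α m) * (side (ℓ : ℤ) ^ α * ((2 : ℝ) ^ (-β)) ^ d))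
        + (4 * kap m ^ 2 + 2 * Ck m * (1 + kap m) ^ 2) * ((8 : ℝ) ^ d)⁻¹ * side (ℓ : ℤ) ^ α) * T)
      + 2 * Ck m * (1 + kap m) ^ 2 * (√((8 : ℝ) ^ d))⁻¹ *
        √((1 + kap m) ^ 2 * side (ℓ : ℤ) ^ α * T) * √A) with hE
  have hlev : ∀ d : ℕ, -E d ≤ ∑ z' ∈ subcubes z d, ∑ p ∈ I.offDiag, e p.1 * e p.2 *
        ‖aop N (ℓ + d) z' p.1 (aop N (ℓ + d) z' p.2 φ)‖ ^ 2 := by
    intro d
    have h := hLD.level_lower hα0 hm hβα hβ2 d e he
    rw [hTeq, hnormφ, hnormφ'] at h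
    have e1 : side (ℓ : ℤ) ^ (α - β) * side ((ℓ : ℤ) + d) ^ β
        = side (ℓ : ℤ) ^ α * ((2 : ℝ) ^ (-β)) ^ d := by
      have h1 : side ((ℓ : ℤ) + d) = side (ℓ : ℤ) * ((2 : ℝ) ^ d)⁻¹ := by
        rw [side_add (ℓ : ℤ) d]; field_simp
      rw [h1, Real.mul_rpow hs.le (by positivity), ← mul_assoc, ← Real.rpow_add hs,
        sub_add_cancel]
      congr 1
      rw [Real.inv_rpow (by positivity), ← Real.rpow_natCast, ← Real.rpow_mul (by norm_num),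
        ← Real.rpow_natCast, ← Real.rpow_mul (by norm_num), ← Real.rpow_neg (by norm_num)]
      congr 1
      ring
    rw [e1] at h
    exact h
  have hstep : ∑ d ∈ Finset.range (J + 1 - ℓ), -((2 : ℝ) ^ (ℓ + d) * ((1 / 2) * E d))
      ≤ ∑ d ∈ Finset.range (J + 1 - ℓ), (2 : ℝ) ^ (ℓ + d) * ((1 / 2) *
        ∑ z' ∈ subcubes z d, ∑ p ∈ I.offDiag, e p.1 * e p.2 *
        ‖aop N (ℓ + d) z' p.1 (aop N (ℓ + d) z' p.2 φ)‖ ^ 2) := by
    apply Finset.sum_le_sum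
    intro d _
    have h := hlev d
    have h2 : (0 : ℝ) < (2 : ℝ) ^ (ℓ + d) * (1 / 2) := by positivity
    have h3 := mul_le_mul_of_nonneg_left h h2.le
    calc -((2 : ℝ) ^ (ℓ + d) * ((1 / 2) * E d)) = (2 : ℝ) ^ (ℓ + d) * (1 / 2) * (-E d) := by ring
      _ ≤ _ := h3
      _ = _ := by ring
  refine le_trans ?_ hstep
  rw [Finset.sum_neg_distrib, neg_le_neg_iff]
  -- sum of the series
  set D := J + 1 - ℓ with hD
  have g1 : ∑ d ∈ Finset.range D, (2 : ℝ) ^ d * ((8 : ℝ) ^ d)⁻¹ ≤ 2 := by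
    have : ∀ d : ℕ, (2 : ℝ) ^ d * ((8 : ℝ) ^ d)⁻¹ = (1 / 4) ^ d := by
      intro d
      rw [← inv_pow, ← mul_pow]; norm_num
    simp_rw [this]
    refine (geom_le (by norm_num) (by norm_num) D).trans (by norm_num)
  have g2 : ∑ d ∈ Finset.range D, (2 : ℝ) ^ d * ((2 : ℝ) ^ (-β)) ^ d ≤ S1 := by
    have : ∀ d : ℕ, (2 : ℝ) ^ d * ((2 : ℝ) ^ (-β)) ^ d = r1 ^ d := by
      intro d
      rw [← mul_pow, hr1, Real.rpow_sub (by norm_num), Real.rpow_one, Real.rpow_neg (by norm_num)]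
      rfl
    simp_rw [this]
    exact geom_le hr10 hr11 D
  have g3 : ∑ d ∈ Finset.range D, (2 : ℝ) ^ d * (√((8 : ℝ) ^ d))⁻¹ ≤ S2 := by
    have : ∀ d : ℕ, (2 : ℝ) ^ d * (√((8 : ℝ) ^ d))⁻¹ = r2 ^ d := by
      intro d
      have h1 : √((8 : ℝ) ^ d) = √8 ^ d := by
        rw [Real.sqrt_eq_iff_mul_self_eq (by positivity) (by positivity), ← mul_pow,
          Real.mul_self_sqrt (by norm_num)]
      rw [h1, hr2, div_pow]; rfl
    simp_rw [this]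
    exact geom_le hr20 hr21 D
  have hsum : ∑ d ∈ Finset.range D, (2 : ℝ) ^ (ℓ + d) * ((1 / 2) * E d)
      = (2 : ℝ) ^ ℓ * (1 / 2) * n * (
        3 * Ck m ^ 2 * A * (∑ d ∈ Finset.range D, (2 : ℝ) ^ d * ((8 : ℝ) ^ d)⁻¹)
        + 18 * Ck m * ((1 + kap m) ^ 2 * side (ℓ : ℤ) ^ α * T) *
          (∑ d ∈ Finset.range D, (2 : ℝ) ^ d * ((8 : ℝ) ^ d)⁻¹)
        + 24 * (1 + 12 * K3 α m) * side (ℓ : ℤ) ^ α * T *
          (∑ d ∈ Finset.range D, (2 : ℝ) ^ d * ((2 : ℝ) ^ (-β)) ^ d)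
        + 3 * (4 * kap m ^ 2 + 2 * Ck m * (1 + kap m) ^ 2) * side (ℓ : ℤ) ^ α * T *
          (∑ d ∈ Finset.range D, (2 : ℝ) ^ d * ((8 : ℝ) ^ d)⁻¹)
        + 2 * Ck m * (1 + kap m) ^ 2 * √((1 + kap m) ^ 2 * side (ℓ : ℤ) ^ α * T) * √A *
          (∑ d ∈ Finset.range D, (2 : ℝ) ^ d * (√((8 : ℝ) ^ d))⁻¹)) := by
    simp only [Finset.mul_sum, ← Finset.sum_add_distrib]
    apply Finset.sum_congr rfl
    intro d _
    rw [hE]
    simp only
    rw [pow_add]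
    ring
  rw [hsum]
  have hsα0 : 0 < side (ℓ : ℤ) ^ α := by positivity
  have hsqrt : √((1 + kap m) ^ 2 * side (ℓ : ℤ) ^ α * T)
      = (1 + kap m) * ((2 : ℝ) ^ (-(ℓ : ℝ) * (α / 2)) * √T) := by
    rw [Real.sqrt_mul (by positivity), Real.sqrt_mul (by positivity),
      Real.sqrt_sq (by positivity), hsα]
    have : √((2 : ℝ) ^ (-(ℓ : ℝ) * α)) = (2 : ℝ) ^ (-(ℓ : ℝ) * (α / 2)) := by
      rw [Real.sqrt_eq_rpow, ← Real.rpow_mul (by norm_num)]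
      congr 1; ring
    rw [this]; ring
  have hpow1 : (2 : ℝ) ^ ((ℓ : ℝ) * (1 - α)) = 2 ^ ℓ * side (ℓ : ℤ) ^ α := by
    rw [hsα, ← Real.rpow_natCast, ← Real.rpow_add (by norm_num)]
    congr 1; ring
  have hpow2 : (2 : ℝ) ^ ((ℓ : ℝ) * (1 - α / 2)) = 2 ^ ℓ * (2 : ℝ) ^ (-(ℓ : ℝ) * (α / 2)) := by
    rw [← Real.rpow_natCast, ← Real.rpow_add (by norm_num)]
    congr 1; ring
  rw [hpow1, hpow2, Real.rpow_natCast, hsqrt]
  set σ := side (ℓ : ℤ) ^ α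
  set q := (2 : ℝ) ^ (-(ℓ : ℝ) * (α / 2)) with hq
  have hq0 : 0 ≤ q := by positivity
  have hsT : 0 ≤ √T := Real.sqrt_nonneg _
  have hsA : 0 ≤ √A := Real.sqrt_nonneg _
  set κ := kap m
  set C := Ck m
  set K := K3 α m
  have b1 : 3 * C ^ 2 * A * (∑ d ∈ Finset.range D, (2 : ℝ) ^ d * ((8 : ℝ) ^ d)⁻¹) ≤ c1 * A := by
    calc 3 * C ^ 2 * A * (∑ d ∈ Finset.range D, (2 : ℝ) ^ d * ((8 : ℝ) ^ d)⁻¹)
        ≤ 3 * C ^ 2 * A * 2 := by gcongr
      _ = _ := by rw [hc1]; ring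
  have b2 : 18 * C * ((1 + κ) ^ 2 * σ * T) *
          (∑ d ∈ Finset.range D, (2 : ℝ) ^ d * ((8 : ℝ) ^ d)⁻¹)
        + 24 * (1 + 12 * K) * σ * T *
          (∑ d ∈ Finset.range D, (2 : ℝ) ^ d * ((2 : ℝ) ^ (-β)) ^ d)
        + 3 * (4 * κ ^ 2 + 2 * C * (1 + κ) ^ 2) * σ * T *
          (∑ d ∈ Finset.range D, (2 : ℝ) ^ d * ((8 : ℝ) ^ d)⁻¹) ≤ c2 * (σ * T) := by
    calc 18 * C * ((1 + κ) ^ 2 * σ * T) *
          (∑ d ∈ Finset.range D, (2 : ℝ) ^ d * ((8 : ℝ) ^ d)⁻¹)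
        + 24 * (1 + 12 * K) * σ * T *
          (∑ d ∈ Finset.range D, (2 : ℝ) ^ d * ((2 : ℝ) ^ (-β)) ^ d)
        + 3 * (4 * κ ^ 2 + 2 * C * (1 + κ) ^ 2) * σ * T *
          (∑ d ∈ Finset.range D, (2 : ℝ) ^ d * ((8 : ℝ) ^ d)⁻¹)
        ≤ 18 * C * ((1 + κ) ^ 2 * σ * T) * 2 + 24 * (1 + 12 * K) * σ * T * S1
          + 3 * (4 * κ ^ 2 + 2 * C * (1 + κ) ^ 2) * σ * T * 2 := by gcongr
      _ = _ := by rw [hc2]; ring
  have b3 : 2 * C * (1 + κ) ^ 2 * ((1 + κ) * (q * √T)) * √A *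
          (∑ d ∈ Finset.range D, (2 : ℝ) ^ d * (√((8 : ℝ) ^ d))⁻¹) ≤ c3 * (q * (√T * √A)) := by
    calc 2 * C * (1 + κ) ^ 2 * ((1 + κ) * (q * √T)) * √A *
          (∑ d ∈ Finset.range D, (2 : ℝ) ^ d * (√((8 : ℝ) ^ d))⁻¹)
        ≤ 2 * C * (1 + κ) ^ 2 * ((1 + κ) * (q * √T)) * √A * S2 := by gcongr
      _ = _ := by rw [hc3]; ring
  have hσ0 : 0 < σ := hsα0
  calc (2 : ℝ) ^ ℓ * (1 / 2) * n * (
        3 * C ^ 2 * A * (∑ d ∈ Finset.range D, (2 : ℝ) ^ d * ((8 : ℝ) ^ d)⁻¹)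
        + 18 * C * ((1 + κ) ^ 2 * σ * T) *
          (∑ d ∈ Finset.range D, (2 : ℝ) ^ d * ((8 : ℝ) ^ d)⁻¹)
        + 24 * (1 + 12 * K) * σ * T *
          (∑ d ∈ Finset.range D, (2 : ℝ) ^ d * ((2 : ℝ) ^ (-β)) ^ d)
        + 3 * (4 * κ ^ 2 + 2 * C * (1 + κ) ^ 2) * σ * T *
          (∑ d ∈ Finset.range D, (2 : ℝ) ^ d * ((8 : ℝ) ^ d)⁻¹)
        + 2 * C * (1 + κ) ^ 2 * ((1 + κ) * (q * √T)) * √A *
          (∑ d ∈ Finset.range D, (2 : ℝ) ^ d * (√((8 : ℝ) ^ d))⁻¹))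
      ≤ (2 : ℝ) ^ ℓ * (1 / 2) * n * (c1 * A + c2 * (σ * T) + c3 * (q * (√T * √A))) := by
        apply mul_le_mul_of_nonneg_left _ (by positivity)
        linarith
    _ ≤ (2 : ℝ) ^ ℓ * 1 * n * ((c1 + c2 + c3 + 1) * A + (c1 + c2 + c3 + 1) * (σ * T)
          + (c1 + c2 + c3 + 1) * (q * (√T * √A))) := by
        gcongr
        · norm_num
        · linarith
        · linarith
        · linarith
    _ = _ := by ring

end

end Pool.Agent.H.MP_d1ae63_mp
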