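import Pool.Agent.H.MP_d1ae63_mp.OneBody

/-!
# Statement of the leaf lemma
-/

set_option autoImplicit false

open MeasureTheory Set
open scoped ENNReal Real

namespace Pool.Agent.H.MP_d1ae63_mp

noncomputable section

/-- the difference energy density of particle `i`, so that `difFormAt` is its integral -/
def tau {N : ℕ} (α : ℝ) (m : ℕ) (i : Fin N) (ψ : (Fin N → X3) → ℂ) (y : Fin N → X3) : ℝ≥0∞ :=
  ∫⁻ v : X3, wt α (y i) v * ‖dif m (fun u => ψ (Function.update y i u)) (y i) v‖ₑ ^ 2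

theorem difFormAt_eq {N : ℕ} (α : ℝ) (m : ℕ) (i : Fin N) (ψ : (Fin N → X3) → ℂ) :
    difFormAt α m i ψ = ∫⁻ y, tau α m i ψ y := rfl

/-- dyadic energy of the particles of `I` on the levels `ℓ, …, J` -/
def leafW {N : ℕ} (ℓ J : ℕ) (I : Finset (Fin N)) (e : Fin N → ℝ) (y : Fin N → X3) : ℝ :=
  ∑ j ∈ Finset.Icc ℓ J, (2 : ℝ) ^ j * ((1 / 2) * ∑ p ∈ I.offDiag,
    (if cellIdx j (y p.1) = cellIdx j (y p.2) then e p.1 * e p.2 else 0))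

/-- statement of the leaf lemma -/
def LeafStatement (α : ℝ) (m : ℕ) : Prop :=
  ∃ C : ℝ, 0 < C ∧ ∀ (N ℓ J : ℕ) (z : Fin 3 → ℤ) (I : Finset (Fin N)) (e : Fin N → ℝ),
    (∀ i, |e i| ≤ 1) → ∀ Ω : Set (Fin N → X3), MeasurableSet Ω →
    (∀ y ∈ Ω, ∀ i ∈ I, y i ∈ cube ℓ z) →
    (∀ y ∈ Ω, ∀ i ∈ I, ∀ u ∈ cube ℓ z, Function.update y i u ∈ Ω) →
    ∀ ψ : (Fin N → X3) → ℂ, Measurable ψ → ∫⁻ y, ‖ψ y‖ₑ ^ 2 ≠ ∞ →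
    (∀ i, difFormAt α m i ψ ≠ ∞) →
    ∀ A T : ℝ, A = ∫ y in Ω, ‖ψ y‖ ^ 2 →
      T = ∑ i ∈ I, (∫⁻ y in Ω, tau α m i ψ y).toReal →
    -(C * I.card * ((2 : ℝ) ^ (ℓ : ℝ) * A + (2 : ℝ) ^ ((ℓ : ℝ) * (1 - α)) * T +
        (2 : ℝ) ^ ((ℓ : ℝ) * (1 - α / 2)) * (√T * √A)))
      ≤ ∫ y in Ω, leafW ℓ J I e y * ‖ψ y‖ ^ 2

end

end Pool.Agent.H.MP_d1ae63_mp
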