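import Pool.Agent.H.MP_d1ae63_mp.LeafOps

/-!
# Estimates for the leaf lemma
-/

set_option autoImplicit false

open MeasureTheory Set
open scoped ENNReal Real InnerProductSpace

namespace Pool.Agent.H.MP_d1ae63_mp

noncomputable section

variable {N : ℕ}

/-! ### subcubes -/

/-- indices of the subcubes of level `ℓ + d` of the cube `(ℓ, z)` -/
def subcubes (z : Fin 3 → ℤ) (d : ℕ) : Finset (Fin 3 → ℤ) :=
  Fintype.piFinset fun l => Finset.Ico (z l * 2 ^ d) ((z l + 1) * 2 ^ d)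

theorem card_subcubes (z : Fin 3 → ℤ) (d : ℕ) : (subcubes z d).card = 8 ^ d := by
  unfold subcubes
  rw [Fintype.card_piFinset]
  have : ∀ l : Fin 3, (Finset.Ico (z l * 2 ^ d) ((z l + 1) * 2 ^ d)).card = 2 ^ d := by
    intro l
    rw [Int.card_Ico]
    have : (z l + 1) * 2 ^ d - z l * 2 ^ d = ((2 ^ d : ℕ) : ℤ) := by push_cast; ring
    rw [this, Int.toNat_natCast]
  simp_rw [this]
  rw [Fin.prod_const, ← pow_mul, mul_comm d 3, pow_mul]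
  norm_num

theorem side_add (ℓ : ℤ) (d : ℕ) : side ℓ = 2 ^ d * side (ℓ + d) := by
  unfold side
  rw [neg_add, zpow_add₀ (by norm_num : (2 : ℝ) ≠ 0), zpow_neg _ (d : ℤ), zpow_natCast]
  field_simp

theorem subcube_subset {ℓ : ℤ} {z z' : Fin 3 → ℤ} {d : ℕ} (h : z' ∈ subcubes z d) :
    cube (ℓ + d) z' ⊆ cube ℓ z := by
  intro x hx
  rw [mem_cube_iff] at hx ⊢
  intro l
  have hl := Fintype.mem_piFinset.mp h l
  rw [Finset.mem_Ico] at hl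
  obtain ⟨h1, h2⟩ := hl
  obtain ⟨h3, h4⟩ := hx l
  have hs := side_pos (ℓ + d)
  have h1' : ((z l : ℝ) * 2 ^ d) ≤ (z' l : ℝ) := by exact_mod_cast h1
  have h2' : (z' l : ℝ) + 1 ≤ ((z l : ℝ) + 1) * 2 ^ d := by exact_mod_cast h2
  rw [side_add ℓ d]
  constructor
  · calc (z l : ℝ) * (2 ^ d * side (ℓ + d)) = ((z l : ℝ) * 2 ^ d) * side (ℓ + d) := by ring
      _ ≤ (z' l : ℝ) * side (ℓ + d) := by gcongr
      _ ≤ x l := h3
  · calc x l < ((z' l : ℝ) + 1) * side (ℓ + d) := h4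
      _ ≤ (((z l : ℝ) + 1) * 2 ^ d) * side (ℓ + d) := by gcongr
      _ = _ := by ring

theorem cellIdx_mem_subcubes {ℓ : ℤ} {z : Fin 3 → ℤ} {x : X3} (hx : x ∈ cube ℓ z) (d : ℕ) :
    cellIdx (ℓ + d) x ∈ subcubes z d := by
  unfold subcubes
  rw [Fintype.mem_piFinset]
  intro l
  rw [mem_cube_iff] at hx
  obtain ⟨h1, h2⟩ := hx l
  have h3 : x ∈ cube (ℓ + d) (cellIdx (ℓ + d) x) := mem_cube_self _ _
  rw [mem_cube_iff] at h3
  obtain ⟨h4, h5⟩ := h3 l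
  have hs := side_pos (ℓ + d)
  rw [side_add ℓ d] at h1 h2
  rw [Finset.mem_Ico]
  set w := cellIdx (ℓ + d) x l
  constructor
  · have h6 : ((z l : ℝ) * 2 ^ d) * side (ℓ + d) < ((w : ℝ) + 1) * side (ℓ + d) := by
      calc ((z l : ℝ) * 2 ^ d) * side (ℓ + d) = (z l : ℝ) * (2 ^ d * side (ℓ + d)) := by ring
        _ ≤ x l := h1
        _ < _ := h5
    have h7 : ((z l : ℝ) * 2 ^ d) < (w : ℝ) + 1 := lt_of_mul_lt_mul_right h6 hs.le
    have h8 : z l * 2 ^ d < w + 1 := by exact_mod_cast h7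
    omega
  · have h6 : (w : ℝ) * side (ℓ + d) < (((z l : ℝ) + 1) * 2 ^ d) * side (ℓ + d) := by
      calc (w : ℝ) * side (ℓ + d) ≤ x l := h4
        _ < ((z l : ℝ) + 1) * (2 ^ d * side (ℓ + d)) := h2
        _ = _ := by ring
    have h7 : (w : ℝ) < ((z l : ℝ) + 1) * 2 ^ d := lt_of_mul_lt_mul_right h6 hs.le
    exact_mod_cast h7

theorem side_ratio (ℓ : ℤ) (d : ℕ) : side (ℓ + d) ^ 3 / side ℓ ^ 3 = ((8 : ℝ) ^ d)⁻¹ := by
  have hs := side_pos (ℓ + d)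
  rw [side_add ℓ d, mul_pow, ← pow_mul, mul_comm d 3, pow_mul]
  norm_num
  field_simp

/-- disjoint subcubes: sum of integrals -/
theorem sum_lintegral_subcubes_le (i : Fin N) (ℓ : ℤ) (z : Fin 3 → ℤ) (d : ℕ)
    (F : (Fin N → X3) → ℝ≥0∞) :
    ∑ z' ∈ subcubes z d, ∫⁻ y in {y : Fin N → X3 | y i ∈ cube (ℓ + d) z'}, F y
      ≤ ∫⁻ y, F y := by
  rw [← lintegral_biUnion_finset]
  · exact setLIntegral_le_lintegral _ _
  · intro z₁ _ z₂ _ h12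
    exact Disjoint.preimage (fun y : Fin N → X3 => y i) (cube_disjoint h12)
  · intro z' _
    exact measurableSet_coord i (measurableSet_cube _ _)

theorem sum_norm_mulInd_sq_le (i : Fin N) (ℓ : ℤ) (z : Fin 3 → ℤ) (d : ℕ) (x : HN N) :
    ∑ z' ∈ subcubes z d, ‖mulInd {y : Fin N → X3 | y i ∈ cube (ℓ + d) z'} x‖ ^ 2 ≤ ‖x‖ ^ 2 := by
  rw [← ENNReal.ofReal_le_ofReal_iff (by positivity), ENNReal.ofReal_sum_of_nonneg
    (fun _ _ => by positivity), ofReal_norm_sq]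
  simp_rw [fun z' => ofReal_norm_mulInd_sq (measurableSet_coord i (measurableSet_cube (ℓ + d) z')) x]
  exact sum_lintegral_subcubes_le i ℓ z d _

/-! ### the operator `R` on `φ` -/

theorem Rk_ae (m : ℕ) (ℓ : ℤ) (z : Fin 3 → ℤ) (k : Fin N) {φ0 : (Fin N → X3) → ℂ}
    (hφ0 : Measurable φ0) (hfin : ∫⁻ y, ‖φ0 y‖ₑ ^ 2 ≠ ∞) (φ : HN N)
    (h : (φ : (Fin N → X3) → ℂ) =ᵐ[volume] φ0)
    (hsupp : ∀ y : Fin N → X3, y k ∉ cube ℓ z → φ0 y = 0) :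
    ((φ - Gk m ℓ z k φ : HN N) : (Fin N → X3) → ℂ)
      =ᵐ[volume] {y : Fin N → X3 | y k ∈ cube ℓ z}.indicator (RcN m ℓ z k φ0) := by
  have hB := measurableSet_cube ℓ z
  have hset := measurableSet_coord k hB
  have h1 := ae_slice_eq k hB h
  have h2 := ae_slice_lt_top k hB (volume_cube_lt_top ℓ z).ne (hφ0.enorm.pow_const 2) hfin
  rw [ae_restrict_iff' hset] at h1 h2
  filter_upwards [h, h1, h2, Lp.coeFn_sub φ (Gk m ℓ z k φ),
    kop_apply k hB (volume_cube_lt_top ℓ z) (kernelOn_kB' m ℓ z) φ] with y hy hy1 hy2 hy3 hy4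
  rw [hy3, Pi.sub_apply, hy]
  have hy4' : (Gk m ℓ z k φ : (Fin N → X3) → ℂ) y
      = ∫ u, (kB m ℓ z (y k) u : ℂ) * φ (Function.update y k u) := hy4
  rw [hy4']
  by_cases hyB : y k ∈ cube ℓ z
  · rw [indicator_of_mem (show y ∈ {y : Fin N → X3 | y k ∈ cube ℓ z} from hyB)]
    have e1 : ∫ u, (kB m ℓ z (y k) u : ℂ) * φ (Function.update y k u)
        = ∫ u, (kB m ℓ z (y k) u : ℂ) * φ0 (Function.update y k u) := by
      apply integral_congr_ae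
      filter_upwards [hy1 hyB] with u hu
      rw [hu]
    have hfin' : ∫⁻ u in cube ℓ z, ‖φ0 (Function.update y k u)‖ₑ ^ 2 ≠ ∞ :=
      ne_top_of_le_ne_top (hy2 hyB).ne (setLIntegral_le_lintegral _ _)
    have hsl : Measurable fun u => φ0 (Function.update y k u) :=
      hφ0.comp (measurable_update_right k y)
    rw [e1, ← Gc_eq_kernel m hsl hyB hfin']
    unfold Gc RcN
    beta_reduce
    rw [Function.update_eq_self]
    ring
  · rw [indicator_of_notMem (show y ∉ {y : Fin N → X3 | y k ∈ cube ℓ z} from hyB),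
      hsupp y hyB]
    have e : ∀ u, kB m ℓ z (y k) u = 0 := fun u =>
      (kernelOn_kB' m ℓ z).supp _ _ (fun h' => hyB h'.1)
    simp [e]

/-- hypotheses on the localized function -/
structure LeafData (α : ℝ) (m : ℕ) (ℓ : ℤ) (z : Fin 3 → ℤ) (I : Finset (Fin N))
    (φ0 : (Fin N → X3) → ℂ) (φ : HN N) (T : Fin N → ℝ) : Prop where
  meas : Measurable φ0
  fin : ∫⁻ y, ‖φ0 y‖ₑ ^ 2 ≠ ∞
  ae : (φ : (Fin N → X3) → ℂ) =ᵐ[volume] φ0
  supp : ∀ k ∈ I, ∀ y : Fin N → X3, y k ∉ cube ℓ z → φ0 y = 0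
  T0 : ∀ k ∈ I, 0 ≤ T k
  HT : ∀ k ∈ I, ∫⁻ y, Hloc α m ℓ z k φ0 y ≤ ENNReal.ofReal (T k)

variable {α : ℝ} {m : ℕ} {ℓ : ℤ} {z : Fin 3 → ℤ} {I : Finset (Fin N)}
  {φ0 : (Fin N → X3) → ℂ} {φ : HN N} {T : Fin N → ℝ}

theorem LeafData.norm_R_sq_le (h : LeafData α m ℓ z I φ0 φ T) (hα : 0 < α) (hm : 1 ≤ m)
    {k : Fin N} (hk : k ∈ I) : ‖φ - Gk m ℓ z k φ‖ ^ 2 ≤ side ℓ ^ α * T k := by
  have hs := side_pos ℓ
  have hT := h.T0 k hk
  have hset := measurableSet_coord (N := N) k (measurableSet_cube ℓ z)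
  rw [← ENNReal.ofReal_le_ofReal_iff (by positivity), ofReal_norm_sq,
    ENNReal.ofReal_mul (by positivity)]
  calc ∫⁻ y, ‖(φ - Gk m ℓ z k φ : HN N) y‖ₑ ^ 2
      = ∫⁻ y in {y : Fin N → X3 | y k ∈ cube ℓ z}, ‖RcN m ℓ z k φ0 y‖ₑ ^ 2 := by
        rw [← lintegral_indicator hset]
        apply lintegral_congr_ae
        filter_upwards [Rk_ae m ℓ z k h.meas h.fin φ h.ae (h.supp k hk)] with y hy
        rw [hy]
        by_cases hyB : y ∈ {y : Fin N → X3 | y k ∈ cube ℓ z}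
        · rw [indicator_of_mem hyB, indicator_of_mem hyB]
        · rw [indicator_of_notMem hyB, indicator_of_notMem hyB]; simp
    _ ≤ ENNReal.ofReal (side ℓ ^ α) * ∫⁻ y, Hloc α m ℓ z k φ0 y :=
        lintegral_RcN_sq_le α hα m hm ℓ z k h.meas
    _ ≤ _ := by gcongr; exact h.HT k hk

/-- P3 summed over the subcubes -/
theorem LeafData.sum_small_le (h : LeafData α m ℓ z I φ0 φ T) (hα : 0 < α) (hm : 1 ≤ m)
    {β : ℝ} (hβα : β ≤ α) (hβ2 : β ≤ 2) (d : ℕ) {i k : Fin N} (hk : k ∈ I) (hik : i ≠ k) :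
    ∑ z' ∈ subcubes z d, ‖mulInd {y : Fin N → X3 | y i ∈ cube (ℓ + d) z'}
        (mulInd {y : Fin N → X3 | y k ∈ cube (ℓ + d) z'} (φ - Gk m ℓ z k φ))‖ ^ 2
      ≤ 2 * (1 + 12 * K3 α m) * (side ℓ ^ (α - β) * side (ℓ + d) ^ β) * T k := by
  have hs := side_pos ℓ
  have hs' := side_pos (ℓ + d)
  have hT := h.T0 k hk
  have hK := K3_nonneg α m
  rw [← ENNReal.ofReal_le_ofReal_iff (by positivity), ENNReal.ofReal_sum_of_nonneg
    (fun _ _ => by positivity), ENNReal.ofReal_mul (by positivity)]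
  have hR := Rk_ae m ℓ z k h.meas h.fin φ h.ae (h.supp k hk)
  have key : ∀ z' ∈ subcubes z d,
      ENNReal.ofReal (‖mulInd {y : Fin N → X3 | y i ∈ cube (ℓ + d) z'}
        (mulInd {y : Fin N → X3 | y k ∈ cube (ℓ + d) z'} (φ - Gk m ℓ z k φ))‖ ^ 2)
      ≤ ENNReal.ofReal (2 * (1 + 12 * K3 α m) * (side ℓ ^ (α - β) * side (ℓ + d) ^ β)) *
        ∫⁻ y in {y : Fin N → X3 | y i ∈ cube (ℓ + d) z'}, Hloc α m ℓ z k φ0 y := by
    intro z' hz'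
    have hi := measurableSet_coord (N := N) i (measurableSet_cube (ℓ + d) z')
    have hk' := measurableSet_coord (N := N) k (measurableSet_cube (ℓ + d) z')
    rw [mulInd_mulInd hi hk', ofReal_norm_mulInd_sq (hi.inter hk')]
    refine le_trans (le_of_eq ?_) (lintegral_RcN_small α hα m hm hβα hβ2 ℓ d
      (subcube_subset hz') k h.meas h.fin hi
      (fun y u => by simp only [mem_ofPred_eq, Function.update_of_ne hik]))
    apply lintegral_congr_ae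
    rw [Filter.EventuallyEq, ae_restrict_iff' (hi.inter hk')]
    filter_upwards [hR] with y hy hmem
    rw [hy, indicator_of_mem]
    exact subcube_subset hz' hmem.2
  calc ∑ z' ∈ subcubes z d, ENNReal.ofReal (‖mulInd {y : Fin N → X3 | y i ∈ cube (ℓ + d) z'}
        (mulInd {y : Fin N → X3 | y k ∈ cube (ℓ + d) z'} (φ - Gk m ℓ z k φ))‖ ^ 2)
      ≤ ∑ z' ∈ subcubes z d, ENNReal.ofReal (2 * (1 + 12 * K3 α m) *
          (side ℓ ^ (α - β) * side (ℓ + d) ^ β)) *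
        ∫⁻ y in {y : Fin N → X3 | y i ∈ cube (ℓ + d) z'}, Hloc α m ℓ z k φ0 y :=
        Finset.sum_le_sum key
    _ = ENNReal.ofReal (2 * (1 + 12 * K3 α m) *
          (side ℓ ^ (α - β) * side (ℓ + d) ^ β)) * ∑ z' ∈ subcubes z d,
        ∫⁻ y in {y : Fin N → X3 | y i ∈ cube (ℓ + d) z'}, Hloc α m ℓ z k φ0 y := by
        rw [Finset.mul_sum]
    _ ≤ _ := by
        gcongr
        exact (sum_lintegral_subcubes_le i ℓ z d _).trans (h.HT k hk)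

theorem norm_sub_sq_le {V : Type*} [NormedAddCommGroup V] (a b : V) :
    ‖a - b‖ ^ 2 ≤ 2 * ‖a‖ ^ 2 + 2 * ‖b‖ ^ 2 := by
  have h1 := norm_sub_le a b
  nlinarith [sq_nonneg (‖a‖ - ‖b‖), norm_nonneg (a - b), norm_nonneg a, norm_nonneg b]

/-- `‖R' φ‖² ≤ (1+κ)² ‖R φ‖²` -/
theorem norm_Rp_sq_le (m : ℕ) (ℓ : ℤ) (z : Fin 3 → ℤ) (k : Fin N) (φ : HN N) :
    ‖Rp m ℓ z k φ‖ ^ 2 ≤ (1 + kap m) ^ 2 * ‖φ - Gk m ℓ z k φ‖ ^ 2 := by
  have hkap := kap_nonneg m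
  have h2 : ‖Gt m ℓ z k (φ - Gk m ℓ z k φ)‖ ≤ kap m * ‖φ - Gk m ℓ z k φ‖ := by
    have := norm_kop_sq_le m k (kernelOn_kBt m ℓ z) (φ - Gk m ℓ z k φ)
    rw [← mul_pow] at this
    exact (sq_le_sq₀ (norm_nonneg _) (by positivity)).mp this
  rw [Rp_eq, ← mul_pow]
  apply pow_le_pow_left₀ (norm_nonneg _)
  calc ‖(φ - Gk m ℓ z k φ) - Gt m ℓ z k (φ - Gk m ℓ z k φ)‖
      ≤ ‖φ - Gk m ℓ z k φ‖ + kap m * ‖φ - Gk m ℓ z k φ‖ :=
        (norm_sub_le _ _).trans (by gcongr)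
    _ = _ := by ring

/-- one term of `τ` -/
theorem tau_term_le (m : ℕ) {I : Finset (Fin N)} {ℓ j : ℤ} {z z' : Fin 3 → ℤ}
    (hsub : cube j z' ⊆ cube ℓ z) {i k : Fin N} (hi : i ∈ I) (hk : k ∈ I) (hik : i ≠ k)
    (φ : HN N) :
    ‖mulInd {y : Fin N → X3 | y i ∈ cube j z'} (mulInd {y : Fin N → X3 | y k ∈ cube j z'}
        (Rp m ℓ z i (Rp m ℓ z k φ)))‖ ^ 2
      ≤ 4 * ‖mulInd {y : Fin N → X3 | y i ∈ cube j z'} (mulInd {y : Fin N → X3 | y k ∈ cube j z'}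
          (φ - Gk m ℓ z k φ))‖ ^ 2
        + 4 * (kap m ^ 2 * (side j ^ 3 / side ℓ ^ 3)) *
          ‖mulInd {y : Fin N → X3 | y i ∈ cube j z'} (φ - Gk m ℓ z k φ)‖ ^ 2
        + 2 * (Ck m * (side j ^ 3 / side ℓ ^ 3)) *
          ‖mulInd {y : Fin N → X3 | y k ∈ cube j z'} (Rp m ℓ z k φ)‖ ^ 2 := by
  have hP := pairData m I hsub (N := N)
  have hmi := measurableSet_coord (N := N) i (measurableSet_cube j z')
  have hmk := measurableSet_coord (N := N) k (measurableSet_cube j z')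
  set w := Rp m ℓ z k φ with hw
  set r := φ - Gk m ℓ z k φ with hr
  have h1 := hP.aaG_bound hi hk hik w
  have e1 : mulInd {y : Fin N → X3 | y i ∈ cube j z'} (mulInd {y : Fin N → X3 | y k ∈ cube j z'}
        (Rp m ℓ z i w))
      = mulInd {y : Fin N → X3 | y i ∈ cube j z'} (mulInd {y : Fin N → X3 | y k ∈ cube j z'} w)
        - mulInd {y : Fin N → X3 | y i ∈ cube j z'} (mulInd {y : Fin N → X3 | y k ∈ cube j z'}
          (Gp m ℓ z i w)) := by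
    rw [Rp_apply, map_sub, map_sub]
  have e2 : w = r - Gt m ℓ z k r := Rp_eq m ℓ z k φ
  have e3 : mulInd {y : Fin N → X3 | y i ∈ cube j z'} (mulInd {y : Fin N → X3 | y k ∈ cube j z'} w)
      = mulInd {y : Fin N → X3 | y i ∈ cube j z'} (mulInd {y : Fin N → X3 | y k ∈ cube j z'} r)
        - mulInd {y : Fin N → X3 | y k ∈ cube j z'} (Gt m ℓ z k
          (mulInd {y : Fin N → X3 | y i ∈ cube j z'} r)) := by
    rw [e2, map_sub, map_sub]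
    congr 1
    rw [mulInd_mulInd hmi hmk, inter_comm, ← mulInd_mulInd hmk hmi]
    congr 1
    exact mulInd_kop_comm_apply hik (kernelOn_kBt m ℓ z) (measurableSet_cube j z') r
  have h2 := norm_mulInd_kop_sq_le m k hsub (kernelOn_kBt m ℓ z)
    (mulInd {y : Fin N → X3 | y i ∈ cube j z'} r)
  have h3 := norm_sub_sq_le
    (mulInd {y : Fin N → X3 | y i ∈ cube j z'} (mulInd {y : Fin N → X3 | y k ∈ cube j z'} r))
    (mulInd {y : Fin N → X3 | y k ∈ cube j z'} (Gt m ℓ z k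
          (mulInd {y : Fin N → X3 | y i ∈ cube j z'} r)))
  rw [← e3] at h3
  have h4 := norm_sub_sq_le
    (mulInd {y : Fin N → X3 | y i ∈ cube j z'} (mulInd {y : Fin N → X3 | y k ∈ cube j z'} w))
    (mulInd {y : Fin N → X3 | y i ∈ cube j z'} (mulInd {y : Fin N → X3 | y k ∈ cube j z'}
          (Gp m ℓ z i w)))
  rw [← e1] at h4
  have h2' : ‖mulInd {y : Fin N → X3 | y k ∈ cube j z'} (Gt m ℓ z k
          (mulInd {y : Fin N → X3 | y i ∈ cube j z'} r))‖ ^ 2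
      ≤ kap m ^ 2 * (side j ^ 3 / side ℓ ^ 3) *
        ‖mulInd {y : Fin N → X3 | y i ∈ cube j z'} r‖ ^ 2 := h2
  linarith

/-- the operators `a^Q` -/
def aop (N : ℕ) (j : ℤ) (z' : Fin 3 → ℤ) (i : Fin N) : HN N →L[ℂ] HN N :=
  mulInd {y : Fin N → X3 | y i ∈ cube j z'}

theorem LeafData.sum_rho_le (h : LeafData α m ℓ z I φ0 φ T) (hα : 0 < α) (hm : 1 ≤ m) (d : ℕ) :
    ∑ z' ∈ subcubes z d, rhoQ I (aop N (ℓ + d) z') (Rp m ℓ z) φ
      ≤ (1 + kap m) ^ 2 * side ℓ ^ α * ∑ k ∈ I, T k := by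
  unfold rhoQ
  rw [Finset.sum_comm, Finset.mul_sum]
  apply Finset.sum_le_sum
  intro k hk
  calc ∑ z' ∈ subcubes z d, ‖aop N (ℓ + d) z' k (Rp m ℓ z k φ)‖ ^ 2
      ≤ ‖Rp m ℓ z k φ‖ ^ 2 := sum_norm_mulInd_sq_le k ℓ z d _
    _ ≤ (1 + kap m) ^ 2 * ‖φ - Gk m ℓ z k φ‖ ^ 2 := norm_Rp_sq_le m ℓ z k φ
    _ ≤ (1 + kap m) ^ 2 * (side ℓ ^ α * T k) := by
        gcongr
        exact h.norm_R_sq_le hα hm hk
    _ = _ := by ring

theorem LeafData.sum_tau_le (h : LeafData α m ℓ z I φ0 φ T) (hα : 0 < α) (hm : 1 ≤ m)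
    {β : ℝ} (hβα : β ≤ α) (hβ2 : β ≤ 2) (d : ℕ) :
    ∑ z' ∈ subcubes z d, tauQ I (aop N (ℓ + d) z') (Rp m ℓ z) φ
      ≤ I.card * ((4 * (2 * (1 + 12 * K3 α m) * (side ℓ ^ (α - β) * side (ℓ + d) ^ β))
        + (4 * kap m ^ 2 + 2 * Ck m * (1 + kap m) ^ 2) * ((8 : ℝ) ^ d)⁻¹ * side ℓ ^ α) *
        ∑ k ∈ I, T k) := by
  have hs := side_pos ℓ
  have hs' := side_pos (ℓ + d)
  have hK := K3_nonneg α m
  have hC := Ck_nonneg m
  have hkap := kap_nonneg m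
  set c : ℝ := 2 * (1 + 12 * K3 α m) * (side ℓ ^ (α - β) * side (ℓ + d) ^ β) with hc
  have hc0 : 0 ≤ c := by positivity
  set q : ℝ := ((8 : ℝ) ^ d)⁻¹ with hq
  have hq0 : 0 ≤ q := by positivity
  unfold tauQ
  rw [Finset.sum_comm]
  calc ∑ p ∈ I.offDiag, ∑ z' ∈ subcubes z d,
        ‖aop N (ℓ + d) z' p.1 (aop N (ℓ + d) z' p.2 (Rp m ℓ z p.1 (Rp m ℓ z p.2 φ)))‖ ^ 2
      ≤ ∑ p ∈ I.offDiag, (4 * c + (4 * kap m ^ 2 + 2 * Ck m * (1 + kap m) ^ 2) * q *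
          side ℓ ^ α) * T p.2 := by
        apply Finset.sum_le_sum
        intro p hp
        obtain ⟨hi, hk, hik⟩ := Finset.mem_offDiag.mp hp
        have hr := h.norm_R_sq_le hα hm hk
        calc ∑ z' ∈ subcubes z d,
              ‖aop N (ℓ + d) z' p.1 (aop N (ℓ + d) z' p.2 (Rp m ℓ z p.1 (Rp m ℓ z p.2 φ)))‖ ^ 2
            ≤ ∑ z' ∈ subcubes z d,
              (4 * ‖mulInd {y : Fin N → X3 | y p.1 ∈ cube (ℓ + d) z'}
                (mulInd {y : Fin N → X3 | y p.2 ∈ cube (ℓ + d) z'} (φ - Gk m ℓ z p.2 φ))‖ ^ 2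
              + 4 * (kap m ^ 2 * q) *
                ‖mulInd {y : Fin N → X3 | y p.1 ∈ cube (ℓ + d) z'} (φ - Gk m ℓ z p.2 φ)‖ ^ 2
              + 2 * (Ck m * q) *
                ‖mulInd {y : Fin N → X3 | y p.2 ∈ cube (ℓ + d) z'} (Rp m ℓ z p.2 φ)‖ ^ 2) := by
              apply Finset.sum_le_sum
              intro z' hz'
              have := tau_term_le m (subcube_subset hz') hi hk hik φ (ℓ := ℓ)
              rw [side_ratio ℓ d] at this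
              exact this
          _ = 4 * (∑ z' ∈ subcubes z d, ‖mulInd {y : Fin N → X3 | y p.1 ∈ cube (ℓ + d) z'}
                (mulInd {y : Fin N → X3 | y p.2 ∈ cube (ℓ + d) z'} (φ - Gk m ℓ z p.2 φ))‖ ^ 2)
              + 4 * (kap m ^ 2 * q) * (∑ z' ∈ subcubes z d,
                ‖mulInd {y : Fin N → X3 | y p.1 ∈ cube (ℓ + d) z'} (φ - Gk m ℓ z p.2 φ)‖ ^ 2)
              + 2 * (Ck m * q) * (∑ z' ∈ subcubes z d,
                ‖mulInd {y : Fin N → X3 | y p.2 ∈ cube (ℓ + d) z'} (Rp m ℓ z p.2 φ)‖ ^ 2) := by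
              rw [Finset.sum_add_distrib, Finset.sum_add_distrib, Finset.mul_sum, Finset.mul_sum,
                Finset.mul_sum]
          _ ≤ 4 * (c * T p.2) + 4 * (kap m ^ 2 * q) * (side ℓ ^ α * T p.2)
              + 2 * (Ck m * q) * ((1 + kap m) ^ 2 * (side ℓ ^ α * T p.2)) := by
              gcongr
              · exact h.sum_small_le hα hm hβα hβ2 d hk hik
              · exact (sum_norm_mulInd_sq_le p.1 ℓ z d _).trans hr
              · refine (sum_norm_mulInd_sq_le p.2 ℓ z d _).trans ?_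
                refine (norm_Rp_sq_le m ℓ z p.2 φ).trans ?_
                gcongr
          _ = _ := by ring
    _ = (4 * c + (4 * kap m ^ 2 + 2 * Ck m * (1 + kap m) ^ 2) * q *
          side ℓ ^ α) * ∑ p ∈ I.offDiag, T p.2 := by rw [Finset.mul_sum]
    _ ≤ (4 * c + (4 * kap m ^ 2 + 2 * Ck m * (1 + kap m) ^ 2) * q *
          side ℓ ^ α) * (I.card * ∑ k ∈ I, T k) := by
        gcongr
        exact sum_offDiag_snd_le I T h.T0
    _ = _ := by ring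

/-- the estimate on one level -/
theorem LeafData.level_lower (h : LeafData α m ℓ z I φ0 φ T) (hα : 0 < α) (hm : 1 ≤ m)
    {β : ℝ} (hβα : β ≤ α) (hβ2 : β ≤ 2) (d : ℕ) (e : Fin N → ℝ) (he : ∀ i, |e i| ≤ 1) :
    -(I.card * (3 * Ck m ^ 2 * ((8 : ℝ) ^ d)⁻¹ * ‖φ‖ ^ 2
      + 18 * Ck m * ((8 : ℝ) ^ d)⁻¹ * ((1 + kap m) ^ 2 * side ℓ ^ α * ∑ k ∈ I, T k)
      + 3 * ((4 * (2 * (1 + 12 * K3 α m) * (side ℓ ^ (α - β) * side (ℓ + d) ^ β))
        + (4 * kap m ^ 2 + 2 * Ck m * (1 + kap m) ^ 2) * ((8 : ℝ) ^ d)⁻¹ * side ℓ ^ α) *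
        ∑ k ∈ I, T k)
      + 2 * Ck m * (1 + kap m) ^ 2 * (√((8 : ℝ) ^ d))⁻¹ *
        √((1 + kap m) ^ 2 * side ℓ ^ α * ∑ k ∈ I, T k) * ‖φ‖))
      ≤ ∑ z' ∈ subcubes z d, ∑ p ∈ I.offDiag, e p.1 * e p.2 *
        ‖aop N (ℓ + d) z' p.1 (aop N (ℓ + d) z' p.2 φ)‖ ^ 2 := by
  have hs := side_pos ℓ
  have hs' := side_pos (ℓ + d)
  have hK := K3_nonneg α m
  have hC := Ck_nonneg m
  have hkap := kap_nonneg m
  set TT : ℝ := ∑ k ∈ I, T k with hTT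
  have hTT0 : 0 ≤ TT := Finset.sum_nonneg h.T0
  set n : ℝ := (I.card : ℝ) with hn
  have hn0 : 0 ≤ n := Nat.cast_nonneg _
  set X : ℝ := (8 : ℝ) ^ d with hX
  have hX0 : 0 < X := by positivity
  have hcard : ((subcubes z d).card : ℝ) = X := by
    rw [card_subcubes, hX]; push_cast; ring
  set P : ℝ := (1 + kap m) ^ 2 * side ℓ ^ α * TT with hP
  have hP0 : 0 ≤ P := by positivity
  have hrho := h.sum_rho_le hα hm d
  have htau := h.sum_tau_le hα hm hβα hβ2 d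
  -- per cube
  have hcube : ∀ z' ∈ subcubes z d,
      -(3 * n * (Ck m * X⁻¹) ^ 2 * ‖φ‖ ^ 2
        + 18 * n * (Ck m * X⁻¹) * rhoQ I (aop N (ℓ + d) z') (Rp m ℓ z) φ
        + 3 * tauQ I (aop N (ℓ + d) z') (Rp m ℓ z) φ
        + 2 * n * (Ck m * X⁻¹) * (1 + kap m) ^ 2 *
          √(rhoQ I (aop N (ℓ + d) z') (Rp m ℓ z) φ) * ‖φ‖)
        ≤ ∑ p ∈ I.offDiag, e p.1 * e p.2 *
          ‖aop N (ℓ + d) z' p.1 (aop N (ℓ + d) z' p.2 φ)‖ ^ 2 := by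
    intro z' hz'
    have hPD := pairData m I (subcube_subset hz') (N := N) (ℓ := ℓ)
    rw [side_ratio ℓ d] at hPD
    exact hPD.pair_sum_lower e (fun i _ => he i) φ
  refine le_trans ?_ (Finset.sum_le_sum hcube)
  rw [Finset.sum_neg_distrib, neg_le_neg_iff, Finset.sum_add_distrib, Finset.sum_add_distrib,
    Finset.sum_add_distrib, Finset.sum_const, nsmul_eq_mul, hcard, ← Finset.mul_sum,
    ← Finset.mul_sum, ← Finset.sum_mul, ← Finset.mul_sum]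
  -- the square root sum
  have hsq : ∑ z' ∈ subcubes z d, √(rhoQ I (aop N (ℓ + d) z') (Rp m ℓ z) φ) ≤ √X * √P := by
    rw [← Real.sqrt_mul hX0.le]
    apply Real.le_sqrt_of_sq_le
    calc (∑ z' ∈ subcubes z d, √(rhoQ I (aop N (ℓ + d) z') (Rp m ℓ z) φ)) ^ 2
        ≤ (subcubes z d).card * ∑ z' ∈ subcubes z d,
            √(rhoQ I (aop N (ℓ + d) z') (Rp m ℓ z) φ) ^ 2 := sq_sum_le_card_mul_sum_sq
      _ = X * ∑ z' ∈ subcubes z d, rhoQ I (aop N (ℓ + d) z') (Rp m ℓ z) φ := by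
          rw [hcard]
          congr 1
          apply Finset.sum_congr rfl
          intro z' _
          exact Real.sq_sqrt (rhoQ_nonneg φ)
      _ ≤ X * P := by gcongr
  have hXs : X⁻¹ * √X = (√X)⁻¹ := by
    have h1 : √X * √X = X := Real.mul_self_sqrt hX0.le
    have h2 : √X ≠ 0 := (Real.sqrt_pos.mpr hX0).ne'
    field_simp
    rw [sq, h1]
  have t1 : X * (3 * n * (Ck m * X⁻¹) ^ 2 * ‖φ‖ ^ 2) = n * (3 * Ck m ^ 2 * X⁻¹ * ‖φ‖ ^ 2) := by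
    field_simp
  have t2 : 18 * n * (Ck m * X⁻¹) *
      (∑ z' ∈ subcubes z d, rhoQ I (aop N (ℓ + d) z') (Rp m ℓ z) φ)
      ≤ n * (18 * Ck m * X⁻¹ * P) := by
    calc 18 * n * (Ck m * X⁻¹) *
          (∑ z' ∈ subcubes z d, rhoQ I (aop N (ℓ + d) z') (Rp m ℓ z) φ)
        ≤ 18 * n * (Ck m * X⁻¹) * P := by gcongr
      _ = _ := by ring
  have t3 : 3 * (∑ z' ∈ subcubes z d, tauQ I (aop N (ℓ + d) z') (Rp m ℓ z) φ)
      ≤ n * (3 * ((4 * (2 * (1 + 12 * K3 α m) * (side ℓ ^ (α - β) * side (ℓ + d) ^ β))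
        + (4 * kap m ^ 2 + 2 * Ck m * (1 + kap m) ^ 2) * X⁻¹ * side ℓ ^ α) * TT)) := by
    calc 3 * (∑ z' ∈ subcubes z d, tauQ I (aop N (ℓ + d) z') (Rp m ℓ z) φ)
        ≤ 3 * (n * ((4 * (2 * (1 + 12 * K3 α m) * (side ℓ ^ (α - β) * side (ℓ + d) ^ β))
        + (4 * kap m ^ 2 + 2 * Ck m * (1 + kap m) ^ 2) * X⁻¹ * side ℓ ^ α) * TT)) := by gcongr
      _ = _ := by ring
  have t4 : 2 * n * (Ck m * X⁻¹) * (1 + kap m) ^ 2 *
      (∑ z' ∈ subcubes z d, √(rhoQ I (aop N (ℓ + d) z') (Rp m ℓ z) φ)) * ‖φ‖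
      ≤ n * (2 * Ck m * (1 + kap m) ^ 2 * (√X)⁻¹ * √P * ‖φ‖) := by
    calc 2 * n * (Ck m * X⁻¹) * (1 + kap m) ^ 2 *
          (∑ z' ∈ subcubes z d, √(rhoQ I (aop N (ℓ + d) z') (Rp m ℓ z) φ)) * ‖φ‖
        ≤ 2 * n * (Ck m * X⁻¹) * (1 + kap m) ^ 2 * (√X * √P) * ‖φ‖ := by gcongr
      _ = n * (2 * Ck m * (1 + kap m) ^ 2 * (X⁻¹ * √X) * √P * ‖φ‖) := by ring
      _ = _ := by rw [hXs]
  rw [t1]
  linarith

end

end Pool.Agent.H.MP_d1ae63_mp
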