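import Pool.Agent.H.MP_d1ae63_mp.Slice
import Pool.Agent.H.MP_d1ae63_mp.Kernel
import Pool.Agent.H.MP_d1ae63_mp.AbstractPair

/-!
# The operators of the leaf lemma
-/

set_option autoImplicit false

open MeasureTheory Set
open scoped ENNReal Real InnerProductSpace

namespace Pool.Agent.H.MP_d1ae63_mp

noncomputable section

variable {N : ℕ}

/-- the local energy of `1_Ω ψ` is controlled by the energy density of `ψ` on `Ω` -/
theorem lintegral_Hloc_le (α : ℝ) (m : ℕ) (ℓ : ℤ) (z : Fin 3 → ℤ) (k : Fin N)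
    (ψ : (Fin N → X3) → ℂ) {Ω : Set (Fin N → X3)} (hΩ : MeasurableSet Ω)
    (hB : ∀ y ∈ Ω, y k ∈ cube ℓ z)
    (hinv : ∀ y ∈ Ω, ∀ u ∈ cube ℓ z, Function.update y k u ∈ Ω) :
    ∫⁻ y, Hloc α m ℓ z k (Ω.indicator ψ) y ≤ ∫⁻ y in Ω, tau α m k ψ y := by
  rw [← lintegral_indicator hΩ]
  apply lintegral_mono
  intro y
  show Hloc α m ℓ z k (Ω.indicator ψ) y ≤ Ω.indicator (tau α m k ψ) y
  unfold Hloc
  by_cases hyB : y k ∈ cube ℓ z
  · rw [indicator_of_mem (show y ∈ {y : Fin N → X3 | y k ∈ cube ℓ z} from hyB)]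
    have hpt : ∀ v ∈ cube ℓ z, ∀ j ∈ Finset.range (m + 1),
        y k + ((j : ℝ) / (m : ℝ)) • (v - y k) ∈ cube ℓ z := by
      intro v hv j hj
      have hj' : j ≤ m := by have := Finset.mem_range.mp hj; omega
      refine cube_convex_comb hyB hv (by positivity) ?_
      rcases Nat.eq_zero_or_pos m with h0 | h0
      · rw [h0]; simp
      · rw [div_le_one (by exact_mod_cast h0)]; exact_mod_cast hj'
    by_cases hy : y ∈ Ω
    · rw [indicator_of_mem hy]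
      unfold tau
      refine le_trans ?_ (setLIntegral_le_lintegral (cube ℓ z) _)
      apply le_of_eq
      apply setLIntegral_congr_fun (measurableSet_cube ℓ z)
      intro v hv
      have e : dif m (fun u => Ω.indicator ψ (Function.update y k u)) (y k) v
          = dif m (fun u => ψ (Function.update y k u)) (y k) v := by
        unfold dif
        apply Finset.sum_congr rfl
        intro j hj
        beta_reduce
        rw [indicator_of_mem (hinv y hy _ (hpt v hv j hj))]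
      simp only [e]
    · have e0 : ∫⁻ v in cube ℓ z, wt α (y k) v *
          ‖dif m (fun u => Ω.indicator ψ (Function.update y k u)) (y k) v‖ₑ ^ 2 = 0 := by
        rw [← nonpos_iff_eq_zero, ← lintegral_zero]
        apply setLIntegral_mono' (measurableSet_cube ℓ z)
        intro v hv
        have e : dif m (fun u => Ω.indicator ψ (Function.update y k u)) (y k) v = 0 := by
          unfold dif
          apply Finset.sum_eq_zero
          intro j hj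
          beta_reduce
          rw [indicator_of_notMem, mul_zero]
          intro hmem
          apply hy
          have := hinv _ hmem (y k) hyB
          rwa [Function.update_idem, Function.update_eq_self] at this
        rw [e]; simp
      rw [e0]
      exact zero_le
  · rw [indicator_of_notMem (show y ∉ {y : Fin N → X3 | y k ∈ cube ℓ z} from hyB)]
    exact zero_le

/-- norm in `L²` as a lower integral -/
theorem ofReal_norm_sq (f : HN N) : ENNReal.ofReal (‖f‖ ^ 2) = ∫⁻ y, ‖f y‖ₑ ^ 2 := by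
  rw [ENNReal.ofReal_pow (norm_nonneg _), ofReal_norm, Lp.enorm_def,
    eLpNorm_eq_lintegral_rpow_enorm_toReal (by norm_num) (by norm_num)]
  rw [← ENNReal.rpow_natCast, ← ENNReal.rpow_mul]
  norm_num

theorem ofReal_norm_mulInd_sq {S : Set (Fin N → X3)} (hS : MeasurableSet S) (f : HN N) :
    ENNReal.ofReal (‖mulInd S f‖ ^ 2) = ∫⁻ y in S, ‖f y‖ₑ ^ 2 := by
  rw [ofReal_norm_sq, ← lintegral_indicator hS]
  apply lintegral_congr_ae
  filter_upwards [mulInd_apply S hS f] with y hy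
  rw [hy]
  by_cases h : y ∈ S
  · rw [indicator_of_mem h, indicator_of_mem h]
  · rw [indicator_of_notMem h, indicator_of_notMem h]; simp

/-- the constant `2^m m^3` -/
def kap (m : ℕ) : ℝ := 2 ^ m * (m : ℝ) ^ 3

theorem kap_nonneg (m : ℕ) : 0 ≤ kap m := by unfold kap; positivity

/-- bound of `a^Q ∘ kop` for an admissible kernel on a cube -/
theorem norm_mulInd_kop_sq_le (m : ℕ) (i : Fin N) {ℓ j : ℤ} {z z' : Fin 3 → ℤ}
    (hsub : cube j z' ⊆ cube ℓ z) {k : X3 → X3 → ℝ}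
    (hk : KernelOn (cube ℓ z) ((side ℓ ^ 3)⁻¹ * kap m) k) (f : HN N) :
    ‖mulInd {y | y i ∈ cube j z'} (kop i k f)‖ ^ 2
      ≤ kap m ^ 2 * (side j ^ 3 / side ℓ ^ 3) * ‖f‖ ^ 2 := by
  have hs := side_pos ℓ
  have hs' := side_pos j
  have hkap := kap_nonneg m
  have hS := measurableSet_coord i (measurableSet_cube j z')
  rw [← ENNReal.ofReal_le_ofReal_iff (by positivity), ofReal_norm_mulInd_sq hS]
  refine (kop_bound i (measurableSet_cube ℓ z) (volume_cube_lt_top ℓ z) hk f _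
    (measurableSet_cube j z')).trans ?_
  rw [inter_eq_left.mpr hsub, volume_cube, volume_cube, ← ofReal_norm_sq,
    ← ENNReal.ofReal_mul (by positivity), ← ENNReal.ofReal_mul (by positivity),
    ← ENNReal.ofReal_mul (by positivity)]
  apply ENNReal.ofReal_le_ofReal
  apply le_of_eq
  field_simp

theorem mulInd_cube_kop (i : Fin N) {ℓ : ℤ} {z : Fin 3 → ℤ} {K : ℝ} {k : X3 → X3 → ℝ}
    (hk : KernelOn (cube ℓ z) K k) (f : HN N) :
    mulInd {y | y i ∈ cube ℓ z} (kop i k f) = kop i k f := by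
  have hS := measurableSet_coord i (measurableSet_cube ℓ z)
  apply Lp.ext
  filter_upwards [mulInd_apply _ hS (kop i k f),
    kop_apply i (measurableSet_cube ℓ z) (volume_cube_lt_top ℓ z) hk f] with y h1 h2
  rw [h1]
  by_cases h : y i ∈ cube ℓ z
  · rw [indicator_of_mem (show y ∈ {y : Fin N → X3 | y i ∈ cube ℓ z} from h)]
  · rw [indicator_of_notMem (show y ∉ {y : Fin N → X3 | y i ∈ cube ℓ z} from h), h2]
    have e : ∀ u, k (y i) u = 0 := fun u => hk.supp _ _ (fun h' => h h'.1)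
    simp [e]

theorem norm_kop_sq_le (m : ℕ) (i : Fin N) {ℓ : ℤ} {z : Fin 3 → ℤ} {k : X3 → X3 → ℝ}
    (hk : KernelOn (cube ℓ z) ((side ℓ ^ 3)⁻¹ * kap m) k) (f : HN N) :
    ‖kop i k f‖ ^ 2 ≤ kap m ^ 2 * ‖f‖ ^ 2 := by
  have hs := side_pos ℓ
  have h := norm_mulInd_kop_sq_le m i (subset_refl (cube ℓ z)) hk f
  rw [mulInd_cube_kop i hk, div_self (by positivity), mul_one] at h
  exact h

/-- `G_B` on the `i`-th variable -/
def Gk (m : ℕ) (ℓ : ℤ) (z : Fin 3 → ℤ) (i : Fin N) : HN N →L[ℂ] HN N := kop i (kB m ℓ z)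

/-- the adjoint of `G_B` -/
def Gt (m : ℕ) (ℓ : ℤ) (z : Fin 3 → ℤ) (i : Fin N) : HN N →L[ℂ] HN N :=
  kop i (fun x u => kB m ℓ z u x)

/-- `G' = G + G† - G† G` -/
def Gp (m : ℕ) (ℓ : ℤ) (z : Fin 3 → ℤ) (i : Fin N) : HN N →L[ℂ] HN N :=
  Gk m ℓ z i + Gt m ℓ z i - Gt m ℓ z i ∘L Gk m ℓ z i

/-- `R' = 1 - G' = R† R` -/
def Rp (m : ℕ) (ℓ : ℤ) (z : Fin 3 → ℤ) (i : Fin N) : HN N →L[ℂ] HN N :=
  ContinuousLinearMap.id ℂ _ - Gp m ℓ z i

theorem kernelOn_kB' (m : ℕ) (j : ℤ) (z : Fin 3 → ℤ) :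
    KernelOn (cube j z) ((side j ^ 3)⁻¹ * kap m) (kB m j z) := kernelOn_kB m j z

theorem kernelOn_kBt (m : ℕ) (j : ℤ) (z : Fin 3 → ℤ) :
    KernelOn (cube j z) ((side j ^ 3)⁻¹ * kap m) (fun x u => kB m j z u x) :=
  (kernelOn_kB' m j z).swap

theorem Gk_inner (m : ℕ) (ℓ : ℤ) (z : Fin 3 → ℤ) (i : Fin N) (x y : HN N) :
    ⟪Gk m ℓ z i x, y⟫_ℂ = ⟪x, Gt m ℓ z i y⟫_ℂ := by
  rw [← ContinuousLinearMap.adjoint_inner_right]
  congr 1
  unfold Gk Gt
  rw [kop_adjoint i (measurableSet_cube ℓ z) (volume_cube_lt_top ℓ z) (kernelOn_kB' m ℓ z)]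

theorem Gt_inner (m : ℕ) (ℓ : ℤ) (z : Fin 3 → ℤ) (i : Fin N) (x y : HN N) :
    ⟪Gt m ℓ z i x, y⟫_ℂ = ⟪x, Gk m ℓ z i y⟫_ℂ := by
  rw [← inner_conj_symm, ← Gk_inner, inner_conj_symm]

theorem Gp_apply (m : ℕ) (ℓ : ℤ) (z : Fin 3 → ℤ) (i : Fin N) (x : HN N) :
    Gp m ℓ z i x = Gk m ℓ z i x + Gt m ℓ z i x - Gt m ℓ z i (Gk m ℓ z i x) := rfl

theorem Rp_apply (m : ℕ) (ℓ : ℤ) (z : Fin 3 → ℤ) (i : Fin N) (x : HN N) :
    Rp m ℓ z i x = x - Gp m ℓ z i x := rfl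

theorem Gp_inner (m : ℕ) (ℓ : ℤ) (z : Fin 3 → ℤ) (i : Fin N) (x y : HN N) :
    ⟪Gp m ℓ z i x, y⟫_ℂ = ⟪x, Gp m ℓ z i y⟫_ℂ := by
  rw [Gp_apply, Gp_apply, inner_sub_left, inner_add_left, inner_sub_right, inner_add_right,
    Gk_inner, Gt_inner, Gt_inner, Gk_inner]
  ring

/-- `R' x = R† (R x)` -/
theorem Rp_eq (m : ℕ) (ℓ : ℤ) (z : Fin 3 → ℤ) (i : Fin N) (x : HN N) :
    Rp m ℓ z i x = (x - Gk m ℓ z i x) - Gt m ℓ z i (x - Gk m ℓ z i x) := by
  rw [Rp_apply, Gp_apply, map_sub]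
  abel

theorem comm_apply {A B : HN N →L[ℂ] HN N} (h : A ∘L B = B ∘L A) (x : HN N) :
    A (B x) = B (A x) := by
  have := congrArg (fun T : HN N →L[ℂ] HN N => T x) h
  simpa using this

theorem kop_comm_apply {i k : Fin N} (hik : i ≠ k) {ℓ : ℤ} {z : Fin 3 → ℤ} {K K' : ℝ}
    {p q : X3 → X3 → ℝ} (hp : KernelOn (cube ℓ z) K p) (hq : KernelOn (cube ℓ z) K' q)
    (x : HN N) : kop i p (kop k q x) = kop k q (kop i p x) :=
  comm_apply (kop_comm hik (measurableSet_cube ℓ z) (volume_cube_lt_top ℓ z) hp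
    (measurableSet_cube ℓ z) (volume_cube_lt_top ℓ z) hq) x

theorem mulInd_kop_comm_apply {i k : Fin N} (hik : i ≠ k) {ℓ : ℤ} {z : Fin 3 → ℤ} {K : ℝ}
    {p : X3 → X3 → ℝ} (hp : KernelOn (cube ℓ z) K p) {Q : Set X3} (hQ : MeasurableSet Q)
    (x : HN N) : mulInd {y | y i ∈ Q} (kop k p x) = kop k p (mulInd {y | y i ∈ Q} x) :=
  (comm_apply (kop_mulInd_comm k (measurableSet_cube ℓ z) (volume_cube_lt_top ℓ z) hp
    {y | y i ∈ Q} (measurableSet_coord i hQ) (fun y u => by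
      simp only [mem_ofPred_eq, Function.update_of_ne hik])) x).symm

theorem Gp_comm {i k : Fin N} (hik : i ≠ k) (m : ℕ) (ℓ : ℤ) (z : Fin 3 → ℤ) (x : HN N) :
    Gp m ℓ z i (Gp m ℓ z k x) = Gp m ℓ z k (Gp m ℓ z i x) := by
  have h1 : ∀ x, Gk m ℓ z i (Gk m ℓ z k x) = Gk m ℓ z k (Gk m ℓ z i x) := fun x =>
    kop_comm_apply hik (kernelOn_kB' m ℓ z) (kernelOn_kB' m ℓ z) x
  have h2 : ∀ x, Gk m ℓ z i (Gt m ℓ z k x) = Gt m ℓ z k (Gk m ℓ z i x) := fun x =>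
    kop_comm_apply hik (kernelOn_kB' m ℓ z) (kernelOn_kBt m ℓ z) x
  have h3 : ∀ x, Gt m ℓ z i (Gk m ℓ z k x) = Gk m ℓ z k (Gt m ℓ z i x) := fun x =>
    kop_comm_apply hik (kernelOn_kBt m ℓ z) (kernelOn_kB' m ℓ z) x
  have h4 : ∀ x, Gt m ℓ z i (Gt m ℓ z k x) = Gt m ℓ z k (Gt m ℓ z i x) := fun x =>
    kop_comm_apply hik (kernelOn_kBt m ℓ z) (kernelOn_kBt m ℓ z) x
  simp only [Gp_apply, map_add, map_sub, h1, h2, h3, h4]
  abel

theorem mulInd_Gp_comm {i k : Fin N} (hik : i ≠ k) (m : ℕ) (ℓ : ℤ) (z : Fin 3 → ℤ)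
    {Q : Set X3} (hQ : MeasurableSet Q) (x : HN N) :
    mulInd {y | y i ∈ Q} (Gp m ℓ z k x) = Gp m ℓ z k (mulInd {y | y i ∈ Q} x) := by
  have h1 : ∀ x : HN N, mulInd {y | y i ∈ Q} (Gk m ℓ z k x)
      = Gk m ℓ z k (mulInd {y | y i ∈ Q} x) := fun x =>
    mulInd_kop_comm_apply hik (kernelOn_kB' m ℓ z) hQ x
  have h2 : ∀ x : HN N, mulInd {y | y i ∈ Q} (Gt m ℓ z k x)
      = Gt m ℓ z k (mulInd {y | y i ∈ Q} x) := fun x =>
    mulInd_kop_comm_apply hik (kernelOn_kBt m ℓ z) hQ x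
  simp only [Gp_apply, map_add, map_sub, h1, h2]

theorem mulInd_inner {S : Set (Fin N → X3)} (hS : MeasurableSet S) (x y : HN N) :
    ⟪mulInd S x, y⟫_ℂ = ⟪x, mulInd S y⟫_ℂ := by
  rw [← ContinuousLinearMap.adjoint_inner_right, mulInd_adjoint S hS]

theorem mulInd_mulInd {S T : Set (Fin N → X3)} (hS : MeasurableSet S) (hT : MeasurableSet T)
    (x : HN N) : mulInd S (mulInd T x) = mulInd (S ∩ T) x := by
  rw [← mulInd_mul S T hS hT]; rfl

theorem norm_mulInd_le {S : Set (Fin N → X3)} (hS : MeasurableSet S) (x : HN N) :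
    ‖mulInd S x‖ ≤ ‖x‖ := by
  have h : ‖mulInd S x‖ ^ 2 ≤ ‖x‖ ^ 2 := by
    rw [← ENNReal.ofReal_le_ofReal_iff (by positivity), ofReal_norm_mulInd_sq hS, ofReal_norm_sq]
    exact setLIntegral_le_lintegral _ _
  exact (sq_le_sq₀ (norm_nonneg _) (norm_nonneg _)).mp h

/-- the constant in the bound of `G'` -/
def Ck (m : ℕ) : ℝ := 3 * (2 * kap m ^ 2 + kap m ^ 4)

theorem Ck_nonneg (m : ℕ) : 0 ≤ Ck m := by unfold Ck; positivity

theorem norm_add_sub_sq_le {V : Type*} [NormedAddCommGroup V] (a b c : V) :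
    ‖a + b - c‖ ^ 2 ≤ 3 * (‖a‖ ^ 2 + ‖b‖ ^ 2 + ‖c‖ ^ 2) := by
  have h1 := norm_sub_le (a + b) c
  have h2 := norm_add_le a b
  nlinarith [sq_nonneg (‖a‖ - ‖b‖), sq_nonneg (‖a‖ - ‖c‖), sq_nonneg (‖b‖ - ‖c‖),
    norm_nonneg (a + b - c), norm_nonneg a, norm_nonneg b, norm_nonneg c]

theorem mulInd_Gp_bound (m : ℕ) (i : Fin N) {ℓ j : ℤ} {z z' : Fin 3 → ℤ}
    (hsub : cube j z' ⊆ cube ℓ z) (x : HN N) :
    ‖mulInd {y | y i ∈ cube j z'} (Gp m ℓ z i x)‖ ^ 2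
      ≤ Ck m * (side j ^ 3 / side ℓ ^ 3) * ‖x‖ ^ 2 := by
  have hs := side_pos ℓ
  have hs' := side_pos j
  have h1 := norm_mulInd_kop_sq_le m i hsub (kernelOn_kB' m ℓ z) x
  have h2 := norm_mulInd_kop_sq_le m i hsub (kernelOn_kBt m ℓ z) x
  have h3 := norm_mulInd_kop_sq_le m i hsub (kernelOn_kBt m ℓ z) (kop i (kB m ℓ z) x)
  have h4 := norm_kop_sq_le m i (kernelOn_kB' m ℓ z) x
  rw [Gp_apply, map_sub, map_add]
  refine (norm_add_sub_sq_le _ _ _).trans ?_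
  unfold Gk Gt
  have h5 : kap m ^ 2 * (side j ^ 3 / side ℓ ^ 3) * ‖kop i (kB m ℓ z) x‖ ^ 2
      ≤ kap m ^ 2 * (side j ^ 3 / side ℓ ^ 3) * (kap m ^ 2 * ‖x‖ ^ 2) := by gcongr
  calc 3 * (‖mulInd {y | y i ∈ cube j z'} (kop i (kB m ℓ z) x)‖ ^ 2 +
        ‖mulInd {y | y i ∈ cube j z'} (kop i (fun x u => kB m ℓ z u x) x)‖ ^ 2 +
        ‖mulInd {y | y i ∈ cube j z'} (kop i (fun x u => kB m ℓ z u x)
          (kop i (kB m ℓ z) x))‖ ^ 2)
      ≤ 3 * (kap m ^ 2 * (side j ^ 3 / side ℓ ^ 3) * ‖x‖ ^ 2 +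
        kap m ^ 2 * (side j ^ 3 / side ℓ ^ 3) * ‖x‖ ^ 2 +
        kap m ^ 2 * (side j ^ 3 / side ℓ ^ 3) * (kap m ^ 2 * ‖x‖ ^ 2)) := by
        gcongr
        exact h3.trans h5
    _ = _ := by unfold Ck; ring

theorem Rp_bound (m : ℕ) (ℓ : ℤ) (z : Fin 3 → ℤ) (i : Fin N) (x : HN N) :
    ‖Rp m ℓ z i x‖ ≤ (1 + kap m) ^ 2 * ‖x‖ := by
  have hkap := kap_nonneg m
  have h1 : ∀ x : HN N, ‖Gk m ℓ z i x‖ ≤ kap m * ‖x‖ := by
    intro x
    have := norm_kop_sq_le m i (kernelOn_kB' m ℓ z) x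
    rw [← mul_pow] at this
    exact (sq_le_sq₀ (norm_nonneg _) (by positivity)).mp this
  have h2 : ∀ x : HN N, ‖Gt m ℓ z i x‖ ≤ kap m * ‖x‖ := by
    intro x
    have := norm_kop_sq_le m i (kernelOn_kBt m ℓ z) x
    rw [← mul_pow] at this
    exact (sq_le_sq₀ (norm_nonneg _) (by positivity)).mp this
  rw [Rp_eq]
  calc ‖(x - Gk m ℓ z i x) - Gt m ℓ z i (x - Gk m ℓ z i x)‖
      ≤ ‖x - Gk m ℓ z i x‖ + kap m * ‖x - Gk m ℓ z i x‖ :=
        (norm_sub_le _ _).trans (by gcongr; exact h2 _)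
    _ = (1 + kap m) * ‖x - Gk m ℓ z i x‖ := by ring
    _ ≤ (1 + kap m) * (‖x‖ + kap m * ‖x‖) := by
        gcongr
        exact (norm_sub_le _ _).trans (by gcongr; exact h1 _)
    _ = _ := by ring

/-- the data of the abstract pair lemma -/
theorem pairData (m : ℕ) (I : Finset (Fin N)) {ℓ j : ℤ} {z z' : Fin 3 → ℤ}
    (hsub : cube j z' ⊆ cube ℓ z) :
    PairData I (fun i => (mulInd {y | y i ∈ cube j z'} : HN N →L[ℂ] HN N))
      (fun i => Gp m ℓ z i) (fun i => Rp m ℓ z i) (Ck m * (side j ^ 3 / side ℓ ^ 3))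
      ((1 + kap m) ^ 2) where
  κ0 := by
    have := Ck_nonneg m
    have := side_pos ℓ
    have := side_pos j
    positivity
  CR0 := by positivity
  asym := fun i _ x y => mulInd_inner (measurableSet_coord i (measurableSet_cube _ _)) x y
  aidem := by
    intro i _ x
    have h := measurableSet_coord i (measurableSet_cube j z')
    rw [mulInd_mulInd h h, inter_self]
  Gsym := fun i _ x y => Gp_inner m ℓ z i x y
  Rdef := fun i _ x => Rp_apply m ℓ z i x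
  aa := by
    intro i _ k _ _ x
    have h := measurableSet_coord i (measurableSet_cube j z')
    have h' := measurableSet_coord k (measurableSet_cube j z')
    rw [mulInd_mulInd h h', mulInd_mulInd h' h, inter_comm]
  aG := fun i _ k _ hik x => mulInd_Gp_comm hik m ℓ z (measurableSet_cube _ _) x
  GG := fun i _ k _ hik x => Gp_comm hik m ℓ z x
  bound := fun i _ x => mulInd_Gp_bound m i hsub x
  Rbound := fun i _ x => Rp_bound m ℓ z i x

end

end Pool.Agent.H.MP_d1ae63_mp
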