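import Pool.Agent.H.MP_d1ae63_mp.LowerA
import Pool.Agent.H.MP_d1ae63_mp.CoulombRep

/-!
Dyadic lower bound for each parameter, and its integration.
-/

set_option autoImplicit false

open MeasureTheory Set Filter Topology
open scoped ENNReal Real InnerProductSpace

namespace Pool.Agent.H.MP_d1ae63_mp

noncomputable section

/-- the linear map `x ↦ (⟪a_l,x⟫/s)_l` -/
def Blin (a : Fin 3 → E3) (s : ℝ) : E3 →ₗ[ℝ] X3 where
  toFun x := fun l => ⟪a l, x⟫_ℝ / s
  map_add' x y := by funext l; simp [inner_add_right, add_div]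
  map_smul' c x := by funext l; simp [inner_smul_right, mul_div_assoc]

theorem exists_B {a : Fin 3 → E3} (ha : a ∈ AA) {s : ℝ} (hs : 0 < s) :
    ∃ B : E3 ≃L[ℝ] X3, (∀ x l, B x l = ⟪a l, x⟫_ℝ / s) ∧ (∀ h, (1 / (4 * s)) * ‖h‖ ≤ ‖B h‖) ∧
      (∀ h, ‖B h‖ ≤ (2 / s) * ‖h‖) := by
  have hlow : ∀ h : E3, (1 / (4 * s)) * ‖h‖ ≤ ‖Blin a s h‖ := by
    intro h
    have h1 := (ha h).1
    have h2 : ∀ l, ⟪a l, h⟫_ℝ ^ 2 ≤ (s * ‖Blin a s h‖) ^ 2 := by
      intro l
      have h3 : |⟪a l, h⟫_ℝ / s| ≤ ‖Blin a s h‖ := norm_le_pi_norm (Blin a s h) l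
      rw [abs_div, abs_of_pos hs, div_le_iff₀ hs] at h3
      rw [← sq_abs]
      have := abs_nonneg ⟪a l, h⟫_ℝ
      gcongr
      linarith
    have h4 : ∑ l, ⟪a l, h⟫_ℝ ^ 2 ≤ ∑ _l : Fin 3, (s * ‖Blin a s h‖) ^ 2 :=
      Finset.sum_le_sum fun l _ => h2 l
    simp only [Finset.sum_const, Finset.card_univ, Fintype.card_fin, nsmul_eq_mul,
      Nat.cast_ofNat] at h4
    have h5 : ‖h‖ ^ 2 ≤ (4 * (s * ‖Blin a s h‖)) ^ 2 := by nlinarith
    have h6 : ‖h‖ ≤ 4 * (s * ‖Blin a s h‖) := by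
      refine le_of_sq_le_sq ?_ (by positivity)
      exact h5
    rw [div_mul_eq_mul_div, one_mul, div_le_iff₀ (by positivity)]
    linarith
  have hup : ∀ h : E3, ‖Blin a s h‖ ≤ (2 / s) * ‖h‖ := by
    intro h
    rw [pi_norm_le_iff_of_nonneg (by positivity)]
    intro l
    have h1 := (ha h).2
    have h2 : ⟪a l, h⟫_ℝ ^ 2 ≤ ∑ l', ⟪a l', h⟫_ℝ ^ 2 :=
      Finset.single_le_sum (f := fun l' => ⟪a l', h⟫_ℝ ^ 2) (fun _ _ => sq_nonneg _)
        (Finset.mem_univ l)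
    have h3 : |⟪a l, h⟫_ℝ| ≤ 2 * ‖h‖ := by
      refine abs_le_of_sq_le_sq ?_ (by positivity)
      nlinarith
    show |⟪a l, h⟫_ℝ / s| ≤ _
    rw [abs_div, abs_of_pos hs, div_mul_eq_mul_div]
    gcongr
  have hinj : Function.Injective (Blin a s) := by
    rw [← LinearMap.ker_eq_bot, LinearMap.ker_eq_bot']
    intro h hh
    have := hlow h
    rw [hh, norm_zero] at this
    have h1 : ‖h‖ ≤ 0 := by
      have h2 : 0 < 1 / (4 * s) := by positivity
      by_contra hc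
      push Not at hc
      have := mul_pos h2 hc
      linarith
    exact norm_le_zero_iff.1 h1
  refine ⟨(LinearMap.linearEquivOfInjective (Blin a s) hinj (by simp)).toContinuousLinearEquiv,
    fun x l => rfl, hlow, hup⟩

theorem const_calc {α : ℝ} {m : ℕ} (hm : 0 < m) {s : ℝ} (hs : 0 < s) :
    (2 * (m * (2 / s))) ^ 3 * (m * (1 / (4 * s))) ^ (-(3 + α)) =
      (64 * (4:ℝ) ^ (3 + α) * (m:ℝ) ^ (-α)) * s ^ α := by
  have hm' : (0:ℝ) < m := by exact_mod_cast hm
  have e1 : (m:ℝ) * (1 / (4 * s)) = m / (4 * s) := by ring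
  rw [e1, Real.div_rpow hm'.le (by positivity), Real.mul_rpow (by norm_num) hs.le,
    Real.rpow_neg (by norm_num : (0:ℝ) ≤ 4), Real.rpow_neg hs.le, Real.rpow_neg hm'.le (3 + α),
    Real.rpow_add hs, Real.rpow_add hm', Real.rpow_neg hm'.le α]
  norm_num
  field_simp
  ring

/-- The lower bound for one parameter. -/
theorem one_param {α : ℝ} (hα : 1 < α) {m : ℕ} (hm : α < 2 * m) (h : HierarchicalStatement α m) :
    ∃ g₀ c C : ℝ, 0 < g₀ ∧ 0 < c ∧ 0 < C ∧ ∀ (g : ℝ) (N : ℕ), 0 < g → g ≤ g₀ →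
      (N : ℝ) ≤ c * g ^ (-((α + 3) / α)) → ∀ (J : ℕ) (e : Fin N → ℝ), (∀ i, |e i| ≤ 1) →
      ∀ f : Conf N → ℂ, Measurable f → ∫⁻ x, ‖f x‖ₑ ^ 2 ≠ ∞ → (∀ i, diffFormAt α m i f ≠ ∞) →
      ∀ a ∈ AA, ∀ s : ℝ, 0 < s → ∀ z : X3,
      -(C * s ^ α * ∑ i, (diffFormAt α m i f).toReal) / g - C * N * ∫ x, ‖f x‖ ^ 2 ≤
        ∫ x : Conf N, dyadicW J e (fun i l => ⟪a l, x i⟫_ℝ / s + z l) * ‖f x‖ ^ 2 := by
  obtain ⟨g₀, c, C, hg₀, hc, hC, H⟩ := h
  have hm0 : 0 < m := by
    rcases Nat.eq_zero_or_pos m with h | h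
    · subst h; norm_num at hm; linarith
    · exact h
  set v₁ : ℝ := (volume (Metric.ball (0:E3) 1)).toReal with hv₁
  have hv₁0 : 0 < v₁ := ENNReal.toReal_pos (Metric.measure_ball_pos _ _ one_pos).ne'
    measure_ball_lt_top.ne
  set C1 : ℝ := 64 * (4:ℝ) ^ (3 + α) * (m:ℝ) ^ (-α) / v₁ with hC1
  have hm' : (0:ℝ) < m := by exact_mod_cast hm0
  have hC10 : 0 < C1 := by positivity
  refine ⟨g₀, c, max C C1, hg₀, hc, lt_max_of_lt_left hC, ?_⟩
  intro g N hg hgg hN J e he f hf hf2 hD a ha s hs z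
  obtain ⟨B, hB, hβ₁, hβ₂⟩ := exists_B ha hs
  obtain ⟨κ, hκ0, hκ1, hκ⟩ := form_transfer (N := N) α (by linarith) m hm0 B
    (by positivity : 0 < 1 / (4 * s)) (by positivity : 0 < 2 / s) hβ₁ hβ₂
  obtain ⟨k1, k2, k3⟩ := hκ z
  set φ : (Fin N → X3) → ℂ := fun y => f ((TT B z).symm y) with hφ
  have hφm : Measurable φ := hf.comp (TT B z).symm.measurable
  have hφT : ∀ x, φ (TT B z x) = f x := fun x => by
    rw [hφ]; simp only [MeasurableEquiv.symm_apply_apply]
  have hφ2 : ∫⁻ y, ‖φ y‖ₑ ^ 2 ≠ ∞ := by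
    rw [k1]
    simp_rw [hφT]
    exact ENNReal.mul_ne_top hκ1 hf2
  have hvol0 : volume (Metric.ball (0:E3) 1) ≠ 0 := (Metric.measure_ball_pos _ _ one_pos).ne'
  have hform : ∀ i, difFormAt α m i φ ≤ κ * ENNReal.ofReal (C1 * s ^ α) * diffFormAt α m i f := by
    intro i
    refine (k3 f hf i).trans (le_of_eq ?_)
    congr 2
    rw [const_calc hm0 hs]
    have : volume (Metric.ball (0:E3) 1) = ENNReal.ofReal v₁ :=
      (ENNReal.ofReal_toReal measure_ball_lt_top.ne).symm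
    rw [this, ← ENNReal.ofReal_div_of_pos hv₁0]
    congr 1
    rw [hC1]; ring
  have hDφ : ∀ i, difFormAt α m i φ ≠ ∞ := fun i =>
    ne_top_of_le_ne_top (ENNReal.mul_ne_top (ENNReal.mul_ne_top hκ1 ENNReal.ofReal_ne_top)
      (hD i)) (hform i)
  have key := H g N hg hgg hN J e he φ hφm hφ2 hDφ
  rw [k2, k2] at key
  simp_rw [hφT] at key
  have hκr : 0 < κ.toReal := ENNReal.toReal_pos hκ0 hκ1
  have hTT : ∀ x : Conf N, TT B z x = fun i l => ⟪a l, x i⟫_ℝ / s + z l := by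
    intro x; funext i l
    rw [TT_apply, Pi.add_apply, hB]
  simp_rw [hTT] at key
  set I : ℝ := ∫ x : Conf N, dyadicW J e (fun i l => ⟪a l, x i⟫_ℝ / s + z l) * ‖f x‖ ^ 2 with hI
  set F2 : ℝ := ∫ x : Conf N, ‖f x‖ ^ 2 with hF2
  have hF20 : 0 ≤ F2 := integral_nonneg fun x => by positivity
  have hsum : ∑ i, (difFormAt α m i φ).toReal ≤
      κ.toReal * (C1 * s ^ α) * ∑ i, (diffFormAt α m i f).toReal := by
    rw [Finset.mul_sum]
    refine Finset.sum_le_sum fun i _ => ?_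
    have := ENNReal.toReal_mono (ENNReal.mul_ne_top (ENNReal.mul_ne_top hκ1 ENNReal.ofReal_ne_top)
      (hD i)) (hform i)
    rwa [ENNReal.toReal_mul, ENNReal.toReal_mul, ENNReal.toReal_ofReal (by positivity)] at this
  have hDs : 0 ≤ ∑ i, (diffFormAt α m i f).toReal := Finset.sum_nonneg fun _ _ => ENNReal.toReal_nonneg
  set D : ℝ := ∑ i, (diffFormAt α m i f).toReal with hDdef
  have h1 : κ.toReal * (-(C1 * s ^ α * D) - C * g * N * F2) ≤ κ.toReal * (g * I) := by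
    nlinarith
  have h2 : -(C1 * s ^ α * D) - C * g * N * F2 ≤ g * I := le_of_mul_le_mul_left h1 hκr
  have hsα : 0 < s ^ α := by positivity
  have h3 : -(max C C1 * s ^ α * D) - max C C1 * g * N * F2 ≤ g * I := by
    refine le_trans ?_ h2
    have a1 : C1 * (s ^ α * D) ≤ max C C1 * (s ^ α * D) :=
      mul_le_mul_of_nonneg_right (le_max_right _ _) (by positivity)
    have a2 : C * (g * N * F2) ≤ max C C1 * (g * N * F2) :=
      mul_le_mul_of_nonneg_right (le_max_left _ _) (by positivity)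
    linarith
  have h4 : -(max C C1 * s ^ α * D) / g - max C C1 * N * F2 =
      (-(max C C1 * s ^ α * D) - max C C1 * g * N * F2) / g := by
    field_simp
  rw [h4, div_le_iff₀ hg]
  linarith

theorem volume_ParamSet {r : ℝ} (hr : 0 < r) :
    volume (ParamSet r) = volume AA * ENNReal.ofReal r := by
  unfold ParamSet
  rw [Measure.volume_eq_prod, Measure.prod_prod, Measure.volume_eq_prod, Measure.prod_prod,
    Real.volume_Ioc]
  have : volume (Set.pi univ fun _ : Fin 3 => Ico (0:ℝ) 1) = 1 := volume_Qd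
  rw [this, mul_one]
  congr 2
  ring

theorem measurableSet_ParamSet (r : ℝ) : MeasurableSet (ParamSet r) :=
  measurableSet_AA.prod (measurableSet_Ioc.prod measurableSet_Qd)

/-- Integrated version. -/
theorem all_param {α : ℝ} (hα : 1 < α) {m : ℕ} (hm : α < 2 * m) (h : HierarchicalStatement α m) :
    ∃ g₀ c C : ℝ, 0 < g₀ ∧ 0 < c ∧ 0 < C ∧ ∀ r : ℝ, 0 < r → ∃ V : ℕ → E3 → ℝ,
      (∀ J, Measurable (V J)) ∧ (∀ J x, 0 ≤ V J x) ∧ (∀ J, ∃ b : ℝ, ∀ x, V J x ≤ b) ∧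
      (∀ J x, x ≠ 0 → V J x ≤ ‖x‖⁻¹) ∧
      (∀ x, x ≠ 0 → Tendsto (fun J => V J x) atTop (𝓝 ‖x‖⁻¹)) ∧
      (∀ x, Monotone (fun J => V J x)) ∧
      ∀ (g : ℝ) (N : ℕ), 0 < g → g ≤ g₀ → (N : ℝ) ≤ c * g ^ (-((α + 3) / α)) →
      ∀ (J : ℕ) (e : Fin N → ℝ), (∀ i, |e i| ≤ 1) →
      ∀ f : Conf N → ℂ, Measurable f → Integrable (fun x => ‖f x‖ ^ 2) →
      ∫ x, ‖f x‖ ^ 2 = 1 → (∀ i, diffFormAt α m i f ≠ ∞) →
      -(C * r ^ (α - 1) / g * ∑ i, (diffFormAt α m i f).toReal) - C * N / r ≤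
        ∫ x : Conf N, (∑ i : Fin N, ∑ k ∈ Finset.Ioi i, e i * e k * V J (x i - x k)) * ‖f x‖ ^ 2 := by
  obtain ⟨g₀, c, C, hg₀, hc, hC, H⟩ := one_param hα hm h
  obtain ⟨c1, C2, hc1, hC2, HC⟩ := coulomb_lower
  set vA : ℝ := (volume AA).toReal with hvA
  have hvA0 : 0 < vA := ENNReal.toReal_pos volume_AA_pos.ne' volume_AA_lt_top.ne
  refine ⟨g₀, c, max (c1 * vA * C * 2 ^ α) (c1 * vA * C + C2), hg₀, hc,
    lt_max_of_lt_right (by positivity), fun r hr => ?_⟩
  obtain ⟨V, hV1, hV2, hV3, hV4, hV5, hV6, hV7⟩ := HC r hr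
  refine ⟨V, hV1, hV2, hV3, hV4, hV5, hV6, ?_⟩
  intro g N hg hgg hN J e he f hf hf2 hf1 hD
  have hf2' : ∫⁻ x, ‖f x‖ₑ ^ 2 ≠ ∞ := by
    have := hf2.2
    rw [hasFiniteIntegral_iff_enorm] at this
    refine ne_of_lt (lt_of_le_of_lt (le_of_eq (lintegral_congr fun x => ?_)) this)
    rw [enorm_pow, enorm_norm]
  set D : ℝ := ∑ i, (diffFormAt α m i f).toReal with hDdef
  have hD0 : 0 ≤ D := Finset.sum_nonneg fun _ _ => ENNReal.toReal_nonneg
  -- the transformed configuration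
  set TTω : Conf N → ((Fin 3 → E3) × ℝ × X3) → (Fin N → X3) :=
    fun x ω i l => ⟪ω.1 l, x i⟫_ℝ / ω.2.1 + ω.2.2 l with hTTω
  have hTm : Measurable (fun p : Conf N × ((Fin 3 → E3) × ℝ × X3) => TTω p.1 p.2) := by
    refine measurable_pi_lambda _ fun i => measurable_pi_lambda _ fun l => ?_
    refine Measurable.add (Measurable.div ?_ (by fun_prop)) (by fun_prop)
    have : Continuous fun p : Conf N × ((Fin 3 → E3) × ℝ × X3) => ⟪p.2.1 l, p.1 i⟫_ℝ := by
      have h1 : Continuous fun p : Conf N × ((Fin 3 → E3) × ℝ × X3) => p.1 i :=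
        (PiLp.continuous_apply 2 _ i).comp continuous_fst
      fun_prop
    exact this.measurable
  set q : ((Fin 3 → E3) × ℝ × X3) → ℝ := (ParamSet r).indicator (fun ω => (ω.2.1 ^ 2)⁻¹) with hq
  have hqm : Measurable q := Measurable.indicator (by fun_prop) (measurableSet_ParamSet r)
  have hq0 : ∀ ω, 0 ≤ q ω := fun ω => indicator_nonneg (fun ω _ => by positivity) ω
  have hPvol : volume (ParamSet r) ≠ ∞ := by
    rw [volume_ParamSet hr]
    exact ENNReal.mul_ne_top volume_AA_lt_top.ne ENNReal.ofReal_ne_top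
  have hqle : ∀ ω, q ω ≤ (ParamSet r).indicator (fun _ => (r^2)⁻¹) ω := by
    intro ω
    rw [hq]
    by_cases hω : ω ∈ ParamSet r
    · rw [indicator_of_mem hω, indicator_of_mem hω]
      have h1 : r < ω.2.1 := hω.2.1.1
      gcongr
    · rw [indicator_of_notMem hω, indicator_of_notMem hω]
  have hconst : Integrable ((ParamSet r).indicator (fun _ => (r^2)⁻¹)) volume :=
    (integrable_indicator_iff (measurableSet_ParamSet r)).2 (integrableOn_const hPvol)
  have hqint : Integrable q volume := by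
    refine hconst.mono' hqm.aestronglyMeasurable (Eventually.of_forall fun ω => ?_)
    rw [Real.norm_of_nonneg (hq0 ω)]
    exact hqle ω
  have hqI : ∫ ω, q ω ≤ vA / r := by
    calc ∫ ω, q ω ≤ ∫ ω, (ParamSet r).indicator (fun _ => (r^2)⁻¹) ω :=
          integral_mono hqint hconst hqle
      _ = vA / r := by
          rw [integral_indicator (measurableSet_ParamSet r), setIntegral_const, Measure.real,
            volume_ParamSet hr, ENNReal.toReal_mul, ENNReal.toReal_ofReal hr.le, smul_eq_mul,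
            ← hvA]
          field_simp
  set Bd : ℝ := (∑ j ∈ Finset.range (J + 1), (2:ℝ)^j) * (N * N) with hBd
  have hBd0 : 0 ≤ Bd := by positivity
  have hΨm : Measurable (fun p : Conf N × ((Fin 3 → E3) × ℝ × X3) =>
      q p.2 * dyadicW J e (TTω p.1 p.2) * ‖f p.1‖ ^ 2) := by
    refine Measurable.mul (Measurable.mul (hqm.comp measurable_snd)
      ((measurable_dyadicW J e).comp hTm)) ?_
    exact ((hf.comp measurable_fst).norm.pow_const 2)
  have hΨint : Integrable (fun p : Conf N × ((Fin 3 → E3) × ℝ × X3) =>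
      q p.2 * dyadicW J e (TTω p.1 p.2) * ‖f p.1‖ ^ 2) (volume.prod volume) := by
    have h1 := (Integrable.mul_prod hf2 hqint).const_mul Bd
    refine h1.mono' hΨm.aestronglyMeasurable (Eventually.of_forall fun p => ?_)
    rw [Real.norm_eq_abs, abs_mul, abs_mul, abs_of_nonneg (hq0 _),
      abs_of_nonneg (by positivity : 0 ≤ ‖f p.1‖ ^ 2)]
    have h2 := dyadicW_abs_le he J (TTω p.1 p.2)
    rw [← hBd] at h2
    have h3 := hq0 p.2
    calc q p.2 * |dyadicW J e (TTω p.1 p.2)| * ‖f p.1‖ ^ 2 ≤ q p.2 * Bd * ‖f p.1‖ ^ 2 := by gcongr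
      _ = Bd * (‖f p.1‖ ^ 2 * q p.2) := by ring
  -- the dyadic part
  have hdy : -(vA / r * (C * (2 * r) ^ α * D / g + C * N)) ≤
      ∫ x : Conf N, ∫ ω, q ω * dyadicW J e (TTω x ω) * ‖f x‖ ^ 2 := by
    rw [integral_integral_swap (f := fun x ω => q ω * dyadicW J e (TTω x ω) * ‖f x‖ ^ 2) hΨint]
    have hpt : ∀ ω, q ω * (-(C * (2 * r) ^ α * D / g + C * N)) ≤
        ∫ x : Conf N, q ω * dyadicW J e (TTω x ω) * ‖f x‖ ^ 2 := by
      intro ω
      by_cases hω : ω ∈ ParamSet r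
      · have h1 : r < ω.2.1 := hω.2.1.1
        have h2 : ω.2.1 ≤ 2 * r := hω.2.1.2
        have h3 := H g N hg hgg hN J e he f hf hf2' hD ω.1 hω.1 ω.2.1 (by linarith) ω.2.2
        rw [hf1, mul_one] at h3
        simp_rw [mul_assoc (q ω)]
        rw [integral_const_mul]
        refine mul_le_mul_of_nonneg_left (le_trans ?_ h3) (hq0 ω)
        have h4 : ω.2.1 ^ α ≤ (2 * r) ^ α := Real.rpow_le_rpow (by linarith) h2 (by linarith)
        have h5 : C * ω.2.1 ^ α * D / g ≤ C * (2 * r) ^ α * D / g := by gcongr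
        have h6 : -(C * ω.2.1 ^ α * D) / g = -(C * ω.2.1 ^ α * D / g) := by ring
        rw [← hDdef, h6]
        linarith
      · have h1 : q ω = 0 := by rw [hq, indicator_of_notMem hω]
        rw [h1]
        simp
    calc -(vA / r * (C * (2 * r) ^ α * D / g + C * N)) ≤
        (∫ ω, q ω) * (-(C * (2 * r) ^ α * D / g + C * N)) := by
          have : 0 ≤ C * (2 * r) ^ α * D / g + C * N := by positivity
          nlinarith
      _ = ∫ ω, q ω * (-(C * (2 * r) ^ α * D / g + C * N)) := by rw [integral_mul_const]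
      _ ≤ _ := integral_mono (hqint.mul_const _) hΨint.integral_prod_right hpt
  -- pointwise representation
  have hVint : Integrable (fun x : Conf N =>
      (∑ i : Fin N, ∑ k ∈ Finset.Ioi i, e i * e k * V J (x i - x k)) * ‖f x‖ ^ 2) volume := by
    simp_rw [Finset.sum_mul]
    refine integrable_finsetSum _ fun i _ => integrable_finsetSum _ fun k _ => ?_
    obtain ⟨b, hb⟩ := hV3 J
    have hmeas : Measurable fun x : Conf N => V J (x i - x k) := by
      refine (hV1 J).comp (Continuous.measurable ?_)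
      exact (PiLp.continuous_apply 2 _ i).sub (PiLp.continuous_apply 2 _ k)
    refine (hf2.const_mul b).mono' ?_ (Eventually.of_forall fun x => ?_)
    · exact ((hmeas.const_mul _).mul (hf.norm.pow_const 2)).aestronglyMeasurable
    · rw [Real.norm_eq_abs, abs_mul, abs_mul, abs_of_nonneg (hV2 _ _),
        abs_of_nonneg (by positivity : 0 ≤ ‖f x‖ ^ 2)]
      have h1 := abs_ee_le he i k
      have h2 := hV2 J (x i - x k)
      have h3 := hb (x i - x k)
      calc |e i * e k| * V J (x i - x k) * ‖f x‖ ^ 2 ≤ 1 * b * ‖f x‖ ^ 2 := by gcongr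
        _ = b * ‖f x‖ ^ 2 := by ring
  have hint2 : Integrable (fun x : Conf N => ∫ ω, q ω * dyadicW J e (TTω x ω) * ‖f x‖ ^ 2) volume :=
    hΨint.integral_prod_left
  have hpt : ∀ x : Conf N, c1 * (∫ ω, q ω * dyadicW J e (TTω x ω) * ‖f x‖ ^ 2) -
      C2 * N / r * ‖f x‖ ^ 2 ≤
      (∑ i : Fin N, ∑ k ∈ Finset.Ioi i, e i * e k * V J (x i - x k)) * ‖f x‖ ^ 2 := by
    intro x
    have h1 := hV7 N J e he (fun i => x i)
    have h2 : ∫ ω in ParamSet r, (ω.2.1 ^ 2)⁻¹ *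
        dyadicW J e (fun i l => ⟪ω.1 l, x i⟫_ℝ / ω.2.1 + ω.2.2 l) =
        ∫ ω, q ω * dyadicW J e (TTω x ω) := by
      rw [← integral_indicator (measurableSet_ParamSet r)]
      refine integral_congr_ae (Eventually.of_forall fun ω => ?_)
      show (ParamSet r).indicator _ ω = q ω * _
      rw [hq]
      by_cases hω : ω ∈ ParamSet r
      · rw [indicator_of_mem hω, indicator_of_mem hω]
      · rw [indicator_of_notMem hω, indicator_of_notMem hω, zero_mul]
    rw [h2] at h1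
    rw [integral_mul_const]
    have h3 : 0 ≤ ‖f x‖ ^ 2 := by positivity
    have h4 := mul_le_mul_of_nonneg_right h1 h3
    linarith
  have hfinal := integral_mono ((hint2.const_mul c1).sub (hf2.const_mul (C2 * N / r))) hVint hpt
  simp only [Pi.sub_apply] at hfinal
  rw [integral_sub (hint2.const_mul c1) (hf2.const_mul _), integral_const_mul, integral_const_mul,
    hf1, mul_one] at hfinal
  refine le_trans ?_ hfinal
  have h5 : c1 * -(vA / r * (C * (2 * r) ^ α * D / g + C * N)) ≤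
      c1 * ∫ x : Conf N, ∫ ω, q ω * dyadicW J e (TTω x ω) * ‖f x‖ ^ 2 :=
    mul_le_mul_of_nonneg_left hdy hc1.le
  refine le_trans ?_ (sub_le_sub_right h5 _)
  set M := max (c1 * vA * C * 2 ^ α) (c1 * vA * C + C2) with hM
  have hM1 : c1 * vA * C * 2 ^ α ≤ M := le_max_left _ _
  have hM2 : c1 * vA * C + C2 ≤ M := le_max_right _ _
  have e1 : (2 * r) ^ α = 2 ^ α * (r ^ (α - 1) * r) := by
    rw [Real.mul_rpow (by norm_num) hr.le]
    congr 1
    rw [← Real.rpow_add_one hr.ne', sub_add_cancel]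
  have e2 : c1 * -(vA / r * (C * (2 * r) ^ α * D / g + C * N)) - C2 * N / r =
      -((c1 * vA * C * 2 ^ α) * (r ^ (α - 1) / g * D)) - (c1 * vA * C + C2) * (N / r) := by
    rw [e1]
    field_simp
    ring
  rw [e2]
  have h6 : (c1 * vA * C * 2 ^ α) * (r ^ (α - 1) / g * D) ≤ M * (r ^ (α - 1) / g * D) :=
    mul_le_mul_of_nonneg_right hM1 (by positivity)
  have h7 : (c1 * vA * C + C2) * (N / r) ≤ M * (N / r) :=
    mul_le_mul_of_nonneg_right hM2 (by positivity)
  have e3 : M * r ^ (α - 1) / g * D = M * (r ^ (α - 1) / g * D) := by ring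
  have e4 : M * N / r = M * (N / r) := by ring
  rw [e3, e4]
  linarith

end

end Pool.Agent.H.MP_d1ae63_mp
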