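import Pool.Agent.H.MP_d1ae63_mp.CoulombRep
import Pool.Agent.H.MP_d1ae63_mp.KineticEquiv
import Pool.Agent.H.MP_d1ae63_mp.LowerB

set_option autoImplicit false

open MeasureTheory Set Filter Topology
open scoped FourierTransform ENNReal Real InnerProductSpace

namespace Pool.Agent.H.MP_d1ae63_mp

theorem volume_coincide {N : ℕ} {i k : Fin N} (hik : i ≠ k) :
    volume {x : Conf N | x i = x k} = 0 := by
  set L : Conf N →ₗ[ℝ] E3 :=
    { toFun := fun x => x i - x k
      map_add' := fun x y => by simp only [PiLp.add_apply]; abel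
      map_smul' := fun c x => by simp only [PiLp.smul_apply, smul_sub, RingHom.id_apply] } with hL
  have hLa : ∀ x : Conf N, L x = x i - x k := fun x => rfl
  have hset : {x : Conf N | x i = x k} = (LinearMap.ker L : Set (Conf N)) := by
    ext x
    rw [mem_ofPred_eq, SetLike.mem_coe, LinearMap.mem_ker, hLa, sub_eq_zero]
  rw [hset]
  refine Measure.addHaar_submodule _ _ ?_
  intro htop
  have h1 : (WithLp.toLp 2 (Pi.single i (EuclideanSpace.single 0 1 : E3)) : Conf N) ∈
      LinearMap.ker L := by rw [htop]; trivial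
  rw [LinearMap.mem_ker, hLa] at h1
  have h2 : (WithLp.toLp 2 (Pi.single i (EuclideanSpace.single 0 1 : E3)) : Conf N) i =
      EuclideanSpace.single 0 1 := by simp
  have h3 : (WithLp.toLp 2 (Pi.single i (EuclideanSpace.single 0 1 : E3)) : Conf N) k = 0 := by
    simp [hik.symm]
  rw [h2, h3, sub_zero] at h1
  have := congrArg norm h1
  simp at this

theorem L2_norm_one {N : ℕ} (ψ : WaveFn N) (hψ : ‖ψ‖ = 1) :
    Integrable (fun x => ‖ψ x‖ ^ 2) volume ∧ ∫ x, ‖ψ x‖ ^ 2 = 1 := by
  have h1 : Integrable (fun x => ‖ψ x‖ ^ 2) volume := (Lp.memLp ψ).integrable_norm_pow (by norm_num)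
  refine ⟨h1, ?_⟩
  have h2 := L2.inner_def (𝕜 := ℂ) ψ ψ
  rw [inner_self_eq_norm_sq_to_K, hψ] at h2
  have h3 : ∀ x, (inner ℂ (ψ x) (ψ x) : ℂ) = ((‖ψ x‖ ^ 2 : ℝ) : ℂ) := by
    intro x
    rw [inner_self_eq_norm_sq_to_K]
    push_cast; rfl
  simp_rw [h3] at h2
  rw [integral_complex_ofReal] at h2
  have h4 : (1:ℂ) = ((∫ x, ‖ψ x‖ ^ 2 : ℝ) : ℂ) := by
    rw [← h2]; norm_num
  exact_mod_cast h4.symm

theorem pair_sum {N : ℕ} (i k : Fin N) (hik : i < k) (v : Fin N → Fin N → ℝ) :
    ∑ a : Fin N, ∑ b ∈ Finset.Ioi a, ((if a = i then (1:ℝ) else 0) - (if a = k then 1 else 0)) *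
      ((if b = i then (1:ℝ) else 0) - (if b = k then 1 else 0)) * v a b = - v i k := by
  rw [Finset.sum_eq_single i]
  · rw [Finset.sum_eq_single k]
    · rw [if_pos rfl, if_neg hik.ne, if_neg hik.ne', if_pos rfl]; ring
    · intro b hb hbk
      rw [Finset.mem_Ioi] at hb
      rw [if_neg hb.ne', if_neg hbk]; ring
    · intro h; exact absurd (Finset.mem_Ioi.2 hik) h
  · intro a _ hai
    refine Finset.sum_eq_zero fun b hb => ?_
    rw [Finset.mem_Ioi] at hb
    by_cases hak : a = k
    · subst hak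
      rw [if_neg hai, if_pos rfl, if_neg (ne_of_gt (hik.trans hb)), if_neg hb.ne']; ring
    · rw [if_neg hai, if_neg hak]; ring
  · intro h; exact absurd (Finset.mem_univ i) h

theorem lower_of_hier (α : ℝ) (hα : 1 < α) (m : ℕ) (hm : α < 2 * m)
    (h : HierarchicalStatement α m) :
    ∃ C : ℝ, 0 < C ∧ ∃ N₀ : ℕ, ∀ N : ℕ, N₀ ≤ N →
      ((-(C * (N : ℝ) ^ gam α) : ℝ) : EReal) ≤ E0 α N := by
  obtain ⟨g₀, c, C3, hg₀, hc, hC3, H⟩ := all_param hα hm h
  obtain ⟨Ck, hCk, HK⟩ := diffFormAt_le_kineticAt α m (by linarith) hm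
  have hα0 : 0 < α := by linarith
  set δ : ℝ := α / (α + 3) with hδ
  have hδ0 : 0 < δ := by positivity
  -- constants
  set g1 : ℝ := min g₀ (c ^ δ) with hg1
  have hg10 : 0 < g1 := lt_min hg₀ (by positivity)
  set A : ℝ := C3 * Ck with hA
  have hA0 : 0 < A := by positivity
  set r1 : ℝ := (g1 / A) ^ (1 / (α - 1)) with hr1
  have hr10 : 0 < r1 := by positivity
  refine ⟨C3 / r1, by positivity, 1, fun N hN => ?_⟩
  have hN0 : (0:ℝ) < N := by exact_mod_cast hN
  have hN1 : (1:ℝ) ≤ N := by exact_mod_cast hN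
  set g : ℝ := g1 * (N:ℝ) ^ (-δ) with hg
  have hg0 : 0 < g := by positivity
  have hgg : g ≤ g₀ := by
    have h1 : (N:ℝ) ^ (-δ) ≤ 1 := Real.rpow_le_one_of_one_le_of_nonpos hN1 (by linarith)
    calc g ≤ g1 * 1 := by rw [hg]; gcongr
      _ ≤ g₀ := by rw [mul_one]; exact min_le_left _ _
  have hNc : (N:ℝ) ≤ c * g ^ (-((α + 3) / α)) := by
    have e1 : (α + 3) / α = δ⁻¹ := by rw [hδ, inv_div]
    rw [e1, hg, Real.mul_rpow hg10.le (by positivity), ← Real.rpow_mul hN0.le]
    have e2 : -δ * -δ⁻¹ = 1 := by field_simp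
    rw [e2, Real.rpow_one]
    have h2 : c⁻¹ ≤ g1 ^ (-δ⁻¹) := by
      have h3 : g1 ≤ c ^ δ := min_le_right _ _
      have h4 : (c ^ δ) ^ (-δ⁻¹) ≤ g1 ^ (-δ⁻¹) :=
        Real.rpow_le_rpow_of_nonpos hg10 h3 (by
          have : 0 < δ⁻¹ := by positivity
          linarith)
      rw [← Real.rpow_mul hc.le] at h4
      have e3 : δ * -δ⁻¹ = -1 := by field_simp
      rwa [e3, Real.rpow_neg_one] at h4
    calc (N:ℝ) = c * c⁻¹ * N := by rw [mul_inv_cancel₀ hc.ne', one_mul]
      _ ≤ c * g1 ^ (-δ⁻¹) * N := by gcongr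
      _ = _ := by ring
  set r : ℝ := r1 * (N:ℝ) ^ (-(δ / (α - 1))) with hr
  have hr0 : 0 < r := by positivity
  have hα1 : 0 < α - 1 := by linarith
  have hrα : r ^ (α - 1) = g / A := by
    rw [hr, Real.mul_rpow hr10.le (by positivity), ← Real.rpow_mul hN0.le, hr1,
      ← Real.rpow_mul (by positivity)]
    have e1 : 1 / (α - 1) * (α - 1) = 1 := by field_simp
    have e2 : -(δ / (α - 1)) * (α - 1) = -δ := by field_simp
    rw [e1, e2, Real.rpow_one, hg]
    ring
  have hNr : C3 * N / r = C3 / r1 * (N:ℝ) ^ gam α := by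
    have e1 : gam α = 1 + δ / (α - 1) := by
      unfold gam
      have h1 : α ^ 2 + 2 * α - 3 = (α - 1) * (α + 3) := by ring
      have h2 : α + 3 ≠ 0 := by positivity
      rw [h1, hδ]
      field_simp
      ring
    rw [e1, Real.rpow_add hN0, Real.rpow_one, hr, Real.rpow_neg hN0.le]
    field_simp
  obtain ⟨V, hV1, hV2, hV3, hV4, hV5, hV6, hV7⟩ := H r hr0
  unfold E0
  refine le_iInf fun e => le_iInf fun he => le_iInf fun ψ => le_iInf fun hψ => le_iInf fun hK => ?_
  rw [EReal.coe_le_coe_iff, ← hNr]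
  -- the wave function
  set f : Conf N → ℂ := fun x => ψ x with hf
  have hfm : Measurable f := (Lp.stronglyMeasurable ψ).measurable
  obtain ⟨hf2, hf1⟩ := L2_norm_one ψ hψ
  have hKi : ∀ i, kineticAt α i ψ ≠ ∞ := by
    intro i hi
    apply hK
    unfold kinetic
    exact ENNReal.sum_eq_top.2 ⟨i, Finset.mem_univ i, hi⟩
  have hDi : ∀ i, diffFormAt α m i f ≠ ∞ := fun i =>
    ne_top_of_le_ne_top (ENNReal.mul_ne_top ENNReal.ofReal_ne_top (hKi i)) (HK N i ψ)
  have hDK : ∑ i, (diffFormAt α m i f).toReal ≤ Ck * (kinetic α ψ).toReal := by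
    unfold kinetic
    rw [ENNReal.toReal_sum fun i _ => hKi i, Finset.mul_sum]
    refine Finset.sum_le_sum fun i _ => ?_
    have h1 := ENNReal.toReal_mono (ENNReal.mul_ne_top ENNReal.ofReal_ne_top (hKi i)) (HK N i ψ)
    rwa [ENNReal.toReal_mul, ENNReal.toReal_ofReal hCk.le] at h1
  set K : ℝ := (kinetic α ψ).toReal with hKdef
  have hK0 : 0 ≤ K := ENNReal.toReal_nonneg
  set W : ℝ := K + C3 * N / r with hW
  have hVlow : ∀ (J : ℕ) (e : Fin N → ℝ), (∀ i, |e i| ≤ 1) → -W ≤
      ∫ x : Conf N, (∑ i : Fin N, ∑ k ∈ Finset.Ioi i, e i * e k * V J (x i - x k)) *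
        ‖f x‖ ^ 2 := by
    intro J e he
    refine le_trans ?_ (hV7 g N hg0 hgg hNc J e he f hfm hf2 hf1 hDi)
    have h1 : C3 * r ^ (α - 1) / g = Ck⁻¹ := by
      rw [hrα, hA]; field_simp
    rw [h1, hW]
    have h2 : Ck⁻¹ * ∑ i, (diffFormAt α m i f).toReal ≤ K := by
      rw [inv_mul_le_iff₀ hCk]; exact hDK
    linarith
  -- integrability of the pair interactions
  have hmeasV : ∀ (J : ℕ) (i k : Fin N), Measurable fun x : Conf N => V J (x i - x k) := by
    intro J i k
    refine (hV1 J).comp (Continuous.measurable ?_)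
    exact (PiLp.continuous_apply 2 _ i).sub (PiLp.continuous_apply 2 _ k)
  have hVintg : ∀ (J : ℕ) (i k : Fin N),
      Integrable (fun x : Conf N => V J (x i - x k) * ‖f x‖ ^ 2) volume := by
    intro J i k
    obtain ⟨b, hb⟩ := hV3 J
    refine (hf2.const_mul b).mono'
      ((hmeasV J i k).mul (hfm.norm.pow_const 2)).aestronglyMeasurable
      (Eventually.of_forall fun x => ?_)
    rw [Real.norm_eq_abs, abs_mul, abs_of_nonneg (hV2 _ _),
      abs_of_nonneg (by positivity : 0 ≤ ‖f x‖ ^ 2)]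
    have := hb (x i - x k)
    gcongr
  have hne : ∀ (i k : Fin N), i ≠ k → ∀ᵐ x : Conf N, x i - x k ≠ 0 := by
    intro i k hik
    have h1 := volume_coincide hik
    rw [← compl_mem_ae_iff] at h1
    filter_upwards [h1] with x hx h2
    exact hx (sub_eq_zero.1 h2)
  have hpair : ∀ i k : Fin N, i < k →
      Integrable (fun x : Conf N => ‖x i - x k‖⁻¹ * ‖f x‖ ^ 2) volume := by
    intro i k hik
    have hJ : ∀ J, ∫⁻ x : Conf N, ENNReal.ofReal (V J (x i - x k) * ‖f x‖ ^ 2) ≤
        ENNReal.ofReal W := by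
      intro J
      rw [← ofReal_integral_eq_lintegral_ofReal (hVintg J i k)
        (Eventually.of_forall fun x => mul_nonneg (hV2 _ _) (by positivity))]
      refine ENNReal.ofReal_le_ofReal ?_
      have h1 := hVlow J (fun a => (if a = i then (1:ℝ) else 0) - (if a = k then 1 else 0)) (by
        intro a
        by_cases h1 : a = i
        · subst h1; rw [if_pos rfl, if_neg hik.ne]; norm_num
        · rw [if_neg h1]; split_ifs <;> norm_num)
      have h2 : ∀ x : Conf N, (∑ a : Fin N, ∑ b ∈ Finset.Ioi a,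
          ((if a = i then (1:ℝ) else 0) - (if a = k then 1 else 0)) *
          ((if b = i then (1:ℝ) else 0) - (if b = k then 1 else 0)) * V J (x a - x b)) *
          ‖f x‖ ^ 2 = -(V J (x i - x k) * ‖f x‖ ^ 2) := by
        intro x
        rw [pair_sum i k hik (fun a b => V J (x a - x b))]; ring
      simp_rw [h2] at h1
      rw [integral_neg] at h1
      linarith
    have hlim := lintegral_tendsto_of_tendsto_of_monotone (μ := (volume : Measure (Conf N)))
      (f := fun J x => ENNReal.ofReal (V J (x i - x k) * ‖f x‖ ^ 2))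
      (F := fun x => ENNReal.ofReal (‖x i - x k‖⁻¹ * ‖f x‖ ^ 2))
      (fun J => ((hmeasV J i k).mul (hfm.norm.pow_const 2)).ennreal_ofReal.aemeasurable)
      (Eventually.of_forall fun x J J' hJJ => ENNReal.ofReal_le_ofReal
        (mul_le_mul_of_nonneg_right (hV6 _ hJJ) (by positivity)))
      (by
        filter_upwards [hne i k hik.ne] with x hx
        exact (ENNReal.continuous_ofReal.tendsto _).comp ((hV5 _ hx).mul_const _))
    have hle := le_of_tendsto' hlim hJ
    refine ⟨?_, ?_⟩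
    · refine Measurable.aestronglyMeasurable ?_
      refine Measurable.mul ?_ (hfm.norm.pow_const 2)
      have h1 : Continuous fun x : Conf N => x i - x k :=
        (PiLp.continuous_apply 2 _ i).sub (PiLp.continuous_apply 2 _ k)
      exact h1.norm.measurable.inv
    · rw [hasFiniteIntegral_iff_ofReal (Eventually.of_forall fun x => by positivity)]
      exact lt_of_le_of_lt hle ENNReal.ofReal_lt_top
  -- pass to the limit
  have habs : ∀ i, |e i| ≤ 1 := by
    intro i
    rcases he i with h1 | h1 <;> rw [h1] <;> norm_num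
  have hbound : Integrable (fun x : Conf N =>
      ∑ i : Fin N, ∑ k ∈ Finset.Ioi i, ‖x i - x k‖⁻¹ * ‖f x‖ ^ 2) volume :=
    integrable_finsetSum _ fun i _ => integrable_finsetSum _ fun k hk =>
      hpair i k (Finset.mem_Ioi.1 hk)
  have haeall : ∀ᵐ x : Conf N, ∀ i k : Fin N, i ≠ k → x i - x k ≠ 0 := by
    rw [ae_all_iff]; intro i
    rw [ae_all_iff]; intro k
    by_cases hik : i = k
    · exact Eventually.of_forall fun x h => absurd hik h
    · filter_upwards [hne i k hik] with x hx _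
      exact hx
  have hlim : Tendsto (fun J => ∫ x : Conf N, (∑ i : Fin N, ∑ k ∈ Finset.Ioi i,
      e i * e k * V J (x i - x k)) * ‖f x‖ ^ 2) atTop
      (𝓝 (∫ x : Conf N, coulomb e x * ‖f x‖ ^ 2)) := by
    refine tendsto_integral_of_dominated_convergence _ (fun J => ?_) hbound (fun J => ?_) ?_
    · refine Measurable.aestronglyMeasurable ?_
      refine Measurable.mul ?_ (hfm.norm.pow_const 2)
      exact Finset.measurable_sum _ fun i _ => Finset.measurable_sum _ fun k _ =>
        (hmeasV J i k).const_mul _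
    · filter_upwards [haeall] with x hx
      rw [Real.norm_eq_abs, abs_mul, abs_of_nonneg (by positivity : 0 ≤ ‖f x‖ ^ 2)]
      simp_rw [← Finset.sum_mul]
      refine mul_le_mul_of_nonneg_right ?_ (by positivity)
      refine (Finset.abs_sum_le_sum_abs _ _).trans (Finset.sum_le_sum fun i _ => ?_)
      refine (Finset.abs_sum_le_sum_abs _ _).trans (Finset.sum_le_sum fun k hk => ?_)
      rw [abs_mul, abs_of_nonneg (hV2 _ _)]
      have h1 := abs_ee_le habs i k
      have h2 := hV4 J (x i - x k) (hx i k (Finset.mem_Ioi.1 hk).ne)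
      have h3 := hV2 J (x i - x k)
      calc |e i * e k| * V J (x i - x k) ≤ 1 * ‖x i - x k‖⁻¹ := by gcongr
        _ = _ := one_mul _
    · filter_upwards [haeall] with x hx
      refine Tendsto.mul_const _ ?_
      unfold coulomb
      refine tendsto_finsetSum _ fun i _ => tendsto_finsetSum _ fun k hk => ?_
      rw [div_eq_mul_inv]
      exact (hV5 _ (hx i k (Finset.mem_Ioi.1 hk).ne)).const_mul _
  have hpot : -W ≤ potential e ψ := ge_of_tendsto' hlim fun J => hVlow J e habs
  rw [hW] at hpot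
  linarith

end Pool.Agent.H.MP_d1ae63_mp
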