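import Pool.Agent.H.MP_d1ae63_mp.Defs

/-!
Change of variables: transfer of the difference form under affine bijections.
-/

set_option autoImplicit false

open MeasureTheory Set Filter Topology
open scoped ENNReal Real InnerProductSpace

namespace Pool.Agent.H.MP_d1ae63_mp

noncomputable section

/-- the affine bijection `x ↦ L x + w` -/
def affEquiv {V W : Type*} [NormedAddCommGroup V] [NormedSpace ℝ V] [MeasurableSpace V]
    [BorelSpace V] [NormedAddCommGroup W] [NormedSpace ℝ W] [MeasurableSpace W] [BorelSpace W]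
    (L : V ≃L[ℝ] W) (w : W) : V ≃ᵐ W :=
  (L.toHomeomorph.trans (Homeomorph.addRight w)).toMeasurableEquiv

theorem affEquiv_apply {V W : Type*} [NormedAddCommGroup V] [NormedSpace ℝ V] [MeasurableSpace V]
    [BorelSpace V] [NormedAddCommGroup W] [NormedSpace ℝ W] [MeasurableSpace W] [BorelSpace W]
    (L : V ≃L[ℝ] W) (w : W) (x : V) : affEquiv L w x = L x + w := rfl

theorem haar_change {V W : Type*} [NormedAddCommGroup V] [NormedSpace ℝ V] [MeasurableSpace V]
    [BorelSpace V] [NormedAddCommGroup W] [NormedSpace ℝ W] [MeasurableSpace W] [BorelSpace W]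
    [FiniteDimensional ℝ V] [FiniteDimensional ℝ W]
    (μ : Measure V) [μ.IsAddHaarMeasure] (ν : Measure W) [ν.IsAddHaarMeasure] (L : V ≃L[ℝ] W) :
    ∃ κ : ℝ≥0∞, κ ≠ 0 ∧ κ ≠ ∞ ∧ ∀ w : W, ν = κ • (μ.map (affEquiv L w)) := by
  have hL : (μ.map L).IsAddHaarMeasure := L.isAddHaarMeasure_map μ
  have h := Measure.isAddLeftInvariant_eq_smul ν (μ.map L)
  refine ⟨(Measure.addHaarScalarFactor ν (μ.map L) : ℝ≥0∞), ?_, ENNReal.coe_ne_top, fun w => ?_⟩
  · exact_mod_cast (Measure.addHaarScalarFactor_pos_of_isAddHaarMeasure ν (μ.map L)).ne'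
  · have e : μ.map (affEquiv L w) = μ.map L := by
      have : (affEquiv L w : V → W) = (fun y => y + w) ∘ L := rfl
      rw [this, ← Measure.map_map (measurable_add_const w) L.continuous.measurable,
        map_add_right_eq_self]
    rw [e]
    exact h

variable {N : ℕ}

/-- the linear part of the change of variables on configurations -/
def confL (B : E3 ≃L[ℝ] X3) : Conf N ≃L[ℝ] (Fin N → X3) :=
  (PiLp.continuousLinearEquiv 2 ℝ (fun _ : Fin N => E3)).trans
    (ContinuousLinearEquiv.piCongrRight fun _ => B)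

theorem confL_apply (B : E3 ≃L[ℝ] X3) (x : Conf N) (i : Fin N) : confL B x i = B (x i) := rfl

/-- the change of variables on configurations -/
def TT (B : E3 ≃L[ℝ] X3) (z : X3) : Conf N ≃ᵐ (Fin N → X3) := affEquiv (confL B) (fun _ => z)

theorem TT_apply (B : E3 ≃L[ℝ] X3) (z : X3) (x : Conf N) (i : Fin N) :
    TT B z x i = B (x i) + z := rfl

theorem TT_update (B : E3 ≃L[ℝ] X3) (z : X3) (x : Conf N) (i : Fin N) (u : E3) :
    Function.update (TT B z x) i (B (x i) + z + B u) =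
      TT B z (x + (WithLp.toLp 2 (Pi.single i u) : Conf N)) := by
  funext j
  rw [TT_apply]
  by_cases hj : j = i
  · subst hj
    rw [Function.update_self]
    have : (x + (WithLp.toLp 2 (Pi.single j u) : Conf N)) j = x j + u := by
      simp
    rw [this, map_add]
    abel
  · rw [Function.update_of_ne hj, TT_apply]
    have : (x + (WithLp.toLp 2 (Pi.single i u) : Conf N)) j = x j := by
      simp [hj]
    rw [this]

theorem measurable_ddiff (m : ℕ) (i : Fin N) {f : Conf N → ℂ} (hf : Measurable f) :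
    Measurable (fun p : Conf N × E3 => ddiff m i p.2 f p.1) := by
  unfold ddiff
  refine Finset.measurable_sum _ fun k _ => Measurable.const_mul (hf.comp ?_) _
  have h1 : Continuous fun h : E3 => (WithLp.toLp 2 (Pi.single i h) : Conf N) := by
    have h0 : Continuous fun h : E3 => (Pi.single i h : Fin N → E3) := by
      refine continuous_pi fun j => ?_
      by_cases hj : j = i
      · subst hj
        simp only [Pi.single_eq_same]
        exact continuous_id
      · simp only [Pi.single_eq_of_ne hj]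
        exact continuous_const
    exact (PiLp.continuous_toLp 2 _).comp h0
  exact (continuous_fst.add ((h1.comp continuous_snd).const_smul (k:ℝ))).measurable

/-- one-particle change of variables, with a bound of the factor -/
theorem one_change (B : E3 ≃L[ℝ] X3) {β₂ : ℝ} (hβ₂ : ∀ h, ‖B h‖ ≤ β₂ * ‖h‖) :
    ∃ κ : ℝ≥0∞, κ ≤ ENNReal.ofReal ((2 * β₂) ^ 3) / volume (Metric.ball (0:E3) 1) ∧
      ∀ (w : X3) (F : X3 → ℝ≥0∞), ∫⁻ v, F v = κ * ∫⁻ h, F (B h + w) := by
  obtain ⟨κ, hκ0, hκ1, hκ⟩ := haar_change (volume : Measure E3) (volume : Measure X3) B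
  have hF : ∀ (w : X3) (F : X3 → ℝ≥0∞), ∫⁻ v, F v = κ * ∫⁻ h, F (B h + w) := by
    intro w F
    conv_lhs => rw [hκ w]
    rw [lintegral_smul_measure, lintegral_map_equiv, smul_eq_mul]
    rfl
  refine ⟨κ, ?_, hF⟩
  have hβ0 : 0 ≤ β₂ := by
    have := hβ₂ (EuclideanSpace.single 0 1)
    have h1 : ‖(EuclideanSpace.single 0 1 : E3)‖ = 1 := by simp
    rw [h1, mul_one] at this
    exact (norm_nonneg _).trans this
  have hS : MeasurableSet (B '' Metric.ball (0:E3) 1) :=
    (B.toHomeomorph.isOpenMap _ Metric.isOpen_ball).measurableSet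
  have h1 := hF 0 ((B '' Metric.ball (0:E3) 1).indicator 1)
  rw [lintegral_indicator_one hS] at h1
  have h2 : ∀ h : E3, (B '' Metric.ball (0:E3) 1).indicator (1 : X3 → ℝ≥0∞) (B h + 0) =
      (Metric.ball (0:E3) 1).indicator 1 h := by
    intro h
    rw [add_zero]
    by_cases hh : h ∈ Metric.ball (0:E3) 1
    · rw [indicator_of_mem hh, indicator_of_mem (mem_image_of_mem B hh)]; rfl
    · rw [indicator_of_notMem hh, indicator_of_notMem]
      rintro ⟨h', hh', he⟩
      rw [B.injective he] at hh'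
      exact hh hh'
  simp_rw [h2] at h1
  rw [lintegral_indicator_one measurableSet_ball] at h1
  have h3 : (volume : Measure X3) (B '' Metric.ball (0:E3) 1) ≤ ENNReal.ofReal ((2 * β₂) ^ 3) := by
    have hsub : B '' Metric.ball (0:E3) 1 ⊆ Metric.closedBall (0:X3) β₂ := by
      rintro _ ⟨h, hh, rfl⟩
      rw [mem_closedBall_zero_iff]
      refine (hβ₂ h).trans ?_
      have := mem_ball_zero_iff.1 hh
      nlinarith
    refine (measure_mono hsub).trans ?_
    rw [Real.volume_pi_closedBall _ hβ0]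
    simp
  rw [ENNReal.le_div_iff_mul_le (Or.inl (Metric.measure_ball_pos _ _ one_pos).ne')
    (Or.inl measure_ball_lt_top.ne), ← h1]
  exact h3

/-- Transfer of the difference form. -/
theorem form_transfer (α : ℝ) (hα : 0 < α) (m : ℕ) (hm : 0 < m) (B : E3 ≃L[ℝ] X3)
    {β₁ β₂ : ℝ} (hβ₁0 : 0 < β₁) (hβ₂0 : 0 < β₂) (hβ₁ : ∀ h, β₁ * ‖h‖ ≤ ‖B h‖)
    (hβ₂ : ∀ h, ‖B h‖ ≤ β₂ * ‖h‖) :
    ∃ κ : ℝ≥0∞, κ ≠ 0 ∧ κ ≠ ∞ ∧ ∀ z : X3,
      (∀ F : (Fin N → X3) → ℝ≥0∞, ∫⁻ y, F y = κ * ∫⁻ x, F (TT B z x)) ∧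
      (∀ F : (Fin N → X3) → ℝ, ∫ y, F y = κ.toReal * ∫ x, F (TT B z x)) ∧
      ∀ (f : Conf N → ℂ), Measurable f → ∀ i,
        difFormAt α m i (fun y => f ((TT B z).symm y)) ≤ κ *
          (ENNReal.ofReal ((2 * (m * β₂)) ^ 3 * (m * β₁) ^ (-(3 + α))) /
            volume (Metric.ball (0:E3) 1)) * diffFormAt α m i f := by
  obtain ⟨κ, hκ0, hκ1, hκ⟩ := haar_change (volume : Measure (Conf N))
    (volume : Measure (Fin N → X3)) (confL B)
  have hF1 : ∀ (z : X3) (F : (Fin N → X3) → ℝ≥0∞), ∫⁻ y, F y = κ * ∫⁻ x, F (TT B z x) := by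
    intro z F
    conv_lhs => rw [hκ (fun _ => z)]
    rw [lintegral_smul_measure, lintegral_map_equiv, smul_eq_mul]
    rfl
  refine ⟨κ, hκ0, hκ1, fun z => ⟨hF1 z, ?_, ?_⟩⟩
  · intro F
    conv_lhs => rw [hκ (fun _ => z)]
    rw [integral_smul_measure, integral_map_equiv, smul_eq_mul]
    rfl
  intro f hf i
  have hm' : (0:ℝ) < m := by exact_mod_cast hm
  -- the scaled map `m • B`
  set Bm : E3 ≃L[ℝ] X3 := (ContinuousLinearEquiv.smulLeft (Units.mk0 (m:ℝ) hm'.ne')).trans B with hBm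
  have hBm_apply : ∀ h, Bm h = (m:ℝ) • B h := by
    intro h
    rw [hBm]
    simp [ContinuousLinearEquiv.smulLeft]
  obtain ⟨κ₃, hκ₃, hF3⟩ := one_change Bm (β₂ := m * β₂) (fun h => by
    rw [hBm_apply, norm_smul, Real.norm_of_nonneg hm'.le, mul_assoc]
    exact mul_le_mul_of_nonneg_left (hβ₂ h) hm'.le)
  unfold difFormAt
  rw [hF1 z]
  have key : ∀ x : Conf N, ∫⁻ v : X3, ENNReal.ofReal (‖v - TT B z x i‖ ^ (-(3 + α))) *
      ‖dif m (fun u => f ((TT B z).symm (Function.update (TT B z x) i u))) (TT B z x i) v‖ₑ ^ 2 ≤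
      κ₃ * ENNReal.ofReal ((m * β₁) ^ (-(3 + α))) *
        ∫⁻ h : E3, ENNReal.ofReal (‖h‖ ^ (-(3 + α))) * ‖ddiff m i h f x‖ₑ ^ 2 := by
    intro x
    rw [hF3 (TT B z x i), mul_assoc,
      ← lintegral_const_mul' (ENNReal.ofReal ((m * β₁) ^ (-(3 + α)))) _ ENNReal.ofReal_ne_top]
    refine mul_le_mul_right (lintegral_mono fun h => ?_) _
    have e1 : Bm h + TT B z x i - TT B z x i = Bm h := by abel
    have e2 : dif m (fun u => f ((TT B z).symm (Function.update (TT B z x) i u))) (TT B z x i)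
        (Bm h + TT B z x i) = ddiff m i h f x := by
      unfold dif ddiff
      refine Finset.sum_congr rfl fun k _ => ?_
      congr 1
      have e3 : ((k:ℝ)/(m:ℝ)) • (Bm h + TT B z x i - TT B z x i) = B ((k:ℝ) • h) := by
        rw [e1, hBm_apply, smul_smul, div_mul_cancel₀ _ hm'.ne', map_smul]
      rw [e3]
      show f ((TT B z).symm (Function.update (TT B z x) i (B (x i) + z + B ((k:ℝ) • h)))) = _
      rw [TT_update, MeasurableEquiv.symm_apply_apply]
      have e4 : (WithLp.toLp 2 (Pi.single i ((k:ℝ) • h)) : Conf N) =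
          (k:ℝ) • (WithLp.toLp 2 (Pi.single i h) : Conf N) := by
        rw [Pi.single_smul]; rfl
      rw [e4]
    rw [e1, e2, ← mul_assoc, ← ENNReal.ofReal_mul (by positivity)]
    refine mul_le_mul_left (ENNReal.ofReal_le_ofReal ?_) _
    rw [← Real.mul_rpow (by positivity) (norm_nonneg _)]
    rcases eq_or_ne h 0 with rfl | hh
    · rw [map_zero, norm_zero, norm_zero, mul_zero]
    · have hh' : 0 < ‖h‖ := norm_pos_iff.2 hh
      refine Real.rpow_le_rpow_of_nonpos (by positivity) ?_ (by linarith)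
      rw [hBm_apply, norm_smul, Real.norm_of_nonneg hm'.le, mul_assoc]
      exact mul_le_mul_of_nonneg_left (hβ₁ h) hm'.le
  have hswap : ∫⁻ x : Conf N, ∫⁻ h : E3, ENNReal.ofReal (‖h‖ ^ (-(3 + α))) *
      ‖ddiff m i h f x‖ₑ ^ 2 = diffFormAt α m i f := by
    unfold diffFormAt
    rw [lintegral_lintegral_swap]
    · refine lintegral_congr fun h => ?_
      rw [lintegral_const_mul']
      exact ENNReal.ofReal_ne_top
    · refine Measurable.aemeasurable ?_
      exact Measurable.mul (by fun_prop) ((measurable_ddiff m i hf).enorm.pow_const 2)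
  calc κ * ∫⁻ x : Conf N, ∫⁻ v : X3, ENNReal.ofReal (‖v - TT B z x i‖ ^ (-(3 + α))) *
      ‖dif m (fun u => f ((TT B z).symm (Function.update (TT B z x) i u))) (TT B z x i) v‖ₑ ^ 2
      ≤ κ * ∫⁻ x : Conf N, κ₃ * ENNReal.ofReal ((m * β₁) ^ (-(3 + α))) *
        ∫⁻ h : E3, ENNReal.ofReal (‖h‖ ^ (-(3 + α))) * ‖ddiff m i h f x‖ₑ ^ 2 :=
        mul_le_mul_right (lintegral_mono key) _
    _ = κ * (κ₃ * ENNReal.ofReal ((m * β₁) ^ (-(3 + α)))) * diffFormAt α m i f := by
        rw [lintegral_const_mul, hswap]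
        · ring
        exact Measurable.lintegral_prod_right'
          (f := fun p : Conf N × E3 => ENNReal.ofReal (‖p.2‖ ^ (-(3 + α))) *
            ‖ddiff m i p.2 f p.1‖ₑ ^ 2)
          (Measurable.mul (by fun_prop) ((measurable_ddiff m i hf).enorm.pow_const 2))
    _ ≤ _ := by
        refine mul_le_mul_left (mul_le_mul_right ?_ _) _
        rw [ENNReal.ofReal_mul (by positivity), ENNReal.mul_div_right_comm]
        exact mul_le_mul_left hκ₃ _

end

end Pool.Agent.H.MP_d1ae63_mp
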