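import Pool.Agent.H.MP_d1ae63_mp.Cubes

/-!
# One-body estimates for the difference form on cubes
-/

set_option autoImplicit false

open MeasureTheory Set
open scoped ENNReal Real

namespace Pool.Agent.H.MP_d1ae63_mp

noncomputable section

/-- coefficient `(-1)^k C(m,k)` -/
def cf (m k : ℕ) : ℂ := (-1 : ℂ) ^ k * (m.choose k : ℂ)

/-- weight `|v-x|^{-3-α}` -/
def wt (α : ℝ) (x v : X3) : ℝ≥0∞ := ENNReal.ofReal (‖v - x‖ ^ (-(3 + α)))

/-- one-body difference energy on a set -/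
def tQ (α : ℝ) (m : ℕ) (Q : Set X3) (f : X3 → ℂ) : ℝ≥0∞ :=
  ∫⁻ x in Q, ∫⁻ v in Q, wt α x v * ‖dif m f x v‖ₑ ^ 2

/-- the operator `R_Q` : average of the `m`-th differences -/
def Rc (m : ℕ) (j : ℤ) (z : Fin 3 → ℤ) (f : X3 → ℂ) (x : X3) : ℂ :=
  ⨍ v in cube j z, dif m f x v

/-- `G_Q = 1 - R_Q` -/
def Gc (m : ℕ) (j : ℤ) (z : Fin 3 → ℤ) (f : X3 → ℂ) (x : X3) : ℂ := f x - Rc m j z f x

/-- `⨍_{v ∈ Q} f(x + (k/m)(v-x))` -/
def avgf (m k : ℕ) (j : ℤ) (z : Fin 3 → ℤ) (f : X3 → ℂ) (x : X3) : ℂ :=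
  ⨍ v in cube j z, f (x + ((k : ℝ) / (m : ℝ)) • (v - x))

theorem dif_def (m : ℕ) (f : X3 → ℂ) (x v : X3) :
    dif m f x v = ∑ k ∈ Finset.range (m + 1), cf m k * f (x + ((k : ℝ) / (m : ℝ)) • (v - x)) := rfl

theorem sum_cf (m : ℕ) (hm : 1 ≤ m) : ∑ k ∈ Finset.range (m + 1), cf m k = 0 := by
  have h := Int.alternating_sum_range_choose_of_ne (n := m) (by omega)
  have h2 := congrArg (Int.cast (R := ℂ)) h
  push_cast at h2
  exact h2

theorem dif_self (m : ℕ) (hm : 1 ≤ m) (f : X3 → ℂ) (x : X3) : dif m f x x = 0 := by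
  rw [dif_def]
  simp only [sub_self, smul_zero, add_zero]
  rw [← Finset.sum_mul, sum_cf m hm, zero_mul]

theorem measurable_dif (m : ℕ) {f : X3 → ℂ} (hf : Measurable f) :
    Measurable (fun p : X3 × X3 => dif m f p.1 p.2) := by
  unfold dif
  refine Finset.measurable_sum _ fun k _ => ?_
  refine measurable_const.mul (hf.comp ?_)
  fun_prop

theorem measurable_wt (α : ℝ) : Measurable (fun p : X3 × X3 => wt α p.1 p.2) := by
  unfold wt
  fun_prop

/-- inside a cube the weight is bounded below -/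
theorem dif_sq_le (α : ℝ) (hα : 0 < α) (m : ℕ) (hm : 1 ≤ m) (f : X3 → ℂ) {j : ℤ}
    {z : Fin 3 → ℤ} {x v : X3} (hx : x ∈ cube j z) (hv : v ∈ cube j z) :
    ‖dif m f x v‖ₑ ^ 2
      ≤ ENNReal.ofReal (side j ^ (3 + α)) * (wt α x v * ‖dif m f x v‖ₑ ^ 2) := by
  rcases eq_or_ne x v with rfl | hne
  · rw [dif_self m hm]; simp
  · have h1 : 0 < ‖v - x‖ := norm_pos_iff.mpr (sub_ne_zero.mpr hne.symm)
    have h2 := norm_sub_le_side hx hv
    have h3 : 1 ≤ ENNReal.ofReal (side j ^ (3 + α)) * wt α x v := by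
      unfold wt
      rw [← ENNReal.ofReal_mul (by have := side_pos j; positivity), ENNReal.one_le_ofReal,
        Real.rpow_neg h1.le, ← div_eq_mul_inv, one_le_div (by positivity)]
      exact Real.rpow_le_rpow h1.le h2 (by linarith)
    calc ‖dif m f x v‖ₑ ^ 2 = 1 * ‖dif m f x v‖ₑ ^ 2 := (one_mul _).symm
      _ ≤ (ENNReal.ofReal (side j ^ (3 + α)) * wt α x v) * ‖dif m f x v‖ₑ ^ 2 := by gcongr
      _ = _ := by rw [mul_assoc]

theorem measurable_Rc (m : ℕ) (j : ℤ) (z : Fin 3 → ℤ) {f : X3 → ℂ} (hf : Measurable f) :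
    Measurable (Rc m j z f) := by
  unfold Rc
  simp_rw [setAverage_eq]
  refine Measurable.const_smul ?_ _
  exact ((measurable_dif m hf).stronglyMeasurable.integral_prod_right').measurable

theorem measurable_Gc (m : ℕ) (j : ℤ) (z : Fin 3 → ℤ) {f : X3 → ℂ} (hf : Measurable f) :
    Measurable (Gc m j z f) := hf.sub (measurable_Rc m j z hf)

theorem inv_vol_mul_side (j : ℤ) (z : Fin 3 → ℤ) (α : ℝ) :
    (volume (cube j z))⁻¹ * ENNReal.ofReal (side j ^ (3 + α)) = ENNReal.ofReal (side j ^ α) := by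
  have hs := side_pos j
  rw [volume_cube, ← ENNReal.ofReal_inv_of_pos (by positivity),
    ← ENNReal.ofReal_mul (by positivity)]
  congr 1
  rw [Real.rpow_add hs]
  norm_cast
  field_simp

/-- OB1: `∫_Q |R_Q f|² ≤ s^α t_Q(f)` -/
theorem lintegral_Rc_sq_le (α : ℝ) (hα : 0 < α) (m : ℕ) (hm : 1 ≤ m) {f : X3 → ℂ}
    (hf : Measurable f) (j : ℤ) (z : Fin 3 → ℤ) :
    ∫⁻ x in cube j z, ‖Rc m j z f x‖ₑ ^ 2
      ≤ ENNReal.ofReal (side j ^ α) * tQ α m (cube j z) f := by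
  have hms := measurableSet_cube j z
  calc ∫⁻ x in cube j z, ‖Rc m j z f x‖ₑ ^ 2
      ≤ ∫⁻ x in cube j z, (volume (cube j z))⁻¹ * (ENNReal.ofReal (side j ^ (3 + α)) *
          ∫⁻ v in cube j z, wt α x v * ‖dif m f x v‖ₑ ^ 2) := by
        apply setLIntegral_mono' hms
        intro x hx
        refine (enorm_average_sq_le j z _
          ((measurable_dif m hf).comp (by fun_prop : Measurable fun v : X3 => (x, v))).aestronglyMeasurable).trans ?_
        gcongr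
        rw [← lintegral_const_mul' _ _ ENNReal.ofReal_ne_top]
        apply setLIntegral_mono' hms
        intro v hv
        exact dif_sq_le α hα m hm f hx hv
    _ = (volume (cube j z))⁻¹ * (ENNReal.ofReal (side j ^ (3 + α)) * tQ α m (cube j z) f) := by
        rw [lintegral_const_mul' _ _ (ENNReal.inv_ne_top.mpr (volume_cube_pos j z).ne'),
          lintegral_const_mul' _ _ ENNReal.ofReal_ne_top]
        rfl
    _ = _ := by rw [← mul_assoc, inv_vol_mul_side]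

/-- change of variables `v ↦ x + t (v - x)` on a cube -/
theorem lintegral_conv_le (F : X3 → ℝ≥0∞) {j : ℤ} {z : Fin 3 → ℤ} {x : X3}
    (hx : x ∈ cube j z) {t : ℝ} (ht : 0 < t) (ht1 : t ≤ 1) :
    ∫⁻ v in cube j z, F (x + t • (v - x))
      ≤ ENNReal.ofReal ((t ^ 3)⁻¹) * ∫⁻ u in cube j z, F u := by
  have e : ∀ v : X3, x + t • (v - x) = (x - t • x) + t • v := by
    intro v; rw [smul_sub]; abel
  simp_rw [e]
  apply setLIntegral_affine_le F _ ht (measurableSet_cube j z) (measurableSet_cube j z)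
  intro v hv
  rw [← e]
  exact cube_convex_comb hx hv ht.le ht1

theorem memLp_comp_conv {f : X3 → ℂ} (hf : Measurable f) {j : ℤ} {z : Fin 3 → ℤ} {x : X3}
    (hx : x ∈ cube j z) (hfin : ∫⁻ u in cube j z, ‖f u‖ₑ ^ 2 ≠ ∞) {t : ℝ} (ht : 0 < t)
    (ht1 : t ≤ 1) :
    MemLp (fun v => f (x + t • (v - x))) 2 (volume.restrict (cube j z)) := by
  refine ⟨(hf.comp (by fun_prop)).aestronglyMeasurable, ?_⟩
  rw [eLpNorm_lt_top_iff_lintegral_rpow_enorm_lt_top (by norm_num) (by norm_num)]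
  have h := lintegral_conv_le (fun u => ‖f u‖ₑ ^ 2) hx ht ht1
  have h2 : ENNReal.ofReal ((t ^ 3)⁻¹) * ∫⁻ u in cube j z, ‖f u‖ₑ ^ 2 < ∞ :=
    ENNReal.mul_lt_top ENNReal.ofReal_lt_top hfin.lt_top
  have h3 := h.trans_lt h2
  simpa using h3

theorem integrable_comp_conv {f : X3 → ℂ} (hf : Measurable f) {j : ℤ} {z : Fin 3 → ℤ} {x : X3}
    (hx : x ∈ cube j z) (hfin : ∫⁻ u in cube j z, ‖f u‖ₑ ^ 2 ≠ ∞) {t : ℝ} (ht : 0 < t)
    (ht1 : t ≤ 1) :
    Integrable (fun v => f (x + t • (v - x))) (volume.restrict (cube j z)) := by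
  have : IsFiniteMeasure (volume.restrict (cube j z)) :=
    ⟨by rw [Measure.restrict_apply_univ]; exact volume_cube_lt_top j z⟩
  exact (memLp_comp_conv hf hx hfin ht ht1).integrable (by norm_num)

theorem kdm_pos {m k : ℕ} (hk : k + 1 ≤ m) : (0 : ℝ) < ((k + 1 : ℕ) : ℝ) / m := by
  have : (0 : ℝ) < m := by exact_mod_cast (by omega : 0 < m)
  positivity

theorem kdm_le_one {m k : ℕ} (hk : k + 1 ≤ m) : ((k + 1 : ℕ) : ℝ) / m ≤ 1 := by
  have : (0 : ℝ) < m := by exact_mod_cast (by omega : 0 < m)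
  rw [div_le_one this]; exact_mod_cast hk

/-- `((k+1)/m)^{-3} ≤ m^3` -/
theorem kdm_inv_le {m k : ℕ} (hk : k + 1 ≤ m) :
    ((((k + 1 : ℕ) : ℝ) / m) ^ 3)⁻¹ ≤ (m : ℝ) ^ 3 := by
  have hm : (0 : ℝ) < m := by exact_mod_cast (by omega : 0 < m)
  have hk1 : (1 : ℝ) ≤ ((k + 1 : ℕ) : ℝ) := by push_cast; linarith [(Nat.cast_nonneg k : (0 : ℝ) ≤ k)]
  rw [div_pow, inv_div]
  rw [div_le_iff₀ (by positivity)]
  have : (1 : ℝ) ≤ ((k + 1 : ℕ) : ℝ) ^ 3 := one_le_pow₀ hk1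
  nlinarith [pow_pos hm 3]

/-- formula for `G_Q f` on `Q` -/
theorem Gc_eq (m : ℕ) {f : X3 → ℂ} (hf : Measurable f) {j : ℤ} {z : Fin 3 → ℤ}
    {x : X3} (hx : x ∈ cube j z) (hfin : ∫⁻ u in cube j z, ‖f u‖ₑ ^ 2 ≠ ∞) :
    Gc m j z f x = -∑ k ∈ Finset.range m, cf m (k + 1) * avgf m (k + 1) j z f x := by
  have h0 := (volume_cube_pos j z).ne'
  have h1 := (volume_cube_lt_top j z).ne
  have hint : ∀ k ∈ Finset.range m, Integrable
      (fun v => cf m (k + 1) * f (x + (((k + 1 : ℕ) : ℝ) / (m : ℝ)) • (v - x)))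
      (volume.restrict (cube j z)) := by
    intro k hk
    have hk' : k + 1 ≤ m := by have := Finset.mem_range.mp hk; omega
    exact (integrable_comp_conv hf hx hfin (kdm_pos hk') (kdm_le_one hk')).const_mul _
  have e : Rc m j z f x = f x + ∑ k ∈ Finset.range m, cf m (k + 1) * avgf m (k + 1) j z f x := by
    unfold Rc
    simp_rw [dif_def, Finset.sum_range_succ']
    have hsplit : (fun v : X3 => ∑ k ∈ Finset.range m, cf m (k + 1) *
          f (x + (((k + 1 : ℕ) : ℝ) / (m : ℝ)) • (v - x)) +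
          cf m 0 * f (x + (((0 : ℕ) : ℝ) / (m : ℝ)) • (v - x)))
        = fun v => (∑ k ∈ Finset.range m, cf m (k + 1) *
          f (x + (((k + 1 : ℕ) : ℝ) / (m : ℝ)) • (v - x))) + f x := by
      funext v
      simp [cf]
    rw [hsplit, setAverage_eq, integral_add (integrable_finsetSum _ hint)
      (by
        have : IsFiniteMeasure (volume.restrict (cube j z)) :=
          ⟨by rw [Measure.restrict_apply_univ]; exact volume_cube_lt_top j z⟩
        exact integrable_const _), integral_finsetSum _ hint, smul_add, add_comm]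
    congr 1
    · rw [integral_const, smul_smul]
      rw [Measure.real, Measure.real, Measure.restrict_apply_univ, inv_mul_cancel₀, one_smul]
      exact (ENNReal.toReal_pos h0 h1).ne'
    · rw [Finset.smul_sum]
      apply Finset.sum_congr rfl
      intro k _
      unfold avgf
      rw [setAverage_eq, integral_const_mul, mul_smul_comm]
  unfold Gc
  rw [e]
  ring

theorem enorm_cf (m k : ℕ) : ‖cf m k‖ₑ = (m.choose k : ℝ≥0∞) := by
  unfold cf
  rw [enorm_mul, enorm_pow, enorm_neg, enorm_one, one_pow, one_mul]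
  rw [← ofReal_norm, Complex.norm_natCast, ENNReal.ofReal_natCast]

/-- weighted Cauchy-Schwarz in `ℝ≥0∞` -/
theorem sq_sum_mul_le {ι : Type*} (s : Finset ι) (c y : ι → ℝ≥0∞) :
    (∑ k ∈ s, c k * y k) ^ 2 ≤ (∑ k ∈ s, c k) * ∑ k ∈ s, c k * y k ^ 2 := by
  have h := ENNReal.inner_le_Lp_mul_Lq s (fun k => c k ^ (1 / 2 : ℝ))
    (fun k => c k ^ (1 / 2 : ℝ) * y k) (p := 2) (q := 2) ⟨by norm_num, by norm_num, by norm_num⟩
  have e1 : ∀ k, c k ^ (1 / 2 : ℝ) * (c k ^ (1 / 2 : ℝ) * y k) = c k * y k := by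
    intro k
    rw [← mul_assoc, ← ENNReal.rpow_add_of_nonneg _ _ (by norm_num) (by norm_num)]
    norm_num
  have e2 : ∀ k, (c k ^ (1 / 2 : ℝ)) ^ (2 : ℝ) = c k := by
    intro k
    rw [← ENNReal.rpow_mul]; norm_num
  have e3 : ∀ k, (c k ^ (1 / 2 : ℝ) * y k) ^ (2 : ℝ) = c k * y k ^ 2 := by
    intro k
    rw [ENNReal.mul_rpow_of_nonneg _ _ (by norm_num), e2]
    norm_num
  simp only [e1, e2, e3] at h
  have h2 := pow_le_pow_left₀ zero_le h 2
  refine h2.trans (le_of_eq ?_)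
  rw [mul_pow, ← ENNReal.rpow_natCast, ← ENNReal.rpow_natCast, ← ENNReal.rpow_mul,
    ← ENNReal.rpow_mul]
  norm_num

theorem sum_choose_succ_le (m : ℕ) :
    ∑ k ∈ Finset.range m, (m.choose (k + 1) : ℝ≥0∞) ≤ 2 ^ m := by
  have h := Nat.sum_range_choose m
  rw [Finset.sum_range_succ'] at h
  have h2 : ∑ k ∈ Finset.range m, m.choose (k + 1) ≤ 2 ^ m := by omega
  exact_mod_cast h2

/-- norm bound of a linear combination with the coefficients `cf m (k+1)` -/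
theorem enorm_sum_cf_sq_le (m : ℕ) (a : ℕ → ℂ) (M : ℝ≥0∞)
    (ha : ∀ k ∈ Finset.range m, ‖a k‖ₑ ^ 2 ≤ M) :
    ‖∑ k ∈ Finset.range m, cf m (k + 1) * a k‖ₑ ^ 2 ≤ 4 ^ m * M := by
  have h1 : ‖∑ k ∈ Finset.range m, cf m (k + 1) * a k‖ₑ
      ≤ ∑ k ∈ Finset.range m, (m.choose (k + 1) : ℝ≥0∞) * ‖a k‖ₑ := by
    refine (enorm_sum_le _ _).trans (le_of_eq ?_)
    exact Finset.sum_congr rfl fun k _ => by rw [enorm_mul, enorm_cf]
  calc ‖∑ k ∈ Finset.range m, cf m (k + 1) * a k‖ₑ ^ 2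
      ≤ (∑ k ∈ Finset.range m, (m.choose (k + 1) : ℝ≥0∞) * ‖a k‖ₑ) ^ 2 :=
        pow_le_pow_left₀ zero_le h1 2
    _ ≤ (∑ k ∈ Finset.range m, (m.choose (k + 1) : ℝ≥0∞)) *
          ∑ k ∈ Finset.range m, (m.choose (k + 1) : ℝ≥0∞) * ‖a k‖ₑ ^ 2 := sq_sum_mul_le _ _ _
    _ ≤ (∑ k ∈ Finset.range m, (m.choose (k + 1) : ℝ≥0∞)) *
          ∑ k ∈ Finset.range m, (m.choose (k + 1) : ℝ≥0∞) * M := by
        gcongr with k hk
        exact ha k hk
    _ = (∑ k ∈ Finset.range m, (m.choose (k + 1) : ℝ≥0∞)) ^ 2 * M := by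
        rw [← Finset.sum_mul]; ring
    _ ≤ (2 ^ m) ^ 2 * M := by gcongr; exact sum_choose_succ_le m
    _ = 4 ^ m * M := by rw [← pow_mul, mul_comm m 2, pow_mul]; norm_num

/-- bound of the averages -/
theorem avgf_sq_le (m k : ℕ) (hk : k + 1 ≤ m) {f : X3 → ℂ} (hf : Measurable f) {j : ℤ}
    {z : Fin 3 → ℤ} {x : X3} (hx : x ∈ cube j z) :
    ‖avgf m (k + 1) j z f x‖ₑ ^ 2
      ≤ ENNReal.ofReal ((m : ℝ) ^ 3) * ((volume (cube j z))⁻¹ * ∫⁻ u in cube j z, ‖f u‖ₑ ^ 2) := by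
  unfold avgf
  refine (enorm_average_sq_le j z _ (hf.comp (by fun_prop)).aestronglyMeasurable).trans ?_
  have h := lintegral_conv_le (fun u => ‖f u‖ₑ ^ 2) hx (kdm_pos hk) (kdm_le_one hk)
  calc (volume (cube j z))⁻¹ * ∫⁻ v in cube j z,
        ‖f (x + (((k + 1 : ℕ) : ℝ) / (m : ℝ)) • (v - x))‖ₑ ^ 2
      ≤ (volume (cube j z))⁻¹ * (ENNReal.ofReal (((((k + 1 : ℕ) : ℝ) / m) ^ 3)⁻¹) *
          ∫⁻ u in cube j z, ‖f u‖ₑ ^ 2) := by gcongr
    _ ≤ (volume (cube j z))⁻¹ * (ENNReal.ofReal ((m : ℝ) ^ 3) *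
          ∫⁻ u in cube j z, ‖f u‖ₑ ^ 2) := by
        gcongr
        exact kdm_inv_le hk
    _ = _ := by ring

/-- OB2: `|G_Q f(x)|² ≤ C |Q|⁻¹ ∫_Q |f|²` on `Q` -/
theorem Gc_sq_le (m : ℕ) (_hm : 1 ≤ m) {f : X3 → ℂ} (hf : Measurable f) {j : ℤ}
    {z : Fin 3 → ℤ} {x : X3} (hx : x ∈ cube j z) (hfin : ∫⁻ u in cube j z, ‖f u‖ₑ ^ 2 ≠ ∞) :
    ‖Gc m j z f x‖ₑ ^ 2
      ≤ ENNReal.ofReal (4 ^ m * (m : ℝ) ^ 3) *
        ((volume (cube j z))⁻¹ * ∫⁻ u in cube j z, ‖f u‖ₑ ^ 2) := by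
  rw [Gc_eq m hf hx hfin, enorm_neg]
  refine (enorm_sum_cf_sq_le m _ _ (fun k hk =>
    avgf_sq_le m k (by have := Finset.mem_range.mp hk; omega) hf hx)).trans (le_of_eq ?_)
  rw [← mul_assoc, ENNReal.ofReal_mul (by positivity), ENNReal.ofReal_pow (by norm_num)]
  norm_num

theorem integrable_dif (m : ℕ) {f : X3 → ℂ} (hf : Measurable f) {j : ℤ} {z : Fin 3 → ℤ}
    {x : X3} (hx : x ∈ cube j z) (hfin : ∫⁻ u in cube j z, ‖f u‖ₑ ^ 2 ≠ ∞) :
    Integrable (fun v => dif m f x v) (volume.restrict (cube j z)) := by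
  have : IsFiniteMeasure (volume.restrict (cube j z)) :=
    ⟨by rw [Measure.restrict_apply_univ]; exact volume_cube_lt_top j z⟩
  simp_rw [dif_def]
  refine integrable_finsetSum _ fun k hk => ?_
  rcases Nat.eq_zero_or_pos k with rfl | hk0
  · simp only [Nat.cast_zero, zero_div, zero_smul, add_zero]
    exact integrable_const _
  · obtain ⟨k', rfl⟩ := Nat.exists_eq_succ_of_ne_zero hk0.ne'
    have hk' : k' + 1 ≤ m := by have := Finset.mem_range.mp hk; omega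
    exact (integrable_comp_conv hf hx hfin (kdm_pos hk') (kdm_le_one hk')).const_mul _

/-- differences of `G_Q f` are averages of differences of `f` -/
theorem dif_Gc_eq (m : ℕ) (hm : 1 ≤ m) {f : X3 → ℂ} (hf : Measurable f) {j : ℤ}
    {z : Fin 3 → ℤ} {x v : X3} (hx : x ∈ cube j z) (hv : v ∈ cube j z)
    (hfin : ∫⁻ u in cube j z, ‖f u‖ₑ ^ 2 ≠ ∞) :
    dif m (Gc m j z f) x v = -∑ l ∈ Finset.range m, cf m (l + 1) * ⨍ w in cube j z,
      dif m f (x + (((l + 1 : ℕ) : ℝ) / m) • (w - x)) (v + (((l + 1 : ℕ) : ℝ) / m) • (w - v)) := by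
  have hm0 : (0 : ℝ) < m := by exact_mod_cast hm
  have hpt : ∀ k ∈ Finset.range (m + 1), x + ((k : ℝ) / (m : ℝ)) • (v - x) ∈ cube j z := by
    intro k hk
    have hk' : k ≤ m := by have := Finset.mem_range.mp hk; omega
    refine cube_convex_comb hx hv (by positivity) ?_
    rw [div_le_one hm0]; exact_mod_cast hk'
  have h1 : dif m (Gc m j z f) x v = ∑ k ∈ Finset.range (m + 1), cf m k *
      (-∑ l ∈ Finset.range m, cf m (l + 1) *
        avgf m (l + 1) j z f (x + ((k : ℝ) / (m : ℝ)) • (v - x))) := by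
    rw [dif_def]
    apply Finset.sum_congr rfl
    intro k hk
    rw [Gc_eq m hf (hpt k hk) hfin]
  have h2 : ∀ l ∈ Finset.range m, ⨍ w in cube j z,
      dif m f (x + (((l + 1 : ℕ) : ℝ) / m) • (w - x)) (v + (((l + 1 : ℕ) : ℝ) / m) • (w - v))
      = ∑ k ∈ Finset.range (m + 1), cf m k *
        avgf m (l + 1) j z f (x + ((k : ℝ) / (m : ℝ)) • (v - x)) := by
    intro l hl
    have hl' : l + 1 ≤ m := by have := Finset.mem_range.mp hl; omega
    have e : ∀ w : X3, dif m f (x + (((l + 1 : ℕ) : ℝ) / m) • (w - x))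
        (v + (((l + 1 : ℕ) : ℝ) / m) • (w - v)) = ∑ k ∈ Finset.range (m + 1), cf m k *
        f ((x + ((k : ℝ) / (m : ℝ)) • (v - x)) +
          (((l + 1 : ℕ) : ℝ) / m) • (w - (x + ((k : ℝ) / (m : ℝ)) • (v - x)))) := by
      intro w
      rw [dif_def]
      apply Finset.sum_congr rfl
      intro k _
      congr 2
      module
    simp_rw [e]
    rw [setAverage_eq, integral_finsetSum, Finset.smul_sum]
    · apply Finset.sum_congr rfl
      intro k _
      unfold avgf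
      rw [setAverage_eq, integral_const_mul, mul_smul_comm]
    · intro k hk
      exact (integrable_comp_conv hf (hpt k hk) hfin (kdm_pos hl') (kdm_le_one hl')).const_mul _
  have h3 : ∑ l ∈ Finset.range m, cf m (l + 1) * ⨍ w in cube j z,
      dif m f (x + (((l + 1 : ℕ) : ℝ) / m) • (w - x)) (v + (((l + 1 : ℕ) : ℝ) / m) • (w - v))
      = ∑ l ∈ Finset.range m, cf m (l + 1) * ∑ k ∈ Finset.range (m + 1), cf m k *
        avgf m (l + 1) j z f (x + ((k : ℝ) / (m : ℝ)) • (v - x)) :=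
    Finset.sum_congr rfl fun l hl => by rw [h2 l hl]
  rw [h1, h3]
  simp_rw [mul_neg, Finset.sum_neg_distrib, Finset.mul_sum]
  rw [Finset.sum_comm]
  congr 1
  apply Finset.sum_congr rfl
  intro l _
  apply Finset.sum_congr rfl
  intro k _
  ring

/-- change of variables in the double average -/
theorem lintegral_dif_conv_le (m : ℕ) {l : ℕ} (hl : l + 1 < m) {f : X3 → ℂ} (hf : Measurable f)
    {j j' : ℤ} {z z' : Fin 3 → ℤ} (hsub : cube j' z' ⊆ cube j z) {x : X3}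
    (hx : x ∈ cube j' z') :
    ∫⁻ v in cube j' z', ∫⁻ w in cube j z,
        ‖dif m f (x + (((l + 1 : ℕ) : ℝ) / m) • (w - x))
          (v + (((l + 1 : ℕ) : ℝ) / m) • (w - v))‖ₑ ^ 2
      ≤ ENNReal.ofReal ((m : ℝ) ^ 3) * (ENNReal.ofReal ((m : ℝ) ^ 3) *
        ∫⁻ X in cube j z, ∫⁻ V in cube j z, ‖dif m f X V‖ₑ ^ 2) := by
  have hm0 : (0 : ℝ) < m := by exact_mod_cast (by omega : 0 < m)
  set t : ℝ := ((l + 1 : ℕ) : ℝ) / m with ht
  have ht0 : 0 < t := kdm_pos hl.le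
  have ht1 : t ≤ 1 := kdm_le_one hl.le
  have e1t : 1 - t = ((m - l - 1 - 1 + 1 : ℕ) : ℝ) / m := by
    rw [ht, eq_div_iff hm0.ne', sub_mul, div_mul_cancel₀ _ hm0.ne', one_mul]
    have : m - l - 1 - 1 + 1 = m - (l + 1) := by omega
    rw [this, Nat.cast_sub hl.le]
  have h1t : 0 < 1 - t := by rw [e1t]; exact kdm_pos (by omega)
  have h1ti : (((1 - t) ^ 3)⁻¹ : ℝ) ≤ (m : ℝ) ^ 3 := by
    rw [e1t]; exact kdm_inv_le (by omega)
  have hti : ((t ^ 3)⁻¹ : ℝ) ≤ (m : ℝ) ^ 3 := kdm_inv_le hl.le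
  have hmd := measurable_dif m hf
  rw [lintegral_lintegral_swap]
  swap
  · refine Measurable.aemeasurable ?_
    exact ((hmd.comp (by fun_prop : Measurable fun p : X3 × X3 =>
      (x + t • (p.2 - x), p.1 + t • (p.2 - p.1)))).enorm).pow_const 2
  have hxj : x ∈ cube j z := hsub hx
  calc ∫⁻ w in cube j z, ∫⁻ v in cube j' z',
        ‖dif m f (x + t • (w - x)) (v + t • (w - v))‖ₑ ^ 2
      ≤ ∫⁻ w in cube j z, ENNReal.ofReal ((m : ℝ) ^ 3) *
          ∫⁻ V in cube j z, ‖dif m f (x + t • (w - x)) V‖ₑ ^ 2 := by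
        apply setLIntegral_mono' (measurableSet_cube j z)
        intro w hw
        have e : ∀ v : X3, v + t • (w - v) = t • w + (1 - t) • v := by
          intro v; module
        have e2 : ∀ v : X3, ‖dif m f (x + t • (w - x)) (v + t • (w - v))‖ₑ ^ 2
            = ‖dif m f (x + t • (w - x)) (t • w + (1 - t) • v)‖ₑ ^ 2 := fun v => by rw [e v]
        rw [lintegral_congr e2]
        refine (setLIntegral_affine_le (fun V => ‖dif m f (x + t • (w - x)) V‖ₑ ^ 2) (t • w) h1t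
          (measurableSet_cube j z) (measurableSet_cube j' z') ?_).trans ?_
        · intro v hv
          rw [← e]
          exact cube_convex_comb (hsub hv) hw ht0.le ht1
        · gcongr
    _ = ENNReal.ofReal ((m : ℝ) ^ 3) * ∫⁻ w in cube j z,
          ∫⁻ V in cube j z, ‖dif m f (x + t • (w - x)) V‖ₑ ^ 2 := by
        rw [lintegral_const_mul' _ _ ENNReal.ofReal_ne_top]
    _ ≤ _ := by
        gcongr
        refine (lintegral_conv_le (fun X => ∫⁻ V in cube j z, ‖dif m f X V‖ₑ ^ 2)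
          hxj ht0 ht1).trans ?_
        gcongr

/-- `R_Q` is additive on `L²` -/
theorem Rc_add (m : ℕ) {f g : X3 → ℂ} (hf : Measurable f) (hg : Measurable g) {j : ℤ}
    {z : Fin 3 → ℤ} {x : X3} (hx : x ∈ cube j z) (hffin : ∫⁻ u in cube j z, ‖f u‖ₑ ^ 2 ≠ ∞)
    (hgfin : ∫⁻ u in cube j z, ‖g u‖ₑ ^ 2 ≠ ∞) :
    Rc m j z (fun u => f u + g u) x = Rc m j z f x + Rc m j z g x := by
  unfold Rc
  simp_rw [setAverage_eq]
  rw [← smul_add, ← integral_add (integrable_dif m hf hx hffin) (integrable_dif m hg hx hgfin)]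
  congr 1
  apply integral_congr_ae
  filter_upwards with v
  simp_rw [dif_def]
  rw [← Finset.sum_add_distrib]
  apply Finset.sum_congr rfl
  intro k _
  ring

theorem sq_enorm_sub_le (a b : ℂ) : ‖a - b‖ₑ ^ 2 ≤ 2 * ‖a‖ₑ ^ 2 + 2 * ‖b‖ₑ ^ 2 := by
  have h : ‖a - b‖ ^ 2 ≤ 2 * ‖a‖ ^ 2 + 2 * ‖b‖ ^ 2 := by
    have h1 := norm_sub_le a b
    nlinarith [sq_nonneg (‖a‖ - ‖b‖), norm_nonneg (a - b), norm_nonneg a, norm_nonneg b]
  have h2 := ENNReal.ofReal_le_ofReal h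
  rw [ENNReal.ofReal_add (by positivity) (by positivity), ENNReal.ofReal_mul (by norm_num),
    ENNReal.ofReal_mul (by norm_num), ENNReal.ofReal_pow (norm_nonneg _),
    ENNReal.ofReal_pow (norm_nonneg _), ENNReal.ofReal_pow (norm_nonneg _)] at h2
  simpa [ofReal_norm] using h2

theorem sq_enorm_add_le' (a b : ℂ) : ‖a + b‖ₑ ^ 2 ≤ ENNReal.ofReal (3 / 2) * ‖a‖ₑ ^ 2 + 3 * ‖b‖ₑ ^ 2 := by
  have h : ‖a + b‖ ^ 2 ≤ (3 / 2) * ‖a‖ ^ 2 + 3 * ‖b‖ ^ 2 := by
    have h1 := norm_add_le a b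
    nlinarith [sq_nonneg (‖a‖ - 2 * ‖b‖), norm_nonneg (a + b), norm_nonneg a, norm_nonneg b]
  have h2 := ENNReal.ofReal_le_ofReal h
  rw [ENNReal.ofReal_add (by positivity) (by positivity), ENNReal.ofReal_mul (by norm_num),
    ENNReal.ofReal_mul (by norm_num), ENNReal.ofReal_pow (norm_nonneg _),
    ENNReal.ofReal_pow (norm_nonneg _), ENNReal.ofReal_pow (norm_nonneg _)] at h2
  simpa [ofReal_norm] using h2

theorem sq_enorm_add3_le (a b c : ℂ) :
    ‖a + b + c‖ₑ ^ 2 ≤ 3 * ‖a‖ₑ ^ 2 + 3 * ‖b‖ₑ ^ 2 + 3 * ‖c‖ₑ ^ 2 := by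
  have h : ‖a + b + c‖ ^ 2 ≤ 3 * ‖a‖ ^ 2 + 3 * ‖b‖ ^ 2 + 3 * ‖c‖ ^ 2 := by
    have h1 := norm_add_le (a + b) c
    have h2 := norm_add_le a b
    nlinarith [sq_nonneg (‖a‖ - ‖b‖), sq_nonneg (‖a‖ - ‖c‖), sq_nonneg (‖b‖ - ‖c‖),
      norm_nonneg (a + b + c), norm_nonneg a, norm_nonneg b, norm_nonneg c]
  have h2 := ENNReal.ofReal_le_ofReal h
  rw [ENNReal.ofReal_add (by positivity) (by positivity),
    ENNReal.ofReal_add (by positivity) (by positivity), ENNReal.ofReal_mul (by norm_num),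
    ENNReal.ofReal_mul (by norm_num), ENNReal.ofReal_mul (by norm_num),
    ENNReal.ofReal_pow (norm_nonneg _), ENNReal.ofReal_pow (norm_nonneg _),
    ENNReal.ofReal_pow (norm_nonneg _), ENNReal.ofReal_pow (norm_nonneg _)] at h2
  simpa [ofReal_norm] using h2

theorem lintegral_Gc_sq_lt_top (m : ℕ) (hm : 1 ≤ m) {f : X3 → ℂ} (hf : Measurable f) {j : ℤ}
    {z : Fin 3 → ℤ} (hfin : ∫⁻ u in cube j z, ‖f u‖ₑ ^ 2 ≠ ∞) :
    ∫⁻ u in cube j z, ‖Gc m j z f u‖ₑ ^ 2 ≠ ∞ := by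
  have h1 : ∫⁻ u in cube j z, ‖Gc m j z f u‖ₑ ^ 2
      ≤ ∫⁻ _ in cube j z, ENNReal.ofReal (4 ^ m * (m : ℝ) ^ 3) *
        ((volume (cube j z))⁻¹ * ∫⁻ u in cube j z, ‖f u‖ₑ ^ 2) :=
    setLIntegral_mono' (measurableSet_cube j z) fun x hx => Gc_sq_le m hm hf hx hfin
  refine ne_top_of_le_ne_top ?_ h1
  rw [setLIntegral_const]
  refine ENNReal.mul_ne_top (ENNReal.mul_ne_top ENNReal.ofReal_ne_top
    (ENNReal.mul_ne_top (ENNReal.inv_ne_top.mpr (volume_cube_pos j z).ne') hfin))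
    (volume_cube_lt_top j z).ne

theorem lintegral_Rc_sq_lt_top (m : ℕ) (hm : 1 ≤ m) {f : X3 → ℂ} (hf : Measurable f) {j : ℤ}
    {z : Fin 3 → ℤ} (hfin : ∫⁻ u in cube j z, ‖f u‖ₑ ^ 2 ≠ ∞) :
    ∫⁻ u in cube j z, ‖Rc m j z f u‖ₑ ^ 2 ≠ ∞ := by
  have hG := lintegral_Gc_sq_lt_top m hm hf hfin
  have h1 : ∫⁻ u in cube j z, ‖Rc m j z f u‖ₑ ^ 2
      ≤ ∫⁻ u in cube j z, (2 * ‖f u‖ₑ ^ 2 + 2 * ‖Gc m j z f u‖ₑ ^ 2) := by
    apply lintegral_mono
    intro u
    have e : Rc m j z f u = f u - Gc m j z f u := by unfold Gc; ring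
    show ‖Rc m j z f u‖ₑ ^ 2 ≤ 2 * ‖f u‖ₑ ^ 2 + 2 * ‖Gc m j z f u‖ₑ ^ 2
    rw [e]
    exact sq_enorm_sub_le _ _
  refine ne_top_of_le_ne_top ?_ h1
  rw [lintegral_add_left (by fun_prop), lintegral_const_mul' _ _ (by norm_num),
    lintegral_const_mul' _ _ (by norm_num)]
  exact ENNReal.add_ne_top.mpr ⟨ENNReal.mul_ne_top (by norm_num) hfin,
    ENNReal.mul_ne_top (by norm_num) hG⟩

/-- OB3 : difference of `G` on two consecutive levels -/
theorem Gc_sub_sq_le (α : ℝ) (hα : 0 < α) (m : ℕ) (hm : 1 ≤ m) {f : X3 → ℂ}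
    (hf : Measurable f) {j : ℤ} {z z' : Fin 3 → ℤ} (hsub : cube (j + 1) z' ⊆ cube j z) {x : X3}
    (hx : x ∈ cube (j + 1) z') (hfin : ∫⁻ u in cube j z, ‖f u‖ₑ ^ 2 ≠ ∞) :
    ‖Gc m (j + 1) z' f x - Gc m j z f x‖ₑ ^ 2
      ≤ ENNReal.ofReal (2 * (4 ^ m * (m : ℝ) ^ 3 * 2 ^ α + 4 ^ m * (m : ℝ) ^ 7 * 2 ^ α)) *
        (ENNReal.ofReal (side (j + 1) ^ (α - 3)) * tQ α m (cube j z) f) := by
  have hs := side_pos (j + 1)
  have hs' := side_pos j
  have hm0 : (0 : ℝ) < m := by exact_mod_cast hm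
  have hfin' : ∫⁻ u in cube (j + 1) z', ‖f u‖ₑ ^ 2 ≠ ∞ :=
    ne_top_of_le_ne_top hfin (lintegral_mono_set hsub)
  have hRfin := lintegral_Rc_sq_lt_top m hm hf hfin
  have hGfin := lintegral_Gc_sq_lt_top m hm hf hfin
  have hRfin' : ∫⁻ u in cube (j + 1) z', ‖Rc m j z f u‖ₑ ^ 2 ≠ ∞ :=
    ne_top_of_le_ne_top hRfin (lintegral_mono_set hsub)
  have hGfin' : ∫⁻ u in cube (j + 1) z', ‖Gc m j z f u‖ₑ ^ 2 ≠ ∞ :=
    ne_top_of_le_ne_top hGfin (lintegral_mono_set hsub)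
  have hmR := measurable_Rc m j z hf
  have hmG := measurable_Gc m j z hf
  have hxj : x ∈ cube j z := hsub hx
  -- the algebraic identity
  have hid : Gc m (j + 1) z' f x - Gc m j z f x
      = Gc m (j + 1) z' (Rc m j z f) x - Rc m (j + 1) z' (Gc m j z f) x := by
    have hadd := Rc_add m hmR hmG hx hRfin' hGfin'
    have hfe : (fun u => Rc m j z f u + Gc m j z f u) = f := by
      funext u; unfold Gc; ring
    rw [hfe] at hadd
    have e1 : Gc m (j + 1) z' f x = f x - Rc m (j + 1) z' f x := rfl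
    have e2 : Gc m j z f x = f x - Rc m j z f x := rfl
    have e3 : Gc m (j + 1) z' (Rc m j z f) x
      = Rc m j z f x - Rc m (j + 1) z' (Rc m j z f) x := rfl
    rw [e1, e2, e3, hadd]
    ring
  -- first term
  have hvol : (volume (cube (j + 1) z'))⁻¹ = ENNReal.ofReal ((side (j + 1) ^ 3)⁻¹) := by
    rw [volume_cube, ENNReal.ofReal_inv_of_pos (by positivity)]
  have hvol' : (volume (cube j z))⁻¹ = ENNReal.ofReal ((side j ^ 3)⁻¹) := by
    rw [volume_cube, ENNReal.ofReal_inv_of_pos (by positivity)]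
  have hside : side j = 2 * side (j + 1) := side_succ j
  have hA : ‖Gc m (j + 1) z' (Rc m j z f) x‖ₑ ^ 2
      ≤ ENNReal.ofReal (4 ^ m * (m : ℝ) ^ 3 * 2 ^ α) *
        (ENNReal.ofReal (side (j + 1) ^ (α - 3)) * tQ α m (cube j z) f) := by
    calc ‖Gc m (j + 1) z' (Rc m j z f) x‖ₑ ^ 2
        ≤ ENNReal.ofReal (4 ^ m * (m : ℝ) ^ 3) * ((volume (cube (j + 1) z'))⁻¹ *
            ∫⁻ u in cube (j + 1) z', ‖Rc m j z f u‖ₑ ^ 2) := Gc_sq_le m hm hmR hx hRfin'
      _ ≤ ENNReal.ofReal (4 ^ m * (m : ℝ) ^ 3) * ((volume (cube (j + 1) z'))⁻¹ *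
            (ENNReal.ofReal (side j ^ α) * tQ α m (cube j z) f)) := by
          gcongr
          exact (lintegral_mono_set hsub).trans (lintegral_Rc_sq_le α hα m hm hf j z)
      _ = _ := by
          rw [hvol, ← mul_assoc (ENNReal.ofReal _) (ENNReal.ofReal _) (tQ _ _ _ _),
            ← ENNReal.ofReal_mul (by positivity), ← mul_assoc (ENNReal.ofReal _),
            ← ENNReal.ofReal_mul (by positivity), ← mul_assoc (ENNReal.ofReal _),
            ← ENNReal.ofReal_mul (by positivity)]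
          congr 2
          rw [hside, Real.mul_rpow (by norm_num) hs.le, Real.rpow_sub hs]
          norm_cast
          field_simp
  have hmd := measurable_dif m hf
  have hB : ‖Rc m (j + 1) z' (Gc m j z f) x‖ₑ ^ 2
      ≤ ENNReal.ofReal (4 ^ m * (m : ℝ) ^ 7 * 2 ^ α) *
        (ENNReal.ofReal (side (j + 1) ^ (α - 3)) * tQ α m (cube j z) f) := by
    set D : ℕ → X3 → ℝ≥0∞ := fun l v => (volume (cube j z))⁻¹ * ∫⁻ w in cube j z,
      ‖dif m f (x + (((l + 1 : ℕ) : ℝ) / m) • (w - x))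
          (v + (((l + 1 : ℕ) : ℝ) / m) • (w - v))‖ₑ ^ 2 with hD
    have hDmeas : ∀ l, Measurable (D l) := by
      intro l
      refine Measurable.const_mul ?_ _
      refine Measurable.lintegral_prod_right' (f := fun p : X3 × X3 =>
        ‖dif m f (x + (((l + 1 : ℕ) : ℝ) / m) • (p.2 - x))
          (p.1 + (((l + 1 : ℕ) : ℝ) / m) • (p.2 - p.1))‖ₑ ^ 2) ?_
      exact ((hmd.comp (by fun_prop : Measurable fun p : X3 × X3 =>
        (x + (((l + 1 : ℕ) : ℝ) / m) • (p.2 - x),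
          p.1 + (((l + 1 : ℕ) : ℝ) / m) • (p.2 - p.1)))).enorm).pow_const 2
    have hDint : ∀ l ∈ Finset.range m, ∫⁻ v in cube (j + 1) z', D l v
        ≤ (volume (cube j z))⁻¹ * (ENNReal.ofReal ((m : ℝ) ^ 6) *
          (ENNReal.ofReal (side j ^ (3 + α)) * tQ α m (cube j z) f)) := by
      intro l hl
      have hl' : l + 1 ≤ m := by have := Finset.mem_range.mp hl; omega
      rw [hD]
      simp only
      rw [lintegral_const_mul' _ _ (ENNReal.inv_ne_top.mpr (volume_cube_pos j z).ne')]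
      gcongr
      rcases eq_or_lt_of_le hl' with h | h
      · have e1 : ∀ v w : X3, dif m f (x + (((l + 1 : ℕ) : ℝ) / m) • (w - x))
            (v + (((l + 1 : ℕ) : ℝ) / m) • (w - v)) = 0 := by
          intro v w
          rw [h, div_self hm0.ne', one_smul, one_smul, add_sub_cancel, add_sub_cancel,
            dif_self m hm]
        simp_rw [e1]
        simp
      · refine (lintegral_dif_conv_le m h hf hsub hx).trans ?_
        rw [← mul_assoc, ← ENNReal.ofReal_mul (by positivity)]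
        have e6 : (m : ℝ) ^ 3 * (m : ℝ) ^ 3 = (m : ℝ) ^ 6 := by ring
        rw [e6]
        gcongr
        unfold tQ
        rw [← lintegral_const_mul' _ _ ENNReal.ofReal_ne_top]
        apply setLIntegral_mono' (measurableSet_cube j z)
        intro X hX
        rw [← lintegral_const_mul' _ _ ENNReal.ofReal_ne_top]
        apply setLIntegral_mono' (measurableSet_cube j z)
        intro V hV
        exact dif_sq_le α hα m hm f hX hV
    calc ‖Rc m (j + 1) z' (Gc m j z f) x‖ₑ ^ 2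
        ≤ (volume (cube (j + 1) z'))⁻¹ * ∫⁻ v in cube (j + 1) z', ‖dif m (Gc m j z f) x v‖ₑ ^ 2 :=
          enorm_average_sq_le (j + 1) z' _ ((measurable_dif m hmG).comp
            (by fun_prop : Measurable fun v : X3 => (x, v))).aestronglyMeasurable
      _ ≤ (volume (cube (j + 1) z'))⁻¹ * ∫⁻ v in cube (j + 1) z',
            4 ^ m * ∑ l ∈ Finset.range m, D l v := by
          refine mul_le_mul' le_rfl ?_
          apply setLIntegral_mono' (measurableSet_cube _ _)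
          intro v hv
          rw [dif_Gc_eq m hm hf hxj (hsub hv) hfin, enorm_neg]
          apply enorm_sum_cf_sq_le
          intro l hl
          refine le_trans ?_ (Finset.single_le_sum (f := fun l => D l v)
            (fun _ _ => zero_le) hl)
          exact enorm_average_sq_le j z _ (hmd.comp (by fun_prop : Measurable fun w : X3 =>
            (x + (((l + 1 : ℕ) : ℝ) / m) • (w - x),
              v + (((l + 1 : ℕ) : ℝ) / m) • (w - v)))).aestronglyMeasurable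
      _ = (volume (cube (j + 1) z'))⁻¹ * (4 ^ m * ∑ l ∈ Finset.range m,
            ∫⁻ v in cube (j + 1) z', D l v) := by
          rw [lintegral_const_mul' _ _ (by finiteness),
            lintegral_finsetSum _ (fun l _ => hDmeas l)]
      _ ≤ (volume (cube (j + 1) z'))⁻¹ * (4 ^ m * ∑ l ∈ Finset.range m,
            ((volume (cube j z))⁻¹ * (ENNReal.ofReal ((m : ℝ) ^ 6) *
              (ENNReal.ofReal (side j ^ (3 + α)) * tQ α m (cube j z) f)))) := by
          gcongr with l hl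
          exact hDint l hl
      _ = ENNReal.ofReal ((side (j + 1) ^ 3)⁻¹ * (4 ^ m * (m * ((side j ^ 3)⁻¹ *
            ((m : ℝ) ^ 6 * side j ^ (3 + α)))))) * tQ α m (cube j z) f := by
          rw [Finset.sum_const, Finset.card_range, nsmul_eq_mul, hvol, hvol',
            ENNReal.ofReal_mul (by positivity), ENNReal.ofReal_mul (by positivity),
            ENNReal.ofReal_mul (by positivity), ENNReal.ofReal_mul (by positivity),
            ENNReal.ofReal_mul (by positivity), ENNReal.ofReal_natCast,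
            ENNReal.ofReal_pow (p := 4) (by norm_num), ENNReal.ofReal_ofNat]
          ring
      _ = _ := by
          rw [← mul_assoc (ENNReal.ofReal (4 ^ m * (m : ℝ) ^ 7 * 2 ^ α)),
            ← ENNReal.ofReal_mul (by positivity)]
          congr 2
          rw [hside, Real.rpow_add (by positivity), Real.mul_rpow (by norm_num) hs.le,
            Real.mul_rpow (by norm_num) hs.le, Real.rpow_sub hs]
          norm_cast
          field_simp
          push_cast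
          ring
  rw [hid]
  calc ‖Gc m (j + 1) z' (Rc m j z f) x - Rc m (j + 1) z' (Gc m j z f) x‖ₑ ^ 2
      ≤ 2 * ‖Gc m (j + 1) z' (Rc m j z f) x‖ₑ ^ 2 + 2 * ‖Rc m (j + 1) z' (Gc m j z f) x‖ₑ ^ 2 :=
        sq_enorm_sub_le _ _
    _ ≤ 2 * (ENNReal.ofReal (4 ^ m * (m : ℝ) ^ 3 * 2 ^ α) *
        (ENNReal.ofReal (side (j + 1) ^ (α - 3)) * tQ α m (cube j z) f)) +
        2 * (ENNReal.ofReal (4 ^ m * (m : ℝ) ^ 7 * 2 ^ α) *
        (ENNReal.ofReal (side (j + 1) ^ (α - 3)) * tQ α m (cube j z) f)) := by gcongr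
    _ = _ := by
        rw [ENNReal.ofReal_mul (p := 2) (by norm_num),
          ENNReal.ofReal_add (by positivity) (by positivity), ENNReal.ofReal_ofNat]
        ring

/-- constant of OB3 -/
def K3 (α : ℝ) (m : ℕ) : ℝ := 2 * (4 ^ m * (m : ℝ) ^ 3 * 2 ^ α + 4 ^ m * (m : ℝ) ^ 7 * 2 ^ α)

theorem K3_nonneg (α : ℝ) (m : ℕ) : 0 ≤ K3 α m := by unfold K3; positivity

theorem side_rpow (j : ℤ) (t : ℝ) : side j ^ t = (2 : ℝ) ^ (-(j : ℝ) * t) := by
  unfold side
  rw [← Real.rpow_intCast, ← Real.rpow_mul (by norm_num)]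
  push_cast
  ring_nf

/-- OB4 : telescoping over levels -/
theorem Gc_tele_sq_le (α : ℝ) (hα : 0 < α) (m : ℕ) (hm : 1 ≤ m) {f : X3 → ℂ}
    (hf : Measurable f) {β : ℝ} (hβα : β ≤ α) (hβ2 : β ≤ 2) (j₀ : ℤ) (n : ℕ) (x : X3)
    (hfin : ∫⁻ u in cube j₀ (cellIdx j₀ x), ‖f u‖ₑ ^ 2 ≠ ∞) :
    ‖Gc m (j₀ + n) (cellIdx (j₀ + n) x) f x - Gc m j₀ (cellIdx j₀ x) f x‖ₑ ^ 2
      ≤ ENNReal.ofReal (12 * K3 α m * (side j₀ ^ (α - β) * side (j₀ + n) ^ (β - 3))) *
        tQ α m (cube j₀ (cellIdx j₀ x)) f := by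
  have hK := K3_nonneg α m
  induction n with
  | zero => simp
  | succ n ih =>
    set T := tQ α m (cube j₀ (cellIdx j₀ x)) f with hT
    have hs0 := side_pos j₀
    have hs := side_pos (j₀ + n)
    have hs1 := side_pos (j₀ + n + 1)
    have ecast : j₀ + ((n + 1 : ℕ) : ℤ) = j₀ + n + 1 := by push_cast; ring
    rw [ecast]
    have hsub1 : cube (j₀ + n) (cellIdx (j₀ + n) x) ⊆ cube j₀ (cellIdx j₀ x) :=
      cube_subset_cube (by omega) x
    have hfin1 : ∫⁻ u in cube (j₀ + n) (cellIdx (j₀ + n) x), ‖f u‖ₑ ^ 2 ≠ ∞ :=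
      ne_top_of_le_ne_top hfin (lintegral_mono_set hsub1)
    have h3 := Gc_sub_sq_le α hα m hm hf (j := j₀ + n) (z := cellIdx (j₀ + n) x)
      (z' := cellIdx (j₀ + n + 1) x) (cube_subset_cube (by omega) x) (x := x)
      (mem_cube_self _ x) hfin1
    have hTle : tQ α m (cube (j₀ + n) (cellIdx (j₀ + n) x)) f ≤ T := by
      rw [hT]; unfold tQ
      refine (lintegral_mono fun y => ?_).trans (lintegral_mono_set hsub1)
      exact lintegral_mono_set hsub1
    have hsplit : Gc m (j₀ + n + 1) (cellIdx (j₀ + n + 1) x) f x - Gc m j₀ (cellIdx j₀ x) f x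
        = (Gc m (j₀ + n) (cellIdx (j₀ + n) x) f x - Gc m j₀ (cellIdx j₀ x) f x)
          + (Gc m (j₀ + n + 1) (cellIdx (j₀ + n + 1) x) f x
            - Gc m (j₀ + n) (cellIdx (j₀ + n) x) f x) := by ring
    rw [hsplit]
    refine (sq_enorm_add_le' _ _).trans ?_
    have hstep : ENNReal.ofReal (3 / 2) *
        ‖Gc m (j₀ + n) (cellIdx (j₀ + n) x) f x - Gc m j₀ (cellIdx j₀ x) f x‖ₑ ^ 2
        + 3 * ‖Gc m (j₀ + n + 1) (cellIdx (j₀ + n + 1) x) f x
            - Gc m (j₀ + n) (cellIdx (j₀ + n) x) f x‖ₑ ^ 2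
        ≤ ENNReal.ofReal (3 / 2) * (ENNReal.ofReal (12 * K3 α m *
            (side j₀ ^ (α - β) * side (j₀ + n) ^ (β - 3))) * T)
          + 3 * (ENNReal.ofReal (K3 α m) * (ENNReal.ofReal (side (j₀ + n + 1) ^ (α - 3)) * T)) := by
      gcongr
      exact h3.trans (by unfold K3; gcongr)
    refine hstep.trans ?_
    have e3 : ENNReal.ofReal (3 / 2) * (ENNReal.ofReal (12 * K3 α m *
            (side j₀ ^ (α - β) * side (j₀ + n) ^ (β - 3))) * T)
          + 3 * (ENNReal.ofReal (K3 α m) * (ENNReal.ofReal (side (j₀ + n + 1) ^ (α - 3)) * T))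
        = ENNReal.ofReal (3 / 2 * (12 * K3 α m *
            (side j₀ ^ (α - β) * side (j₀ + n) ^ (β - 3))) +
            3 * K3 α m * side (j₀ + n + 1) ^ (α - 3)) * T := by
      rw [ENNReal.ofReal_add (by positivity) (by positivity),
        ENNReal.ofReal_mul (p := 3 / 2) (by norm_num),
        ENNReal.ofReal_mul (p := 3 * K3 α m) (by positivity),
        ENNReal.ofReal_mul (p := 3) (by norm_num), ENNReal.ofReal_ofNat]
      ring
    rw [e3]
    gcongr
    -- real inequality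
    have h2s : side (j₀ + n) = 2 * side (j₀ + n + 1) := side_succ _
    have e1 : side (j₀ + n) ^ (β - 3) = 2 ^ (β - 3) * side (j₀ + n + 1) ^ (β - 3) := by
      rw [h2s, Real.mul_rpow (by norm_num) hs1.le]
    have e2 : (2 : ℝ) ^ (β - 3) ≤ 1 / 2 := by
      calc (2 : ℝ) ^ (β - 3) ≤ 2 ^ (-1 : ℝ) :=
            Real.rpow_le_rpow_of_exponent_le (by norm_num) (by linarith)
        _ = 1 / 2 := by rw [Real.rpow_neg_one]; norm_num
    have e4 : side (j₀ + n + 1) ^ (α - 3)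
        = side (j₀ + n + 1) ^ (α - β) * side (j₀ + n + 1) ^ (β - 3) := by
      rw [← Real.rpow_add hs1]; congr 1; ring
    have e5 : side (j₀ + n + 1) ≤ side j₀ := by
      unfold side
      exact zpow_le_zpow_right₀ (by norm_num) (by omega)
    have e6 : side (j₀ + n + 1) ^ (α - β) ≤ side j₀ ^ (α - β) :=
      Real.rpow_le_rpow hs1.le e5 (by linarith)
    rw [e1, e4]
    have hA : 0 ≤ side j₀ ^ (α - β) := by positivity
    have hB : 0 ≤ side (j₀ + n + 1) ^ (β - 3) := by positivity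
    set A := side j₀ ^ (α - β)
    set B := side (j₀ + n + 1) ^ (β - 3)
    set D := side (j₀ + n + 1) ^ (α - β)
    set K := K3 α m
    set e := (2 : ℝ) ^ (β - 3)
    change 3 / 2 * (12 * K * (A * (e * B))) + 3 * K * (D * B) ≤ 12 * K * (A * B)
    calc 3 / 2 * (12 * K * (A * (e * B))) + 3 * K * (D * B)
        = 18 * e * (K * A * B) + 3 * (K * B) * D := by ring
      _ ≤ 18 * (1 / 2) * (K * A * B) + 3 * (K * B) * A := by
          have h1 : 0 ≤ K * A * B := by positivity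
          have h2 : 0 ≤ K * B := by positivity
          have h3 : e * (K * A * B) ≤ 1 / 2 * (K * A * B) := mul_le_mul_of_nonneg_right e2 h1
          have h4 : K * B * D ≤ K * B * A := mul_le_mul_of_nonneg_left e6 h2
          nlinarith
      _ = 12 * K * (A * B) := by ring

theorem sq_enorm_add_le (a b : ℂ) : ‖a + b‖ₑ ^ 2 ≤ 2 * ‖a‖ₑ ^ 2 + 2 * ‖b‖ₑ ^ 2 := by
  have h := sq_enorm_sub_le a (-b)
  rwa [sub_neg_eq_add, enorm_neg] at h

theorem tQ_mono (α : ℝ) (m : ℕ) {Q Q' : Set X3} (h : Q ⊆ Q') (f : X3 → ℂ) :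
    tQ α m Q f ≤ tQ α m Q' f := by
  unfold tQ
  exact (lintegral_mono fun y => lintegral_mono_set h).trans (lintegral_mono_set h)

/-- P3 : `R_B f` is small on small subcubes -/
theorem lintegral_Rc_small (α : ℝ) (hα : 0 < α) (m : ℕ) (hm : 1 ≤ m) {f : X3 → ℂ}
    (hf : Measurable f) {β : ℝ} (hβα : β ≤ α) (hβ2 : β ≤ 2) (j₀ : ℤ) (n : ℕ)
    {z₀ z' : Fin 3 → ℤ} (hsub : cube (j₀ + n) z' ⊆ cube j₀ z₀)
    (hfin : ∫⁻ u in cube j₀ z₀, ‖f u‖ₑ ^ 2 ≠ ∞) :
    ∫⁻ x in cube (j₀ + n) z', ‖Rc m j₀ z₀ f x‖ₑ ^ 2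
      ≤ ENNReal.ofReal (2 * (1 + 12 * K3 α m) * (side j₀ ^ (α - β) * side (j₀ + n) ^ β)) *
        tQ α m (cube j₀ z₀) f := by
  have hK := K3_nonneg α m
  have hs0 := side_pos j₀
  have hs := side_pos (j₀ + n)
  set T := tQ α m (cube j₀ z₀) f with hT
  have hR := lintegral_Rc_sq_le α hα m hm hf (j₀ + n) z'
  have hTle : tQ α m (cube (j₀ + n) z') f ≤ T := tQ_mono α m hsub f
  have hmR := measurable_Rc m (j₀ + n) z' hf
  calc ∫⁻ x in cube (j₀ + n) z', ‖Rc m j₀ z₀ f x‖ₑ ^ 2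
      ≤ ∫⁻ x in cube (j₀ + n) z', (2 * ‖Rc m (j₀ + n) z' f x‖ₑ ^ 2 + 2 *
          (ENNReal.ofReal (12 * K3 α m * (side j₀ ^ (α - β) * side (j₀ + n) ^ (β - 3))) * T)) := by
        apply setLIntegral_mono' (measurableSet_cube _ _)
        intro x hx
        have e1 : cellIdx (j₀ + n) x = z' := hx
        have e2 : cellIdx j₀ x = z₀ := hsub hx
        have h4 := Gc_tele_sq_le α hα m hm hf hβα hβ2 j₀ n x (by rw [e2]; exact hfin)
        rw [e1, e2] at h4
        have e3 : Rc m j₀ z₀ f x = Rc m (j₀ + n) z' f x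
            + (Gc m (j₀ + n) z' f x - Gc m j₀ z₀ f x) := by unfold Gc; ring
        rw [e3]
        refine (sq_enorm_add_le _ _).trans ?_
        gcongr
    _ = 2 * (∫⁻ x in cube (j₀ + n) z', ‖Rc m (j₀ + n) z' f x‖ₑ ^ 2) + 2 *
          (ENNReal.ofReal (12 * K3 α m * (side j₀ ^ (α - β) * side (j₀ + n) ^ (β - 3))) * T) *
          ENNReal.ofReal (side (j₀ + n) ^ 3) := by
        rw [lintegral_add_left ((hmR.enorm.pow_const 2).const_mul 2), setLIntegral_const,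
          lintegral_const_mul' _ _ (by norm_num), volume_cube]
    _ ≤ 2 * (ENNReal.ofReal (side (j₀ + n) ^ α) * T) + 2 *
          (ENNReal.ofReal (12 * K3 α m * (side j₀ ^ (α - β) * side (j₀ + n) ^ (β - 3))) * T) *
          ENNReal.ofReal (side (j₀ + n) ^ 3) := by
        gcongr
        exact hR.trans (by gcongr)
    _ = ENNReal.ofReal (2 * side (j₀ + n) ^ α +
          2 * (12 * K3 α m * (side j₀ ^ (α - β) * side (j₀ + n) ^ (β - 3))) *
            side (j₀ + n) ^ 3) * T := by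
        rw [ENNReal.ofReal_add (by positivity) (by positivity),
          ENNReal.ofReal_mul (p := 2) (by norm_num),
          ENNReal.ofReal_mul (q := side (j₀ + n) ^ 3) (by positivity),
          ENNReal.ofReal_mul (p := 2) (by norm_num), ENNReal.ofReal_ofNat]
        ring
    _ ≤ _ := by
        gcongr
        have e4 : side (j₀ + n) ^ α = side (j₀ + n) ^ (α - β) * side (j₀ + n) ^ β := by
          rw [← Real.rpow_add hs]; congr 1; ring
        have e5 : side (j₀ + n) ≤ side j₀ := by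
          unfold side
          exact zpow_le_zpow_right₀ (by norm_num) (by omega)
        have e6 : side (j₀ + n) ^ (α - β) ≤ side j₀ ^ (α - β) :=
          Real.rpow_le_rpow hs.le e5 (by linarith)
        have e7 : side (j₀ + n) ^ (β - 3) * side (j₀ + n) ^ 3 = side (j₀ + n) ^ β := by
          rw [← Real.rpow_natCast, ← Real.rpow_add hs]; congr 1; push_cast; ring
        have hB : 0 ≤ side (j₀ + n) ^ β := by positivity
        calc 2 * side (j₀ + n) ^ α +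
          2 * (12 * K3 α m * (side j₀ ^ (α - β) * side (j₀ + n) ^ (β - 3))) *
            side (j₀ + n) ^ 3
            = 2 * (side (j₀ + n) ^ (α - β) * side (j₀ + n) ^ β) + 2 * (12 * K3 α m *
              (side j₀ ^ (α - β) * (side (j₀ + n) ^ (β - 3) * side (j₀ + n) ^ 3))) := by
              rw [e4]; ring
          _ ≤ 2 * (side j₀ ^ (α - β) * side (j₀ + n) ^ β) + 2 * (12 * K3 α m *
              (side j₀ ^ (α - β) * side (j₀ + n) ^ β)) := by
              rw [e7]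
              have := mul_le_mul_of_nonneg_right e6 hB
              linarith
          _ = _ := by ring

/-- the space is the disjoint union of the cubes of a given level -/
theorem lintegral_eq_tsum_cube (j : ℤ) (F : X3 → ℝ≥0∞) :
    ∫⁻ x, F x = ∑' z : Fin 3 → ℤ, ∫⁻ x in cube j z, F x := by
  have hU : (⋃ z : Fin 3 → ℤ, cube j z) = univ := by
    ext x
    simp only [mem_iUnion, mem_univ, iff_true]
    exact ⟨_, mem_cube_self j x⟩
  rw [← setLIntegral_univ, ← hU]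
  exact lintegral_iUnion (measurableSet_cube j) (fun z z' h => cube_disjoint h) F

theorem tsum_tQ_le (α : ℝ) (m : ℕ) (j : ℤ) (f : X3 → ℂ) :
    ∑' z : Fin 3 → ℤ, tQ α m (cube j z) f ≤ tQ α m univ f := by
  unfold tQ
  simp only [Measure.restrict_univ]
  rw [lintegral_eq_tsum_cube j]
  apply ENNReal.tsum_le_tsum
  intro z
  exact lintegral_mono fun x => setLIntegral_le_lintegral _ _

theorem measurable_cell_comp {β : Type*} [MeasurableSpace β] (j : ℤ)
    (F : (Fin 3 → ℤ) → X3 → β) (hF : ∀ z, Measurable (F z)) :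
    Measurable fun x => F (cellIdx j x) x := by
  have h : Measurable (fun p : X3 × (Fin 3 → ℤ) => F p.2 p.1) :=
    measurable_from_prod_countable_left hF
  exact h.comp (measurable_id.prodMk (measurable_cellIdx j))

/-- OB5 : small sets carry a small fraction of the mass -/
theorem setLIntegral_sq_small (α : ℝ) (hα : 0 < α) (m : ℕ) (hm : 1 ≤ m) {f : X3 → ℂ}
    (hf : Measurable f) {β : ℝ} (hβα : β ≤ α) (hβ2 : β ≤ 2) (j₀ : ℤ) (n : ℕ)
    (S : Set X3) (hS : volume S ≤ ENNReal.ofReal (side (j₀ + n) ^ 3)) :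
    ∫⁻ x in S, ‖f x‖ₑ ^ 2
      ≤ ENNReal.ofReal (3 * (1 + 12 * K3 α m) * (side j₀ ^ (α - β) * side (j₀ + n) ^ β)) *
          tQ α m univ f
        + ENNReal.ofReal (3 * (4 ^ m * (m : ℝ) ^ 3) * (side (j₀ + n) / side j₀) ^ 3) *
          ∫⁻ x, ‖f x‖ₑ ^ 2 := by
  have hK := K3_nonneg α m
  have hs0 := side_pos j₀
  have hs := side_pos (j₀ + n)
  have hm0 : (0 : ℝ) < m := by exact_mod_cast hm
  by_cases hfin : ∫⁻ x, ‖f x‖ₑ ^ 2 = ∞
  · rw [hfin, ENNReal.mul_top, add_top]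
    · exact le_top
    · rw [Ne, ENNReal.ofReal_eq_zero, not_le]; positivity
  have hfinc : ∀ (j : ℤ) (z : Fin 3 → ℤ), ∫⁻ u in cube j z, ‖f u‖ₑ ^ 2 ≠ ∞ := fun j z =>
    ne_top_of_le_ne_top hfin (setLIntegral_le_lintegral _ _)
  have hmR : Measurable fun x => Rc m (j₀ + n) (cellIdx (j₀ + n) x) f x :=
    measurable_cell_comp (j₀ + n) (fun z => Rc m (j₀ + n) z f) (fun z => measurable_Rc m _ z hf)
  have hmG : Measurable fun x => Gc m (j₀ + n) (cellIdx (j₀ + n) x) f x :=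
    measurable_cell_comp (j₀ + n) (fun z => Gc m (j₀ + n) z f) (fun z => measurable_Gc m _ z hf)
  have hmG0 : Measurable fun x => Gc m j₀ (cellIdx j₀ x) f x :=
    measurable_cell_comp j₀ (fun z => Gc m j₀ z f) (fun z => measurable_Gc m _ z hf)
  have hmA : Measurable (fun x => 3 * ‖Rc m (j₀ + n) (cellIdx (j₀ + n) x) f x‖ₑ ^ 2 +
      3 * ‖Gc m (j₀ + n) (cellIdx (j₀ + n) x) f x - Gc m j₀ (cellIdx j₀ x) f x‖ₑ ^ 2) :=
    ((hmR.enorm.pow_const 2).const_mul 3).add (((hmG.sub hmG0).enorm.pow_const 2).const_mul 3)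
  have hsplit : ∫⁻ x in S, ‖f x‖ₑ ^ 2 ≤ 3 * (∫⁻ x in S, ‖Rc m (j₀ + n) (cellIdx (j₀ + n) x) f x‖ₑ ^ 2)
      + 3 * (∫⁻ x in S, ‖Gc m (j₀ + n) (cellIdx (j₀ + n) x) f x - Gc m j₀ (cellIdx j₀ x) f x‖ₑ ^ 2)
      + 3 * (∫⁻ x in S, ‖Gc m j₀ (cellIdx j₀ x) f x‖ₑ ^ 2) := by
    rw [← lintegral_const_mul' _ _ (by norm_num), ← lintegral_const_mul' _ _ (by norm_num),
      ← lintegral_const_mul' _ _ (by norm_num),
      ← lintegral_add_left ((hmR.enorm.pow_const 2).const_mul 3),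
      ← lintegral_add_left hmA]
    apply lintegral_mono
    intro x
    have e : f x = Rc m (j₀ + n) (cellIdx (j₀ + n) x) f x
        + (Gc m (j₀ + n) (cellIdx (j₀ + n) x) f x - Gc m j₀ (cellIdx j₀ x) f x)
        + Gc m j₀ (cellIdx j₀ x) f x := by unfold Gc; ring
    calc ‖f x‖ₑ ^ 2 = ‖Rc m (j₀ + n) (cellIdx (j₀ + n) x) f x
        + (Gc m (j₀ + n) (cellIdx (j₀ + n) x) f x - Gc m j₀ (cellIdx j₀ x) f x)
        + Gc m j₀ (cellIdx j₀ x) f x‖ₑ ^ 2 := by rw [← e]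
      _ ≤ _ := sq_enorm_add3_le _ _ _
  -- the three terms
  have h1 : ∫⁻ x in S, ‖Rc m (j₀ + n) (cellIdx (j₀ + n) x) f x‖ₑ ^ 2
      ≤ ENNReal.ofReal (side (j₀ + n) ^ α) * tQ α m univ f := by
    refine (setLIntegral_le_lintegral _ _).trans ?_
    rw [lintegral_eq_tsum_cube (j₀ + n)]
    calc ∑' z : Fin 3 → ℤ, ∫⁻ x in cube (j₀ + n) z, ‖Rc m (j₀ + n) (cellIdx (j₀ + n) x) f x‖ₑ ^ 2
        ≤ ∑' z : Fin 3 → ℤ, ENNReal.ofReal (side (j₀ + n) ^ α) * tQ α m (cube (j₀ + n) z) f := by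
          apply ENNReal.tsum_le_tsum
          intro z
          refine le_trans (le_of_eq ?_) (lintegral_Rc_sq_le α hα m hm hf (j₀ + n) z)
          apply setLIntegral_congr_fun (measurableSet_cube _ _)
          intro x hx
          have : cellIdx (j₀ + n) x = z := hx
          simp only [this]
      _ = ENNReal.ofReal (side (j₀ + n) ^ α) * ∑' z : Fin 3 → ℤ, tQ α m (cube (j₀ + n) z) f :=
          ENNReal.tsum_mul_left
      _ ≤ _ := by gcongr; exact tsum_tQ_le α m _ f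
  have h2 : ∫⁻ x in S, ‖Gc m (j₀ + n) (cellIdx (j₀ + n) x) f x - Gc m j₀ (cellIdx j₀ x) f x‖ₑ ^ 2
      ≤ ENNReal.ofReal (12 * K3 α m * (side j₀ ^ (α - β) * side (j₀ + n) ^ (β - 3))) *
        tQ α m univ f * ENNReal.ofReal (side (j₀ + n) ^ 3) := by
    calc ∫⁻ x in S, ‖Gc m (j₀ + n) (cellIdx (j₀ + n) x) f x - Gc m j₀ (cellIdx j₀ x) f x‖ₑ ^ 2
        ≤ ∫⁻ _ in S, ENNReal.ofReal (12 * K3 α m *
            (side j₀ ^ (α - β) * side (j₀ + n) ^ (β - 3))) * tQ α m univ f := by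
          apply lintegral_mono
          intro x
          refine (Gc_tele_sq_le α hα m hm hf hβα hβ2 j₀ n x (hfinc _ _)).trans ?_
          exact mul_le_mul' le_rfl (tQ_mono α m (subset_univ _) f)
      _ ≤ _ := by
          rw [setLIntegral_const]
          exact mul_le_mul' le_rfl hS
  have h3 : ∫⁻ x in S, ‖Gc m j₀ (cellIdx j₀ x) f x‖ₑ ^ 2
      ≤ ENNReal.ofReal (4 ^ m * (m : ℝ) ^ 3) *
        (ENNReal.ofReal ((side j₀ ^ 3)⁻¹) * ∫⁻ u, ‖f u‖ₑ ^ 2) *
        ENNReal.ofReal (side (j₀ + n) ^ 3) := by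
    calc ∫⁻ x in S, ‖Gc m j₀ (cellIdx j₀ x) f x‖ₑ ^ 2
        ≤ ∫⁻ _ in S, ENNReal.ofReal (4 ^ m * (m : ℝ) ^ 3) *
            (ENNReal.ofReal ((side j₀ ^ 3)⁻¹) * ∫⁻ u, ‖f u‖ₑ ^ 2) := by
          apply lintegral_mono
          intro x
          refine (Gc_sq_le m hm hf (mem_cube_self j₀ x) (hfinc _ _)).trans ?_
          rw [volume_cube, ← ENNReal.ofReal_inv_of_pos (by positivity)]
          exact mul_le_mul' le_rfl (mul_le_mul' le_rfl (setLIntegral_le_lintegral _ _))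
      _ ≤ _ := by
          rw [setLIntegral_const]
          exact mul_le_mul' le_rfl hS
  refine hsplit.trans ?_
  have hfinal : 3 * (ENNReal.ofReal (side (j₀ + n) ^ α) * tQ α m univ f)
      + 3 * (ENNReal.ofReal (12 * K3 α m * (side j₀ ^ (α - β) * side (j₀ + n) ^ (β - 3))) *
        tQ α m univ f * ENNReal.ofReal (side (j₀ + n) ^ 3))
      + 3 * (ENNReal.ofReal (4 ^ m * (m : ℝ) ^ 3) *
        (ENNReal.ofReal ((side j₀ ^ 3)⁻¹) * ∫⁻ u, ‖f u‖ₑ ^ 2) *
        ENNReal.ofReal (side (j₀ + n) ^ 3))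
      = ENNReal.ofReal (3 * side (j₀ + n) ^ α + 3 * (12 * K3 α m *
          (side j₀ ^ (α - β) * side (j₀ + n) ^ (β - 3)) * side (j₀ + n) ^ 3)) * tQ α m univ f
        + ENNReal.ofReal (3 * (4 ^ m * (m : ℝ) ^ 3 * (side j₀ ^ 3)⁻¹ * side (j₀ + n) ^ 3)) *
          ∫⁻ u, ‖f u‖ₑ ^ 2 := by
    rw [ENNReal.ofReal_add (by positivity) (by positivity),
      ENNReal.ofReal_mul (p := 3) (by norm_num), ENNReal.ofReal_mul (p := 3) (by norm_num),
      ENNReal.ofReal_mul (p := 3) (by norm_num),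
      ENNReal.ofReal_mul (q := side (j₀ + n) ^ 3) (by positivity),
      ENNReal.ofReal_mul (q := side (j₀ + n) ^ 3) (by positivity),
      ENNReal.ofReal_mul (q := (side j₀ ^ 3)⁻¹) (by positivity), ENNReal.ofReal_ofNat]
    ring
  refine (add_le_add (add_le_add (mul_le_mul' le_rfl h1) (mul_le_mul' le_rfl h2))
    (mul_le_mul' le_rfl h3)).trans (hfinal.le.trans ?_)
  have e4 : side (j₀ + n) ^ α = side (j₀ + n) ^ (α - β) * side (j₀ + n) ^ β := by
    rw [← Real.rpow_add hs]; congr 1; ring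
  have e5 : side (j₀ + n) ≤ side j₀ := by
    unfold side
    exact zpow_le_zpow_right₀ (by norm_num) (by omega)
  have e6 : side (j₀ + n) ^ (α - β) ≤ side j₀ ^ (α - β) :=
    Real.rpow_le_rpow hs.le e5 (by linarith)
  have e7 : side (j₀ + n) ^ (β - 3) * side (j₀ + n) ^ 3 = side (j₀ + n) ^ β := by
    rw [← Real.rpow_natCast, ← Real.rpow_add hs]; congr 1; push_cast; ring
  have hB : 0 ≤ side (j₀ + n) ^ β := by positivity
  gcongr ENNReal.ofReal ?_ * _ + ENNReal.ofReal ?_ * _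
  · calc 3 * side (j₀ + n) ^ α + 3 * (12 * K3 α m *
          (side j₀ ^ (α - β) * side (j₀ + n) ^ (β - 3)) * side (j₀ + n) ^ 3)
        = 3 * (side (j₀ + n) ^ (α - β) * side (j₀ + n) ^ β) + 3 * (12 * K3 α m *
          (side j₀ ^ (α - β) * (side (j₀ + n) ^ (β - 3) * side (j₀ + n) ^ 3))) := by
          rw [e4]; ring
      _ ≤ 3 * (side j₀ ^ (α - β) * side (j₀ + n) ^ β) + 3 * (12 * K3 α m *
          (side j₀ ^ (α - β) * side (j₀ + n) ^ β)) := by
          rw [e7]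
          have := mul_le_mul_of_nonneg_right e6 hB
          linarith
      _ = _ := by ring
  · apply le_of_eq
    rw [div_pow]
    field_simp

end

end Pool.Agent.H.MP_d1ae63_mp
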