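import Pool.Agent.H.MP_d1ae63_mp.LeafDefs

/-!
# Slices in one variable
-/

set_option autoImplicit false

open MeasureTheory Set
open scoped ENNReal Real

namespace Pool.Agent.H.MP_d1ae63_mp

noncomputable section

variable {N : ℕ}

theorem measurable_update_pair (i : Fin N) :
    Measurable fun p : (Fin N → X3) × X3 => Function.update p.1 i p.2 := by
  rw [measurable_pi_iff]
  intro k
  by_cases h : k = i
  · subst h
    simpa using measurable_snd
  · simp only [Function.update_of_ne h]
    exact (measurable_pi_apply k).comp measurable_fst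

theorem measurable_update_right (i : Fin N) (y : Fin N → X3) :
    Measurable fun u : X3 => Function.update y i u :=
  (measurable_update_pair i).comp (measurable_const.prodMk measurable_id)

theorem measurableSet_coord (i : Fin N) {B : Set X3} (hB : MeasurableSet B) :
    MeasurableSet {y : Fin N → X3 | y i ∈ B} := (measurable_pi_apply i) hB

theorem measurable_slice (i : Fin N) {F : (Fin N → X3) → ℝ≥0∞} (hF : Measurable F) :
    Measurable fun y : Fin N → X3 => ∫⁻ u, F (Function.update y i u) :=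
  Measurable.lintegral_prod_right' (f := fun p : (Fin N → X3) × X3 =>
    F (Function.update p.1 i p.2)) (hF.comp (measurable_update_pair i))

theorem lintegral_dummy (i : Fin N) {B : Set X3} (hB : MeasurableSet B)
    {F : (Fin N → X3) → ℝ≥0∞} (hF : Measurable F) :
    ∫⁻ y in {y : Fin N → X3 | y i ∈ B}, ∫⁻ u, F (Function.update y i u)
      = volume B * ∫⁻ y, F y := by
  have hset := measurableSet_coord i hB
  have hG := measurable_slice i hF
  rw [← lintegral_indicator hset, ← lintegral_const_mul _ hF]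
  refine lintegral_eq_of_lmarginal_eq (μ := fun _ : Fin N => (volume : Measure X3)) {i}
    (hG.indicator hset) (hF.const_mul _) ?_
  rw [lmarginal_singleton, lmarginal_singleton]
  funext x
  have e1 : ∀ u : X3, ({y : Fin N → X3 | y i ∈ B}.indicator
      (fun y => ∫⁻ u, F (Function.update y i u))) (Function.update x i u)
      = B.indicator (fun _ => ∫⁻ u, F (Function.update x i u)) u := by
    intro u
    by_cases hu : u ∈ B
    · rw [indicator_of_mem hu, indicator_of_mem (by simpa using hu)]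
      simp only [Function.update_idem]
    · rw [indicator_of_notMem hu, indicator_of_notMem (by simpa using hu)]
  simp_rw [e1]
  have hm' : Measurable fun u => F (Function.update x i u) :=
    hF.comp (measurable_update_right i x)
  rw [lintegral_indicator hB, setLIntegral_const, lintegral_const_mul _ hm', mul_comm]

/-- comparison of integrals by comparison of slices -/
theorem lintegral_slice_le (i : Fin N) {B : Set X3} (hB : MeasurableSet B) (h0 : volume B ≠ 0)
    (h1 : volume B ≠ ∞) {F G : (Fin N → X3) → ℝ≥0∞} (hF : Measurable F) (hG : Measurable G)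
    (c : ℝ≥0∞) (hc : c ≠ ∞)
    (h : ∀ᵐ y ∂(volume.restrict {y : Fin N → X3 | y i ∈ B}),
      ∫⁻ u, F (Function.update y i u) ≤ c * ∫⁻ u, G (Function.update y i u)) :
    ∫⁻ y, F y ≤ c * ∫⁻ y, G y := by
  have h2 : volume B * ∫⁻ y, F y ≤ volume B * (c * ∫⁻ y, G y) := by
    rw [← lintegral_dummy i hB hF]
    calc ∫⁻ y in {y : Fin N → X3 | y i ∈ B}, ∫⁻ u, F (Function.update y i u)
        ≤ ∫⁻ y in {y : Fin N → X3 | y i ∈ B}, c * ∫⁻ u, G (Function.update y i u) :=
          lintegral_mono_ae h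
      _ = c * ∫⁻ y in {y : Fin N → X3 | y i ∈ B}, ∫⁻ u, G (Function.update y i u) :=
          lintegral_const_mul' _ _ hc
      _ = c * (volume B * ∫⁻ y, G y) := by rw [lintegral_dummy i hB hG]
      _ = _ := by ring
  exact (ENNReal.mul_le_mul_iff_right h0 h1).mp h2

/-- almost every slice of an integrable function is integrable -/
theorem ae_slice_lt_top (i : Fin N) {B : Set X3} (hB : MeasurableSet B)
    (h1 : volume B ≠ ∞) {F : (Fin N → X3) → ℝ≥0∞} (hF : Measurable F) (hfin : ∫⁻ y, F y ≠ ∞) :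
    ∀ᵐ y ∂(volume.restrict {y : Fin N → X3 | y i ∈ B}),
      ∫⁻ u, F (Function.update y i u) < ∞ := by
  apply ae_lt_top (measurable_slice i hF)
  rw [lintegral_dummy i hB hF]
  exact ENNReal.mul_ne_top h1 hfin

/-- slices of almost everywhere equal functions -/
theorem ae_slice_eq (i : Fin N) {B : Set X3} (hB : MeasurableSet B) {f g : (Fin N → X3) → ℂ}
    (h : f =ᵐ[volume] g) :
    ∀ᵐ y ∂(volume.restrict {y : Fin N → X3 | y i ∈ B}),
      ∀ᵐ u, f (Function.update y i u) = g (Function.update y i u) := by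
  obtain ⟨t, hts, htm, ht0⟩ := exists_measurable_superset_of_null (ae_iff.mp h)
  have hF : Measurable (t.indicator fun _ => (1 : ℝ≥0∞)) := measurable_const.indicator htm
  have h2 := lintegral_dummy i hB hF
  rw [lintegral_indicator htm, setLIntegral_const, ht0, mul_zero, mul_zero,
    lintegral_eq_zero_iff (measurable_slice i hF)] at h2
  filter_upwards [h2] with y hy
  have hy2 : ∫⁻ u, (t.indicator fun _ => (1 : ℝ≥0∞)) (Function.update y i u) = 0 := hy
  have hm' : Measurable fun u => (t.indicator fun _ => (1 : ℝ≥0∞)) (Function.update y i u) :=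
    hF.comp (measurable_update_right i y)
  rw [lintegral_eq_zero_iff hm'] at hy2
  filter_upwards [hy2] with u hu
  by_contra hcon
  have hmem : Function.update y i u ∈ t := hts hcon
  have hu2 : (t.indicator fun _ => (1 : ℝ≥0∞)) (Function.update y i u) = 0 := hu
  rw [indicator_of_mem hmem] at hu2
  exact one_ne_zero hu2

/-! ### the operator `R` on slices -/

/-- `R_B` acting on the `k`-th variable -/
def RcN (m : ℕ) (ℓ : ℤ) (z : Fin 3 → ℤ) (k : Fin N) (φ : (Fin N → X3) → ℂ) (y : Fin N → X3) : ℂ :=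
  Rc m ℓ z (fun u => φ (Function.update y k u)) (y k)

theorem measurable_dif_slice (m : ℕ) (k : Fin N) {φ : (Fin N → X3) → ℂ} (hφ : Measurable φ) :
    Measurable (fun p : (Fin N → X3) × X3 =>
      dif m (fun u => φ (Function.update p.1 k u)) (p.1 k) p.2) := by
  unfold dif
  refine Finset.measurable_fun_sum _ fun j _ => ?_
  refine measurable_const.mul (hφ.comp ?_)
  refine (measurable_update_pair k).comp (measurable_fst.prodMk ?_)
  have h1 : Measurable fun p : (Fin N → X3) × X3 => p.1 k :=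
    (measurable_pi_apply k).comp measurable_fst
  have h2 : Measurable fun p : (Fin N → X3) × X3 => p.2 - p.1 k := measurable_snd.sub h1
  exact h1.add (h2.const_smul ((j : ℝ) / (m : ℝ)))

theorem measurable_RcN (m : ℕ) (ℓ : ℤ) (z : Fin 3 → ℤ) (k : Fin N) {φ : (Fin N → X3) → ℂ}
    (hφ : Measurable φ) : Measurable (RcN m ℓ z k φ) := by
  unfold RcN Rc
  simp_rw [setAverage_eq]
  refine Measurable.const_smul ?_ _
  exact ((measurable_dif_slice m k hφ).stronglyMeasurable.integral_prod_right').measurable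

theorem RcN_update (m : ℕ) (ℓ : ℤ) (z : Fin 3 → ℤ) (k : Fin N) (φ : (Fin N → X3) → ℂ)
    (y : Fin N → X3) (u : X3) :
    RcN m ℓ z k φ (Function.update y k u) = Rc m ℓ z (fun u => φ (Function.update y k u)) u := by
  unfold RcN
  simp only [Function.update_idem, Function.update_self]

/-- the local energy density `1_B(y_k) ∫_{v ∈ B} w |dif|²` -/
def Hloc (α : ℝ) (m : ℕ) (ℓ : ℤ) (z : Fin 3 → ℤ) (k : Fin N) (φ : (Fin N → X3) → ℂ)
    (y : Fin N → X3) : ℝ≥0∞ :=
  {y : Fin N → X3 | y k ∈ cube ℓ z}.indicator (fun y => ∫⁻ v in cube ℓ z, wt α (y k) v *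
    ‖dif m (fun u => φ (Function.update y k u)) (y k) v‖ₑ ^ 2) y

theorem measurable_Hloc (α : ℝ) (m : ℕ) (ℓ : ℤ) (z : Fin 3 → ℤ) (k : Fin N)
    {φ : (Fin N → X3) → ℂ} (hφ : Measurable φ) : Measurable (Hloc α m ℓ z k φ) := by
  have h3 : Measurable fun p : (Fin N → X3) × X3 => wt α (p.1 k) p.2 := by
    unfold wt
    fun_prop
  have h4 : Measurable fun p : (Fin N → X3) × X3 =>
      ‖dif m (fun u => φ (Function.update p.1 k u)) (p.1 k) p.2‖ₑ ^ 2 :=
    ((measurable_dif_slice m k hφ).enorm).pow_const 2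
  have h5 : Measurable fun p : (Fin N → X3) × X3 =>
      wt α (p.1 k) p.2 * ‖dif m (fun u => φ (Function.update p.1 k u)) (p.1 k) p.2‖ₑ ^ 2 :=
    h3.mul h4
  have h6 : Measurable fun y : Fin N → X3 => ∫⁻ v in cube ℓ z, wt α (y k) v *
      ‖dif m (fun u => φ (Function.update y k u)) (y k) v‖ₑ ^ 2 := by
    exact Measurable.lintegral_prod_right' h5
  exact h6.indicator (measurableSet_coord k (measurableSet_cube ℓ z))

theorem Hloc_update (α : ℝ) (m : ℕ) (ℓ : ℤ) (z : Fin 3 → ℤ) (k : Fin N)
    (φ : (Fin N → X3) → ℂ) (y : Fin N → X3) (u : X3) :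
    Hloc α m ℓ z k φ (Function.update y k u) = (cube ℓ z).indicator (fun u =>
      ∫⁻ v in cube ℓ z, wt α u v * ‖dif m (fun u => φ (Function.update y k u)) u v‖ₑ ^ 2) u := by
  unfold Hloc
  by_cases hu : u ∈ cube ℓ z
  · rw [indicator_of_mem hu, indicator_of_mem (by simpa using hu)]
    simp only [Function.update_idem, Function.update_self]
  · rw [indicator_of_notMem hu, indicator_of_notMem (by simpa using hu)]

theorem lintegral_Hloc_update (α : ℝ) (m : ℕ) (ℓ : ℤ) (z : Fin 3 → ℤ) (k : Fin N)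
    (φ : (Fin N → X3) → ℂ) (y : Fin N → X3) :
    ∫⁻ u, Hloc α m ℓ z k φ (Function.update y k u)
      = tQ α m (cube ℓ z) (fun u => φ (Function.update y k u)) := by
  simp_rw [Hloc_update]
  rw [lintegral_indicator (measurableSet_cube ℓ z)]
  rfl

/-- global version of OB1 -/
theorem lintegral_RcN_sq_le (α : ℝ) (hα : 0 < α) (m : ℕ) (hm : 1 ≤ m) (ℓ : ℤ) (z : Fin 3 → ℤ)
    (k : Fin N) {φ : (Fin N → X3) → ℂ} (hφ : Measurable φ) :
    ∫⁻ y in {y : Fin N → X3 | y k ∈ cube ℓ z}, ‖RcN m ℓ z k φ y‖ₑ ^ 2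
      ≤ ENNReal.ofReal (side ℓ ^ α) * ∫⁻ y, Hloc α m ℓ z k φ y := by
  have hset := measurableSet_coord k (measurableSet_cube ℓ z)
  rw [← lintegral_indicator hset]
  apply lintegral_slice_le k (measurableSet_cube ℓ z) (volume_cube_pos ℓ z).ne'
    (volume_cube_lt_top ℓ z).ne
    (((measurable_RcN m ℓ z k hφ).enorm.pow_const 2).indicator hset)
    (measurable_Hloc α m ℓ z k hφ) _ ENNReal.ofReal_ne_top
  filter_upwards with y
  rw [lintegral_Hloc_update]
  have e1 : ∀ u : X3, {y : Fin N → X3 | y k ∈ cube ℓ z}.indicator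
      (fun y => ‖RcN m ℓ z k φ y‖ₑ ^ 2) (Function.update y k u)
      = (cube ℓ z).indicator (fun u => ‖Rc m ℓ z (fun u => φ (Function.update y k u)) u‖ₑ ^ 2) u := by
    intro u
    by_cases hu : u ∈ cube ℓ z
    · rw [indicator_of_mem hu, indicator_of_mem (by simpa using hu), RcN_update]
    · rw [indicator_of_notMem hu, indicator_of_notMem (by simpa using hu)]
  simp_rw [e1]
  rw [lintegral_indicator (measurableSet_cube ℓ z)]
  exact lintegral_Rc_sq_le α hα m hm (hφ.comp (measurable_update_right k y)) ℓ z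

/-- global version of P3 -/
theorem lintegral_RcN_small (α : ℝ) (hα : 0 < α) (m : ℕ) (hm : 1 ≤ m) {β : ℝ} (hβα : β ≤ α)
    (hβ2 : β ≤ 2) (ℓ : ℤ) (n : ℕ) {z z' : Fin 3 → ℤ} (hsub : cube (ℓ + n) z' ⊆ cube ℓ z)
    (k : Fin N) {φ : (Fin N → X3) → ℂ} (hφ : Measurable φ) (hfin : ∫⁻ y, ‖φ y‖ₑ ^ 2 ≠ ∞)
    {E : Set (Fin N → X3)} (hE : MeasurableSet E)
    (hEk : ∀ y u, Function.update y k u ∈ E ↔ y ∈ E) :
    ∫⁻ y in E ∩ {y : Fin N → X3 | y k ∈ cube (ℓ + n) z'}, ‖RcN m ℓ z k φ y‖ₑ ^ 2
      ≤ ENNReal.ofReal (2 * (1 + 12 * K3 α m) * (side ℓ ^ (α - β) * side (ℓ + n) ^ β)) *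
        ∫⁻ y in E, Hloc α m ℓ z k φ y := by
  have hset := hE.inter (measurableSet_coord k (measurableSet_cube (ℓ + n) z'))
  rw [← lintegral_indicator hset, ← lintegral_indicator hE]
  apply lintegral_slice_le k (measurableSet_cube ℓ z) (volume_cube_pos ℓ z).ne'
    (volume_cube_lt_top ℓ z).ne
    (((measurable_RcN m ℓ z k hφ).enorm.pow_const 2).indicator hset)
    ((measurable_Hloc α m ℓ z k hφ).indicator hE) _ ENNReal.ofReal_ne_top
  filter_upwards [ae_slice_lt_top k (measurableSet_cube ℓ z) (volume_cube_lt_top ℓ z).ne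
    (hφ.enorm.pow_const 2) hfin] with y hy
  by_cases hyE : y ∈ E
  · have e1 : ∀ u : X3, (E ∩ {y : Fin N → X3 | y k ∈ cube (ℓ + n) z'}).indicator
        (fun y => ‖RcN m ℓ z k φ y‖ₑ ^ 2) (Function.update y k u)
        = (cube (ℓ + n) z').indicator
          (fun u => ‖Rc m ℓ z (fun u => φ (Function.update y k u)) u‖ₑ ^ 2) u := by
      intro u
      by_cases hu : u ∈ cube (ℓ + n) z'
      · have hmem : Function.update y k u ∈ E ∩ {y : Fin N → X3 | y k ∈ cube (ℓ + n) z'} :=
          ⟨(hEk y u).mpr hyE, by simpa using hu⟩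
        rw [indicator_of_mem hu, indicator_of_mem hmem, RcN_update]
      · rw [indicator_of_notMem hu, indicator_of_notMem]
        rintro ⟨_, h2⟩
        exact hu (by simpa using h2)
    have e2 : ∀ u : X3, E.indicator (Hloc α m ℓ z k φ) (Function.update y k u)
        = Hloc α m ℓ z k φ (Function.update y k u) := fun u =>
      indicator_of_mem ((hEk y u).mpr hyE) _
    simp_rw [e1, e2]
    rw [lintegral_Hloc_update, lintegral_indicator (measurableSet_cube _ _)]
    refine lintegral_Rc_small α hα m hm (hφ.comp (measurable_update_right k y)) hβα hβ2 ℓ n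
      hsub ?_
    exact ne_top_of_le_ne_top hy.ne (setLIntegral_le_lintegral _ _)
  · have e1 : ∀ u : X3, (E ∩ {y : Fin N → X3 | y k ∈ cube (ℓ + n) z'}).indicator
        (fun y => ‖RcN m ℓ z k φ y‖ₑ ^ 2) (Function.update y k u) = 0 := by
      intro u
      rw [indicator_of_notMem]
      rintro ⟨h1, _⟩
      exact hyE ((hEk y u).mp h1)
    simp_rw [e1]
    simp

end

end Pool.Agent.H.MP_d1ae63_mp
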