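import Pool.Agent.H.MP_d1ae63_mp.UpperTrial

set_option autoImplicit false

open MeasureTheory Filter Topology
open scoped ENNReal Real InnerProductSpace

namespace Pool.Agent.H.MP_d1ae63_mp

open Up

noncomputable section

/-- centres of the cells -/
def Up.centers (ℓ : ℝ) (K : ℕ) (a : Fin 3 → Fin K) : E3 :=
  WithLp.toLp 2 (fun l => 3 * ℓ * ((a l : ℕ) : ℝ))

theorem Up.geo_exists {R ℓ : ℝ} (hR : 0 < R) (hℓ : 0 < ℓ) (K : ℕ) (hK : 3 * ℓ * K ≤ R) :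
    Geo R ((Real.sqrt (R ^ 3 * Ichi))⁻¹) ℓ (centers ℓ K) where
  Rpos := hR
  βpos := by
    have := Ichi_pos
    positivity
  ℓpos := hℓ
  sep := by
    intro a b hab
    obtain ⟨l, hl⟩ := Function.ne_iff.mp hab
    have h1 : ‖(centers ℓ K a - centers ℓ K b) l‖ ≤ ‖centers ℓ K a - centers ℓ K b‖ :=
      PiLp.norm_apply_le _ l
    refine le_trans ?_ h1
    have h2 : (centers ℓ K a - centers ℓ K b) l =
        3 * ℓ * (((a l : ℕ) : ℝ) - ((b l : ℕ) : ℝ)) := by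
      simp [centers]
      ring
    rw [h2, norm_mul, Real.norm_eq_abs, abs_of_pos (by positivity : 0 < 3 * ℓ), Real.norm_eq_abs]
    have h3 : (1 : ℝ) ≤ |((a l : ℕ) : ℝ) - ((b l : ℕ) : ℝ)| := by
      have h4 : ((a l : ℕ) : ℤ) - ((b l : ℕ) : ℤ) ≠ 0 := by
        intro h
        apply hl
        apply Fin.ext
        omega
      have h5 : (1 : ℤ) ≤ |((a l : ℕ) : ℤ) - ((b l : ℕ) : ℤ)| := Int.one_le_abs h4
      exact_mod_cast h5
    nlinarith
  inside := by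
    intro a
    have hK1 : ∀ l, ((a l : ℕ) : ℝ) + 1 ≤ K := by
      intro l
      exact_mod_cast (a l).2
    have h1 : ‖centers ℓ K a‖ ^ 2 ≤ 3 * (R - 3 * ℓ) ^ 2 := by
      rw [EuclideanSpace.norm_sq_eq]
      have h2 : ∀ l : Fin 3, ‖centers ℓ K a l‖ ^ 2 ≤ (R - 3 * ℓ) ^ 2 := by
        intro l
        have h3 : centers ℓ K a l = 3 * ℓ * ((a l : ℕ) : ℝ) := rfl
        rw [h3, Real.norm_eq_abs, sq_abs]
        have h4 : 0 ≤ 3 * ℓ * ((a l : ℕ) : ℝ) := by positivity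
        have h5 : 3 * ℓ * ((a l : ℕ) : ℝ) ≤ R - 3 * ℓ := by
          have := hK1 l
          nlinarith
        exact pow_le_pow_left₀ h4 h5 2
      calc ∑ l, ‖centers ℓ K a l‖ ^ 2 ≤ ∑ _l : Fin 3, (R - 3 * ℓ) ^ 2 :=
            Finset.sum_le_sum fun l _ => h2 l
        _ = 3 * (R - 3 * ℓ) ^ 2 := by
          rw [Finset.sum_const, Finset.card_univ, Fintype.card_fin, nsmul_eq_mul]
          norm_num
    have h6 : 3 * ℓ ≤ R := by
      have := hK1 0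
      have h7 : (0 : ℝ) ≤ ((a 0 : ℕ) : ℝ) := Nat.cast_nonneg _
      nlinarith
    have h8 : ‖centers ℓ K a‖ ≤ 7 / 4 * (R - 3 * ℓ) := by
      have h9 : 0 ≤ 7 / 4 * (R - 3 * ℓ) := by linarith
      have := norm_nonneg (centers ℓ K a)
      by_contra hcon
      push Not at hcon
      nlinarith [sq_nonneg (R - 3 * ℓ)]
    linarith
  norm := by
    have hI := Ichi_pos
    rw [inv_pow, Real.sq_sqrt (by positivity)]
    show (R ^ 3 * Ichi)⁻¹ * R ^ 3 * Ichi = 1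
    field_simp

theorem upper_bound (α : ℝ) (hα : 1 < α) : ∃ c : ℝ, 0 < c ∧ ∃ N₀ : ℕ, ∀ N : ℕ, N₀ ≤ N →
    E0 α N ≤ ((-(c * (N : ℝ) ^ gam α) : ℝ) : EReal) := by
  have hI := Ichi_pos
  have hm := m1_pos
  have hv := v1_nonneg
  have hEn : ∀ n, 0 ≤ En n := fun n => integral_nonneg fun u => sq_nonneg _
  -- order of the derivative
  obtain ⟨n, hn⟩ : ∃ n : ℕ, α ≤ 2 * n := by
    obtain ⟨n, hn⟩ := exists_nat_ge α
    exact ⟨n, by have : (0 : ℝ) ≤ n := Nat.cast_nonneg _; linarith⟩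
  obtain ⟨Ca, hCa0, hCa⟩ := cell_bound bb_smooth bb.hasCompactSupport bb_abs 0
  obtain ⟨Cb, hCb0, hCb⟩ := cell_bound bb_smooth bb.hasCompactSupport bb_abs n
  set C := max Ca Cb with hCdef
  have hC0 : 0 ≤ C := hCa0.trans (le_max_left _ _)
  have hC1 : ∀ θ q ε : ℝ, 0 ≤ θ → θ ≤ 1 → |ε| ≤ 1 → ∀ y : E3,
      ‖iteratedFDeriv ℝ 0 (fun y : E3 => Real.cos (θ * (q + ε * bb y)) - Real.cos (θ * q)) y‖
        ≤ C * θ := fun θ q ε h0 h1 hε y =>
    (hCa θ q ε h0 h1 hε y).trans (mul_le_mul_of_nonneg_right (le_max_left _ _) h0)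
  have hC2 : ∀ θ q ε : ℝ, 0 ≤ θ → θ ≤ 1 → |ε| ≤ 1 → ∀ y : E3,
      ‖iteratedFDeriv ℝ n (fun y : E3 => Real.cos (θ * (q + ε * bb y)) - Real.cos (θ * q)) y‖
        ≤ C * θ := fun θ q ε h0 h1 hε y =>
    (hCb θ q ε h0 h1 hε y).trans (mul_le_mul_of_nonneg_right (le_max_right _ _) h0)
  -- constants
  set E : ℝ := En 0 + 3 ^ n * (3 * En n) with hE
  set e3 : ℝ := 1 + 3 ^ n * 3 with he3
  have hE0 : 0 ≤ E := by have := hEn 0; have := hEn n; positivity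
  have he30 : 0 ≤ e3 := by positivity
  set c7 : ℝ := min (1 / 16) (3 * Ichi / (16 * m1)) with hc7
  have hc7pos : 0 < c7 := lt_min (by norm_num) (by positivity)
  have hc7a : c7 ≤ 1 / 16 := min_le_left _ _
  have hc7b : 2 * c7 * m1 / Ichi ≤ 3 / 8 := by
    have h1 : c7 ≤ 3 * Ichi / (16 * m1) := min_le_right _ _
    rw [le_div_iff₀ (by positivity)] at h1
    rw [div_le_iff₀ hI]
    linarith
  set cK : ℝ := 8 / 3 * (E / Ichi) + 16 / 81 * (C ^ 2 * c7 * v1 * e3 / Ichi) with hcK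
  have hcK0 : 0 ≤ cK := by positivity
  set cP : ℝ := c7 * m1 ^ 2 / (5184 * Ichi ^ 2) with hcP
  have hcP0 : 0 < cP := by positivity
  set L : ℝ := (2 * cK + 1) / cP with hL
  have hL0 : 0 < L := by positivity
  have hLc : cK / L ≤ cP / 2 := by
    rw [hL, div_div_eq_mul_div, div_le_iff₀ (by positivity)]
    nlinarith
  set Lam : ℝ := L ^ (1 / (α - 1)) with hLam
  have hLam0 : 0 < Lam := Real.rpow_pos_of_pos hL0 _
  refine ⟨cP / 2 / Lam, by positivity, max 2 ⌈(6 : ℝ) ^ (α + 3)⌉₊, fun N hN => ?_⟩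
  have hN2 : 2 ≤ N := (le_max_left _ _).trans hN
  have hN6 : (6 : ℝ) ^ (α + 3) ≤ N := by
    have h1 : ⌈(6 : ℝ) ^ (α + 3)⌉₊ ≤ N := (le_max_right _ _).trans hN
    exact (Nat.le_ceil _).trans (by exact_mod_cast h1)
  have hNpos : (0 : ℝ) < N := by positivity
  set ρ : ℝ := (N : ℝ) ^ (-(1 / (α + 3))) with hρ
  have hρ0 : 0 < ρ := Real.rpow_pos_of_pos hNpos _
  have hα3 : 0 < α + 3 := by linarith
  have hα1 : 0 < α - 1 := by linarith
  have hρ6 : ρ ≤ 1 / 6 := by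
    have h1 : (6 : ℝ) ≤ (N : ℝ) ^ (1 / (α + 3)) := by
      have h2 := Real.rpow_le_rpow (by positivity) hN6 (by positivity : 0 ≤ 1 / (α + 3))
      rw [← Real.rpow_mul (by norm_num)] at h2
      have h3 : (α + 3) * (1 / (α + 3)) = 1 := by field_simp
      rw [h3, Real.rpow_one] at h2
      exact h2
    rw [hρ, Real.rpow_neg hNpos.le, ← one_div]
    exact one_div_le_one_div_of_le (by norm_num) h1
  -- N ρ^3 = ρ^(-α)
  have hNρ : N * ρ ^ 3 = (ρ⁻¹) ^ α := by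
    have h1 : ρ ^ 3 = (N : ℝ) ^ (-(3 / (α + 3))) := by
      rw [hρ, ← Real.rpow_natCast, ← Real.rpow_mul hNpos.le]
      congr 1
      push_cast
      ring
    have h2 : (ρ⁻¹) ^ α = (N : ℝ) ^ (α / (α + 3)) := by
      rw [hρ, ← Real.rpow_neg hNpos.le, ← Real.rpow_mul hNpos.le]
      congr 1
      ring
    rw [h1, h2]
    nth_rewrite 1 [← Real.rpow_one (N : ℝ)]
    rw [← Real.rpow_add hNpos]
    congr 1
    field_simp
    ring
  have hNρ1 : 1 ≤ N * ρ ^ 3 := by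
    rw [hNρ]
    refine Real.one_le_rpow ?_ (by linarith)
    rw [← one_div, le_div_iff₀ hρ0]
    linarith
  set R : ℝ := Lam * ρ ^ (1 / (α - 1)) with hR
  have hR0 : 0 < R := by positivity
  have hRα : (R⁻¹) ^ α = R⁻¹ * (L * ρ)⁻¹ := by
    have h1 : R ^ (α - 1) = L * ρ := by
      rw [hR, Real.mul_rpow hLam0.le (by positivity), hLam, ← Real.rpow_mul hL0.le,
        ← Real.rpow_mul hρ0.le]
      have h3 : 1 / (α - 1) * (α - 1) = 1 := by field_simp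
      rw [h3, Real.rpow_one, Real.rpow_one]
    have h2 : (R⁻¹) ^ α = R⁻¹ * (R⁻¹) ^ (α - 1) := by
      nth_rewrite 2 [← Real.rpow_one R⁻¹]
      rw [← Real.rpow_add (by positivity)]
      congr 1
      ring
    rw [h2, Real.inv_rpow hR0.le, h1]
  set ℓ : ℝ := ρ * R with hℓ
  have hℓ0 : 0 < ℓ := by positivity
  set K : ℕ := ⌊1 / (3 * ρ)⌋₊ with hK
  have hKle : (K : ℝ) ≤ 1 / (3 * ρ) := Nat.floor_le (by positivity)
  have hKge : 1 / (6 * ρ) ≤ K := by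
    have h1 := Nat.lt_floor_add_one (1 / (3 * ρ))
    rw [← hK] at h1
    have h2 : (1 : ℝ) ≤ 1 / (6 * ρ) := by
      rw [le_div_iff₀ (by positivity)]
      linarith
    have h3 : 1 / (3 * ρ) = 2 * (1 / (6 * ρ)) := by
      field_simp
      norm_num
    linarith
  have hK1 : 1 ≤ K := by
    have h2 : (1 : ℝ) ≤ 1 / (6 * ρ) := by
      rw [le_div_iff₀ (by positivity)]
      linarith
    have h3 : (1 : ℝ) ≤ K := h2.trans hKge
    exact_mod_cast h3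
  have hKρ1 : K * ρ ≤ 1 / 3 := by
    calc K * ρ ≤ 1 / (3 * ρ) * ρ := mul_le_mul_of_nonneg_right hKle hρ0.le
      _ = 1 / 3 := by field_simp
  have hKρ2 : 1 / 6 ≤ K * ρ := by
    calc 1 / 6 = 1 / (6 * ρ) * ρ := by field_simp
      _ ≤ K * ρ := mul_le_mul_of_nonneg_right hKge hρ0.le
  have hgeo : Geo R ((Real.sqrt (R ^ 3 * Ichi))⁻¹) ℓ (centers ℓ K) := by
    refine geo_exists hR0 hℓ0 K ?_
    rw [hℓ]
    nlinarith
  set β : ℝ := (Real.sqrt (R ^ 3 * Ichi))⁻¹ with hβ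
  have hβ2 : β ^ 2 = (R ^ 3 * Ichi)⁻¹ := by
    rw [hβ, inv_pow, Real.sq_sqrt (by positivity)]
  have hβR : β ^ 2 * R ^ 3 = 1 / Ichi := by
    rw [hβ2]
    field_simp
  have hβℓ : β ^ 2 * ℓ ^ 3 = ρ ^ 3 / Ichi := by
    rw [hβ2, hℓ]
    field_simp
  set M : ℝ := (Fintype.card (Fin 3 → Fin K) : ℝ) with hM
  have hMK : M = (K : ℝ) ^ 3 := by
    rw [hM]
    simp
  have hMρ1 : M * ρ ^ 3 ≤ 1 / 27 := by
    rw [hMK, ← mul_pow]
    calc ((K : ℝ) * ρ) ^ 3 ≤ (1 / 3) ^ 3 := pow_le_pow_left₀ (by positivity) hKρ1 3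
      _ = 1 / 27 := by norm_num
  have hMρ2 : 1 / 216 ≤ M * ρ ^ 3 := by
    rw [hMK, ← mul_pow]
    calc (1 / 216 : ℝ) = (1 / 6) ^ 3 := by norm_num
      _ ≤ ((K : ℝ) * ρ) ^ 3 := pow_le_pow_left₀ (by norm_num) hKρ2 3
  have hM0 : 0 ≤ M := by rw [hMK]; positivity
  set θ : ℝ := Real.sqrt (c7 / (N * ρ ^ 3)) with hθ
  have hθ0 : 0 ≤ θ := Real.sqrt_nonneg _
  have hθ2 : θ ^ 2 = c7 / (N * ρ ^ 3) := Real.sq_sqrt (by positivity)
  have hθ1 : θ ≤ 1 / 4 := by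
    have h1 : c7 / (N * ρ ^ 3) ≤ 1 / 16 := by
      rw [div_le_iff₀ (by positivity)]
      nlinarith
    rw [← hθ2] at h1
    by_contra hcon
    push Not at hcon
    nlinarith
  have : Nonempty (Fin 3 → Fin K) := ⟨fun _ => ⟨0, by omega⟩⟩
  -- the final inequality
  refine energy_le hgeo hC1 hC2 hθ0 hθ1 (by linarith) hn hN2 ?_ ?_ ?_
  · rw [hβℓ, hθ2, ← hM]
    have h1 : M * (ρ ^ 3 / Ichi * (2 * (c7 / (N * ρ ^ 3)) * m1)) =
        (M * ρ ^ 3) * (2 * c7 * m1 / Ichi) * (1 / (N * ρ ^ 3)) := by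
      field_simp
    rw [h1]
    have h2 : 1 / (N * ρ ^ 3) ≤ 1 := by
      rw [div_le_iff₀ (by positivity)]
      linarith
    have h3 : 0 ≤ 2 * c7 * m1 / Ichi := by positivity
    calc (M * ρ ^ 3) * (2 * c7 * m1 / Ichi) * (1 / (N * ρ ^ 3))
        ≤ (1 / 27) * (3 / 8) * 1 := by
          gcongr
      _ ≤ 1 / 4 := by norm_num
  · rw [hβℓ, hθ2]
    have h1 : N * (ρ ^ 3 / Ichi * (2 * (c7 / (N * ρ ^ 3)) * m1)) = 2 * c7 * m1 / Ichi := by
      field_simp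
    rw [h1]
    exact hc7b
  · rw [hβR, hβℓ, ← hM, ← hE, ← he3]
    have hgam : N / (ρ * R) = Lam⁻¹ * (N : ℝ) ^ gam α := by
      have h1 : ρ * R = Lam * (N : ℝ) ^ (-(α / ((α - 1) * (α + 3)))) := by
        rw [hR]
        have h2 : ρ * (Lam * ρ ^ (1 / (α - 1))) = Lam * (ρ ^ (1 : ℝ) * ρ ^ (1 / (α - 1))) := by
          rw [Real.rpow_one]
          ring
        rw [h2, ← Real.rpow_add hρ0, hρ, ← Real.rpow_mul hNpos.le]
        congr 2
        field_simp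
        ring
      rw [h1, Real.rpow_neg hNpos.le]
      have h3 : (N : ℝ) ^ gam α = N * (N : ℝ) ^ (α / ((α - 1) * (α + 3))) := by
        nth_rewrite 2 [← Real.rpow_one (N : ℝ)]
        rw [← Real.rpow_add hNpos]
        congr 1
        unfold gam
        have h4 : α ^ 2 + 2 * α - 3 = (α - 1) * (α + 3) := by ring
        rw [h4]
        field_simp
        ring
      rw [h3]
      have h5 : 0 < (N : ℝ) ^ (α / ((α - 1) * (α + 3))) := Real.rpow_pos_of_pos hNpos _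
      field_simp
    have hℓα : (ℓ⁻¹) ^ α = (N * ρ ^ 3) * (R⁻¹) ^ α := by
      rw [hℓ, mul_inv, Real.mul_rpow (by positivity) (by positivity), hNρ]
    -- kinetic part
    have hkin : N * (8 / 3 * ((R⁻¹) ^ α * (1 / Ichi * E)) +
        16 / 3 * ((ℓ⁻¹) ^ α * (ρ ^ 3 / Ichi * (C * θ) ^ 2 * v1 * e3 * M))) ≤
        N / (ρ * R) * (cK / L) := by
      rw [hℓα, mul_pow, hθ2]
      have h1 : (N * ρ ^ 3) * (R⁻¹) ^ α * (ρ ^ 3 / Ichi * (C ^ 2 * (c7 / (N * ρ ^ 3))) * v1 *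
          e3 * M) = (R⁻¹) ^ α * ((M * ρ ^ 3) * (C ^ 2 * c7 * v1 * e3 / Ichi)) := by
        field_simp
      rw [h1]
      have h2 : (R⁻¹) ^ α * ((M * ρ ^ 3) * (C ^ 2 * c7 * v1 * e3 / Ichi)) ≤
          (R⁻¹) ^ α * ((1 / 27) * (C ^ 2 * c7 * v1 * e3 / Ichi)) := by
        gcongr
      have h3 : N * (8 / 3 * ((R⁻¹) ^ α * (1 / Ichi * E)) + 16 / 3 * ((R⁻¹) ^ α *
          ((1 / 27) * (C ^ 2 * c7 * v1 * e3 / Ichi)))) = N * ((R⁻¹) ^ α * cK) := by
        rw [hcK]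
        ring
      have h4 : N * ((R⁻¹) ^ α * cK) = N / (ρ * R) * (cK / L) := by
        rw [hRα]
        field_simp
      rw [← h4, ← h3]
      gcongr
    -- potential part
    have hpot : N / (ρ * R) * cP ≤ N * (N - 1) / 2 * ((2 * ℓ)⁻¹ * (M *
          ((ρ ^ 3 / Ichi * (θ * m1)) ^ 2 * (1 / 3)))) := by
      have h1 : N * (N - 1) / 2 * ((2 * ℓ)⁻¹ * (M * ((ρ ^ 3 / Ichi * (θ * m1)) ^ 2 * (1 / 3)))) =
          (N - 1) / (12 * (ρ * R)) * ((M * ρ ^ 3) * (c7 * m1 ^ 2 / Ichi ^ 2)) := by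
        rw [hℓ, mul_pow, mul_pow, hθ2]
        field_simp
        ring
      rw [h1]
      have hN2' : (2 : ℝ) ≤ N := by exact_mod_cast hN2
      have h2 : N / (24 * (ρ * R)) ≤ (N - 1) / (12 * (ρ * R)) := by
        rw [div_le_div_iff₀ (by positivity) (by positivity)]
        have : 0 < ρ * R := by positivity
        nlinarith
      have h3 : (1 / 216) * (c7 * m1 ^ 2 / Ichi ^ 2) ≤ (M * ρ ^ 3) * (c7 * m1 ^ 2 / Ichi ^ 2) := by
        gcongr
      calc N / (ρ * R) * cP = N / (24 * (ρ * R)) * ((1 / 216) * (c7 * m1 ^ 2 / Ichi ^ 2)) := by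
            rw [hcP]
            field_simp
            ring
        _ ≤ _ := mul_le_mul h2 h3 (by positivity) (by
            apply div_nonneg _ (by positivity)
            linarith)
    have hfin : N / (ρ * R) * (cK / L) - N / (ρ * R) * cP ≤ -(cP / 2 / Lam * (N : ℝ) ^ gam α) := by
      have h1 : cP / 2 / Lam * (N : ℝ) ^ gam α = N / (ρ * R) * (cP / 2) := by
        rw [hgam]
        field_simp
      rw [h1]
      have h2 : 0 < N / (ρ * R) := by positivity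
      nlinarith
    linarith

end

end Pool.Agent.H.MP_d1ae63_mp
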