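import Mathlib

set_option autoImplicit false

open scoped Real

namespace Pool.Agent.H.MP_d1ae63_mp.Up

noncomputable section

/-- sign of a boolean charge -/
def sgn (b : Bool) : ℝ := if b then 1 else -1

/-- weights of `cos² t = 1/2 + 1/4 e^{2it} + 1/4 e^{-2it}` -/
def wt (σ : SignType) : ℝ := if σ = 0 then 1 / 2 else 1 / 4

theorem sum_signType {β : Type*} [AddCommMonoid β] (F : SignType → β) :
    ∑ σ : SignType, F σ = F 0 + F (-1) + F 1 := by
  have : (Finset.univ : Finset SignType) = {0, -1, 1} := by decide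
  rw [this, Finset.sum_insert (by decide), Finset.sum_insert (by decide), Finset.sum_singleton,
    add_assoc]

theorem cos_sq_expand (t : ℝ) :
    ((Real.cos t ^ 2 : ℝ) : ℂ) =
      ∑ σ : SignType, (wt σ : ℂ) * Complex.exp (Complex.I * (2 * (σ : ℝ) * t : ℝ)) := by
  rw [sum_signType]
  have h1 : Real.cos t ^ 2 = 1 / 2 + Real.cos (2 * t) / 2 := Real.cos_sq t
  have h2 : ((Real.cos (2 * t) : ℝ) : ℂ) = (Complex.exp (Complex.I * (2 * t : ℝ)) +
      Complex.exp (Complex.I * (-(2 * t) : ℝ))) / 2 := by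
    rw [Complex.ofReal_cos, Complex.cos]
    push_cast
    congr 2
    · ring_nf
    · ring_nf
  rw [h1]
  push_cast
  rw [← Complex.ofReal_ofNat, ← Complex.ofReal_mul, ← Complex.ofReal_cos, h2]
  have n1 : (-1 : SignType) ≠ 0 := by decide
  have n2 : (1 : SignType) ≠ 0 := by decide
  simp only [wt, if_true, n1, n2, if_false]
  simp
  ring_nf

variable {N : ℕ} {κ : Type*} [Fintype κ] [DecidableEq κ]

/-- product weights; cells outside `A` are switched off -/
def WA (A : Finset κ) (s : κ → SignType) : ℝ :=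
  ∏ a, if a ∈ A then wt (s a) else if s a = 0 then 1 else 0

theorem expand (A : Finset κ) (θ : ℝ) (q : κ → ℝ) :
    ((∏ a ∈ A, Real.cos (θ * q a) ^ 2 : ℝ) : ℂ) =
      ∑ s : κ → SignType, (WA A s : ℂ) *
        Complex.exp (Complex.I * (2 * θ * ∑ a, (s a : ℝ) * q a : ℝ)) := by
  have h1 : (∏ a ∈ A, Real.cos (θ * q a) ^ 2 : ℝ) =
      ∏ a, if a ∈ A then Real.cos (θ * q a) ^ 2 else 1 := by
    rw [Finset.prod_ite_mem, Finset.univ_inter]
  rw [h1, Complex.ofReal_prod]
  have h2 : ∀ a : κ, ((if a ∈ A then Real.cos (θ * q a) ^ 2 else 1 : ℝ) : ℂ) =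
      ∑ σ : SignType, (((if a ∈ A then wt σ else if σ = 0 then 1 else 0 : ℝ)) : ℂ) *
        Complex.exp (Complex.I * (2 * θ * ((σ : ℝ) * q a) : ℝ)) := by
    intro a
    by_cases ha : a ∈ A
    · simp only [ha, if_true]
      rw [cos_sq_expand]
      refine Finset.sum_congr rfl fun σ _ => ?_
      congr 3
      congr 1
      ring
    · simp only [ha, if_false]
      rw [sum_signType]
      have n1 : (-1 : SignType) ≠ 0 := by decide
      have n2 : (1 : SignType) ≠ 0 := by decide
      simp [n1, n2]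
  rw [Finset.prod_congr rfl (fun a _ => h2 a), Finset.prod_univ_sum, Fintype.piFinset_univ]
  refine Finset.sum_congr rfl fun s _ => ?_
  rw [Finset.prod_mul_distrib, ← Complex.exp_sum]
  congr 1
  · unfold WA
    rw [Complex.ofReal_prod]
  · congr 1
    rw [Finset.mul_sum, ← Finset.mul_sum, ← Complex.ofReal_sum]

theorem charge_avg (u : Fin N → ℝ) (F : Fin N → Bool → ℂ) :
    ∑ e : Fin N → Bool, (∏ l, F l (e l)) *
      Complex.exp (Complex.I * (∑ l, sgn (e l) * u l : ℝ)) =
    ∏ l, (F l true * Complex.exp (Complex.I * (u l : ℝ)) +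
      F l false * Complex.exp (-(Complex.I * (u l : ℝ)))) := by
  have h2 : ∀ l : Fin N, (F l true * Complex.exp (Complex.I * (u l : ℝ)) +
      F l false * Complex.exp (-(Complex.I * (u l : ℝ)))) =
      ∑ b : Bool, F l b * Complex.exp (Complex.I * (sgn b * u l : ℝ)) := by
    intro l
    rw [Fintype.sum_bool]
    simp [sgn]
  rw [Finset.prod_congr rfl (fun l _ => h2 l), Finset.prod_univ_sum, Fintype.piFinset_univ]
  refine Finset.sum_congr rfl fun e _ => ?_
  rw [Finset.prod_mul_distrib, ← Complex.exp_sum]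
  congr 2
  rw [Complex.ofReal_sum, Finset.mul_sum]

theorem charge_avg_one (u : Fin N → ℝ) :
    ∑ e : Fin N → Bool, Complex.exp (Complex.I * (∑ l, sgn (e l) * u l : ℝ)) =
      ((2 ^ N * ∏ l, Real.cos (u l) : ℝ) : ℂ) := by
  have h := charge_avg u (fun _ _ => 1)
  simp only [Finset.prod_const_one, one_mul] at h
  rw [h]
  have : ∀ l : Fin N, (Complex.exp (Complex.I * (u l : ℝ)) + Complex.exp (-(Complex.I * (u l : ℝ))))
      = 2 * ((Real.cos (u l) : ℝ) : ℂ) := by
    intro l
    rw [Complex.ofReal_cos, Complex.cos]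
    ring_nf
  rw [Finset.prod_congr rfl (fun l _ => this l), Finset.prod_mul_distrib]
  simp

theorem charge_avg_two (u : Fin N → ℝ) {i j : Fin N} (hij : i ≠ j) :
    ∑ e : Fin N → Bool, ((sgn (e i) * sgn (e j) : ℝ) : ℂ) *
      Complex.exp (Complex.I * (∑ l, sgn (e l) * u l : ℝ)) =
      ((-(2 ^ N * (Real.sin (u i) * Real.sin (u j) *
        ∏ l ∈ (Finset.univ.erase i).erase j, Real.cos (u l))) : ℝ) : ℂ) := by
  have h := charge_avg u (fun l b => if l = i ∨ l = j then (sgn b : ℂ) else 1)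
  have h1 : ∀ e : Fin N → Bool, (∏ l, (if l = i ∨ l = j then (sgn (e l) : ℂ) else 1)) =
      ((sgn (e i) * sgn (e j) : ℝ) : ℂ) := by
    intro e
    rw [← Finset.mul_prod_erase Finset.univ _ (Finset.mem_univ i),
      ← Finset.mul_prod_erase (Finset.univ.erase i) _
        (Finset.mem_erase.mpr ⟨hij.symm, Finset.mem_univ j⟩)]
    rw [Finset.prod_eq_one]
    · simp
    · intro l hl
      simp only [Finset.mem_erase, Finset.mem_univ, and_true] at hl
      simp [hl.1, hl.2]
  simp only [h1] at h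
  rw [h]
  rw [← Finset.mul_prod_erase Finset.univ _ (Finset.mem_univ i),
      ← Finset.mul_prod_erase (Finset.univ.erase i) _
        (Finset.mem_erase.mpr ⟨hij.symm, Finset.mem_univ j⟩)]
  have h3 : ∀ l ∈ (Finset.univ.erase i).erase j,
      ((if l = i ∨ l = j then (sgn true : ℂ) else 1) * Complex.exp (Complex.I * (u l : ℝ)) +
      (if l = i ∨ l = j then (sgn false : ℂ) else 1) * Complex.exp (-(Complex.I * (u l : ℝ))))
      = 2 * ((Real.cos (u l) : ℝ) : ℂ) := by
    intro l hl
    simp only [Finset.mem_erase, Finset.mem_univ, and_true] at hl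
    rw [if_neg (by tauto), if_neg (by tauto), Complex.ofReal_cos, Complex.cos]
    ring_nf
  have h4 : ∀ l, l = i ∨ l = j →
      ((if l = i ∨ l = j then (sgn true : ℂ) else 1) * Complex.exp (Complex.I * (u l : ℝ)) +
      (if l = i ∨ l = j then (sgn false : ℂ) else 1) * Complex.exp (-(Complex.I * (u l : ℝ))))
      = 2 * Complex.I * ((Real.sin (u l) : ℝ) : ℂ) := by
    intro l hl
    rw [if_pos hl, if_pos hl, Complex.ofReal_sin, Complex.sin]
    simp only [sgn]
    have hI : Complex.I ^ 2 = -1 := Complex.I_sq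
    simp only [if_true, Bool.false_eq_true, if_false]
    push_cast
    ring_nf
    rw [hI]
    ring
  rw [Finset.prod_congr rfl h3, h4 i (Or.inl rfl), h4 j (Or.inr rfl), Finset.prod_mul_distrib,
    Finset.prod_const]
  have hcard : ((Finset.univ.erase i).erase j : Finset (Fin N)).card + 2 = N := by
    rw [Finset.card_erase_of_mem (Finset.mem_erase.mpr ⟨hij.symm, Finset.mem_univ j⟩),
      Finset.card_erase_of_mem (Finset.mem_univ i), Finset.card_univ, Fintype.card_fin]
    have : (i : ℕ) ≠ j := fun h => hij (Fin.ext h)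
    have := i.2
    have := j.2
    omega
  set c := ((Finset.univ.erase i).erase j : Finset (Fin N)).card with hc
  have hpow : (2 : ℂ) ^ N = 2 ^ c * 4 := by
    have : ∀ m : ℕ, c + 2 = m → (2 : ℂ) ^ m = 2 ^ c * 4 := by
      intro m hm
      rw [← hm, pow_add]
      norm_num
    exact this N hcard
  push_cast
  rw [hpow]
  have hI : Complex.I ^ 2 = -1 := Complex.I_sq
  linear_combination (2 ^ c * 4 * Complex.sin (u i) * Complex.sin (u j) *
    ∏ l ∈ (Finset.univ.erase i).erase j, Complex.cos (u l)) * hI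

/-- the phase seen by particle `l` -/
def UU (θ : ℝ) (B : Fin N → κ → ℝ) (s : κ → SignType) (l : Fin N) : ℝ :=
  2 * θ * ∑ a, (s a : ℝ) * B l a

omit [DecidableEq κ] in
theorem phase_eq (θ : ℝ) (B : Fin N → κ → ℝ) (s : κ → SignType) (e : Fin N → Bool) :
    2 * θ * ∑ a, (s a : ℝ) * ∑ l, sgn (e l) * B l a = ∑ l, sgn (e l) * UU θ B s l := by
  unfold UU
  simp_rw [Finset.mul_sum]
  rw [Finset.sum_comm]
  refine Finset.sum_congr rfl fun l _ => Finset.sum_congr rfl fun a _ => ?_
  ring

theorem avg_one (A : Finset κ) (θ : ℝ) (B : Fin N → κ → ℝ) :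
    ∑ e : Fin N → Bool, ∏ a ∈ A, Real.cos (θ * ∑ l, sgn (e l) * B l a) ^ 2 =
      2 ^ N * ∑ s : κ → SignType, WA A s * ∏ l, Real.cos (UU θ B s l) := by
  apply Complex.ofReal_injective
  rw [Complex.ofReal_sum, Finset.sum_congr rfl (fun e _ => expand A θ _), Finset.sum_comm]
  simp_rw [phase_eq, ← Finset.mul_sum, charge_avg_one]
  push_cast
  rw [Finset.mul_sum]
  refine Finset.sum_congr rfl fun s _ => ?_
  ring

theorem avg_two (A : Finset κ) (θ : ℝ) (B : Fin N → κ → ℝ) {i j : Fin N} (hij : i ≠ j) :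
    ∑ e : Fin N → Bool, sgn (e i) * sgn (e j) *
        ∏ a ∈ A, Real.cos (θ * ∑ l, sgn (e l) * B l a) ^ 2 =
      -(2 ^ N * ∑ s : κ → SignType, WA A s * (Real.sin (UU θ B s i) * Real.sin (UU θ B s j) *
        ∏ l ∈ (Finset.univ.erase i).erase j, Real.cos (UU θ B s l))) := by
  apply Complex.ofReal_injective
  rw [Complex.ofReal_sum]
  have h1 : ∀ e : Fin N → Bool, ((sgn (e i) * sgn (e j) *
      ∏ a ∈ A, Real.cos (θ * ∑ l, sgn (e l) * B l a) ^ 2 : ℝ) : ℂ) =
      ∑ s : κ → SignType, (WA A s : ℂ) * (((sgn (e i) * sgn (e j) : ℝ) : ℂ) *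
        Complex.exp (Complex.I * (∑ l, sgn (e l) * UU θ B s l : ℝ))) := by
    intro e
    rw [Complex.ofReal_mul, expand A θ, Finset.mul_sum]
    refine Finset.sum_congr rfl fun s _ => ?_
    rw [phase_eq]
    ring
  rw [Finset.sum_congr rfl (fun e _ => h1 e), Finset.sum_comm]
  simp_rw [← Finset.mul_sum, charge_avg_two _ hij]
  push_cast
  rw [Finset.mul_sum, ← Finset.sum_neg_distrib]
  refine Finset.sum_congr rfl fun s _ => ?_
  ring

/-- cells are disjoint -/
def Disj (B : Fin N → κ → ℝ) : Prop := ∀ l a b, a ≠ b → B l a = 0 ∨ B l b = 0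

omit [DecidableEq κ] in
theorem cos_UU {θ : ℝ} {B : Fin N → κ → ℝ} (hB : Disj B) (s : κ → SignType) (l : Fin N) :
    Real.cos (UU θ B s l) = 1 - ∑ a, (s a : ℝ) ^ 2 * (1 - Real.cos (2 * θ * B l a)) := by
  by_cases h : ∃ a, B l a ≠ 0
  · obtain ⟨a, ha⟩ := h
    have hz : ∀ b, b ≠ a → B l b = 0 := fun b hb => (hB l b a hb).resolve_right ha
    unfold UU
    rw [Finset.sum_eq_single a (fun b _ hb => by rw [hz b hb]; simp) (by simp),
      Finset.sum_eq_single a (fun b _ hb => by rw [hz b hb]; simp) (by simp)]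
    rcases hs : s a with _ | _ | _
    · simp
    · have : ((SignType.neg : SignType) : ℝ) = -1 := by
        exact SignType.coe_neg_one
      rw [this]
      have : 2 * θ * (-1 * B l a) = -(2 * θ * B l a) := by ring
      rw [this, Real.cos_neg]
      ring
    · have : ((SignType.pos : SignType) : ℝ) = 1 := by
        exact SignType.coe_one
      rw [this]
      ring_nf
  · push Not at h
    unfold UU
    simp [h]

omit [DecidableEq κ] in
theorem sin_UU {θ : ℝ} {B : Fin N → κ → ℝ} (hB : Disj B) (s : κ → SignType) (l : Fin N) :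
    Real.sin (UU θ B s l) = ∑ a, (s a : ℝ) * Real.sin (2 * θ * B l a) := by
  by_cases h : ∃ a, B l a ≠ 0
  · obtain ⟨a, ha⟩ := h
    have hz : ∀ b, b ≠ a → B l b = 0 := fun b hb => (hB l b a hb).resolve_right ha
    unfold UU
    rw [Finset.sum_eq_single a (fun b _ hb => by rw [hz b hb]; simp) (by simp),
      Finset.sum_eq_single a (fun b _ hb => by rw [hz b hb]; simp) (by simp)]
    rcases hs : s a with _ | _ | _
    · simp
    · have : ((SignType.neg : SignType) : ℝ) = -1 := by
        exact SignType.coe_neg_one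
      rw [this]
      have : 2 * θ * (-1 * B l a) = -(2 * θ * B l a) := by ring
      rw [this, Real.sin_neg]
      ring
    · have : ((SignType.pos : SignType) : ℝ) = 1 := by
        exact SignType.coe_one
      rw [this]
      ring_nf
  · push Not at h
    unfold UU
    simp [h]

/-- flip the sign of the `a`-th entry -/
def flip (a : κ) (s : κ → SignType) : κ → SignType := Function.update s a (-(s a))

omit [Fintype κ] in
theorem flip_flip (a : κ) (s : κ → SignType) : flip a (flip a s) = s := by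
  unfold flip
  ext b
  by_cases hb : b = a
  · subst hb
    simp
  · simp [hb]

theorem neg_cast (σ : SignType) : ((-σ : SignType) : ℝ) = -(σ : ℝ) := by
  rcases σ with _ | _ | _
  · show ((-0 : SignType) : ℝ) = -((0 : SignType) : ℝ)
    simp
  · show ((1 : SignType) : ℝ) = -((-1 : SignType) : ℝ)
    simp
  · show ((-1 : SignType) : ℝ) = -((1 : SignType) : ℝ)
    simp

theorem flip_zero (F : (κ → SignType) → ℝ) (a b : κ) (hab : b ≠ a)
    (hF : ∀ s, F (flip a s) = F s) :
    ∑ s : κ → SignType, (s a : ℝ) * (s b : ℝ) * F s = 0 := by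
  have hinv : Function.Involutive (flip a : (κ → SignType) → _) := flip_flip a
  have h1 := Equiv.sum_comp (Function.Involutive.toPerm _ hinv)
    (fun s : κ → SignType => (s a : ℝ) * (s b : ℝ) * F s)
  have h2 : ∀ s : κ → SignType, (fun s : κ → SignType => (s a : ℝ) * (s b : ℝ) * F s)
      (Function.Involutive.toPerm _ hinv s) = -((s a : ℝ) * (s b : ℝ) * F s) := by
    intro s
    show ((flip a s) a : ℝ) * ((flip a s) b : ℝ) * F (flip a s) = _
    rw [hF]
    have e1 : flip a s a = -(s a) := by simp [flip]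
    have e2 : flip a s b = s b := by simp [flip, hab]
    rw [e1, e2, neg_cast]
    ring
  rw [Finset.sum_congr rfl (fun s _ => h2 s), Finset.sum_neg_distrib] at h1
  linarith

theorem WA_flip (A : Finset κ) (a : κ) (s : κ → SignType) : WA A (flip a s) = WA A s := by
  unfold WA
  refine Finset.prod_congr rfl fun b _ => ?_
  by_cases hb : b = a
  · subst hb
    have e1 : flip b s b = -(s b) := by simp [flip]
    rw [e1]
    have : (-(s b) = 0) ↔ (s b = 0) := by
      generalize s b = σ
      revert σ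
      decide
    simp only [wt, this]
  · have e2 : flip a s b = s b := by simp [flip, hb]
    rw [e2]

theorem cos_UU_flip {θ : ℝ} {B : Fin N → κ → ℝ} (hB : Disj B) (a : κ) (s : κ → SignType)
    (l : Fin N) : Real.cos (UU θ B (flip a s) l) = Real.cos (UU θ B s l) := by
  rw [cos_UU hB, cos_UU hB]
  congr 1
  refine Finset.sum_congr rfl fun b _ => ?_
  by_cases hb : b = a
  · subst hb
    have e1 : flip b s b = -(s b) := by simp [flip]
    rw [e1, neg_cast]
    ring
  · have e2 : flip a s b = s b := by simp [flip, hb]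
    rw [e2]

theorem avg_two_disj {θ : ℝ} {B : Fin N → κ → ℝ} (hB : Disj B) {i j : Fin N} (hij : i ≠ j) :
    ∑ e : Fin N → Bool, sgn (e i) * sgn (e j) *
        ∏ a, Real.cos (θ * ∑ l, sgn (e l) * B l a) ^ 2 =
      -(2 ^ N * ∑ a, Real.sin (2 * θ * B i a) * Real.sin (2 * θ * B j a) *
        ∑ s : κ → SignType, (s a : ℝ) ^ 2 * (WA Finset.univ s *
          ∏ l ∈ (Finset.univ.erase i).erase j, Real.cos (UU θ B s l))) := by
  rw [avg_two Finset.univ θ B hij]
  congr 2
  have h1 : ∀ s : κ → SignType, WA Finset.univ s * (Real.sin (UU θ B s i) * Real.sin (UU θ B s j) *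
        ∏ l ∈ (Finset.univ.erase i).erase j, Real.cos (UU θ B s l)) =
      ∑ a, ∑ b, Real.sin (2 * θ * B i a) * Real.sin (2 * θ * B j b) * ((s a : ℝ) * (s b : ℝ) *
        (WA Finset.univ s * ∏ l ∈ (Finset.univ.erase i).erase j, Real.cos (UU θ B s l))) := by
    intro s
    rw [sin_UU hB, sin_UU hB, Finset.sum_mul_sum]
    simp_rw [Finset.sum_mul, Finset.mul_sum]
    refine Finset.sum_congr rfl fun a _ => Finset.sum_congr rfl fun b _ => ?_
    ring
  rw [Finset.sum_congr rfl (fun s _ => h1 s), Finset.sum_comm]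
  refine Finset.sum_congr rfl fun a _ => ?_
  rw [Finset.sum_comm]
  simp_rw [← Finset.mul_sum]
  rw [Finset.sum_eq_single a]
  · congr 1
    refine Finset.sum_congr rfl fun s _ => ?_
    ring
  · intro b _ hb
    rw [flip_zero _ a b hb, mul_zero]
    intro s
    rw [WA_flip]
    congr 1
    exact Finset.prod_congr rfl fun l _ => cos_UU_flip hB a s l
  · simp

/-! ### the sums over `s` -/

theorem cast_sq_le_one (σ : SignType) : (σ : ℝ) ^ 2 ≤ 1 := by
  rcases σ with _ | _ | _
  · show ((0 : SignType) : ℝ) ^ 2 ≤ 1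
    simp
  · show ((-1 : SignType) : ℝ) ^ 2 ≤ 1
    simp
  · show ((1 : SignType) : ℝ) ^ 2 ≤ 1
    simp

theorem cast_sq_of_ne {σ : SignType} (h : σ ≠ 0) : (σ : ℝ) ^ 2 = 1 := by
  rcases σ with _ | _ | _
  · exact absurd rfl h
  · show ((-1 : SignType) : ℝ) ^ 2 = 1
    simp
  · show ((1 : SignType) : ℝ) ^ 2 = 1
    simp

/-- one-particle overlap -/
def zz (τ : κ → ℝ) (s : κ → SignType) : ℝ := 1 - ∑ a, (s a : ℝ) ^ 2 * τ a

omit [DecidableEq κ] in
theorem zz_bounds {τ : κ → ℝ} {t : ℝ} (h0 : ∀ a, 0 ≤ τ a) (h1 : ∀ a, τ a ≤ t)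
    (h2 : Fintype.card κ * t ≤ 1 / 4) (s : κ → SignType) : 3 / 4 ≤ zz τ s ∧ zz τ s ≤ 1 := by
  unfold zz
  have h3 : 0 ≤ ∑ a, (s a : ℝ) ^ 2 * τ a :=
    Finset.sum_nonneg fun a _ => mul_nonneg (sq_nonneg _) (h0 a)
  have h4 : ∑ a, (s a : ℝ) ^ 2 * τ a ≤ ∑ _a : κ, t := by
    refine Finset.sum_le_sum fun a _ => ?_
    have := cast_sq_le_one (s a)
    nlinarith [h0 a, h1 a]
  rw [Finset.sum_const, Finset.card_univ, nsmul_eq_mul] at h4
  constructor <;> linarith

theorem WA_nonneg (A : Finset κ) (s : κ → SignType) : 0 ≤ WA A s := by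
  unfold WA wt
  refine Finset.prod_nonneg fun a _ => ?_
  split_ifs <;> norm_num

theorem WA_erase_le (a : κ) (s : κ → SignType) :
    WA (Finset.univ.erase a) s ≤ 2 * WA Finset.univ s := by
  unfold WA
  rw [← Finset.mul_prod_erase Finset.univ _ (Finset.mem_univ a),
    ← Finset.mul_prod_erase Finset.univ _ (Finset.mem_univ a)]
  have h1 : ∏ x ∈ Finset.univ.erase a, (if x ∈ (Finset.univ.erase a : Finset κ) then wt (s x)
      else if s x = 0 then (1 : ℝ) else 0) = ∏ x ∈ Finset.univ.erase a, wt (s x) :=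
    Finset.prod_congr rfl fun x hx => by rw [if_pos hx]
  have h2 : ∏ x ∈ Finset.univ.erase a, (if x ∈ (Finset.univ : Finset κ) then wt (s x)
      else if s x = 0 then (1 : ℝ) else 0) = ∏ x ∈ Finset.univ.erase a, wt (s x) :=
    Finset.prod_congr rfl fun x hx => by rw [if_pos (Finset.mem_univ x)]
  have h3 : 0 ≤ ∏ x ∈ Finset.univ.erase a, wt (s x) :=
    Finset.prod_nonneg fun x _ => by unfold wt; split_ifs <;> norm_num
  rw [h1, h2, if_neg (by simp), if_pos (Finset.mem_univ a), ← mul_assoc]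
  refine mul_le_mul_of_nonneg_right ?_ h3
  by_cases h : s a = 0
  · rw [if_pos h, h]
    unfold wt
    norm_num
  · rw [if_neg h]
    unfold wt
    split_ifs <;> norm_num

/-- exchange `0` and `σ` in the entry `a` -/
def exch (a : κ) (σ : SignType) (s : κ → SignType) : κ → SignType :=
  Function.update s a (Equiv.swap 0 σ (s a))

omit [Fintype κ] in
theorem exch_exch (a : κ) (σ : SignType) (s : κ → SignType) : exch a σ (exch a σ s) = s := by
  unfold exch
  ext b
  by_cases hb : b = a
  · subst hb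
    simp
  · simp [hb]

theorem pow_ratio {z t : ℝ} (N : ℕ) (hz : 3 / 4 ≤ z) (ht : 0 ≤ t) (hN : N * t ≤ 3 / 8) :
    (z + t) ^ N ≤ 2 * z ^ N := by
  have h1 : z + t = z * (1 + t / z) := by
    field_simp
  have h2 : 1 + t / z ≤ Real.exp (t / z) := by
    have := Real.add_one_le_exp (t / z)
    linarith
  have h3 : (1 + t / z) ^ N ≤ Real.exp (1 / 2) := by
    calc (1 + t / z) ^ N ≤ (Real.exp (t / z)) ^ N := by
          apply pow_le_pow_left₀ (by positivity) h2
      _ = Real.exp (N * (t / z)) := by rw [← Real.exp_nat_mul]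
      _ ≤ Real.exp (1 / 2) := by
          apply Real.exp_le_exp.mpr
          rw [← mul_div_assoc, div_le_iff₀ (by linarith)]
          linarith
  have h4 : Real.exp (1 / 2) ≤ 2 := by
    have h5 : Real.exp (1 / 2) * Real.exp (1 / 2) = Real.exp 1 := by
      rw [← Real.exp_add]
      norm_num
    have h6 := Real.exp_one_lt_d9
    nlinarith [Real.exp_pos (1 / 2)]
  rw [h1, mul_pow, mul_comm]
  exact mul_le_mul_of_nonneg_right (h3.trans h4) (by positivity)

theorem WA_exch (a : κ) {σ : SignType} (hσ : σ ≠ 0) {s : κ → SignType} (hs : s a = σ) :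
    WA Finset.univ (exch a σ s) = 2 * WA Finset.univ s := by
  unfold WA
  rw [← Finset.mul_prod_erase Finset.univ _ (Finset.mem_univ a),
    ← Finset.mul_prod_erase Finset.univ _ (Finset.mem_univ a)]
  have h1 : ∏ x ∈ Finset.univ.erase a, (if x ∈ (Finset.univ : Finset κ) then wt (exch a σ s x)
      else if exch a σ s x = 0 then (1 : ℝ) else 0) =
      ∏ x ∈ Finset.univ.erase a, (if x ∈ (Finset.univ : Finset κ) then wt (s x)
      else if s x = 0 then (1 : ℝ) else 0) := by
    refine Finset.prod_congr rfl fun x hx => ?_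
    have : exch a σ s x = s x := by
      unfold exch
      rw [Function.update_of_ne (Finset.ne_of_mem_erase hx)]
    rw [this]
  rw [h1]
  have h2 : exch a σ s a = 0 := by
    unfold exch
    rw [Function.update_self, hs, Equiv.swap_apply_right]
  rw [h2, hs, ← mul_assoc, if_pos (Finset.mem_univ a), if_pos (Finset.mem_univ a)]
  congr 1
  unfold wt
  rw [if_pos rfl, if_neg hσ]
  norm_num

theorem zz_exch (τ : κ → ℝ) (a : κ) {σ : SignType} (hσ : σ ≠ 0) {s : κ → SignType}
    (hs : s a = σ) : zz τ (exch a σ s) = zz τ s + τ a := by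
  unfold zz
  rw [← Finset.add_sum_erase Finset.univ _ (Finset.mem_univ a),
    ← Finset.add_sum_erase Finset.univ (fun b => (s b : ℝ) ^ 2 * τ b) (Finset.mem_univ a)]
  have h1 : ∑ x ∈ Finset.univ.erase a, ((exch a σ s x : SignType) : ℝ) ^ 2 * τ x =
      ∑ x ∈ Finset.univ.erase a, (s x : ℝ) ^ 2 * τ x := by
    refine Finset.sum_congr rfl fun x hx => ?_
    have : exch a σ s x = s x := by
      unfold exch
      rw [Function.update_of_ne (Finset.ne_of_mem_erase hx)]
    rw [this]
  have h2 : exch a σ s a = 0 := by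
    unfold exch
    rw [Function.update_self, hs, Equiv.swap_apply_right]
  have h3 : ((0 : SignType) : ℝ) = 0 := SignType.coe_zero
  rw [h1, h2, hs, cast_sq_of_ne hσ, h3]
  ring

theorem sum_exch_le {τ : κ → ℝ} {t : ℝ} (h0 : ∀ a, 0 ≤ τ a) (h1 : ∀ a, τ a ≤ t)
    (h2 : Fintype.card κ * t ≤ 1 / 4) (N : ℕ) (hN : N * t ≤ 3 / 8) (a : κ) {σ : SignType}
    (hσ : σ ≠ 0) :
    ∑ s : κ → SignType, (if s a = 0 then WA Finset.univ s * zz τ s ^ N else 0) ≤
      4 * ∑ s : κ → SignType, (if s a = σ then WA Finset.univ s * zz τ s ^ N else 0) := by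
  have hinv : Function.Involutive (exch a σ : (κ → SignType) → _) := exch_exch a σ
  have e1 := Equiv.sum_comp (Function.Involutive.toPerm _ hinv)
    (fun s : κ → SignType => if s a = 0 then WA Finset.univ s * zz τ s ^ N else 0)
  rw [← e1, Finset.mul_sum]
  refine Finset.sum_le_sum fun s _ => ?_
  show (if exch a σ s a = 0 then WA Finset.univ (exch a σ s) * zz τ (exch a σ s) ^ N else 0) ≤ _
  by_cases hs : s a = σ
  · rw [if_pos hs, WA_exch a hσ hs, zz_exch τ a hσ hs, if_pos]
    · have hz := (zz_bounds h0 h1 h2 s).1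
      have ha : (N : ℝ) * τ a ≤ 3 / 8 := by
        refine le_trans ?_ hN
        exact mul_le_mul_of_nonneg_left (h1 a) (Nat.cast_nonneg _)
      have := pow_ratio N hz (h0 a) ha
      have hW := WA_nonneg Finset.univ s
      nlinarith
    · unfold exch
      rw [Function.update_self, hs, Equiv.swap_apply_right]
  · rw [if_neg hs, if_neg]
    · simp
    · intro h
      apply hs
      unfold exch at h
      rw [Function.update_self] at h
      exact (Equiv.swap 0 σ).injective (h.trans (Equiv.swap_apply_right 0 σ).symm)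

/-- `S(n) = ∑ W z^n` -/
def SS (τ : κ → ℝ) (n : ℕ) : ℝ := ∑ s : κ → SignType, WA Finset.univ s * zz τ s ^ n

/-- the part of `S` with cell `a` switched off, with renormalised weight -/
def SA (τ : κ → ℝ) (a : κ) (n : ℕ) : ℝ :=
  ∑ s : κ → SignType, WA (Finset.univ.erase a) s * zz τ s ^ n

/-- `T_a(n) = ∑ s_a² W z^n` -/
def TT (τ : κ → ℝ) (a : κ) (n : ℕ) : ℝ :=
  ∑ s : κ → SignType, (s a : ℝ) ^ 2 * (WA Finset.univ s * zz τ s ^ n)

section bounds

variable {τ : κ → ℝ} {t : ℝ} (h0 : ∀ a, 0 ≤ τ a) (h1 : ∀ a, τ a ≤ t)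
    (h2 : Fintype.card κ * t ≤ 1 / 4)

include h0 h1 h2

theorem SS_le (n : ℕ) : SS τ n ≤ 4 / 3 * SS τ (n + 1) := by
  unfold SS
  rw [Finset.mul_sum]
  refine Finset.sum_le_sum fun s _ => ?_
  have hz := (zz_bounds h0 h1 h2 s).1
  have hW := WA_nonneg Finset.univ s
  have : 0 ≤ WA Finset.univ s * zz τ s ^ n := mul_nonneg hW (by positivity)
  rw [pow_succ]
  nlinarith

theorem SA_le (a : κ) (n : ℕ) : SA τ a n ≤ 2 * SS τ n := by
  unfold SA SS
  rw [Finset.mul_sum]
  refine Finset.sum_le_sum fun s _ => ?_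
  have hz := (zz_bounds h0 h1 h2 s).1
  have : 0 ≤ zz τ s ^ n := by positivity
  have := mul_le_mul_of_nonneg_right (WA_erase_le a s) this
  linarith

theorem TT_ge (a : κ) (n : ℕ) : TT τ a (n + 2) ≤ TT τ a n := by
  unfold TT
  refine Finset.sum_le_sum fun s _ => ?_
  have hz := (zz_bounds h0 h1 h2 s)
  have hW := WA_nonneg Finset.univ s
  have h3 : zz τ s ^ (n + 2) ≤ zz τ s ^ n :=
    pow_le_pow_of_le_one (by linarith) hz.2 (by omega)
  have h4 := mul_le_mul_of_nonneg_left h3 hW
  exact mul_le_mul_of_nonneg_left h4 (sq_nonneg _)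

theorem SS_le_TT (N : ℕ) (hN : N * t ≤ 3 / 8) (a : κ) : SS τ N ≤ 3 * TT τ a N := by
  have n1 : (-1 : SignType) ≠ 0 := by decide
  have n2 : (1 : SignType) ≠ 0 := by decide
  have n3 : (-1 : SignType) ≠ 1 := by decide
  have i1 := sum_exch_le h0 h1 h2 N hN a n1
  have i2 := sum_exch_le h0 h1 h2 N hN a n2
  have e1 : SS τ N = ∑ s : κ → SignType, (if s a = 0 then WA Finset.univ s * zz τ s ^ N else 0) +
      (∑ s : κ → SignType, (if s a = -1 then WA Finset.univ s * zz τ s ^ N else 0) +
      ∑ s : κ → SignType, (if s a = 1 then WA Finset.univ s * zz τ s ^ N else 0)) := by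
    unfold SS
    rw [← Finset.sum_add_distrib, ← Finset.sum_add_distrib]
    refine Finset.sum_congr rfl fun s _ => ?_
    have : s a = 0 ∨ s a = -1 ∨ s a = 1 := by
      generalize s a = σ
      revert σ
      decide
    rcases this with h | h | h <;> simp [h]
  have e2 : TT τ a N = ∑ s : κ → SignType, (if s a = -1 then WA Finset.univ s * zz τ s ^ N else 0) +
      ∑ s : κ → SignType, (if s a = 1 then WA Finset.univ s * zz τ s ^ N else 0) := by
    unfold TT
    rw [← Finset.sum_add_distrib]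
    refine Finset.sum_congr rfl fun s _ => ?_
    have : s a = 0 ∨ s a = -1 ∨ s a = 1 := by
      generalize s a = σ
      revert σ
      decide
    rcases this with h | h | h <;> simp [h]
  linarith

theorem SS_pos (n : ℕ) : 0 < SS τ n := by
  unfold SS
  apply Finset.sum_pos
  · intro s _
    have hz := (zz_bounds h0 h1 h2 s).1
    apply mul_pos _ (by positivity)
    unfold WA wt
    refine Finset.prod_pos fun a _ => ?_
    rw [if_pos (Finset.mem_univ a)]
    split_ifs <;> norm_num
  · exact Finset.univ_nonempty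

end bounds

end

end Pool.Agent.H.MP_d1ae63_mp.Up
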