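import Pool.Agent.H.MP_d1ae63_mp.Defs

set_option autoImplicit false

open MeasureTheory Filter Topology
open scoped FourierTransform ENNReal Real InnerProductSpace SchwartzMap LineDeriv

namespace Pool.Agent.H.MP_d1ae63_mp.Up

noncomputable section

/-- basis vector of `Conf N` -/
def bvec {N : ℕ} (i : Fin N) (l : Fin 3) : Conf N :=
  WithLp.toLp 2 (Pi.single i (EuclideanSpace.single l (1 : ℝ)))

theorem inner_bvec {N : ℕ} (i : Fin N) (l : Fin 3) (k : Conf N) :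
    ⟪k, bvec i l⟫_ℝ = k i l := by
  rw [PiLp.inner_apply, Finset.sum_eq_single i]
  · simp [bvec, EuclideanSpace.inner_single_right]
  · intro b _ hb
    simp [bvec, hb]
  · simp

/-- n-fold derivative of a Schwartz function in the direction `v` -/
def dn {N : ℕ} (v : Conf N) (n : ℕ) (f : 𝓢(Conf N, ℂ)) : 𝓢(Conf N, ℂ) :=
  ∂^{(fun _ : Fin n => v)} f

theorem dn_apply {N : ℕ} (v : Conf N) (n : ℕ) (f : 𝓢(Conf N, ℂ)) (x : Conf N) :
    dn v n f x = iteratedFDeriv ℝ n f x (fun _ => v) := by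
  unfold dn
  rw [SchwartzMap.iteratedLineDerivOp_eq_iteratedFDeriv]

theorem fourier_dn {N : ℕ} (v : Conf N) (n : ℕ) (f : 𝓢(Conf N, ℂ)) (k : Conf N) :
    (𝓕 (dn v n f)) k = (2 * π * Complex.I * (⟪k, v⟫_ℝ : ℝ)) ^ n * (𝓕 f) k := by
  induction n with
  | zero => simp [dn]
  | succ n ih =>
    have h1 : dn v (n + 1) f = ∂_{v} (dn v n f) := by
      unfold dn
      rw [LineDeriv.iteratedLineDerivOp_succ_left]
      rfl
    rw [h1, SchwartzMap.fourier_lineDerivOp_eq]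
    have : (inner ℝ · v : Conf N → ℝ).HasTemperateGrowth := ((innerSL ℝ).flip v).hasTemperateGrowth
    simp only [smul_apply, this, SchwartzMap.smulLeftCLM_apply_apply]
    rw [ih, pow_succ]
    simp only [smul_eq_mul, Complex.real_smul]
    ring

theorem norm_fourier_dn {N : ℕ} (i : Fin N) (l : Fin 3) (n : ℕ) (f : 𝓢(Conf N, ℂ)) (k : Conf N) :
    ‖(𝓕 (dn (bvec i l) n f)) k‖ = (2 * π * |k i l|) ^ n * ‖(𝓕 f) k‖ := by
  rw [fourier_dn, norm_mul, norm_pow, inner_bvec]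
  simp [abs_of_pos Real.pi_pos]

theorem lintegral_fourier_sq {N : ℕ} (f : 𝓢(Conf N, ℂ)) :
    ∫⁻ k : Conf N, ‖(𝓕 f) k‖ₑ ^ 2 = ∫⁻ x : Conf N, ‖f x‖ₑ ^ 2 := by
  have key : ∀ g : 𝓢(Conf N, ℂ), ∫⁻ k : Conf N, ‖g k‖ₑ ^ 2
      = ENNReal.ofReal (∫ k : Conf N, ‖g k‖ ^ 2) := by
    intro g
    have hint : Integrable (fun k => ‖g k‖ ^ 2) (volume : Measure (Conf N)) := by
      have := (g.memLp 2 (volume : Measure (Conf N))).integrable_norm_pow (by norm_num)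
      simpa using this
    rw [ofReal_integral_eq_lintegral_ofReal hint (Filter.Eventually.of_forall fun k => by positivity)]
    refine lintegral_congr fun k => ?_
    rw [ENNReal.ofReal_pow (norm_nonneg _), ofReal_norm]
  rw [key, key, SchwartzMap.integral_norm_sq_fourier]

/-- pointwise symbol bound -/
theorem symbol_bound {α A : ℝ} (hα : 0 ≤ α) (n : ℕ) (hn : α ≤ 2 * n) (hA : 0 < A) (p : E3) :
    (2 * π * ‖p‖) ^ α ≤ A ^ α * (1 + (3 ^ n * (A ^ (2 * n))⁻¹) *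
      ∑ l : Fin 3, ((2 * π * |p l|) ^ n) ^ 2) := by
  have hn' : ∀ t : ℝ, 0 ≤ t → t ^ α ≤ 1 + t ^ (2 * n) := by
    intro t ht
    rcases le_total t 1 with h | h
    · have : t ^ α ≤ 1 := Real.rpow_le_one ht h hα
      have : 0 ≤ t ^ (2 * n) := by positivity
      linarith
    · have h1 : t ^ α ≤ t ^ ((2 * n : ℕ) : ℝ) := by
        apply Real.rpow_le_rpow_of_exponent_le h
        push_cast
        exact hn
      rw [Real.rpow_natCast] at h1
      linarith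
  set q : ℝ := 2 * π * ‖p‖ with hq
  have hq0 : 0 ≤ q := by positivity
  have h1 : q ^ α = A ^ α * (q / A) ^ α := by
    rw [← Real.mul_rpow hA.le (by positivity)]
    congr 1
    field_simp
  rw [h1]
  apply mul_le_mul_of_nonneg_left _ (Real.rpow_nonneg hA.le _)
  refine (hn' (q / A) (by positivity)).trans ?_
  gcongr 1 + ?_
  rw [div_pow, div_eq_mul_inv, mul_comm]
  rw [mul_comm ((3 : ℝ) ^ n) _, mul_assoc]
  apply mul_le_mul_of_nonneg_left _ (by positivity)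
  -- q^(2n) ≤ 3^n * ∑
  have hp : ‖p‖ ^ 2 = ∑ l : Fin 3, |p l| ^ 2 := by
    rw [EuclideanSpace.norm_sq_eq]
    simp
  have h2 : q ^ (2 * n) = (∑ l : Fin 3, (2 * π * |p l|) ^ 2) ^ n := by
    rw [pow_mul, hq, mul_pow, hp, Finset.mul_sum]
    congr 1
    apply Finset.sum_congr rfl
    intro l _
    ring
  rw [h2]
  have h3 : (∑ l : Fin 3, (2 * π * |p l|) ^ 2) ^ n ≤ 3 ^ n * ∑ l : Fin 3, ((2 * π * |p l|) ^ 2) ^ n := by
    rcases Nat.eq_zero_or_pos n with rfl | hnpos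
    · simp
    · obtain ⟨m, rfl⟩ : ∃ m, n = m + 1 := ⟨n - 1, by omega⟩
      have h5 := pow_sum_div_card_le_sum_pow (s := (Finset.univ : Finset (Fin 3)))
        (f := fun l => (2 * π * |p l|) ^ 2) (fun l _ => by positivity) m
      simp only [Finset.card_univ, Fintype.card_fin, Nat.cast_ofNat] at h5
      rw [div_le_iff₀ (by positivity)] at h5
      refine h5.trans ?_
      rw [mul_comm]
      gcongr
      · norm_num
      · omega
  refine h3.trans (le_of_eq ?_)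
  congr 1
  apply Finset.sum_congr rfl
  intro l _
  rw [← pow_mul, ← pow_mul, Nat.mul_comm]

theorem kineticAt_toLp_eq {N : ℕ} {α : ℝ} (i : Fin N) (f : 𝓢(Conf N, ℂ)) :
    kineticAt α i (f.toLp 2 : WaveFn N) =
      ∫⁻ k : Conf N, ENNReal.ofReal ((2 * π * ‖k i‖) ^ α) * ‖(𝓕 f) k‖ₑ ^ 2 := by
  have h1 : (𝓕 (f.toLp 2 : WaveFn N) : WaveFn N) = (𝓕 f).toLp 2 := SchwartzMap.toLp_fourier_eq f
  have h2 := (𝓕 f).coeFn_toLp 2 (volume : Measure (Conf N))
  unfold kineticAt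
  rw [h1]
  apply lintegral_congr_ae
  filter_upwards [h2] with k hk
  rw [hk]

theorem enorm_sq_eq (z : ℂ) : ‖z‖ₑ ^ 2 = ENNReal.ofReal (‖z‖ ^ 2) := by
  rw [ENNReal.ofReal_pow (norm_nonneg _), ofReal_norm]

theorem kin_pointwise {N : ℕ} {α A : ℝ} (hα : 0 ≤ α) (n : ℕ) (hn : α ≤ 2 * n) (hA : 0 < A)
    (i : Fin N) (f : 𝓢(Conf N, ℂ)) (k : Conf N) :
    ENNReal.ofReal ((2 * π * ‖k i‖) ^ α) * ‖(𝓕 f) k‖ₑ ^ 2 ≤
      ENNReal.ofReal (A ^ α) * (‖(𝓕 f) k‖ₑ ^ 2 +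
          ENNReal.ofReal (3 ^ n * (A ^ (2 * n))⁻¹) *
            ∑ l : Fin 3, ‖(𝓕 (dn (bvec i l) n f)) k‖ₑ ^ 2) := by
  have hs := symbol_bound hα n hn hA (k i)
  simp only [enorm_sq_eq]
  rw [← ENNReal.ofReal_sum_of_nonneg (fun l _ => by positivity),
    ← ENNReal.ofReal_mul (by positivity), ← ENNReal.ofReal_mul (by positivity),
    ← ENNReal.ofReal_add (by positivity) (by positivity),
    ← ENNReal.ofReal_mul (by positivity)]
  apply ENNReal.ofReal_le_ofReal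
  simp only [norm_fourier_dn]
  calc (2 * π * ‖k i‖) ^ α * ‖(𝓕 f) k‖ ^ 2
      ≤ (A ^ α * (1 + (3 ^ n * (A ^ (2 * n))⁻¹) *
        ∑ l : Fin 3, ((2 * π * |k i l|) ^ n) ^ 2)) * ‖(𝓕 f) k‖ ^ 2 := by gcongr
    _ = _ := by
      simp only [mul_pow]
      rw [← Finset.sum_mul]
      ring

/-- kinetic energy bound for Schwartz functions. -/
theorem kineticAt_toLp_le {N : ℕ} {α A : ℝ} (hα : 0 ≤ α) (n : ℕ) (hn : α ≤ 2 * n) (hA : 0 < A)
    (i : Fin N) (f : 𝓢(Conf N, ℂ)) :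
    kineticAt α i (f.toLp 2 : WaveFn N) ≤ ENNReal.ofReal (A ^ α) *
      ((∫⁻ x : Conf N, ‖f x‖ₑ ^ 2) + ENNReal.ofReal (3 ^ n * (A ^ (2 * n))⁻¹) *
        ∑ l : Fin 3, ∫⁻ x : Conf N, ‖dn (bvec i l) n f x‖ₑ ^ 2) := by
  rw [kineticAt_toLp_eq]
  refine (lintegral_mono (fun k => kin_pointwise hα n hn hA i f k)).trans (le_of_eq ?_)
  have hm : ∀ g : 𝓢(Conf N, ℂ), Measurable fun k => ‖g k‖ₑ ^ 2 := fun g =>
    (g.continuous.enorm.measurable).pow_const 2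
  rw [lintegral_const_mul _ (by
    exact (hm _).add ((Finset.measurable_fun_sum _ fun l _ => hm _).const_mul _))]
  rw [lintegral_add_left (hm _), lintegral_const_mul _
    (Finset.measurable_fun_sum _ fun l _ => hm _), lintegral_finsetSum _ (fun l _ => hm _)]
  simp only [lintegral_fourier_sq]

theorem enorm_add_sq_le (a b : ℂ) : ‖a + b‖ₑ ^ 2 ≤ 2 * ‖a‖ₑ ^ 2 + 2 * ‖b‖ₑ ^ 2 := by
  simp only [enorm_sq_eq]
  have e2 : (2 : ℝ≥0∞) = ENNReal.ofReal 2 := by simp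
  rw [e2, ← ENNReal.ofReal_mul (by norm_num), ← ENNReal.ofReal_mul (by norm_num),
    ← ENNReal.ofReal_add (by positivity) (by positivity)]
  apply ENNReal.ofReal_le_ofReal
  have h := norm_add_le a b
  have : ‖a + b‖ ^ 2 ≤ (‖a‖ + ‖b‖) ^ 2 := by gcongr
  nlinarith [sq_nonneg (‖a‖ - ‖b‖)]

theorem kineticAt_add_le {N : ℕ} {α : ℝ} (i : Fin N) (f g : 𝓢(Conf N, ℂ)) :
    kineticAt α i ((f + g).toLp 2 : WaveFn N) ≤
      2 * kineticAt α i (f.toLp 2 : WaveFn N) + 2 * kineticAt α i (g.toLp 2 : WaveFn N) := by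
  simp only [kineticAt_toLp_eq]
  have hm : ∀ g : 𝓢(Conf N, ℂ), Measurable fun k : Conf N =>
      ENNReal.ofReal ((2 * π * ‖k i‖) ^ α) * ‖g k‖ₑ ^ 2 := fun g => by
    have h1 : Measurable fun k : Conf N => k i := by fun_prop
    exact (((h1.norm.const_mul _).pow_const α).ennreal_ofReal).mul
      ((g.continuous.enorm.measurable).pow_const 2)
  rw [← lintegral_const_mul _ (hm _), ← lintegral_const_mul _ (hm _),
    ← lintegral_add_left ((hm _).const_mul _)]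
  apply lintegral_mono
  intro k
  have h : (𝓕 (f + g)) k = (𝓕 f) k + (𝓕 g) k := by
    rw [FourierTransform.fourier_add]
    rfl
  simp only [h]
  calc ENNReal.ofReal ((2 * π * ‖k i‖) ^ α) * ‖(𝓕 f) k + (𝓕 g) k‖ₑ ^ 2
      ≤ ENNReal.ofReal ((2 * π * ‖k i‖) ^ α) * (2 * ‖(𝓕 f) k‖ₑ ^ 2 + 2 * ‖(𝓕 g) k‖ₑ ^ 2) := by
        gcongr
        exact enorm_add_sq_le _ _
    _ = _ := by ring

end

end Pool.Agent.H.MP_d1ae63_mp.Up
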