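import Pool.Agent.H.MP_d1ae63_mp.UpperInt
import Pool.Agent.H.MP_d1ae63_mp.UpperKin

set_option autoImplicit false

open MeasureTheory Filter Topology Metric
open scoped ENNReal Real SchwartzMap

namespace Pool.Agent.H.MP_d1ae63_mp.Up

noncomputable section

/-- `C^∞` -/
abbrev Smo {E F : Type*} [NormedAddCommGroup E] [NormedSpace ℝ E] [NormedAddCommGroup F]
    [NormedSpace ℝ F] (f : E → F) : Prop := ContDiff ℝ ((⊤ : ℕ∞) : WithTop ℕ∞) f

section line

variable {E F : Type*} [NormedAddCommGroup E] [NormedSpace ℝ E] [NormedAddCommGroup F]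
    [NormedSpace ℝ F]

theorem iteratedDeriv_line {f : E → F} (hf : Smo f) (n : ℕ) (x v : E) :
    iteratedDeriv n (fun t : ℝ => f (x + t • v)) 0 = iteratedFDeriv ℝ n f x (fun _ => v) := by
  have h1 : (fun t : ℝ => f (x + t • v)) =
      (fun y => f (x + y)) ∘ (ContinuousLinearMap.toSpanSingleton ℝ v) := by
    ext t
    simp
  have hf' : Smo (fun y => f (x + y)) := hf.comp (contDiff_const.add contDiff_id)
  rw [iteratedDeriv_eq_iteratedFDeriv, h1,
    ContinuousLinearMap.iteratedFDeriv_comp_right _ hf' _ (i := n) (mod_cast le_top)]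
  simp only [ContinuousMultilinearMap.compContinuousLinearMap_apply,
    ContinuousLinearMap.toSpanSingleton_apply, one_smul, zero_smul]
  rw [iteratedFDeriv_comp_add_left]
  simp

theorem norm_iteratedDeriv_line_le {f : E → F} (hf : Smo f) (n : ℕ) (x v : E) :
    ‖iteratedDeriv n (fun t : ℝ => f (x + t • v)) 0‖ ≤ ‖iteratedFDeriv ℝ n f x‖ * ‖v‖ ^ n := by
  rw [iteratedDeriv_line hf]
  refine (ContinuousMultilinearMap.le_opNorm _ _).trans ?_
  simp

end line

theorem norm_iteratedDeriv_ofReal {g : ℝ → ℝ} (hg : Smo g) (n : ℕ) (t : ℝ) :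
    ‖iteratedDeriv n (fun t : ℝ => ((g t : ℝ) : ℂ)) t‖ = |iteratedDeriv n g t| := by
  rw [← norm_iteratedFDeriv_eq_norm_iteratedDeriv, ← Real.norm_eq_abs,
    ← norm_iteratedFDeriv_eq_norm_iteratedDeriv]
  exact LinearIsometry.norm_iteratedFDeriv_comp_left Complex.ofRealLI
    (hg.contDiffAt) (mod_cast le_top)

/-- Schwartz function on `Conf N` from a real function on `Fin N → E3` -/
def mkS {N : ℕ} (F : (Fin N → E3) → ℝ) (hF : Smo F) (hc : HasCompactSupport F) :
    𝓢(Conf N, ℂ) :=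
  HasCompactSupport.toSchwartzMap (f := fun x : Conf N => ((F (fun l => x l) : ℝ) : ℂ))
    (by
      have h1 : HasCompactSupport (fun x : Conf N => F (fun l => x l)) :=
        hc.comp_homeomorph (PiLp.continuousLinearEquiv 2 ℝ (fun _ : Fin N => E3)).toHomeomorph
      exact h1.comp_left (g := fun t : ℝ => (t : ℂ)) Complex.ofReal_zero)
    (by
      have h1 : Smo (fun x : Conf N => F (fun l => x l)) :=
        hF.comp (PiLp.continuousLinearEquiv 2 ℝ (fun _ : Fin N => E3)).contDiff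
      exact Complex.ofRealCLM.contDiff.comp h1)

theorem mkS_apply {N : ℕ} (F : (Fin N → E3) → ℝ) (hF : Smo F) (hc : HasCompactSupport F)
    (x : Conf N) : mkS F hF hc x = ((F (fun l => x l) : ℝ) : ℂ) := rfl

/-- the coordinate line in the configuration space -/
def lineAt {N : ℕ} (i : Fin N) (l : Fin 3) (x : Fin N → E3) (t : ℝ) : Fin N → E3 :=
  Function.update x i (x i + t • EuclideanSpace.single l (1 : ℝ))

theorem norm_dn_mkS {N : ℕ} (F : (Fin N → E3) → ℝ) (hF : Smo F) (hc : HasCompactSupport F)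
    (i : Fin N) (l : Fin 3) (n : ℕ) (x : Conf N) :
    ‖dn (bvec i l) n (mkS F hF hc) x‖ =
      |iteratedDeriv n (fun t : ℝ => F (lineAt i l (fun j => x j) t)) 0| := by
  have hS : Smo (mkS F hF hc : Conf N → ℂ) := (mkS F hF hc).smooth ⊤
  rw [dn_apply, ← iteratedDeriv_line hS]
  have h1 : (fun t : ℝ => mkS F hF hc (x + t • bvec i l)) =
      fun t : ℝ => ((F (lineAt i l (fun j => x j) t) : ℝ) : ℂ) := by
    ext t
    rw [mkS_apply]
    congr 2
    ext j
    unfold lineAt bvec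
    by_cases hj : j = i
    · subst hj
      simp
    · simp [hj]
  rw [h1, norm_iteratedDeriv_ofReal]
  refine hF.comp ?_
  rw [contDiff_pi]
  intro j
  unfold lineAt
  by_cases hj : j = i
  · subst hj
    simp only [Function.update_self]
    fun_prop
  · simp only [Function.update_of_ne hj]
    fun_prop

theorem iteratedDeriv_cos_lin (A B : ℝ) (n : ℕ) :
    iteratedDeriv n (fun r : ℝ => Real.cos (A + B * r)) =
      fun r => B ^ n * Real.cos (A + B * r + n * (π / 2)) := by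
  induction n with
  | zero => ext r; simp
  | succ n ih =>
    rw [iteratedDeriv_succ, ih]
    ext r
    have h1 : HasDerivAt (fun r : ℝ => A + B * r + n * (π / 2)) B r := by
      have := ((hasDerivAt_id r).const_mul B).const_add A
      simpa using this.add_const (n * (π / 2))
    have h2 := (h1.cos).const_mul (B ^ n)
    rw [h2.deriv]
    have h3 : A + B * r + ((n + 1 : ℕ) : ℝ) * (π / 2) = (A + B * r + n * (π / 2)) + π / 2 := by
      push_cast
      ring
    rw [h3, Real.cos_add_pi_div_two]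
    ring

/-- derivatives of the outer function -/
theorem outer_bound {θ q ε : ℝ} (h0 : 0 ≤ θ) (h1 : θ ≤ 1) (hε : |ε| ≤ 1) (i : ℕ) (r : ℝ)
    (hr : |r| ≤ 1) :
    ‖iteratedFDeriv ℝ i (fun r : ℝ => Real.cos (θ * (q + ε * r)) - Real.cos (θ * q)) r‖ ≤ θ := by
  rw [norm_iteratedFDeriv_eq_norm_iteratedDeriv, Real.norm_eq_abs]
  rcases Nat.eq_zero_or_pos i with rfl | hi
  · simp only [iteratedDeriv_zero]
    have h2 := Real.abs_cos_sub_cos_le (θ * (q + ε * r)) (θ * q)
    refine h2.trans ?_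
    have : θ * (q + ε * r) - θ * q = θ * (ε * r) := by ring
    rw [this, abs_mul, abs_mul, abs_of_nonneg h0]
    have : |ε| * |r| ≤ 1 := mul_le_one₀ hε (abs_nonneg _) hr
    nlinarith
  · have h2 : (fun r : ℝ => Real.cos (θ * (q + ε * r)) - Real.cos (θ * q)) =
        fun r : ℝ => (-Real.cos (θ * q)) + Real.cos (θ * q + (θ * ε) * r) := by
      ext r
      rw [sub_eq_neg_add]
      congr 2
      ring
    rw [h2, iteratedDeriv_const_add hi, iteratedDeriv_cos_lin, abs_mul, abs_pow, abs_mul,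
      abs_of_nonneg h0]
    have h3 : θ * |ε| ≤ θ := by nlinarith [abs_nonneg ε]
    have h4 : (θ * |ε|) ^ i ≤ θ := by
      obtain ⟨m, rfl⟩ : ∃ m, i = m + 1 := ⟨i - 1, by omega⟩
      rw [pow_succ]
      have h5 : (θ * |ε|) ^ m ≤ 1 := pow_le_one₀ (by positivity) (h3.trans h1)
      calc (θ * |ε|) ^ m * (θ * |ε|) ≤ 1 * θ := mul_le_mul h5 h3 (by positivity) zero_le_one
        _ = θ := one_mul _
    calc _ ≤ θ * 1 := mul_le_mul h4 (Real.abs_cos_le_one _) (abs_nonneg _) h0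
      _ = θ := mul_one _

theorem outer_smooth (θ q ε : ℝ) :
    Smo (fun r : ℝ => Real.cos (θ * (q + ε * r)) - Real.cos (θ * q)) := by
  unfold Smo
  fun_prop

/-- uniform bound of the derivatives of the one-cell correlation function -/
theorem cell_bound {b : E3 → ℝ} (hb : Smo b) (hbc : HasCompactSupport b) (hb1 : ∀ y, |b y| ≤ 1)
    (n : ℕ) : ∃ C : ℝ, 0 ≤ C ∧ ∀ θ q ε : ℝ, 0 ≤ θ → θ ≤ 1 → |ε| ≤ 1 → ∀ y,
      ‖iteratedFDeriv ℝ n (fun y => Real.cos (θ * (q + ε * b y)) - Real.cos (θ * q)) y‖ ≤ C * θ := by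
  have h1 : ∀ i : ℕ, ∃ D : ℝ, ∀ y, ‖iteratedFDeriv ℝ i b y‖ ≤ D := by
    intro i
    exact (hbc.iteratedFDeriv i).exists_bound_of_continuous
      (hb.continuous_iteratedFDeriv (mod_cast le_top))
  choose D hD using h1
  set D' : ℝ := 1 + ∑ i ∈ Finset.range (n + 1), |D i| with hD'
  have hD'1 : 1 ≤ D' := by
    have : 0 ≤ ∑ i ∈ Finset.range (n + 1), |D i| := Finset.sum_nonneg fun i _ => abs_nonneg _
    linarith
  have hD'2 : ∀ i ≤ n, D i ≤ D' := by
    intro i hi
    have h2 : |D i| ≤ ∑ i ∈ Finset.range (n + 1), |D i| :=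
      Finset.single_le_sum (f := fun i => |D i|) (fun i _ => abs_nonneg _)
        (Finset.mem_range.mpr (by omega))
    have := le_abs_self (D i)
    linarith
  refine ⟨n.factorial * D' ^ n, by positivity, fun θ q ε h0 h1 hε y => ?_⟩
  have h3 := norm_iteratedFDeriv_comp_le (𝕜 := ℝ) (outer_smooth θ q ε) hb
    (n := n) (mod_cast le_top) y (C := θ) (D := D')
    (fun i _ => outer_bound h0 h1 hε i (b y) (hb1 y))
    (fun i hi hin => by
      refine (hD i y).trans ((hD'2 i hin).trans ?_)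
      exact le_self_pow₀ hD'1 (by omega))
  refine le_trans (le_of_eq ?_) (h3.trans (le_of_eq (by ring)))
  rfl

theorem cell_zero {b : E3 → ℝ} (hbs : ∀ y, 1 ≤ ‖y‖ → b y = 0) (n : ℕ) (θ q ε : ℝ) (y : E3)
    (hy : 1 < ‖y‖) :
    iteratedFDeriv ℝ n (fun y => Real.cos (θ * (q + ε * b y)) - Real.cos (θ * q)) y = 0 := by
  have h1 : (fun y => Real.cos (θ * (q + ε * b y)) - Real.cos (θ * q)) =ᶠ[𝓝 y] fun _ => (0 : ℝ) := by
    have : ∀ᶠ z in 𝓝 y, 1 < ‖z‖ := (continuous_norm.tendsto y).eventually (lt_mem_nhds hy)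
    filter_upwards [this] with z hz
    rw [hbs z hz.le]
    simp
  have h2 := h1.iteratedFDeriv ℝ n
  rw [h2.eq_of_nhds]
  simp

/-! ### concrete one-body functions -/

/-- the large bump -/
def chi : ContDiffBump (0 : E3) := ⟨2, 3, by norm_num, by norm_num⟩

/-- the small bump -/
def bb : ContDiffBump (0 : E3) := ⟨1 / 2, 1, by norm_num, by norm_num⟩

/-- one-body wave function -/
def phi (R β : ℝ) (u : E3) : ℝ := β * chi (R⁻¹ • u)

/-- cell functions -/
def cell {κ : Type*} (ℓ : ℝ) (y : κ → E3) (a : κ) (u : E3) : ℝ := bb (ℓ⁻¹ • (u - y a))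

theorem chi_smooth : Smo (chi : E3 → ℝ) := chi.contDiff

theorem bb_smooth : Smo (bb : E3 → ℝ) := bb.contDiff

theorem bb_zero (y : E3) (hy : 1 ≤ ‖y‖) : bb y = 0 := by
  apply bb.zero_of_le_dist
  simpa [bb] using hy

theorem chi_zero (y : E3) (hy : 3 ≤ ‖y‖) : chi y = 0 := by
  apply chi.zero_of_le_dist
  simpa [chi] using hy

theorem chi_one (y : E3) (hy : ‖y‖ ≤ 2) : chi y = 1 := by
  apply chi.one_of_mem_closedBall
  rw [mem_closedBall_zero_iff]
  exact hy

theorem bb_abs (y : E3) : |bb y| ≤ 1 := by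
  rw [abs_of_nonneg bb.nonneg]
  exact bb.le_one

/-- geometry of the cells -/
structure Geo {κ : Type*} (R β ℓ : ℝ) (y : κ → E3) : Prop where
  Rpos : 0 < R
  βpos : 0 < β
  ℓpos : 0 < ℓ
  sep : ∀ a b, a ≠ b → 3 * ℓ ≤ ‖y a - y b‖
  inside : ∀ a, ‖y a‖ + ℓ ≤ 2 * R
  norm : β ^ 2 * R ^ 3 * ∫ u : E3, chi u ^ 2 = 1

section geo

variable {κ : Type*} {R β ℓ : ℝ} {y : κ → E3} (hG : Geo R β ℓ y)

theorem phi_smooth (R β : ℝ) : Smo (phi R β) := by
  unfold phi Smo
  have := chi_smooth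
  exact contDiff_const.mul (this.comp (contDiff_const_smul _))

theorem cell_smooth (ℓ : ℝ) (y : κ → E3) (a : κ) : Smo (cell ℓ y a) := by
  unfold cell Smo
  exact bb_smooth.comp ((contDiff_const_smul _).comp (contDiff_id.sub contDiff_const))

include hG

theorem cell_ne {a : κ} {u : E3} (h : cell ℓ y a u ≠ 0) : ‖u - y a‖ < ℓ := by
  by_contra hcon
  push Not at hcon
  apply h
  apply bb_zero
  rw [norm_smul, norm_inv, Real.norm_eq_abs, abs_of_pos hG.ℓpos, inv_mul_eq_div,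
    le_div_iff₀ hG.ℓpos, one_mul]
  exact hcon

theorem cell_disj {a b : κ} (hab : a ≠ b) (u : E3) : cell ℓ y a u = 0 ∨ cell ℓ y b u = 0 := by
  by_contra hcon
  push Not at hcon
  have h1 := cell_ne hG hcon.1
  have h2 := cell_ne hG hcon.2
  have h3 := hG.sep a b hab
  have h4 : ‖y a - y b‖ ≤ ‖u - y a‖ + ‖u - y b‖ := by
    have : y a - y b = (u - y b) - (u - y a) := by abel
    rw [this, add_comm]
    exact norm_sub_le _ _
  have := hG.ℓpos
  linarith

theorem phi_flat {a : κ} {u : E3} (h : ‖u - y a‖ ≤ ℓ) : phi R β u = β := by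
  unfold phi
  rw [chi_one, mul_one]
  rw [norm_smul, norm_inv, Real.norm_eq_abs, abs_of_pos hG.Rpos, inv_mul_eq_div,
    div_le_iff₀ hG.Rpos]
  have h1 : ‖u‖ ≤ ‖u - y a‖ + ‖y a‖ := by
    calc ‖u‖ = ‖(u - y a) + y a‖ := by rw [sub_add_cancel]
      _ ≤ _ := norm_add_le _ _
  have := hG.inside a
  linarith

theorem geo_cells : Cells κ (phi R β) (cell ℓ y) (3 * R) ℓ where
  φc := (phi_smooth R β).continuous
  φs := by
    intro u hu
    unfold phi
    rw [chi_zero, mul_zero]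
    rw [mem_ball_zero_iff, not_lt] at hu
    rw [norm_smul, norm_inv, Real.norm_eq_abs, abs_of_pos hG.Rpos, inv_mul_eq_div,
      le_div_iff₀ hG.Rpos]
    exact hu
  φn := by
    unfold phi
    simp_rw [mul_pow]
    rw [integral_const_mul]
    have h1 := Measure.integral_comp_inv_smul (volume : Measure E3) (fun u : E3 => chi u ^ 2) R
    rw [h1]
    have h2 : Module.finrank ℝ E3 = 3 := by simp
    rw [h2, abs_of_pos (by have := hG.Rpos; positivity), smul_eq_mul, ← mul_assoc]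
    exact hG.norm
  bc := fun a => (cell_smooth ℓ y a).continuous
  b0 := fun a u => bb.nonneg
  b1 := fun a u => bb.le_one
  disj := fun a b u hab => cell_disj hG hab u
  close := by
    intro a u v hu hv
    have h1 := cell_ne hG hu
    have h2 := cell_ne hG hv
    have : u - v = (u - y a) - (v - y a) := by abel
    rw [this]
    refine (norm_sub_le _ _).trans ?_
    linarith
  rpos := by have := hG.Rpos; positivity
  ℓpos := hG.ℓpos

end geo

/-! ### splitting the trial function with respect to particle `i` -/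

section split

variable {κ : Type*} [Fintype κ] [DecidableEq κ] {N : ℕ}

/-- product over the other particles -/
def rest (φ : E3 → ℝ) (i : Fin N) (x : Fin N → E3) : ℝ := ∏ l ∈ Finset.univ.erase i, φ (x l)

/-- cell charges of the other particles -/
def qq (bs : κ → E3 → ℝ) (e : Fin N → Bool) (i : Fin N) (x : Fin N → E3) (a : κ) : ℝ :=
  ∑ l ∈ Finset.univ.erase i, sgn (e l) * bs a (x l)

/-- slowly varying part -/
def trial0 (φ : E3 → ℝ) (bs : κ → E3 → ℝ) (θ : ℝ) (e : Fin N → Bool) (i : Fin N)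
    (x : Fin N → E3) : ℝ :=
  (rest φ i x * ∏ a, Real.cos (θ * qq bs e i x a)) * φ (x i)

/-- correlation part -/
def trial1 (φ : E3 → ℝ) (bs : κ → E3 → ℝ) (θ : ℝ) (e : Fin N → Bool) (i : Fin N)
    (x : Fin N → E3) : ℝ :=
  rest φ i x * (φ (x i) * (∏ a, Real.cos (θ * (qq bs e i x a + sgn (e i) * bs a (x i))) -
    ∏ a, Real.cos (θ * qq bs e i x a)))

omit [DecidableEq κ] in
theorem trial_eq (φ : E3 → ℝ) (bs : κ → E3 → ℝ) (θ : ℝ) (e : Fin N → Bool) (i : Fin N)
    (x : Fin N → E3) :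
    trial φ bs θ e x = trial0 φ bs θ e i x + trial1 φ bs θ e i x := by
  have h1 : ∏ l, φ (x l) = φ (x i) * rest φ i x :=
    (Finset.mul_prod_erase Finset.univ _ (Finset.mem_univ i)).symm
  have h2 : ∀ a, ∑ l, sgn (e l) * bs a (x l) = qq bs e i x a + sgn (e i) * bs a (x i) := by
    intro a
    rw [add_comm]
    exact (Finset.add_sum_erase Finset.univ _ (Finset.mem_univ i)).symm
  unfold trial trial0 trial1
  simp_rw [h2]
  rw [h1]
  ring

theorem lineAt_self (i : Fin N) (l : Fin 3) (x : Fin N → E3) (t : ℝ) :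
    lineAt i l x t i = x i + t • EuclideanSpace.single l (1 : ℝ) := by
  simp [lineAt]

theorem lineAt_ne {i j : Fin N} (h : j ≠ i) (l : Fin 3) (x : Fin N → E3) (t : ℝ) :
    lineAt i l x t j = x j := by
  simp [lineAt, h]

theorem rest_line (φ : E3 → ℝ) (i : Fin N) (l : Fin 3) (x : Fin N → E3) (t : ℝ) :
    rest φ i (lineAt i l x t) = rest φ i x :=
  Finset.prod_congr rfl fun j hj => by rw [lineAt_ne (Finset.ne_of_mem_erase hj)]

omit [Fintype κ] [DecidableEq κ] in
theorem qq_line (bs : κ → E3 → ℝ) (e : Fin N → Bool) (i : Fin N) (l : Fin 3) (x : Fin N → E3)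
    (t : ℝ) (a : κ) : qq bs e i (lineAt i l x t) a = qq bs e i x a :=
  Finset.sum_congr rfl fun j hj => by rw [lineAt_ne (Finset.ne_of_mem_erase hj)]

theorem sgn_abs (b : Bool) : |sgn b| = 1 := by
  cases b <;> simp [sgn]

/-- the correlation part as a sum over cells -/
theorem trial1_eq {R β ℓ : ℝ} {y : κ → E3} (hG : Geo R β ℓ y) (θ : ℝ) (e : Fin N → Bool)
    (i : Fin N) (x : Fin N → E3) :
    trial1 (phi R β) (cell ℓ y) θ e i x = ∑ a, (rest (phi R β) i x * β *
      ∏ b ∈ Finset.univ.erase a, Real.cos (θ * qq (cell ℓ y) e i x b)) *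
      (Real.cos (θ * (qq (cell ℓ y) e i x a + sgn (e i) * cell ℓ y a (x i))) -
        Real.cos (θ * qq (cell ℓ y) e i x a)) := by
  unfold trial1
  by_cases h : ∃ a, cell ℓ y a (x i) ≠ 0
  · obtain ⟨a, ha⟩ := h
    have hz : ∀ b, b ≠ a → cell ℓ y b (x i) = 0 :=
      fun b hb => (cell_disj hG hb (x i)).resolve_right ha
    rw [Finset.sum_eq_single a]
    · rw [phi_flat hG (cell_ne hG ha).le]
      rw [← Finset.mul_prod_erase Finset.univ _ (Finset.mem_univ a),
        ← Finset.mul_prod_erase Finset.univ (fun b => Real.cos (θ * qq (cell ℓ y) e i x b))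
          (Finset.mem_univ a)]
      have h1 : ∏ b ∈ Finset.univ.erase a,
          Real.cos (θ * (qq (cell ℓ y) e i x b + sgn (e i) * cell ℓ y b (x i))) =
          ∏ b ∈ Finset.univ.erase a, Real.cos (θ * qq (cell ℓ y) e i x b) := by
        refine Finset.prod_congr rfl fun b hb => ?_
        rw [hz b (Finset.ne_of_mem_erase hb), mul_zero, add_zero]
      rw [h1]
      ring
    · intro b _ hb
      rw [hz b hb, mul_zero, add_zero, sub_self, mul_zero]
    · simp
  · push Not at h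
    simp [h]

omit [DecidableEq κ] in
theorem trial0_deriv_sq {R β : ℝ} (hR : 0 < R)
    (bs : κ → E3 → ℝ) (θ : ℝ) (e : Fin N → Bool) (i : Fin N) (l : Fin 3) (n : ℕ)
    (x : Fin N → E3) :
    |iteratedDeriv n (fun t => trial0 (phi R β) bs θ e i (lineAt i l x t)) 0| ^ 2 ≤
      (β ^ 2 * (R⁻¹ ^ n) ^ 2 * ‖iteratedFDeriv ℝ n chi (R⁻¹ • x i)‖ ^ 2 *
        ∏ j ∈ Finset.univ.erase i, phi R β (x j) ^ 2) *
      ∏ a, Real.cos (θ * qq bs e i x a) ^ 2 := by
  have h1 : (fun t : ℝ => trial0 (phi R β) bs θ e i (lineAt i l x t)) =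
      fun t : ℝ => (rest (phi R β) i x * (∏ a, Real.cos (θ * qq bs e i x a)) * β) *
        chi (R⁻¹ • x i + t • (R⁻¹ • EuclideanSpace.single l (1 : ℝ))) := by
    ext t
    unfold trial0
    simp_rw [rest_line, qq_line, lineAt_self]
    unfold phi
    rw [smul_add, smul_comm R⁻¹ t]
    ring
  have hsm : ContDiffAt ℝ n (fun t : ℝ =>
      chi (R⁻¹ • x i + t • (R⁻¹ • EuclideanSpace.single l (1 : ℝ)))) 0 := by
    have : Smo (fun t : ℝ => chi (R⁻¹ • x i + t • (R⁻¹ • EuclideanSpace.single l (1 : ℝ)))) :=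
      chi_smooth.comp (contDiff_const.add (contDiff_id.smul contDiff_const))
    exact (this.of_le (mod_cast le_top)).contDiffAt
  rw [h1, iteratedDeriv_const_mul _ hsm]
  have h2 := norm_iteratedDeriv_line_le chi_smooth n (R⁻¹ • x i)
    (R⁻¹ • EuclideanSpace.single l (1 : ℝ))
  rw [Real.norm_eq_abs] at h2
  have h3 : ‖R⁻¹ • (EuclideanSpace.single l (1 : ℝ) : E3)‖ = R⁻¹ := by
    rw [norm_smul]
    simp [abs_of_pos hR]
  rw [h3] at h2
  rw [abs_mul, mul_pow]
  have h4 : |iteratedDeriv n (fun t : ℝ =>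
      chi (R⁻¹ • x i + t • (R⁻¹ • EuclideanSpace.single l (1 : ℝ)))) 0| ^ 2 ≤
      (‖iteratedFDeriv ℝ n chi (R⁻¹ • x i)‖ * R⁻¹ ^ n) ^ 2 :=
    pow_le_pow_left₀ (abs_nonneg _) h2 2
  refine (mul_le_mul_of_nonneg_left h4 (sq_nonneg _)).trans (le_of_eq ?_)
  rw [sq_abs]
  unfold rest
  simp only [mul_pow]
  rw [← Finset.prod_pow, ← Finset.prod_pow]
  ring

omit [DecidableEq κ] in
theorem sq_sum_disj (v : κ → ℝ) (hv : ∀ a b, a ≠ b → v a = 0 ∨ v b = 0) :
    (∑ a, v a) ^ 2 = ∑ a, v a ^ 2 := by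
  by_cases h : ∃ a, v a ≠ 0
  · obtain ⟨a, ha⟩ := h
    have hz : ∀ b, b ≠ a → v b = 0 := fun b hb => (hv b a hb).resolve_right ha
    rw [Finset.sum_eq_single a (fun b _ hb => hz b hb) (by simp),
      Finset.sum_eq_single a (fun b _ hb => by rw [hz b hb]; simp) (by simp)]
  · push Not at h
    simp [h]

theorem trial1_deriv_sq {R β ℓ : ℝ} {y : κ → E3} (hG : Geo R β ℓ y) {n : ℕ} {C : ℝ}
    (hC : ∀ θ q ε : ℝ, 0 ≤ θ → θ ≤ 1 → |ε| ≤ 1 → ∀ y : E3,
      ‖iteratedFDeriv ℝ n (fun y : E3 => Real.cos (θ * (q + ε * bb y)) - Real.cos (θ * q)) y‖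
        ≤ C * θ) {θ : ℝ} (h0 : 0 ≤ θ) (h1 : θ ≤ 1) (e : Fin N → Bool) (i : Fin N) (l : Fin 3)
    (x : Fin N → E3) :
    |iteratedDeriv n (fun t => trial1 (phi R β) (cell ℓ y) θ e i (lineAt i l x t)) 0| ^ 2 ≤
      ∑ a, ((β ^ 2 * (ℓ⁻¹ ^ n) ^ 2 * (C * θ) ^ 2 *
        (closedBall (y a) ℓ).indicator (fun _ => (1 : ℝ)) (x i)) *
        ∏ j ∈ Finset.univ.erase i, phi R β (x j) ^ 2) *
        ∏ b ∈ Finset.univ.erase a, Real.cos (θ * qq (cell ℓ y) e i x b) ^ 2 := by
  set w : E3 := ℓ⁻¹ • EuclideanSpace.single l (1 : ℝ) with hw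
  set h : κ → E3 → ℝ := fun a y' => Real.cos (θ * (qq (cell ℓ y) e i x a + sgn (e i) * bb y')) -
    Real.cos (θ * qq (cell ℓ y) e i x a) with hh
  set c : κ → ℝ := fun a => rest (phi R β) i x * β *
      ∏ b ∈ Finset.univ.erase a, Real.cos (θ * qq (cell ℓ y) e i x b) with hc
  have hhs : ∀ a, Smo (h a) := by
    intro a
    have := bb_smooth
    exact (outer_smooth θ (qq (cell ℓ y) e i x a) (sgn (e i))).comp this
  have e1 : (fun t : ℝ => trial1 (phi R β) (cell ℓ y) θ e i (lineAt i l x t)) =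
      fun t : ℝ => ∑ a, c a * h a (ℓ⁻¹ • (x i - y a) + t • w) := by
    ext t
    rw [trial1_eq hG]
    refine Finset.sum_congr rfl fun a _ => ?_
    simp_rw [rest_line, qq_line, lineAt_self]
    simp only [hc, hh, cell]
    congr 6
    rw [hw, smul_comm t ℓ⁻¹, ← smul_add, add_sub_right_comm]
  have hsm : ∀ a, ContDiffAt ℝ n (fun t : ℝ => h a (ℓ⁻¹ • (x i - y a) + t • w)) 0 := by
    intro a
    have : Smo (fun t : ℝ => h a (ℓ⁻¹ • (x i - y a) + t • w)) :=
      (hhs a).comp (contDiff_const.add (contDiff_id.smul contDiff_const))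
    exact (this.of_le (mod_cast le_top)).contDiffAt
  rw [e1, iteratedDeriv_fun_sum (fun a _ => contDiffAt_const.mul (hsm a))]
  have e2 : ∀ a, iteratedDeriv n (fun t : ℝ => c a * h a (ℓ⁻¹ • (x i - y a) + t • w)) 0 =
      c a * iteratedDeriv n (fun t : ℝ => h a (ℓ⁻¹ • (x i - y a) + t • w)) 0 :=
    fun a => iteratedDeriv_const_mul _ (hsm a)
  simp_rw [e2]
  set D : κ → ℝ := fun a => iteratedDeriv n (fun t : ℝ => h a (ℓ⁻¹ • (x i - y a) + t • w)) 0 with hD
  change |∑ a, c a * D a| ^ 2 ≤ _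
  have hwn : ‖w‖ = ℓ⁻¹ := by
    rw [hw, norm_smul]
    simp [abs_of_pos hG.ℓpos]
  have hDb : ∀ a, |D a| ≤ C * θ * ℓ⁻¹ ^ n := by
    intro a
    have h2 := norm_iteratedDeriv_line_le (hhs a) n (ℓ⁻¹ • (x i - y a)) w
    rw [Real.norm_eq_abs, hwn] at h2
    refine h2.trans ?_
    have h3 := hC θ (qq (cell ℓ y) e i x a) (sgn (e i)) h0 h1 (sgn_abs _).le (ℓ⁻¹ • (x i - y a))
    exact mul_le_mul_of_nonneg_right h3 (by have := hG.ℓpos; positivity)
  have hD0 : ∀ a, x i ∉ closedBall (y a) ℓ → D a = 0 := by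
    intro a ha
    have h2 := norm_iteratedDeriv_line_le (hhs a) n (ℓ⁻¹ • (x i - y a)) w
    rw [mem_closedBall, not_le, dist_eq_norm] at ha
    have h3 : 1 < ‖ℓ⁻¹ • (x i - y a)‖ := by
      rw [norm_smul, norm_inv, Real.norm_eq_abs, abs_of_pos hG.ℓpos, inv_mul_eq_div,
        lt_div_iff₀ hG.ℓpos, one_mul]
      exact ha
    have h4 := cell_zero (b := bb) bb_zero n θ (qq (cell ℓ y) e i x a) (sgn (e i)) _ h3
    have h5 : iteratedFDeriv ℝ n (h a) (ℓ⁻¹ • (x i - y a)) = 0 := h4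
    rw [h5, norm_zero, zero_mul] at h2
    exact norm_le_zero_iff.mp h2
  rw [sq_abs, sq_sum_disj]
  · refine Finset.sum_le_sum fun a _ => ?_
    by_cases ha : x i ∈ closedBall (y a) ℓ
    · rw [Set.indicator_of_mem ha, mul_one, mul_pow]
      have h2 : D a ^ 2 ≤ (C * θ * ℓ⁻¹ ^ n) ^ 2 := by
        rw [← sq_abs]
        exact pow_le_pow_left₀ (abs_nonneg _) (hDb a) 2
      refine (mul_le_mul_of_nonneg_left h2 (sq_nonneg _)).trans (le_of_eq ?_)
      simp only [hc, rest]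
      rw [mul_pow, mul_pow, ← Finset.prod_pow, ← Finset.prod_pow]
      ring
    · rw [hD0 a ha]
      simp only [mul_zero, ne_eq, OfNat.ofNat_ne_zero, not_false_eq_true, zero_pow]
      refine mul_nonneg (mul_nonneg (mul_nonneg (by positivity) ?_) ?_) ?_
      · exact Set.indicator_nonneg (fun _ _ => zero_le_one) _
      · exact Finset.prod_nonneg fun j _ => sq_nonneg _
      · exact Finset.prod_nonneg fun j _ => sq_nonneg _
  · intro a b hab
    by_cases ha : x i ∈ closedBall (y a) ℓ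
    · right
      rw [hD0 b, mul_zero]
      intro hb
      rw [mem_closedBall, dist_eq_norm] at ha hb
      have h3 := hG.sep a b hab
      have h4 : ‖y a - y b‖ ≤ ‖x i - y a‖ + ‖x i - y b‖ := by
        have : y a - y b = (x i - y b) - (x i - y a) := by abel
        rw [this, add_comm]
        exact norm_sub_le _ _
      have := hG.ℓpos
      linarith
    · left
      rw [hD0 a ha, mul_zero]

end split

end

end Pool.Agent.H.MP_d1ae63_mp.Up
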