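import Pool.Agent.H.MP_d1ae63_mp.Defs

set_option autoImplicit false

open MeasureTheory Filter Topology Metric
open scoped ENNReal Real

namespace Pool.Agent.H.MP_d1ae63_mp.Up

noncomputable section

theorem vp_uncurry (N : ℕ) :
    MeasurePreserving (fun f : Fin N → Fin 3 → ℝ => (Sigma.uncurry f : (_ : Fin N) × Fin 3 → ℝ))
      volume volume := by
  have hm : Measurable (fun f : Fin N → Fin 3 → ℝ =>
      (Sigma.uncurry f : (_ : Fin N) × Fin 3 → ℝ)) := by
    rw [measurable_pi_iff]
    intro p
    exact (measurable_pi_apply p.2).comp (measurable_pi_apply p.1)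
  refine ⟨hm, ?_⟩
  rw [MeasureTheory.volume_pi (ι := (_ : Fin N) × Fin 3)]
  symm
  refine Measure.pi_eq fun s hs => ?_
  rw [Measure.map_apply hm (MeasurableSet.univ_pi hs)]
  have h1 : (fun f : Fin N → Fin 3 → ℝ => (Sigma.uncurry f : (_ : Fin N) × Fin 3 → ℝ)) ⁻¹'
      (Set.pi Set.univ s) = Set.pi Set.univ (fun i : Fin N =>
        Set.pi Set.univ (fun j : Fin 3 => s ⟨i, j⟩)) := by
    ext f
    simp only [Set.mem_preimage, Set.mem_pi, Set.mem_univ, true_imp_iff]
    constructor
    · intro h i j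
      exact h ⟨i, j⟩
    · intro h p
      exact h p.1 p.2
  rw [h1, MeasureTheory.volume_pi, Measure.pi_pi, Fintype.prod_sigma]
  refine Finset.prod_congr rfl fun i _ => ?_
  rw [MeasureTheory.volume_pi, Measure.pi_pi]

theorem vp_toLp (N : ℕ) :
    MeasurePreserving (fun f : Fin N → E3 => (WithLp.toLp 2 f : Conf N)) volume volume := by
  have hA : MeasurePreserving (fun (f : Fin N → E3) (i : Fin N) => (WithLp.ofLp (f i) : Fin 3 → ℝ))
      volume volume :=
    volume_preserving_pi (fun _ => PiLp.volume_preserving_ofLp (Fin 3))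
  have hB := vp_uncurry N
  have hC : MeasurePreserving (fun f : ((_ : Fin N) × Fin 3 → ℝ) =>
      (WithLp.toLp 2 f : EuclideanSpace ℝ ((_ : Fin N) × Fin 3))) volume volume :=
    PiLp.volume_preserving_toLp _
  have hD := (LinearIsometryEquiv.piLpCurry (ι := Fin N) (κ := fun _ => Fin 3) ℝ 2
    (fun _ _ => ℝ)).measurePreserving
  exact hD.comp (hC.comp (hB.comp hA))

/-- forgetting the Euclidean structure is volume preserving -/
theorem vp_conf (N : ℕ) :
    MeasurePreserving (fun x : Conf N => (WithLp.ofLp x : Fin N → E3)) volume volume := by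
  have h : MeasurePreserving (MeasurableEquiv.toLp 2 (Fin N → E3)) volume volume := vp_toLp N
  exact h.symm

theorem integral_conf {N : ℕ} (F : (Fin N → E3) → ℝ) :
    ∫ x : Conf N, F (fun l => x l) = ∫ x : Fin N → E3, F x := by
  have h := (vp_conf N).integral_comp
    (MeasurableEquiv.toLp 2 (Fin N → E3)).symm.measurableEmbedding F
  exact h

theorem lintegral_conf {N : ℕ} (F : (Fin N → E3) → ℝ≥0∞) :
    ∫⁻ x : Conf N, F (fun l => x l) = ∫⁻ x : Fin N → E3, F x := by
  have h := (vp_conf N).lintegral_comp_emb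
    (MeasurableEquiv.toLp 2 (Fin N → E3)).symm.measurableEmbedding F
  exact h

end

end Pool.Agent.H.MP_d1ae63_mp.Up
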