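import Pool.Agent.H.MP_d1ae63_mp.UpperDeriv
import Pool.Agent.H.MP_d1ae63_mp.UpperVol

set_option autoImplicit false

open MeasureTheory Filter Topology Metric
open scoped ENNReal Real SchwartzMap

namespace Pool.Agent.H.MP_d1ae63_mp.Up

noncomputable section

theorem lintegral_sq_le {N : ℕ} (g : 𝓢(Conf N, ℂ)) (b : (Fin N → E3) → ℝ) (hb : Integrable b)
    (h : ∀ x : Conf N, ‖g x‖ ^ 2 ≤ b (fun l => x l)) :
    ∫⁻ x : Conf N, ‖g x‖ₑ ^ 2 ≤ ENNReal.ofReal (∫ x : Fin N → E3, b x) := by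
  have hb0 : ∀ x : Fin N → E3, 0 ≤ b x := by
    intro x
    exact (sq_nonneg _).trans (h (WithLp.toLp 2 x))
  rw [ofReal_integral_eq_lintegral_ofReal hb (Eventually.of_forall hb0), ← lintegral_conf]
  refine lintegral_mono fun x => ?_
  rw [enorm_sq_eq]
  exact ENNReal.ofReal_le_ofReal (h x)

section smooth

variable {κ : Type*} [Fintype κ] {N : ℕ} {φ : E3 → ℝ} {bs : κ → E3 → ℝ}

theorem trial_smooth (hφ : Smo φ) (hb : ∀ a, Smo (bs a)) (θ : ℝ) (e : Fin N → Bool) :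
    Smo (fun x : Fin N → E3 => trial φ bs θ e x) := by
  unfold trial Smo at *
  refine ContDiff.mul (contDiff_prod fun l _ => ?_) (contDiff_prod fun a _ => ?_)
  · exact hφ.comp (contDiff_apply ℝ E3 l)
  · refine Real.contDiff_cos.comp (contDiff_const.mul ?_)
    refine ContDiff.sum fun l _ => contDiff_const.mul ?_
    exact (hb a).comp (contDiff_apply ℝ E3 l)

theorem trial0_smooth (hφ : Smo φ) (hb : ∀ a, Smo (bs a)) (θ : ℝ) (e : Fin N → Bool)
    (i : Fin N) : Smo (fun x : Fin N → E3 => trial0 φ bs θ e i x) := by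
  unfold trial0 rest qq Smo at *
  refine ContDiff.mul (ContDiff.mul (contDiff_prod fun l _ => ?_) (contDiff_prod fun a _ => ?_)) ?_
  · exact hφ.comp (contDiff_apply ℝ E3 l)
  · refine Real.contDiff_cos.comp (contDiff_const.mul ?_)
    refine ContDiff.sum fun l _ => contDiff_const.mul ?_
    exact (hb a).comp (contDiff_apply ℝ E3 l)
  · exact hφ.comp (contDiff_apply ℝ E3 i)

theorem trial1_smooth (hφ : Smo φ) (hb : ∀ a, Smo (bs a)) (θ : ℝ) (e : Fin N → Bool)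
    (i : Fin N) : Smo (fun x : Fin N → E3 => trial1 φ bs θ e i x) := by
  have h1 : (fun x : Fin N → E3 => trial1 φ bs θ e i x) =
      fun x => trial φ bs θ e x - trial0 φ bs θ e i x := by
    ext x
    rw [trial_eq φ bs θ e i x]
    ring
  rw [h1]
  exact (trial_smooth hφ hb θ e).sub (trial0_smooth hφ hb θ e i)

theorem cpt_of_zero {r : ℝ} {F : (Fin N → E3) → ℝ}
    (h : ∀ x, (∃ l, x l ∉ ball (0 : E3) r) → F x = 0) : HasCompactSupport F := by
  refine HasCompactSupport.intro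
    (isCompact_univ_pi (fun _ : Fin N => isCompact_closedBall (0 : E3) r)) fun x hx => ?_
  refine h x ?_
  simp only [Set.mem_pi, Set.mem_univ, true_imp_iff, not_forall] at hx
  obtain ⟨l, hl⟩ := hx
  exact ⟨l, fun h => hl (ball_subset_closedBall h)⟩

theorem trial0_zero {r : ℝ} (hφ : ∀ u, u ∉ ball (0 : E3) r → φ u = 0) (θ : ℝ)
    (e : Fin N → Bool) (i : Fin N) (x : Fin N → E3) (hx : ∃ l, x l ∉ ball (0 : E3) r) :
    trial0 φ bs θ e i x = 0 := by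
  obtain ⟨l, hl⟩ := hx
  unfold trial0 rest
  by_cases h : l = i
  · subst h
    rw [hφ _ hl, mul_zero]
  · rw [Finset.prod_eq_zero (Finset.mem_erase.mpr ⟨h, Finset.mem_univ l⟩) (hφ _ hl)]
    simp

theorem trial1_zero {r : ℝ} (hφ : ∀ u, u ∉ ball (0 : E3) r → φ u = 0) (θ : ℝ)
    (e : Fin N → Bool) (i : Fin N) (x : Fin N → E3) (hx : ∃ l, x l ∉ ball (0 : E3) r) :
    trial1 φ bs θ e i x = 0 := by
  obtain ⟨l, hl⟩ := hx
  unfold trial1 rest
  by_cases h : l = i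
  · subst h
    rw [hφ _ hl]
    simp
  · rw [Finset.prod_eq_zero (Finset.mem_erase.mpr ⟨h, Finset.mem_univ l⟩) (hφ _ hl)]
    simp

theorem trial_zero' {r : ℝ} (hφ : ∀ u, u ∉ ball (0 : E3) r → φ u = 0) (θ : ℝ)
    (e : Fin N → Bool) (x : Fin N → E3) (hx : ∃ l, x l ∉ ball (0 : E3) r) :
    trial φ bs θ e x = 0 := by
  obtain ⟨l, hl⟩ := hx
  unfold trial
  rw [Finset.prod_eq_zero (Finset.mem_univ l) (hφ _ hl), zero_mul]

end smooth

section energy

variable {κ : Type*} [Fintype κ] [DecidableEq κ] {N : ℕ} {R β ℓ : ℝ} {y : κ → E3}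

/-- the trial function as a Schwartz function -/
def tS (hG : Geo R β ℓ y) (θ : ℝ) (e : Fin N → Bool) : 𝓢(Conf N, ℂ) :=
  mkS (fun x => trial (phi R β) (cell ℓ y) θ e x)
    (trial_smooth (phi_smooth R β) (cell_smooth ℓ y) θ e)
    (cpt_of_zero (trial_zero' (geo_cells hG).φs θ e))

/-- slow part as a Schwartz function -/
def tS0 (hG : Geo R β ℓ y) (θ : ℝ) (e : Fin N → Bool) (i : Fin N) : 𝓢(Conf N, ℂ) :=
  mkS (fun x => trial0 (phi R β) (cell ℓ y) θ e i x)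
    (trial0_smooth (phi_smooth R β) (cell_smooth ℓ y) θ e i)
    (cpt_of_zero (trial0_zero (geo_cells hG).φs θ e i))

/-- correlation part as a Schwartz function -/
def tS1 (hG : Geo R β ℓ y) (θ : ℝ) (e : Fin N → Bool) (i : Fin N) : 𝓢(Conf N, ℂ) :=
  mkS (fun x => trial1 (phi R β) (cell ℓ y) θ e i x)
    (trial1_smooth (phi_smooth R β) (cell_smooth ℓ y) θ e i)
    (cpt_of_zero (trial1_zero (geo_cells hG).φs θ e i))

omit [DecidableEq κ] in
theorem tS_eq (hG : Geo R β ℓ y) (θ : ℝ) (e : Fin N → Bool) (i : Fin N) :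
    tS hG θ e = tS0 hG θ e i + tS1 hG θ e i := by
  ext x
  show ((trial (phi R β) (cell ℓ y) θ e (fun l => x l) : ℝ) : ℂ) =
    ((trial0 (phi R β) (cell ℓ y) θ e i (fun l => x l) : ℝ) : ℂ) +
      ((trial1 (phi R β) (cell ℓ y) θ e i (fun l => x l) : ℝ) : ℂ)
  rw [trial_eq _ _ θ e i]
  push_cast
  rfl

/-- one-body function bounding the slow part -/
def h0 (R β : ℝ) (n : ℕ) (u : E3) : ℝ :=
  β ^ 2 * (R⁻¹ ^ n) ^ 2 * ‖iteratedFDeriv ℝ n chi (R⁻¹ • u)‖ ^ 2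

/-- one-body function bounding the correlation part in the cell `a` -/
def h1 (β ℓ θ C : ℝ) (y : κ → E3) (n : ℕ) (a : κ) (u : E3) : ℝ :=
  β ^ 2 * (ℓ⁻¹ ^ n) ^ 2 * (C * θ) ^ 2 * (closedBall (y a) ℓ).indicator (fun _ => (1 : ℝ)) u

theorem h0_int (hR : 0 < R) (n : ℕ) : Integrable (h0 R β n) := by
  unfold h0
  have h2 : Continuous fun u : E3 => ‖iteratedFDeriv ℝ n chi (R⁻¹ • u)‖ ^ 2 := by
    have h3 : Continuous (iteratedFDeriv ℝ n (chi : E3 → ℝ)) :=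
      chi_smooth.continuous_iteratedFDeriv (mod_cast le_top)
    exact ((h3.comp (continuous_const_smul _)).norm).pow 2
  refine (Continuous.integrable_of_hasCompactSupport h2 ?_).const_mul _
  have h4 : HasCompactSupport (iteratedFDeriv ℝ n (chi : E3 → ℝ)) :=
    chi.hasCompactSupport.iteratedFDeriv n
  have h5 : HasCompactSupport (fun u : E3 => iteratedFDeriv ℝ n (chi : E3 → ℝ) (R⁻¹ • u)) :=
    h4.comp_smul (by positivity)
  exact h5.comp_left (g := fun v => ‖v‖ ^ 2) (by simp)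

theorem h0_val (hR : 0 < R) (n : ℕ) : ∫ u, h0 R β n u =
    β ^ 2 * R ^ 3 * (R⁻¹ ^ n) ^ 2 * ∫ u : E3, ‖iteratedFDeriv ℝ n (chi : E3 → ℝ) u‖ ^ 2 := by
  unfold h0
  rw [integral_const_mul]
  have h1 := Measure.integral_comp_inv_smul (volume : Measure E3)
    (fun u : E3 => ‖iteratedFDeriv ℝ n (chi : E3 → ℝ) u‖ ^ 2) R
  rw [h1]
  have h2 : Module.finrank ℝ E3 = 3 := by simp
  rw [h2, abs_of_pos (by positivity), smul_eq_mul]
  ring

omit [Fintype κ] [DecidableEq κ] in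
theorem h1_int (C θ : ℝ) (n : ℕ) (a : κ) : Integrable (h1 β ℓ θ C y n a) := by
  unfold h1
  refine Integrable.const_mul ?_ _
  exact (integrable_indicator_iff measurableSet_closedBall).mpr
    (integrableOn_const (measure_closedBall_lt_top).ne)

omit [Fintype κ] [DecidableEq κ] in
theorem h1_val (hℓ : 0 < ℓ) (C θ : ℝ) (n : ℕ) (a : κ) : ∫ u, h1 β ℓ θ C y n a u =
    β ^ 2 * ℓ ^ 3 * (ℓ⁻¹ ^ n) ^ 2 * (C * θ) ^ 2 *
      (volume : Measure E3).real (closedBall (0 : E3) 1) := by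
  unfold h1
  rw [integral_const_mul, integral_indicator_const _ measurableSet_closedBall]
  have h2 : Module.finrank ℝ E3 = 3 := by simp
  have h3 : (volume : Measure E3).real (closedBall (y a) ℓ) =
      ℓ ^ 3 * (volume : Measure E3).real (closedBall (0 : E3) 1) := by
    unfold Measure.real
    rw [Measure.addHaar_closedBall' volume (y a) hℓ.le, h2, ENNReal.toReal_mul,
      ENNReal.toReal_ofReal (by positivity)]
  rw [h3, smul_eq_mul, mul_one]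
  ring

theorem lineAt_zero (i : Fin N) (l : Fin 3) (x : Fin N → E3) : lineAt i l x 0 = x := by
  unfold lineAt
  simp

/-- integral bound of the slow part -/
def J0 (κ : Type*) [Fintype κ] (R β ℓ θ : ℝ) (y : κ → E3) (e : Fin N → Bool) (i : Fin N)
    (n : ℕ) : ℝ :=
  ∫ x : Fin N → E3, (h0 R β n (x i) * ∏ j ∈ Finset.univ.erase i, phi R β (x j) ^ 2) *
    ∏ a : κ, Real.cos (θ * ∑ l ∈ Finset.univ.erase i, sgn (e l) * cell ℓ y a (x l)) ^ 2

/-- integral bound of the correlation part -/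
def J1 (R β ℓ θ C : ℝ) (y : κ → E3) (e : Fin N → Bool) (i : Fin N) (n : ℕ) : ℝ :=
  ∑ a, ∫ x : Fin N → E3, (h1 β ℓ θ C y n a (x i) *
      ∏ j ∈ Finset.univ.erase i, phi R β (x j) ^ 2) *
    ∏ b ∈ Finset.univ.erase a,
      Real.cos (θ * ∑ l ∈ Finset.univ.erase i, sgn (e l) * cell ℓ y b (x l)) ^ 2

omit [Fintype κ] [DecidableEq κ] in
/-- integrability of the bounds -/
theorem bound_int (hG : Geo R β ℓ y) (A : Finset κ) (θ : ℝ) (e : Fin N → Bool) (i : Fin N)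
    (h : E3 → ℝ) (hh : Integrable h) :
    Integrable (fun x : Fin N → E3 => (h (x i) * ∏ j ∈ Finset.univ.erase i, phi R β (x j) ^ 2) *
      ∏ a ∈ A, Real.cos (θ * ∑ l ∈ Finset.univ.erase i, sgn (e l) * cell ℓ y a (x l)) ^ 2)
      volume := by
  have hC : Cells κ (phi R β) (cell ℓ y) (3 * R) ℓ := geo_cells hG
  have h1 := gen_integrable A θ e (fun l u => if l = i then h u else phi R β u ^ 2)
    (fun l => by by_cases hl : l = i <;> simp [hl, hh, hC.φ2_int])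
    (fun l a u => if l = i then 0 else cell ℓ y a u)
    (fun l a => by by_cases hl : l = i <;> simp [hl, hC.bc a, continuous_const])
  have e1 : ∀ x : Fin N → E3, (∏ l, (if l = i then h (x l) else phi R β (x l) ^ 2)) =
      h (x i) * ∏ l ∈ Finset.univ.erase i, phi R β (x l) ^ 2 := by
    intro x
    rw [← Finset.mul_prod_erase Finset.univ _ (Finset.mem_univ i), if_pos rfl]
    congr 1
    exact Finset.prod_congr rfl fun l hl => by rw [if_neg (Finset.ne_of_mem_erase hl)]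
  have e2 : ∀ (x : Fin N → E3) (a : κ),
      (∑ l, sgn (e l) * (if l = i then 0 else cell ℓ y a (x l))) =
      ∑ l ∈ Finset.univ.erase i, sgn (e l) * cell ℓ y a (x l) := by
    intro x a
    rw [← Finset.add_sum_erase Finset.univ _ (Finset.mem_univ i), if_pos rfl, mul_zero, zero_add]
    exact Finset.sum_congr rfl fun l hl => by rw [if_neg (Finset.ne_of_mem_erase hl)]
  simp only [e1, e2] at h1
  exact h1

omit [DecidableEq κ] in
theorem K0_dn (hG : Geo R β ℓ y) (θ : ℝ) (e : Fin N → Bool) (i : Fin N) (l : Fin 3) (n : ℕ) :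
    ∫⁻ x : Conf N, ‖dn (bvec i l) n (tS0 hG θ e i) x‖ₑ ^ 2 ≤
      ENNReal.ofReal (J0 κ R β ℓ θ y e i n) := by
  refine lintegral_sq_le _ _ (bound_int hG Finset.univ θ e i _ (h0_int hG.Rpos n)) fun x => ?_
  unfold tS0
  rw [norm_dn_mkS]
  exact trial0_deriv_sq hG.Rpos (cell ℓ y) θ e i l n (fun j => x j)

omit [DecidableEq κ] in
theorem K0_zero (hG : Geo R β ℓ y) (θ : ℝ) (e : Fin N → Bool) (i : Fin N) :
    ∫⁻ x : Conf N, ‖tS0 hG θ e i x‖ₑ ^ 2 ≤ ENNReal.ofReal (J0 κ R β ℓ θ y e i 0) := by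
  refine lintegral_sq_le _ _ (bound_int hG Finset.univ θ e i _ (h0_int hG.Rpos 0)) fun x => ?_
  have h := trial0_deriv_sq hG.Rpos (β := β) (cell ℓ y) θ e i 0 0 (fun j => x j)
  rw [iteratedDeriv_zero, lineAt_zero] at h
  unfold tS0
  rw [mkS_apply, Complex.norm_real, Real.norm_eq_abs]
  exact h

theorem K1_dn (hG : Geo R β ℓ y) {n : ℕ} {C : ℝ}
    (hC : ∀ θ q ε : ℝ, 0 ≤ θ → θ ≤ 1 → |ε| ≤ 1 → ∀ y : E3,
      ‖iteratedFDeriv ℝ n (fun y : E3 => Real.cos (θ * (q + ε * bb y)) - Real.cos (θ * q)) y‖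
        ≤ C * θ) {θ : ℝ} (hθ0 : 0 ≤ θ) (hθ1 : θ ≤ 1) (e : Fin N → Bool) (i : Fin N) (l : Fin 3) :
    ∫⁻ x : Conf N, ‖dn (bvec i l) n (tS1 hG θ e i) x‖ₑ ^ 2 ≤
      ENNReal.ofReal (J1 R β ℓ θ C y e i n) := by
  unfold J1
  rw [← integral_finsetSum _ (fun a _ => bound_int hG _ θ e i _ (h1_int C θ n a))]
  refine lintegral_sq_le _ _ (integrable_finsetSum _ fun a _ =>
    bound_int hG _ θ e i _ (h1_int C θ n a)) fun x => ?_
  unfold tS1
  rw [norm_dn_mkS]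
  exact trial1_deriv_sq hG hC hθ0 hθ1 e i l (fun j => x j)

theorem K1_zero (hG : Geo R β ℓ y) {C : ℝ}
    (hC : ∀ θ q ε : ℝ, 0 ≤ θ → θ ≤ 1 → |ε| ≤ 1 → ∀ y : E3,
      ‖iteratedFDeriv ℝ 0 (fun y : E3 => Real.cos (θ * (q + ε * bb y)) - Real.cos (θ * q)) y‖
        ≤ C * θ) {θ : ℝ} (hθ0 : 0 ≤ θ) (hθ1 : θ ≤ 1) (e : Fin N → Bool) (i : Fin N) :
    ∫⁻ x : Conf N, ‖tS1 hG θ e i x‖ₑ ^ 2 ≤ ENNReal.ofReal (J1 R β ℓ θ C y e i 0) := by
  unfold J1
  rw [← integral_finsetSum _ (fun a _ => bound_int hG _ θ e i _ (h1_int C θ 0 a))]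
  refine lintegral_sq_le _ _ (integrable_finsetSum _ fun a _ =>
    bound_int hG _ θ e i _ (h1_int C θ 0 a)) fun x => ?_
  have h := trial1_deriv_sq hG hC hθ0 hθ1 e i 0 (fun j => x j)
  rw [iteratedDeriv_zero, lineAt_zero] at h
  unfold tS1
  rw [mkS_apply, Complex.norm_real, Real.norm_eq_abs]
  exact h

theorem J0_sum (hG : Geo R β ℓ y) (θ : ℝ) (i : Fin N) (n : ℕ) :
    ∑ e : Fin N → Bool, J0 κ R β ℓ θ y e i n =
      2 ^ N * ((∫ u, h0 R β n u) * SS (tau (phi R β) (cell ℓ y) θ) (N - 1)) :=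
  K_sum (geo_cells hG) Finset.univ θ N i _ (h0_int hG.Rpos n)

theorem J1_sum (hG : Geo R β ℓ y) (θ C : ℝ) (i : Fin N) (n : ℕ) :
    ∑ e : Fin N → Bool, J1 R β ℓ θ C y e i n =
      ∑ a, 2 ^ N * ((∫ u, h1 β ℓ θ C y n a u) *
        SA (tau (phi R β) (cell ℓ y) θ) a (N - 1)) := by
  unfold J1
  rw [Finset.sum_comm]
  refine Finset.sum_congr rfl fun a _ => ?_
  exact K_sum (geo_cells hG) (Finset.univ.erase a) θ N i _ (h1_int C θ n a)

/-- real bound for the kinetic energy of particle `i` -/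
def KB (κ : Type*) [Fintype κ] [DecidableEq κ] (α R β ℓ θ C : ℝ) (y : κ → E3) (n : ℕ)
    (e : Fin N → Bool) (i : Fin N) : ℝ :=
  2 * ((R⁻¹) ^ α * (J0 κ R β ℓ θ y e i 0 + 3 ^ n * ((R⁻¹) ^ (2 * n))⁻¹ *
      (3 * J0 κ R β ℓ θ y e i n))) +
  2 * ((ℓ⁻¹) ^ α * (J1 R β ℓ θ C y e i 0 + 3 ^ n * ((ℓ⁻¹) ^ (2 * n))⁻¹ *
      (3 * J1 R β ℓ θ C y e i n)))

omit [DecidableEq κ] in
theorem J0_nonneg (R β ℓ θ : ℝ) (y : κ → E3) (e : Fin N → Bool) (i : Fin N) (n : ℕ) :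
    0 ≤ J0 κ R β ℓ θ y e i n := by
  unfold J0 h0
  refine integral_nonneg fun x => ?_
  refine mul_nonneg (mul_nonneg (by positivity) ?_) ?_
  · exact Finset.prod_nonneg fun _ _ => sq_nonneg _
  · exact Finset.prod_nonneg fun _ _ => sq_nonneg _

theorem J1_nonneg (R β ℓ θ C : ℝ) (y : κ → E3) (e : Fin N → Bool) (i : Fin N) (n : ℕ) :
    0 ≤ J1 R β ℓ θ C y e i n := by
  unfold J1 h1
  refine Finset.sum_nonneg fun a _ => integral_nonneg fun x => ?_
  refine mul_nonneg (mul_nonneg (mul_nonneg (by positivity) ?_) ?_) ?_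
  · exact Set.indicator_nonneg (fun _ _ => zero_le_one) _
  · exact Finset.prod_nonneg fun _ _ => sq_nonneg _
  · exact Finset.prod_nonneg fun _ _ => sq_nonneg _

theorem kin_helper {N : ℕ} {α A : ℝ} (hα : 0 ≤ α) (n : ℕ) (hn : α ≤ 2 * n) (hA : 0 < A)
    (i : Fin N) (f : 𝓢(Conf N, ℂ)) {a b : ℝ} (ha : 0 ≤ a) (hb : 0 ≤ b)
    (h1 : ∫⁻ x : Conf N, ‖f x‖ₑ ^ 2 ≤ ENNReal.ofReal a)
    (h2 : ∀ l, ∫⁻ x : Conf N, ‖dn (bvec i l) n f x‖ₑ ^ 2 ≤ ENNReal.ofReal b) :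
    kineticAt α i (f.toLp 2 : WaveFn N) ≤
      ENNReal.ofReal (A ^ α * (a + 3 ^ n * (A ^ (2 * n))⁻¹ * (3 * b))) := by
  refine (kineticAt_toLp_le hα n hn hA i f).trans ?_
  rw [ENNReal.ofReal_mul (p := A ^ α) (by positivity)]
  refine mul_le_mul_right ?_ _
  rw [ENNReal.ofReal_add ha (by positivity),
    ENNReal.ofReal_mul (p := 3 ^ n * (A ^ (2 * n))⁻¹) (by positivity)]
  refine add_le_add h1 (mul_le_mul_right ?_ _)
  calc ∑ l : Fin 3, ∫⁻ x : Conf N, ‖dn (bvec i l) n f x‖ₑ ^ 2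
      ≤ ∑ _l : Fin 3, ENNReal.ofReal b := Finset.sum_le_sum fun l _ => h2 l
    _ = ENNReal.ofReal (3 * b) := by
      rw [Finset.sum_const, Finset.card_univ, Fintype.card_fin, nsmul_eq_mul,
        ENNReal.ofReal_mul (by norm_num)]
      simp

theorem kinAt_le (hG : Geo R β ℓ y) {n : ℕ} {C : ℝ}
    (hC0 : ∀ θ q ε : ℝ, 0 ≤ θ → θ ≤ 1 → |ε| ≤ 1 → ∀ y : E3,
      ‖iteratedFDeriv ℝ 0 (fun y : E3 => Real.cos (θ * (q + ε * bb y)) - Real.cos (θ * q)) y‖
        ≤ C * θ)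
    (hC : ∀ θ q ε : ℝ, 0 ≤ θ → θ ≤ 1 → |ε| ≤ 1 → ∀ y : E3,
      ‖iteratedFDeriv ℝ n (fun y : E3 => Real.cos (θ * (q + ε * bb y)) - Real.cos (θ * q)) y‖
        ≤ C * θ) {θ : ℝ} (hθ0 : 0 ≤ θ) (hθ1 : θ ≤ 1) {α : ℝ} (hα : 0 ≤ α) (hn : α ≤ 2 * n)
    (e : Fin N → Bool) (i : Fin N) :
    kineticAt α i ((tS hG θ e).toLp 2 : WaveFn N) ≤
      ENNReal.ofReal (KB κ α R β ℓ θ C y n e i) := by
  rw [tS_eq hG θ e i]
  refine (kineticAt_add_le i _ _).trans ?_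
  have hR : 0 < R⁻¹ := inv_pos.mpr hG.Rpos
  have hl : 0 < ℓ⁻¹ := inv_pos.mpr hG.ℓpos
  have k0 := kin_helper hα n hn hR i (tS0 hG θ e i) (J0_nonneg R β ℓ θ y e i 0)
    (J0_nonneg R β ℓ θ y e i n) (K0_zero hG θ e i) (fun l => K0_dn hG θ e i l n)
  have k1 := kin_helper hα n hn hl i (tS1 hG θ e i) (J1_nonneg R β ℓ θ C y e i 0)
    (J1_nonneg R β ℓ θ C y e i n) (K1_zero hG hC0 hθ0 hθ1 e i)
    (fun l => K1_dn hG hC hθ0 hθ1 e i l)
  have n0 := J0_nonneg R β ℓ θ y e i 0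
  have n1 := J0_nonneg R β ℓ θ y e i n
  have n2 := J1_nonneg R β ℓ θ C y e i 0
  have n3 := J1_nonneg R β ℓ θ C y e i n
  have e2 : (2 : ℝ≥0∞) = ENNReal.ofReal 2 := by simp
  unfold KB
  rw [ENNReal.ofReal_add (by positivity) (by positivity), ENNReal.ofReal_mul (by norm_num),
    ENNReal.ofReal_mul (p := 2) (q := ℓ⁻¹ ^ α * _) (by norm_num), ← e2]
  gcongr

/-- constants -/
def Ichi : ℝ := ∫ u : E3, chi u ^ 2

/-- constants -/
def En (n : ℕ) : ℝ := ∫ u : E3, ‖iteratedFDeriv ℝ n (chi : E3 → ℝ) u‖ ^ 2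

/-- volume of the unit ball -/
def v1 : ℝ := (volume : Measure E3).real (closedBall (0 : E3) 1)

theorem KB_sum (hG : Geo R β ℓ y) (α θ C : ℝ) (n : ℕ) (i : Fin N) :
    ∑ e : Fin N → Bool, KB κ α R β ℓ θ C y n e i =
      2 ^ N * (2 * ((R⁻¹) ^ α * (β ^ 2 * R ^ 3 * (En 0 + 3 ^ n * (3 * En n)) *
          SS (tau (phi R β) (cell ℓ y) θ) (N - 1))) +
        2 * ((ℓ⁻¹) ^ α * (β ^ 2 * ℓ ^ 3 * (C * θ) ^ 2 * v1 * (1 + 3 ^ n * 3) *
          ∑ a, SA (tau (phi R β) (cell ℓ y) θ) a (N - 1)))) := by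
  unfold KB
  have hR := hG.Rpos
  have hℓ := hG.ℓpos
  simp_rw [mul_add]
  simp_rw [Finset.sum_add_distrib, ← Finset.mul_sum]
  rw [J0_sum hG, J0_sum hG, J1_sum hG, J1_sum hG]
  simp_rw [h0_val hR, h1_val hℓ, ← Finset.mul_sum]
  have e1 : ((R⁻¹ : ℝ) ^ (2 * n))⁻¹ * ((R⁻¹) ^ n) ^ 2 = 1 := by
    rw [← pow_mul, Nat.mul_comm n 2]
    exact inv_mul_cancel₀ (by positivity)
  have e2 : ((ℓ⁻¹ : ℝ) ^ (2 * n))⁻¹ * ((ℓ⁻¹) ^ n) ^ 2 = 1 := by
    rw [← pow_mul, Nat.mul_comm n 2]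
    exact inv_mul_cancel₀ (by positivity)
  unfold En v1
  simp only [pow_zero, one_pow, mul_one]
  linear_combination (2 ^ N * 2 * (R⁻¹) ^ α * 3 ^ n * 3 * β ^ 2 * R ^ 3 *
    (∫ u : E3, ‖iteratedFDeriv ℝ n (chi : E3 → ℝ) u‖ ^ 2) *
    SS (tau (phi R β) (cell ℓ y) θ) (N - 1)) * e1 +
    (2 ^ N * 2 * (ℓ⁻¹) ^ α * 3 ^ n * 3 * β ^ 2 * ℓ ^ 3 * (C * θ) ^ 2 *
    (volume : Measure E3).real (closedBall (0 : E3) 1) *
    ∑ a, SA (tau (phi R β) (cell ℓ y) θ) a (N - 1)) * e2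

omit [Fintype κ] [DecidableEq κ] in
theorem cell_integral (hG : Geo R β ℓ y) (F : ℝ → ℝ) (hF0 : F 0 = 0) (a : κ) :
    ∫ u, phi R β u ^ 2 * F (cell ℓ y a u) = β ^ 2 * ℓ ^ 3 * ∫ u : E3, F (bb u) := by
  have h1 : ∀ u, phi R β u ^ 2 * F (cell ℓ y a u) = β ^ 2 * F (bb (ℓ⁻¹ • (u - y a))) := by
    intro u
    by_cases h : cell ℓ y a u = 0
    · have : bb (ℓ⁻¹ • (u - y a)) = 0 := h
      rw [h, this, hF0]
      ring
    · rw [phi_flat hG (cell_ne hG h).le]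
      rfl
  simp_rw [h1]
  rw [integral_const_mul, integral_sub_right_eq_self (fun u : E3 => F (bb (ℓ⁻¹ • u))) (y a)]
  have h1 := Measure.integral_comp_inv_smul (volume : Measure E3) (fun u : E3 => F (bb u)) ℓ
  rw [h1]
  have h2 : Module.finrank ℝ E3 = 3 := by simp
  rw [h2, abs_of_pos (by have := hG.ℓpos; positivity), smul_eq_mul]
  ring

/-- first moment of the small bump -/
def m1 : ℝ := ∫ u : E3, bb u

theorem bb_int : Integrable (fun u : E3 => bb u) :=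
  bb.continuous.integrable_of_hasCompactSupport bb.hasCompactSupport

theorem m1_pos : 0 < m1 := by
  unfold m1
  exact Continuous.integral_pos_of_hasCompactSupport_nonneg_nonzero bb.continuous
    bb.hasCompactSupport (fun _ => bb.nonneg) (x := 0) (bb.pos_of_mem_ball (by simp [bb])).ne'

theorem Ichi_pos : 0 < Ichi := by
  unfold Ichi
  refine Continuous.integral_pos_of_hasCompactSupport_nonneg_nonzero (x := 0)
    (chi.continuous.pow 2) ?_ (fun _ => sq_nonneg _) ?_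
  · exact chi.hasCompactSupport.comp_left (g := fun t : ℝ => t ^ 2) (by simp)
  · have : chi (0 : E3) = 1 := chi_one 0 (by simp)
    simp [this]

theorem v1_nonneg : 0 ≤ v1 := measureReal_nonneg

omit [Fintype κ] [DecidableEq κ] in
theorem tau_nonneg (φ : E3 → ℝ) (bs : κ → E3 → ℝ) (θ : ℝ) (a : κ) : 0 ≤ tau φ bs θ a := by
  unfold tau
  refine integral_nonneg fun u => mul_nonneg (sq_nonneg _) ?_
  have := Real.cos_le_one (2 * θ * bs a u)
  linarith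

omit [Fintype κ] [DecidableEq κ] in
theorem tau_le (hG : Geo R β ℓ y) (θ : ℝ) (a : κ) :
    tau (phi R β) (cell ℓ y) θ a ≤ β ^ 2 * ℓ ^ 3 * (2 * θ ^ 2 * m1) := by
  unfold tau
  have h := cell_integral hG (fun t => 1 - Real.cos (2 * θ * t)) (by simp) a
  rw [h]
  refine mul_le_mul_of_nonneg_left ?_ (by have := hG.ℓpos; positivity)
  unfold m1
  rw [← integral_const_mul]
  refine integral_mono_of_nonneg (Eventually.of_forall fun u => ?_) (bb_int.const_mul _)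
    (Eventually.of_forall fun u => ?_)
  · have := Real.cos_le_one (2 * θ * bb u)
    simp only [Pi.zero_apply]
    linarith
  · have h1 := Real.one_sub_sq_div_two_le_cos (x := 2 * θ * bb u)
    have h2 : (0 : ℝ) ≤ bb u := bb.nonneg
    have h3 : bb u ≤ 1 := bb.le_one
    simp only
    have h4 : bb u ^ 2 ≤ bb u := by nlinarith
    have h5 : θ ^ 2 * bb u ^ 2 ≤ θ ^ 2 * bb u := mul_le_mul_of_nonneg_left h4 (sq_nonneg _)
    nlinarith

omit [Fintype κ] [DecidableEq κ] in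
theorem mm_ge (hG : Geo R β ℓ y) {θ : ℝ} (h0 : 0 ≤ θ) (h1 : θ ≤ 1 / 4) (a : κ) :
    β ^ 2 * ℓ ^ 3 * (θ * m1) ≤ mm (phi R β) (cell ℓ y) θ a := by
  unfold mm
  have h := cell_integral hG (fun t => Real.sin (2 * θ * t)) (by simp) a
  rw [h]
  refine mul_le_mul_of_nonneg_left ?_ (by have := hG.ℓpos; positivity)
  unfold m1
  rw [← integral_const_mul]
  refine integral_mono (bb_int.const_mul _) ?_ fun u => ?_
  · have hc : Continuous fun u : E3 => Real.sin (2 * θ * bb u) := by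
      have := bb.continuous (E := E3)
      fun_prop
    refine hc.integrable_of_hasCompactSupport ?_
    exact bb.hasCompactSupport.comp_left (g := fun t : ℝ => Real.sin (2 * θ * t)) (by simp)
  · have h2 : (0 : ℝ) ≤ bb u := bb.nonneg
    have h3 : bb u ≤ 1 := bb.le_one
    simp only
    -- sin t ≥ t/2 on [0,1]
    set t := 2 * θ * bb u with ht
    have ht0 : 0 ≤ t := by positivity
    have ht1 : t ≤ 1 := by
      rw [ht]
      nlinarith
    have hs : t / 2 ≤ Real.sin t := by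
      rcases eq_or_lt_of_le ht0 with h | h
      · rw [← h]
        simp
      · have h5 := Real.sin_gt_sub_cube h
        have h6 : t ^ 2 ≤ 1 := by nlinarith
        have h7 : t ^ 3 ≤ t := by
          calc t ^ 3 = t * t ^ 2 := by ring
            _ ≤ t * 1 := mul_le_mul_of_nonneg_left h6 ht0
            _ = t := mul_one t
        linarith
    have : θ * bb u = t / 2 := by rw [ht]; ring
    rw [this]
    exact hs

end energy

end

end Pool.Agent.H.MP_d1ae63_mp.Up
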