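import Pool.Agent.H.MP_d1ae63_mp.Defs
import Pool.Agent.H.MP_d1ae63_mp.UpperAlg

set_option autoImplicit false

open MeasureTheory Filter Topology Metric
open scoped ENNReal Real

namespace Pool.Agent.H.MP_d1ae63_mp.Up

noncomputable section

theorem integrableOn_inv_norm (r : ℝ) :
    IntegrableOn (fun u : E3 => ‖u‖⁻¹) (ball (0 : E3) r) volume := by
  rw [integrableOn_fun_norm_addHaar (μ := (volume : Measure E3)) (f := fun y : ℝ => y⁻¹)]
  have h : Module.finrank ℝ E3 = 3 := by simp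
  rw [h]
  have h2 : IntegrableOn (fun y : ℝ => y) (Set.Ioo 0 r) volume :=
    (continuous_id.integrableOn_Icc (a := 0) (b := r)).mono_set Set.Ioo_subset_Icc_self
  refine h2.congr_fun ?_ measurableSet_Ioo
  intro y hy
  have : y ≠ 0 := hy.1.ne'
  simp only [smul_eq_mul]
  field_simp

theorem lintegral_inv_norm_lt_top (r : ℝ) :
    ∫⁻ u in ball (0 : E3) r, ENNReal.ofReal ‖u‖⁻¹ < ∞ := by
  have h := (integrableOn_inv_norm r).hasFiniteIntegral
  unfold HasFiniteIntegral at h
  refine lt_of_le_of_lt (le_of_eq ?_) h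
  refine lintegral_congr fun u => ?_
  rw [Real.enorm_eq_ofReal (by positivity)]

/-- one-variable integral of the Coulomb kernel over a ball -/
theorem one_var (r : ℝ) (v : E3) (hv : v ∈ ball (0 : E3) r) :
    ∫⁻ u : E3, ENNReal.ofReal ‖u - v‖⁻¹ * (ball (0 : E3) r).indicator 1 u ≤
      ∫⁻ u in ball (0 : E3) (2 * r), ENNReal.ofReal ‖u‖⁻¹ := by
  rw [← lintegral_indicator measurableSet_ball]
  rw [← lintegral_sub_right_eq_self
    (fun u : E3 => (ball (0 : E3) (2 * r)).indicator (fun u => ENNReal.ofReal ‖u‖⁻¹) u) v]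
  refine lintegral_mono fun u => ?_
  by_cases hu : u ∈ ball (0 : E3) r
  · have h1 : u - v ∈ ball (0 : E3) (2 * r) := by
      rw [mem_ball_zero_iff] at *
      calc ‖u - v‖ ≤ ‖u‖ + ‖v‖ := norm_sub_le _ _
        _ < 2 * r := by linarith
    simp only [Set.indicator_of_mem hu, Set.indicator_of_mem h1]
    simp
  · simp [Set.indicator_of_notMem hu]

/-- finiteness of the Coulomb kernel on `B^N` -/
theorem coul_fin (r : ℝ) (hr : 0 < r) (N : ℕ) (i j : Fin N) (hij : i ≠ j) :
    ∫⁻ x : Fin N → E3, ENNReal.ofReal ‖x i - x j‖⁻¹ *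
      ∏ l, (ball (0 : E3) r).indicator (1 : E3 → ℝ≥0∞) (x l) < ∞ := by
  set C : ℝ≥0∞ := ∫⁻ u in ball (0 : E3) (2 * r), ENNReal.ofReal ‖u‖⁻¹ with hC
  have hCfin : C < ∞ := lintegral_inv_norm_lt_top _
  set V : ℝ≥0∞ := volume (ball (0 : E3) r) with hV
  have hVpos : V ≠ 0 := (measure_ball_pos volume _ hr).ne'
  have hVfin : V ≠ ∞ := measure_ball_lt_top.ne
  have hind : Measurable ((ball (0 : E3) r).indicator (1 : E3 → ℝ≥0∞)) :=
    measurable_one.indicator measurableSet_ball
  have hg : Measurable fun x : Fin N → E3 =>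
      ∏ l, (ball (0 : E3) r).indicator (1 : E3 → ℝ≥0∞) (x l) :=
    Finset.measurable_fun_prod _ fun l _ => hind.comp (measurable_pi_apply l)
  have hf : Measurable fun x : Fin N → E3 => ENNReal.ofReal ‖x i - x j‖⁻¹ *
      ∏ l, (ball (0 : E3) r).indicator (1 : E3 → ℝ≥0∞) (x l) := by
    refine Measurable.mul ?_ hg
    exact ((((measurable_pi_apply i).sub (measurable_pi_apply j)).norm).inv).ennreal_ofReal
  have key : ∫⁻ x : Fin N → E3, ENNReal.ofReal ‖x i - x j‖⁻¹ *
      ∏ l, (ball (0 : E3) r).indicator (1 : E3 → ℝ≥0∞) (x l) ≤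
      ∫⁻ x : Fin N → E3, (C / V) * ∏ l, (ball (0 : E3) r).indicator (1 : E3 → ℝ≥0∞) (x l) := by
    rw [MeasureTheory.volume_pi]
    refine lintegral_le_of_lmarginal_le {i} hf (hg.const_mul _) ?_
    intro x
    rw [lmarginal_singleton, lmarginal_singleton]
    have hprod : ∀ u : E3, ∏ l, (ball (0 : E3) r).indicator (1 : E3 → ℝ≥0∞)
        (Function.update x i u l) = (ball (0 : E3) r).indicator (1 : E3 → ℝ≥0∞) u *
        ∏ l ∈ Finset.univ.erase i, (ball (0 : E3) r).indicator (1 : E3 → ℝ≥0∞) (x l) := by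
      intro u
      rw [← Finset.mul_prod_erase Finset.univ _ (Finset.mem_univ i)]
      congr 1
      · simp
      · refine Finset.prod_congr rfl fun l hl => ?_
        rw [Function.update_of_ne (Finset.ne_of_mem_erase hl)]
    simp only [hprod, Function.update_self, Function.update_of_ne hij.symm]
    set P := ∏ l ∈ Finset.univ.erase i, (ball (0 : E3) r).indicator (1 : E3 → ℝ≥0∞) (x l) with hP
    have e1 : ∫⁻ u : E3, C / V * ((ball (0 : E3) r).indicator (1 : E3 → ℝ≥0∞) u * P) = C * P := by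
      rw [lintegral_const_mul _ (hind.mul_const _), lintegral_mul_const _ hind,
        lintegral_indicator_one measurableSet_ball, ← hV, ← mul_assoc,
        ENNReal.div_mul_cancel hVpos hVfin]
    rw [e1]
    by_cases hj : x j ∈ ball (0 : E3) r
    · calc ∫⁻ u : E3, ENNReal.ofReal ‖u - x j‖⁻¹ *
            ((ball (0 : E3) r).indicator (1 : E3 → ℝ≥0∞) u * P)
          = (∫⁻ u : E3, ENNReal.ofReal ‖u - x j‖⁻¹ *
            (ball (0 : E3) r).indicator (1 : E3 → ℝ≥0∞) u) * P := by
            rw [← lintegral_mul_const]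
            · refine lintegral_congr fun u => ?_
              rw [mul_assoc]
            · refine Measurable.mul ?_ hind
              exact (((measurable_id.sub_const _).norm).inv).ennreal_ofReal
        _ ≤ C * P := by
            gcongr
            exact one_var r (x j) hj
    · have hP0 : P = 0 := by
        rw [hP]
        apply Finset.prod_eq_zero (Finset.mem_erase.mpr ⟨hij.symm, Finset.mem_univ j⟩)
        rw [Set.indicator_of_notMem hj]
      simp [hP0]
  refine lt_of_le_of_lt key ?_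
  rw [lintegral_const_mul _ hg]
  refine ENNReal.mul_lt_top (ENNReal.div_lt_top hCfin.ne hVpos) ?_
  have : ∀ x : Fin N → E3, ∏ l, (ball (0 : E3) r).indicator (1 : E3 → ℝ≥0∞) (x l) =
      (Set.pi Set.univ (fun _ => ball (0 : E3) r)).indicator 1 x := by
    intro x
    by_cases hx : ∀ l, x l ∈ ball (0 : E3) r
    · rw [Set.indicator_of_mem (by simpa [Set.mem_pi] using hx)]
      rw [Finset.prod_eq_one]
      · rfl
      · intro l _
        rw [Set.indicator_of_mem (hx l)]
        rfl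
    · rw [Set.indicator_of_notMem (by simpa [Set.mem_pi] using hx)]
      push Not at hx
      obtain ⟨l, hl⟩ := hx
      apply Finset.prod_eq_zero (Finset.mem_univ l)
      rw [Set.indicator_of_notMem hl]
  simp only [this]
  rw [lintegral_indicator_one (MeasurableSet.univ_pi fun _ => measurableSet_ball)]
  rw [MeasureTheory.volume_pi, Measure.pi_pi]
  exact ENNReal.prod_lt_top (fun l _ => measure_ball_lt_top)

/-- integrability of the Coulomb kernel times a bounded, compactly supported function -/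
theorem integrable_coul {r : ℝ} (hr : 0 < r) {N : ℕ} {i j : Fin N} (hij : i ≠ j)
    {G : (Fin N → E3) → ℝ} (hG : Continuous G) (C : ℝ)
    (hb : ∀ x, |G x| ≤ C) (hs : ∀ x, (∃ l, x l ∉ ball (0 : E3) r) → G x = 0) :
    Integrable (fun x : Fin N → E3 => ‖x i - x j‖⁻¹ * G x) volume := by
  have hm : Measurable fun x : Fin N → E3 => ‖x i - x j‖⁻¹ :=
    (((measurable_pi_apply i).sub (measurable_pi_apply j)).norm).inv
  refine ⟨(hm.mul hG.measurable).aestronglyMeasurable, ?_⟩
  unfold HasFiniteIntegral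
  have h1 : ∀ x : Fin N → E3, ‖‖x i - x j‖⁻¹ * G x‖ₑ ≤ ENNReal.ofReal C *
      (ENNReal.ofReal ‖x i - x j‖⁻¹ *
        ∏ l, (ball (0 : E3) r).indicator (1 : E3 → ℝ≥0∞) (x l)) := by
    intro x
    by_cases hx : ∃ l, x l ∉ ball (0 : E3) r
    · rw [hs x hx]
      simp
    · push Not at hx
      rw [Finset.prod_eq_one (fun l _ => by rw [Set.indicator_of_mem (hx l)]; rfl), mul_one,
        enorm_mul, mul_comm]
      rw [Real.enorm_eq_ofReal_abs, Real.enorm_eq_ofReal (by positivity)]
      gcongr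
      exact hb x
  refine lt_of_le_of_lt (lintegral_mono h1) ?_
  rw [lintegral_const_mul' _ _ ENNReal.ofReal_ne_top]
  exact ENNReal.mul_lt_top ENNReal.ofReal_lt_top (coul_fin r hr N i j hij)

/-- the diagonal is a null set -/
theorem diag_null {N : ℕ} {i j : Fin N} (hij : i ≠ j) :
    ∀ᵐ x : Fin N → E3, x i ≠ x j := by
  let S : Submodule ℝ (Fin N → E3) := LinearMap.ker
    ((LinearMap.proj i : (Fin N → E3) →ₗ[ℝ] E3) - LinearMap.proj j)
  have hS : S ≠ ⊤ := by
    intro h
    have h1 : (Pi.single i (EuclideanSpace.single 0 (1 : ℝ)) : Fin N → E3) ∈ S := by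
      rw [h]
      trivial
    rw [LinearMap.mem_ker] at h1
    simp only [LinearMap.sub_apply, LinearMap.proj_apply, Pi.single_eq_same,
      Pi.single_eq_of_ne hij.symm, sub_zero] at h1
    have h2 := congrArg (fun v : E3 => v 0) h1
    simp at h2
  have h0 : (volume : Measure (Fin N → E3)) (S : Set (Fin N → E3)) = 0 :=
    Measure.addHaar_submodule volume S hS
  rw [ae_iff]
  refine measure_mono_null ?_ h0
  intro x hx
  simp only [ne_eq, not_not] at hx
  show x ∈ S
  rw [LinearMap.mem_ker]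
  simp only [LinearMap.sub_apply, LinearMap.proj_apply]
  exact sub_eq_zero.mpr hx

variable {κ : Type*} [Fintype κ] [DecidableEq κ]

omit [Fintype κ] [DecidableEq κ] in
/-- bounded continuous factor. -/
theorem cosprod_bdd (A : Finset κ) (q : κ → ℝ) : |∏ a ∈ A, Real.cos (q a) ^ 2| ≤ 1 := by
  rw [Finset.abs_prod]
  refine Finset.prod_le_one (fun a _ => abs_nonneg _) fun a _ => ?_
  rw [abs_pow]
  exact pow_le_one₀ (abs_nonneg _) (Real.abs_cos_le_one _)

omit [Fintype κ] [DecidableEq κ] in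
theorem gen_integrable (A : Finset κ) {N : ℕ} (θ : ℝ) (e : Fin N → Bool) (F : Fin N → E3 → ℝ)
    (hF : ∀ l, Integrable (F l)) (g : Fin N → κ → E3 → ℝ) (hg : ∀ l a, Continuous (g l a)) :
    Integrable (fun x : Fin N → E3 => (∏ l, F l (x l)) *
      ∏ a ∈ A, Real.cos (θ * ∑ l, sgn (e l) * g l a (x l)) ^ 2) volume := by
  have h1 : Integrable (fun x : Fin N → E3 => ∏ l, F l (x l)) volume :=
    Integrable.fintype_prod (f := F) hF
  have h2 : Continuous (fun x : Fin N → E3 =>
      ∏ a ∈ A, Real.cos (θ * ∑ l, sgn (e l) * g l a (x l)) ^ 2) := by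
    fun_prop
  refine h1.mul_bdd (c := 1) h2.aestronglyMeasurable (Eventually.of_forall fun x => ?_)
  rw [Real.norm_eq_abs]
  exact cosprod_bdd A _

theorem gen_int (A : Finset κ) {N : ℕ} (θ : ℝ) (F : Fin N → E3 → ℝ)
    (hF : ∀ l, Integrable (F l)) (g : Fin N → κ → E3 → ℝ) (hg : ∀ l a, Continuous (g l a)) :
    ∑ e : Fin N → Bool, ∫ x : Fin N → E3, (∏ l, F l (x l)) *
      ∏ a ∈ A, Real.cos (θ * ∑ l, sgn (e l) * g l a (x l)) ^ 2 =
    2 ^ N * ∑ s : κ → SignType, WA A s *
      ∏ l, ∫ u : E3, F l u * Real.cos (2 * θ * ∑ a, (s a : ℝ) * g l a u) := by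
  rw [← integral_finsetSum _ (fun e _ => gen_integrable A θ e F hF g hg)]
  have h1 : ∀ x : Fin N → E3, (∑ e : Fin N → Bool, (∏ l, F l (x l)) *
      ∏ a ∈ A, Real.cos (θ * ∑ l, sgn (e l) * g l a (x l)) ^ 2) =
      ∑ s : κ → SignType, 2 ^ N * WA A s *
        ∏ l, (F l (x l) * Real.cos (2 * θ * ∑ a, (s a : ℝ) * g l a (x l))) := by
    intro x
    rw [← Finset.mul_sum, avg_one A θ (fun l a => g l a (x l)), Finset.mul_sum, Finset.mul_sum]
    refine Finset.sum_congr rfl fun s _ => ?_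
    rw [Finset.prod_mul_distrib]
    unfold UU
    ring
  simp_rw [h1]
  have hint : ∀ (s : κ → SignType) (l : Fin N),
      Integrable (fun u : E3 => F l u * Real.cos (2 * θ * ∑ a, (s a : ℝ) * g l a u)) volume := by
    intro s l
    have h2 : Continuous (fun u : E3 => Real.cos (2 * θ * ∑ a, (s a : ℝ) * g l a u)) := by
      have := hg l
      fun_prop
    refine (hF l).mul_bdd (c := 1) h2.aestronglyMeasurable (Eventually.of_forall fun x => ?_)
    rw [Real.norm_eq_abs]
    exact Real.abs_cos_le_one _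
  rw [integral_finsetSum]
  · rw [Finset.mul_sum]
    refine Finset.sum_congr rfl fun s _ => ?_
    rw [integral_const_mul]
    rw [MeasureTheory.volume_pi, integral_fintype_prod_eq_prod
      (fun l (u : E3) => F l u * Real.cos (2 * θ * ∑ a, (s a : ℝ) * g l a u))]
    ring
  · intro s _
    refine Integrable.const_mul ?_ _
    exact Integrable.fintype_prod (f := fun l (u : E3) =>
      F l u * Real.cos (2 * θ * ∑ a, (s a : ℝ) * g l a u)) (hint s)

/-- the one-body data of the trial function -/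
structure Cells (κ : Type*) (φ : E3 → ℝ) (bs : κ → E3 → ℝ) (r ℓ : ℝ) : Prop where
  φc : Continuous φ
  φs : ∀ u, u ∉ ball (0 : E3) r → φ u = 0
  φn : ∫ u, φ u ^ 2 = 1
  bc : ∀ a, Continuous (bs a)
  b0 : ∀ a u, 0 ≤ bs a u
  b1 : ∀ a u, bs a u ≤ 1
  disj : ∀ a b u, a ≠ b → bs a u = 0 ∨ bs b u = 0
  close : ∀ a u v, bs a u ≠ 0 → bs a v ≠ 0 → ‖u - v‖ ≤ 2 * ℓ
  rpos : 0 < r
  ℓpos : 0 < ℓ

/-- one-cell overlap defect -/
def tau (φ : E3 → ℝ) (bs : κ → E3 → ℝ) (θ : ℝ) (a : κ) : ℝ :=
  ∫ u, φ u ^ 2 * (1 - Real.cos (2 * θ * bs a u))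

/-- one-cell moment -/
def mm (φ : E3 → ℝ) (bs : κ → E3 → ℝ) (θ : ℝ) (a : κ) : ℝ :=
  ∫ u, φ u ^ 2 * Real.sin (2 * θ * bs a u)

/-- the trial function -/
def trial (φ : E3 → ℝ) (bs : κ → E3 → ℝ) (θ : ℝ) {N : ℕ} (e : Fin N → Bool) (x : Fin N → E3) : ℝ :=
  (∏ l, φ (x l)) * ∏ a, Real.cos (θ * ∑ l, sgn (e l) * bs a (x l))

section cells

variable {φ : E3 → ℝ} {bs : κ → E3 → ℝ} {r ℓ : ℝ} (hC : Cells κ φ bs r ℓ)

omit [Fintype κ] [DecidableEq κ] in
include hC in
theorem Cells.φcpt : HasCompactSupport φ := by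
  refine HasCompactSupport.intro (isCompact_closedBall (0 : E3) r) fun u hu => hC.φs u ?_
  exact fun h => hu (ball_subset_closedBall h)

omit [Fintype κ] [DecidableEq κ] in
include hC in
theorem Cells.φ_int (h : E3 → ℝ) (hh : Continuous h) : Integrable (fun u => φ u ^ 2 * h u) := by
  have h1 := hC.φc
  refine Continuous.integrable_of_hasCompactSupport (by fun_prop) ?_
  refine HasCompactSupport.intro (isCompact_closedBall (0 : E3) r) fun u hu => ?_
  rw [hC.φs u fun h => hu (ball_subset_closedBall h)]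
  simp

omit [Fintype κ] [DecidableEq κ] in
include hC in
theorem Cells.φ2_int : Integrable (fun u => φ u ^ 2) := by
  simpa using hC.φ_int (fun _ => 1) continuous_const

include hC in
omit [DecidableEq κ] in
theorem cos_phase (θ : ℝ) (s : κ → SignType) (u : E3) :
    Real.cos (2 * θ * ∑ a, (s a : ℝ) * bs a u) =
      1 - ∑ a, (s a : ℝ) ^ 2 * (1 - Real.cos (2 * θ * bs a u)) := by
  have hB : Disj (N := 1) (fun _ a => bs a u) := fun _ a b hab => hC.disj a b u hab
  exact cos_UU hB s 0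

include hC in
omit [DecidableEq κ] in
theorem cos_phase_nonneg {θ : ℝ} (hθ : 0 ≤ θ) (hθ' : θ ≤ 1 / 4) (s : κ → SignType) (u : E3) :
    0 ≤ Real.cos (2 * θ * ∑ a, (s a : ℝ) * bs a u) := by
  apply Real.cos_nonneg_of_neg_pi_div_two_le_of_le
  all_goals
    have hpi := Real.pi_gt_three
    have hb : |∑ a, (s a : ℝ) * bs a u| ≤ 1 := by
      by_cases h : ∃ a, bs a u ≠ 0
      · obtain ⟨a, ha⟩ := h
        rw [Finset.sum_eq_single a]
        · rw [abs_mul, abs_of_nonneg (hC.b0 a u)]
          have h1 : |(s a : ℝ)| ≤ 1 := by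
            have := cast_sq_le_one (s a)
            rw [← sq_abs] at this
            nlinarith [abs_nonneg (s a : ℝ)]
          have h2 := hC.b1 a u
          have h3 := hC.b0 a u
          nlinarith [abs_nonneg (s a : ℝ)]
        · intro b _ hb
          rw [(hC.disj b a u hb).resolve_right ha, mul_zero]
        · simp
      · push Not at h
        simp [h]
    have := abs_le.mp hb
    nlinarith

include hC in
omit [DecidableEq κ] in
theorem one_cos (θ : ℝ) (s : κ → SignType) :
    ∫ u, φ u ^ 2 * Real.cos (2 * θ * ∑ a, (s a : ℝ) * bs a u) = zz (tau φ bs θ) s := by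
  simp_rw [cos_phase hC]
  have h1 : ∀ u, φ u ^ 2 * (1 - ∑ a, (s a : ℝ) ^ 2 * (1 - Real.cos (2 * θ * bs a u))) =
      φ u ^ 2 - ∑ a, (s a : ℝ) ^ 2 * (φ u ^ 2 * (1 - Real.cos (2 * θ * bs a u))) := by
    intro u
    rw [mul_sub, mul_one, Finset.mul_sum]
    congr 1
    refine Finset.sum_congr rfl fun a _ => ?_
    ring
  simp_rw [h1]
  have hbc := hC.bc
  have hint : ∀ a, Integrable (fun u => φ u ^ 2 * (1 - Real.cos (2 * θ * bs a u))) volume :=
    fun a => hC.φ_int _ (by have := hbc a; fun_prop)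
  rw [integral_sub hC.φ2_int (integrable_finsetSum _ fun a _ => (hint a).const_mul _),
    integral_finsetSum _ (fun a _ => (hint a).const_mul _), hC.φn]
  unfold zz
  congr 1
  refine Finset.sum_congr rfl fun a _ => ?_
  rw [integral_const_mul]
  rfl

omit [DecidableEq κ] in
theorem trial_sq (θ : ℝ) {N : ℕ} (e : Fin N → Bool) (x : Fin N → E3) :
    trial φ bs θ e x ^ 2 = (∏ l, φ (x l) ^ 2) *
      ∏ a, Real.cos (θ * ∑ l, sgn (e l) * bs a (x l)) ^ 2 := by
  unfold trial
  rw [mul_pow, Finset.prod_pow, Finset.prod_pow]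

include hC in
theorem Z_sum (θ : ℝ) (N : ℕ) :
    ∑ e : Fin N → Bool, ∫ x : Fin N → E3, trial φ bs θ e x ^ 2 =
      2 ^ N * SS (tau φ bs θ) N := by
  simp_rw [trial_sq]
  rw [gen_int Finset.univ θ (fun _ u => φ u ^ 2) (fun _ => hC.φ2_int) (fun _ a => bs a)
    (fun _ a => hC.bc a)]
  unfold SS
  simp_rw [one_cos hC]
  simp

/-- the sums with the particle `i` removed from the correlation factor -/
theorem K_sum (hC : Cells κ φ bs r ℓ) (A : Finset κ) (θ : ℝ) (N : ℕ) (i : Fin N) (h : E3 → ℝ)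
    (hh : Integrable h) :
    ∑ e : Fin N → Bool, ∫ x : Fin N → E3, (h (x i) * ∏ l ∈ Finset.univ.erase i, φ (x l) ^ 2) *
      ∏ a ∈ A, Real.cos (θ * ∑ l ∈ Finset.univ.erase i, sgn (e l) * bs a (x l)) ^ 2 =
    2 ^ N * ((∫ u, h u) * ∑ s : κ → SignType, WA A s * zz (tau φ bs θ) s ^ (N - 1)) := by
  have h1 := gen_int A θ (fun l u => if l = i then h u else φ u ^ 2)
    (fun l => by by_cases hl : l = i <;> simp [hl, hh, hC.φ2_int])
    (fun l a u => if l = i then 0 else bs a u)
    (fun l a => by by_cases hl : l = i <;> simp [hl, hC.bc a, continuous_const])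
  have e1 : ∀ x : Fin N → E3, (∏ l, (if l = i then h (x l) else φ (x l) ^ 2)) =
      h (x i) * ∏ l ∈ Finset.univ.erase i, φ (x l) ^ 2 := by
    intro x
    rw [← Finset.mul_prod_erase Finset.univ _ (Finset.mem_univ i), if_pos rfl]
    congr 1
    exact Finset.prod_congr rfl fun l hl => by rw [if_neg (Finset.ne_of_mem_erase hl)]
  have e2 : ∀ (x : Fin N → E3) (e : Fin N → Bool) (a : κ),
      (∑ l, sgn (e l) * (if l = i then 0 else bs a (x l))) =
      ∑ l ∈ Finset.univ.erase i, sgn (e l) * bs a (x l) := by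
    intro x e a
    rw [← Finset.add_sum_erase Finset.univ _ (Finset.mem_univ i), if_pos rfl, mul_zero, zero_add]
    exact Finset.sum_congr rfl fun l hl => by rw [if_neg (Finset.ne_of_mem_erase hl)]
  simp only [e1, e2] at h1
  rw [h1]
  congr 1
  rw [Finset.mul_sum]
  refine Finset.sum_congr rfl fun s _ => ?_
  rw [← Finset.mul_prod_erase Finset.univ _ (Finset.mem_univ i)]
  have e3 : ∏ l ∈ Finset.univ.erase i, ∫ u : E3, (if l = i then h u else φ u ^ 2) *
      Real.cos (2 * θ * ∑ a, (s a : ℝ) * (if l = i then 0 else bs a u)) =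
      zz (tau φ bs θ) s ^ (N - 1) := by
    rw [Finset.prod_congr rfl (g := fun _ => zz (tau φ bs θ) s), Finset.prod_const,
      Finset.card_erase_of_mem (Finset.mem_univ i), Finset.card_univ, Fintype.card_fin]
    intro l hl
    simp only [if_neg (Finset.ne_of_mem_erase hl)]
    exact one_cos hC θ s
  rw [e3]
  simp only [if_true, mul_zero, Finset.sum_const_zero, Real.cos_zero, mul_one]
  ring

omit [DecidableEq κ] in
include hC in
theorem trial_cont (θ : ℝ) {N : ℕ} (e : Fin N → Bool) :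
    Continuous (fun x : Fin N → E3 => trial φ bs θ e x) := by
  unfold trial
  have h1 := hC.φc
  have h2 := hC.bc
  fun_prop

omit [Fintype κ] [DecidableEq κ] in
include hC in
theorem φ_bdd : ∃ C : ℝ, 0 ≤ C ∧ ∀ u, |φ u| ≤ C := by
  obtain ⟨C, hC'⟩ := hC.φcpt.exists_bound_of_continuous hC.φc
  exact ⟨C, (norm_nonneg _).trans (hC' 0), hC'⟩

/-- integrand of one pair term, charge average included -/
def HH (φ : E3 → ℝ) (bs : κ → E3 → ℝ) (θ : ℝ) {N : ℕ} (i j : Fin N) (x : Fin N → E3) : ℝ :=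
  ∑ a, ∑ s : κ → SignType, (s a : ℝ) ^ 2 * WA Finset.univ s *
    ∏ l, (φ (x l) ^ 2 * (if l = i ∨ l = j then Real.sin (2 * θ * bs a (x l))
      else Real.cos (2 * θ * ∑ b, (s b : ℝ) * bs b (x l))))

include hC in
theorem pair_avg (θ : ℝ) {N : ℕ} {i j : Fin N} (hij : i ≠ j) (x : Fin N → E3) :
    ∑ e : Fin N → Bool, sgn (e i) * sgn (e j) * trial φ bs θ e x ^ 2 =
      -(2 ^ N * HH φ bs θ i j x) := by
  have hB : Disj (fun (l : Fin N) a => bs a (x l)) := fun l a b hab => hC.disj a b (x l) hab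
  have h1 := avg_two_disj (θ := θ) hB hij
  simp_rw [trial_sq]
  have h2 : ∀ e : Fin N → Bool, sgn (e i) * sgn (e j) * ((∏ l, φ (x l) ^ 2) *
      ∏ a, Real.cos (θ * ∑ l, sgn (e l) * bs a (x l)) ^ 2) = (∏ l, φ (x l) ^ 2) *
      (sgn (e i) * sgn (e j) * ∏ a, Real.cos (θ * ∑ l, sgn (e l) * bs a (x l)) ^ 2) := by
    intro e
    ring
  rw [Finset.sum_congr rfl (fun e _ => h2 e), ← Finset.mul_sum, h1, mul_neg]
  congr 1
  rw [mul_left_comm]
  congr 1
  unfold HH
  rw [Finset.mul_sum]
  refine Finset.sum_congr rfl fun a _ => ?_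
  rw [Finset.mul_sum, Finset.mul_sum]
  refine Finset.sum_congr rfl fun s _ => ?_
  rw [Finset.prod_mul_distrib]
  rw [← Finset.mul_prod_erase Finset.univ (fun l => if l = i ∨ l = j then
      Real.sin (2 * θ * bs a (x l)) else Real.cos (2 * θ * ∑ b, (s b : ℝ) * bs b (x l)))
      (Finset.mem_univ i),
    ← Finset.mul_prod_erase (Finset.univ.erase i) (fun l => if l = i ∨ l = j then
      Real.sin (2 * θ * bs a (x l)) else Real.cos (2 * θ * ∑ b, (s b : ℝ) * bs b (x l)))
      (Finset.mem_erase.mpr ⟨hij.symm, Finset.mem_univ j⟩)]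
  have e3 : ∏ l ∈ (Finset.univ.erase i).erase j, (if l = i ∨ l = j then
      Real.sin (2 * θ * bs a (x l)) else Real.cos (2 * θ * ∑ b, (s b : ℝ) * bs b (x l))) =
      ∏ l ∈ (Finset.univ.erase i).erase j,
        Real.cos (UU θ (fun (l : Fin N) a => bs a (x l)) s l) := by
    refine Finset.prod_congr rfl fun l hl => ?_
    simp only [Finset.mem_erase, Finset.mem_univ, and_true] at hl
    rw [if_neg (by tauto)]
    rfl
  rw [e3]
  simp only [true_or, or_true, if_true]
  ring

include hC in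
theorem HH_integral (θ : ℝ) {N : ℕ} {i j : Fin N} (hij : i ≠ j) :
    ∫ x : Fin N → E3, HH φ bs θ i j x =
      ∑ a, mm φ bs θ a ^ 2 * TT (tau φ bs θ) a (N - 2) := by
  have hbc := hC.bc
  have hint : ∀ (a : κ) (s : κ → SignType) (l : Fin N), Integrable (fun u : E3 => φ u ^ 2 *
      (if l = i ∨ l = j then Real.sin (2 * θ * bs a u)
      else Real.cos (2 * θ * ∑ b, (s b : ℝ) * bs b u))) volume := by
    intro a s l
    by_cases hl : l = i ∨ l = j
    · simp only [hl, if_true]
      exact hC.φ_int _ (by have := hbc a; fun_prop)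
    · simp only [hl, if_false]
      exact hC.φ_int _ (by fun_prop)
  have hint2 : ∀ (a : κ) (s : κ → SignType), Integrable (fun x : Fin N → E3 =>
      ∏ l, (φ (x l) ^ 2 * (if l = i ∨ l = j then Real.sin (2 * θ * bs a (x l))
      else Real.cos (2 * θ * ∑ b, (s b : ℝ) * bs b (x l))))) volume := by
    intro a s
    exact Integrable.fintype_prod (f := fun l u => φ u ^ 2 * (if l = i ∨ l = j then
      Real.sin (2 * θ * bs a u) else Real.cos (2 * θ * ∑ b, (s b : ℝ) * bs b u))) (hint a s)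
  unfold HH
  rw [integral_finsetSum]
  · refine Finset.sum_congr rfl fun a _ => ?_
    rw [integral_finsetSum]
    · unfold TT
      rw [Finset.mul_sum]
      refine Finset.sum_congr rfl fun s _ => ?_
      rw [integral_const_mul, MeasureTheory.volume_pi, integral_fintype_prod_eq_prod
        (fun l u => φ u ^ 2 * (if l = i ∨ l = j then
        Real.sin (2 * θ * bs a u) else Real.cos (2 * θ * ∑ b, (s b : ℝ) * bs b u)))]
      rw [← Finset.mul_prod_erase Finset.univ _ (Finset.mem_univ i),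
        ← Finset.mul_prod_erase (Finset.univ.erase i) _
        (Finset.mem_erase.mpr ⟨hij.symm, Finset.mem_univ j⟩)]
      have e3 : ∏ l ∈ (Finset.univ.erase i).erase j, ∫ u : E3, φ u ^ 2 * (if l = i ∨ l = j then
        Real.sin (2 * θ * bs a u) else Real.cos (2 * θ * ∑ b, (s b : ℝ) * bs b u)) =
          zz (tau φ bs θ) s ^ (N - 2) := by
        rw [Finset.prod_congr rfl (g := fun _ => zz (tau φ bs θ) s), Finset.prod_const]
        · congr 1
          rw [Finset.card_erase_of_mem (Finset.mem_erase.mpr ⟨hij.symm, Finset.mem_univ j⟩),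
            Finset.card_erase_of_mem (Finset.mem_univ i), Finset.card_univ, Fintype.card_fin]
          omega
        · intro l hl
          simp only [Finset.mem_erase, Finset.mem_univ, and_true] at hl
          simp only [hl.1, hl.2, or_self, if_false]
          exact one_cos hC θ s
      rw [e3]
      simp only [true_or, or_true, if_true]
      show _ * (mm φ bs θ a * (mm φ bs θ a * _)) = _
      ring
    · intro s _
      exact (hint2 a s).const_mul _
  · intro a _
    exact integrable_finsetSum _ fun s _ => (hint2 a s).const_mul _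

include hC in
theorem HH_cont (θ : ℝ) {N : ℕ} (i j : Fin N) : Continuous (HH φ bs θ i j) := by
  unfold HH
  have h1 := hC.φc
  have h2 := hC.bc
  refine continuous_finsetSum _ fun a _ => continuous_finsetSum _ fun s _ => ?_
  refine Continuous.mul continuous_const ?_
  refine continuous_finsetProd _ fun l _ => ?_
  by_cases hl : l = i ∨ l = j
  · simp only [hl, if_true]
    have := h2 a
    fun_prop
  · simp only [hl, if_false]
    fun_prop

include hC in
theorem HH_zero (θ : ℝ) {N : ℕ} (i j : Fin N) (x : Fin N → E3)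
    (hx : ∃ l, x l ∉ ball (0 : E3) r) : HH φ bs θ i j x = 0 := by
  obtain ⟨l, hl⟩ := hx
  unfold HH
  refine Finset.sum_eq_zero fun a _ => Finset.sum_eq_zero fun s _ => ?_
  rw [Finset.prod_eq_zero (Finset.mem_univ l), mul_zero]
  rw [hC.φs _ hl]
  simp

/-- each summand of `HH` is nonnegative and vanishes unless `x i`, `x j` are in the same cell -/
theorem HH_term (hC : Cells κ φ bs r ℓ) {θ : ℝ} (hθ : 0 ≤ θ) (hθ' : θ ≤ 1 / 4) {N : ℕ}
    {i j : Fin N} (x : Fin N → E3) (hx : x i ≠ x j) :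
    (2 * ℓ)⁻¹ * HH φ bs θ i j x ≤ ‖x i - x j‖⁻¹ * HH φ bs θ i j x := by
  unfold HH
  rw [Finset.mul_sum, Finset.mul_sum]
  refine Finset.sum_le_sum fun a _ => ?_
  rw [Finset.mul_sum, Finset.mul_sum]
  refine Finset.sum_le_sum fun s _ => ?_
  by_cases h : bs a (x i) = 0 ∨ bs a (x j) = 0
  · have : ∏ l, (φ (x l) ^ 2 * (if l = i ∨ l = j then Real.sin (2 * θ * bs a (x l))
      else Real.cos (2 * θ * ∑ b, (s b : ℝ) * bs b (x l)))) = 0 := by
      rcases h with h | h
      · exact Finset.prod_eq_zero (Finset.mem_univ i) (by simp [h])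
      · exact Finset.prod_eq_zero (Finset.mem_univ j) (by simp [h])
    rw [this]
    simp
  · push Not at h
    have hd : ‖x i - x j‖ ≤ 2 * ℓ := hC.close a _ _ h.1 h.2
    have hpos : 0 < ‖x i - x j‖ := norm_pos_iff.mpr (sub_ne_zero.mpr hx)
    refine mul_le_mul_of_nonneg_right (inv_anti₀ hpos hd) ?_
    refine mul_nonneg (mul_nonneg (sq_nonneg _) (WA_nonneg _ _)) ?_
    refine Finset.prod_nonneg fun l _ => mul_nonneg (sq_nonneg _) ?_
    by_cases hl : l = i ∨ l = j
    · rw [if_pos hl]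
      have h1 := hC.b0 a (x l)
      have h2 := hC.b1 a (x l)
      have hpi := Real.pi_gt_three
      apply Real.sin_nonneg_of_nonneg_of_le_pi (by positivity)
      nlinarith
    · rw [if_neg hl]
      exact cos_phase_nonneg hC hθ hθ' s _

omit [DecidableEq κ] in
include hC in
theorem trial_zero (θ : ℝ) {N : ℕ} (e : Fin N → Bool) (x : Fin N → E3)
    (hx : ∃ l, x l ∉ ball (0 : E3) r) : trial φ bs θ e x = 0 := by
  obtain ⟨l, hl⟩ := hx
  unfold trial
  rw [Finset.prod_eq_zero (Finset.mem_univ l) (hC.φs _ hl), zero_mul]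

omit [DecidableEq κ] in
include hC in
theorem trial_bdd (θ : ℝ) (N : ℕ) : ∃ C : ℝ, 0 ≤ C ∧ ∀ (e : Fin N → Bool) (x : Fin N → E3),
    |trial φ bs θ e x| ≤ C := by
  obtain ⟨C, hC0, hC'⟩ := φ_bdd hC
  refine ⟨C ^ N, by positivity, fun e x => ?_⟩
  unfold trial
  rw [abs_mul, Finset.abs_prod, Finset.abs_prod]
  have h1 : ∏ l, |φ (x l)| ≤ C ^ N := by
    calc ∏ l, |φ (x l)| ≤ ∏ _l : Fin N, C :=
          Finset.prod_le_prod (fun l _ => abs_nonneg _) fun l _ => hC' _
      _ = C ^ N := by simp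
  have h2 : ∏ a, |Real.cos (θ * ∑ l, sgn (e l) * bs a (x l))| ≤ 1 :=
    Finset.prod_le_one (fun a _ => abs_nonneg _) fun a _ => Real.abs_cos_le_one _
  have h3 : 0 ≤ ∏ a, |Real.cos (θ * ∑ l, sgn (e l) * bs a (x l))| :=
    Finset.prod_nonneg fun a _ => abs_nonneg _
  calc _ ≤ C ^ N * 1 := mul_le_mul h1 h2 h3 (by positivity)
    _ = C ^ N := mul_one _

omit [DecidableEq κ] in
include hC in
theorem pair_integrable (θ : ℝ) {N : ℕ} (e : Fin N → Bool) {i j : Fin N} (hij : i ≠ j) :
    Integrable (fun x : Fin N → E3 => ‖x i - x j‖⁻¹ * trial φ bs θ e x ^ 2) volume := by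
  obtain ⟨C, hC0, hC'⟩ := trial_bdd hC θ N
  refine integrable_coul hC.rpos hij ((trial_cont hC θ e).pow 2) (C ^ 2) (fun x => ?_)
    (fun x hx => ?_)
  · rw [abs_pow]
    exact pow_le_pow_left₀ (abs_nonneg _) (hC' e x) 2
  · rw [trial_zero hC θ e x hx]
    simp

theorem P_sum (hC : Cells κ φ bs r ℓ) {θ : ℝ} (hθ : 0 ≤ θ) (hθ' : θ ≤ 1 / 4) {N : ℕ}
    {i j : Fin N} (hij : i ≠ j) :
    ∑ e : Fin N → Bool, sgn (e i) * sgn (e j) *
        ∫ x : Fin N → E3, ‖x i - x j‖⁻¹ * trial φ bs θ e x ^ 2 ≤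
      -(2 ^ N * ((2 * ℓ)⁻¹ * ∑ a, mm φ bs θ a ^ 2 * TT (tau φ bs θ) a (N - 2))) := by
  have hcoul : Integrable (fun x : Fin N → E3 => ‖x i - x j‖⁻¹ * HH φ bs θ i j x) volume := by
    have hcs : HasCompactSupport (HH φ bs θ i j) := by
      refine HasCompactSupport.intro
        (isCompact_univ_pi (fun _ : Fin N => isCompact_closedBall (0 : E3) r)) fun x hx => ?_
      refine HH_zero hC θ i j x ?_
      simp only [Set.mem_pi, Set.mem_univ, true_imp_iff, not_forall] at hx
      obtain ⟨l, hl⟩ := hx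
      exact ⟨l, fun h => hl (ball_subset_closedBall h)⟩
    obtain ⟨C, hC'⟩ := hcs.exists_bound_of_continuous (HH_cont hC θ i j)
    exact integrable_coul hC.rpos hij (HH_cont hC θ i j) C (fun x => hC' x)
      (fun x hx => HH_zero hC θ i j x hx)
  have hHH : Integrable (HH φ bs θ i j) volume := by
    have hcs : HasCompactSupport (HH φ bs θ i j) := by
      refine HasCompactSupport.intro
        (isCompact_univ_pi (fun _ : Fin N => isCompact_closedBall (0 : E3) r)) fun x hx => ?_
      refine HH_zero hC θ i j x ?_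
      simp only [Set.mem_pi, Set.mem_univ, true_imp_iff, not_forall] at hx
      obtain ⟨l, hl⟩ := hx
      exact ⟨l, fun h => hl (ball_subset_closedBall h)⟩
    exact (HH_cont hC θ i j).integrable_of_hasCompactSupport hcs
  have h1 : ∑ e : Fin N → Bool, sgn (e i) * sgn (e j) *
        ∫ x : Fin N → E3, ‖x i - x j‖⁻¹ * trial φ bs θ e x ^ 2 =
      -(2 ^ N * ∫ x : Fin N → E3, ‖x i - x j‖⁻¹ * HH φ bs θ i j x) := by
    simp_rw [← integral_const_mul]
    rw [← integral_finsetSum _ (fun e _ => (pair_integrable hC θ e hij).const_mul _),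
      ← integral_neg]
    refine integral_congr_ae (Eventually.of_forall fun x => ?_)
    simp only
    have := pair_avg hC θ hij x
    calc ∑ e : Fin N → Bool, sgn (e i) * sgn (e j) * (‖x i - x j‖⁻¹ * trial φ bs θ e x ^ 2)
        = ‖x i - x j‖⁻¹ * ∑ e : Fin N → Bool, sgn (e i) * sgn (e j) * trial φ bs θ e x ^ 2 := by
          rw [Finset.mul_sum]
          refine Finset.sum_congr rfl fun e _ => ?_
          ring
      _ = _ := by
          rw [this]
          ring
  rw [h1]
  apply neg_le_neg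
  apply mul_le_mul_of_nonneg_left _ (by positivity)
  rw [← HH_integral hC θ hij, ← integral_const_mul]
  refine integral_mono_ae (hHH.const_mul _) hcoul ?_
  filter_upwards [diag_null hij] with x hx
  exact HH_term hC hθ hθ' x hx

end cells

end

end Pool.Agent.H.MP_d1ae63_mp.Up
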