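import Pool.Agent.H.MP_d1ae63_mp.UpperEnergy

set_option autoImplicit false

open MeasureTheory Filter Topology Metric
open scoped ENNReal Real SchwartzMap FourierTransform

namespace Pool.Agent.H.MP_d1ae63_mp.Up

noncomputable section

theorem kineticAt_smul {N : ℕ} {α : ℝ} (i : Fin N) (c : ℝ) (f : 𝓢(Conf N, ℂ)) :
    kineticAt α i (((c : ℂ) • f).toLp 2 : WaveFn N) =
      ENNReal.ofReal (c ^ 2) * kineticAt α i (f.toLp 2 : WaveFn N) := by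
  rw [kineticAt_toLp_eq, kineticAt_toLp_eq, ← lintegral_const_mul' _ _ ENNReal.ofReal_ne_top]
  refine lintegral_congr fun k => ?_
  have h : (𝓕 ((c : ℂ) • f)) k = (c : ℂ) * (𝓕 f) k := by
    rw [FourierTransform.fourier_smul]
    rfl
  rw [h, enorm_mul, mul_pow]
  have h2 : ‖(c : ℂ)‖ₑ ^ 2 = ENNReal.ofReal (c ^ 2) := by
    rw [enorm_sq_eq, Complex.norm_real, Real.norm_eq_abs, sq_abs]
  rw [h2]
  ring

theorem norm_toLp_sq {N : ℕ} (f : 𝓢(Conf N, ℂ)) :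
    ‖(f.toLp 2 : WaveFn N)‖ ^ 2 = ∫ x : Conf N, ‖f x‖ ^ 2 := by
  rw [SchwartzMap.norm_toLp' (by norm_num) (by norm_num)]
  have h0 : 0 ≤ ∫ x : Conf N, ‖f x‖ ^ (2 : ℝ≥0∞).toReal :=
    integral_nonneg fun x => by positivity
  rw [← Real.rpow_natCast, ← Real.rpow_mul h0]
  simp

theorem E0_le_of_trial {N : ℕ} {α lam : ℝ} (e : Fin N → Bool) (f : 𝓢(Conf N, ℂ)) (K : ℝ)
    (hK0 : 0 ≤ K) (hK : kinetic α (f.toLp 2 : WaveFn N) ≤ ENNReal.ofReal K)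
    (hZ : 0 < ∫ x : Conf N, ‖f x‖ ^ 2)
    (h : K + ∫ x : Conf N, coulomb (fun i => sgn (e i)) x * ‖f x‖ ^ 2 ≤
      lam * ∫ x : Conf N, ‖f x‖ ^ 2) :
    E0 α N ≤ (lam : EReal) := by
  set Z := ∫ x : Conf N, ‖f x‖ ^ 2 with hZdef
  set c : ℝ := (Real.sqrt Z)⁻¹ with hc
  have hc2 : c ^ 2 = Z⁻¹ := by
    rw [hc, inv_pow, Real.sq_sqrt hZ.le]
  have hcf : ∀ x, ((c : ℂ) • f) x = (c : ℂ) * f x := fun x => rfl
  have hnsq : ∀ x, ‖((c : ℂ) • f) x‖ ^ 2 = Z⁻¹ * ‖f x‖ ^ 2 := by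
    intro x
    rw [hcf, norm_mul, mul_pow, Complex.norm_real, Real.norm_eq_abs, sq_abs, hc2]
  set ψ : WaveFn N := ((c : ℂ) • f).toLp 2 with hψ
  have hnorm : ‖ψ‖ = 1 := by
    have h1 : ‖ψ‖ ^ 2 = 1 := by
      rw [hψ, norm_toLp_sq]
      simp_rw [hnsq]
      rw [integral_const_mul, ← hZdef, inv_mul_cancel₀ hZ.ne']
    have h2 : 0 ≤ ‖ψ‖ := norm_nonneg _
    nlinarith
  have hkin : kinetic α ψ ≤ ENNReal.ofReal (Z⁻¹ * K) := by
    unfold kinetic at hK ⊢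
    rw [hψ]
    simp_rw [kineticAt_smul, hc2]
    rw [← Finset.mul_sum, ENNReal.ofReal_mul (by positivity)]
    gcongr
  have hkin_fin : kinetic α ψ ≠ ∞ := (lt_of_le_of_lt hkin ENNReal.ofReal_lt_top).ne
  have hkin' : (kinetic α ψ).toReal ≤ Z⁻¹ * K := by
    refine ENNReal.toReal_le_of_le_ofReal (by positivity) hkin
  have hpot : potential (fun i => sgn (e i)) ψ =
      Z⁻¹ * ∫ x : Conf N, coulomb (fun i => sgn (e i)) x * ‖f x‖ ^ 2 := by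
    unfold potential
    rw [← integral_const_mul]
    refine integral_congr_ae ?_
    filter_upwards [((c : ℂ) • f).coeFn_toLp 2 (volume : Measure (Conf N))] with x hx
    rw [hx, hnsq]
    ring
  have hfin : ((kinetic α ψ).toReal + potential (fun i => sgn (e i)) ψ : ℝ) ≤ lam := by
    rw [hpot]
    calc (kinetic α ψ).toReal + Z⁻¹ * ∫ x : Conf N, coulomb (fun i => sgn (e i)) x * ‖f x‖ ^ 2
        ≤ Z⁻¹ * K + Z⁻¹ * ∫ x : Conf N, coulomb (fun i => sgn (e i)) x * ‖f x‖ ^ 2 := by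
          linarith
      _ = Z⁻¹ * (K + ∫ x : Conf N, coulomb (fun i => sgn (e i)) x * ‖f x‖ ^ 2) := by ring
      _ ≤ Z⁻¹ * (lam * Z) := mul_le_mul_of_nonneg_left h (by positivity)
      _ = lam := by field_simp
  unfold E0
  refine iInf_le_of_le (fun i => sgn (e i)) ?_
  refine iInf_le_of_le (fun i => by
    show sgn (e i) = 1 ∨ sgn (e i) = -1
    cases e i <;> simp [sgn]) ?_
  refine iInf_le_of_le ψ ?_
  refine iInf_le_of_le hnorm ?_
  refine iInf_le_of_le hkin_fin ?_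
  exact EReal.coe_le_coe_iff.mpr hfin

variable {κ : Type*} [Fintype κ] [DecidableEq κ] {N : ℕ} {R β ℓ : ℝ} {y : κ → E3}

/-- normalisation of the trial function -/
def Zt (κ : Type*) [Fintype κ] (R β ℓ θ : ℝ) (y : κ → E3) (e : Fin N → Bool) : ℝ :=
  ∫ x : Fin N → E3, trial (phi R β) (cell ℓ y) θ e x ^ 2

/-- potential energy of the trial function -/
def Pt (κ : Type*) [Fintype κ] (R β ℓ θ : ℝ) (y : κ → E3) (e : Fin N → Bool) : ℝ :=
  ∑ i : Fin N, ∑ j ∈ Finset.Ioi i, sgn (e i) * sgn (e j) *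
    ∫ x : Fin N → E3, ‖x i - x j‖⁻¹ * trial (phi R β) (cell ℓ y) θ e x ^ 2

omit [DecidableEq κ] in
theorem tS_norm (hG : Geo R β ℓ y) (θ : ℝ) (e : Fin N → Bool) :
    ∫ x : Conf N, ‖tS hG θ e x‖ ^ 2 = Zt κ R β ℓ θ y e := by
  unfold Zt
  rw [← integral_conf (fun x : Fin N → E3 => trial (phi R β) (cell ℓ y) θ e x ^ 2)]
  refine integral_congr_ae (Eventually.of_forall fun x => ?_)
  simp only
  unfold tS
  rw [mkS_apply, Complex.norm_real, Real.norm_eq_abs, sq_abs]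

omit [DecidableEq κ] in
theorem tS_pot (hG : Geo R β ℓ y) (θ : ℝ) (e : Fin N → Bool) :
    ∫ x : Conf N, coulomb (fun i => sgn (e i)) x * ‖tS hG θ e x‖ ^ 2 = Pt κ R β ℓ θ y e := by
  have hC : Cells κ (phi R β) (cell ℓ y) (3 * R) ℓ := geo_cells hG
  have h1 : ∀ x : Conf N, coulomb (fun i => sgn (e i)) x * ‖tS hG θ e x‖ ^ 2 =
      (fun x : Fin N → E3 => ∑ i : Fin N, ∑ j ∈ Finset.Ioi i, sgn (e i) * sgn (e j) *
        (‖x i - x j‖⁻¹ * trial (phi R β) (cell ℓ y) θ e x ^ 2)) (fun l => x l) := by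
    intro x
    simp only
    unfold tS coulomb
    rw [mkS_apply, Complex.norm_real, Real.norm_eq_abs, sq_abs, Finset.sum_mul]
    refine Finset.sum_congr rfl fun i _ => ?_
    rw [Finset.sum_mul]
    refine Finset.sum_congr rfl fun j _ => ?_
    rw [div_eq_mul_inv]
    ring
  simp_rw [h1]
  rw [integral_conf (fun x : Fin N → E3 => ∑ i : Fin N, ∑ j ∈ Finset.Ioi i, sgn (e i) * sgn (e j) *
        (‖x i - x j‖⁻¹ * trial (phi R β) (cell ℓ y) θ e x ^ 2))]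
  have hint : ∀ i : Fin N, ∀ j ∈ Finset.Ioi i, Integrable (fun x : Fin N → E3 =>
      sgn (e i) * sgn (e j) * (‖x i - x j‖⁻¹ * trial (phi R β) (cell ℓ y) θ e x ^ 2)) volume := by
    intro i j hj
    exact (pair_integrable hC θ e (ne_of_lt (Finset.mem_Ioi.mp hj))).const_mul _
  rw [integral_finsetSum _ (fun i _ => integrable_finsetSum _ fun j hj => hint i j hj)]
  unfold Pt
  refine Finset.sum_congr rfl fun i _ => ?_
  rw [integral_finsetSum _ (fun j hj => hint i j hj)]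
  refine Finset.sum_congr rfl fun j _ => ?_
  rw [integral_const_mul]

theorem Zt_sum (hG : Geo R β ℓ y) (θ : ℝ) :
    ∑ e : Fin N → Bool, Zt κ R β ℓ θ y e = 2 ^ N * SS (tau (phi R β) (cell ℓ y) θ) N :=
  Z_sum (geo_cells hG) θ N

theorem card_pairs (N : ℕ) : ∑ i : Fin N, ((Finset.Ioi i).card : ℝ) = N * (N - 1) / 2 := by
  simp_rw [Fin.card_Ioi]
  have h1 : ∑ i : Fin N, ((N - 1 - (i : ℕ) : ℕ) : ℝ) = ∑ k ∈ Finset.range N, (k : ℝ) := by
    rw [Fin.sum_univ_eq_sum_range (fun k => ((N - 1 - k : ℕ) : ℝ)) N]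
    exact Finset.sum_range_reflect (fun k => (k : ℝ)) N
  rw [h1]
  induction N with
  | zero => simp
  | succ n ih =>
    have h2 : ∑ i : Fin n, ((n - 1 - (i : ℕ) : ℕ) : ℝ) = ∑ k ∈ Finset.range n, (k : ℝ) := by
      rw [Fin.sum_univ_eq_sum_range (fun k => ((n - 1 - k : ℕ) : ℝ)) n]
      exact Finset.sum_range_reflect (fun k => (k : ℝ)) n
    rw [Finset.sum_range_succ, ih h2]
    push_cast
    ring

theorem Pt_sum (hG : Geo R β ℓ y) {θ : ℝ} (hθ : 0 ≤ θ) (hθ' : θ ≤ 1 / 4) :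
    ∑ e : Fin N → Bool, Pt κ R β ℓ θ y e ≤ -(2 ^ N * (N * (N - 1) / 2 * ((2 * ℓ)⁻¹ *
      ∑ a, mm (phi R β) (cell ℓ y) θ a ^ 2 * TT (tau (phi R β) (cell ℓ y) θ) a (N - 2)))) := by
  unfold Pt
  rw [Finset.sum_comm]
  have h1 : ∀ i : Fin N, ∑ e : Fin N → Bool, ∑ j ∈ Finset.Ioi i, sgn (e i) * sgn (e j) *
      ∫ x : Fin N → E3, ‖x i - x j‖⁻¹ * trial (phi R β) (cell ℓ y) θ e x ^ 2 ≤
      ((Finset.Ioi i).card : ℝ) * (-(2 ^ N * ((2 * ℓ)⁻¹ *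
      ∑ a, mm (phi R β) (cell ℓ y) θ a ^ 2 * TT (tau (phi R β) (cell ℓ y) θ) a (N - 2)))) := by
    intro i
    rw [Finset.sum_comm, ← nsmul_eq_mul, ← Finset.sum_const]
    exact Finset.sum_le_sum fun j hj =>
      P_sum (geo_cells hG) hθ hθ' (ne_of_lt (Finset.mem_Ioi.mp hj))
  refine (Finset.sum_le_sum fun i _ => h1 i).trans (le_of_eq ?_)
  rw [← Finset.sum_mul, card_pairs]
  ring

omit [DecidableEq κ] in
theorem Zt_pos [Nonempty κ] (hG : Geo R β ℓ y) (θ : ℝ) (e : Fin N → Bool) :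
    0 < Zt κ R β ℓ θ y e := by
  have hC : Cells κ (phi R β) (cell ℓ y) (3 * R) ℓ := geo_cells hG
  obtain ⟨a⟩ := ‹Nonempty κ›
  set u : E3 := y a + ℓ • EuclideanSpace.single 0 (1 : ℝ) with hu
  have hua : ‖u - y a‖ = ℓ := by
    rw [hu, add_sub_cancel_left, norm_smul]
    simp [abs_of_pos hG.ℓpos]
  have hzero : ∀ b, cell ℓ y b u = 0 := by
    intro b
    by_contra hcon
    have h1 := cell_ne hG hcon
    by_cases hb : b = a
    · subst hb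
      linarith
    · have h2 := hG.sep b a hb
      have h3 : ‖y b - y a‖ ≤ ‖u - y a‖ + ‖u - y b‖ := by
        have : y b - y a = (u - y a) - (u - y b) := by abel
        rw [this]
        exact norm_sub_le _ _
      have := hG.ℓpos
      linarith
  have hphi : phi R β u = β := phi_flat hG hua.le
  unfold Zt
  refine Continuous.integral_pos_of_hasCompactSupport_nonneg_nonzero
    (x := fun _ : Fin N => u) ((trial_cont hC θ e).pow 2) ?_ (fun _ => sq_nonneg _) ?_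
  · have h1 : HasCompactSupport (fun x : Fin N → E3 => trial (phi R β) (cell ℓ y) θ e x) :=
      cpt_of_zero (trial_zero' hC.φs θ e)
    exact h1.comp_left (g := fun t : ℝ => t ^ 2) (by simp)
  · have h2 : trial (phi R β) (cell ℓ y) θ e (fun _ : Fin N => u) = β ^ N := by
      unfold trial
      simp only [hzero, hphi, mul_zero, Finset.sum_const_zero, Real.cos_zero,
        Finset.prod_const_one, mul_one, Finset.prod_const, Finset.card_univ, Fintype.card_fin]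
    show trial (phi R β) (cell ℓ y) θ e (fun _ : Fin N => u) ^ 2 ≠ 0
    rw [h2]
    have := hG.βpos
    positivity

theorem energy_le [Nonempty κ] (hG : Geo R β ℓ y) {n : ℕ} {C : ℝ}
    (hC0 : ∀ θ q ε : ℝ, 0 ≤ θ → θ ≤ 1 → |ε| ≤ 1 → ∀ y : E3,
      ‖iteratedFDeriv ℝ 0 (fun y : E3 => Real.cos (θ * (q + ε * bb y)) - Real.cos (θ * q)) y‖
        ≤ C * θ)
    (hC : ∀ θ q ε : ℝ, 0 ≤ θ → θ ≤ 1 → |ε| ≤ 1 → ∀ y : E3,
      ‖iteratedFDeriv ℝ n (fun y : E3 => Real.cos (θ * (q + ε * bb y)) - Real.cos (θ * q)) y‖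
        ≤ C * θ) {θ : ℝ} (hθ0 : 0 ≤ θ) (hθ1 : θ ≤ 1 / 4) {α : ℝ} (hα : 0 ≤ α) (hn : α ≤ 2 * n)
    (hN : 2 ≤ N)
    (ht1 : Fintype.card κ * (β ^ 2 * ℓ ^ 3 * (2 * θ ^ 2 * m1)) ≤ 1 / 4)
    (ht2 : N * (β ^ 2 * ℓ ^ 3 * (2 * θ ^ 2 * m1)) ≤ 3 / 8) {lam : ℝ}
    (hlam : N * (8 / 3 * ((R⁻¹) ^ α * (β ^ 2 * R ^ 3 * (En 0 + 3 ^ n * (3 * En n)))) +
        16 / 3 * ((ℓ⁻¹) ^ α * (β ^ 2 * ℓ ^ 3 * (C * θ) ^ 2 * v1 * (1 + 3 ^ n * 3) *
          Fintype.card κ))) -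
        N * (N - 1) / 2 * ((2 * ℓ)⁻¹ * (Fintype.card κ *
          ((β ^ 2 * ℓ ^ 3 * (θ * m1)) ^ 2 * (1 / 3)))) ≤ lam) :
    E0 α N ≤ (lam : EReal) := by
  set τ := tau (phi R β) (cell ℓ y) θ with hτ
  set t := β ^ 2 * ℓ ^ 3 * (2 * θ ^ 2 * m1) with ht
  have hτ0 : ∀ a, 0 ≤ τ a := fun a => tau_nonneg _ _ θ a
  have hτ1 : ∀ a, τ a ≤ t := fun a => tau_le hG θ a
  have hR := hG.Rpos
  have hℓ := hG.ℓpos
  have hβ := hG.βpos
  have hS := SS_pos hτ0 hτ1 ht1 N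
  have hSN : SS τ (N - 1) ≤ 4 / 3 * SS τ N := by
    have := SS_le hτ0 hτ1 ht1 (N - 1)
    rwa [Nat.sub_add_cancel (by omega)] at this
  have hEn : ∀ n, 0 ≤ En n := fun n => integral_nonneg fun u => sq_nonneg _
  have hv1 := v1_nonneg
  -- kinetic sum
  have hKsum : ∑ e : Fin N → Bool, ∑ i : Fin N, KB κ α R β ℓ θ C y n e i ≤
      2 ^ N * SS τ N * (N * (8 / 3 * ((R⁻¹) ^ α * (β ^ 2 * R ^ 3 * (En 0 + 3 ^ n * (3 * En n)))) +
        16 / 3 * ((ℓ⁻¹) ^ α * (β ^ 2 * ℓ ^ 3 * (C * θ) ^ 2 * v1 * (1 + 3 ^ n * 3) *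
          Fintype.card κ)))) := by
    rw [Finset.sum_comm]
    have h1 : ∀ i : Fin N, ∑ e : Fin N → Bool, KB κ α R β ℓ θ C y n e i ≤
        2 ^ N * SS τ N * (8 / 3 * ((R⁻¹) ^ α * (β ^ 2 * R ^ 3 * (En 0 + 3 ^ n * (3 * En n)))) +
        16 / 3 * ((ℓ⁻¹) ^ α * (β ^ 2 * ℓ ^ 3 * (C * θ) ^ 2 * v1 * (1 + 3 ^ n * 3) *
          Fintype.card κ))) := by
      intro i
      rw [KB_sum hG]
      have hSA : ∑ a, SA τ a (N - 1) ≤ Fintype.card κ * (8 / 3 * SS τ N) := by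
        rw [← nsmul_eq_mul, ← Finset.card_univ, ← Finset.sum_const]
        refine Finset.sum_le_sum fun a _ => ?_
        have := SA_le hτ0 hτ1 ht1 a (N - 1)
        linarith
      have e0 := hEn 0
      have en := hEn n
      have a1 : (R⁻¹) ^ α * (β ^ 2 * R ^ 3 * (En 0 + 3 ^ n * (3 * En n)) * SS τ (N - 1)) ≤
          (R⁻¹) ^ α * (β ^ 2 * R ^ 3 * (En 0 + 3 ^ n * (3 * En n)) * (4 / 3 * SS τ N)) := by
        gcongr
      have a2 : (ℓ⁻¹) ^ α * (β ^ 2 * ℓ ^ 3 * (C * θ) ^ 2 * v1 * (1 + 3 ^ n * 3) *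
          ∑ a, SA τ a (N - 1)) ≤ (ℓ⁻¹) ^ α * (β ^ 2 * ℓ ^ 3 * (C * θ) ^ 2 * v1 * (1 + 3 ^ n * 3) *
          (Fintype.card κ * (8 / 3 * SS τ N))) := by
        gcongr
      calc _ ≤ 2 ^ N * (2 * ((R⁻¹) ^ α * (β ^ 2 * R ^ 3 * (En 0 + 3 ^ n * (3 * En n)) *
            (4 / 3 * SS τ N))) + 2 * ((ℓ⁻¹) ^ α * (β ^ 2 * ℓ ^ 3 * (C * θ) ^ 2 * v1 *
            (1 + 3 ^ n * 3) * (Fintype.card κ * (8 / 3 * SS τ N))))) := by
            apply mul_le_mul_of_nonneg_left _ (by positivity)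
            linarith
        _ = _ := by ring
    refine (Finset.sum_le_sum fun i _ => h1 i).trans (le_of_eq ?_)
    rw [Finset.sum_const, Finset.card_univ, Fintype.card_fin, nsmul_eq_mul]
    ring
  -- potential sum
  have hPsum : ∑ e : Fin N → Bool, Pt κ R β ℓ θ y e ≤
      -(2 ^ N * SS τ N * (N * (N - 1) / 2 * ((2 * ℓ)⁻¹ * (Fintype.card κ *
          ((β ^ 2 * ℓ ^ 3 * (θ * m1)) ^ 2 * (1 / 3)))))) := by
    refine (Pt_sum hG hθ0 hθ1).trans ?_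
    apply neg_le_neg
    have hsum : Fintype.card κ * ((β ^ 2 * ℓ ^ 3 * (θ * m1)) ^ 2 * (1 / 3) * SS τ N) ≤
        ∑ a, mm (phi R β) (cell ℓ y) θ a ^ 2 * TT τ a (N - 2) := by
      rw [← nsmul_eq_mul, ← Finset.card_univ, ← Finset.sum_const]
      refine Finset.sum_le_sum fun a _ => ?_
      have h1 := mm_ge hG hθ0 hθ1 a
      have h2 : 0 ≤ β ^ 2 * ℓ ^ 3 * (θ * m1) := by
        have := m1_pos
        positivity
      have h3 : (β ^ 2 * ℓ ^ 3 * (θ * m1)) ^ 2 ≤ mm (phi R β) (cell ℓ y) θ a ^ 2 :=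
        pow_le_pow_left₀ h2 h1 2
      have h4 := SS_le_TT hτ0 hτ1 ht1 N ht2 a
      have h5 : TT τ a N ≤ TT τ a (N - 2) := by
        have := TT_ge hτ0 hτ1 ht1 a (N - 2)
        rwa [Nat.sub_add_cancel hN] at this
      have h6 : 1 / 3 * SS τ N ≤ TT τ a (N - 2) := by linarith
      calc (β ^ 2 * ℓ ^ 3 * (θ * m1)) ^ 2 * (1 / 3) * SS τ N
          = (β ^ 2 * ℓ ^ 3 * (θ * m1)) ^ 2 * (1 / 3 * SS τ N) := by ring
        _ ≤ mm (phi R β) (cell ℓ y) θ a ^ 2 * TT τ a (N - 2) :=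
          mul_le_mul h3 h6 (by positivity) (sq_nonneg _)
    have hN1 : (0 : ℝ) ≤ N * (N - 1) / 2 := by
      have : (2 : ℝ) ≤ N := by exact_mod_cast hN
      nlinarith
    calc 2 ^ N * SS τ N * (N * (N - 1) / 2 * ((2 * ℓ)⁻¹ * (Fintype.card κ *
          ((β ^ 2 * ℓ ^ 3 * (θ * m1)) ^ 2 * (1 / 3)))))
        = 2 ^ N * (N * (N - 1) / 2 * ((2 * ℓ)⁻¹ * (Fintype.card κ *
          ((β ^ 2 * ℓ ^ 3 * (θ * m1)) ^ 2 * (1 / 3) * SS τ N)))) := by ring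
      _ ≤ _ := by
        apply mul_le_mul_of_nonneg_left _ (by positivity)
        apply mul_le_mul_of_nonneg_left _ hN1
        apply mul_le_mul_of_nonneg_left hsum (by positivity)
  -- choose the charges
  have htotal : ∑ e : Fin N → Bool, (∑ i : Fin N, KB κ α R β ℓ θ C y n e i +
      Pt κ R β ℓ θ y e) ≤ ∑ e : Fin N → Bool, lam * Zt κ R β ℓ θ y e := by
    rw [Finset.sum_add_distrib, ← Finset.mul_sum, Zt_sum hG]
    have hpos : 0 < 2 ^ N * SS τ N := by positivity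
    have := mul_le_mul_of_nonneg_left hlam hpos.le
    linarith
  obtain ⟨e, -, he⟩ := Finset.exists_le_of_sum_le (Finset.univ_nonempty) htotal
  refine E0_le_of_trial e (tS hG θ e) (∑ i : Fin N, KB κ α R β ℓ θ C y n e i) ?_ ?_ ?_ ?_
  · refine Finset.sum_nonneg fun i _ => ?_
    unfold KB
    have n0 := J0_nonneg R β ℓ θ y e i 0
    have n1 := J0_nonneg R β ℓ θ y e i n
    have n2 := J1_nonneg R β ℓ θ C y e i 0
    have n3 := J1_nonneg R β ℓ θ C y e i n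
    positivity
  · unfold kinetic
    rw [ENNReal.ofReal_sum_of_nonneg]
    · exact Finset.sum_le_sum fun i _ => kinAt_le hG hC0 hC hθ0 (by linarith) hα hn e i
    · intro i _
      unfold KB
      have n0 := J0_nonneg R β ℓ θ y e i 0
      have n1 := J0_nonneg R β ℓ θ y e i n
      have n2 := J1_nonneg R β ℓ θ C y e i 0
      have n3 := J1_nonneg R β ℓ θ C y e i n
      positivity
  · rw [tS_norm hG]
    exact Zt_pos hG θ e
  · rw [tS_norm hG, tS_pot hG]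
    exact he

end

end Pool.Agent.H.MP_d1ae63_mp.Up
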